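import Pool.Agent.MP_154433_an.t5.DefsR

/-! The data of the algebraic step for the line with a twist slot. -/

set_option autoImplicit false
set_option linter.unusedVariables false
set_option warn.classDefReducibility false

open MeasureTheory ProbabilityTheory Filter Topology Function Finset ComplexConjugate
open scoped BigOperators

noncomputable section

namespace T5x

open T3x

/-- the finite-level data without the relation: `N v` is the event that `v` is trivial,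
`Sg l v v'` the event that the step with label `l` from `y` to `T ^ n l y` sends `v` to `v'` -/
structure AlgD1 (ν : Wt) (U : Ultrafilter ℕ) (X : Sys) {V : Type} [AddCommGroup V] (sg : AddAut V)
    (N : V → Set X.X) (Sg : Lab → V → V → Set X.X) (n : Lab → ℤ) : Prop where
  hU : (U : Filter ℕ) ≤ atTop
  erg : ERG ν
  hn : ∀ l, n l = l.2.2 - l.2.1
  mN : ∀ v, MeasurableSet (N v)
  mS : ∀ l v v', MeasurableSet (Sg l v v')
  n0 : ∀ᵐ x ∂X.μ, x ∈ N 0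
  nsub : ∀ v v', ∀ᵐ x ∂X.μ, x ∈ N v → x ∈ N v' → x ∈ N (v - v')
  nsh : ∀ v, ∀ᵐ x ∂X.μ, x ∈ N (sg v) ↔ X.T x ∈ N v
  sub : ∀ a a' b b', Nl ν U X fun l => (Sg l a a' ∩ Sg l b b') \ Sg l (a - b) (a' - b')
  triv : ∀ a a', Nl ν U X fun l => (Sg l 0 0 ∩ N a ∩ X.Tz (n l) ⁻¹' N a') \ Sg l a a'
  ker : ∀ a a', Nl ν U X fun l => Sg l a a' ∩ {y | ¬ (y ∈ N a ↔ X.Tz (n l) y ∈ N a')}
  tot : ∀ (a : V) (ε : ℝ), 0 < ε → ∃ F : Finset V, ∀ᶠ M in (U : Filter ℕ),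
    (ν.av2 M fun l => X.μ.real (Sg l 0 0 \ ⋃ a' ∈ F, Sg l a a')) ≤ ε ∧
    (ν.av2 M fun l => X.μ.real (Sg l 0 0 \ ⋃ a' ∈ F, Sg l a' a)) ≤ ε
  sh : ∀ a a', Nl ν U X fun l => {y | ¬ (y ∈ Sg l (sg a) (sg a') ↔ X.T y ∈ Sg l a a')}
  flat : ∀ a b a' b', ∃ φ : Lab → ℝ, Tendsto (fun M => ν.av2 M φ) U (𝓝 0) ∧ ∀ l,
    Tendsto (fun M => ν.av2 M fun l' => X.μ.real {y | y ∈ Sg l' a b ∧
      y ∈ Sg l' ((n l • sg) a') ((n l • sg) b') ∧
      ¬ (y ∈ Sg l a a' ↔ X.Tz (n l') y ∈ Sg l b b')}) U (𝓝 (φ l))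
  dec : ∀ a a', Nl ν U X fun l => N (((l.2.1 - l.2.2) • sg) a - a') \ N a'

/-- the same with the relation -/
structure AlgD2 (ν : Wt) (U : Ultrafilter ℕ) (X : Sys) {V : Type} [AddCommGroup V] (sg : AddAut V)
    (N : V → Set X.X) (Sg : Lab → V → V → Set X.X) (n : Lab → ℤ) : Prop
    extends AlgD1 ν U X sg N Sg n where
  rel2 : ∀ I : Set X.X, MeasurableSet I → X.T ⁻¹' I = I → Nl ν U X (fun l => Sg l 0 0 \ I) →
    ∃ c, Rel2 ν U X sg N I c

/-- the algebraic step -/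
def AlgS2 : Prop :=
  ∀ (ν : Wt) (U : Ultrafilter ℕ) (X : Sys) (V : Type) [AddCommGroup V] [Countable V]
    (sg : AddAut V) (N : V → Set X.X) (Sg : Lab → V → V → Set X.X) (n : Lab → ℤ),
    ¬ AlgD2 ν U X sg N Sg n

end T5x

end
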