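import Pool.Agent.MP_154433_an.t5.SpecR

/-! Row CoreF: the core theorem at finite level. -/

set_option autoImplicit false
set_option linter.unusedVariables false
set_option warn.classDefReducibility false

open MeasureTheory ProbabilityTheory Filter Topology Function Finset ComplexConjugate
open scoped BigOperators
open Fib27 (BM sup pr Oc Orow F23 LInd Mem)
open Pool.Agent.MP_154433_an.SG (Uni ufn)

noncomputable section

namespace T5x

open T3x

namespace CoreFx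

theorem ee_sub (d d' : ℤ) (t : ℝ) :
    ee (((d - d' : ℤ) : ℝ) * t) = ee ((d : ℝ) * t) * conj (ee ((d' : ℝ) * t)) := by
  simp only [ee]
  rw [← Complex.exp_conj, ← Complex.exp_add, map_mul, Complex.conj_ofReal, Complex.conj_I]
  congr 1
  push_cast
  ring

theorem sq_av (ν : Wt) (M : ℕ) (a : ℤ → ℂ) :
    ((‖ν.av M a‖ ^ 2 : ℝ) : ℂ) = ν.av2 M fun l => a l.2.1 * conj (a l.2.2) := by
  rw [← Complex.normSq_eq_norm_sq, ← Complex.mul_conj]
  simp only [Wt.av2, Wt.av, map_sum, sum_mul_sum, smul_sum]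
  refine sum_congr rfl fun d _ => sum_congr rfl fun d' _ => ?_
  simp only [Complex.real_smul, map_mul, Complex.conj_ofReal]
  ring

theorem int_av {Ω : Type} {m : MeasurableSpace Ω} (μ : Measure Ω) (ν : Wt) (M : ℕ) (φ : ℤ → Ω → ℂ)
    (h : ∀ d, Integrable (φ d) μ) :
    Integrable (fun x => ν.av M fun d => φ d x) μ ∧
      (ν.av M fun d => ∫ x, φ d x ∂μ) = ∫ x, (ν.av M fun d => φ d x) ∂μ := by
  refine ⟨integrable_finsetSum _ fun d _ => (h d).smul (ν.w M d), ?_⟩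
  simp only [Wt.av]
  refine Eq.trans ?_ (integral_finsetSum (f := fun d z => ν.w M d • φ d z) _
    fun d _ => (h d).smul (ν.w M d)).symm
  exact sum_congr rfl fun d _ => (integral_smul _ _).symm

theorem int_av2 {Ω : Type} {m : MeasurableSpace Ω} (μ : Measure Ω) (ν : Wt) (M : ℕ) (φ : Lab → Ω → ℂ)
    (h : ∀ l, Integrable (φ l) μ) :
    (ν.av2 M fun l => ∫ x, φ l x ∂μ) = ∫ x, (ν.av2 M fun l => φ l x) ∂μ := by
  simp only [Wt.av2]
  rw [← (int_av μ ν M (fun d x => ν.av M fun d' => φ (M, d, d') x)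
    fun d => (int_av μ ν M (fun d' => φ (M, d, d')) fun d' => h _).1).2]
  congr 1
  exact funext fun d => (int_av μ ν M (fun d' => φ (M, d, d')) fun d' => h _).2

open Ind2 in
theorem main (fd : Fd) (ν : Wt) (X : Sys) (B : MeasurableSpace X.X) (f : X.X → ℂ)
    (β : ℕ → ℤ → X.X → ℂ) (b : ℕ → X.X → ℝ) (hn : Nice X) (hB : KC X B) (hf : BM X.μ X.ms f)
    (hz : X.μ[f | B] =ᵐ[X.μ] 0) (hβ : ∀ M d, Measurable[B] (β M d)) (hβ1 : ∀ M d x, ‖β M d x‖ ≤ 1)
    (F : Lab × X.X → ℂ) (F3 : F ∈ FamS X.ms)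
    (hF : ∀ s, F s = ee (((s.1.2.1 - s.1.2.2 : ℤ) : ℝ) * b s.1.1 s.2))
    (hc : ∀ U : Ultrafilter ℕ, (U : Filter ℕ) ≤ atTop → ∀ (L : Ln ν U X) (f f' : X.X → ℂ),
      BM X.μ X.ms f → BM X.μ X.ms f' → X.μ[f | B] =ᵐ[X.μ] 0 →
      L.W.μ[fun w => f (L.π (zs true) w) * f' (L.π (zs false) w) * L.hat F w | L.shp B]
        =ᵐ[L.W.μ] 0) :
    Tendsto (fun M => ∫ x, ‖ν.av M fun d => β M d x * f (X.Tz d x) * ee ((d : ℝ) * b M x)‖ ^ 2
      ∂X.μ) atTop (𝓝 0) := by
  obtain ⟨f', hf', e⟩ := rep fd.a X.ms hf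
  have hg' : (fun x => conj (f' x)) ∈ @Bdd X.X X.ms :=
    ⟨Complex.continuous_conj.measurable.comp hf'.1, hf'.2.imp fun C hC x => by simpa using hC x⟩
  have b1 := bdd_bm X.μ hf'
  have hG0 : ∀ q : Lab → ℤ, (fun z : Lab × X.X => β z.1.1 (q z.1) z.2) ∈ FamS B := fun q =>
    ⟨fun l => hβ l.1 (q l), 1, fun z => hβ1 _ _ _⟩
  have hG := fam_mul (hG0 fun l => l.2.1) (fam_cj (hG0 fun l => l.2.2))
  have hG' := fam_mono hB.1.le hG
  have F1 := fam_of fd.t X (fd.t.top X) (rho (zs true)) hf'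
  have F2 := fam_of fd.t X (fd.t.top X) (rho (zs false)) hg'
  have hΦ := fam_mul hG' (fam_mul (fam_mul F1 F2) F3)
  refine (tendsto_iff_ultrafilter _ _ _).2 fun U hU => ?_
  obtain ⟨L⟩ := fd.line ν U X hn
  have hle := (fd.lb.fac L B hB.1).le
  have k := hc U hU L f' (fun x => conj (f' x)) b1 b1.conj ((condExp_congr_ae e.symm).trans hz)
  have bk := ((bm_comp (L.emb (zs true)).mp b1).mul (bm_comp (L.emb (zs false)).mp b1.conj)).mul
    (LfBx.hat_bm L F3)
  have z0 := Fib27.int_mul_ce hle (bdd_bm L.W.μ (B := L.shp B)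
    ⟨LfBx.hat_shp L hG, (LfBx.hat_bdd L hG').2⟩) bk
  have l := L.lim _ hΦ
  refine (tendsto_congr fun M => ?_).1 (((Complex.continuous_re.tendsto _).comp l).trans
    (le_of_eq (congrArg 𝓝 ?_)))
  · rw [comp_apply, int_av2 X.μ ν M _ fun l =>
      (bdd_bm (B := X.ms) X.μ ⟨hΦ.1 l, hΦ.2.imp fun C hC x => hC _⟩).integrable]
    refine Eq.trans (congrArg Complex.re (Eq.trans (integral_congr_ae ?_)
      (@integral_complex_ofReal _ X.ms _ _))) (Complex.ofReal_re _)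
    filter_upwards [ae_all_iff.2 fun d : ℤ => ae_comp (fd.t.mp X d) e] with x hx
    rw [sq_av, Wt.av2, Wt.av2]
    congr 1
    funext d
    congr 1
    funext d'
    simp only [hx, hF, ee_sub, map_mul, rho, zs, one_mul, if_true, Bool.false_eq_true, if_false]
    ring
  · refine Eq.trans (congrArg Complex.re (Eq.trans (Eq.trans (integral_congr_ae ?_) z0.symm)
      (integral_eq_zero_of_ae ?_))) Complex.zero_re
    · filter_upwards [L.slot (zs true) f' hf', L.slot (zs false) _ hg'] with w h1 h2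
      rw [(L.ch w).mul _ hG' _ (fam_mul (fam_mul F1 F2) F3), (L.ch w).mul _ (fam_mul F1 F2) _ F3,
        (L.ch w).mul _ F1 _ F2, ← h1, ← h2]
    · filter_upwards [k] with w hw
      rw [hw]
      simp

end CoreFx

theorem coreF : CoreFR := by
  intro fd az hc ν uw X B f β b hn hB hf hz hβ hβ1 hb
  refine CoreFx.main fd ν X B f β b hn hB hf hz hβ hβ1
    (fun s => 1 * ee (((s.1.2.1 - s.1.2.2 : ℤ) : ℝ) * b s.1.1 s.2)) ?_ (fun s => one_mul _)
    fun U hU L g g' h1 h2 h3 => hc ν U hU uw X B L hn hB g g' _ h1 h2 h3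
      ⟨fun _ _ => 1, b, fun _ => measurable_const, hb, ⟨1, fun _ _ => by simp⟩, rfl⟩
  exact @az.fam _ X.ms _
    ⟨fun _ _ => 1, b, fun _ => measurable_const, hb, ⟨1, fun _ _ => by simp⟩, rfl⟩

end T5x

end
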