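import Pool.Agent.MP_154433_an.t5.SpecR

/-! Row CovT: the tail bound on the event that the labels are covered. -/

set_option autoImplicit false
set_option linter.unusedVariables false
set_option warn.classDefReducibility false

open MeasureTheory ProbabilityTheory Filter Topology Function Finset ComplexConjugate
open scoped BigOperators
open Fib27 (BM sup pr Oc Orow F23 LInd Mem)
open Pool.Agent.MP_154433_an.SG (Uni ufn)

noncomputable section

namespace T5x

open T3x

namespace CovT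

variable {V : Type} [AddCommGroup V]

open Classical in
/-- covered by the sets `S i` -/
def CovS (n : V → Prop) (v : ℤ → V) (sp : Finset ℤ) (w : ℤ → ℝ) (K : ℕ) (ε : ℝ)
    (S : Fin K → Finset ℤ) : Prop :=
  (∀ i, Dis n v (S i)) ∧ ∑ d ∈ sp.filter (fun d => ¬ n (v d) ∧ ∀ i, d ∉ S i), w d ≤ ε

theorem meas {Ω : Type} [MeasurableSpace Ω] {N : V → Set Ω} (hN : ∀ u, MeasurableSet (N u))
    (v : ℤ → V) (sp : Finset ℤ) (w : ℤ → ℝ) (K : ℕ) (ε : ℝ) (S : Fin K → Finset ℤ) :
    MeasurableSet {x | CovS (fun u => x ∈ N u) v sp w K ε S} := by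
  refine MeasurableSet.inter (measurableSet_setOfPred.2 (Measurable.forall fun i =>
    Measurable.forall fun P => measurable_const.imp (Measurable.forall fun Q =>
      measurable_const.imp (measurable_const.imp (measurable_const.imp (hN _).mem.not))))) ?_
  simp only [sum_filter]
  refine measurableSet_le (g := fun _ => ε) ?_ measurable_const
  exact Finset.measurable_sum _ fun d _ => Measurable.ite
    ((hN (v d)).compl.inter (MeasurableSet.const _)) measurable_const measurable_const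

theorem measTh {Ω : Type} [B : MeasurableSpace Ω] {m0 : MeasurableSpace Ω} (μ : @Measure Ω m0)
    (F : Ω → ℂ) : MeasurableSet[B] (Th B μ F) :=
  (stronglyMeasurable_condExp (m := B)).norm.measurable (measurableSet_singleton 1)

theorem norm_ee (t : ℝ) : ‖ee t‖ = 1 := Complex.norm_exp_ofReal_mul_I _

/-- the part that is not covered is small -/
theorem rest {n : V → Prop} {v : ℤ → V} {sp : Finset ℤ} {w : ℤ → ℝ} {K : ℕ} {ε : ℝ}
    {S : Fin K → Finset ℤ} (h : CovS n v sp w K ε S) {z : ℤ → ℂ} (hz : ∀ d, ‖z d‖ ≤ w d)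
    (h0 : ∀ d, n (v d) → z d = 0) :
    ‖∑ d ∈ sp, z d‖ ≤ ‖∑ d ∈ sp.filter (fun d => ∃ i, d ∈ S i), z d‖ + ε := by
  rw [← sum_filter_add_sum_filter_not sp fun d => ∃ i, d ∈ S i]
  refine (norm_add_le _ _).trans (add_le_add le_rfl (le_trans ?_ h.2))
  rw [sum_filter, sum_filter]
  refine norm_sum_le_of_le _ fun d _ => ?_
  by_cases h1 : ∃ i, d ∈ S i
  · rw [if_neg (not_not.2 h1), if_neg fun h2 => h1.elim fun i hi => h2.2 i hi, norm_zero]
  · rw [if_pos h1]
    by_cases h2 : n (v d)
    · rw [h0 d h2, if_neg fun h3 => h3.1 h2, norm_zero]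
    · rw [if_pos ⟨h2, not_exists.1 h1⟩]
      exact hz d

/-- a bound on the pieces of a partition -/
theorem glue {Ω : Type} [MeasurableSpace Ω] (μ : Measure Ω) [IsProbabilityMeasure μ]
    {E : ℕ → Set Ω} (hE : ∀ i, MeasurableSet (E i)) (hd : Pairwise (Disjoint on E)) {A : Set Ω}
    {c : ℝ} (hc : 0 ≤ c) (h : ∀ i, μ.real (E i ∩ A) ≤ c * μ.real (E i)) :
    μ.real ((⋃ i, E i) ∩ A) ≤ c := by
  refine ENNReal.toReal_le_of_le_ofReal hc ?_
  rw [Set.iUnion_inter]
  calc μ (⋃ i, E i ∩ A) ≤ ∑' i, μ (E i ∩ A) := measure_iUnion_le _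
    _ ≤ ∑' i, ENNReal.ofReal c * μ (E i) := ENNReal.tsum_le_tsum fun i => by
      rw [← ofReal_measureReal (s := E i ∩ A), ← ofReal_measureReal (s := E i),
        ← ENNReal.ofReal_mul hc]
      exact ENNReal.ofReal_le_ofReal (h i)
    _ = ENNReal.ofReal c * μ (⋃ i, E i) := by rw [ENNReal.tsum_mul_left, measure_iUnion hd hE]
    _ ≤ ENNReal.ofReal c := mul_le_of_le_one_right' prob_le_one

end CovT

open CovT in
theorem covT : CovR := by
  intro hS Ω V _ B m0 μ _ ψ v K sp a w b a0 n Q s t ε hc ha hw h0 h1 h2 h3 h4 h5 h6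
  obtain ⟨e, he⟩ := exists_surjective_nat (Fin K → Finset ℤ)
  have hN : ∀ u, MeasurableSet[B] (Th B μ (ψ u)) := fun u => measTh (B := B) μ _
  have hE : ∀ i, MeasurableSet[B]
      (disjointed (fun i => {x | CovS (fun u => x ∈ Th B μ (ψ u)) v sp w K ε (e i)}) i) :=
    MeasurableSet.disjointed fun i => @meas V _ Ω B _ hN v sp w K ε (e i)
  have eq : {x | Cov (fun u => x ∈ Th B μ (ψ u)) v sp w K ε} =
      ⋃ i, disjointed (fun i => {x | CovS (fun u => x ∈ Th B μ (ψ u)) v sp w K ε (e i)}) i := by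
    rw [iUnion_disjointed]
    ext x
    rw [Set.mem_iUnion]
    exact he.exists
  rw [eq]
  refine ⟨MeasurableSet.iUnion hE, glue μ (fun i => hc.le _ (hE i)) (disjoint_disjointed _)
    (by positivity) fun i => ?_⟩
  have h7 := hS Ω V B m0 μ ψ v K (e i) sp _ a w b a0 n Q s t hc (hE i)
    (fun x hx => (disjointed_subset _ i hx).1) ha hw h1 h2 h3 h4 h5 h6
  rw [mul_right_comm] at h7
  refine le_trans (ENNReal.toReal_mono (measure_ne_top _ _) (measure_mono_ae ?_)) h7
  filter_upwards [ae_all_iff.2 fun d => (hc.um (v d)).2] with x hx hb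
  have h8 := rest (z := fun d => a d x * ψ (v d) x * ee ((d : ℝ) * b x))
    (disjointed_subset _ i hb.1) (fun d => by
      rw [norm_mul, norm_mul, norm_ee, hx, mul_one, mul_one]
      exact hw d x) fun d hd => by rw [h0 d x hd, zero_mul, zero_mul]
  exact ⟨hb.1, lt_of_add_lt_add_right (lt_of_lt_of_le hb.2 h8)⟩

end T5x

end
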