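import Pool.Agent.MP_154433_an.t5.SpecR

/-! A family that is stable under differences stays orthogonal to the hull. -/

set_option autoImplicit false
set_option linter.unusedVariables false
set_option warn.classDefReducibility false

open MeasureTheory ProbabilityTheory Filter Topology Function Finset ComplexConjugate
open scoped BigOperators
open Fib27 (BM sup pr Oc Orow F23 LInd Mem)
open Pool.Agent.MP_154433_an.SG (Uni ufn)

noncomputable section

namespace T5x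

open T3x

namespace HZ

theorem bound {Ω : Type} (C C' : MeasurableSpace Ω) {m0 : MeasurableSpace Ω} (μ : Measure Ω)
    [IsProbabilityMeasure μ] (hC : C ≤ C') (hC' : C' ≤ m0) {F g k r : Ω → ℂ} (hg : BM μ m0 g)
    (hk : BM μ C k) (hr : BM μ m0 r) (e : F =ᵐ[μ] fun y => k y * g y + r y)
    (h0 : μ[g | C'] =ᵐ[μ] 0) : ∫ x, ‖(μ[F | C']) x‖ ∂μ ≤ ∫ x, ‖r x‖ ∂μ := by
  have hk' : BM μ C' k := hk.mono hC
  have e1 : μ[F | C'] =ᵐ[μ] μ[r | C'] := by
    filter_upwards [condExp_congr_ae (m := C') e, Fib27.ce_mul hC' hk' hg, h0,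
      condExp_add ((hk'.mono hC').mul hg).integrable hr.integrable C'] with x a1 a2 a3 a4
    rw [a1]
    refine Eq.trans a4 ?_
    rw [Pi.add_apply]
    rw [show (μ[fun y => k y * g y | C']) x = 0 by rw [a2, a3]; simp, zero_add]
  calc ∫ x, ‖(μ[F | C']) x‖ ∂μ = ∫ x, ‖(μ[r | C']) x‖ ∂μ :=
        integral_congr_ae (e1.mono fun x hx => by simp only [hx])
    _ ≤ ∫ x, (μ[fun y => ‖r y‖ | C']) x ∂μ :=
        integral_mono_ae integrable_condExp.norm integrable_condExp (norm_condExp_le r)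
    _ = ∫ x, ‖r x‖ ∂μ := integral_condExp hC'

theorem chain (hd : BasD) {Ω : Type} (𝒞 : Set (MeasurableSpace Ω)) {m0 : MeasurableSpace Ω}
    (μ : Measure Ω) [IsProbabilityMeasure μ] {g : Ω → ℂ} (hg : BM μ m0 g) (h1 : 𝒞.Nonempty)
    (h2 : DirectedOn (· ≤ ·) 𝒞) (h3 : ∀ C ∈ 𝒞, C ≤ m0 ∧ μ[g | C] =ᵐ[μ] 0) :
    μ[g | sSup 𝒞] =ᵐ[μ] 0 := by
  have hM : sSup 𝒞 ≤ m0 := sSup_le fun C hC => (h3 C hC).1
  have g3 : ∫ x, ‖(μ[g | sSup 𝒞]) x‖ ^ 2 ∂μ = 0 := by
    refine le_antisymm (le_of_forall_pos_le_add fun ε hε => ?_)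
      (integral_nonneg fun _ => sq_nonneg _)
    obtain ⟨C, c1, c2⟩ := hd.chain 𝒞 μ h1 h2 (fun C hC => (h3 C hC).1) _ (hg.memLp 2) ε hε
    rw [zero_add]
    refine le_of_eq_of_le (integral_congr_ae ?_) (c2 C c1 le_rfl)
    filter_upwards [(h3 C c1).2] with x e
    rw [e, Pi.zero_apply, sub_zero]
  rw [integral_eq_zero_iff_of_nonneg (fun _ => sq_nonneg _)
    ((((hg.ce _).mono hM).memLp 2).integrable_norm_pow two_ne_zero)] at g3
  filter_upwards [g3] with x e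
  simpa using e

end HZ

theorem hz : HZR := by
  intro fd Y C α G e hN hC hG hd he h0
  refine fd.h.ind Y C (fun C' => ∀ a, Y.μ[G a | C'] =ᵐ[Y.μ] 0) hN hC h0 ?_ ?_
  · intro C' hC' hle hQ a
    refine (fd.kb.wm Y C' hN hC' (G a) ((hG a).memLp 2)).1
      (fd.ka.weak Y C' hN hC' (G a) (hG a) fun ε hε => ?_)
    refine ((he a).eventually (gt_mem_nhds hε)).frequently.mono fun N hN' => le_trans ?_ hN'.le
    refine mul_le_mul_of_nonneg_left (sum_le_sum fun n _ => ?_) (by positivity)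
    obtain ⟨a', k, r, hk, hr, hi, hE⟩ := hd a n
    exact (HZ.bound C C' Y.μ hle hC'.le (hG a') hk hr hE (hQ a')).trans hi
  · intro 𝒞 h1 h2 h3 a
    exact HZ.chain fd.d 𝒞 Y.μ (hG a) h1 h2.directedOn fun C' hC' =>
      ⟨(h3 C' hC').1.le, (h3 C' hC').2.2 a⟩

end T5x

end
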