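import Pool.Agent.MP_154433_an.t5.SpecR

/-! The exponential moment of a dissociated sum. -/

set_option autoImplicit false
set_option linter.unusedVariables false
set_option warn.classDefReducibility false

open MeasureTheory ProbabilityTheory Filter Topology Function Finset ComplexConjugate
open scoped BigOperators
open Fib27 (BM sup pr Oc Orow F23 LInd Mem)
open Pool.Agent.MP_154433_an.SG (Uni ufn)

noncomputable section

namespace T5x

open T3x

namespace Mgf

theorem exp_le {t w : ℝ} (h : |t| ≤ w) :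
    Real.exp t ≤ Real.cosh w + Real.sinh w / w * t := by
  rcases ((abs_nonneg t).trans h).eq_or_lt with h0 | h0
  · obtain rfl : t = 0 := abs_nonpos_iff.1 (h0 ▸ h)
    simp [Real.one_le_cosh w]
  · have h1 : |t / w| ≤ 1 := by
      rw [abs_div, abs_of_pos h0]
      exact (div_le_one h0).2 h
    have h2 := Real.exp_mul_le_cosh_add_mul_sinh h1 w
    rw [div_mul_cancel₀ _ h0.ne'] at h2
    refine h2.trans_eq ?_
    ring

variable {Ω V : Type} [AddCommGroup V] {B m0 : MeasurableSpace Ω} {μ : Measure Ω}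
  [IsProbabilityMeasure μ] {ψ : V → Ω → ℂ} {E : Set Ω}

/-- `ψ u` is orthogonal to the bounded functions of the base that live on `E` -/
def Zo (B : MeasurableSpace Ω) {m0 : MeasurableSpace Ω} (μ : Measure Ω) (ψ : V → Ω → ℂ)
    (E : Set Ω) (u : V) : Prop :=
  ∀ φ, BM μ B φ → (∀ x ∉ E, φ x = 0) → ∫ x, φ x * ψ u x ∂μ = 0

omit [IsProbabilityMeasure μ] in
theorem bm (h : Chr B μ ψ) (u : V) : BM μ m0 (ψ u) := .of_uni (h.um u).1 (h.um u).2

theorem zo (h : Chr B μ ψ) {u : V} (hu : ∀ x ∈ E, x ∉ Th B μ (ψ u)) : Zo B μ ψ E u := by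
  intro φ hφ h0
  rw [← Fib27.int_mul_ce h.le hφ (bm h u)]
  refine integral_eq_zero_of_ae ?_
  filter_upwards [h.onn u] with x hx
  by_cases hE : x ∈ E
  · simp [norm_eq_zero.1 (hx.resolve_right (hu x hE))]
  · simp [h0 x hE]

theorem key (h : Chr B μ ψ) (v : ℤ → V) (al : ℤ → ℂ) (c c' : ℤ → Ω → ℂ)
    (hc : ∀ d, BM μ B (c d)) (hc' : ∀ d, BM μ B (c' d)) (S : Finset ℤ) :
    ∀ u : V, (∀ P ⊆ S, ∀ Q ⊆ S, Disjoint P Q → (P ∪ Q).Nonempty →
      Zo B μ ψ E (u + (∑ d ∈ P, v d - ∑ d ∈ Q, v d))) →
    ∀ φ, BM μ B φ → (∀ x ∉ E, φ x = 0) →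
      ∫ x, φ x * ψ u x * pr (fun d x => al d + c d x * ψ (v d) x + c' d x * ψ (-v d) x) S x ∂μ =
        (∏ d ∈ S, al d) * ∫ x, φ x * ψ u x ∂μ := by
  induction S using Finset.induction_on with
  | empty => intro u _ φ _ _; simp [pr]
  | insert e S he ih =>
    intro u H φ hφ h0
    set F := pr (fun d x => al d + c d x * ψ (v d) x + c' d x * ψ (-v d) x) S with hF
    have bF : BM μ m0 F := BM.pr fun d _ => ((BM.const _).add (((hc d).mono h.le).mul (bm h _))).add
      (((hc' d).mono h.le).mul (bm h _))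
    have ins : ∀ P ⊆ S, e ∉ P := fun P hP h1 => he (hP h1)
    have i0 := ih u (fun P hP Q hQ => H P (hP.trans (subset_insert _ _)) Q
      (hQ.trans (subset_insert _ _))) φ hφ h0
    have i1 := ih (u + v e) (fun P hP Q hQ hd _ => by
      have := H (insert e P) (insert_subset_insert _ hP) Q (hQ.trans (subset_insert _ _))
        (disjoint_insert_left.2 ⟨ins Q hQ, hd⟩) ⟨e, by simp⟩
      rwa [sum_insert (ins P hP), add_sub_assoc, ← add_assoc] at this)
      (fun x => φ x * c e x) (hφ.mul (hc e)) fun x hx => by simp [h0 x hx]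
    have i2 := ih (u + -v e) (fun P hP Q hQ hd _ => by
      have := H P (hP.trans (subset_insert _ _)) (insert e Q) (insert_subset_insert _ hQ)
        (disjoint_insert_right.2 ⟨ins P hP, hd⟩) ⟨e, by simp⟩
      rw [sum_insert (ins Q hQ)] at this
      convert this using 1
      abel)
      (fun x => φ x * c' e x) (hφ.mul (hc' e)) fun x hx => by simp [h0 x hx]
    have z1 := H {e} (by simp) ∅ (by simp) (by simp) (by simp) (fun x => φ x * c e x)
      (hφ.mul (hc e)) fun x hx => by simp [h0 x hx]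
    have z2 := H ∅ (by simp) {e} (by simp) (by simp) (by simp) (fun x => φ x * c' e x)
      (hφ.mul (hc' e)) fun x hx => by simp [h0 x hx]
    simp only [sum_singleton, sum_empty, sub_zero, zero_sub] at z1 z2
    rw [z1, mul_zero] at i1
    rw [z2, mul_zero] at i2
    have b0 := (((hφ.mono h.le).mul (bm h u)).mul bF).integrable
    have b1 := ((((hφ.mul (hc e)).mono h.le).mul (bm h (u + v e))).mul bF).integrable
    have b2 := ((((hφ.mul (hc' e)).mono h.le).mul (bm h (u + -v e))).mul bF).integrable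
    rw [prod_insert he, mul_assoc, ← i0, ← integral_const_mul, ← add_zero (∫ x, al e * _ ∂μ), ← i1,
      ← integral_add (b0.const_mul _) b1, ← add_zero (∫ x, al e * _ + _ ∂μ), ← i2,
      ← integral_add (f := fun x => al e * (φ x * ψ u x * F x) +
        φ x * c e x * ψ (u + v e) x * F x) ((b0.const_mul _).add b1) b2]
    refine integral_congr_ae ?_
    filter_upwards [h.add u (v e), h.add u (-v e)] with x h1 h2
    rw [Fib27.pr_insert _ he, h1, h2]
    ring

end Mgf

open Mgf in
theorem mgf : Mgf := by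
  intro Ω V _ B m0 μ _ ψ v S E a w h hE hD ha hw
  have ba : ∀ d, BM μ B (a d) := fun d =>
    ⟨(ha d).stronglyMeasurable.aestronglyMeasurable, w d, .of_forall (hw d)⟩
  have K := key (E := E) h v (fun d => (Real.cosh (w d) : ℂ))
    (fun d x => ((Real.sinh (w d) / w d / 2 : ℝ) : ℂ) * a d x)
    (fun d x => ((Real.sinh (w d) / w d / 2 : ℝ) : ℂ) * conj (a d x))
    (fun d => (ba d).cmul _) (fun d => (ba d).conj.cmul _) S 0
    (fun P hP Q hQ hd hn => zo h fun x hx => by
      rw [zero_add]
      exact hD x hx P hP Q hQ hd hn)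
    (E.indicator fun _ => 1) (BM.indicator hE) fun x hx => Set.indicator_of_notMem hx _
  have hE0 : MeasurableSet[m0] E := h.le _ hE
  have e1 : ∫ x, (E.indicator fun _ => (1 : ℂ)) x * ψ 0 x ∂μ = (μ.real E : ℂ) := by
    rw [integral_congr_ae (g := E.indicator fun _ => (1 : ℂ))
      (h.zero.mono fun x hx => by simp [hx]), integral_indicator hE0]
    simp
  rw [e1, ← Complex.ofReal_prod, ← Complex.ofReal_mul] at K
  have bG := ((((BM.indicator hE).mono h.le).mul (bm h 0)).mul (BM.pr (S := S)
    (ρ := fun d x => (Real.cosh (w d) : ℂ) +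
      ((Real.sinh (w d) / w d / 2 : ℝ) : ℂ) * a d x * ψ (v d) x +
      ((Real.sinh (w d) / w d / 2 : ℝ) : ℂ) * conj (a d x) * ψ (-v d) x) fun d _ =>
    ((BM.const _).add ((((ba d).cmul _).mono h.le).mul (bm h _))).add
      ((((ba d).conj.cmul _).mono h.le).mul (bm h _)))).integrable
  have K' := integral_re bG
  rw [K, RCLike.re_to_complex, Complex.ofReal_re] at K'
  rw [← integral_indicator hE0]
  refine (integral_mono_of_nonneg (.of_forall fun x => Set.indicator_nonneg
    (fun x _ => (Real.exp_pos _).le) x) bG.re ?_).trans (K'.trans_le ?_)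
  · filter_upwards [h.zero, ae_all_iff.2 fun d => h.neg (v d), ae_all_iff.2 fun d => (h.um (v d)).2]
      with x h0 h1 h2
    by_cases hx : x ∈ E
    · have e2 : pr (fun d x => (Real.cosh (w d) : ℂ) +
          ((Real.sinh (w d) / w d / 2 : ℝ) : ℂ) * a d x * ψ (v d) x +
          ((Real.sinh (w d) / w d / 2 : ℝ) : ℂ) * conj (a d x) * ψ (-v d) x) S x =
          ((∏ d ∈ S, (Real.cosh (w d) + Real.sinh (w d) / w d * (a d x * ψ (v d) x).re) : ℝ) : ℂ) := by
        rw [Complex.ofReal_prod]
        refine prod_congr rfl fun d _ => ?_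
        beta_reduce
        rw [h1 d, Complex.ofReal_add, Complex.ofReal_mul, Complex.re_eq_add_conj, map_mul,
          Complex.ofReal_div _ 2, Complex.ofReal_ofNat]
        ring
      simp only [Set.indicator_of_mem hx, h0, one_mul, e2, RCLike.re_to_complex, Complex.ofReal_re]
      rw [Complex.re_sum, Real.exp_sum]
      refine prod_le_prod (fun d _ => (Real.exp_pos _).le) fun d _ => exp_le ?_
      refine (Complex.abs_re_le_norm _).trans ?_
      rw [norm_mul, h2 d, mul_one]
      exact hw d x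
    · simp [Set.indicator_of_notMem hx]
  · rw [mul_comm, sum_div, Real.exp_sum]
    exact mul_le_mul_of_nonneg_left (prod_le_prod (fun d _ => (Real.cosh_pos _).le)
      fun d _ => Real.cosh_le_exp_half_sq _) measureReal_nonneg

end T5x
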