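import Pool.Agent.MP_154433_an.t5.SpecR

/-! Row Pair: a point and the third slot are independent over the base of the point. -/

set_option autoImplicit false
set_option linter.unusedVariables false
set_option warn.classDefReducibility false

open MeasureTheory ProbabilityTheory Filter Topology Function Finset ComplexConjugate
open scoped BigOperators
open Fib27 (BM sup pr Oc Orow F23 LInd Mem)

noncomputable section

namespace T5x

open T3x

theorem pairS : PairR := by
  intro fd az p0 ν U hU uw X B L q hn hB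
  have em := L.emb (zs q)
  have fD := fd.t.fpull L.W X _ B em hB.1
  have fS := az.facS L B hB.1
  have fs := fd.lb.fac L B hB.1
  have hD : pull L.W.μ (L.π (zs q)) B ≤ AS L B := (fd.lb.slot L B _ hB.1).trans le_sup_right
  refine fd.h.disj L.W _ _ (AS L B) L.nice (fd.t.fpull L.W X _ X.ms em (fd.t.top X)) fD fS
    (sup_le_sup_right (MeasurableSpace.comap_mono hB.1.le) _) hD
    (fd.h.rwm L.W X _ B L.nice hn em hB) fun f hf => ?_
  obtain ⟨h1, C, hC⟩ := hf
  obtain ⟨f', m', b', e⟩ := fd.a.fact X.ms L.W.μ (L.π (zs q)) f (max C 0)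
    (le_sup_left.trans (fd.t.fpull L.W X _ X.ms em (fd.t.top X)).le) (le_max_right _ _) h1
    (hC.mono fun x hx => hx.trans (le_max_left _ _))
  have bf : BM X.μ X.ms f' := Ind2.bdd_bm X.μ ⟨m', _, b'⟩
  have be := (bf.ce B).mono hB.1.le
  obtain ⟨h, hh, eh⟩ := Ind2.rep fd.a X.ms (bf.sub be)
  have hz : X.μ[h | B] =ᵐ[X.μ] 0 := (condExp_congr_ae eh.symm).trans
    ((Fib27.perp_sub_ce hB.1.le bf).ce hB.1.le (bf.sub be))
  have bh := Ind2.bm_comp em.mp (Ind2.bdd_bm X.μ hh)
  have k0 := az.perp L B hB.1 _ bh fun F hF G hG => by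
    have bF := LfBx.hat_bm L (az.fam (m := X.ms) F hF)
    have bG : BM L.W.μ (L.shp B) (L.hat G) :=
      (LfBx.hat_bm L (Ind2.fam_mono hB.1.le hG)).of_aesm
        (LfBx.hat_shp L hG).stronglyMeasurable.aestronglyMeasurable
    simp only [← mul_assoc]
    exact Fib27.perp_of_ce fs.le (bh.mul bF) (p0 ν U hU uw X B L q hn hB h hh hz F hF) _ bG
  have bk := fd.a.bm_comp B L.W.μ X.μ _ _ em.mp (bf.ce B)
  have e2 : f =ᵐ[L.W.μ] (fun w => (X.μ[f' | B]) (L.π (zs q) w)) + fun w => h (L.π (zs q) w) := by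
    filter_upwards [e, Ind2.ae_comp em.mp eh] with w h1 h2
    rw [Pi.add_apply, ← h2, h1]
    ring
  filter_upwards [condExp_congr_ae (m := AS L B) e2,
    condExp_add (bk.mono fD.le).integrable bh.integrable (AS L B), k0,
    condExp_of_aestronglyMeasurable' fS.le (bk.mono hD).1 (bk.mono fD.le).integrable,
    condExp_congr_ae (m := pull L.W.μ (L.π (zs q)) B) e,
    fd.a.ce_comp B L.W.μ X.μ _ f' em.mp hB.1.le bf.integrable] with w h1 h2 h3 h4 h5 h6
  rw [h1, h2, Pi.add_apply, h3, h4, h5, h6, Pi.zero_apply, add_zero]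

end T5x

end
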