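import Pool.Agent.MP_154433_an.t5.SpecR

/-! Row Pair0: a point of conditional mean zero is orthogonal to the twists. -/

set_option autoImplicit false
set_option linter.unusedVariables false
set_option warn.classDefReducibility false

open MeasureTheory ProbabilityTheory Filter Topology Function Finset ComplexConjugate
open scoped BigOperators
open Fib27 (BM sup pr Oc Orow F23 LInd Mem)
open Pool.Agent.MP_154433_an.SG (Uni ufn)

noncomputable section

namespace T5x

open T3x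

namespace Pair0

open Ind2

theorem ee_add (s t : ℝ) : ee (s + t) = ee s * ee t := by
  rw [ee, ee, ee, ← Complex.exp_add]
  congr 1
  push_cast
  ring

theorem norm_ee (t : ℝ) : ‖ee t‖ = 1 := Complex.norm_exp_ofReal_mul_I _

theorem cj_ee (t : ℝ) : conj (ee t) = ee (-t) := by
  rw [ee, ee, ← Complex.exp_conj, map_mul, Complex.conj_ofReal, Complex.conj_I]
  congr 1
  push_cast
  ring

theorem meas_ee : Measurable ee := by
  unfold ee
  fun_prop

theorem norm_av_neg (ν : Wt) (M : ℕ) (t : ℝ) :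
    ‖ν.av M fun d => ee (-((d : ℝ) * t))‖ = ‖ν.av M fun d => ee ((d : ℝ) * t)‖ := by
  rw [← Complex.norm_conj (ν.av M fun d => ee ((d : ℝ) * t))]
  simp only [Wt.av, map_sum, Complex.real_smul, map_mul, Complex.conj_ofReal, cj_ee]

theorem intg_av {Ω : Type} {m : MeasurableSpace Ω} {μ : Measure Ω} (ν : Wt) (M : ℕ)
    {φ : ℤ → Ω → ℂ} (h : ∀ d, Integrable (φ d) μ) :
    Integrable (fun z => ν.av M fun d => φ d z) μ :=
  integrable_finsetSum _ fun d _ => (h d).smul (ν.w M d)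

theorem int_av {Ω : Type} {m : MeasurableSpace Ω} {μ : Measure Ω} (ν : Wt) (M : ℕ)
    {φ : ℤ → Ω → ℂ} (h : ∀ d, Integrable (φ d) μ) :
    (ν.av M fun d => ∫ z, φ d z ∂μ) = ∫ z, (ν.av M fun d => φ d z) ∂μ := by
  refine Eq.trans ?_ (integral_finsetSum (f := fun d z => ν.w M d • φ d z) _
    fun d _ => (h d).smul (ν.w M d)).symm
  exact sum_congr rfl fun d _ => (integral_smul _ _).symm

theorem bm_ee {Ω : Type} {m : MeasurableSpace Ω} (μ : Measure Ω) {Δ : Ω → ℝ} (h : Measurable Δ) :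
    BM μ m fun z => ee (Δ z) :=
  bdd_bm μ ⟨meas_ee.comp h, 1, fun z => (norm_ee _).le⟩

/-- twisted correlations -/
theorem corr (t : BasT) {ν : Wt} (uw : UW ν) (Z : Sys) {H : Z.X → ℂ} {G : ℕ → Z.X → ℂ}
    {Δ : ℕ → Z.X → ℝ} {C : ℝ} (hH : BM Z.μ Z.ms H) (h0 : Z.μ[H | T3x.Inv Z] =ᵐ[Z.μ] 0)
    (hG : ∀ M, Measurable (G M)) (hC : ∀ M z, ‖G M z‖ ≤ C) (hΔ : ∀ M, Measurable (Δ M)) :
    Tendsto (fun M => ν.av M fun d' => ν.av M fun d =>
      ∫ z, H (Z.Tz d z) * (G M z * ee (((d - d' : ℤ) : ℝ) * Δ M z)) ∂Z.μ) atTop (𝓝 0) := by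
  have l := (uw.tw0 Z H Δ hH h0 hΔ).const_mul C
  rw [mul_zero] at l
  refine squeeze_zero_norm (fun M => ?_) l
  have bT : ∀ d : ℤ, BM Z.μ Z.ms fun z => H (Z.Tz d z) := fun d => bm_comp (t.mp Z d) hH
  have bE : ∀ r : ℝ, BM Z.μ Z.ms fun z => ee (r * Δ M z) := fun r =>
    bm_ee Z.μ ((hΔ M).const_mul r)
  have bG : BM Z.μ Z.ms (G M) := bdd_bm Z.μ ⟨hG M, C, hC M⟩
  have i1 : ∀ d' d : ℤ, Integrable
      (fun z => H (Z.Tz d z) * (G M z * ee (((d - d' : ℤ) : ℝ) * Δ M z))) Z.μ :=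
    fun d' d => ((bT d).mul (bG.mul (bE _))).integrable
  simp only [fun d' => int_av ν M (i1 d')]
  rw [int_av ν M fun d' => intg_av ν M (i1 d'), ← integral_const_mul]
  have i2 : Integrable (fun z => ‖ν.av M fun d => H (Z.Tz d z) * ee ((d : ℝ) * Δ M z)‖ *
      ‖ν.av M fun d => ee ((d : ℝ) * Δ M z)‖) Z.μ :=
    (intg_av ν M fun d => ((bT d).mul (bE d)).integrable).norm.mul_bdd (c := 1)
      (intg_av ν M fun d => (bE d).integrable).norm.1
      (Eventually.of_forall fun z => by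
        rw [norm_norm]
        exact av_le ν M _ _ fun d => (norm_ee _).le)
  refine norm_integral_le_of_norm_le (i2.const_mul C) (Eventually.of_forall fun z => ?_)
  have e : (ν.av M fun d' => ν.av M fun d =>
      H (Z.Tz d z) * (G M z * ee (((d - d' : ℤ) : ℝ) * Δ M z))) =
      G M z * ((ν.av M fun d => H (Z.Tz d z) * ee ((d : ℝ) * Δ M z)) *
        ν.av M fun d => ee (-((d : ℝ) * Δ M z))) := by
    simp only [Wt.av, Complex.real_smul, mul_sum, sum_mul]
    refine sum_congr rfl fun d' _ => sum_congr rfl fun d _ => ?_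
    rw [show ((d - d' : ℤ) : ℝ) * Δ M z = (d : ℝ) * Δ M z + -((d' : ℝ) * Δ M z) by
      push_cast; ring, ee_add]
    ring
  rw [e, norm_mul, norm_mul, norm_av_neg]
  exact mul_le_mul_of_nonneg_right (hC M z) (by positivity)

theorem sq_lim (fd : Fd) {ν : Wt} (uw : UW ν) {X : Sys} (B : MeasurableSpace X.X) (hn : Nice X)
    (hB : KC X B) (q : Bool) {h : X.X → ℂ} (bh : BM X.μ X.ms h) (hz : X.μ[h | B] =ᵐ[X.μ] 0)
    {F : Lab × X.X → ℂ} (hF : F ∈ @Tw X.X X.ms) (hF' : F ∈ FamS X.ms) (k : Lab × X.X → ℂ)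
    (e : ∀ l, (fun x => k (l, x)) =ᵐ[X.μ]
      X.μ[fun x => h (X.Tz (rho (zs q) l) x) * F (l, x) | B]) :
    Tendsto (fun M => ν.av2 M fun l => ∫ x, k (l, x) * conj (k (l, x)) ∂X.μ) atTop (𝓝 0) := by
  obtain ⟨Z, p, hp⟩ : ∃ Z p, Pair X B Z p := fd.rp Bool (fun _ => X) X B (fun _ => id) false
    (fun _ => hn) hB.1 (fun _ => (fd.t.emb_id X).mp) fun _ A _ => by rw [id_comp, comp_id]
  have hw : WM X B h := (fd.kb.wm X B hn hB.1 h (bh.memLp 2)).2
    (by rwa [le_antisymm hB.2 (fd.kb.le X B hn hB.1)])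
  have o := (fd.ka.wm_iff X B Z p hB.1 hp h hw.1).1 hw
  have h0 : Z.μ[fun z => h (p false z) * conj (h (p true z)) | T3x.Inv Z] =ᵐ[Z.μ] 0 :=
    Fib27.Perp.ce (fun c hc => (integral_congr_ae (Eventually.of_forall fun z =>
      mul_right_comm _ _ _)).trans (o c _ hc bh.conj)) (fd.t.finv Z).le (bm_sq hp bh)
  obtain ⟨g, b, mg, mb, ⟨C, hC⟩, eF⟩ := hF
  have mp : ∀ i, @Measurable _ _ Z.ms X.ms (p i) := fun i =>
    @MeasurePreserving.measurable _ _ Z.ms X.ms _ _ _ (hp.emb i).mp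
  have l := corr fd.t uw Z (G := fun M z => g M (p false z) * conj (g M (p true z)))
    (Δ := fun M z => b M (p (!q) z) - b M (p q z)) (C := C * C) (bm_sq hp bh) h0
    (fun M => ((mg M).comp (mp false)).mul
      (Complex.continuous_conj.measurable.comp ((mg M).comp (mp true))))
    (fun M z => by
      rw [norm_mul, Complex.norm_conj]
      exact mul_le_mul (hC _ _) (hC _ _) (norm_nonneg _) ((norm_nonneg _).trans (hC M (p true z))))
    fun M => ((mb M).comp (mp _)).sub ((mb M).comp (mp _))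
  refine l.congr fun M => ?_
  rw [av2_eq ν M q]
  refine congrArg _ (funext fun d' => congrArg _ (funext fun d => ?_))
  obtain ⟨mF, D, hD⟩ := hF'
  have bF : BM X.μ X.ms fun x => F (lab q M d d', x) := bdd_bm X.μ ⟨mF _, D, fun x => hD _⟩
  have r : rho (zs q) (lab q M d d') = d := by cases q <;> simp [rho, zs, lab]
  have e1 := sq_int fd hB.1 hp bh bF d 0 (k := fun x => k (lab q M d d', x)) (by
    simpa only [fd.t.zero, r] using e (lab q M d d'))
  rw [e1]
  refine integral_congr_ae (Eventually.of_forall fun z => ?_)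
  simp only [fd.t.zero, eF, map_mul, cj_ee]
  congr 1
  rw [mul_mul_mul_comm, ← ee_add]
  cases q <;> simp only [lab, Bool.not_true, Bool.not_false] <;> congr 2 <;> push_cast <;> ring

end Pair0

open Ind2 in
theorem pair0 : Pair0R := by
  intro fd az ν U hU uw X B L q hn hB h hh hz F hF
  have bh : BM X.μ X.ms h := bdd_bm X.μ hh
  have F1 := fam_of fd.t X (fd.t.top X) (rho (zs q)) hh
  have F2 := az.fam (m := X.ms) F hF
  obtain ⟨F', hF', e⟩ := fd.lb.cex X B hB.1 _ (fam_mul F1 F2)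
  have e1 : (fun w => h (L.π (zs q) w) * L.hat F w) =ᵐ[L.W.μ]
      L.hat fun z => h (X.Tz (rho (zs q) z.1) z.2) * F z := by
    filter_upwards [L.slot (zs q) h hh] with w h1
    rw [h1, (L.ch w).mul _ F1 _ F2]
  have e2 := (condExp_congr_ae (m := L.shp B) e1).trans
    (fd.lb.ce L B hB.1 _ (fam_mul F1 F2) F' hF' e)
  have hm := fam_mono hB.1.le hF'
  have z0 := tendsto_nhds_unique (L.lim _ (fam_mul hm (fam_cj hm)))
    ((Pair0.sq_lim fd uw B hn hB q bh hz hF F2 F' e).mono_left hU)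
  have bb := ((bm_comp (L.emb (zs q)).mp bh).mul
    ((az.bm L F hF).mono (az.facP L).le)).ce (L.shp B)
  refine Fib27.eq_zero_of_int_conj (bb.mono (fd.lb.fac L B hB.1).le)
    ((integral_congr_ae ?_).trans z0)
  filter_upwards [e2] with w hw
  rw [hw, (L.ch w).mul _ hm _ (fam_cj hm), (L.ch w).cj _ hm]

end T5x

end
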