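import Pool.Agent.MP_154433_an.t5.SpecR

/-! A nontrivial pair that is determined by the third slot correlates with the twists. -/

set_option autoImplicit false
set_option linter.unusedVariables false
set_option warn.classDefReducibility false

open MeasureTheory ProbabilityTheory Filter Topology Function Finset ComplexConjugate
open scoped BigOperators
open Fib27 (BM sup pr Oc Orow F23 LInd Mem)
open Pool.Agent.MP_154433_an.SG (Uni ufn)

noncomputable section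

namespace T5x

open T3x

namespace Pass1

variable {V : Type} [AddCommGroup V]

theorem ae_pull {Ω Ω' : Type} {m : MeasurableSpace Ω} {m' : MeasurableSpace Ω'} {μ : Measure Ω}
    {μ' : Measure Ω'} {p : Ω → Ω'} (h : MeasurePreserving p μ μ') {P : Ω' → Prop}
    (e : ∀ᵐ y ∂μ', P y) : ∀ᵐ x ∂μ, P (p x) :=
  h.quasiMeasurePreserving.ae e

theorem int_norm {Ω Ω' : Type} {m : MeasurableSpace Ω} {m' : MeasurableSpace Ω'} {μ : Measure Ω}
    {μ' : Measure Ω'} {p : Ω → Ω'} (h : MeasurePreserving p μ μ') {f : Ω' → ℂ}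
    (hf : BM μ' m' f) : ∫ x, ‖f (p x)‖ ∂μ = ∫ y, ‖f y‖ ∂μ' := by
  rw [← h.map_eq, integral_map h.measurable.aemeasurable (by rw [h.map_eq]; exact hf.1.norm)]

theorem off_bm (rc : Rc) {X : Sys} {B : MeasurableSpace X.X} (hB : Fac X B) {sg : AddAut V}
    {ψ : V → X.X → ℂ} (pc : PsC X B sg ψ) {I : Set X.X} (hI : MeasurableSet[X.ms] I) (a : V) :
    BM X.μ X.ms (off X B ψ I a) := by
  have hm : MeasurableSet[X.ms] (I \ Th B X.μ (ψ a)) := hI.diff (hB.le _ (rc.meas B X.μ _))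
  refine ((BM.indicator hm).mul (pc.bm a)).congr (Eventually.of_forall fun x => ?_)
  by_cases h : x ∈ I \ Th B X.μ (ψ a)
  · simp only [off, Set.indicator_of_mem h, one_mul]
  · simp only [off, Set.indicator_of_notMem h, zero_mul]

theorem psi_diff {X : Sys} {B : MeasurableSpace X.X} {sg : AddAut V}
    {ψ : V → X.X → ℂ} (pc : PsC X B sg ψ) (n : ℤ) (a : V) :
    ∀ᵐ x ∂X.μ, ψ a (X.Tz n x) * conj (ψ a x) = ψ ((n • sg) a - a) x := by
  filter_upwards [pc.shz n a, pc.sub ((n • sg) a) a] with x h1 h2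
  rw [h2, h1]

theorem off_diff (fd : Fd) (rc : Rc) {X : Sys} {B : MeasurableSpace X.X} (hB : Fac X B)
    {sg : AddAut V} {ψ : V → X.X → ℂ} (ps : Psi X B sg ψ) (pc : PsC X B sg ψ) {I : Set X.X}
    (hI : MeasurableSet[X.ms] I) (hT : X.T ⁻¹' I = I) (n : ℤ) (a : V) :
    ∃ k r : X.X → ℂ, BM X.μ B k ∧ BM X.μ X.ms r ∧
      ∫ x, ‖r x‖ ∂X.μ ≤ X.μ.real (Th B X.μ (ψ ((n • sg) a - a)) \ Th B X.μ (ψ a)) ∧
      ∀ x, off X B ψ I a (X.Tz n x) * conj (off X B ψ I a x) =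
        k x * off X B ψ I ((n • sg) a - a) x + r x := by
  have hN : ∀ u, MeasurableSet[B] (Th B X.μ (ψ u)) := fun u => rc.meas B X.μ _
  have hz : Measurable[B, B] (X.Tz n) := measurable_iff_comap_le.2 (fd.t.inv X B n hB).le
  have hS : MeasurableSet[B] ((X.Tz n ⁻¹' Th B X.μ (ψ a))ᶜ ∩ (Th B X.μ (ψ a))ᶜ) :=
    (hz (hN a)).compl.inter (hN a).compl
  have hk : BM X.μ B (((X.Tz n ⁻¹' Th B X.μ (ψ a))ᶜ ∩ (Th B X.μ (ψ a))ᶜ).indicator
    fun _ => (1 : ℂ)) := BM.indicator hS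
  have ho := off_bm rc hB pc hI
  have hD : MeasurableSet[X.ms] (Th B X.μ (ψ ((n • sg) a - a)) \ Th B X.μ (ψ a)) :=
    hB.le _ ((hN _).diff (hN _))
  have hr := ((Ind2.bm_comp (fd.t.mp X n) (ho a)).mul (ho a).conj).sub
    ((hk.mono hB.le).mul (ho ((n • sg) a - a)))
  refine ⟨_, _, hk, hr, ?_, fun x => by ring⟩
  rw [← integral_indicator_one hD]
  refine integral_mono_ae hr.integrable.norm ((integrable_const (1 : ℝ)).indicator hD) ?_
  filter_upwards [psi_diff pc n a, (ps.um ((n • sg) a - a)).2] with x h1 h2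
  have hi := LfBx.tz_inv ⟨fd.a, fd.t, fd.d, fd.c⟩ hT n x
  have h0 : (0 : ℝ) ≤ (Th B X.μ (ψ ((n • sg) a - a)) \ Th B X.μ (ψ a)).indicator 1 x :=
    Set.indicator_nonneg (fun _ _ => zero_le_one) x
  by_cases e0 : x ∈ I
  · by_cases e1 : x ∈ Th B X.μ (ψ a)
    · simp [off, e1]
    · by_cases e2 : X.Tz n x ∈ Th B X.μ (ψ a)
      · simpa [off, e1, e2] using h0
      · by_cases e3 : x ∈ Th B X.μ (ψ ((n • sg) a - a))
        · simp [off, e0, hi.2 e0, e1, e2, e3, h1, h2]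
        · simp [off, e0, hi.2 e0, e1, e2, e3, h1]
  · simpa [off, e0] using h0

theorem pair_diff (fd : Fd) (rc : Rc) {X W : Sys} {B : MeasurableSpace X.X} (hB : Fac X B)
    {sg : AddAut V} {ψ : V → X.X → ℂ} (ps : Psi X B sg ψ) (pc : PsC X B sg ψ) {I : Set X.X}
    (hI : MeasurableSet[X.ms] I) (hT : X.T ⁻¹' I = I) {p q : W.X → X.X} (hp : Emb W X p)
    (hq : Emb W X q) (n : ℤ) (a a' : V) :
    ∃ k r : W.X → ℂ, BM W.μ (pull W.μ p B) k ∧ BM W.μ W.ms r ∧
      ∫ w, ‖r w‖ ∂W.μ ≤ X.μ.real (Th B X.μ (ψ ((n • sg) a - a)) \ Th B X.μ (ψ a)) ∧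
      (fun w => off X B ψ I a (p (W.Tz n w)) * ψ a' (q (W.Tz n w)) *
        conj (off X B ψ I a (p w) * ψ a' (q w))) =ᵐ[W.μ] fun w =>
        k w * (off X B ψ I ((n • sg) a - a) (p w) * ψ ((n • sg) a' - a') (q w)) + r w := by
  obtain ⟨k, r, hk, hr, hi, e⟩ := off_diff fd rc hB ps pc hI hT n a
  refine ⟨fun w => k (p w), fun w => r (p w) * ψ ((n • sg) a' - a') (q w),
    fd.a.bm_comp B W.μ X.μ p k hp.mp hk,
    (Ind2.bm_comp hp.mp hr).mul (Ind2.bm_comp hq.mp (pc.bm _)), ?_, ?_⟩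
  · refine le_trans (le_of_eq ?_) hi
    rw [← int_norm hp.mp hr]
    refine integral_congr_ae ?_
    filter_upwards [ae_pull hq.mp (ps.um ((n • sg) a' - a')).2] with w hw
    rw [norm_mul, hw, mul_one]
  · filter_upwards [Ind2.emb_fun fd hp n (off_bm rc hB pc hI a), Ind2.emb_fun fd hq n (pc.bm a'),
      ae_pull hq.mp (psi_diff pc n a')] with w h1 h2 h3
    rw [h1, h2, map_mul]
    have h4 := e (p w)
    calc off X B ψ I a (X.Tz n (p w)) * ψ a' (X.Tz n (q w)) *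
          (conj (off X B ψ I a (p w)) * conj (ψ a' (q w)))
        = (off X B ψ I a (X.Tz n (p w)) * conj (off X B ψ I a (p w))) *
          (ψ a' (X.Tz n (q w)) * conj (ψ a' (q w))) := by ring
      _ = _ := by rw [h4, h3]; ring

theorem null_of {Ω : Type} (C D : MeasurableSpace Ω) {m0 : MeasurableSpace Ω} (μ : Measure Ω)
    [IsProbabilityMeasure μ] {F : Ω → ℂ} {A : Set Ω} (hF : Integrable F μ)
    (hC : MeasurableSet[C] A) (hD : MeasurableSet[D] A) (h : μ[A.indicator F | C] =ᵐ[μ] 0) :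
    μ (A ∩ {w | (μ[fun v => ‖(μ[F | C]) v‖ | D]) w = 1}) = 0 := by
  have h1 : A.indicator (μ[F | C]) =ᵐ[μ] 0 := (condExp_indicator hF hC).symm.trans h
  have h2 : A.indicator (fun v => ‖(μ[F | C]) v‖) =ᵐ[μ] 0 := by
    filter_upwards [h1] with w hw
    by_cases e : w ∈ A
    · rw [Set.indicator_of_mem e] at hw ⊢
      rw [hw]
      simp
    · rw [Set.indicator_of_notMem e]
      rfl
  have h3 : A.indicator (μ[fun v => ‖(μ[F | C]) v‖ | D]) =ᵐ[μ] 0 := by
    refine (condExp_indicator integrable_condExp.norm hD).symm.trans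
      ((condExp_congr_ae h2).trans ?_)
    rw [condExp_zero]
  refine measure_mono_null ?_ (ae_iff.1 h3)
  rintro w ⟨e, hw⟩
  simp only [Set.mem_ofPred_eq] at hw ⊢
  rw [Set.indicator_of_mem e, hw]
  simp

end Pass1

theorem pass1 : Pass1R := by
  intro fd rc az hz c V _ sg ψ I j v ps pc dec hI hT hne
  by_contra hc
  push Not at hc
  have hB : Fac c.X c.B := c.kc.1
  have hIB : MeasurableSet[c.B] I := by
    refine c.kc.2 _ (fd.kb.inv c.X c.B c.nice hB _ ?_)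
    exact (le_sup_left : MeasurableSpace.invariants c.X.T ≤ T3x.Inv c.X) _ ⟨hI, hT⟩
  have emb : ∀ k, Emb c.W c.X (c.π k) := fun k => c.L.emb (zs k)
  have sl : pull c.W.μ (c.π j) c.B ≤ c.L.shp c.B := fd.lb.slot c.L c.B (zs j) hB
  have bG : ∀ a : V × V, BM c.W.μ c.W.ms
      fun w => off c.X c.B ψ I a.1 (c.π j w) * ψ a.2 (c.π (!j) w) := fun a =>
    (Ind2.bm_comp (emb j).mp (Pass1.off_bm rc hB pc hI a.1)).mul
      (Ind2.bm_comp (emb (!j)).mp (pc.bm a.2))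
  have key := hz c.W (AS c.L c.B) (V × V)
    (fun a w => off c.X c.B ψ I a.1 (c.π j w) * ψ a.2 (c.π (!j) w))
    (fun a n => c.X.μ.real (Th c.B c.X.μ (ψ (((n : ℤ) • sg) a.1 - a.1)) \ Th c.B c.X.μ (ψ a.1)))
    c.L.nice (az.facS c.L c.B hB) bG
    (fun a n => by
      obtain ⟨k, r, hk, hr, hi, e⟩ :=
        Pass1.pair_diff fd rc hB ps pc hI hT (emb j) (emb (!j)) (n : ℤ) a.1 a.2
      exact ⟨(((n : ℤ) • sg) a.1 - a.1, ((n : ℤ) • sg) a.2 - a.2), k, r,
        hk.mono (sl.trans le_sup_right), hr, hi, e⟩)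
    (fun a => dec a.1) (fun a => hc a.1 a.2) (v j, v (!j))
  have hA : MeasurableSet[c.L.shp c.B] (c.π j ⁻¹' (I \ Th c.B c.X.μ (ψ (v j)))) :=
    sl _ ((le_sup_left : c.B.comap (c.π j) ≤ pull c.W.μ (c.π j) c.B) _
      ⟨_, hIB.diff (rc.meas c.B c.X.μ _), rfl⟩)
  have bF : BM c.W.μ c.W.ms fun w => ψ (v true) (c.π true w) * ψ (v false) (c.π false w) :=
    (Ind2.bm_comp (emb true).mp (pc.bm _)).mul (Ind2.bm_comp (emb false).mp (pc.bm _))
  have eG : (fun w => off c.X c.B ψ I (v j) (c.π j w) * ψ (v (!j)) (c.π (!j) w)) =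
      (c.π j ⁻¹' (I \ Th c.B c.X.μ (ψ (v j)))).indicator
        fun w => ψ (v true) (c.π true w) * ψ (v false) (c.π false w) := by
    funext w
    by_cases e : c.π j w ∈ I \ Th c.B c.X.μ (ψ (v j))
    · rw [Set.indicator_of_mem (Set.mem_preimage.2 e), off, Set.indicator_of_mem e]
      cases j
      · exact mul_comm _ _
      · rfl
    · rw [Set.indicator_of_notMem (mt Set.mem_preimage.1 e), off,
        Set.indicator_of_notMem e, zero_mul]
  have h0 := Pass1.null_of c.AZ c.B2 c.W.μ bF.integrable (az.shp c.L c.B _ hA)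
    (fd.h.le c.W _ _ hA) (by rw [← eG]; exact key)
  refine hne (measure_mono_null ?_ h0)
  rintro w ⟨⟨h1, h2⟩, h3⟩
  exact ⟨⟨h1, h3⟩, h2⟩

end T5x

end
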