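import Pool.Agent.MP_154433_an.t5.SpecR

/-! Row Pass2: a correlation with the twists gives positive twisted averages. -/

set_option autoImplicit false
set_option linter.unusedVariables false
set_option warn.classDefReducibility false

open MeasureTheory ProbabilityTheory Filter Topology Function Finset ComplexConjugate
open scoped BigOperators
open Fib27 (BM sup pr Oc Orow F23 LInd Mem)
open Pool.Agent.MP_154433_an.SG (Uni ufn)

noncomputable section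

namespace T5x

open T3x

namespace Pass2x

theorem ee_add (s t : ℝ) : ee (s + t) = ee s * ee t := by
  rw [ee, ee, ee, ← Complex.exp_add]
  congr 1
  push_cast
  ring

theorem norm_ee (t : ℝ) : ‖ee t‖ = 1 := Complex.norm_exp_ofReal_mul_I _

theorem cont_ee : Continuous ee := by
  unfold ee
  fun_prop

theorem ee_bdd {Ω : Type} [MeasurableSpace Ω] {b : Ω → ℝ} (hb : Measurable b) :
    (fun x => ee (b x)) ∈ Bdd Ω :=
  ⟨cont_ee.measurable.comp hb, 1, fun x => (norm_ee _).le⟩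

theorem exch (ν : Wt) (M : ℕ) (X : Sys) (A : ℤ → X.X → ℂ) (K : X.X → ℂ) (C : ℝ)
    (hA : ∀ d, BM X.μ X.ms (A d)) (hK : BM X.μ X.ms K) (hC : ∀ x, ‖K x‖ ≤ C) :
    ‖ν.av M fun d => ∫ x, A d x * K x ∂X.μ‖ ≤ (∫ x, ‖ν.av M fun d => A d x‖ ∂X.μ) * C := by
  have hI : Integrable (fun x => ν.av M fun d => A d x) X.μ :=
    integrable_finsetSum _ fun d _ => (hA d).integrable.smul (ν.w M d)
  have e2 : (ν.av M fun d => ∫ x, A d x * K x ∂X.μ) =
      ∫ x, (ν.av M fun d => A d x) * K x ∂X.μ := by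
    simp only [Wt.av, sum_mul, smul_mul_assoc]
    refine Eq.trans ?_ (integral_finsetSum (f := fun d x => ν.w M d • (A d x * K x)) _
      fun d _ => ((hA d).mul hK).integrable.smul (ν.w M d)).symm
    exact sum_congr rfl fun d _ => (integral_smul _ _).symm
  rw [e2, ← integral_mul_const]
  refine norm_integral_le_of_norm_le (hI.norm.mul_const C) (Eventually.of_forall fun x => ?_)
  rw [norm_mul]
  exact mul_le_mul_of_nonneg_left (hC x) (norm_nonneg _)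

variable {V : Type} [AddCommGroup V]

theorem off_bm (rc : Rc) {X : Sys} {B : MeasurableSpace X.X} (hB : Fac X B) {sg : AddAut V}
    {ψ : V → X.X → ℂ} (hP : PsC X B sg ψ) {I : Set X.X} (hI : MeasurableSet[X.ms] I) (a : V) :
    BM X.μ X.ms (off X B ψ I a) := by
  obtain ⟨h1, C, hC⟩ := hP.bm a
  refine ⟨h1.indicator (hI.diff (hB.le _ (rc.meas B X.μ (ψ a)))), C, ?_⟩
  filter_upwards [hC] with x hx
  exact (norm_indicator_le_norm_self _ _).trans hx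

theorem off_sh (fd : Fd) {X : Sys} {B : MeasurableSpace X.X} {sg : AddAut V}
    {ψ : V → X.X → ℂ} (hP : PsC X B sg ψ) {I : Set X.X} (hI : X.T ⁻¹' I = I) (d : ℤ) (a : V) :
    (fun x => off X B ψ I a (X.Tz d x)) =ᵐ[X.μ] off X B ψ I ((d • sg) a) := by
  filter_upwards [hP.nsh d a, hP.shz d a] with x h1 h2
  have h3 := LfBx.tz_inv ⟨fd.a, fd.t, fd.d, fd.c⟩ hI d x
  have h4 : X.Tz d x ∈ I \ Th B X.μ (ψ a) ↔ x ∈ I \ Th B X.μ (ψ ((d • sg) a)) := by
    rw [Set.mem_sdiff, Set.mem_sdiff, h3, h1]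
  unfold off
  by_cases h : X.Tz d x ∈ I \ Th B X.μ (ψ a)
  · rw [Set.indicator_of_mem h, Set.indicator_of_mem (h4.1 h), h2]
  · rw [Set.indicator_of_notMem h, Set.indicator_of_notMem (mt h4.2 h)]

theorem rho1 (j : Bool) (M : ℕ) (d d' : ℤ) : rho (zs j) (Ind2.lab j M d d') = d := by
  cases j <;> simp [rho, zs, Ind2.lab]

theorem rho2 (j : Bool) (M : ℕ) (d d' : ℤ) : rho (zs (!j)) (Ind2.lab j M d d') = d' := by
  cases j <;> simp [rho, zs, Ind2.lab]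

theorem lab1 (j : Bool) (M : ℕ) (d d' : ℤ) : (Ind2.lab j M d d').1 = M := by
  cases j <;> rfl

def sgn (j : Bool) : ℝ := if j then 1 else -1

theorem lab2 (j : Bool) (M : ℕ) (d d' : ℤ) (t : ℝ) :
    ((((Ind2.lab j M d d').2.1 - (Ind2.lab j M d d').2.2 : ℤ) : ℝ) * t) =
      (d : ℝ) * (sgn j * t) + -((d' : ℝ) * (sgn j * t)) := by
  cases j <;> simp [Ind2.lab, sgn] <;> ring

end Pass2x

open Pass2x Ind2 in
theorem pass2 : Pass2R := by
  intro fd rc az c V _ sg ψ I j a a' hψ hP hI hT hne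
  have hB : Fac c.X c.B := c.kc.1
  have bo := off_bm rc hB hP hI a
  have bg : BM c.W.μ c.W.ms fun w => off c.X c.B ψ I a (c.π j w) * ψ a' (c.π (!j) w) :=
    (bm_comp (c.L.emb (zs j)).mp bo).mul (bm_comp (c.L.emb (zs (!j))).mp (hP.bm a'))
  obtain ⟨F, hF, G, hG, hz⟩ : ∃ F ∈ Tw c.X.X, ∃ G ∈ FamS c.B,
      ∫ w, (off c.X c.B ψ I a (c.π j w) * ψ a' (c.π (!j) w)) * (c.L.hat F w * c.L.hat G w)
        ∂c.W.μ ≠ 0 := by
    by_contra h
    push Not at h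
    exact hne (az.perp c.L c.B hB _ bg h)
  obtain ⟨f1, hf1, e1⟩ := rep fd.a c.X.ms bo
  obtain ⟨f2, m2, b2, e2⟩ := fd.a.rep c.X.ms c.X.μ (ψ a') 1 zero_le_one (hψ.um a').1
    ((hψ.um a').2.mono fun x hx => hx.le)
  have hf2 : f2 ∈ @Bdd c.X.X c.X.ms := ⟨m2, 1, b2⟩
  have F1 := fam_of fd.t c.X (fd.t.top c.X) (rho (zs j)) hf1
  have F2 := fam_of fd.t c.X (fd.t.top c.X) (rho (zs (!j))) hf2
  have F3 := az.fam F hF
  have F4 := fam_mono hB.le hG
  have l := c.L.lim _ (fam_mul (fam_mul F1 F2) (fam_mul F3 F4))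
  have e3 : ∫ w, c.L.hat (fun s => f1 (c.X.Tz (rho (zs j) s.1) s.2) *
      f2 (c.X.Tz (rho (zs (!j)) s.1) s.2) * (F s * G s)) w ∂c.L.W.μ =
      ∫ w, (off c.X c.B ψ I a (c.π j w) * ψ a' (c.π (!j) w)) * (c.L.hat F w * c.L.hat G w)
        ∂c.W.μ := by
    refine integral_congr_ae ?_
    filter_upwards [c.L.slot (zs j) f1 hf1, c.L.slot (zs (!j)) f2 hf2,
      ae_comp (c.L.emb (zs j)).mp e1, ae_comp (c.L.emb (zs (!j))).mp e2] with w h1 h2 h3 h4
    rw [(c.L.ch w).mul _ (fam_mul F1 F2) _ (fam_mul F3 F4), (c.L.ch w).mul _ F1 _ F2,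
      (c.L.ch w).mul _ F3 _ F4, ← h1, ← h2, ← h3, ← h4]
    rfl
  rw [e3] at l
  generalize (∫ w, (off c.X c.B ψ I a (c.π j w) * ψ a' (c.π (!j) w)) *
    (c.L.hat F w * c.L.hat G w) ∂c.W.μ) = z at hz l
  have z0 : 0 < ‖z‖ := norm_pos_iff.2 hz
  obtain ⟨g, b, mg, mb, ⟨Cg, hg⟩, rfl⟩ := hF
  obtain ⟨mG, CG, bG⟩ := hG
  have p1 : (0 : ℝ) < max Cg 1 := lt_max_of_lt_right one_pos
  have p2 : (0 : ℝ) < max CG 1 := lt_max_of_lt_right one_pos
  have p3 : ((max CG 1 : ℝ) : ℂ) ≠ 0 := by exact_mod_cast p2.ne'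
  refine ⟨‖z‖ / 2 / (max CG 1 * max Cg 1), by positivity, ?_⟩
  filter_upwards [l.norm.eventually (lt_mem_nhds (half_lt_self z0))] with M hM
  rw [av2_eq c.ν M j] at hM
  obtain ⟨d', hd⟩ := not_forall.1 (mt (av_le c.ν M _ (‖z‖ / 2)) (not_le.2 hM))
  simp only [rho1, rho2, lab1, lab2, ee_add] at hd
  have mb' : Measurable fun x => sgn j * b M x := (mb M).const_mul _
  have mβ : ∀ d, Measurable[c.B] fun x => G (lab j M d d', x) / ((max CG 1 : ℝ) : ℂ) :=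
    fun d => (mG _).div_const _
  have bβ : ∀ d x, ‖G (lab j M d d', x) / ((max CG 1 : ℝ) : ℂ)‖ ≤ 1 := fun d x => by
    rw [norm_div, Complex.norm_real, Real.norm_of_nonneg p2.le, div_le_one p2]
    exact (bG _).trans (le_max_left _ _)
  refine ⟨fun d x => G (lab j M d d', x) / ((max CG 1 : ℝ) : ℂ), fun x => sgn j * b M x,
    mβ, bβ, mb', ?_⟩
  have hA : ∀ d : ℤ, BM c.X.μ c.X.ms fun x => G (lab j M d d', x) / ((max CG 1 : ℝ) : ℂ) *
      f1 (c.X.Tz d x) * ee ((d : ℝ) * (sgn j * b M x)) := fun d =>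
    (((bdd_bm c.X.μ ⟨mβ d, 1, bβ d⟩).mono hB.le).mul
      (bm_comp (fd.t.mp c.X d) (bdd_bm c.X.μ hf1))).mul
      (bdd_bm c.X.μ (ee_bdd (mb'.const_mul _)))
  have hK : BM c.X.μ c.X.ms fun x => ((max CG 1 : ℝ) : ℂ) * (f2 (c.X.Tz d' x) * g M x *
      ee (-((d' : ℝ) * (sgn j * b M x)))) :=
    (((bm_comp (fd.t.mp c.X d') (bdd_bm c.X.μ hf2)).mul (bdd_bm c.X.μ ⟨mg M, Cg, hg M⟩)).mul
      (bdd_bm c.X.μ (ee_bdd (mb'.const_mul _).neg))).cmul _
  have x1 := exch c.ν M c.X _ _ (max CG 1 * max Cg 1) hA hK fun x => by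
    rw [norm_mul, norm_mul, norm_mul, norm_ee, mul_one, Complex.norm_real,
      Real.norm_of_nonneg p2.le]
    refine mul_le_mul_of_nonneg_left ?_ p2.le
    calc ‖f2 (c.X.Tz d' x)‖ * ‖g M x‖ ≤ 1 * max Cg 1 :=
          mul_le_mul (b2 _) ((hg M x).trans (le_max_left _ _)) (norm_nonneg _) zero_le_one
      _ = _ := one_mul _
  have x2 : ∀ (d : ℤ) x, G (lab j M d d', x) / ((max CG 1 : ℝ) : ℂ) * f1 (c.X.Tz d x) *
      ee ((d : ℝ) * (sgn j * b M x)) * (((max CG 1 : ℝ) : ℂ) * (f2 (c.X.Tz d' x) * g M x *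
        ee (-((d' : ℝ) * (sgn j * b M x))))) =
      f1 (c.X.Tz d x) * f2 (c.X.Tz d' x) * (g M x * (ee ((d : ℝ) * (sgn j * b M x)) *
        ee (-((d' : ℝ) * (sgn j * b M x)))) * G (lab j M d d', x)) := fun d x => by
    field_simp
  simp only [x2] at x1
  rw [div_le_iff₀ (mul_pos p2 p1)]
  refine ((not_le.1 hd).le.trans x1).trans (le_of_eq ?_)
  congr 1
  refine integral_congr_ae ?_
  have x3 : ∀ᵐ x ∂c.X.μ, ∀ d : ℤ, f1 (c.X.Tz d x) = off c.X c.B ψ I ((d • sg) a) x :=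
    ae_all_iff.2 fun d => (ae_comp (fd.t.mp c.X d) e1).symm.trans (off_sh fd hP hT d a)
  filter_upwards [x3] with x hx
  simp only [hx]

end T5x

end
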