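import Pool.Agent.MP_154433_an.t5.SpecR

/-! Row Rud: positive twisted averages force many relations. -/

set_option autoImplicit false
set_option linter.unusedVariables false
set_option warn.classDefReducibility false

open MeasureTheory ProbabilityTheory Filter Topology Function Finset ComplexConjugate
open scoped BigOperators
open Fib27 (BM sup pr Oc Orow F23 LInd Mem)
open Pool.Agent.MP_154433_an.SG (Uni ufn)

noncomputable section

namespace T5x

open T3x

namespace RudA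

theorem num (K : ℕ) {ε t : ℝ} (hε : 0 < ε) (ht : 0 < t) : ∃ η : ℝ, 0 < η ∧ ∀ n : ℕ, 1 ≤ n →
    ∃ Q : ℕ, 0 < Q ∧ 7 * (n : ℝ) / Q ≤ ε ∧
      4 * (K : ℝ) * Q * Real.exp (-(t ^ 2 / (8 * (η / Real.log ((n : ℝ) + 1))))) ≤ ε := by
  obtain ⟨A, hA⟩ : ∃ A : ℝ, A = 4 * K * (7 / ε + 2) / ε := ⟨_, rfl⟩
  have hA0 : 0 ≤ A := by rw [hA]; positivity
  have l2 : 0 < Real.log 2 := Real.log_pos one_lt_two
  obtain ⟨q, hq⟩ : ∃ q : ℝ, q = A / Real.log 2 := ⟨_, rfl⟩
  have hq0 : 0 ≤ q := by rw [hq]; positivity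
  refine ⟨t ^ 2 / (8 * (1 + q)), by positivity, fun n hn => ⟨⌈7 * (n : ℝ) / ε⌉₊ + 1,
    Nat.succ_pos _, ?_, ?_⟩⟩
  · have h1 := Nat.le_ceil (7 * (n : ℝ) / ε)
    rw [div_le_iff₀ hε] at h1
    rw [div_le_iff₀ (by positivity)]
    push_cast
    nlinarith
  · have hn1 : (1 : ℝ) ≤ n := by exact_mod_cast hn
    have hN : (0 : ℝ) < (n : ℝ) + 1 := by linarith
    have hl : Real.log 2 ≤ Real.log ((n : ℝ) + 1) := Real.log_le_log two_pos (by linarith)
    have hl0 : 0 < Real.log ((n : ℝ) + 1) := l2.trans_le hl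
    have e1 : t ^ 2 / (8 * (t ^ 2 / (8 * (1 + q)) / Real.log ((n : ℝ) + 1))) =
        Real.log ((n : ℝ) + 1) + q * Real.log ((n : ℝ) + 1) := by
      field_simp
    have h2 : ((⌈7 * (n : ℝ) / ε⌉₊ + 1 : ℕ) : ℝ) ≤ (7 / ε + 2) * ((n : ℝ) + 1) := by
      have h3 := (Nat.ceil_lt_add_one (by positivity : (0 : ℝ) ≤ 7 * (n : ℝ) / ε)).le
      have h4 : 0 ≤ 7 / ε := by positivity
      have h5 : 7 * (n : ℝ) / ε = 7 / ε * n := by ring
      push_cast
      nlinarith
    have h6 : A ≤ Real.exp (q * Real.log ((n : ℝ) + 1)) := by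
      have h7 := Real.add_one_le_exp (q * Real.log ((n : ℝ) + 1))
      have h8 : q * Real.log 2 = A := by rw [hq]; field_simp
      have h9 := mul_le_mul_of_nonneg_left hl hq0
      linarith
    rw [e1, Real.exp_neg, Real.exp_add, Real.exp_log hN, ← div_eq_mul_inv,
      div_le_iff₀ (by positivity)]
    have h10 : 4 * (K : ℝ) * (7 / ε + 2) = ε * A := by rw [hA]; field_simp
    calc 4 * (K : ℝ) * ((⌈7 * (n : ℝ) / ε⌉₊ + 1 : ℕ) : ℝ)
        ≤ 4 * (K : ℝ) * ((7 / ε + 2) * ((n : ℝ) + 1)) :=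
          mul_le_mul_of_nonneg_left h2 (by positivity)
      _ = ε * (((n : ℝ) + 1) * A) := by rw [← mul_assoc, h10]; ring
      _ ≤ _ := mul_le_mul_of_nonneg_left (mul_le_mul_of_nonneg_left h6 hN.le) hε.le

theorem norm_ee (t : ℝ) : ‖ee t‖ = 1 := Complex.norm_exp_ofReal_mul_I _

theorem mTh {Ω : Type} (B : MeasurableSpace Ω) {m0 : MeasurableSpace Ω} (μ : Measure Ω)
    (F : Ω → ℂ) : MeasurableSet[B] (Th B μ F) :=
  (stronglyMeasurable_condExp (m := B) (μ := μ) (f := F)).norm.measurable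
    (measurableSet_singleton 1)

theorem intg {Ω : Type} {m : MeasurableSpace Ω} (μ : Measure Ω) [IsProbabilityMeasure μ]
    (f : Ω → ℝ) (A G : Set Ω) {ε : ℝ} (hε : 0 ≤ ε) (hA : MeasurableSet A) (hG : μ.real G ≤ ε)
    (h0 : ∀ x, 0 ≤ f x) (h1 : ∀ᵐ x ∂μ, f x ≤ 1 ∧ (x ∉ A → x ∉ G → f x ≤ 3 * ε)) :
    ∫ x, f x ∂μ ≤ μ.real A + 4 * ε := by
  have hTm : MeasurableSet (toMeasurable μ G) := measurableSet_toMeasurable _ _
  have hT : μ.real (toMeasurable μ G) = μ.real G := by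
    simp only [Measure.real, measure_toMeasurable]
  have i1 : Integrable (A.indicator fun _ => (1 : ℝ)) μ := (integrable_const _).indicator hA
  have i2 : Integrable ((toMeasurable μ G).indicator fun _ => (1 : ℝ)) μ :=
    (integrable_const _).indicator hTm
  have hle : ∫ x, f x ∂μ ≤ ∫ x, (A.indicator (fun _ => (1 : ℝ)) x +
      (toMeasurable μ G).indicator (fun _ => (1 : ℝ)) x + 3 * ε) ∂μ := by
    refine integral_mono_of_nonneg (.of_forall h0) ((i1.add i2).add (integrable_const _)) ?_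
    filter_upwards [h1] with x hx
    have p1 : 0 ≤ A.indicator (fun _ => (1 : ℝ)) x :=
      Set.indicator_nonneg (fun _ _ => zero_le_one) x
    have p2 : 0 ≤ (toMeasurable μ G).indicator (fun _ => (1 : ℝ)) x :=
      Set.indicator_nonneg (fun _ _ => zero_le_one) x
    by_cases hxA : x ∈ A
    · rw [Set.indicator_of_mem hxA]
      linarith [hx.1]
    · by_cases hxG : x ∈ G
      · rw [Set.indicator_of_mem (subset_toMeasurable μ G hxG)]
        linarith [hx.1]
      · linarith [hx.2 hxA hxG]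
  have e1 := integral_add (i1.add i2) (integrable_const (μ := μ) (3 * ε))
  have e2 := integral_add i1 i2
  simp only [Pi.add_apply] at e1
  rw [e1, e2, integral_indicator_const _ hA, integral_indicator_const _ hTm] at hle
  simp only [smul_eq_mul, mul_one, integral_const, probReal_univ, one_mul] at hle
  linarith

end RudA

open RudA in
theorem rud : RudR := by
  intro hc ν U X B V _ sg ψ I c hU uw hB hψ hC hI ⟨δ, hδ, hev⟩
  obtain ⟨a0, n, hsp, hat⟩ := uw.atom
  obtain ⟨ε, hε5⟩ : ∃ ε : ℝ, ε = δ / 5 := ⟨_, rfl⟩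
  have hε : 0 < ε := by linarith
  refine ⟨ε, hε, fun K => ?_⟩
  have ht : 0 < ε / ((K : ℝ) + 1) := by positivity
  have hKt : (K : ℝ) * (ε / ((K : ℝ) + 1)) ≤ ε := by
    rw [mul_div_assoc', div_le_iff₀ (by positivity)]
    nlinarith
  obtain ⟨η, hη, hnum⟩ := num K hε ht
  have chr : Chr B X.μ ψ := ⟨hB.le, hψ.um, hψ.add, hC.neg, hC.zero, hψ.onn⟩
  filter_upwards [hev, hU (hat η hη)] with M hM hw
  obtain ⟨β, b, hβ, hβ1, hb, hδM⟩ := hM
  have hne : (ν.sp M).Nonempty := by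
    rw [Finset.nonempty_iff_ne_empty]
    intro h
    have := ν.one M
    rw [h] at this
    simp at this
  have hn1 : 1 ≤ n M := by
    obtain ⟨d, hd⟩ := hne
    have := hsp M d hd
    omega
  obtain ⟨Q, hQ, hQ1, hQ2⟩ := hnum (n M) hn1
  have hl0 : 0 < Real.log ((n M : ℝ) + 1) := by
    have : (1 : ℝ) ≤ n M := by exact_mod_cast hn1
    exact Real.log_pos (by linarith)
  obtain ⟨a, ha⟩ : ∃ a : ℤ → X.X → ℂ, a = fun d x => (ν.w M d : ℂ) * β d x *
    (I \ Th B X.μ (ψ ((d • sg) c))).indicator (fun _ => (1 : ℂ)) x := ⟨_, rfl⟩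
  have ham : ∀ d, Measurable[B] (a d) := fun d => by
    rw [ha]
    exact (measurable_const.mul (hβ d)).mul
      (measurable_const.indicator (hI.diff (mTh B X.μ _)))
  have ha1 : ∀ d x, ‖a d x‖ ≤ ν.w M d := fun d x => by
    rw [ha]
    have h1 : ‖(I \ Th B X.μ (ψ ((d • sg) c))).indicator (fun _ => (1 : ℂ)) x‖ ≤ 1 :=
      (norm_indicator_le_norm_self _ _).trans (by simp)
    simp only [norm_mul, Complex.norm_real, Real.norm_eq_abs, abs_of_nonneg (ν.nn M d)]
    rw [mul_assoc]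
    exact mul_le_of_le_one_right (ν.nn M d) (mul_le_one₀ (hβ1 d x) (norm_nonneg _) h1)
  have ha0 : ∀ d x, x ∉ I \ Th B X.μ (ψ ((d • sg) c)) → a d x = 0 := fun d x hx => by
    rw [ha]
    simp only [Set.indicator_of_notMem hx, mul_zero]
  have hZ : ∀ x, (ν.av M fun d => β d x * off X B ψ I ((d • sg) c) x * ee ((d : ℝ) * b x)) =
      ∑ d ∈ ν.sp M, a d x * ψ ((d • sg) c) x * ee ((d : ℝ) * b x) := fun x => by
    refine Finset.sum_congr rfl fun d _ => ?_
    by_cases hx : x ∈ I \ Th B X.μ (ψ ((d • sg) c))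
    · rw [ha]
      simp only [off, Set.indicator_of_mem hx, Complex.real_smul]
      ring
    · rw [ha0 d x hx]
      simp only [off, Set.indicator_of_notMem hx, mul_zero, zero_mul, smul_zero]
  obtain ⟨hCm, hCb⟩ := hc X.X V B X.ms X.μ ψ (fun d => (d • sg) c) K (ν.sp M) a (ν.w M) b (a0 M)
    (n M) Q (η / Real.log ((n M : ℝ) + 1)) (ε / ((K : ℝ) + 1)) ε chr ham ha1
    (fun d x hx => ha0 d x fun h => h.2 hx) (hsp M) (ν.one M).le
    (fun d hd => (le_div_iff₀ hl0).2 (hw d hd)) (by positivity) ht.le hQ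
  generalize hCs : {x | Cov (fun u => x ∈ Th B X.μ (ψ u)) (fun d => (d • sg) c) (ν.sp M) (ν.w M)
    K ε} = Cs at hCm hCb
  have hbad : {x | x ∈ I ∧ ¬ Cov (fun u => x ∈ Th B X.μ (ψ u)) (fun d => (d • sg) c) (ν.sp M)
      (ν.w M) K ε} = I \ Cs := by
    rw [← hCs]
    rfl
  show ε ≤ X.μ.real {x | x ∈ I ∧ ¬ Cov (fun u => x ∈ Th B X.μ (ψ u)) (fun d => (d • sg) c)
    (ν.sp M) (ν.w M) K ε}
  rw [hbad]
  have hle := intg X.μ (fun x =>
    ‖ν.av M fun d => β d x * off X B ψ I ((d • sg) c) x * ee ((d : ℝ) * b x)‖) (I \ Cs) _ hε.le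
    (hB.le _ (hI.diff hCm)) (hCb.trans hQ2) (fun x => norm_nonneg _) (by
      filter_upwards [ae_all_iff.2 fun d : ℤ => (hψ.um ((d • sg) c)).2] with x hx
      rw [hZ]
      refine ⟨?_, fun h1 h2 => ?_⟩
      · refine (norm_sum_le _ _).trans ((Finset.sum_le_sum fun d _ => ?_).trans (ν.one M).le)
        rw [norm_mul, norm_mul, hx d, norm_ee, mul_one, mul_one]
        exact ha1 d x
      · by_cases hxI : x ∈ I
        · have hxC : x ∈ Cs := by_contra fun h => h1 ⟨hxI, h⟩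
          have p4 : ‖∑ d ∈ ν.sp M, a d x * ψ ((d • sg) c) x * ee ((d : ℝ) * b x)‖ ≤
              (K : ℝ) * (ε / ((K : ℝ) + 1)) + 7 * (n M : ℝ) / Q + ε :=
            not_lt.1 fun h => h2 ⟨hxC, h⟩
          linarith
        · rw [Finset.sum_eq_zero fun d _ => by
            rw [ha0 d x fun h => hxI h.1, zero_mul, zero_mul], norm_zero]
          linarith)
  linarith

end T5x

end
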