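import Pool.Agent.MP_154433_an.t5.SpecR

/-! The tail bound for all frequencies and a union of dissociated sets. -/

set_option autoImplicit false
set_option linter.unusedVariables false
set_option warn.classDefReducibility false

open MeasureTheory ProbabilityTheory Filter Topology Function Finset ComplexConjugate
open scoped BigOperators
open Fib27 (BM sup pr Oc Orow F23 LInd Mem)
open Pool.Agent.MP_154433_an.SG (Uni ufn)

noncomputable section

namespace T5x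

open T3x

namespace Sup

lemma ee_add (s t : ℝ) : ee (s + t) = ee s * ee t := by
  unfold ee
  rw [← Complex.exp_add]
  congr 1
  push_cast
  ring

lemma ee_norm (s : ℝ) : ‖ee s‖ = 1 := by
  unfold ee
  exact Complex.norm_exp_ofReal_mul_I _

lemma ee_int (k : ℤ) : ee (k : ℝ) = 1 := by
  unfold ee
  rw [← Complex.exp_int_mul_two_pi_mul_I k]
  congr 1
  push_cast
  ring

lemma ee_lip (s t : ℝ) : ‖ee s - ee t‖ ≤ 7 * |s - t| := by
  have h1 : ee s - ee t = ee t * (ee (s - t) - 1) := by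
    rw [mul_sub, ← ee_add, mul_one]
    congr 2
    ring
  have h2 : ‖ee (s - t) - 1‖ ≤ ‖2 * Real.pi * (s - t)‖ := by
    unfold ee
    rw [mul_comm _ Complex.I]
    exact Real.norm_exp_I_mul_ofReal_sub_one_le
  rw [h1, norm_mul, ee_norm, one_mul]
  refine h2.trans ?_
  rw [Real.norm_eq_abs, abs_mul, abs_of_pos (by positivity : (0 : ℝ) < 2 * Real.pi)]
  have := Real.pi_lt_d2
  exact mul_le_mul_of_nonneg_right (by linarith) (abs_nonneg _)

lemma grid (T : Finset ℤ) (c : ℤ → ℂ) (w : ℤ → ℝ) (a0 : ℤ) (n Q : ℕ) (β : ℝ) (hQ : 0 < Q)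
    (hc : ∀ d ∈ T, ‖c d‖ ≤ w d) (hw : ∑ d ∈ T, w d ≤ 1)
    (hr : ∀ d ∈ T, a0 ≤ d ∧ d < a0 + n) :
    ∃ j ∈ range Q, ‖∑ d ∈ T, c d * ee ((d : ℝ) * β)‖ ≤
      ‖∑ d ∈ T, c d * ee (((d - a0 : ℤ) : ℝ) * ((j : ℝ) / Q))‖ + 7 * n / Q := by
  have hQ' : (0 : ℝ) < Q := by exact_mod_cast hQ
  have f0 : 0 ≤ Int.fract β := Int.fract_nonneg β
  have f1 : Int.fract β < 1 := Int.fract_lt_one β
  have g0 : 0 ≤ (Q : ℝ) * Int.fract β := by positivity
  refine ⟨⌊(Q : ℝ) * Int.fract β⌋₊, ?_, ?_⟩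
  · rw [mem_range, Nat.floor_lt g0]
    nlinarith
  have j1 := Nat.floor_le g0
  have j2 := Nat.lt_floor_add_one ((Q : ℝ) * Int.fract β)
  generalize ⌊(Q : ℝ) * Int.fract β⌋₊ = j at j1 j2
  have hd : |Int.fract β - (j : ℝ) / Q| ≤ 1 / Q := by
    have e : Int.fract β - (j : ℝ) / Q = ((Q : ℝ) * Int.fract β - j) / Q := by
      field_simp
    rw [e, abs_div, abs_of_pos hQ']
    refine div_le_div_of_nonneg_right ?_ hQ'.le
    rw [abs_le]
    constructor <;> linarith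
  have e1 : ∀ d : ℤ, ee ((d : ℝ) * β) =
      ee ((a0 : ℝ) * β) * ee (((d - a0 : ℤ) : ℝ) * Int.fract β) := by
    intro d
    have : (d : ℝ) * β = (a0 : ℝ) * β + (((d - a0 : ℤ) : ℝ) * Int.fract β +
        (((d - a0) * ⌊β⌋ : ℤ) : ℝ)) := by
      have := Int.fract_add_floor β
      push_cast
      linear_combination (-((d : ℝ) - a0)) * this
    rw [this, ee_add, ee_add, ee_int, mul_one]
  have e2 : ∑ d ∈ T, c d * ee ((d : ℝ) * β) = ee ((a0 : ℝ) * β) *
      (∑ d ∈ T, c d * ee (((d - a0 : ℤ) : ℝ) * ((j : ℝ) / Q)) +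
        ∑ d ∈ T, c d * (ee (((d - a0 : ℤ) : ℝ) * Int.fract β) -
          ee (((d - a0 : ℤ) : ℝ) * ((j : ℝ) / Q)))) := by
    rw [← sum_add_distrib, mul_sum]
    refine sum_congr rfl fun d _ => ?_
    rw [e1]
    ring
  rw [e2, norm_mul, ee_norm, one_mul]
  refine (norm_add_le _ _).trans (add_le_add le_rfl ?_)
  have hn : (0 : ℝ) ≤ 7 * n / Q := by positivity
  calc ‖∑ d ∈ T, c d * (ee (((d - a0 : ℤ) : ℝ) * Int.fract β) -
          ee (((d - a0 : ℤ) : ℝ) * ((j : ℝ) / Q)))‖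
      ≤ ∑ d ∈ T, w d * (7 * n / Q) := by
        refine (norm_sum_le _ _).trans (sum_le_sum fun d hd' => ?_)
        rw [norm_mul]
        refine mul_le_mul (hc d hd') ((ee_lip _ _).trans ?_) (norm_nonneg _)
          ((norm_nonneg _).trans (hc d hd'))
        rw [← mul_sub, abs_mul]
        have h0 : (0 : ℝ) ≤ ((d - a0 : ℤ) : ℝ) := by
          exact_mod_cast sub_nonneg.2 (hr d hd').1
        have h1 : ((d - a0 : ℤ) : ℝ) ≤ n := by
          have : d - a0 ≤ (n : ℤ) := by have := (hr d hd').2; omega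
          exact_mod_cast this
        rw [abs_of_nonneg h0]
        calc 7 * (((d - a0 : ℤ) : ℝ) * |Int.fract β - (j : ℝ) / Q|) ≤ 7 * (n * (1 / Q)) := by
              gcongr
          _ = 7 * n / Q := by ring
    _ = (∑ d ∈ T, w d) * (7 * n / Q) := by rw [sum_mul]
    _ ≤ 1 * (7 * n / Q) := mul_le_mul_of_nonneg_right hw hn
    _ = 7 * n / Q := one_mul _

lemma split {K : ℕ} (T : Finset ℤ) (κ : ℤ → Fin K) (c : ℤ → ℂ) (t : ℝ)
    (h : K * t < ‖∑ d ∈ T, c d‖) : ∃ i, t ≤ ‖∑ d ∈ T.filter (fun d => κ d = i), c d‖ := by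
  by_contra hn
  push Not at hn
  rw [← sum_fiberwise T κ c] at h
  have h1 := (norm_sum_le (univ : Finset (Fin K))
    (fun i => ∑ d ∈ T.filter (fun d => κ d = i), c d)).trans (sum_le_sum fun i _ => (hn i).le)
  rw [sum_const, card_univ, Fintype.card_fin, nsmul_eq_mul] at h1
  linarith

end Sup

theorem supT : SupR := by
  intro tail Ω V _ B m0 μ _ ψ v K S sp E a w b a0 n Q s t chr hE hD ha hw hr h1 hs s0 t0 hQ
  generalize hT : sp.filter (fun d => ∃ i, d ∈ S i) = T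
  have hT1 : T ⊆ sp := by rw [← hT]; exact filter_subset _ _
  have hT2 : ∀ d ∈ T, ∃ i, d ∈ S i := by
    intro d hd
    rw [← hT] at hd
    exact (mem_filter.1 hd).2
  clear hT
  rcases T.eq_empty_or_nonempty with rfl | ⟨d0, hd0⟩
  · have : (E ∩ {x | K * t + 7 * n / Q < ‖∑ d ∈ (∅ : Finset ℤ),
        a d x * ψ (v d) x * ee ((d : ℝ) * b x)‖}) = ∅ := by
      ext x
      have : (0 : ℝ) ≤ K * t + 7 * n / Q := by positivity
      simp [this]
    rw [this, measureReal_empty]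
    positivity
  have : Nonempty (Fin K) := ⟨(hT2 d0 hd0).choose⟩
  choose! κ hκ using hT2
  obtain ⟨x0⟩ : Nonempty Ω := nonempty_of_isProbabilityMeasure μ
  have w0 : ∀ d, 0 ≤ w d := fun d => (norm_nonneg _).trans (hw d x0)
  have hwT : ∑ d ∈ T, w d ≤ 1 :=
    (sum_le_sum_of_subset_of_nonneg hT1 fun d _ _ => w0 d).trans h1
  let A : Fin K × ℕ → Set Ω := fun p => E ∩ {x | t ≤ ‖∑ d ∈ T.filter (fun d => κ d = p.1),
    (a d x * ee (((d - a0 : ℤ) : ℝ) * ((p.2 : ℝ) / Q))) * ψ (v d) x‖}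
  have hA : ∀ p, μ.real (A p) ≤ 4 * μ.real E * Real.exp (-(t ^ 2 / (8 * s))) := by
    intro p
    have sub : T.filter (fun d => κ d = p.1) ⊆ S p.1 := by
      intro d hd
      rw [mem_filter] at hd
      rw [← hd.2]
      exact hκ d hd.1
    refine tail Ω V B m0 μ ψ v _ E
      (fun d x => a d x * ee (((d - a0 : ℤ) : ℝ) * ((p.2 : ℝ) / Q))) w s t chr hE ?_ ?_ ?_ s0 ?_ t0
    · intro x hx P hP R hR
      exact hD x hx p.1 P (hP.trans sub) R (hR.trans sub)
    · intro d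
      exact (ha d).mul_const _
    · intro d x
      rw [norm_mul, Sup.ee_norm, mul_one]
      exact hw d x
    · have s1 : T.filter (fun d => κ d = p.1) ⊆ sp := (filter_subset _ _).trans hT1
      calc ∑ d ∈ T.filter (fun d => κ d = p.1), w d ^ 2 ≤ ∑ d ∈ sp, w d ^ 2 :=
            sum_le_sum_of_subset_of_nonneg s1 fun d _ _ => sq_nonneg _
        _ ≤ ∑ d ∈ sp, w d * s := by
            refine sum_le_sum fun d hd => ?_
            rw [sq]
            exact mul_le_mul_of_nonneg_left (hs d hd) (w0 d)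
        _ = (∑ d ∈ sp, w d) * s := by rw [sum_mul]
        _ ≤ 1 * s := mul_le_mul_of_nonneg_right h1 s0.le
        _ = s := one_mul _
  have hu : ∀ᵐ x ∂μ, ∀ d : ℤ, ‖ψ (v d) x‖ = 1 := ae_all_iff.2 fun d => (chr.um (v d)).2
  have cov : (E ∩ {x | K * t + 7 * n / Q < ‖∑ d ∈ T,
      a d x * ψ (v d) x * ee ((d : ℝ) * b x)‖} : Set Ω) ≤ᵐ[μ]
      (⋃ p ∈ (univ : Finset (Fin K)) ×ˢ range Q, A p : Set Ω) := by
    filter_upwards [hu] with x hx hxE
    obtain ⟨hxE, hb⟩ := hxE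
    obtain ⟨j, hj, hle⟩ := Sup.grid T (fun d => a d x * ψ (v d) x) w a0 n Q (b x) hQ
      (fun d _ => by rw [norm_mul, hx, mul_one]; exact hw d x) hwT (fun d hd => hr d (hT1 hd))
    have hb' : K * t + 7 * n / Q < ‖∑ d ∈ T, a d x * ψ (v d) x * ee ((d : ℝ) * b x)‖ := hb
    obtain ⟨i, hi⟩ := Sup.split T κ
      (fun d => a d x * ψ (v d) x * ee (((d - a0 : ℤ) : ℝ) * ((j : ℝ) / Q))) t (by linarith)
    have : x ∈ ⋃ p ∈ (univ : Finset (Fin K)) ×ˢ range Q, A p := by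
      refine Set.mem_biUnion (x := (i, j)) (mem_coe.2 (mem_product.2 ⟨mem_univ _, hj⟩)) ⟨hxE, ?_⟩
      refine hi.trans (le_of_eq ?_)
      congr 1
      exact sum_congr rfl fun d _ => by ring
    exact this
  calc μ.real (E ∩ {x | K * t + 7 * n / Q < ‖∑ d ∈ T,
        a d x * ψ (v d) x * ee ((d : ℝ) * b x)‖})
      ≤ μ.real (⋃ p ∈ (univ : Finset (Fin K)) ×ˢ range Q, A p) :=
        ENNReal.toReal_mono (measure_ne_top _ _) (measure_mono_ae cov)
    _ ≤ ∑ p ∈ (univ : Finset (Fin K)) ×ˢ range Q, μ.real (A p) :=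
        measureReal_biUnion_finset_le _ _
    _ ≤ ∑ p ∈ (univ : Finset (Fin K)) ×ˢ range Q,
          4 * μ.real E * Real.exp (-(t ^ 2 / (8 * s))) := sum_le_sum fun p _ => hA p
    _ = 4 * K * Q * μ.real E * Real.exp (-(t ^ 2 / (8 * s))) := by
        rw [sum_const, card_product, card_univ, Fintype.card_fin, card_range, nsmul_eq_mul]
        push_cast
        ring

end T5x

end
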