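import Pool.Agent.MP_154433_an.t5.SpecR

/-! Row Tail: the tail of a dissociated sum from its exponential moment. -/

set_option autoImplicit false
set_option linter.unusedVariables false
set_option warn.classDefReducibility false

open MeasureTheory ProbabilityTheory Filter Topology Function Finset ComplexConjugate
open scoped BigOperators
open Fib27 (BM sup pr Oc Orow F23 LInd Mem)
open Pool.Agent.MP_154433_an.SG (Uni ufn)

noncomputable section

namespace T5x

open T3x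

namespace TailA

theorem four (z : ℂ) (t : ℝ) (h : t ≤ ‖z‖) :
    t / 2 ≤ ((1 : ℂ) * z).re ∨ t / 2 ≤ ((-1 : ℂ) * z).re ∨ t / 2 ≤ (Complex.I * z).re ∨
      t / 2 ≤ ((-Complex.I) * z).re := by
  have h1 := Complex.norm_le_abs_re_add_abs_im z
  simp only [one_mul, neg_mul, Complex.neg_re, Complex.mul_re, Complex.I_re, Complex.I_im,
    zero_mul, zero_sub, neg_neg]
  by_contra hc
  push Not at hc
  obtain ⟨a1, a2, a3, a4⟩ := hc
  have b1 : |z.re| < t / 2 := abs_lt.2 ⟨by linarith, a1⟩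
  have b2 : |z.im| < t / 2 := abs_lt.2 ⟨by linarith, a4⟩
  linarith

theorem half (hM : Mgf) (Ω V : Type) [AddCommGroup V] (B : MeasurableSpace Ω)
    (m0 : MeasurableSpace Ω) (μ : Measure Ω) [IsProbabilityMeasure μ] (ψ : V → Ω → ℂ)
    (v : ℤ → V) (S : Finset ℤ) (E : Set Ω) (a : ℤ → Ω → ℂ) (w : ℤ → ℝ) (s t : ℝ)
    (hc : Chr B μ ψ) (hE : MeasurableSet[B] E)
    (hD : ∀ x ∈ E, Dis (fun u => x ∈ Th B μ (ψ u)) v S) (ha : ∀ d, Measurable[B] (a d))
    (hw : ∀ d x, ‖a d x‖ ≤ w d) (hs : 0 < s) (hS : ∑ d ∈ S, w d ^ 2 ≤ s) (ht : 0 ≤ t)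
    (u : ℂ) (hu : ‖u‖ = 1) :
    μ.real (E ∩ {x | t / 2 ≤ (u * ∑ d ∈ S, a d x * ψ (v d) x).re}) ≤
      μ.real E * Real.exp (-(t ^ 2 / (8 * s))) := by
  set lam : ℝ := t / (2 * s) with hlam
  have hl0 : 0 ≤ lam := by positivity
  have hE0 : MeasurableSet E := hc.le _ hE
  have ha' : ∀ d, Measurable[B] (fun x => ((lam : ℂ) * u) * a d x) := fun d =>
    (ha d).const_mul _
  have hw' : ∀ d x, ‖((lam : ℂ) * u) * a d x‖ ≤ lam * w d := by
    intro d x
    rw [norm_mul, norm_mul, hu, mul_one, Complex.norm_real, Real.norm_of_nonneg hl0]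
    exact mul_le_mul_of_nonneg_left (hw d x) hl0
  have h1 := hM Ω V B m0 μ ψ v S E (fun d x => ((lam : ℂ) * u) * a d x) (fun d => lam * w d)
    hc hE hD ha' hw'
  set f : Ω → ℝ := fun x => Real.exp (∑ d ∈ S, ((lam : ℂ) * u) * a d x * ψ (v d) x).re with hf
  have hmeas : AEStronglyMeasurable
      (fun x => ∑ d ∈ S, ((lam : ℂ) * u) * a d x * ψ (v d) x) μ := by
    refine Finset.aestronglyMeasurable_fun_sum S fun d _ => ?_
    exact (((ha' d).mono hc.le le_rfl).aestronglyMeasurable).mul (hc.um (v d)).1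
  have hfm : AEStronglyMeasurable f μ :=
    (Real.continuous_exp.comp Complex.continuous_re).comp_aestronglyMeasurable hmeas
  have hae : ∀ᵐ x ∂μ, ∀ d ∈ S, ‖ψ (v d) x‖ = 1 :=
    (Filter.eventually_all_finset S).2 fun d _ => (hc.um (v d)).2
  have hfi : Integrable f μ := by
    refine Integrable.of_bound hfm (Real.exp (∑ d ∈ S, lam * w d)) ?_
    filter_upwards [hae] with x hx
    rw [Real.norm_of_nonneg (Real.exp_pos _).le]
    refine Real.exp_le_exp.2 ((Complex.re_le_norm _).trans ((norm_sum_le _ _).trans ?_))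
    refine Finset.sum_le_sum fun d hd => ?_
    rw [norm_mul, hx d hd, mul_one]
    exact hw' d x
  have h2 := mul_meas_ge_le_integral_of_nonneg (μ := μ.restrict E) (f := f)
    (Eventually.of_forall fun x => (Real.exp_pos _).le) hfi.restrict (Real.exp (lam * (t / 2)))
  rw [measureReal_restrict_apply' hE0] at h2
  have hsub : E ∩ {x | t / 2 ≤ (u * ∑ d ∈ S, a d x * ψ (v d) x).re} ⊆
      {x | Real.exp (lam * (t / 2)) ≤ f x} ∩ E := by
    rintro x ⟨hx, hx'⟩
    refine ⟨?_, hx⟩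
    have e1 : ∑ d ∈ S, ((lam : ℂ) * u) * a d x * ψ (v d) x =
        (lam : ℂ) * (u * ∑ d ∈ S, a d x * ψ (v d) x) := by
      rw [Finset.mul_sum, Finset.mul_sum]
      exact Finset.sum_congr rfl fun d _ => by ring
    show Real.exp (lam * (t / 2)) ≤ Real.exp _
    rw [e1, Complex.re_ofReal_mul]
    exact Real.exp_le_exp.2 (mul_le_mul_of_nonneg_left hx' hl0)
  have h3 := measureReal_mono (μ := μ) hsub
  have h4 : (∑ d ∈ S, (lam * w d) ^ 2) / 2 ≤ lam ^ 2 * s / 2 := by
    have : ∑ d ∈ S, (lam * w d) ^ 2 = lam ^ 2 * ∑ d ∈ S, w d ^ 2 := by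
      rw [Finset.mul_sum]
      exact Finset.sum_congr rfl fun d _ => by ring
    rw [this]
    have := mul_le_mul_of_nonneg_left hS (sq_nonneg lam)
    linarith
  have h5 : Real.exp (lam * (t / 2)) *
      μ.real (E ∩ {x | t / 2 ≤ (u * ∑ d ∈ S, a d x * ψ (v d) x).re}) ≤
      μ.real E * Real.exp (lam ^ 2 * s / 2) :=
    (mul_le_mul_of_nonneg_left h3 (Real.exp_pos _).le).trans (h2.trans (h1.trans
      (mul_le_mul_of_nonneg_left (Real.exp_le_exp.2 h4) measureReal_nonneg)))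
  have e2 : Real.exp (lam ^ 2 * s / 2) =
      Real.exp (lam * (t / 2)) * Real.exp (-(t ^ 2 / (8 * s))) := by
    rw [← Real.exp_add]
    congr 1
    rw [hlam]
    field_simp
    ring
  rw [e2, mul_left_comm] at h5
  exact le_of_mul_le_mul_left h5 (Real.exp_pos _)

end TailA

theorem tail : TailR := by
  intro hM Ω V _ B m0 μ _ ψ v S E a w s t hc hE hD ha hw hs hS ht
  have h := TailA.half hM Ω V B m0 μ ψ v S E a w s t hc hE hD ha hw hs hS ht
  have h1 := h 1 (by simp)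
  have h2 := h (-1) (by simp)
  have h3 := h Complex.I (by simp)
  have h4 := h (-Complex.I) (by simp)
  set A : ℂ → Set Ω := fun u => E ∩ {x | t / 2 ≤ (u * ∑ d ∈ S, a d x * ψ (v d) x).re} with hA
  have hsub : E ∩ {x | t ≤ ‖∑ d ∈ S, a d x * ψ (v d) x‖} ⊆
      (A 1 ∪ A (-1)) ∪ (A Complex.I ∪ A (-Complex.I)) := by
    rintro x ⟨hx, hx'⟩
    rcases TailA.four _ _ hx' with g | g | g | g
    · exact Or.inl (Or.inl ⟨hx, g⟩)
    · exact Or.inl (Or.inr ⟨hx, g⟩)
    · exact Or.inr (Or.inl ⟨hx, g⟩)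
    · exact Or.inr (Or.inr ⟨hx, g⟩)
  have b0 := measureReal_mono (μ := μ) hsub
  have b1 := measureReal_union_le (μ := μ) (A 1 ∪ A (-1)) (A Complex.I ∪ A (-Complex.I))
  have b2 := measureReal_union_le (μ := μ) (A 1) (A (-1))
  have b3 := measureReal_union_le (μ := μ) (A Complex.I) (A (-Complex.I))
  change μ.real (A 1) ≤ _ at h1
  change μ.real (A (-1)) ≤ _ at h2
  change μ.real (A Complex.I) ≤ _ at h3
  change μ.real (A (-Complex.I)) ≤ _ at h4
  linarith

end T5x

end
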