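import Pool.Agent.MP_154433_an.t5.Az
import Pool.Agent.MP_154433_an.t5.Pair0
import Pool.Agent.MP_154433_an.t5.Pair
import Pool.Agent.MP_154433_an.t5.CoreF
import Pool.Agent.MP_154433_an.t5.HZ
import Pool.Agent.MP_154433_an.t5.Pass1
import Pool.Agent.MP_154433_an.t5.Pass2
import Pool.Agent.MP_154433_an.t5.Mgf
import Pool.Agent.MP_154433_an.t5.Tail
import Pool.Agent.MP_154433_an.t5.Sup
import Pool.Agent.MP_154433_an.t5.CovT
import Pool.Agent.MP_154433_an.t5.Rud
import Pool.Agent.MP_154433_an.t5.PassA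

/-! The items 0, 6, 7 and the passage to the finite level. -/

set_option autoImplicit false

namespace T5x

open T3x

theorem pairX (fd : Fd) : PairS := pairS fd (azR fd) (pair0 fd (azR fd))

theorem coreFX (fd : Fd) (h : CoreS) (ν : Wt) (hν : UW ν) : CoreF ν := coreF fd (azR fd) h ν hν

theorem rudX : Rud := rud (covT (supT (tail mgf)))

theorem passX (fd : Fd) (rc : Rc) : Pass :=
  pass_of fd rc (pass1 fd rc (azR fd) (hz fd)) (pass2 fd rc (azR fd)) rudX

end T5x
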