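import Pool.Agent.MP_154433_an.t5.SpecG

/-! Row GAlgC: assembly of the finite-level data of the algebraic step. -/

set_option autoImplicit false
set_option linter.unusedVariables false
set_option warn.classDefReducibility false

open MeasureTheory ProbabilityTheory Filter Topology Function Finset ComplexConjugate
open scoped BigOperators
open Fib27 (BM sup pr Oc Orow F23 LInd Mem)
open Pool.Agent.MP_154433_an.SG (Uni ufn)

noncomputable section

namespace T5g

open T3x T5x

namespace GAlgC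

theorem sv_meas {c : Cx} {V : Type} [AddCommGroup V] [Countable V] {sg : AddAut V}
    {ψ : V → c.X.X → ℂ} (h : FfC c sg ψ) (i1 i2 : Bool) (a a' : V) :
    MeasurableSet[c.B2] (c.SV ψ i1 i2 a a') :=
  h.um'.inter (MeasurableSet.biUnion (Set.to_countable _) fun v _ => h.tm v)

/-- a family that stays in `I` after recentring gives an event in the pull-back of `I` -/
theorem null_of_nl (f : Fd) {ν : Wt} {U : Ultrafilter ℕ} {X : Sys} (L : Ln ν U X) (s : Slot)
    {A : Lab → Set X.X} {I : Set X.X} (hA : ∀ l, MeasurableSet (A l)) (hI : MeasurableSet I)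
    (h : Nl ν U X fun l => X.Tz (-rho s l) ⁻¹' A l \ I) :
    ∀ᵐ w ∂L.W.μ, w ∈ L.hs A → L.π s w ∈ I := by
  have m2 : ∀ l, MeasurableSet (X.Tz (rho s l) ⁻¹' I) := fun l => (f.t.mp X _).measurable hI
  have hl := f.lc.hs_lim L _ fun l => (hA l).inter (m2 l).compl
  rw [f.lc.hs_inter L _ _ hA fun l => (m2 l).compl, f.lc.hs_compl L _ m2] at hl
  have e : ∀ l, X.μ.real (A l ∩ (X.Tz (rho s l) ⁻¹' I)ᶜ) =
      X.μ.real (X.Tz (-rho s l) ⁻¹' A l \ I) := fun l => by
    rw [← (f.t.mp X (-rho s l)).measureReal_preimage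
      ((hA l).inter (m2 l).compl).nullMeasurableSet]
    refine congrArg X.μ.real (Set.ext fun x => ?_)
    change (X.Tz (-rho s l) x ∈ A l ∧ ¬ X.Tz (rho s l) (X.Tz (-rho s l) x) ∈ I) ↔
      (X.Tz (-rho s l) x ∈ A l ∧ ¬ x ∈ I)
    rw [← f.t.add, add_neg_cancel, f.t.zero]
  simp only [e] at hl
  have h0 := (measureReal_eq_zero_iff (measure_ne_top _ _)).1 (tendsto_nhds_unique hl h)
  filter_upwards [measure_eq_zero_iff_ae_notMem.1 h0, f.lc.hs_slot L s _ hI] with w e1 e2 hw
  by_contra hn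
  exact e1 ⟨hw, fun h => hn (e2.mp h)⟩

end GAlgC

theorem xAlgC : AlgC := by
  intro f r i2 gc hA hT hB hR hP hAlg c V _ _ sg ψ hψ st hbun
  have cc := gc.ctx c
  have ps := gc.ps c.X c.B V sg ψ cc.facB hψ
  have ff := gc.ff c V sg ψ hψ
  choose A hA1 hA2 using fun a a' => f.lc.satu c.L c.X.ms c.hU (f.t.top c.X)
    (c.SV ψ true false a a') (by
      rw [f.lb.top c.L]
      exact cc.kc2.1.le _ (GAlgC.sv_meas ff true false a a'))
  have hd : Desc c ψ true false A := ⟨hA1, hA2⟩
  obtain ⟨a1, a2, a3, a4⟩ := hA f r gc c V sg ψ true false A st hd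
  have mN : ∀ v, MeasurableSet (Th c.B c.X.μ (ψ v)) := fun v =>
    cc.facB.le _ (r.meas c.B c.X.μ (ψ v))
  obtain ⟨v, j, hv⟩ := hbun
  refine hAlg c.ν c.U c.X V sg (fun v => Th c.B c.X.μ (ψ v)) (rec1 c A true) (stp true false)
    { hU := c.hU
      erg := c.uw.erg
      hn := fun l => by simp [stp, rho, zs]
      mN := mN
      mS := fun l a a' => (f.t.mp c.X _).measurable (hd.1 a a' l)
      n0 := ps.n0
      nsub := ps.nsub
      nsh := fun v => by
        filter_upwards [ps.nsh 1 v] with x hx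
        rwa [one_zsmul, f.t.one] at hx
      sub := a1
      triv := a2
      ker := a3
      tot := hT f r gc c V sg ψ true false A st hd
      sh := a4
      flat := hB f r gc c V sg ψ true false A st hd
      dec := hR f r i2 c V sg ψ hψ
      rel2 := fun I hI hTI hN => hP c V sg ψ I true v hψ hI hTI fun h0 => hv ?_ }
  refine measure_mono_null_ae ?_ h0
  have e : c.FF ψ v = fun w => ψ (v true) (c.π true w) * ψ (v false) (c.π false w) :=
    funext fun w => Fintype.prod_bool _
  filter_upwards [GAlgC.null_of_nl f c.L (zs true) (hd.1 0 0) hI hN, st.zero, hA2 0 0,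
    st.ker v j true] with w e1 e2 e3 e4 hw
  exact ⟨⟨e1 (e3.mp (e2.mpr hw.1.1)), e ▸ hw.1.2⟩, (e4 hw.1.2).1 hw.2⟩

end T5g

end
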