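import Pool.Agent.MP_154433_an.t5.SpecG

/-! Section 5, row Cm: two points and the larger factor. -/

set_option autoImplicit false
set_option linter.unusedVariables false
set_option warn.classDefReducibility false

open MeasureTheory ProbabilityTheory Filter Topology Function Finset ComplexConjugate
open scoped BigOperators
open Fib27 (BM sup pr Oc Orow F23 LInd Mem)
open Pool.Agent.MP_154433_an.SG (Uni ufn)

noncomputable section

namespace T5g

open T3x T5x

namespace GCm

open Classical in
/-- the conjugate phase of a complex number of norm one, and one otherwise -/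
def ph (z : ℂ) : ℂ := if ‖z‖ = 1 then conj z else 1

theorem ph_norm (z : ℂ) : ‖ph z‖ = 1 := by
  unfold ph
  split_ifs with h
  · rw [Complex.norm_conj, h]
  · exact norm_one

theorem ph_mul {z : ℂ} (h : ‖z‖ = 1) : ph z * z = 1 := by
  unfold ph
  rw [if_pos h, Complex.conj_mul', h]
  norm_num

theorem ph_meas : Measurable ph := by
  unfold ph
  exact Measurable.ite (measurableSet_eq_fun measurable_norm measurable_const)
    Complex.continuous_conj.measurable measurable_const

theorem um_mono {Ω : Type} (m m' : MeasurableSpace Ω) {m0 : MeasurableSpace Ω} (μ : Measure Ω)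
    {φ : Ω → ℂ} (h : Um m μ φ) (hm : m ≤ m') : Um m' μ φ := ⟨h.1.mono hm, h.2⟩

theorem um_pr {Ω ι : Type} [Fintype ι] {m0 : MeasurableSpace Ω} (μ : Measure Ω) (φ : ι → Ω → ℂ)
    (h : ∀ k, Um m0 μ (φ k)) : Um m0 μ (pr φ univ) := by
  refine ⟨Finset.aestronglyMeasurable_fun_prod _ fun k _ => (h k).1, ?_⟩
  filter_upwards [ae_all_iff.2 fun k => (h k).2] with x hx
  simp only [pr, norm_prod, hx, Finset.prod_const_one]

end GCm

theorem xCm : CmR := by
  intro _ rc r2 Ω β p m0 μ _ φ hβ hp hl hφ q
  have hβ0 : β ≤ m0 := hβ.trans (hp none)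
  have hφ0 : ∀ k, Um m0 μ (φ k) := fun k =>
    GCm.um_mono _ _ μ (hφ k) (sup_le (hp (some k)) hβ0)
  have hF : Um m0 μ (pr φ univ) := GCm.um_pr μ φ hφ0
  let φ' : Option Bool → Ω → ℂ := fun o =>
    o.elim (fun x => GCm.ph ((μ[pr φ univ | p none]) x)) φ
  have hφ' : ∀ o, Um (p o ⊔ β) μ (φ' o) := by
    rintro (_ | k)
    · refine ⟨?_, Eventually.of_forall fun x => GCm.ph_norm _⟩
      have h1 : Measurable[p none] fun x => GCm.ph ((μ[pr φ univ | p none]) x) :=
        GCm.ph_meas.comp stronglyMeasurable_condExp.measurable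
      have h2 : Measurable[p none ⊔ β] (φ' none) := h1.mono le_sup_left le_rfl
      exact h2.stronglyMeasurable.aestronglyMeasurable
    · exact hφ k
  have hF' : Um m0 μ (pr φ' univ) := GCm.um_pr μ φ' fun o =>
    GCm.um_mono _ _ μ (hφ' o) (sup_le (hp o) hβ0)
  have h1 : ∀ᵐ x ∂μ, x ∈ Th2 β (p none) μ (pr φ univ) → pr φ' univ x = (fun _ => (1 : ℂ)) x := by
    filter_upwards [r2.le β (p none) μ (pr φ univ) hβ (hp none) hF] with x hx hx'
    obtain ⟨h2, h3⟩ := hx hx'
    have h4 : pr φ' univ x = GCm.ph ((μ[pr φ univ | p none]) x) * pr φ univ x := by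
      simp only [pr, Fintype.prod_option, φ', Option.elim_none, Option.elim_some]
    rw [h4, h3]
    exact GCm.ph_mul h2
  have h2 := rc.of β μ (pr φ' univ) (fun _ => (1 : ℂ)) (Th2 β (p none) μ (pr φ univ)) hβ0 hF'
    ⟨aestronglyMeasurable_const, 1, Eventually.of_forall fun _ => norm_one.le⟩
    (r2.meas β (p none) μ _) h1
  filter_upwards [h2, rc.cm β p μ φ' hβ0 hp (by simp) hl hφ' (some q)] with x hx hx' h3 h4 k
  exact hx' (hx h3) h4 (some k)

end T5g

end
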