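import Pool.Agent.MP_154433_an.t5.SpecG
import Pool.Agent.MP_154433_an.t3.GHt
import Pool.Agent.MP_154433_an.t3.GI

/-! Factors of a context for the line with a twist slot. -/

set_option autoImplicit false
set_option linter.unusedVariables false
set_option warn.classDefReducibility false

open MeasureTheory ProbabilityTheory Filter Topology Function Finset ComplexConjugate
open scoped BigOperators
open Fib27 (BM sup pr Oc Orow F23 LInd Mem)
open Pool.Agent.MP_154433_an.SG (Uni ufn)

noncomputable section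

namespace T5g

open T3x T5x

namespace GCtx

theorem pair {Ω ι : Type} [DecidableEq ι] (β : MeasurableSpace Ω) (p : ι → MeasurableSpace Ω)
    {m0 : MeasurableSpace Ω} (μ : Measure Ω) {a b : ι} (hab : a ≠ b)
    (h : ∀ f g : Ω → ℂ, BM μ (p a) f → BM μ (p b) g →
      μ[fun x => f x * g x | β] =ᵐ[μ] fun x => (μ[f | β]) x * (μ[g | β]) x) :
    CInd β p {a, b} μ := by
  intro f hf
  have e : pr f {a, b} = fun x => f a x * f b x := funext fun x => prod_pair hab
  rw [e]
  filter_upwards [h (f a) (f b) (hf a (by simp)) (hf b (by simp))] with x hx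
  rw [hx, prod_pair hab]

theorem zs_inj : Injective zs := fun a b h => (Prod.ext_iff.1 h).2

theorem pre_slot (F : Fd) (c : Cx) (k : Bool) (A : Set c.X.X) (hA : MeasurableSet[c.B] A) :
    MeasurableSet[c.L.shp c.B] (c.π k ⁻¹' A) :=
  (le_sup_left.trans (F.lb.slot c.L c.B (zs k) c.kc.1) : c.B.comap (c.π k) ≤ c.L.shp c.B) _
    ⟨A, hA, rfl⟩

end GCtx

open GCtx in
theorem xCtx : CtxR := by
  intro F i2 ps az c
  have facS : Fac c.W (c.L.shp c.B) := F.lb.fac c.L c.B c.kc.1
  have kc2 : KC c.W c.B2 := F.h.kc c.W _ c.L.nice facS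
  have kcZ : KC c.W c.AZ := az.kc c.L c.B c.kc.1
  have leZ : c.B2 ≤ c.AZ := az.b2 c.L c.B
  have facP : ∀ k, Fac c.W (c.P k) := fun k => F.t.fpull _ _ _ _ (c.L.emb _) (F.t.top _)
  obtain ⟨hI, hc⟩ := GI.line F (i2 F c.ν c.U c.hU c.uw.erg) (by norm_num) c.L c.nice c.kc zs
    zs_inj (fun _ => one_ne_zero) univ (by simp)
  have hz := fun q => ps c.ν c.U c.hU c.uw c.X c.B c.L q c.nice c.kc
  have pz : ∀ q, CInd c.B2 c.P3 {some q, none} c.W.μ := fun q =>
    pair c.B2 c.P3 c.W.μ (by simp) ((F.c.cp_iff (c.P q) c.B2 c.AZ c.W.μ (facP q).le kcZ.1.le leZ).1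
      fun f hf => (hz q f hf).trans (hc q (mem_univ q) f hf).symm)
  have pp : CInd c.B2 c.P3 {some true, some false} c.W.μ := by
    refine pair c.B2 c.P3 c.W.μ (by simp) fun f g hf hg => ?_
    have h := hI (fun b => bif b then f else g) fun b _ => by cases b; exacts [hg, hf]
    have e : pr (fun b => bif b then f else g) univ = fun x => f x * g x :=
      funext fun x => Fintype.prod_bool _
    rw [e] at h
    filter_upwards [h] with x hx
    exact hx.trans (Fintype.prod_bool _)
  have le3 : ∀ o, c.P3 o ≤ c.W.ms := by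
    rintro (_ | q)
    exacts [kcZ.1.le, (facP q).le]
  refine ⟨c.kc.1, facS, kc2, F.h.le _ _, kcZ, leZ, fun k => c.L.emb _, fun k => c.L2.emb _,
    fun k => (c.lift k).emb, facP, fun k => F.lb.slot c.L c.B _ c.kc.1, pre_slot F c,
    fun k g => pre_slot F c k _ (GHt.meas_nt c.B c.X.μ g),
    fun k f hf => GI.of_cp F.a (c.L.emb _).mp c.kc.1.le (hc k (mem_univ k)) f hf,
    fun k f hf => GI.of_cp F.a (c.L.emb _).mp c.kc.1.le (hz k) f hf, fun S hS => ?_⟩
  obtain ⟨o, ho⟩ : ∃ o, o ∉ S := by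
    by_contra h
    exact hS (eq_univ_iff_forall.2 fun o => by_contra fun ho => h ⟨o, ho⟩)
  rcases o with _ | _ | _
  · refine F.c.sub _ _ _ S _ kc2.1.le le3 (fun x hx => ?_) pp
    rcases x with _ | _ | _ <;> simp_all
  · refine F.c.sub _ _ _ S _ kc2.1.le le3 (fun x hx => ?_) (pz true)
    rcases x with _ | _ | _ <;> simp_all
  · refine F.c.sub _ _ _ S _ kc2.1.le le3 (fun x hx => ?_) (pz false)
    rcases x with _ | _ | _ <;> simp_all

end T5g

end
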