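import Pool.Agent.MP_154433_an.t5.SpecG

/-! Section 5, row Flat: three sides of a square of tuples give the fourth. -/

set_option autoImplicit false
set_option linter.unusedVariables false
set_option warn.classDefReducibility false

open MeasureTheory ProbabilityTheory Filter Topology Function Finset ComplexConjugate
open scoped BigOperators
open Fib27 (BM sup pr Oc Orow F23 LInd Mem)
open Pool.Agent.MP_154433_an.SG (Uni ufn)

noncomputable section

namespace T5g

open T3x T5x

namespace GFlat

theorem exists_uni {Ω : Type} {m0 : MeasurableSpace Ω} {μ : Measure Ω} {f : Ω → ℂ}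
    (h : Um m0 μ f) : ∃ u : Uni Ω, ufn u =ᵐ[μ] f := by
  classical
  obtain ⟨⟨g, hg, e⟩, hn⟩ := h
  have hm : Measurable g := hg.measurable
  have hS : MeasurableSet {x | ‖g x‖ = 1} := measurableSet_eq_fun hm.norm measurable_const
  let g' : Ω → ℂ := fun x => if ‖g x‖ = 1 then g x else 1
  have hm' : Measurable g' := Measurable.ite hS hm measurable_const
  have hn' : ∀ x, ‖g' x‖ = 1 := fun x => by
    by_cases c : ‖g x‖ = 1
    · simp only [g', if_pos c]; exact c
    · simp only [g', if_neg c]; exact norm_one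
  refine ⟨⟨fun x => ⟨g' x, mem_sphere_zero_iff_norm.2 (hn' x)⟩, hm'⟩, ?_⟩
  filter_upwards [e, hn] with x h1 h2
  show g' x = f x
  have c : ‖g x‖ = 1 := h1 ▸ h2
  simp only [g', if_pos c]
  exact h1.symm

theorem theta_iff (G : GC) (c : Cx) {V : Type} {ψ : V → c.X.X → ℂ} {u : V → Uni c.X.X}
    (hu : ∀ v, ufn (u v) =ᵐ[c.X.μ] ψ v) (v : Bool → V) :
    ∀ᵐ w ∂c.W.μ, w ∈ c.Θ (fun k => u (v k)) ↔ w ∈ c.ΘV ψ v := by
  have e : c.up (fun k => u (v k)) =ᵐ[c.W.μ] c.FF ψ v := by
    have h := fun k => ((G.ctx c).embπ k).mp.quasiMeasurePreserving.ae (hu (v k))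
    filter_upwards [h true, h false] with w h1 h2
    show ufn (u (v true)) (c.π true w) * ufn (u (v false)) (c.π false w) =
      ∏ k, ψ (v k) (c.π k w)
    rw [Fintype.prod_bool, h1, h2]
  exact G.r2.congr c.B2 c.AZ c.W.μ _ _ e

end GFlat

open GFlat in
theorem xFlat : FlatR := by
  intro fd G c V _ _ sg ψ hF hP m j0 j
  by_cases e : j = j0
  · subst e
    exact Eventually.of_forall fun x _ h => h
  have e' : j = !j0 := by
    cases j <;> cases j0 <;> simp at e ⊢
  subst e'
  choose u hu using fun v => exists_uni (hP.um v)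
  have hA := fun k =>
    ((G.ctx c).embA k).mp.quasiMeasurePreserving.ae (theta_iff G c hu (m k))
  have hB := fun i =>
    ((G.ctx c).embB i).mp.quasiMeasurePreserving.ae (theta_iff G c hu fun k => m k i)
  filter_upwards [hA true, hA false, hB j0, hB (!j0), hF (fun q i => u (m q i)) j0]
    with x h1 h2 h3 h4 h5 ha hb
  exact h4.1 (h5 ⟨⟨h1.2 (ha true), h2.2 (ha false)⟩, h3.2 hb⟩)

end T5g

end
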