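import Pool.Agent.MP_154433_an.t5.SpecG

/-! Row GMix: the two point slots are dominated by the product over the invariant factor. -/

set_option autoImplicit false
set_option linter.unusedVariables false
set_option warn.classDefReducibility false

open MeasureTheory ProbabilityTheory Filter Topology Function Finset ComplexConjugate
open scoped BigOperators

noncomputable section

namespace T5g

open T3x T5x

namespace GMixx

theorem inv_z (t : BasT) (X : Sys) {g : X.X → ℂ} (h : (fun x => g (X.T x)) =ᵐ[X.μ] g) (n : ℤ) :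
    (fun x => g (X.Tz n x)) =ᵐ[X.μ] g := by
  have k : ∀ m : ℤ, (fun x => g (X.Tz (1 + m) x)) =ᵐ[X.μ] fun x => g (X.Tz m x) := fun m => by
    simp only [t.add, t.one]
    exact (t.mp X m).quasiMeasurePreserving.ae_eq_comp h
  induction n using Int.induction_on with
  | zero => simp only [t.zero]; exact EventuallyEq.rfl
  | succ n ih => rw [add_comm]; exact (k n).trans ih
  | pred n ih =>
    have := k (-(n : ℤ) - 1)
    rw [show 1 + (-(n : ℤ) - 1) = -n by ring] at this
    exact this.symm.trans ih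

theorem pullout {Ω : Type} {m m0 : MeasurableSpace Ω} (μ : Measure Ω) [IsProbabilityMeasure μ]
    (hm : m ≤ m0) {g a : Ω → ℂ} (hg : AEStronglyMeasurable[m] g μ) (ha : Integrable a μ)
    (hga : Integrable (fun x => g x * a x) μ) :
    ∫ x, g x * a x ∂μ = ∫ x, g x * (μ[a | m]) x ∂μ := by
  have h := condExp_bilin_of_aestronglyMeasurable_left (ContinuousLinearMap.mul ℝ ℂ) hg hga ha
  exact (integral_condExp hm (f := fun x => g x * a x)).symm.trans (integral_congr_ae h)

theorem im {Ω : Type} [MeasurableSpace Ω] {μ : Measure Ω} {g a : Ω → ℂ} (hg : MemLp g 2 μ)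
    (ha : MemLp a 2 μ) : Integrable (fun x => g x * a x) μ := hg.integrable_mul ha

theorem one_side (ν : Wt) (M : ℕ) {Ω : Type} [MeasurableSpace Ω] (μ : Measure Ω)
    [IsProbabilityMeasure μ] (F : ℤ → Ω → ℂ) (hF : ∀ d, MemLp (F d) 2 μ) (b : Ω → ℂ)
    (hb : AEStronglyMeasurable b μ) (hb1 : ∀ x, ‖b x‖ ≤ 1) {ε : ℝ} (hε : 0 < ε) :
    ν.av M (fun d => (∫ x, F d x * b x ∂μ).re) ≤
      ε + ε⁻¹ * ∫ x, ‖ν.av M fun d => F d x‖ ^ 2 ∂μ := by
  have hi : ∀ d, Integrable (fun x => F d x * b x) μ := fun d =>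
    ((hF d).integrable one_le_two).mul_bdd hb (ae_of_all _ hb1)
  have hG : MemLp (fun x => ν.av M fun d => F d x) 2 μ :=
    memLp_finsetSum _ fun d _ => (hF d).const_smul (ν.w M d)
  have h2 : Integrable (fun x => ‖ν.av M fun d => F d x‖ ^ 2) μ :=
    (memLp_two_iff_integrable_sq_norm hG.1).1 hG
  have e : ν.av M (fun d => (∫ x, F d x * b x ∂μ).re) =
      (∫ x, (ν.av M fun d => F d x) * b x ∂μ).re := by
    simp only [Wt.av, sum_mul, smul_mul_assoc]
    rw [integral_finsetSum (f := fun d x => ν.w M d • (F d x * b x)) _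
      fun d _ => (hi d).smul (ν.w M d), Complex.re_sum]
    refine sum_congr rfl fun d _ => ?_
    rw [integral_smul, Complex.smul_re]
  rw [e]
  refine (Complex.re_le_norm _).trans ((norm_integral_le_of_norm_le
    ((integrable_const ε).add (h2.const_mul ε⁻¹)) (ae_of_all _ fun x => ?_)).trans (le_of_eq ?_))
  · rw [norm_mul]
    refine (mul_le_of_le_one_right (norm_nonneg _) (hb1 x)).trans ?_
    set s := ‖ν.av M fun d => F d x‖
    have hs : 0 ≤ s := norm_nonneg _
    show s ≤ ε + ε⁻¹ * s ^ 2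
    rw [← sub_nonneg, show ε + ε⁻¹ * s ^ 2 - s = ε⁻¹ * ((s - ε) ^ 2 + ε * s) by field_simp; ring]
    positivity
  · simp only [Pi.add_apply]
    rw [integral_add (integrable_const ε) (h2.const_mul ε⁻¹), integral_const_mul]
    simp

end GMixx

open GMixx in
theorem xMixL : MixL := by
  intro fd ν U X L hU erg A A' hA hA'
  have hle := (fd.t.finv X).le
  set a : X.X → ℂ := A.indicator fun _ => 1 with ha
  set a' : X.X → ℂ := A'.indicator fun _ => 1 with ha'
  set P := X.μ[a | T3x.Inv X] with hP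
  set R := (∫ x, P x * (X.μ[a' | T3x.Inv X]) x ∂X.μ).re with hR
  have a2 : MemLp a 2 X.μ := (memLp_const _).indicator hA
  have a2' : MemLp a' 2 X.μ := (memLp_const _).indicator hA'
  have b1 : ∀ x, ‖a' x‖ ≤ 1 := fun x => by by_cases hx : x ∈ A' <;> simp [ha', hx]
  have P2 : MemLp P 2 X.μ := a2.condExp one_le_two
  have Pm : AEStronglyMeasurable[T3x.Inv X] P X.μ := stronglyMeasurable_condExp.aestronglyMeasurable
  have Pz := inv_z fd.t X ((fd.t.inv_iff X P P2.1).1 Pm)
  have f2 : MemLp (fun x => a x - P x) 2 X.μ := a2.sub P2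
  have hz := (fd.mix ν erg).zero X 1 _ f2 fun g hg hi => by
    have gm := (fd.t.inv_iff X g hg.1).2 (by simpa only [fd.t.one] using hi)
    have := pullout X.μ hle gm (a2.integrable one_le_two) (im hg a2)
    simp only [mul_comm _ (g _), mul_sub]
    rw [integral_sub (im hg a2) (im hg P2), this, sub_self]
  simp only [one_mul] at hz
  have cz : ∀ {g : X.X → ℂ}, MemLp g 2 X.μ → ∀ d, MemLp (fun x => g (X.Tz d x)) 2 X.μ :=
    fun hg d => hg.comp_measurePreserving (fd.t.mp X d)
  have m1 : ∀ d, MeasurableSet (X.Tz d ⁻¹' A) := fun d => (fd.t.mp X _).measurable hA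
  have m2 : ∀ d, MeasurableSet (X.Tz d ⁻¹' A') := fun d => (fd.t.mp X _).measurable hA'
  have e : ∀ d d' : ℤ, X.μ.real (X.Tz d ⁻¹' A ∩ X.Tz d' ⁻¹' A') =
      (∫ x, (a (X.Tz d x) - P (X.Tz d x)) * a' (X.Tz d' x) ∂X.μ).re + R := fun d d' => by
    have e1 : ∫ x, P (X.Tz d x) * a' (X.Tz d' x) ∂X.μ =
        ∫ x, P x * (X.μ[a' | T3x.Inv X]) x ∂X.μ := by
      have e0 := integral_map (μ := X.μ) (fd.t.mp X d').measurable.aemeasurable
        (f := fun x => P x * a' x) (by rw [(fd.t.mp X d').map_eq]; exact (im P2 a2').1)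
      rw [(fd.t.mp X d').map_eq] at e0
      rw [← pullout X.μ hle Pm (a2'.integrable one_le_two) (im P2 a2'), e0]
      refine integral_congr_ae ?_
      filter_upwards [Pz d, Pz d'] with x h1 h2
      rw [h1, h2]
    have e2 : ∫ x, a (X.Tz d x) * a' (X.Tz d' x) ∂X.μ =
        (X.μ.real (X.Tz d ⁻¹' A ∩ X.Tz d' ⁻¹' A') : ℂ) := by
      have : (fun x => a (X.Tz d x) * a' (X.Tz d' x)) =
          (X.Tz d ⁻¹' A ∩ X.Tz d' ⁻¹' A').indicator fun _ => (1 : ℂ) := by
        funext x
        by_cases h1 : X.Tz d x ∈ A <;> by_cases h2 : X.Tz d' x ∈ A' <;> simp [ha, ha', h1, h2]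
      rw [this, integral_indicator_const _ ((m1 d).inter (m2 d'))]
      simp
    simp only [sub_mul]
    rw [integral_sub (im (cz a2 d) (cz a2' d')) (im (cz P2 d) (cz a2' d')),
      e1, e2, Complex.sub_re, Complex.ofReal_re, hR, sub_add_cancel]
  have hl := fd.lc.hs_lim L _ fun l => (m1 (rho (zs true) l)).inter (m2 (rho (zs false) l))
  rw [fd.lc.hs_inter L _ _ (fun l => m1 _) (fun l => m2 _),
    measureReal_congr ((fd.lc.hs_slot L _ A hA).inter (fd.lc.hs_slot L _ A' hA'))] at hl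
  refine le_of_forall_pos_le_add fun ε hε => ?_
  have hr := ((hz.mono_left hU).const_mul ε⁻¹).const_add (R + ε)
  rw [mul_zero, add_zero] at hr
  refine le_of_tendsto_of_tendsto' hl hr fun M => ?_
  have k : ∀ d' : ℤ, ν.av M (fun d => X.μ.real (X.Tz d ⁻¹' A ∩ X.Tz d' ⁻¹' A')) ≤
      R + ε + ε⁻¹ * ∫ x, ‖ν.av M fun d => a (X.Tz d x) - P (X.Tz d x)‖ ^ 2 ∂X.μ := fun d' => by
    have := one_side ν M X.μ _ (cz f2) _ (cz a2' d').1 (fun x => b1 _) hε
    simp only [e, Wt.av, smul_add, sum_add_distrib, ← sum_smul, ν.one, one_smul] at this ⊢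
    linarith
  have s : (ν.av2 M fun l => X.μ.real (X.Tz (rho (zs true) l) ⁻¹' A ∩
      X.Tz (rho (zs false) l) ⁻¹' A')) = ν.av M fun d' =>
        ν.av M fun d => X.μ.real (X.Tz d ⁻¹' A ∩ X.Tz d' ⁻¹' A') := by
    simp only [Wt.av2, Wt.av, rho, zs, one_mul, if_true, Bool.false_eq_true, if_false, smul_sum]
    rw [sum_comm]
    exact sum_congr rfl fun _ _ => sum_congr rfl fun _ _ => smul_comm _ _ _
  rw [s, Wt.av]
  refine (sum_le_sum fun d' _ => smul_le_smul_of_nonneg_left (k d') (ν.nn M d')).trans ?_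
  rw [← sum_smul, ν.one, one_smul]

end T5g

end
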