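import Pool.Agent.MP_154433_an.t5.GLn

/-! Section 5: steps in the grid and at the finite level. -/

set_option autoImplicit false
set_option linter.unusedVariables false
set_option warn.classDefReducibility false

open MeasureTheory ProbabilityTheory Filter Topology Function Finset ComplexConjugate
open scoped BigOperators
open Fib27 (BM sup pr Oc Orow F23 LInd Mem)
open Pool.Agent.MP_154433_an.SG (Uni ufn)

noncomputable section

namespace T5g

open T3x T5x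

section

namespace GStpB

variable {ι V : Type} {R C : ι → (ι → V) → Prop}

lemma core (hf : ∀ (m : ι → ι → V) (j0 j : ι), (∀ k, R k (m k)) → C j0 (fun k => m k j0) →
      C j fun k => m k j) (j0 j : ι) (u : ι → V) (hu : C j0 u) (P : ι → (ι → V) → Prop)
    (h : ∀ k, ∃ v, R k v ∧ v j0 = u k ∧ P k v) :
    ∃ m : ι → ι → V, (∀ k, P k (m k)) ∧ C j fun k => m k j := by
  choose m h1 h2 h3 using h
  refine ⟨m, h3, hf m j0 j h1 ?_⟩
  have : (fun k => m k j0) = u := funext h2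
  rw [this]
  exact hu

lemma colU (hf : ∀ (m : ι → ι → V) (j0 j : ι), (∀ k, R k (m k)) → C j0 (fun k => m k j0) →
      C j fun k => m k j) (hR : ∀ k q y, ∃ v, v q = y ∧ R k v) (j0 j : ι)
    (h0 : ∀ q y, ∃ v, v q = y ∧ C j0 v) (q : ι) (y : V) : ∃ v, v q = y ∧ C j v := by
  obtain ⟨r, hr, hRr⟩ := hR q j y
  obtain ⟨u, hu, hCu⟩ := h0 q (r j0)
  obtain ⟨m, h1, h2⟩ := core hf j0 j u hCu (fun k v => k = q → v j = y) fun k => by
    by_cases hk : k = q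
    · subst hk
      exact ⟨r, hRr, hu.symm, fun _ => hr⟩
    · obtain ⟨v, hv, hRv⟩ := hR k j0 (u k)
      exact ⟨v, hRv, hv, fun h => absurd h hk⟩
  exact ⟨fun k => m k j, h1 q rfl, h2⟩

lemma colS (hf : ∀ (m : ι → ι → V) (j0 j : ι), (∀ k, R k (m k)) → C j0 (fun k => m k j0) →
      C j fun k => m k j) (hR : ∀ k q y, ∃ v, v q = y ∧ R k v) {i1 i2 : ι} (h12 : i1 ≠ i2)
    (j0 j : ι) {r1 r2 u : ι → V} (h1 : R i1 r1) (h2 : R i2 r2) (hu : C j0 u)
    (e1 : u i1 = r1 j0) (e2 : u i2 = r2 j0) : ∃ v, (v i1 = r1 j ∧ v i2 = r2 j) ∧ C j v := by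
  obtain ⟨m, g1, g2⟩ := core hf j0 j u hu
    (fun k v => (k = i1 → v j = r1 j) ∧ (k = i2 → v j = r2 j)) fun k => by
    by_cases hk : k = i1
    · subst hk
      exact ⟨r1, h1, e1.symm, fun _ => rfl, fun h => absurd h h12⟩
    · by_cases hk' : k = i2
      · subst hk'
        exact ⟨r2, h2, e2.symm, fun h => absurd h hk, fun _ => rfl⟩
      · obtain ⟨v, hv, hRv⟩ := hR k j0 (u k)
        exact ⟨v, hRv, hv, fun h => absurd h hk, fun h => absurd h hk'⟩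
  exact ⟨fun k => m k j, ⟨(g1 i1).1 rfl, (g1 i2).2 rfl⟩, g2⟩

lemma memU (c : Cx) {V : Type} (ψ : V → c.X.X → ℂ) (w : c.W.X) :
    w ∈ c.UU ψ ↔ ∀ q y, ∃ v : Bool → V, v q = y ∧ w ∈ c.ΘV ψ v := by
  simp only [Cx.UU, Set.mem_iInter, Set.mem_iUnion, Set.mem_ofPred_eq, exists_prop]

lemma memS (c : Cx) {V : Type} (ψ : V → c.X.X → ℂ) (i1 i2 : Bool) (a a' : V) (w : c.W.X) :
    w ∈ c.SV ψ i1 i2 a a' ↔
      w ∈ c.UU ψ ∧ ∃ v : Bool → V, (v i1 = a ∧ v i2 = a') ∧ w ∈ c.ΘV ψ v := by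
  simp only [Cx.SV, Set.mem_inter_iff, Set.mem_iUnion, Set.mem_ofPred_eq, exists_prop]

/-- an almost invariant set is seen in the same way from all rows -/
lemma rows (hF : Fd) (c : Cx) (hc : CtxC c) (S : Set c.W.X) (hS : MeasurableSet S)
    (hT : ∀ᵐ w ∂c.W.μ, w ∈ S ↔ c.W.Tz 1 w ∈ S) (k k' : Bool) :
    ∀ᵐ x ∂c.W2.μ, c.A k x ∈ S ↔ c.A k' x ∈ S := by
  have m1 : AEStronglyMeasurable (S.indicator fun _ => (1 : ℂ)) c.W.μ :=
    (stronglyMeasurable_const.indicator hS).aestronglyMeasurable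
  have m2 := (hF.t.inv_iff c.W _ m1).2 (by
    filter_upwards [hT] with w hw
    rw [hF.t.one] at hw
    by_cases h : w ∈ S
    · rw [Set.indicator_of_mem h, Set.indicator_of_mem (hw.1 h)]
    · rw [Set.indicator_of_notMem h, Set.indicator_of_notMem fun h' => h (hw.2 h')])
  have m3 := hF.a.keq_fun (T3x.Inv c.W) c.W2.μ c.W.μ (c.A k) (c.A k') _ (hc.embA k).mp
    (hc.embA k').mp (hF.lb.inv c.L2 (zs k) (zs k')) m2
  filter_upwards [m3] with x hx
  by_cases h : c.A k x ∈ S <;> by_cases h' : c.A k' x ∈ S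
  · exact iff_of_true h h'
  · rw [Set.indicator_of_mem h, Set.indicator_of_notMem h'] at hx
    exact absurd hx one_ne_zero
  · rw [Set.indicator_of_notMem h, Set.indicator_of_mem h'] at hx
    exact absurd hx zero_ne_one
  · exact iff_of_false h h'

end GStpB

open GStpB in
theorem xStpB : StpB := by
  intro hF hG c V _ _ sg ψ i1 i2 h12 hψ hfl a b a' b'
  have hc := hG.ctx c
  have hf := hG.ff c V sg ψ hψ
  have hU : ∀ᵐ x ∂c.W2.μ, ∀ k, c.A i1 x ∈ c.UU ψ ↔ c.A k x ∈ c.UU ψ :=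
    ae_all_iff.2 fun k => rows hF c hc _ (hc.kc2.1.le _ hf.um') (hf.ush 1) i1 k
  have hA : ∀ᵐ x ∂c.W2.μ, ∀ (m : Bool → Bool → V) (j0 j : Bool), (∀ k, c.A k x ∈ c.ΘV ψ (m k)) →
      c.Bc j0 x ∈ c.ΘV ψ (fun k => m k j0) → c.Bc j x ∈ c.ΘV ψ fun k => m k j :=
    ae_all_iff.2 fun m => ae_all_iff.2 fun j0 => ae_all_iff.2 fun j => hfl m j0 j
  filter_upwards [hU, hA] with x hU hA s1 s2
  rw [memS] at s1 s2
  obtain ⟨u1, r1, ⟨e1, e2⟩, hr1⟩ := s1
  obtain ⟨-, r2, ⟨e3, e4⟩, hr2⟩ := s2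
  have hR : ∀ k q y, ∃ v : Bool → V, v q = y ∧ c.A k x ∈ c.ΘV ψ v :=
    fun k => (memU c ψ _).1 ((hU k).1 u1)
  subst e1 e2 e3 e4
  rw [memS, memS, memU, memU]
  constructor
  · rintro ⟨h0, u, ⟨f1, f2⟩, hu⟩
    exact ⟨colU (R := fun k v => c.A k x ∈ c.ΘV ψ v) (C := fun j v => c.Bc j x ∈ c.ΘV ψ v)
      hA hR i1 i2 h0, colS (R := fun k v => c.A k x ∈ c.ΘV ψ v)
        (C := fun j v => c.Bc j x ∈ c.ΘV ψ v) hA hR h12 i1 i2 hr1 hr2 hu f1 f2⟩
  · rintro ⟨h0, u, ⟨f1, f2⟩, hu⟩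
    exact ⟨colU (R := fun k v => c.A k x ∈ c.ΘV ψ v) (C := fun j v => c.Bc j x ∈ c.ΘV ψ v)
      hA hR i2 i1 h0, colS (R := fun k v => c.A k x ∈ c.ΘV ψ v)
        (C := fun j v => c.Bc j x ∈ c.ΘV ψ v) hA hR h12 i2 i1 hr1 hr2 hu f1 f2⟩

end

section

open T3x.GLn (Rp hs_meas)
open T5g.GLn

theorem xAlgA : AlgA := by
  intro fd rc gc c V _ _ sg ψ i1 i2 A st hd
  have hr := desc_rp hd
  have hs := fun (k : Bool) (a : V) => Rp.slot fd c.L (zs k) (th_meas rc c (ψ a))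
  refine ⟨fun a a' b b' => ?_, fun a a' => ?_, fun a a' => ?_, fun a a' => ?_⟩
  · refine (((hr a a').inter fd (hr b b')).diff fd (hr (a - b) (a' - b'))).nl fd
      (rho (zs i1)) (fun l x => ?_) ?_
    · simp only [Set.mem_sdiff, Set.mem_inter_iff, rec1_mem fd]
    · filter_upwards [st.sub a a' b b'] with w hw h using h.2 (hw h.1)
  · refine ((((hr 0 0).inter fd (hs i1 a)).inter fd (hs i2 a')).diff fd (hr a a')).nl fd
      (rho (zs i1)) (fun l x => ?_) ?_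
    · simp only [Set.mem_sdiff, Set.mem_inter_iff, rec1_mem fd, Set.mem_preimage, stp_Tz fd]
    · filter_upwards [st.triv a a', eventuallyEq_set.1 st.zero] with w hw h0 h
      exact h.2 (hw (h0.1 h.1.1.1) (fun hn => hn h.1.1.2) fun hn => hn h.1.2)
  · refine ((hr a a').inter fd ((hs i1 a).niff fd (hs i2 a'))).nl fd
      (rho (zs i1)) (fun l x => ?_) ?_
    · simp only [Set.mem_inter_iff, rec1_mem fd, Set.mem_preimage, stp_Tz fd, Set.mem_ofPred_eq]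
    · filter_upwards [ae_all_iff.2 fun v : Bool → V => st.ker v i1 i2] with w hw h
      obtain ⟨⟨-, h1⟩, h2⟩ := h
      simp only [Set.mem_iUnion, Set.mem_ofPred_eq] at h1
      obtain ⟨v, ⟨rfl, rfl⟩, hv⟩ := h1
      exact h2 (not_iff_not.1 (hw v hv))
  · refine ((hr (sg a) (sg a')).niff fd ((hr a a').shift fd 1)).nl fd
      (rho (zs i1)) (fun l x => ?_) ?_
    · simp only [Set.mem_ofPred_eq, rec1_mem fd, Set.mem_preimage]
      rw [← fd.t.one, ← fd.t.add, add_comm, fd.t.add, rec1_mem fd]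
    · filter_upwards [eventuallyEq_set.1 (st.sh a a')] with w hw h
      refine h ?_
      rw [Set.mem_preimage, fd.t.one]
      exact hw

namespace GAlgA

theorem small {Ω V : Type} [MeasurableSpace Ω] [Countable V] (μ : Measure Ω)
    [IsProbabilityMeasure μ] (E : Set Ω) (S : V → Set Ω) (hE : NullMeasurableSet E μ)
    (hS : ∀ v, NullMeasurableSet (S v) μ) (h : ∀ᵐ w ∂μ, w ∈ E → ∃ v, w ∈ S v) (ε : ℝ)
    (hε : 0 < ε) : ∃ F : Finset V, ∀ F', F ⊆ F' → μ.real (E \ ⋃ v ∈ F', S v) < ε := by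
  have h1 : Tendsto (fun F : Finset V => μ (E \ ⋃ v ∈ F, S v)) atTop
      (𝓝 (μ (⋂ F : Finset V, E \ ⋃ v ∈ F, S v))) := by
    refine tendsto_measure_iInter_atTop (fun F => hE.diff ?_) (fun F F' hF => ?_)
      ⟨∅, measure_ne_top _ _⟩
    · exact NullMeasurableSet.biUnion (Finset.countable_toSet F) fun v _ => hS v
    · exact Set.sdiff_subset_sdiff_right (Set.biUnion_subset_biUnion_left hF)
  have h2 : μ (⋂ F : Finset V, E \ ⋃ v ∈ F, S v) = 0 := by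
    refine measure_eq_zero_iff_ae_notMem.2 ?_
    filter_upwards [h] with w hw hm
    have hm' := Set.mem_iInter.1 hm
    obtain ⟨v, hv⟩ := hw (hm' ∅).1
    exact (hm' {v}).2 (by simpa using hv)
  rw [h2] at h1
  have h3 := (ENNReal.tendsto_toReal ENNReal.zero_ne_top).comp h1
  obtain ⟨F, hF⟩ := eventually_atTop.1 (h3.eventually (gt_mem_nhds (by simpa using hε)))
  exact ⟨F, fun F' hF' => hF F' hF'⟩

end GAlgA

theorem xAlgT : AlgT := by
  classical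
  intro fd rc gc c V _ _ sg ψ i1 i2 A st hd a ε hε
  have hr := desc_rp hd
  have hm : ∀ a a', NullMeasurableSet (c.SV ψ i1 i2 a a') c.W.μ := fun a a' =>
    (hs_meas fd c.L (hd.1 a a')).nullMeasurableSet.congr (hd.2 a a').symm
  have key : ∀ (w : c.W.X), w ∈ c.SV ψ i1 i2 0 0 → ∀ q, ∃ v : Bool → V, v q = a ∧
      w ∈ c.SV ψ i1 i2 (v i1) (v i2) := fun w hw q => by
    have h1 := Set.mem_iInter.1 (Set.mem_iInter.1 hw.1 q) a
    simp only [Set.mem_iUnion, Set.mem_ofPred_eq] at h1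
    obtain ⟨v, hv, hv'⟩ := h1
    refine ⟨v, hv, hw.1, ?_⟩
    simp only [Set.mem_iUnion, Set.mem_ofPred_eq]
    exact ⟨v, ⟨rfl, rfl⟩, hv'⟩
  obtain ⟨F1, h1⟩ := GAlgA.small c.W.μ _ (fun a' => c.SV ψ i1 i2 a a') (hm 0 0) (hm a)
    (Eventually.of_forall fun w hw => by
      obtain ⟨v, hv, hv'⟩ := key w hw i1
      exact ⟨v i2, hv ▸ hv'⟩) ε hε
  obtain ⟨F2, h2⟩ := GAlgA.small c.W.μ _ (fun a' => c.SV ψ i1 i2 a' a) (hm 0 0) (fun a' => hm a' a)
    (Eventually.of_forall fun w hw => by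
      obtain ⟨v, hv, hv'⟩ := key w hw i2
      exact ⟨v i1, hv ▸ hv'⟩) ε hε
  refine ⟨F1 ∪ F2, Eventually.and ?_ ?_⟩
  · have := ((hr 0 0).diff fd (Rp.biUnion fd (F1 ∪ F2) fun a' => hr a a')).lim' fd
      (B := fun l => rec1 c A i1 l 0 0 \ ⋃ a' ∈ F1 ∪ F2, rec1 c A i1 l a a') (rho (zs i1))
      (fun l x => by simp only [Set.mem_sdiff, Set.mem_iUnion, rec1_mem fd])
    exact (this.eventually (gt_mem_nhds (h1 _ subset_union_left))).mono fun _ h => h.le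
  · have := ((hr 0 0).diff fd (Rp.biUnion fd (F1 ∪ F2) fun a' => hr a' a)).lim' fd
      (B := fun l => rec1 c A i1 l 0 0 \ ⋃ a' ∈ F1 ∪ F2, rec1 c A i1 l a' a) (rho (zs i1))
      (fun l x => by simp only [Set.mem_sdiff, Set.mem_iUnion, rec1_mem fd])
    exact (this.eventually (gt_mem_nhds (h2 _ subset_union_right))).mono fun _ h => h.le

end

section

namespace GAlgB

def cmb {α : Type} (F1 F2 F3 F4 : Set α) : Set α :=
  F1 ∩ (F2 ∩ ((F3 ∩ F4)ᶜ ∩ (F3ᶜ ∩ F4ᶜ)ᶜ))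

theorem mem_cmb {α : Type} (F1 F2 F3 F4 : Set α) (x : α) :
    x ∈ cmb F1 F2 F3 F4 ↔ x ∈ F1 ∧ x ∈ F2 ∧ ¬ (x ∈ F3 ↔ x ∈ F4) := by
  simp only [cmb, Set.mem_inter_iff, Set.mem_compl_iff]
  tauto

theorem meas_cmb {α : Type} [MeasurableSpace α] {F1 F2 F3 F4 : Set α} (h1 : MeasurableSet F1)
    (h2 : MeasurableSet F2) (h3 : MeasurableSet F3) (h4 : MeasurableSet F4) :
    MeasurableSet (cmb F1 F2 F3 F4) :=
  h1.inter (h2.inter ((h3.inter h4).compl.inter (h3.compl.inter h4.compl).compl))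

theorem hs_cmb (fd : Fd) {ν : Wt} {U : Ultrafilter ℕ} {X : Sys} (L : Ln ν U X)
    {F1 F2 F3 F4 : Lab → Set X.X} (h1 : ∀ l, MeasurableSet (F1 l)) (h2 : ∀ l, MeasurableSet (F2 l))
    (h3 : ∀ l, MeasurableSet (F3 l)) (h4 : ∀ l, MeasurableSet (F4 l)) :
    L.hs (fun l => cmb (F1 l) (F2 l) (F3 l) (F4 l)) =
      cmb (L.hs F1) (L.hs F2) (L.hs F3) (L.hs F4) := by
  have a1 : ∀ l, MeasurableSet (F3 l ∩ F4 l) := fun l => (h3 l).inter (h4 l)
  have a2 : ∀ l, MeasurableSet ((F3 l)ᶜ ∩ (F4 l)ᶜ) := fun l => (h3 l).compl.inter (h4 l).compl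
  unfold cmb
  rw [fd.lc.hs_inter L F1 _ h1 fun l => (h2 l).inter ((a1 l).compl.inter (a2 l).compl),
    fd.lc.hs_inter L F2 _ h2 fun l => (a1 l).compl.inter (a2 l).compl,
    fd.lc.hs_inter L (fun l => (F3 l ∩ F4 l)ᶜ) _ (fun l => (a1 l).compl) fun l => (a2 l).compl,
    fd.lc.hs_compl L _ a1, fd.lc.hs_compl L _ a2, fd.lc.hs_inter L F3 F4 h3 h4,
    fd.lc.hs_inter L (fun l => (F3 l)ᶜ) (fun l => (F4 l)ᶜ) (fun l => (h3 l).compl)
      fun l => (h4 l).compl, fd.lc.hs_compl L F3 h3, fd.lc.hs_compl L F4 h4]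

theorem hs_ms (fd : Fd) {ν : Wt} {U : Ultrafilter ℕ} {X : Sys} (L : Ln ν U X)
    {F : Lab → Set X.X} (h : ∀ l, MeasurableSet (F l)) : MeasurableSet (L.hs F) := by
  have := fd.lc.hs_meas L X.ms F (fd.t.top X) h
  rwa [fd.lb.top L] at this

theorem shift (fd : Fd) (Y : Sys) {V : Type} [AddCommGroup V] (sg : AddAut V)
    (S : V → V → Set Y.X) (hS : ∀ a a', S (sg a) (sg a') =ᵐ[Y.μ] Y.T ⁻¹' S a a') (n : ℤ) :
    ∀ a a', ∀ᵐ w ∂Y.μ, w ∈ S ((n • sg) a) ((n • sg) a') ↔ Y.Tz n w ∈ S a a' := by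
  have e : ∀ (n : ℤ) a, ((n + 1) • sg) a = (n • sg) (sg a) := fun n a => by
    rw [add_zsmul, one_zsmul, AddAut.add_apply]
  have eT : ∀ (n : ℤ) w, Y.Tz (n + 1) w = Y.T (Y.Tz n w) := fun n w => by
    rw [add_comm, fd.t.add, fd.t.one]
  have hq : ∀ (n : ℤ) a a', ∀ᵐ w ∂Y.μ,
      Y.Tz n w ∈ S (sg a) (sg a') ↔ Y.Tz (n + 1) w ∈ S a a' := fun n a a' => by
    filter_upwards [(fd.t.mp Y n).quasiMeasurePreserving.ae (hS a a')] with w hw
    rw [eT]
    exact iff_of_eq hw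
  induction n using Int.induction_on with
  | zero =>
    intro a a'
    refine Eventually.of_forall fun w => ?_
    rw [zero_zsmul, AddAut.zero_apply, AddAut.zero_apply, fd.t.zero]
  | succ n ih =>
    intro a a'
    filter_upwards [ih (sg a) (sg a'), hq n a a'] with w h1 h2
    rw [e, e, h1, h2]
  | pred n ih =>
    intro a a'
    have e1 : (-(n : ℤ)) = (-(n : ℤ) - 1) + 1 := by ring
    rw [e1] at ih
    filter_upwards [ih (sg.symm a) (sg.symm a'), hq (-(n : ℤ) - 1) (sg.symm a) (sg.symm a')]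
      with w h1 h2
    rw [e, e] at h1
    simp only [AddEquiv.apply_symm_apply] at h1 h2
    rw [h1, h2]

theorem real_pre (fd : Fd) (Y : Sys) (n : ℤ) {E : Set Y.X} (hE : MeasurableSet E) :
    Y.μ.real (Y.Tz n ⁻¹' E) = Y.μ.real E := by
  unfold Measure.real
  rw [(fd.t.mp Y n).measure_preimage hE.nullMeasurableSet]

end GAlgB

open GAlgB in
theorem xAlgB : AlgB := by
  intro fd rc gc c V _ _ sg ψ i1 i2 A st hD a b a' b'
  obtain ⟨hA, hS⟩ := hD
  have cx := gc.ctx c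
  have mT : ∀ (Y : Sys) (n : ℤ), Measurable (Y.Tz n) := fun Y n => (fd.t.mp Y n).measurable
  have hH : ∀ a a', MeasurableSet (c.L.hs (A a a')) := fun a a' => hs_ms fd c.L (hA a a')
  have mπ : ∀ k, Measurable (c.π k) := fun k => (cx.embπ k).mp.measurable
  let E : Lab → Set c.W.X := fun l =>
    cmb (c.W.Tz (rho (zs i1) l) ⁻¹' c.L.hs (A a b)) (c.W.Tz (rho (zs i2) l) ⁻¹' c.L.hs (A a' b'))
      (c.π i1 ⁻¹' A a a' l) (c.π i2 ⁻¹' A b b' l)
  have hE : ∀ l, MeasurableSet (E l) := fun l =>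
    meas_cmb (mT _ _ (hH _ _)) (mT _ _ (hH _ _)) (mπ _ (hA _ _ _)) (mπ _ (hA _ _ _))
  refine ⟨fun l => c.W.μ.real (E l), ?_, fun l => ?_⟩
  · have h1 := fd.lc.hs_lim c.L2 E hE
    have h2 : c.L2.W.μ.real (c.L2.hs E) = 0 := by
      have h3 : c.L2.hs E = _ := hs_cmb fd c.L2 (fun l => mT _ _ (hH a b))
        (fun l => mT _ _ (hH a' b')) (fun l => mπ i1 (hA a a' l)) fun l => mπ i2 (hA b b' l)
      rw [h3, measureReal_eq_zero_iff, measure_eq_zero_iff_ae_notMem]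
      filter_upwards [st.flat a b a' b', fd.lc.hs_slot c.L2 (zs i1) _ (hH a b),
        fd.lc.hs_slot c.L2 (zs i2) _ (hH a' b'),
        fd.lc.hs_lift c.L2 c.L (c.π i1) (c.Bc i1) (A a a') (cx.embπ i1) (c.lift i1) (hA a a'),
        fd.lc.hs_lift c.L2 c.L (c.π i2) (c.Bc i2) (A b b') (cx.embπ i2) (c.lift i2) (hA b b'),
        (cx.embA i1).mp.quasiMeasurePreserving.ae (hS a b),
        (cx.embA i2).mp.quasiMeasurePreserving.ae (hS a' b'),
        (cx.embB i1).mp.quasiMeasurePreserving.ae (hS a a'),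
        (cx.embB i2).mp.quasiMeasurePreserving.ae (hS b b')] with x h0 h1 h2 h3 h4 h5 h6 h7 h8
      rw [mem_cmb]
      rintro ⟨k1, k2, k3⟩
      refine k3 ?_
      have := h0 ((iff_of_eq h5).2 ((iff_of_eq h1).1 k1)) ((iff_of_eq h6).2 ((iff_of_eq h2).1 k2))
      exact (iff_of_eq h3).trans ((iff_of_eq h7).symm.trans
        (this.trans ((iff_of_eq h8).trans (iff_of_eq h4).symm)))
    rwa [h2] at h1
  · set n := stp i1 i2 l with hn
    have mR : ∀ a a', MeasurableSet (rec1 c A i1 l a a') := fun a a' => mT _ _ (hA a a' l)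
    let F : Lab → Set c.X.X := fun l' =>
      cmb (A a b l') (A ((n • sg) a') ((n • sg) b') l')
        (c.X.Tz (rho (zs i1) l') ⁻¹' rec1 c A i1 l a a')
        (c.X.Tz (rho (zs i2) l') ⁻¹' rec1 c A i1 l b b')
    have hF : ∀ l', MeasurableSet (F l') := fun l' =>
      meas_cmb (hA _ _ _) (hA _ _ _) (mT _ _ (mR _ _)) (mT _ _ (mR _ _))
    have h1 := fd.lc.hs_lim c.L F hF
    have h2 : c.L.W.μ.real (c.L.hs F) = c.W.μ.real (E l) := by
      rw [← real_pre fd c.W (rho (zs i1) l) (hs_ms fd c.L hF)]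
      refine measureReal_congr ?_
      have h3 : c.L.hs F = _ := hs_cmb fd c.L (hA a b) (hA ((n • sg) a') ((n • sg) b'))
        (fun l' => mT _ _ (mR a a')) fun l' => mT _ _ (mR b b')
      have q := (fd.t.mp c.W (rho (zs i1) l)).quasiMeasurePreserving
      have e1 : ∀ w, c.W.Tz n (c.W.Tz (rho (zs i1) l) w) = c.W.Tz (rho (zs i2) l) w :=
        fun w => by rw [← fd.t.add, hn, stp, sub_add_cancel]
      have e2 : ∀ x, c.X.Tz (-rho (zs i1) l) (c.X.Tz (rho (zs i1) l) x) = x :=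
        fun x => by rw [← fd.t.add, neg_add_cancel, fd.t.zero]
      filter_upwards [q.ae (fd.lc.hs_slot c.L (zs i1) _ (mR a a')),
        q.ae (fd.lc.hs_slot c.L (zs i2) _ (mR b b')), q.ae (hS ((n • sg) a') ((n • sg) b')),
        q.ae (shift fd c.W sg _ st.sh n a' b'),
        (fd.t.mp c.W (rho (zs i2) l)).quasiMeasurePreserving.ae (hS a' b'),
        fd.t.emb_z c.W c.X (c.π i1) (rho (zs i1) l) (cx.embπ i1) _ (mR a a'),
        fd.t.emb_z c.W c.X (c.π i2) (rho (zs i1) l) (cx.embπ i2) _ (mR b b')]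
        with w k1 k2 k3 k4 k5 k6 k7
      refine propext ?_
      change c.W.Tz (rho (zs i1) l) w ∈ c.L.hs F ↔ w ∈ E l
      rw [h3, mem_cmb, mem_cmb]
      rw [e1] at k4
      have j2 : c.W.Tz (rho (zs i1) l) w ∈ c.L.hs (A ((n • sg) a') ((n • sg) b')) ↔
          w ∈ c.W.Tz (rho (zs i2) l) ⁻¹' c.L.hs (A a' b') :=
        (iff_of_eq k3).symm.trans (k4.trans (iff_of_eq k5))
      have j3 : c.W.Tz (rho (zs i1) l) w ∈
          (c.L.hs fun l' => c.X.Tz (rho (zs i1) l') ⁻¹' rec1 c A i1 l a a') ↔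
          w ∈ c.π i1 ⁻¹' A a a' l := by
        refine (iff_of_eq k1).trans ((iff_of_eq k6).trans ?_)
        change c.X.Tz (-rho (zs i1) l) (c.X.Tz (rho (zs i1) l) (c.π i1 w)) ∈ A a a' l ↔ _
        rw [e2]; rfl
      have j4 : c.W.Tz (rho (zs i1) l) w ∈
          (c.L.hs fun l' => c.X.Tz (rho (zs i2) l') ⁻¹' rec1 c A i1 l b b') ↔
          w ∈ c.π i2 ⁻¹' A b b' l := by
        refine (iff_of_eq k2).trans ((iff_of_eq k7).trans ?_)
        change c.X.Tz (-rho (zs i1) l) (c.X.Tz (rho (zs i1) l) (c.π i2 w)) ∈ A b b' l ↔ _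
        rw [e2]; rfl
      rw [j2, j3, j4]
      rfl
    rw [h2] at h1
    refine h1.congr fun M => ?_
    congr 1
    funext l'
    rw [← real_pre fd c.X (-rho (zs i1) l') (hF l')]
    congr 1
    ext y
    have e3 : c.X.Tz (rho (zs i1) l') (c.X.Tz (-rho (zs i1) l') y) = y := by
      rw [← fd.t.add, add_neg_cancel, fd.t.zero]
    have e4 : c.X.Tz (rho (zs i2) l') (c.X.Tz (-rho (zs i1) l') y) =
        c.X.Tz (stp i1 i2 l') y := by
      rw [← fd.t.add, stp, sub_eq_add_neg]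
    rw [Set.mem_preimage, mem_cmb, Set.mem_preimage, Set.mem_preimage, e3, e4]
    rfl

end

end T5g

end
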