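import Pool.Agent.MP_154433_an.t5.SpecG

/-! Calculus of the events on which a function is determined by a larger factor. -/

set_option autoImplicit false
set_option linter.unusedVariables false
set_option warn.classDefReducibility false

open MeasureTheory ProbabilityTheory Filter Topology Function Finset ComplexConjugate
open scoped BigOperators
open Fib27 (BM sup pr Oc Orow F23 LInd Mem)
open Pool.Agent.MP_154433_an.SG (Uni ufn)

noncomputable section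

namespace T5g

open T3x T5x

namespace GR2x

variable {Ω : Type} {β Z : MeasurableSpace Ω} {m0 : MeasurableSpace Ω} {μ : Measure Ω}

theorem meas (F : Ω → ℂ) : MeasurableSet[β] (Th2 β Z μ F) :=
  (stronglyMeasurable_condExp (m := β) (μ := μ) (f := fun v => ‖(μ[F | Z]) v‖)).measurable
    (measurableSet_singleton 1)

theorem um_bm {m : MeasurableSpace Ω} {F : Ω → ℂ} (h : Um m μ F) : BM μ m F := BM.of_uni h.1 h.2

theorem int_norm (F : Ω → ℂ) : Integrable (fun v => ‖(μ[F | Z]) v‖) μ := integrable_condExp.norm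

variable [IsProbabilityMeasure μ]

/-- a function bounded by one whose conditional mean is one on an event equals one there -/
theorem one_of_ce {g : Ω → ℝ} (hβ : β ≤ m0) (hg : Integrable g μ) (h1 : ∀ᵐ x ∂μ, g x ≤ 1) :
    ∀ᵐ x ∂μ, (μ[g | β]) x = 1 → g x = 1 := by
  have hE : MeasurableSet[β] {x | (μ[g | β]) x = 1} :=
    (stronglyMeasurable_condExp (m := β) (μ := μ) (f := g)).measurable (measurableSet_singleton 1)
  have hE0 : MeasurableSet[m0] {x | (μ[g | β]) x = 1} := hβ _ hE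
  have e1 : ∫ x in {x | (μ[g | β]) x = 1}, (μ[g | β]) x ∂μ = ∫ x in {x | (μ[g | β]) x = 1}, g x ∂μ :=
    setIntegral_condExp hβ hg hE
  have e2 : ∫ x in {x | (μ[g | β]) x = 1}, (μ[g | β]) x ∂μ =
      ∫ x in {x | (μ[g | β]) x = 1}, (1 : ℝ) ∂μ := setIntegral_congr_fun hE0 fun x hx => hx
  have e3 : ∫ x in {x | (μ[g | β]) x = 1}, (1 - g x) ∂μ = 0 := by
    rw [integral_sub (integrable_const _) hg.integrableOn, ← e1, e2, sub_self]
  have e4 := (integral_eq_zero_iff_of_nonneg_ae (μ := μ.restrict {x | (μ[g | β]) x = 1})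
    (f := fun x => 1 - g x) (ae_restrict_of_ae (h1.mono fun x hx => sub_nonneg.2 hx))
    ((integrable_const _).sub hg.integrableOn)).1 e3
  filter_upwards [(ae_restrict_iff' hE0).1 e4] with x hx hxE
  have h2 : 1 - g x = 0 := hx hxE
  linarith

/-- a function equal to one on an event of the base has conditional mean one there -/
theorem ce_of_one {g : Ω → ℝ} {E : Set Ω} (hβ : β ≤ m0) (hg : Integrable g μ)
    (hE : MeasurableSet[β] E) (h1 : ∀ᵐ x ∂μ, x ∈ E → g x = 1) :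
    ∀ᵐ x ∂μ, x ∈ E → (μ[g | β]) x = 1 := by
  have e1 := condExp_indicator (m := β) hg hE
  have e2 := condExp_indicator (m := β) (μ := μ) (integrable_const (1 : ℝ)) hE
  have e3 : μ[E.indicator g | β] =ᵐ[μ] μ[E.indicator fun _ => (1 : ℝ) | β] := by
    refine condExp_congr_ae ?_
    filter_upwards [h1] with x hx
    by_cases hxE : x ∈ E
    · simp [hxE, hx hxE]
    · simp [hxE]
  rw [condExp_const hβ] at e2
  filter_upwards [e1, e2, e3] with x a1 a2 a3 hx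
  rw [a1, a2] at a3
  simpa [hx] using a3

theorem le (rc : Rc) {F : Ω → ℂ} (h1 : β ≤ Z) (h2 : Z ≤ m0) (hF : Um m0 μ F) :
    ∀ᵐ x ∂μ, x ∈ Th2 β Z μ F → x ∈ Th Z μ F ∧ F x = (μ[F | Z]) x := by
  have hb : ∀ᵐ x ∂μ, ‖(μ[F | Z]) x‖ ≤ 1 :=
    ae_bdd_norm_condExp_of_ae_bdd_norm (hF.2.mono fun _ h => h.le)
  filter_upwards [one_of_ce (h1.trans h2) (int_norm (Z := Z) F) hb, rc.eq Z μ F h2 hF]
    with x a1 a2 hx
  exact ⟨a1 hx, a2 (a1 hx)⟩

theorem of (rc : Rc) {F k : Ω → ℂ} {E : Set Ω} (h1 : β ≤ Z) (h2 : Z ≤ m0) (hF : Um m0 μ F)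
    (hk : BM μ Z k) (hE : MeasurableSet[β] E) (h : ∀ᵐ x ∂μ, x ∈ E → F x = k x) :
    ∀ᵐ x ∂μ, x ∈ E → x ∈ Th2 β Z μ F :=
  ce_of_one (h1.trans h2) (int_norm (Z := Z) F) hE (rc.of Z μ F k E h2 hF hk (h1 _ hE) h)

omit [IsProbabilityMeasure μ] in
theorem ce_real {g : Ω → ℝ} (hg : Integrable g μ) :
    μ[fun x => ((g x : ℝ) : ℂ) | β] =ᵐ[μ] fun x => (((μ[g | β]) x : ℝ) : ℂ) :=
  (Complex.ofRealCLM.comp_condExp_comm (m := β) hg).symm

theorem mp_int (fd : Fd) (Y : Sys) (n : ℤ) {g : Y.X → ℝ} (hg : Integrable g Y.μ) :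
    Integrable (fun v => g (Y.Tz n v)) Y.μ := (fd.t.mp Y n).integrable_comp_of_integrable hg

theorem mp_ae (fd : Fd) (Y : Sys) (n : ℤ) {p : Y.X → Prop} (h : ∀ᵐ x ∂Y.μ, p x) :
    ∀ᵐ x ∂Y.μ, p (Y.Tz n x) := (fd.t.mp Y n).quasiMeasurePreserving.ae h

theorem sh (fd : Fd) (Y : Sys) (β Z : MeasurableSpace Y.X) (F : Y.X → ℂ) (n : ℤ) (hβ : Fac Y β)
    (hZ : Fac Y Z) (hF : Um Y.ms Y.μ F) :
    ∀ᵐ x ∂Y.μ, x ∈ Th2 β Z Y.μ (fun y => F (Y.Tz n y)) ↔ Y.Tz n x ∈ Th2 β Z Y.μ F := by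
  have hg : Integrable (fun v => ‖(Y.μ[F | Z]) v‖) Y.μ := int_norm F
  have e1 := fd.t.ce Y Z n F hZ (um_bm hF).integrable
  have e2 : Y.μ[fun v => ‖(Y.μ[fun y => F (Y.Tz n y) | Z]) v‖ | β] =ᵐ[Y.μ]
      Y.μ[fun v => ‖(Y.μ[F | Z]) (Y.Tz n v)‖ | β] :=
    condExp_congr_ae (e1.mono fun x hx => by simp only [hx])
  have e3 := fd.t.ce Y β n (fun v => ((‖(Y.μ[F | Z]) v‖ : ℝ) : ℂ)) hβ hg.ofReal
  have e4 := ce_real (β := β) (g := fun v => ‖(Y.μ[F | Z]) (Y.Tz n v)‖)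
    (mp_int fd Y n hg)
  have e5 := mp_ae fd Y n (ce_real (β := β) hg)
  filter_upwards [e2, e3, e4, e5] with x a2 a3 a4 a5
  have a6 : (Y.μ[fun v => ‖(Y.μ[F | Z]) (Y.Tz n v)‖ | β]) x =
      (Y.μ[fun v => ‖(Y.μ[F | Z]) v‖ | β]) (Y.Tz n x) :=
    Complex.ofReal_injective (a4.symm.trans (a3.trans a5))
  change (Y.μ[fun v => ‖(Y.μ[fun y => F (Y.Tz n y) | Z]) v‖ | β]) x = 1 ↔
    (Y.μ[fun v => ‖(Y.μ[F | Z]) v‖ | β]) (Y.Tz n x) = 1
  rw [a2, a6]

end GR2x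

open GR2x in
theorem xR2a : R2aR := by
  intro fd rc
  refine ⟨fun β Z _ μ F => meas F, ?_, fun β Z _ μ _ F h1 h2 hF => le rc h1 h2 hF,
    fun β Z _ μ _ F k E h1 h2 hF hk hE h => of rc h1 h2 hF hk hE h, ?_, ?_,
    fun Y β Z F n hβ hZ hF => sh fd Y β Z F n hβ hZ hF⟩
  · intro Ω β Z m0 μ F F' h
    have e1 : μ[F | Z] =ᵐ[μ] μ[F' | Z] := condExp_congr_ae h
    have e2 : μ[fun v => ‖(μ[F | Z]) v‖ | β] =ᵐ[μ] μ[fun v => ‖(μ[F' | Z]) v‖ | β] :=
      condExp_congr_ae (e1.mono fun x hx => by simp only [hx])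
    filter_upwards [e2] with x hx
    change (μ[fun v => ‖(μ[F | Z]) v‖ | β]) x = 1 ↔ (μ[fun v => ‖(μ[F' | Z]) v‖ | β]) x = 1
    rw [hx]
  · intro Ω β Z m0 μ _ F F' h1 h2 hF hF'
    have hm : Um m0 μ fun x => F x * F' x := by
      refine ⟨((um_bm hF).mul (um_bm hF')).1, ?_⟩
      filter_upwards [hF.2, hF'.2] with x a1 a2
      rw [norm_mul, a1, a2, one_mul]
    have h := of rc (E := Th2 β Z μ F ∩ Th2 β Z μ F') h1 h2 hm
      (((um_bm hF).ce Z).mul ((um_bm hF').ce Z)) ((meas F).inter (meas F')) (by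
        filter_upwards [le rc h1 h2 hF, le rc h1 h2 hF'] with x a1 a2 hx
        rw [← (a1 hx.1).2, ← (a2 hx.2).2])
    filter_upwards [h] with x hx a1 a2
    exact hx ⟨a1, a2⟩
  · intro Ω β Z m0 μ _ F h1 h2 hF
    have hm : Um m0 μ fun x => conj (F x) := by
      refine ⟨(um_bm hF).conj.1, ?_⟩
      filter_upwards [hF.2] with x a1
      rw [Complex.norm_conj, a1]
    exact of rc h1 h2 hm ((um_bm hF).ce Z).conj (meas F) (by
      filter_upwards [le rc h1 h2 hF] with x a1 hx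
      rw [← (a1 hx).2])

end T5g

end
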