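import Pool.Agent.MP_154433_an.t5.SpecG
import Pool.Agent.MP_154433_an.t3.GRelC
import Pool.Agent.MP_154433_an.t3.Sec4A
import Pool.Agent.MP_154433_an.t3.GHt
import Pool.Agent.MP_154433_an.t3.GPsc
import Pool.Agent.MP_154433_an.t3.GFf

/-! Decay of the approximate relations (row GRelC of section 5). -/

set_option autoImplicit false
set_option linter.unusedVariables false
set_option warn.classDefReducibility false

open MeasureTheory ProbabilityTheory Filter Topology Function Finset ComplexConjugate
open scoped BigOperators

noncomputable section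

namespace T5g

open T3x T5x

namespace GRelC

/-- three slots, two of them the point slots -/
def sl : Option Bool → Slot := fun o => o.elim (2, true) zs

theorem sl_inj : Injective sl := by decide

theorem sl_ne : ∀ i, (sl i).1 ≠ 0 := by decide

/-- a context of section 4 with the same lines -/
def ctx (F : Fd) (I : Ind2R) (c : Cx) : Ctx where
  ν := c.ν
  U := c.U
  hU := c.hU
  erg := c.uw.erg
  ι := Option Bool
  sl := sl
  inj := sl_inj
  ne := sl_ne
  three := le_of_eq rfl
  ind := I F c.ν c.U c.hU c.uw.erg
  X := c.X
  B := c.B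
  nice := c.nice
  kc := c.kc
  L := c.L
  L2 := c.L2
  Bc j := (F.la.ex c.L2 c.L _ (c.L.emb (sl j))).choose
  lift j := (F.la.ex c.L2 c.L _ (c.L.emb (sl j))).choose_spec

end GRelC

theorem xRelC : RelC := fun F R I c V _ _ sg ψ hψ a a' =>
  T3x.xRelC F R (T3x.Sec4A.gc T3x.xCtx T3x.xPsc T3x.xFf F R) (GRelC.ctx F I c) V sg ψ hψ a a'

end T5g

end
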