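import Pool.Agent.MP_154433_an.t5.SpecG

/-! The elementary properties of the steps in the line. -/

set_option autoImplicit false
set_option linter.unusedVariables false
set_option warn.classDefReducibility false

open MeasureTheory ProbabilityTheory Filter Topology Function Finset ComplexConjugate
open scoped BigOperators
open Fib27 (BM sup pr Oc Orow F23 LInd Mem)
open Pool.Agent.MP_154433_an.SG (Uni ufn)

noncomputable section

namespace T5g

open T3x T5x

namespace GStpA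

lemma mem_SV (c : Cx) {V : Type} (ψ : V → c.X.X → ℂ) (i1 i2 : Bool) (a a' : V) (w : c.W.X) :
    w ∈ c.SV ψ i1 i2 a a' ↔
      w ∈ c.UU ψ ∧ ∃ v : Bool → V, (v i1 = a ∧ v i2 = a') ∧ w ∈ c.ΘV ψ v := by
  simp only [Cx.SV, Set.mem_inter_iff, Set.mem_iUnion, Set.mem_ofPred_eq, exists_prop]

lemma two {ι V : Type} [DecidableEq ι] [AddCommGroup V] (i1 i2 : ι) (h : i1 ≠ i2) (a a' : V) :
    ((Pi.single i1 a : ι → V) + (Pi.single i2 a' : ι → V)) i1 = a ∧
      ((Pi.single i1 a : ι → V) + (Pi.single i2 a' : ι → V)) i2 = a' := by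
  constructor
  · simp [h]
  · simp [h.symm]

end GStpA

theorem xStpA : StpA := by
  intro fd rc gc c V _ _ sg ψ i1 i2 hne hψ
  have cx := gc.ctx c
  have ff := gc.ff c V sg ψ hψ
  have ps := gc.ps c.X c.B V sg ψ cx.facB hψ
  refine ⟨fun a a' b b' => ?_, ?_, fun a a' => ?_, fun v j k => ?_, fun a a' => ?_⟩
  · filter_upwards [ff.tsub] with w hw hm
    have hm' : w ∈ c.SV ψ i1 i2 a a' ∧ w ∈ c.SV ψ i1 i2 b b' := hm
    obtain ⟨h1, h2⟩ := hm'
    rw [GStpA.mem_SV] at h1 h2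
    obtain ⟨hu, v, ⟨e1, e2⟩, hv⟩ := h1
    obtain ⟨-, v', ⟨e1', e2'⟩, hv'⟩ := h2
    exact (GStpA.mem_SV c ψ i1 i2 _ _ w).2 ⟨hu, v - v',
      ⟨by rw [Pi.sub_apply, e1, e1'], by rw [Pi.sub_apply, e2, e2']⟩, hw v v' hv hv'⟩
  · rw [Filter.eventuallyEq_set]
    filter_upwards [ff.t0] with w hw
    rw [GStpA.mem_SV]
    exact ⟨fun h => h.1, fun h => ⟨h, 0, ⟨rfl, rfl⟩, hw⟩⟩
  · filter_upwards [ff.tadd, ff.tsingle] with w hw hs hu h1 h2
    exact (GStpA.mem_SV c ψ i1 i2 _ _ w).2 ⟨hu, _, GStpA.two i1 i2 hne a a',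
      hw _ _ (hs i1 a h1) (hs i2 a' h2)⟩
  · have hcm := gc.r2.cm c.B2 c.P3 c.W.μ (fun k w => ψ (v k) (c.π k w)) cx.leZ
      (fun i => by
        cases i with
        | none => exact cx.kcZ.1.le
        | some i => exact (cx.facP i).le) cx.cline (fun k => ff.um2 k (v k))
    filter_upwards [hcm j, hcm k, cx.ce j _ (ps.bm (v j)), cx.ce k _ (ps.bm (v k))]
      with w h1 h2 e1 e2 hv
    have hv' : w ∈ Th2 c.B2 (c.P3 none) c.W.μ (pr (fun k w => ψ (v k) (c.π k w)) univ) := hv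
    simp only [Cx.Nt, Set.mem_ofPred_eq, ne_eq]
    refine not_congr ⟨fun h => ?_, fun h => ?_⟩
    · have h0 : (c.W.μ[fun w => ψ (v j) (c.π j w) | c.B2]) w ≠ 0 := by
        rw [e1]; intro h0; rw [h0] at h; simp at h
      have := h1 hv' h0 k
      simp only [Th, Set.mem_ofPred_eq] at this
      rwa [e2] at this
    · have h0 : (c.W.μ[fun w => ψ (v k) (c.π k w) | c.B2]) w ≠ 0 := by
        rw [e2]; intro h0; rw [h0] at h; simp at h
      have := h2 hv' h0 j
      simp only [Th, Set.mem_ofPred_eq] at this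
      rwa [e1] at this
  · rw [Filter.eventuallyEq_set]
    filter_upwards [ff.tsh 1, ff.ush 1] with w hw hu
    simp only [one_zsmul, fd.t.one] at hw hu
    rw [Set.mem_preimage, GStpA.mem_SV, GStpA.mem_SV, hu]
    refine and_congr_right fun _ => ⟨?_, ?_⟩
    · rintro ⟨v, ⟨e1, e2⟩, hv⟩
      refine ⟨fun k => sg.symm (v k), ⟨by simp [e1], by simp [e2]⟩, (hw _).1 ?_⟩
      simpa using hv
    · rintro ⟨v, ⟨e1, e2⟩, hv⟩
      exact ⟨fun k => sg (v k), ⟨by simp [e1], by simp [e2]⟩, (hw v).2 hv⟩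

end T5g

end
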