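import Pool.Agent.MP_154433_an.t5.SpecG

/-! Calculus for partners: the sets `ZV` for the line with a twist slot. -/

set_option autoImplicit false
set_option linter.unusedVariables false
set_option warn.classDefReducibility false

open MeasureTheory ProbabilityTheory Filter Topology Function Finset ComplexConjugate
open scoped BigOperators
open Fib27 (BM sup pr Oc Orow F23 LInd Mem)
open Pool.Agent.MP_154433_an.SG (Uni ufn)

noncomputable section

namespace T5g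

open T3x T5x

namespace GZv

theorem ufn_meas {Ω : Type} {m0 : MeasurableSpace Ω} (φ : Uni Ω) : Measurable (ufn φ) := φ.2

theorem ufn_norm {Ω : Type} {m0 : MeasurableSpace Ω} (φ : Uni Ω) (x : Ω) : ‖ufn φ x‖ = 1 :=
  Circle.norm_coe _

theorem ufn_mul {Ω : Type} {m0 : MeasurableSpace Ω} (φ ψ : Uni Ω) (x : Ω) :
    ufn (φ * ψ) x = ufn φ x * ufn ψ x := Circle.coe_mul _ _

theorem ufn_one {Ω : Type} {m0 : MeasurableSpace Ω} (x : Ω) : ufn (1 : Uni Ω) x = 1 := rfl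

theorem ufn_inv {Ω : Type} {m0 : MeasurableSpace Ω} (φ : Uni Ω) (x : Ω) :
    ufn φ⁻¹ x = conj (ufn φ x) := Circle.coe_inv_eq_conj _

theorem ufn_bm (X : Sys) (φ : Uni X.X) : BM X.μ X.ms (ufn φ) :=
  ⟨(ufn_meas φ).aestronglyMeasurable, 1, Eventually.of_forall fun x => (ufn_norm φ x).le⟩

variable {c : Cx}

/-- the entries as functions on the line -/
def en (c : Cx) (g : Bool → Uni c.X.X) (k : Bool) (w : c.W.X) : ℂ := ufn (g k) (c.π k w)

theorem um (g : Bool → Uni c.X.X) (k : Bool) : Um (c.P k ⊔ c.B2) c.W.μ (en c g k) := by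
  refine ⟨?_, Eventually.of_forall fun w => ufn_norm _ _⟩
  have h1 : Measurable[c.X.ms.comap (c.π k)] (en c g k) :=
    (ufn_meas (g k)).comp (comap_measurable (c.π k))
  have h2 : c.X.ms.comap (c.π k) ≤ c.P k ⊔ c.B2 := le_sup_of_le_left le_sup_left
  exact (h1.mono h2 le_rfl).stronglyMeasurable.aestronglyMeasurable

theorem pr_en (g : Bool → Uni c.X.X) : pr (en c g) univ = c.up g := by
  funext w
  show ∏ k, en c g k w = _
  rw [Fintype.prod_bool]
  rfl

theorem up_meas (hC : CtxC c) (g : Bool → Uni c.X.X) : Measurable (c.up g) :=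
  ((ufn_meas (g true)).comp (hC.embπ true).mp.measurable).mul
    ((ufn_meas (g false)).comp (hC.embπ false).mp.measurable)

theorem up_norm (g : Bool → Uni c.X.X) (w : c.W.X) : ‖c.up g w‖ = 1 := by
  show ‖ufn (g true) (c.π true w) * ufn (g false) (c.π false w)‖ = 1
  rw [norm_mul, ufn_norm, ufn_norm, one_mul]

theorem umP (hC : CtxC c) (g : Bool → Uni c.X.X) : Um c.W.ms c.W.μ (c.up g) :=
  ⟨(up_meas hC g).aestronglyMeasurable, Eventually.of_forall (up_norm g)⟩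

theorem up_mul (g g' : Bool → Uni c.X.X) :
    c.up (g * g') = fun w => c.up g w * c.up g' w := by
  funext w
  show ufn (g true * g' true) (c.π true w) * ufn (g false * g' false) (c.π false w) =
    (ufn (g true) (c.π true w) * ufn (g false) (c.π false w)) *
      (ufn (g' true) (c.π true w) * ufn (g' false) (c.π false w))
  rw [ufn_mul, ufn_mul]
  ring

theorem up_inv (g : Bool → Uni c.X.X) : c.up g⁻¹ = fun w => conj (c.up g w) := by
  funext w
  show ufn (g true)⁻¹ (c.π true w) * ufn (g false)⁻¹ (c.π false w) =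
    conj (ufn (g true) (c.π true w) * ufn (g false) (c.π false w))
  rw [map_mul, ufn_inv, ufn_inv]

theorem up_one : c.up 1 = fun _ => (1 : ℂ) := by
  funext w
  show ufn (1 : Uni c.X.X) (c.π true w) * ufn (1 : Uni c.X.X) (c.π false w) = 1
  rw [ufn_one, ufn_one, one_mul]

/-- the tuple of values -/
def vl {𝒱 : Subgroup (Uni c.X.X)} (h : Bool → 𝒱) : Bool → Uni c.X.X := fun k => (h k).1

theorem mem_ZV {𝒱 : Subgroup (Uni c.X.X)} {q : Bool} {g : Uni c.X.X} {w : c.W.X} :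
    w ∈ c.ZV 𝒱 q g ↔ ∃ h : Bool → 𝒱, (h q).1 = g ∧ w ∈ c.Θ (vl h) := by
  unfold Cx.ZV
  simp only [Set.mem_iUnion, Set.mem_ofPred_eq, exists_prop]
  constructor
  · rintro ⟨g', ⟨h1, h2⟩, h3⟩
    exact ⟨fun k => ⟨g' k, h1 k⟩, h2, h3⟩
  · rintro ⟨h, h1, h2⟩
    exact ⟨vl h, ⟨fun k => (h k).2, h1⟩, h2⟩

theorem cnt {𝒱 : Subgroup (Uni c.X.X)} (h : Countable 𝒱) :
    {g' : Bool → Uni c.X.X | ∀ k, g' k ∈ 𝒱}.Countable := by
  refine (Set.countable_range (vl (c := c) (𝒱 := 𝒱))).mono fun g' hg => ?_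
  exact ⟨fun k => ⟨g' k, hg k⟩, rfl⟩

/-- the shift of a tuple -/
theorem th_sh (hF : Fd) (hR : R2) (hC : CtxC c) (g g' : Bool → Uni c.X.X)
    (h : ∀ k x, ufn (g' k) x = ufn (g k) (c.X.T x)) :
    ∀ᵐ w ∂c.W.μ, w ∈ c.Θ g' ↔ c.W.T w ∈ c.Θ g := by
  have h1 : ∀ k, (fun w => ufn (g k) ((c.π k ∘ c.W.T) w)) =ᵐ[c.W.μ]
      fun w => ufn (g k) ((c.X.T ∘ c.π k) w) := fun k =>
    hF.a.keq_fun c.X.ms c.W.μ c.X.μ _ _ _ ((hC.embπ k).mp.comp c.W.mp)
      (c.X.mp.comp (hC.embπ k).mp) (hC.embπ k).eqv (ufn_meas (g k)).aestronglyMeasurable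
  have h2 : c.up g' =ᵐ[c.W.μ] fun w => c.up g (c.W.Tz 1 w) := by
    filter_upwards [h1 true, h1 false] with w a b
    rw [hF.t.one]
    show ufn (g' true) (c.π true w) * ufn (g' false) (c.π false w) =
      ufn (g true) (c.π true (c.W.T w)) * ufn (g false) (c.π false (c.W.T w))
    rw [(h true _).trans a.symm, (h false _).trans b.symm]
    rfl
  filter_upwards [hR.congr c.B2 c.AZ c.W.μ _ _ h2,
    hR.sh c.W c.B2 c.AZ (c.up g) 1 hC.kc2.1 hC.kcZ.1 (umP hC g)] with w a b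
  rw [hF.t.one] at b
  exact a.trans b

/-- one entry with nonzero mean makes all entries determined -/
theorem cm (hR : R2) (hC : CtxC c) (g : Bool → Uni c.X.X) :
    ∀ᵐ w ∂c.W.μ, w ∈ c.Θ g → ∀ q, (c.X.μ[ufn (g q) | c.B]) (c.π q w) ≠ 0 →
      ∀ k, ‖(c.X.μ[ufn (g k) | c.B]) (c.π k w)‖ = 1 := by
  have hle : ∀ i, c.P3 i ≤ c.W.ms := fun i => by
    cases i with
    | none => exact hC.kcZ.1.le
    | some k => exact (hC.facP k).le
  have h1 := hR.cm c.B2 c.P3 c.W.μ (en c g) hC.leZ hle hC.cline (um g)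
  have h2 : ∀ k, c.W.μ[en c g k | c.B2] =ᵐ[c.W.μ]
      fun w => (c.X.μ[ufn (g k) | c.B]) (c.π k w) := fun k => hC.ce k _ (ufn_bm _ (g k))
  rw [pr_en] at h1
  filter_upwards [ae_all_iff.2 h1, ae_all_iff.2 h2] with w a1 a2 hw q hq k
  have := a1 q hw (by rw [a2 q]; exact hq) k
  rw [← a2 k]
  exact this

end GZv

open GZv in
theorem xZv : ZvR := by
  intro hF _ hG c 𝒱 s hE
  have hC := hG.ctx c
  have hR := hG.r2
  have := hE.cnt
  have hle : c.AZ ≤ c.W.ms := hC.kcZ.1.le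
  refine ⟨umP hC, cnt hE.cnt, fun g => hR.meas _ _ _ _, fun q g => ?_, fun q g => ?_,
    fun q => ?_, fun q g g' => ?_, fun q g => ?_, fun q g => ?_, fun g j k => ?_⟩
  · exact MeasurableSet.biUnion ((cnt hE.cnt).mono fun g' hg => hg.1) fun g' _ => hR.meas _ _ _ _
  · have h1 : ∀ h : Bool → 𝒱, ∀ᵐ w ∂c.W.μ,
        w ∈ c.Θ (vl fun k => s (h k)) ↔ c.W.T w ∈ c.Θ (vl h) := fun h =>
      th_sh hF hR hC _ _ fun k x => hE.sh (h k) x
    filter_upwards [ae_all_iff.2 h1] with w hw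
    refine propext ?_
    show w ∈ c.ZV 𝒱 q (s g).1 ↔ c.W.T w ∈ c.ZV 𝒱 q g.1
    rw [mem_ZV, mem_ZV]
    constructor
    · rintro ⟨h, e, hh⟩
      refine ⟨fun k => s.symm (h k), ?_, (hw _).1 ?_⟩
      · show (s.symm (h q)).1 = g.1
        rw [Subtype.ext e, MulEquiv.symm_apply_apply]
      · simpa only [MulEquiv.apply_symm_apply] using hh
    · rintro ⟨h, e, hh⟩
      refine ⟨fun k => s (h k), ?_, (hw _).2 hh⟩
      show (s (h q)).1 = (s g).1
      rw [Subtype.ext e]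
  · have h1 := hR.of c.B2 c.AZ c.W.μ (c.up 1) (fun _ => 1) Set.univ hC.leZ hle (umP hC 1)
      ⟨aestronglyMeasurable_const, 1, Eventually.of_forall fun _ => by simp⟩ MeasurableSet.univ
      (Eventually.of_forall fun w _ => by rw [up_one])
    filter_upwards [h1] with w hw
    exact mem_ZV.2 ⟨1, rfl, hw trivial⟩
  · have h1 : ∀ h h' : Bool → 𝒱, ∀ᵐ w ∂c.W.μ, w ∈ c.Θ (vl h) → w ∈ c.Θ (vl h') →
        w ∈ c.Θ (vl (h * h')) := fun h h' => by
      filter_upwards [hR.mul c.B2 c.AZ c.W.μ _ _ hC.leZ hle (umP hC (vl h)) (umP hC (vl h'))]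
        with w hw a b
      have := hw a b
      rw [← up_mul] at this
      exact this
    filter_upwards [ae_all_iff.2 fun h => ae_all_iff.2 (h1 h)] with w hw a b
    obtain ⟨h, e, a⟩ := mem_ZV.1 a
    obtain ⟨h', e', b⟩ := mem_ZV.1 b
    exact mem_ZV.2 ⟨h * h', by rw [← e, ← e']; rfl, hw h h' a b⟩
  · have h1 : ∀ h : Bool → 𝒱, ∀ᵐ w ∂c.W.μ, w ∈ c.Θ (vl h) → w ∈ c.Θ (vl h⁻¹) := fun h => by
      filter_upwards [hR.cj c.B2 c.AZ c.W.μ _ hC.leZ hle (umP hC (vl h))] with w hw a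
      have := hw a
      rw [← up_inv] at this
      exact this
    filter_upwards [ae_all_iff.2 h1] with w hw a
    obtain ⟨h, e, a⟩ := mem_ZV.1 a
    exact mem_ZV.2 ⟨h⁻¹, by rw [← e]; rfl, hw h a⟩
  · filter_upwards [ae_all_iff.2 fun h : Bool → 𝒱 => cm hR hC (vl h)] with w hw a
    obtain ⟨h, e, a'⟩ := mem_ZV.1 a
    rw [← e]
    by_cases h0 : (c.X.μ[ufn (h q).1 | c.B]) (c.π q w) = 0
    · exact Or.inl (norm_eq_zero.2 h0)
    · exact Or.inr (hw h a' q h0 q)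
  · filter_upwards [cm hR hC g] with w hw a
    have key : ∀ j k, w ∉ c.Nt j (ufn (g j)) → w ∉ c.Nt k (ufn (g k)) := fun j k hj hk => by
      have h1 : ‖(c.X.μ[ufn (g j) | c.B]) (c.π j w)‖ = 1 := not_not.1 hj
      refine hk (hw a j (fun h0 => ?_) k)
      rw [h0, norm_zero] at h1
      exact zero_ne_one h1
    exact not_iff_not.1 ⟨key j k, key k j⟩

end T5g

end
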