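import Pool.Agent.MP_154433_an.t5.Sec5A
import Pool.Agent.MP_154433_an.t5.GP1
import Pool.Agent.MP_154433_an.t5.GP2
import Pool.Agent.MP_154433_an.t5.GR2
import Pool.Agent.MP_154433_an.t5.GCm
import Pool.Agent.MP_154433_an.t5.GCtx
import Pool.Agent.MP_154433_an.t5.GMix
import Pool.Agent.MP_154433_an.t5.GFlat
import Pool.Agent.MP_154433_an.t5.GRelC
import Pool.Agent.MP_154433_an.t5.GZv
import Pool.Agent.MP_154433_an.t5.GFf
import Pool.Agent.MP_154433_an.t5.GBun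
import Pool.Agent.MP_154433_an.t5.GStpA
import Pool.Agent.MP_154433_an.t5.GAlgC
import Pool.Agent.MP_154433_an.t3.GHatB
import Pool.Agent.MP_154433_an.t3.GMix
import Pool.Agent.MP_154433_an.t3.GPsc

/-! Section 5: all rows. -/

namespace T5g

theorem rows5 : Sec5A.Rows :=
  ⟨xR2a, xCm, xCtx, T3x.xPsc, xFf, xZv, xHt, xExh, xHatA, T3x.xHatB, xTyA, xTyB, xMixL, T3x.xDom,
    xPosB, xPsiA, xPsiB, xBunB, xRelC, xStpA, xFlat, xStpB, xAlgA, xAlgT, xAlgB, xAlgC⟩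

theorem sec5 : Sec5 := Sec5A.out rows5

end T5g
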