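import Pool.Agent.MP_154433_an.t5.Spec
import Pool.Agent.MP_154433_an.t5.GCtx
import Pool.Agent.MP_154433_an.t3.Sat

/-! More facts on the third slot. -/

set_option autoImplicit false
set_option linter.unusedVariables false
set_option warn.classDefReducibility false

open MeasureTheory ProbabilityTheory Filter Topology Function Finset ComplexConjugate
open scoped BigOperators
open Fib27 (BM sup pr Oc Orow F23 LInd Mem)

noncomputable section

namespace T5x

open T3x

theorem azX : AzXR := by
  intro F az
  have facP : ∀ {ν U} {X : Sys} (L : Ln ν U X) s, Fac L.W (L.P s) := fun L s =>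
    F.t.fpull _ _ _ _ (L.emb s) (F.t.top _)
  refine ⟨az, fun L' L p Lp B B' he hL hB hB' hle q => ?_, fun L B q hB => ?_,
    fun L B k hB => ?_, fun L B q => ?_, fun β p m0 μ _ hβ hp h S hS => ?_⟩
  · unfold OB
    rw [F.a.pull_sup]
    exact sup_le_sup (Sat.pull_P F L' L p Lp _ he hL) (az.lift L' L p Lp B B' he hL hB hB' hle)
  · exact F.t.fsup _ _ _ (facP L _) (az.kc L B hB).1
  · rcases k with _ | k
    exacts [(az.kc L B hB).1, facP L _]
  · have e : (univ : Finset I3).erase (some q) = {some (!q), none} := by cases q <;> decide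
    rw [e, Fib27.sup, Finset.iSup_insert, Finset.iSup_singleton, sup_assoc]
    exact congrArg (_ ⊔ ·) (sup_eq_left.2 (az.b2 L B))
  · obtain ⟨o, ho⟩ : ∃ o, o ∉ S := by
      by_contra h
      exact hS (eq_univ_iff_forall.2 fun o => by_contra fun ho => h ⟨o, ho⟩)
    have pr2 := fun a b (hab : a ≠ b) => T5g.GCtx.pair β p μ hab (h a b hab)
    rcases o with _ | _ | _
    · refine F.c.sub _ _ _ S _ hβ hp (fun x hx => ?_) (pr2 (some true) (some false) (by simp))
      rcases x with _ | _ | _ <;> simp_all
    · refine F.c.sub _ _ _ S _ hβ hp (fun x hx => ?_) (pr2 (some true) none (by simp))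
      rcases x with _ | _ | _ <;> simp_all
    · refine F.c.sub _ _ _ S _ hβ hp (fun x hx => ?_) (pr2 (some false) none (by simp))
      rcases x with _ | _ | _ <;> simp_all

end T5x

end
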