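import Pool.Agent.MP_154433_an.t5.Spec
import Pool.Agent.MP_154433_an.t3.GSpU

/-! Rows `CL` and `FLX`: from the saturated grid back to the line. -/

set_option autoImplicit false
set_option linter.unusedVariables false
set_option warn.classDefReducibility false

open MeasureTheory ProbabilityTheory Filter Topology Function Finset ComplexConjugate
open scoped BigOperators
open Fib27 (BM sup pr Oc Orow F23 LInd Mem)
open Pool.Agent.MP_154433_an.SG (Uni ufn)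

noncomputable section

namespace T5x

open T3x
open T3x.GSpURow (um_comp um_bm um_mono um_ufn um_mul_conj meas_pull ne_of_le unim)

namespace CLF

theorem um_mul {Ω : Type} {m m0 : MeasurableSpace Ω} {μ : Measure Ω} {f g : Ω → ℂ}
    (hf : Um m μ f) (hg : Um m μ g) : Um m μ fun x => f x * g x := by
  refine ⟨((um_bm hf).mul (um_bm hg)).1, ?_⟩
  filter_upwards [hf.2, hg.2] with x h1 h2
  simp [h1, h2]

theorem ae_mp {Y X : Sys} {p : Y.X → X.X} (hp : MeasurePreserving p Y.μ X.μ) {P : X.X → Prop}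
    (h : ∀ᵐ x ∂X.μ, P x) : ∀ᵐ y ∂Y.μ, P (p y) := hp.quasiMeasurePreserving.ae h

theorem um_pull (fd : Fd) {Y X : Sys} {p : Y.X → X.X} (hp : MeasurePreserving p Y.μ X.μ)
    (D : MeasurableSpace X.X) {f : X.X → ℂ} (hf : Um D X.μ f) :
    Um (pull Y.μ p D) Y.μ fun y => f (p y) :=
  ⟨(fd.a.bm_comp D Y.μ X.μ p f hp (um_bm hf)).1, ae_mp hp hf.2⟩

theorem um_pr3 {Ω : Type} {m m0 : MeasurableSpace Ω} {μ : Measure Ω} {f : I3 → Ω → ℂ}
    (hf : ∀ i, Um m μ (f i)) : Um m μ (pr f univ) := by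
  refine ⟨(BM.pr fun i _ => um_bm (hf i)).1, ?_⟩
  filter_upwards [ae_all_iff.2 fun i => (hf i).2] with x hx
  simp only [pr, norm_prod, hx, prod_const_one]

theorem prod3 (f : I3 → ℂ) : ∏ k, f k = f (some true) * f (some false) * f none := by
  rw [Fintype.prod_option, Fintype.prod_bool, mul_comm]

variable {c : Cx}

theorem mpP (c : Cx) (k : Bool) : MeasurePreserving (c.π k) c.W.μ c.X.μ := (c.L.emb _).mp

theorem um_up (g : Bool → Uni c.X.X) : Um c.W.ms c.W.μ (c.up g) :=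
  um_mul (um_comp (mpP c true) (um_ufn _ _)) (um_comp (mpP c false) (um_ufn _ _))

/-- the maps of the extension, without dependent types -/
structure K (E : Ex c) : Prop where
  kz : KC c.W c.AZ
  lez : c.B2 ≤ c.AZ
  mw : MeasurePreserving E.pw E.W1.μ c.W.μ
  mz : MeasurePreserving E.pz E.W1.μ E.Z.μ
  mL : MeasurePreserving E.Lw E.L2.W.μ c.W2.μ
  mA : ∀ q, MeasurePreserving (E.gx.A q) E.L2.W.μ E.W1.μ
  mB : ∀ j, MeasurePreserving (c.Bc j ∘ E.Lw) E.L2.W.μ c.W.μ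
  ble : E.gx.β ≤ E.L2.W.ms
  sA : ∀ q, KEq E.L2.W.μ c.W.ms (c.A q ∘ E.Lw) (E.pw ∘ E.gx.A q)
  msA : ∀ q (D : Set c.W.X), MeasurableSet[c.B2] D →
    MeasurableSet[E.gx.β] (E.gx.A q ⁻¹' (E.pw ⁻¹' D))
  msB : ∀ j (D : Set c.W.X), MeasurableSet[c.B2] D →
    MeasurableSet[E.gx.β] ((c.Bc j ∘ E.Lw) ⁻¹' D)
  sw : ∀ q j (u : Uni c.X.X), ∀ᵐ x ∂E.L2.W.μ,
    ufn u (c.π j (E.pw (E.gx.A q x))) = ufn u (c.π q (c.Bc j (E.Lw x)))
  ceA : ∀ q f, BM c.W.μ c.W.ms f → E.L2.W.μ[fun x => f (E.pw (E.gx.A q x)) | E.gx.β]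
    =ᵐ[E.L2.W.μ] fun x => (c.W.μ[f | c.B2]) (E.pw (E.gx.A q x))
  ceB : ∀ j f, BM c.W.μ c.W.ms f → E.L2.W.μ[fun x => f (c.Bc j (E.Lw x)) | E.gx.β]
    =ᵐ[E.L2.W.μ] fun x => (c.W.μ[f | c.B2]) (c.Bc j (E.Lw x))
  ce1 : ∀ f, BM c.W.μ c.W.ms f → E.W1.μ[fun x => f (E.pw x) | E.B1]
    =ᵐ[E.W1.μ] fun x => (c.W.μ[f | c.B2]) (E.pw x)
  cellP : ∀ q j (u : Uni c.X.X), Um (E.gx.G (some q) (some j)) E.L2.W.μ
    fun x => ufn u (c.π j (E.pw (E.gx.A q x)))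
  cellZ : ∀ q (η : c.W.X → ℂ), Um c.AZ c.W.μ η → Um (E.gx.G (some q) none) E.L2.W.μ
    fun x => η (E.pw (E.gx.A q x))

theorem kk (fd : Fd) (az : AzX) (E : Ex c) (gi : E.gx.GI) : K E := by
  have mw : MeasurePreserving E.pw E.W1.μ c.W.μ := E.adm.emb.mp
  have mA : ∀ q, MeasurePreserving (E.gx.A q) E.L2.W.μ E.W1.μ := fun q => (E.L2.emb _).mp
  have mB : ∀ j, MeasurePreserving (c.Bc j ∘ E.Lw) E.L2.W.μ c.W.μ := fun j =>
    (c.lift j).emb.mp.comp E.lift.emb.mp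
  have k2 : KC c.W c.B2 := fd.h.kc _ _ c.L.nice (fd.lb.fac c.L c.B c.kc.1)
  have ce1 : ∀ f, BM c.W.μ c.W.ms f → E.W1.μ[fun x => f (E.pw x) | E.B1]
      =ᵐ[E.W1.μ] fun x => (c.W.μ[f | c.B2]) (E.pw x) := fun f hf =>
    (E.adm.cp _ (fd.a.bm_comp c.W.ms E.W1.μ c.W.μ E.pw f mw hf)).trans
      (fd.a.ce_comp c.B2 E.W1.μ c.W.μ E.pw f mw k2.1.le hf.integrable)
  refine ⟨az.kc c.L c.B c.kc.1, az.b2 c.L c.B, mw, E.admz.emb.mp, E.lift.emb.mp, mA, mB,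
    (fd.h.kc _ _ E.L2.nice (fd.lb.fac E.L2 E.B1 E.adm.kc.1)).1.le,
    fun q => fd.la.slot E.L2 c.L2 E.pw E.Lw (zs q) E.adm.emb E.lift,
    fun q D hD => gi.rowB q _ (meas_pull _ _ (E.adm.le _ (meas_pull _ _ hD))),
    fun j D hD => gi.colB (some j) _ (meas_pull _ _ hD), fun q j u => ?_, fun q f hf => ?_,
    fun j f hf => gi.colE (some j) f hf, ce1, fun q j u => ?_, fun q η hη => ?_⟩
  · exact fd.a.keq_fun c.X.ms E.L2.W.μ c.X.μ ((c.π j ∘ E.pw) ∘ E.gx.A q)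
      (c.π q ∘ (c.Bc j ∘ E.Lw)) (ufn u) (((mpP c j).comp mw).comp (mA q)) ((mpP c q).comp (mB j))
      (gi.col q (some j)) (um_ufn _ u).1
  · exact (gi.rowE q (fun x => f (E.pw x))
      ((fd.a.bm_comp c.W.ms E.W1.μ c.W.μ E.pw f mw hf).mono
        (fd.a.pull_le _ _ _ _ mw le_rfl))).trans ((mA q).quasiMeasurePreserving.ae (ce1 f hf))
  · rw [gi.grow q (some j)]
    exact um_pull fd (mA q) _ (um_pull fd ((mpP c j).comp mw) c.X.ms (um_ufn _ u))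
  · rw [gi.grow q none]
    exact um_pull fd (mA q) _ (um_mono (um_pull fd mw c.AZ hη) E.az)

/-- a row tuple of the extension is a tuple of the line -/
theorem down (fd : Fd) (tz : ThC) {E : Ex c} (k : K E) {F : c.W.X → ℂ} (hF : Um c.W.ms c.W.μ F)
    (u : Uni E.Z.X) : ∀ᵐ y ∂E.W1.μ,
      y ∈ (Th E.B1 E.W1.μ fun x => F (E.pw x) * ufn u (E.pz x)) → E.pw y ∈ c.ThZ F := by
  have l1 : pull E.W1.μ E.pz E.Z.ms ⊔ E.B1 ≤ E.W1.ms :=
    sup_le (fd.a.pull_le _ _ _ _ k.mz le_rfl) E.adm.kc.1.le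
  have h1 := tz.le E.B1 (pull E.W1.μ E.pz E.Z.ms ⊔ E.B1) E.W1.μ (fun x => F (E.pw x))
    (fun x => ufn u (E.pz x)) le_sup_right l1 (um_comp k.mw hF)
    (um_mono (um_pull fd k.mz E.Z.ms (um_ufn _ u)) le_sup_left)
  have h2 := tz.comp c.B2 c.AZ E.B1 (pull E.W1.μ E.pz E.Z.ms ⊔ E.B1) c.W.μ E.W1.μ E.pw F k.mw
    (um_bm hF) ((E.cp _ (fd.a.bm_comp c.W.ms E.W1.μ c.W.μ E.pw F k.mw (um_bm hF))).trans
      (fd.a.ce_comp c.AZ E.W1.μ c.W.μ E.pw F k.mw k.kz.1.le (um_bm hF).integrable))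
    k.kz.1.le k.ce1
  filter_upwards [h1, h2] with y a1 a2 hy
  exact a2.mp (a1 hy)

/-- the tuple with entries `g` and `η` -/
def tup (g : Bool → Uni c.X.X) (η : c.W.X → ℂ) : I3 → c.W.X → ℂ
  | some r => fun w => ufn (g r) (c.π r w)
  | none => η

theorem pr_tup (g : Bool → Uni c.X.X) (η : c.W.X → ℂ) :
    pr (tup g η) univ = fun w => c.up g w * η w := funext fun w => prod3 _

theorem tup_U (E : Ex c) (j : Bool) (g : Bool → Uni c.X.X) {η : c.W.X → ℂ}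
    (h : Um c.AZ c.W.μ η) : E.gx.TupU (some j) (tup g η) :=
  ⟨⟨g, fun _ => rfl⟩, um_mono h le_sup_left⟩

/-- the entries of a row -/
def row (E : Ex c) (q : Bool) (h : Bool → Uni c.X.X) (η : c.W.X → ℂ) : I3 → E.L2.W.X → ℂ
  | some i => fun x => ufn (h i) (c.π i (E.pw (E.gx.A q x)))
  | none => fun x => η (E.pw (E.gx.A q x))

theorem row_um {E : Ex c} (k : K E) (q : Bool) (h : Bool → Uni c.X.X) {η : c.W.X → ℂ}
    (hη : Um c.AZ c.W.μ η) : ∀ i, Um (E.gx.G (some q) i) E.L2.W.μ (row E q h η i)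
  | some i => k.cellP q i (h i)
  | none => k.cellZ q η hη

theorem pr_row (E : Ex c) (q : Bool) (h : Bool → Uni c.X.X) (η : c.W.X → ℂ) :
    pr (row E q h η) univ = fun x => (fun w => c.up h w * η w) (E.pw (E.gx.A q x)) :=
  funext fun x => prod3 _

/-- a column tuple and a row tuple with a common entry extend to all columns -/
theorem ext (fd : Fd) {E : Ex c} (k : K E) {C : ∀ j, (I3 → (E.gx.W j).X → ℂ) → Prop}
    (fu : E.gx.Full C) (q j : Bool) (g h : Bool → Uni c.X.X) {η η' : c.W.X → ℂ}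
    (hη' : Um c.AZ c.W.μ η') (hC : C (some j) (tup g η)) (e : h j = g q) (S : Set E.L2.W.X)
    (mS : MeasurableSet[E.gx.β] S) (n0 : E.L2.W.μ S ≠ 0)
    (h1 : ∀ᵐ x ∂E.L2.W.μ, x ∈ S →
      c.Bc j (E.Lw x) ∈ Th c.B2 c.W.μ fun w => c.up g w * η w)
    (h2 : ∀ᵐ x ∂E.L2.W.μ, x ∈ S →
      E.pw (E.gx.A q x) ∈ Th c.B2 c.W.μ fun w => c.up h w * η' w) :
    ∃ (E' : Set E.L2.W.X) (Φ : ∀ i, I3 → (E.gx.W i).X → ℂ), MeasurableSet[E.gx.β] E' ∧ E' ⊆ S ∧
      E.L2.W.μ E' ≠ 0 ∧ (∀ i, C i (Φ i)) ∧ Φ (some j) = tup g η ∧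
      (∀ i, E' ≤ᵐ[E.L2.W.μ] E.gx.Bc i ⁻¹' E.gx.Θ i (Φ i)) ∧
      ∀ r, E' ≤ᵐ[E.L2.W.μ] Th E.gx.β E.L2.W.μ fun x => ∏ i, Φ i r (E.gx.Bc i x) := by
  have e1 : (fun y => tup g η (some q) (c.Bc j (E.Lw y)) *
      pr (row E q h η') (univ.erase (some j)) y) =ᵐ[E.L2.W.μ] pr (row E q h η') univ := by
    filter_upwards [k.sw q j (g q)] with y hy
    rw [Fib27.pr_erase (row E q h η') (mem_univ (some j))]
    have : row E q h η' (some j) y = tup g η (some q) (c.Bc j (E.Lw y)) := by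
      show ufn (h j) _ = _
      rw [e]; exact hy
    rw [this]
  refine fu q (some j) (tup g η) S (row E q h η') hC mS ?_
    (fun i => (um_bm (row_um k q h hη' i)).mono le_sup_left) (ne_of_le n0 ?_)
  · filter_upwards [h1] with x hx hS
    have := hx hS
    rw [← pr_tup] at this
    exact this
  · rw [pr_row] at e1
    filter_upwards [condExp_congr_ae (m := E.gx.β) e1, h2,
      k.ceA q _ (um_bm (um_mul (um_up h) (um_mono hη' k.kz.1.le)))] with x a1 a2 a3 hx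
    refine ⟨hx, fun hz => ?_⟩
    have b1 : ‖(c.W.μ[fun w => c.up h w * η' w | c.B2]) (E.pw (E.gx.A q x))‖ = 1 := a2 hx
    have b2 := (congrArg norm (a3.symm.trans (a1.symm.trans hz))).symm.trans b1
    rw [norm_zero] at b2
    exact zero_ne_one b2

/-- two unimodular functions that agree up to the base -/
theorem ratio (rc : Rc) {Ω : Type} {β m0 : MeasurableSpace Ω} (μ : Measure Ω)
    [IsProbabilityMeasure μ] (hβ : β ≤ m0) {F G : Ω → ℂ} (hF : Um m0 μ F) (hG : Um m0 μ G) :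
    ∀ᵐ x ∂μ, x ∈ Th β μ F → x ∈ Th β μ G → x ∈ Th β μ fun y => F y * conj (G y) := by
  have u : Um m0 μ fun y => conj (G y) :=
    ⟨(um_bm hG).conj.1, hG.2.mono fun y h => by simpa using h⟩
  filter_upwards [rc.mul β μ _ _ hβ hF u, rc.cj β μ _ hβ hG] with x a1 a2 h1 h2
  exact a1 ⟨h1, a2.mpr h2⟩

theorem th_congr {Ω : Type} (β : MeasurableSpace Ω) {m0 : MeasurableSpace Ω} {μ : Measure Ω}
    {F F' : Ω → ℂ} (h : F =ᵐ[μ] F') : ∀ᵐ w ∂μ, w ∈ Th β μ F → w ∈ Th β μ F' := by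
  filter_upwards [condExp_congr_ae (m := β) h] with w e hw
  exact (congrArg norm e).symm.trans hw

theorem mc {a : ℂ} (h : ‖a‖ = 1) : a * conj a = 1 := by
  rw [Complex.mul_conj, Complex.normSq_eq_norm_sq, h]; simp

theorem prodj (j : Bool) (f : I3 → ℂ) : ∏ k, f k = f (some j) * (f (some (!j)) * f none) := by
  rw [prod3]
  cases j
  · simp only [Bool.not_false]; ring
  · simp only [Bool.not_true]; ring

/-- in one row the entry of the other column is the given function, up to the base -/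
theorem one_row (fd : Fd) (rc : Rc) {E : Ex c} (k : K E) (gi : E.gx.GI) (r j : Bool)
    (h : Bool → Uni c.X.X) {η : c.W.X → ℂ} (uη : Um c.AZ c.W.μ η)
    (Φ : ∀ i, I3 → (E.gx.W i).X → ℂ)
    (uΦ : ∀ i, Um (pull E.L2.W.μ (E.gx.Bc i) (E.gx.W i).ms) E.L2.W.μ
      fun x => Φ i (some r) (E.gx.Bc i x))
    (hj : Φ (some j) (some r) = fun w => ufn (h j) (c.π r w)) :
    ∀ᵐ x ∂E.L2.W.μ, x ∈ (Th E.gx.β E.L2.W.μ fun x => ∏ i, Φ i (some r) (E.gx.Bc i x)) →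
      E.pw (E.gx.A r x) ∈ (Th c.B2 c.W.μ fun w => c.up h w * η w) →
      x ∈ Th E.gx.β E.L2.W.μ fun x => Φ (some (!j)) (some r) (c.Bc (!j) (E.Lw x)) *
        conj (ufn (h (!j)) (c.π r (c.Bc (!j) (E.Lw x)))) := by
  have pl : ∀ i, pull E.L2.W.μ (E.gx.Bc i) (E.gx.W i).ms ≤ E.L2.W.ms := fun i => by
    rcases i with _ | i
    · exact fd.a.pull_le _ _ _ _ E.liftz.emb.mp le_rfl
    · exact fd.a.pull_le _ _ _ _ (k.mB i) le_rfl
  have gl : ∀ i, E.gx.G (some r) i ≤ pull E.L2.W.μ (E.gx.Bc i) (E.gx.W i).ms := fun i =>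
    sup_le_sup_right (MeasurableSpace.comap_mono
      (fd.a.pull_le _ _ _ _ ((E.gx.L i).emb (zs r)).mp le_rfl)) _
  have ua : ∀ i, Um (pull E.L2.W.μ (E.gx.Bc i) (E.gx.W i).ms) E.L2.W.μ (row E r h η i) :=
    fun i => um_mono (row_um k r h uη i) (gl i)
  have uq := fun i => um_mul_conj (uΦ i) (ua i)
  have hS : ({some (!j), none} : Finset I3) ≠ univ := by cases j <;> decide
  have hq := rc.uniq E.gx.β (fun i => pull E.L2.W.μ (E.gx.Bc i) (E.gx.W i).ms) {some (!j), none}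
    E.gx.W2.μ (fun i x => Φ i (some r) (E.gx.Bc i x) * conj (row E r h η i x)) k.ble pl
    (gi.cols _ hS) (fun i _ => um_mono (uq i) le_sup_left) (some (!j)) (mem_insert_self _ _)
  have u1 : Um E.L2.W.ms E.L2.W.μ fun x => ∏ i, Φ i (some r) (E.gx.Bc i x) := by
    simp only [prod3]
    exact um_mul (um_mul (um_mono (uΦ _) (pl _)) (um_mono (uΦ _) (pl _))) (um_mono (uΦ _) (pl _))
  have u0 := um_mul (um_up h) (um_mono uη k.kz.1.le)
  have u2 := um_comp (k.mw.comp (k.mA r)) u0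
  have e1 : (fun x => (∏ i, Φ i (some r) (E.gx.Bc i x)) *
      conj ((fun w => c.up h w * η w) ((E.pw ∘ E.gx.A r) x))) =ᵐ[E.L2.W.μ]
      pr (fun i x => Φ i (some r) (E.gx.Bc i x) * conj (row E r h η i x)) {some (!j), none} := by
    filter_upwards [k.sw r j (h j), (ua (some j)).2] with x a1 a2
    have a3 : c.up h ((E.pw ∘ E.gx.A r) x) * η ((E.pw ∘ E.gx.A r) x) = ∏ i, row E r h η i x :=
      (congrFun (pr_row E r h η) x).symm
    have a4 : Φ (some j) (some r) (E.gx.Bc (some j) x) = row E r h η (some j) x := by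
      rw [hj]; exact a1.symm
    rw [a3, prodj j, prodj j, a4, pr, prod_pair (by simp), map_mul, map_mul]
    linear_combination (Φ (some (!j)) (some r) (E.gx.Bc (some (!j)) x) *
      conj (row E r h η (some (!j)) x) * (Φ none (some r) (E.gx.Bc none x) *
        conj (row E r h η none x))) * mc a2
  have e2 : (fun x => Φ (some (!j)) (some r) (E.gx.Bc (some (!j)) x) *
      conj (row E r h η (some (!j)) x)) =ᵐ[E.L2.W.μ]
      fun x => Φ (some (!j)) (some r) (c.Bc (!j) (E.Lw x)) *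
        conj (ufn (h (!j)) (c.π r (c.Bc (!j) (E.Lw x)))) := by
    filter_upwards [k.sw r (!j) (h (!j))] with x a1
    rw [← a1]
    rfl
  filter_upwards [hq, ratio rc E.L2.W.μ k.ble u1 u2, th_congr E.gx.β e1, th_congr E.gx.β e2,
    k.ceA r _ (um_bm u0)] with x a1 a2 a3 a4 a5 h1 h2
  exact a4 (a1 (a3 (a2 h1 ((congrArg norm a5).trans h2))))

end CLF

open CLF in
theorem clR : CLR := by
  intro fd az rc tz c E ci ok gi fu q j k g h Z hq hZ hsub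
  have kE := kk fd az E gi
  have le2 : c.B2 ≤ c.W.ms := kE.lez.trans kE.kz.1.le
  have tm : ∀ u : Bool → Uni c.X.X, MeasurableSet[c.B2] (c.Θ u) := fun u => tz.meas _ _ _ _
  obtain ⟨η, uη, hη⟩ := tz.ex c.B2 c.AZ c.W.μ _ kE.lez kE.kz.1.le (um_up g)
  obtain ⟨η', uη', hη'⟩ := tz.ex c.B2 c.AZ c.W.μ _ kE.lez kE.kz.1.le (um_up h)
  have mS := ((kE.msB q _ (tm g)).inter (kE.msA j _ (tm h))).inter (kE.msA k _ hZ).compl
  suffices hz : E.L2.W.μ ((((c.Bc q ∘ E.Lw) ⁻¹' c.Θ g) ∩ E.gx.A j ⁻¹' (E.pw ⁻¹' c.Θ h)) ∩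
      (E.gx.A k ⁻¹' (E.pw ⁻¹' Z))ᶜ) = 0 by
    have m1 : MeasurableSet ((c.Bc q ⁻¹' c.Θ g ∩ c.A j ⁻¹' c.Θ h) ∩ (c.A k ⁻¹' Z)ᶜ) :=
      (((c.lift q).emb.mp.measurable (le2 _ (tm g))).inter
        ((c.L2.emb _).mp.measurable (le2 _ (tm h)))).inter
        ((c.L2.emb _).mp.measurable (le2 _ hZ)).compl
    have h0 : c.W2.μ ((c.Bc q ⁻¹' c.Θ g ∩ c.A j ⁻¹' c.Θ h) ∩ (c.A k ⁻¹' Z)ᶜ) = 0 := by
      rw [← kE.mL.measure_preimage m1.nullMeasurableSet]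
      refine measure_mono_null_ae ?_ hz
      filter_upwards [kE.sA j _ (le2 _ (tm h)), kE.sA k _ (le2 _ hZ)] with x a1 a2 hx
      exact ⟨⟨hx.1.1, a1.mp hx.1.2⟩, fun h' => hx.2 (a2.mpr h')⟩
    filter_upwards [measure_eq_zero_iff_ae_notMem.1 h0] with x hx hm
    by_contra hn
    exact hx ⟨hm, hn⟩
  by_contra n0
  obtain ⟨E1, Φ, m1, s1, n1, hΦ, hj, t1, t2⟩ := CLF.ext fd kE fu j q g h uη' (tup_U E q g uη) hq _ mS n0
    (by filter_upwards [(kE.mB q).quasiMeasurePreserving.ae hη] with x a hx using a hx.1.1)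
    (by filter_upwards [(kE.mw.comp (kE.mA j)).quasiMeasurePreserving.ae hη'] with x a hx
        using a hx.1.2)
  obtain ⟨⟨uz, huz⟩, -⟩ := hΦ none
  have hγ : ∀ r : Bool, ∃ u : Uni c.X.X, (r = q → u = g k) ∧
      Φ (some r) (some k) = fun w => ufn u (c.π k w) := fun r => by
    rcases eq_or_ne r q with rfl | hne
    · exact ⟨g k, fun _ => rfl, by rw [hj]; rfl⟩
    · obtain ⟨⟨u, hu⟩, -⟩ := hΦ (some r)
      exact ⟨u k, fun e => absurd e hne, hu k⟩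
  choose γ γ1 γ2 using hγ
  have swz : ∀ᵐ x ∂E.L2.W.μ, ufn (uz k) (E.pz (E.gx.A k x)) =
      ufn (uz k) (E.gx.π none k (E.Bz x)) :=
    fd.a.keq_fun E.Z.ms E.L2.W.μ E.Z.μ (E.pz ∘ E.gx.A k) (E.gx.π none k ∘ E.Bz) (ufn (uz k))
      (kE.mz.comp (kE.mA k)) ((E.LZ.emb _).mp.comp E.liftz.emb.mp) (gi.col k none) (um_ufn _ _).1
  have e2 : (fun x => ∏ i, Φ i (some k) (E.gx.Bc i x)) =ᵐ[E.L2.W.μ]
      fun x => (fun y => c.up γ (E.pw y) * ufn (uz k) (E.pz y)) (E.gx.A k x) := by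
    filter_upwards [kE.sw k true (γ true), kE.sw k false (γ false), swz] with x a1 a2 a3
    rw [prod3, γ2 true, γ2 false, huz k]
    show ufn (γ true) (c.π k (c.Bc true (E.Lw x))) * ufn (γ false) (c.π k (c.Bc false (E.Lw x))) *
      ufn (uz k) (E.gx.π none k (E.Bz x)) = _
    rw [← a1, ← a2, ← a3]
    rfl
  have e3 := (kE.mw.comp (kE.mA k)).quasiMeasurePreserving.ae (hsub γ (γ1 q rfl))
  have e4 := (kE.mA k).quasiMeasurePreserving.ae (down fd tz kE (um_up γ) (uz k))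
  have e5 := gi.rowE k _ (um_bm (um_mul (um_comp kE.mw (um_up γ)) (um_comp kE.mz (um_ufn _ (uz k)))))
  refine n1 (measure_eq_zero_iff_ae_notMem.2 ?_)
  filter_upwards [t2 (some k), condExp_congr_ae (m := E.gx.β) e2, e3, e4, e5]
    with x a1 a2 a3 a4 a5 hx
  have b1 : ‖(E.L2.W.μ[fun x => ∏ i, Φ i (some k) (E.gx.Bc i x) | E.gx.β]) x‖ = 1 := a1 hx
  exact (s1 hx).2 (a3 (a4 ((congrArg norm (a2.trans a5)).symm.trans b1)))

open CLF in
theorem flxR : FLXR := by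
  intro fd az rc tz c E ci ok gi fu g j
  have kE := kk fd az E gi
  have le2 : c.B2 ≤ c.W.ms := kE.lez.trans kE.kz.1.le
  have tm : ∀ u : Bool → Uni c.X.X, MeasurableSet[c.B2] (c.Θ u) := fun u => tz.meas _ _ _ _
  obtain ⟨η, uη, hη⟩ := tz.ex c.B2 c.AZ c.W.μ _ kE.lez kE.kz.1.le (um_up fun q => g q j)
  choose η' uη' hη' using fun r => tz.ex c.B2 c.AZ c.W.μ _ kE.lez kE.kz.1.le (um_up (g r))
  have mS := (((kE.msA true _ (tm (g true))).inter (kE.msA false _ (tm (g false)))).inter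
    (kE.msB j _ (tm fun q => g q j))).inter (kE.msB (!j) _ (tm fun q => g q (!j))).compl
  suffices hz : E.L2.W.μ (((E.gx.A true ⁻¹' (E.pw ⁻¹' c.Θ (g true)) ∩
      E.gx.A false ⁻¹' (E.pw ⁻¹' c.Θ (g false))) ∩ (c.Bc j ∘ E.Lw) ⁻¹' c.Θ fun q => g q j) ∩
      ((c.Bc (!j) ∘ E.Lw) ⁻¹' c.Θ fun q => g q (!j))ᶜ) = 0 by
    have m1 : MeasurableSet ((c.A true ⁻¹' c.Θ (g true) ∩ c.A false ⁻¹' c.Θ (g false) ∩
        c.Bc j ⁻¹' c.Θ fun q => g q j) ∩ (c.Bc (!j) ⁻¹' c.Θ fun q => g q (!j))ᶜ) :=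
      ((((c.L2.emb _).mp.measurable (le2 _ (tm _))).inter
        ((c.L2.emb _).mp.measurable (le2 _ (tm _)))).inter
        ((c.lift j).emb.mp.measurable (le2 _ (tm _)))).inter
        ((c.lift (!j)).emb.mp.measurable (le2 _ (tm _))).compl
    have h0 : c.W2.μ ((c.A true ⁻¹' c.Θ (g true) ∩ c.A false ⁻¹' c.Θ (g false) ∩
        c.Bc j ⁻¹' c.Θ fun q => g q j) ∩ (c.Bc (!j) ⁻¹' c.Θ fun q => g q (!j))ᶜ) = 0 := by
      rw [← kE.mL.measure_preimage m1.nullMeasurableSet]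
      refine measure_mono_null_ae ?_ hz
      filter_upwards [kE.sA true _ (le2 _ (tm (g true))), kE.sA false _ (le2 _ (tm (g false)))]
        with x a1 a2 hx
      exact ⟨⟨⟨a1.mp hx.1.1.1, a2.mp hx.1.1.2⟩, hx.1.2⟩, hx.2⟩
    filter_upwards [measure_eq_zero_iff_ae_notMem.1 h0] with x hx hm
    by_contra hn
    exact hx ⟨hm, hn⟩
  by_contra n0
  have hr := fun r => (kE.mw.comp (kE.mA r)).quasiMeasurePreserving.ae (hη' r)
  obtain ⟨E1, Φ, m1, s1, n1, hΦ, hj, t1, t2⟩ := CLF.ext fd kE fu true j (fun q => g q j) (g true)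
    (uη' true) (tupU1 _ _ _ (tup_U E j _ uη)) rfl _ mS n0
    (by filter_upwards [(kE.mB j).quasiMeasurePreserving.ae hη] with x a hx using a hx.1.2)
    (by filter_upwards [hr true] with x a hx using a hx.1.1.1)
  have uW : ∀ i r, Um (E.gx.W i).ms (E.gx.W i).μ (Φ i r) := fun i r =>
    um_mono (hΦ i r) (sup_le (az.facZ _ _ r (ok.kc i).1).le
      (fd.h.kc _ _ (E.gx.L i).nice (fd.lb.fac _ _ (ok.kc i).1)).1.le)
  have o := fun r => one_row fd rc kE gi r j (g r) (uη' r) Φ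
    (fun i => um_pull fd (ok.lift i).emb.mp _ (uW i (some r))) (by rw [hj]; rfl)
  have uc : ∀ r, Um E.L2.W.ms E.L2.W.μ fun x => Φ (some (!j)) r (c.Bc (!j) (E.Lw x)) :=
    fun r => um_comp (kE.mB (!j)) (uW (some (!j)) r)
  have ug : ∀ r, Um E.L2.W.ms E.L2.W.μ fun x => ufn (g r (!j)) (c.π r (c.Bc (!j) (E.Lw x))) :=
    fun r => um_comp ((mpP c r).comp (kE.mB (!j))) (um_ufn _ _)
  have uq := fun r => um_mul_conj (uc (some r)) (ug r)
  have uP : Um c.W.ms c.W.μ (pr (Φ (some (!j))) univ) := um_pr3 (uW (some (!j)))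
  have uP' : Um E.L2.W.ms E.L2.W.μ fun x => pr (Φ (some (!j))) univ (c.Bc (!j) (E.Lw x)) :=
    um_comp (kE.mB (!j)) uP
  have uz : Um c.AZ c.W.μ (Φ (some (!j)) none) :=
    um_mono (hΦ (some (!j)) none) (sup_le le_rfl kE.lez)
  have u0 := um_mul (um_up fun q => g q (!j)) (um_mono uz kE.kz.1.le)
  have e1 : (fun x => pr (Φ (some (!j))) univ (c.Bc (!j) (E.Lw x)) *
      conj ((Φ (some (!j)) (some true) (c.Bc (!j) (E.Lw x)) *
        conj (ufn (g true (!j)) (c.π true (c.Bc (!j) (E.Lw x))))) *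
        (Φ (some (!j)) (some false) (c.Bc (!j) (E.Lw x)) *
        conj (ufn (g false (!j)) (c.π false (c.Bc (!j) (E.Lw x))))))) =ᵐ[E.L2.W.μ]
      fun x => c.up (fun q => g q (!j)) (c.Bc (!j) (E.Lw x)) *
        Φ (some (!j)) none (c.Bc (!j) (E.Lw x)) := by
    filter_upwards [(uc (some true)).2, (uc (some false)).2] with x a1 a2
    rw [pr, prod3]
    simp only [map_mul, Complex.conj_conj, Cx.up]
    have b1 := mc a1
    have b2 := mc a2
    generalize Φ (some (!j)) (some true) (c.Bc (!j) (E.Lw x)) = p at b1 ⊢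
    generalize Φ (some (!j)) (some false) (c.Bc (!j) (E.Lw x)) = p' at b2 ⊢
    generalize Φ (some (!j)) none (c.Bc (!j) (E.Lw x)) = z
    generalize ufn (g true (!j)) (c.π true (c.Bc (!j) (E.Lw x))) = s
    generalize ufn (g false (!j)) (c.π false (c.Bc (!j) (E.Lw x))) = s'
    linear_combination (s * s' * z * (p' * conj p')) * b1 + (s * s' * z) * b2
  have e2 := (kE.mB (!j)).quasiMeasurePreserving.ae
    (tz.le c.B2 c.AZ c.W.μ _ _ kE.lez kE.kz.1.le (um_up fun q => g q (!j)) uz)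
  refine n1 (measure_eq_zero_iff_ae_notMem.2 ?_)
  filter_upwards [t1 (some (!j)), t2 (some true), t2 (some false), o true, o false, hr true,
    hr false, rc.mul E.gx.β E.gx.W2.μ _ _ kE.ble (uq true) (uq false),
    ratio rc E.L2.W.μ kE.ble uP' (um_mul (uq true) (uq false)), th_congr E.gx.β e1,
    kE.ceB (!j) _ (um_bm uP), kE.ceB (!j) _ (um_bm u0), e2]
    with x a1 a2 a3 a4 a5 a6 a7 a8 a9 a10 a11 a12 a13 hx
  have hS := s1 hx
  have b1 := a8 ⟨a4 (a2 hx) (a6 hS.1.1.1), a5 (a3 hx) (a7 hS.1.1.2)⟩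
  have b2 := a10 (a9 ((congrArg norm a11).trans (a1 hx)) b1)
  exact hS.2 (a13 ((congrArg norm a12).symm.trans b2))

end T5x

end
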