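import Pool.Agent.MP_154433_an.t5.Spec
import Pool.Agent.MP_154433_an.t3.GI
import Pool.Agent.MP_154433_an.t3.LfD

/-! Lifts of independent admissible maps are independent over the hull of the internal base. -/

set_option autoImplicit false
set_option linter.unusedVariables false
set_option warn.classDefReducibility false

open MeasureTheory ProbabilityTheory Filter Topology Function Finset ComplexConjugate
open scoped BigOperators
open Fib27 (BM sup pr Oc Orow F23 LInd Mem)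

noncomputable section

namespace T5x

open T3x

theorem colR : ColR := by
  intro fd ν U W1 L2 B1 ι X B L p Bc S k1 kB ad li hI
  have b : Bas := ⟨fd.a, fd.t, fd.d, fd.c⟩
  have fS : Fac L2.W (L2.shp B1) := fd.lb.fac L2 B1 k1.1
  have k2 : ∀ i, KC (L i).W ((L i).B2 (B i)) := fun i =>
    fd.h.kc _ _ (L i).nice (fd.lb.fac (L i) (B i) (kB i).1)
  have kβ : KC L2.W (L2.B2 B1) := fd.h.kc _ _ L2.nice fS
  have colS : ∀ i, pull L2.W.μ (Bc i) ((L i).shp (B i)) ≤ L2.shp B1 := fun i =>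
    fd.la.shp L2 (L i) _ _ (B i) B1 (ad i).emb (li i) (kB i).1 k1.1 (ad i).le
  have colB : ∀ i, pull L2.W.μ (Bc i) ((L i).B2 (B i)) ≤ L2.B2 B1 := fun i =>
    (fd.h.fn L2.W (L i).W (Bc i) _ L2.nice (L i).nice (li i).emb
      (fd.lb.fac (L i) (B i) (kB i).1)).trans (fd.h.mono _ _ _ (colS i))
  have fY : ∀ j, Fac L2.W (pull L2.W.μ (Bc j) (L j).W.ms) :=
    fun j => fd.t.fpull _ _ _ _ (li j).emb (fd.t.top _)
  have fD : ∀ j, Fac L2.W (pull L2.W.μ (Bc j) ((L j).B2 (B j))) :=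
    fun j => fd.t.fpull _ _ _ _ (li j).emb (k2 j).1
  have DY : ∀ j, pull L2.W.μ (Bc j) ((L j).B2 (B j)) ≤ pull L2.W.μ (Bc j) (L j).W.ms :=
    fun j => GI.pull_mono _ _ (k2 j).1.le
  have I2 : CInd (L2.shp B1) (fun j => pull L2.W.μ (Bc j) (L j).W.ms) S L2.W.μ := by
    simp only [fun i => LfDAux.pull_top b fd.la fd.lb L2 (L i) (ad i).emb (li i)]
    exact LfDAux.cind_shp b fd.lb L2 k1.1
      (fun i => fd.t.fpull _ _ (p i) _ (ad i).emb (fd.t.top _)) hI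
  obtain ⟨I3, c3⟩ := fd.c.grow (L2.shp B1) (fun j => pull L2.W.μ (Bc j) (L j).W.ms)
    (fun j => pull L2.W.μ (Bc j) ((L j).B2 (B j))) S L2.W.μ fS.le (fun j => (fY j).le) DY I2
  have c4 : ∀ j ∈ S, CP (pull L2.W.μ (Bc j) (L j).W.ms) (pull L2.W.μ (Bc j) ((L j).B2 (B j)))
      (sup (fun j => pull L2.W.μ (Bc j) ((L j).B2 (B j))) S ⊔ L2.shp B1) L2.W.μ := by
    intro j hj f hf
    have b1 := fd.ld.base L2 (L j) (p j) (Bc j) (B j) B1 (ad j).emb (li j) (kB j).1 k1.1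
      (ad j).le (ad j).cp
    have le : pull L2.W.μ (Bc j) ((L j).shp (B j)) ≤ pull L2.W.μ (Bc j) ((L j).B2 (B j)) :=
      GI.pull_mono _ _ (fd.h.le _ _)
    have d := fd.c.drop _ _ _ (pull L2.W.μ (Bc j) ((L j).B2 (B j))) L2.W.μ (fY j).le fS.le
      (colS j) (le.trans (DY j)) (DY j) b1
    rw [sup_eq_left.2 le] at d
    exact (c3 j hj f hf).trans (d f hf)
  have e : hull L2.W (sup (fun j => pull L2.W.μ (Bc j) ((L j).B2 (B j))) S ⊔ L2.shp B1) =
      L2.B2 B1 :=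
    le_antisymm (fd.h.min _ _ _ (sup_le (Fib27.sup_le' fun j _ => colB j) (fd.h.le _ _)) kβ)
      (fd.h.mono _ _ _ le_sup_right)
  obtain ⟨r1, -, r3⟩ := fd.prod L2.W ι (fun j => pull L2.W.μ (Bc j) (L j).W.ms)
    (fun j => pull L2.W.μ (Bc j) ((L j).B2 (B j))) S _ L2.nice (fd.t.fsp _ _ _ _ S fS fD) fY fD DY
    (fun j hj => le_trans
      (Fib27.le_sup' (fun j => pull L2.W.μ (Bc j) ((L j).B2 (B j))) hj) le_sup_left)
    (fun j => fd.h.rwm _ _ _ _ L2.nice (L j).nice (li j).emb (k2 j)) c4 I3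
  rw [e] at r1 r3
  exact ⟨r1, colB, r3⟩

end T5x

end
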