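import Pool.Agent.MP_154433_an.t5.Spec
import Pool.Agent.MP_154433_an.t3.SatA

/-! Row Ex: the extension of the line that carries a saturated third slot. -/

set_option autoImplicit false
set_option linter.unusedVariables false
set_option warn.classDefReducibility false

open MeasureTheory ProbabilityTheory Filter Topology Function Finset ComplexConjugate
open scoped BigOperators
open Fib27 (BM sup pr Oc Orow F23 LInd Mem)

noncomputable section

namespace T5x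

open T3x T3x.SatAx

namespace XExL

/-- a smaller outer algebra -/
theorem cp_mono {Ω : Type} {Y D C C' : MeasurableSpace Ω} {m0 : MeasurableSpace Ω}
    {μ : Measure Ω} [IsProbabilityMeasure μ] (hC : C ≤ m0) (h1 : D ≤ C') (h2 : C' ≤ C)
    (h : CP Y D C μ) : CP Y D C' μ := by
  intro f hf
  have e1 : μ[μ[f | C] | C'] =ᵐ[μ] μ[f | C'] := condExp_condExp_of_le h2 hC
  have e2 : μ[μ[f | D] | C'] = μ[f | D] :=
    condExp_of_stronglyMeasurable (h2.trans hC) (stronglyMeasurable_condExp.mono h1)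
      integrable_condExp
  exact e1.symm.trans ((condExp_congr_ae (h f hf)).trans (EventuallyEq.of_eq e2))

/-- a chain of two conditional independences -/
theorem cp_chain {Ω : Type} {Y A Z D C : MeasurableSpace Ω} {m0 : MeasurableSpace Ω}
    {μ : Measure Ω} [IsProbabilityMeasure μ] (hZ : Z ≤ m0) (hA : A ≤ m0) (h1 : C ≤ Z)
    (h2 : D ≤ A) (hY : Y ≤ m0) (h : CP Y A Z μ) (h' : CP A D C μ) : CP Y D C μ := by
  intro f hf
  have e1 : μ[μ[f | Z] | C] =ᵐ[μ] μ[f | C] := condExp_condExp_of_le h1 hZ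
  have e2 : μ[μ[f | A] | D] =ᵐ[μ] μ[f | D] := condExp_condExp_of_le h2 hA
  exact e1.symm.trans ((condExp_congr_ae (h f hf)).trans ((h' _ (hf.ce A)).trans e2))

def two (W Z : Sys) : Bool → Sys
  | false => W
  | true => Z

def twoq (W Z : Sys) (r : Z.X → W.X) : ∀ b, (two W Z b).X → W.X
  | false => id
  | true => r

def twof (W Z : Sys) (f : W.X → ℂ) (g : Z.X → ℂ) : ∀ b, (two W Z b).X → ℂ
  | false => f
  | true => g

/-- the relative product of a system and an extension over a factor -/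
theorem prod (fd : Fd) (W Z : Sys) (A : MeasurableSpace W.X) (r : Z.X → W.X) (nW : Nice W)
    (nZ : Nice Z) (hA : Fac W A) (hr : Emb Z W r) :
    ∃ (Y : Sys) (pw : Y.X → W.X) (pz : Y.X → Z.X), Nice Y ∧ Emb Y W pw ∧ Emb Y Z pz ∧
      KEq Y.μ A (r ∘ pz) pw ∧ CP (pull Y.μ pw W.ms) (pull Y.μ pw A) (pull Y.μ pz Z.ms) Y.μ := by
  obtain ⟨Y, e, rp⟩ := fd.rp Bool (two W Z) W A (twoq W Z r) false
    (fun b => by cases b; exacts [nW, nZ]) hA
    (fun b => by cases b; exacts [MeasurePreserving.id _, hr.mp])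
    (fun b => by
      cases b
      · exact fun _ _ => EventuallyEq.rfl
      · exact keq_mono (fd.t.emb_z _ _ _ 1 hr) hA.le)
  obtain ⟨pw, hpw⟩ : ∃ pw : Y.X → W.X, pw = e false := ⟨_, rfl⟩
  obtain ⟨pz, hpz⟩ : ∃ pz : Y.X → Z.X, pz = e true := ⟨_, rfl⟩
  have ew : Emb Y W pw := by rw [hpw]; exact rp.emb false
  have ez : Emb Y Z pz := by rw [hpz]; exact rp.emb true
  have k : KEq Y.μ A (r ∘ pz) pw := by rw [hpw, hpz]; exact rp.com true
  have ind : ∀ (f : W.X → ℂ) (g : Z.X → ℂ), BM W.μ W.ms f → BM Z.μ Z.ms g →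
      Y.μ[fun y => g (pz y) * f (pw y) | pull Y.μ pw A] =ᵐ[Y.μ] fun y =>
        (Y.μ[fun y => g (pz y) | pull Y.μ pw A]) y * (Y.μ[fun y => f (pw y) | pull Y.μ pw A]) y := by
    intro f g f1 g1
    have hb : ∀ b, BM (two W Z b).μ (two W Z b).ms (twof W Z f g b) := fun b => by
      cases b; exacts [f1, g1]
    have i0 := rp.ind univ (twof W Z f g) fun b _ => hb b
    have i1 := rp.ind {false} (twof W Z f g) fun b _ => hb b
    have i2 := rp.ind {true} (twof W Z f g) fun b _ => hb b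
    simp only [Fintype.univ_bool, Finset.prod_singleton,
      Finset.prod_pair (show true ≠ false by decide)] at i0 i1 i2
    subst hpw hpz
    filter_upwards [i0, i1, i2] with x h0 h1 h2
    exact h0.trans (congrArg₂ (· * ·) h2.symm h1.symm)
  refine ⟨Y, pw, pz, rp.nice, ew, ez, k, ?_⟩
  have a1 : pull Y.μ pw A ≤ pull Y.μ pz Z.ms := by
    rw [← fd.a.keq_pull A Y.μ _ _ (comap_le (mpc hr.mp ez.mp) hA.le) (comap_le ew.mp hA.le) k,
      ← fd.a.pull_comp A Y.μ Z.μ pz r ez.mp]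
    exact pull_mono _ _ (fd.a.pull_le A Z.μ W.μ r hr.mp hA.le)
  refine (fd.c.cp_iff _ _ _ Y.μ (fd.a.pull_le W.ms Y.μ W.μ _ ew.mp le_rfl)
    (fd.a.pull_le Z.ms Y.μ Z.μ _ ez.mp le_rfl) a1).2 fun f g hf hg => ?_
  obtain ⟨f', f1, f2⟩ := fact fd.a ew.mp le_rfl hf
  obtain ⟨g', g1, g2⟩ := fact fd.a ez.mp le_rfl hg
  have c0 : (fun x => f x * g x) =ᵐ[Y.μ] fun y => g' (pz y) * f' (pw y) := by
    filter_upwards [f2, g2] with x h1 h2
    rw [h1, h2, mul_comm]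
  filter_upwards [(condExp_congr_ae (m := pull Y.μ pw A) c0).trans (ind f' g' f1 g1),
    condExp_congr_ae (m := pull Y.μ pw A) f2, condExp_congr_ae (m := pull Y.μ pw A) g2]
    with x h0 h1 h2
  rw [h0, h1, h2, mul_comm]

end XExL

open XExL in
theorem exR : ExR := by
  intro fd az sat c
  have nW : Nice c.W := c.L.nice
  have kB : KC c.W c.B2 := fd.h.kc _ _ nW (fd.lb.fac c.L c.B c.kc.1)
  have kA : KC c.W c.AZ := az.kc c.L c.B c.kc.1
  have bA : c.B2 ≤ c.AZ := az.b2 c.L c.B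
  obtain ⟨Z, C, r, LZ, hA, hS⟩ := sat c.ν c.U c.W c.B2 nW kB
  obtain ⟨Y, pw, pz, nY, ew, ez, k, cp⟩ := prod fd c.W Z c.AZ r nW hA.nice kA.1 hA.emb
  have tr : ∀ D : MeasurableSpace c.W.X, D ≤ c.AZ →
      pull Y.μ pw D = pull Y.μ pz (pull Z.μ r D) := fun D hD => by
    rw [fd.a.pull_comp D Y.μ Z.μ pz r ez.mp]
    exact (fd.a.keq_pull D Y.μ _ _ (comap_le (mpc hA.emb.mp ez.mp) (hD.trans kA.1.le))
      (comap_le ew.mp (hD.trans kA.1.le)) (keq_mono k hD)).symm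
  have lr : ∀ D : MeasurableSpace c.W.X, D ≤ c.W.ms → pull Z.μ r D ≤ Z.ms := fun D hD =>
    fd.a.pull_le D Z.μ c.W.μ r hA.emb.mp hD
  have fW := fd.t.fpull _ _ _ _ ew (fd.t.top c.W)
  have fA := fd.t.fpull _ _ _ _ ew kA.1
  have fZ := fd.t.fpull _ _ _ _ ez (fd.t.top Z)
  have fC := fd.t.fpull _ _ _ _ ez hA.kc.1
  have aZ : pull Y.μ pw c.AZ ≤ pull Y.μ pz Z.ms := by
    rw [tr _ le_rfl]
    exact pull_mono _ _ (lr _ kA.1.le)
  have bC : pull Y.μ pw c.B2 ≤ pull Y.μ pz C := by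
    rw [tr _ bA]
    exact pull_mono _ _ hA.le
  have cZ : pull Y.μ pz C ≤ pull Y.μ pz Z.ms := pull_mono _ _ hA.kc.1.le
  have c1 : CP (pull Y.μ pw c.AZ) (pull Y.μ pw c.B2) (pull Y.μ pz C) Y.μ := by
    rw [tr _ le_rfl, tr _ bA]
    exact cp_pull fd.a ez.mp (lr _ kA.1.le) (lr _ kB.1.le) hA.kc.1.le
      fun f hf => hA.cp f (hf.mono (pull_mono _ _ kA.1.le))
  have c2 : CP (pull Y.μ pw c.W.ms) (pull Y.μ pw c.B2) (pull Y.μ pz C) Y.μ :=
    cp_chain fZ.le fA.le cZ (pull_mono _ _ bA) fW.le cp c1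
  have c3 : CP (pull Y.μ pw c.W.ms) (pull Y.μ pw c.AZ) (hull Y (pull Y.μ pz Z.ms)) Y.μ :=
    fd.h.disj Y _ _ _ nY fW fA fZ (pull_mono _ _ kA.1.le) aZ (fd.h.rwm Y c.W pw c.AZ nY nW ew kA) cp
  obtain ⟨L2⟩ := fd.line c.ν c.U Y nY
  obtain ⟨Lw, hw⟩ := fd.la.ex L2 c.L2 pw ew
  obtain ⟨Bz, hz⟩ := fd.la.ex L2 LZ pz ez
  exact ⟨⟨Z, C, hA.nice, hA.kc, LZ, hS, Y, hull Y (pull Y.μ pz C), pw, pz,
    fd.h.adm Y c.W pw c.B2 _ nY nW ew kB fC bC c2,
    fd.h.adm Y Z pz C _ nY hA.nice ez hA.kc fC le_rfl fun f _ => EventuallyEq.rfl, aZ,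
    cp_mono (fd.h.kc Y _ nY fZ).1.le (aZ.trans le_sup_left)
      (sup_le (fd.h.le Y _) (fd.h.mono Y _ _ cZ)) c3, L2, Lw, hw, Bz, hz⟩⟩

end T5x

end
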