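import Pool.Agent.MP_154433_an.t5.Spec
import Pool.Agent.MP_154433_an.t3.F2

/-! The conditional expectation on the rest of a saturated line keeps the point. -/

set_option autoImplicit false
set_option linter.unusedVariables false
set_option warn.classDefReducibility false

open MeasureTheory ProbabilityTheory Filter Topology Function Finset ComplexConjugate
open scoped BigOperators
open Fib27 (BM sup pr Oc Orow F23 LInd Mem Perp)
open Pool.Agent.MP_154433_an.SG (Uni ufn)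

noncomputable section

namespace T5x

open T3x

namespace XF2L

open T3x.F2 (fact intc desc)

variable (c : Cx)

/-- the other row, the twists and the base -/
def MM (q : Bool) : MeasurableSpace c.W2.X := OB c.L2 c.AZ q

def OO (q : Bool) : MeasurableSpace c.W.X := OB c.L c.B q

variable {c}

theorem embπ (k : Bool) : Emb c.W c.X (c.π k) := c.L.emb _

theorem embA (k : Bool) : Emb c.W2 c.W (c.A k) := c.L2.emb _

theorem embB (k : Bool) : Emb c.W2 c.W (c.Bc k) := (c.lift k).emb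

theorem facP (fd : Fd) (k : Bool) : Fac c.W (c.P k) :=
  fd.t.fpull _ _ _ _ (embπ k) (fd.t.top _)

theorem facS (fd : Fd) : Fac c.W (c.L.shp c.B) := fd.lb.fac c.L c.B c.kc.1

theorem kcZ (az : AzX) : KC c.W c.AZ := az.kc c.L c.B c.kc.1

theorem S_le_OO (az : AzX) (q : Bool) : c.L.shp c.B ≤ OO c q :=
  (az.shp c.L c.B).trans le_sup_right

theorem OO_le (az : AzX) (q : Bool) : OO c q ≤ c.W.ms := (az.facO c.L c.B q c.kc.1).le

theorem MM_le (az : AzX) (q : Bool) : MM c q ≤ c.W2.ms := (az.facO c.L2 c.AZ q (kcZ az).1).le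

theorem row_le_MM (fd : Fd) (az : AzX) (q : Bool) : pull c.W2.μ (c.A q) c.AZ ≤ MM c q :=
  ((fd.lb.slot c.L2 _ _ (kcZ az).1).trans (az.shp c.L2 c.AZ)).trans le_sup_right

theorem col_le_MM (az : AzX) (gi : c.GI) (q i : Bool) :
    pull c.W2.μ (c.Bc i) (OO c q) ≤ MM c q :=
  az.ob c.L2 c.L (c.π i) (c.Bc i) c.B c.AZ (embπ i) (c.lift i) c.kc.1 (kcZ az).1
    (gi.li.admZ i).le q

theorem bmπ (fd : Fd) (k : Bool) {f : c.X.X → ℂ} (hf : BM c.X.μ c.X.ms f) :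
    BM c.W.μ (c.P k) fun w => f (c.π k w) :=
  fd.a.bm_comp c.X.ms c.W.μ c.X.μ (c.π k) f (embπ k).mp hf

/-- saturation in the grid -/
theorem sg (fd : Fd) (az : AzX) (gi : c.GI) (sat : c.Sat) (q j : Bool) {a : c.W.X → ℂ}
    (ha : BM c.W.μ (c.P q) a) {w : c.W2.X → ℂ} (hw : BM c.W2.μ (MM c q) w) :
    ∫ x, a (c.Bc j x) * w x ∂c.W2.μ = ∫ x, (c.W.μ[a | OO c q]) (c.Bc j x) * w x ∂c.W2.μ := by
  obtain ⟨f, hf, haf⟩ := fact fd c.X.μ (embπ q).mp.measurable ha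
  have h1 := sat c.W c.AZ (c.π j) c.L2 (c.Bc j) (gi.li.admZ j) (c.lift j) q f hf
  have hq := (embB (c := c) j).mp.quasiMeasurePreserving
  have ha2 : BM c.W2.μ c.W2.ms fun x => a (c.Bc j x) :=
    (fd.a.bm_comp _ c.W2.μ c.W.μ (c.Bc j) a (embB j).mp (ha.mono (facP fd q).le)).mono
      (fd.t.fpull _ _ _ _ (embB j) (fd.t.top _)).le
  rw [← Fib27.int_ce_mul (MM_le az q) ha2 hw]
  refine integral_congr_ae ?_
  have h2 : c.W2.μ[fun x => a (c.Bc j x) | MM c q] =ᵐ[c.W2.μ]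
      c.W2.μ[fun x => f (c.π q (c.Bc j x)) | MM c q] := condExp_congr_ae (hq.ae haf)
  have h3 : c.W.μ[a | OO c q] =ᵐ[c.W.μ] c.W.μ[fun w => f (c.π q w) | OO c q] :=
    condExp_congr_ae haf
  filter_upwards [h2.trans h1, hq.ae h3] with x h4 h5
  rw [h4, h5]
  rfl

theorem sg' (fd : Fd) (az : AzX) (gi : c.GI) (sat : c.Sat) (q j : Bool)
    {e : c.W.X → ℂ} (he : BM c.W.μ (c.P q ⊔ c.L.shp c.B) e) {w : c.W2.X → ℂ}
    (hw : BM c.W2.μ (MM c q) w) :
    ∫ x, w x * e (c.Bc j x) ∂c.W2.μ = ∫ x, w x * (c.W.μ[e | OO c q]) (c.Bc j x) ∂c.W2.μ := by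
  have hO := OO_le (c := c) az q
  have hP := (facP (c := c) fd q).le
  have hS := (facS (c := c) fd).le
  have hSO : c.L.shp c.B ≤ OO c q := S_le_OO az q
  have hw' := hw.mono (MM_le az q)
  obtain ⟨w0, h0, h1⟩ := desc fd (embB j).mp hw'
  have he' := he.mono (sup_le hP hS)
  have hp : Perp c.W.μ (c.P q ⊔ c.L.shp c.B) fun y => w0 y - (c.W.μ[w0 | OO c q]) y := by
    refine Fib27.perp_sup hP hS (h0.sub ((h0.ce _).mono hO)) fun a b ha hb => ?_
    have ha' := ha.mono hP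
    have hb' := hb.mono hS
    have e1 : ∫ y, w0 y * (c.W.μ[fun y => a y * b y | OO c q]) y ∂c.W.μ
        = ∫ y, w0 y * ((c.W.μ[a | OO c q]) y * b y) ∂c.W.μ :=
      integral_congr_ae ((Fib27.ce_mul' hO ha' (hb.mono hSO)).mono fun y hy =>
        congrArg (w0 y * ·) hy)
    rw [Fib27.int_sub_mul h0 ((h0.ce _).mono hO) (ha'.mul hb'), sub_eq_zero,
      Fib27.int_ce_symm hO h0 (ha'.mul hb'), e1,
      ← h1 _ (ha'.mul hb'), ← h1 _ (((ha'.ce _).mono hO).mul hb')]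
    have hb2 : BM c.W2.μ (MM c q) fun x => b (c.Bc j x) :=
      (fd.a.bm_comp _ c.W2.μ c.W.μ (c.Bc j) b (embB j).mp (hb.mono hSO)).mono
        (col_le_MM az gi q j)
    have := sg fd az gi sat q j ha (hw.mul hb2)
    refine Eq.trans ?_ (this.trans ?_)
    · exact integral_congr_ae (Eventually.of_forall fun w => by ring)
    · exact integral_congr_ae (Eventually.of_forall fun w => by ring)
  have h2 := hp e he
  rw [Fib27.int_sub_mul h0 ((h0.ce _).mono hO) he', sub_eq_zero, Fib27.int_ce_symm hO h0 he'] at h2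
  rw [h1 _ he', h1 _ ((he'.ce _).mono hO), h2]

theorem key (fd : Fd) (az : AzX) (gi : c.GI) (sat : c.Sat) (r2p : c.R2P) (q : Bool)
    {a h : c.W.X → ℂ} (ha : BM c.W.μ (c.P q) a)
    (hh : h = fun w => (c.W.μ[a | OO c q]) w -
      (c.W.μ[c.W.μ[a | OO c q] | c.P q ⊔ c.L.shp c.B]) w) :
    Perp c.W.μ (OO c q) (c.W.μ[c.W.μ[h | OO c q] | c.P q]) := by
  have hO := OO_le (c := c) az q
  have hP := fun k => (facP (c := c) fd k).le
  have hS := (facS (c := c) fd).le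
  have hD : c.P q ⊔ c.L.shp c.B ≤ c.W.ms := sup_le (hP q) hS
  have hKa : BM c.W.μ (OO c q) (c.W.μ[a | OO c q]) := ha.ce _
  have he : BM c.W.μ (c.P q ⊔ c.L.shp c.B) (c.W.μ[c.W.μ[a | OO c q] | c.P q ⊔ c.L.shp c.B]) :=
    hKa.ce _
  have hhb : BM c.W.μ c.W.ms h := hh ▸ (hKa.mono hO).sub (he.mono hD)
  have hh0 : c.W.μ[h | c.P q ⊔ c.L.shp c.B] =ᵐ[c.W.μ] 0 :=
    Perp.ce (hh ▸ Fib27.perp_sub_ce hD (hKa.mono hO)) hD hhb
  have hKh : BM c.W.μ (OO c q) (c.W.μ[h | OO c q]) := hhb.ce _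
  have hb : BM c.W.μ (c.P q) (c.W.μ[c.W.μ[h | OO c q] | c.P q]) := hKh.ce _
  obtain ⟨b0, hb0, hbb⟩ := fact fd c.X.μ (embπ q).mp.measurable hb
  have hZ := (kcZ (c := c) az).1.le
  have hOd : OO c q = c.P (!q) ⊔ c.AZ := rfl
  refine (Fib27.perp_sup (hP (!q)) hZ (hb.mono (hP q)) ?_).mono hOd.le
  intro ρ ψ hρ hψ
  have hk : q ≠ !q := by cases q <;> simp
  generalize (!q) = k at hρ hk
  have hu : BM c.W.μ c.W.ms fun w => ρ w * ψ w := (hρ.mono (hP k)).mul (hψ.mono hZ)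
  obtain ⟨f, hf, hρf⟩ := fact fd c.X.μ (embπ k).mp.measurable hρ
  have hfq := bmπ fd q hf
  have hY : BM c.W.μ (OO c q) (c.W.μ[fun w => f (c.π q w) | OO c q]) := hfq.ce _
  have hAq := (embA (c := c) q).mp
  have cB : ∀ (i : Bool) {v : c.W.X → ℂ}, BM c.W.μ (OO c q) v →
      BM c.W2.μ (MM c q) fun x => v (c.Bc i x) := fun i v hv =>
    (fd.a.bm_comp _ c.W2.μ c.W.μ (c.Bc i) v (embB i).mp hv).mono (col_le_MM az gi q i)
  have cA : BM c.W2.μ (MM c q) fun x => ψ (c.A q x) :=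
    (fd.a.bm_comp _ c.W2.μ c.W.μ (c.A q) ψ hAq hψ).mono (row_le_MM fd az q)
  have hcs := fd.ld.cs' c.L2 c.L (c.π q) (c.Bc q) (zs q) (embπ q) (c.lift q) _ b0
    (hKh.mono hO) hb0 hbb.symm
  have hA : pull c.W2.μ (c.A q) c.W.ms ≤ c.W2.ms := (fd.t.fpull _ _ _ _ (embA q) (fd.t.top _)).le
  have s1 : ∫ w, (c.W.μ[c.W.μ[h | OO c q] | c.P q]) w * (ρ w * ψ w) ∂c.W.μ
      = ∫ x, (c.W.μ[h | OO c q]) (c.Bc q x) * (ρ (c.A q x) * ψ (c.A q x)) ∂c.W2.μ := by
    rw [← intc hAq ((hb.mono (hP q)).mul hu),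
      ← Fib27.int_ce_mul hA ((cB q hKh).mono (MM_le az q))
        (fd.a.bm_comp _ c.W2.μ c.W.μ (c.A q) _ hAq hu)]
    refine integral_congr_ae ?_
    filter_upwards [hcs, hAq.quasiMeasurePreserving.ae hbb] with x h1 h2
    rw [h2]
    exact congrArg₂ _ h1.symm rfl
  have hcol := fd.a.keq_fun c.X.ms c.W2.μ c.X.μ (c.π k ∘ c.A q) (c.π q ∘ c.Bc k) f
    ((embπ k).mp.comp hAq) ((embπ q).mp.comp (embB k).mp) (gi.col q k) hf.1
  have s2 : ∫ x, (c.W.μ[h | OO c q]) (c.Bc q x) * (ρ (c.A q x) * ψ (c.A q x)) ∂c.W2.μ =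
      ∫ x, f (c.π q (c.Bc k x)) * ((c.W.μ[h | OO c q]) (c.Bc q x) * ψ (c.A q x)) ∂c.W2.μ := by
    refine integral_congr_ae ?_
    filter_upwards [hcol, hAq.quasiMeasurePreserving.ae hρf] with x h1 h2
    rw [h2]
    have h3 : f (c.π k (c.A q x)) = f (c.π q (c.Bc k x)) := h1
    rw [h3]
    ring
  have s3 := sg fd az gi sat q k hfq ((cB q hKh).mul cA)
  have hw2 := (cB k hY).mul cA
  have s4 := sg' fd az gi sat q q he hw2
  have s5 := r2p q q k h _ _ hk hhb (hY.mono hO) (hψ.mono hZ) hh0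
  have hKK : c.W.μ[h | OO c q] =ᵐ[c.W.μ] fun w => h w +
      ((c.W.μ[c.W.μ[a | OO c q] | c.P q ⊔ c.L.shp c.B]) w -
        (c.W.μ[c.W.μ[c.W.μ[a | OO c q] | c.P q ⊔ c.L.shp c.B] | OO c q]) w) := by
    subst hh
    filter_upwards [Fib27.ce_sub (hKa.mono hO) (he.mono hD) (OO c q), hKa.ce_self hO] with w h1 h2
    rw [h1, h2]
    ring
  have hM := MM_le (c := c) az q
  have hBq : pull c.W2.μ (c.Bc q) c.W.ms ≤ c.W2.ms := (fd.t.fpull _ _ _ _ (embB q) (fd.t.top _)).le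
  have cq : ∀ {v : c.W.X → ℂ}, BM c.W.μ c.W.ms v → BM c.W2.μ c.W2.ms fun x => v (c.Bc q x) :=
    fun hv => (fd.a.bm_comp _ c.W2.μ c.W.μ (c.Bc q) _ (embB q).mp hv).mono hBq
  have i1 := ((hw2.mono hM).mul (cq hhb)).integrable
  have i2 := ((hw2.mono hM).mul (cq (he.mono hD))).integrable
  have i3 := ((hw2.mono hM).mul (cq ((he.ce (OO c q)).mono hO))).integrable
  rw [s1, s2, s3]
  have s6 := integral_add i1 (i2.sub i3)
  have s7 := integral_sub i2 i3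
  rw [s4, sub_self] at s7
  have s8 : ∫ x, (c.W.μ[fun w => f (c.π q w) | OO c q]) (c.Bc k x) * ψ (c.A q x) *
      h (c.Bc q x) ∂c.W2.μ = 0 := by
    rw [← s5]
    exact integral_congr_ae (Eventually.of_forall fun w => by ring)
  simp only [Pi.sub_apply] at s6
  rw [s7, s8, add_zero] at s6
  rw [← s6]
  refine integral_congr_ae ?_
  filter_upwards [(embB q).mp.quasiMeasurePreserving.ae hKK] with x hx
  rw [hx]
  ring

theorem main (fd : Fd) (az : AzX) (gi : c.GI) (sat : c.Sat) (r2p : c.R2P) (q : Bool)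
    {a : c.W.X → ℂ} (ha : BM c.W.μ (c.P q) a) :
    BM c.W.μ (c.P q ⊔ c.B2) (c.W.μ[a | OO c q]) := by
  have hO := OO_le (c := c) az q
  have hP := (facP (c := c) fd q).le
  have hS := (facS (c := c) fd).le
  have hD : c.P q ⊔ c.L.shp c.B ≤ c.W.ms := sup_le hP hS
  have hKa : BM c.W.μ (OO c q) (c.W.μ[a | OO c q]) := ha.ce _
  have he : BM c.W.μ (c.P q ⊔ c.L.shp c.B) (c.W.μ[c.W.μ[a | OO c q] | c.P q ⊔ c.L.shp c.B]) :=
    hKa.ce _
  obtain ⟨h, hh⟩ : ∃ h : c.W.X → ℂ, h = fun w => (c.W.μ[a | OO c q]) w -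
      (c.W.μ[c.W.μ[a | OO c q] | c.P q ⊔ c.L.shp c.B]) w := ⟨_, rfl⟩
  have hhb : BM c.W.μ c.W.ms h := hh ▸ (hKa.mono hO).sub (he.mono hD)
  have hpD : Perp c.W.μ (c.P q ⊔ c.L.shp c.B) h := hh ▸ Fib27.perp_sub_ce hD (hKa.mono hO)
  have hk := key fd az gi sat r2p q ha hh
  have hKh : BM c.W.μ (OO c q) (c.W.μ[h | OO c q]) := hhb.ce _
  have hb : BM c.W.μ (c.P q) (c.W.μ[c.W.μ[h | OO c q] | c.P q]) := hKh.ce _
  have hb0 : ∀ᵐ w ∂c.W.μ, (c.W.μ[c.W.μ[h | OO c q] | c.P q]) w = 0 := by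
    refine Fib27.eq_zero_of_int_conj (hb.mono hP) ?_
    rw [Fib27.int_ce_mul hP (hKh.mono hO) hb.conj]
    have := congrArg (starRingEnd ℂ) (hk _ hKh.conj)
    rw [← integral_conj, map_zero] at this
    rw [← this]
    exact integral_congr_ae (Eventually.of_forall fun w => by simp [mul_comm])
  have hh0 : ∀ᵐ w ∂c.W.μ, h w = 0 := by
    refine Fib27.eq_zero_of_int_conj hhb ?_
    have h1 : ∫ w, h w * conj ((c.W.μ[a | OO c q]) w) ∂c.W.μ = 0 := by
      have e1 : ∫ w, h w * (c.W.μ[fun w => conj (a w) | OO c q]) w ∂c.W.μ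
          = ∫ w, h w * conj ((c.W.μ[a | OO c q]) w) ∂c.W.μ :=
        integral_congr_ae ((Fib27.ce_conj hO (ha.mono hP)).mono fun w hw =>
          congrArg (h w * ·) hw)
      rw [← e1,
        ← Fib27.int_ce_symm hO hhb (ha.mono hP).conj,
        ← Fib27.int_ce_mul hP (hKh.mono hO) ha.conj]
      exact integral_eq_zero_of_ae (hb0.mono fun w hw => by simp [hw])
    have h2 := hpD _ he.conj
    have h3 := integral_sub (hhb.mul (hKa.mono hO).conj).integrable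
      (hhb.mul (he.mono hD).conj).integrable
    rw [h1, h2, sub_self] at h3
    rw [← h3]
    refine integral_congr_ae (Eventually.of_forall fun w => ?_)
    have : conj (h w) = conj ((c.W.μ[a | OO c q]) w) -
        conj ((c.W.μ[c.W.μ[a | OO c q] | c.P q ⊔ c.L.shp c.B]) w) := by
      rw [hh, map_sub]
    simp only [this, mul_sub]
  have hS2 : c.L.shp c.B ≤ c.B2 := fd.h.le _ _
  refine (he.mono (sup_le_sup_left hS2 _)).congr ?_
  filter_upwards [hh0] with w hw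
  rw [hh] at hw
  exact (sub_eq_zero.mp hw).symm

end XF2L

theorem f2R5 : F2R5 := fun fd az c gi sat r2p q a ha => XF2L.main fd az gi sat r2p q ha

end T5x

end
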