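import Pool.Agent.MP_154433_an.t5.Spec
import Pool.Agent.MP_154433_an.t3.F3

/-! Row F3 of the saturated grid: saturation moves the column operator along a row. -/

set_option autoImplicit false
set_option linter.unusedVariables false
set_option warn.classDefReducibility false

open MeasureTheory ProbabilityTheory Filter Topology Function Finset ComplexConjugate
open scoped BigOperators
open Fib27 (BM sup pr Oc Orow F23 LInd Mem)

noncomputable section

namespace T5x

open T3x

namespace XF3L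

variable (g : Gx)

/-- the base together with the column other than `j`, `j'` -/
def CC (j j' : I3) : MeasurableSpace g.W1.X := sup g.P1 ((univ.erase j).erase j') ⊔ g.B1

/-- the rest of the line over the enlarged base -/
def DD (q : Bool) (j j' : I3) : MeasurableSpace g.W2.X := OB g.L2 (hull g.W1 (CC g j j')) q

variable {g}

lemma DD_comm (q : Bool) (j j' : I3) : DD g q j j' = DD g q j' j := by
  rw [DD, DD, CC, CC, Finset.erase_right_comm]

lemma facP (F : Fd) (o : g.OK) (k : I3) : Fac g.W1 (g.P1 k) :=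
  F.t.fpull _ _ _ _ (o.adm k).emb (F.t.top _)

lemma facC (F : Fd) (o : g.OK) (j j' : I3) : Fac g.W1 (CC g j j') :=
  F.t.fsp _ _ _ _ _ (o.adm none).kc.1 (facP F o)

lemma facH (F : Fd) (o : g.OK) (j j' : I3) : Fac g.W1 (hull g.W1 (CC g j j')) :=
  (F.h.kc _ _ (o.adm none).nice (facC F o j j')).1

lemma cp (F : Fd) (o : g.OK) {j j' : I3} (hj : j ≠ j') :
    CP (pull g.W1.μ (g.p j) (g.X j).ms) (pull g.W1.μ (g.p j) (g.B j)) (CC g j j') g.W1.μ := by
  intro f hf
  have hB := (o.adm j).kc.1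
  have hfW : BM g.W1.μ g.W1.ms f := hf.mono (facP F o j).le
  have hne : ∀ i : I3, univ.erase i ≠ univ := fun i e => by
    have := e.symm ▸ mem_univ i
    simp at this
  have hsub : ({j} : Finset I3) ⊆ univ.erase j' := by simpa using hj
  have e2 := (o.adm j).cp f hf
  have hb : BM g.W1.μ g.B1 (g.W1.μ[f | pull g.W1.μ (g.p j) (g.B j)]) :=
    (hf.ce _).mono (o.adm j).le
  refine Fib27.ce_eq_of_tests (facC F o j j').le hfW (hb.mono le_sup_right) fun u hu => ?_
  have hgW : BM g.W1.μ g.W1.ms u := hu.mono (facC F o j j').le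
  have e3 := F.c.grp g.B1 g.P1 (univ.erase j') {j} ((univ.erase j).erase j') g.W1.μ hB.le
    (fun i => (facP F o i).le) (o.ind _ (hne j')) hsub
    (fun i hi => by simp only [mem_erase] at hi ⊢; exact ⟨hi.1, mem_univ _⟩)
    (by simp) f u (hf.mono (by
      rw [Fib27.sup_singleton']
      exact le_sup_left)) hu
  rw [← integral_condExp hB.le, integral_congr_ae e3, ← Fib27.int_mul_ce hB.le hb hgW]
  refine integral_congr_ae ?_
  filter_upwards [e2] with w h1
  rw [h1]

lemma adm (F : Fd) (o : g.OK) {j j' : I3} (hj : j ≠ j') :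
    Adm g.W1 (hull g.W1 (CC g j j')) (g.X j) (g.B j) (g.p j) :=
  F.h.adm _ _ _ _ _ (o.adm j).nice (o.nice j) (o.adm j).emb (o.kc j) (facC F o j j')
    ((o.adm j).le.trans le_sup_right) (cp F o hj)

lemma B1_le (F : Fd) (j j' : I3) : g.B1 ≤ hull g.W1 (CC g j j') :=
  le_sup_right.trans (F.h.le _ (CC g j j'))

lemma OcD (F : Fd) (az : AzX) (o : g.OK) (i : g.GI) (q : Bool) (k j j' : I3) :
    Oc g.G (some q) k ⊔ g.β ≤ DD g q j j' := by
  have hz : AZ g.L2 g.B1 ≤ DD g q j j' :=
    (az.mono g.L2 _ _ (B1_le F j j')).trans le_sup_right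
  refine sup_le (Fib27.sup_le' fun r hr => ?_) ((az.b2 g.L2 g.B1).trans hz)
  rcases r with _ | r
  · exact (i.gz k).trans hz
  · have e : r = !q := by
      have := ne_of_mem_erase hr
      cases r <;> cases q <;> simp_all
    rw [i.grow, e]
    exact (F3.pull_mono _ _ (facP F o k).le).trans le_sup_left

lemma GD (F : Fd) (az : AzX) (o : g.OK) (i : g.GI) (q : Bool) (j j' : I3) :
    sup (g.G (some q)) ((univ.erase j).erase j') ≤ DD g q j j' := by
  refine Fib27.sup_le' fun k hk => ?_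
  rw [i.grow]
  refine le_trans ?_ le_sup_right
  refine (F3.pull_mono _ _ ?_).trans
    ((F.lb.slot g.L2 _ _ (facH F o j j')).trans (az.shp g.L2 _))
  exact ((Fib27.le_sup' g.P1 hk).trans le_sup_left).trans (F.h.le _ (CC g j j'))

lemma DD_le (F : Fd) (az : AzX) (o : g.OK) (q : Bool) (j j' : I3) : DD g q j j' ≤ g.W2.ms :=
  (az.facO g.L2 _ q (facH F o j j')).le

lemma G_le (F : Fd) (az : AzX) (o : g.OK) (k j : I3) : g.G k j ≤ g.W2.ms :=
  F.a.pull_le _ _ _ _ (o.lift j).emb.mp (az.facZ (g.L j) _ k (o.kc j).1).le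

lemma pull_sup_le (F : Fd) (j : I3) (S : Finset I3) :
    pull g.W2.μ (g.Bc j) (sup (g.Pc j) S ⊔ g.B2 j) ≤
      sup (fun k => g.G k j) S ⊔ pull g.W2.μ (g.Bc j) (g.B2 j) := by
  induction S using Finset.induction_on with
  | empty => simp only [Fib27.sup_empty', bot_sup_eq, le_refl]
  | insert a S ha ih =>
    rw [Fib27.sup_insert', Fib27.sup_insert', sup_assoc, F.a.pull_sup, sup_assoc]
    exact sup_le_sup_left ih _

lemma pull_OB (F : Fd) (az : AzX) (i : g.GI) (q : Bool) (j : I3) :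
    pull g.W2.μ (g.Bc j) (OB (g.L j) (g.B j) q) ≤ Oc g.G (some q) j ⊔ g.β := by
  rw [← az.obe]
  exact (pull_sup_le F j (univ.erase (some q))).trans (sup_le_sup_left (i.colB j) _)

lemma sg0 (F : Fd) (az : AzX) (o : g.OK) (i : g.GI) (q : Bool) {j j' : I3} (hj : j ≠ j') :
    CP (g.G (some q) j) (Oc g.G (some q) j ⊔ g.β) (DD g q j j') g.W2.μ := by
  intro a ha
  have hπ : Emb (g.W j) (g.X j) (g.π j q) := (g.L j).emb _
  have e : g.G (some q) j = pull g.W2.μ (g.π j q ∘ g.Bc j) (g.X j).ms :=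
    F.a.pull_comp _ _ _ _ _ (o.lift j).emb.mp
  obtain ⟨f0, b0, e1⟩ := F3.fact F (hπ.mp.comp (o.lift j).emb.mp) (e ▸ ha)
  have hO := DD_le F az o q j j'
  have e2 := (condExp_congr_ae e1).trans
    (o.sat j g.W1 _ (g.p j) g.L2 (g.Bc j) (adm F o hj) (o.lift j) q f0 b0)
  have b1 : BM (g.W j).μ (g.W j).ms fun v => f0 (g.π j q v) :=
    (F.a.bm_comp _ _ _ _ _ hπ.mp b0).mono (F.a.pull_le _ _ _ _ hπ.mp le_rfl)
  have b2 : BM g.W2.μ (Oc g.G (some q) j ⊔ g.β) (g.W2.μ[a | DD g q j j']) :=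
    ((F.a.bm_comp _ _ _ _ _ (o.lift j).emb.mp (b1.ce _)).mono (pull_OB F az i q j)).congr e2.symm
  have h2 := OcD F az o i q j j j'
  exact ((condExp_condExp_of_le h2 hO).symm.trans (b2.ce_self (h2.trans hO))).symm

lemma half (F : Fd) (az : AzX) (o : g.OK) (i : g.GI) (q : Bool) (a : I3 → g.W2.X → ℂ)
    (ψ : g.W2.X → ℂ) (ha : ∀ k, BM g.W2.μ (g.G (some q) k) (a k)) (hψ : BM g.W2.μ g.β ψ)
    {j j' : I3} (hj : j ≠ j') :
    ∫ x, ψ x * ((g.W2.μ[a j | Oc g.G (some q) j ⊔ g.β]) x * pr a (univ.erase j) x) ∂g.W2.μ =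
      ∫ x, ψ x * ((g.W2.μ[a j | Oc g.G (some q) j ⊔ g.β]) x *
        (g.W2.μ[a j' | Oc g.G (some q) j' ⊔ g.β]) x *
        pr a ((univ.erase j).erase j') x) ∂g.W2.μ := by
  have b1 : BM g.W2.μ (DD g q j' j) fun x => ψ x * ((g.W2.μ[a j | Oc g.G (some q) j ⊔ g.β]) x *
      pr a ((univ.erase j).erase j') x) := by
    refine (hψ.mono (le_sup_right.trans (OcD F az o i q j j' j))).mul
      ((((ha j).ce _).mono (OcD F az o i q j j' j)).mul ?_)
    rw [DD_comm]
    exact (BM.pr_sup fun k _ => ha k).mono (GD F az o i q j j')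
  have e1 := Fib27.int_ce_mul (DD_le F az o q j' j) ((ha j').mono (G_le F az o _ j')) b1
  have e2 := sg0 F az o i q hj.symm (a j') (ha j')
  have hm : j' ∈ univ.erase j := by simpa using hj.symm
  calc _ = ∫ x, a j' x * (ψ x * ((g.W2.μ[a j | Oc g.G (some q) j ⊔ g.β]) x *
        pr a ((univ.erase j).erase j') x)) ∂g.W2.μ := by
        refine integral_congr_ae (Eventually.of_forall fun x => ?_)
        simp only [Fib27.pr_erase a hm]
        ring
    _ = _ := by
        rw [← e1]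
        refine integral_congr_ae ?_
        filter_upwards [e2] with x hx
        rw [hx]
        ring

end XF3L

open XF3L in
theorem f3R5 : F3R5 := by
  intro F az g o i q a ψ ha hψ j j'
  rcases eq_or_ne j j' with rfl | hj
  · rfl
  rw [half F az o i q a ψ ha hψ hj, half F az o i q a ψ ha hψ hj.symm, Finset.erase_right_comm]
  refine integral_congr_ae (Eventually.of_forall fun x => ?_)
  beta_reduce
  ring

end T5x

end
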