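import Pool.Agent.MP_154433_an.t5.Spec
import Pool.Agent.MP_154433_an.t3.HG

/-! Failure of the core property gives a nonzero dual function of mean zero (row F4). -/

set_option autoImplicit false
set_option linter.unusedVariables false
set_option warn.classDefReducibility false

open MeasureTheory ProbabilityTheory Filter Topology Function Finset ComplexConjugate
open scoped BigOperators
open Fib27 (BM sup pr Oc Orow F23 LInd Mem)

noncomputable section

namespace T5x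

open T3x T3x.HGr

namespace XF4L

theorem perp {Ω : Type} (β : MeasurableSpace Ω) (G : I3 → I3 → MeasurableSpace Ω)
    {m0 : MeasurableSpace Ω} (μ : Measure Ω) [IsProbabilityMeasure μ] (h : HGz β G none μ)
    (X : HX3 β G μ) (q : Bool) (j i : I3) (hi : i ≠ j) (b : Ω → ℂ) (b1 : BM μ (G (some q) j) b)
    (z1 : μ[b | β] =ᵐ[μ] 0) (hn : ∀ u, DV β G (some q) j μ u → μ[u | β] =ᵐ[μ] 0 → u =ᵐ[μ] 0) :
    Fib27.Perp μ (sup (fun i => G (some q) i ⊔ β) (univ.erase j))
      (μ[b | Oc G (some q) j ⊔ β]) := by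
  have hβ := h.ble
  have hG : ∀ i, G (some q) i ⊔ β ≤ m0 := fun i => sup_le (h.le _ i) hβ
  have b2 := b1.mono (le_sup_left (b := β))
  have hOc : Oc G (some q) j ⊔ β ≤ m0 := (X.f23 q).le j
  refine Fib27.perp_pr hG ((b1.ce _).mono hOc) fun ρ hρ => ?_
  have ha := Fib27.bm_update hρ b2
  have t := (X.f23 q).f3 _ ha j i
  rw [update_self, Fib27.pr_update ρ (notMem_erase j univ)] at t
  rw [t]
  generalize hA : update ρ j b = a at ha ⊢
  have aj : a j = b := by rw [← hA, update_self]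
  have ha' := Fib27.bm_update ha ((X.f23 q).f2 i (a i) (ha i))
  generalize hA' : update a i (μ[a i | Oc G (some q) i ⊔ β]) = a' at ha'
  have ai : a' i = μ[a i | Oc G (some q) i ⊔ β] := by rw [← hA', update_self]
  have aj' : a' j = b := by rw [← hA', update_of_ne hi.symm, aj]
  have pi : pr a' (univ.erase i) = pr a (univ.erase i) := by
    rw [← hA', Fib27.pr_update a (notMem_erase i univ)]
  have v : DV β G (some q) j μ (μ[pr a' (univ.erase j) | G (some q) j ⊔ β]) :=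
    ⟨i, a', hi, ha', by rw [ai]; exact (ha i).ce _, EventuallyEq.rfl⟩
  have bp : BM μ m0 (pr a' (univ.erase j)) := Fib27.BM.pr fun k _ => (ha' k).mono (hG k)
  have bu := (bp.ce (G (some q) j ⊔ β)).mono (hG j)
  generalize hu : μ[pr a' (univ.erase j) | G (some q) j ⊔ β] = u at v bu
  have bE : BM μ β (μ[u | β]) := bu.ce β
  have u0 : (fun x => u x - (μ[u | β]) x) =ᵐ[μ] 0 := by
    refine hn _ (X.cen q j u v) ?_
    filter_upwards [Fib27.ce_sub bu (bE.mono hβ) β, Fib27.BM.ce_self hβ bE] with x h1 h2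
    rw [h1, h2, sub_self]
    rfl
  have s1 : ∫ x, (μ[a i | Oc G (some q) i ⊔ β]) x * pr a (univ.erase i) x ∂μ =
      ∫ x, b x * pr a' (univ.erase j) x ∂μ := by
    refine integral_congr_ae (Eventually.of_forall fun x => ?_)
    have p1 := Fib27.pr_erase a' (mem_univ i) x
    have p2 := Fib27.pr_erase a' (mem_univ j) x
    rw [ai, pi] at p1
    rw [aj'] at p2
    exact p1.symm.trans p2
  rw [s1, ← Fib27.int_mul_ce (hG j) b2 bp, hu]
  have s2 : ∫ x, b x * u x ∂μ = ∫ x, b x * (μ[u | β]) x ∂μ := by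
    refine integral_congr_ae ?_
    filter_upwards [u0] with x hx
    rw [sub_eq_zero.1 hx]
  rw [s2, ← Fib27.int_ce_mul hβ (b2.mono (hG j)) bE]
  refine integral_eq_zero_of_ae ?_
  filter_upwards [z1] with x hx
  rw [hx]
  simp

variable (c : Cx)

theorem mA (q : Bool) : MeasurePreserving (c.A q) c.W2.μ c.W.μ := (c.L2.emb (zs q)).mp

theorem mB (j : Bool) : MeasurePreserving (c.Bc j) c.W2.μ c.W.μ := (c.lift j).emb.mp

theorem mπ (k : Bool) : MeasurePreserving (c.π k) c.W.μ c.X.μ := (c.L.emb (zs k)).mp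

theorem P_le (F : Fd) (k : Bool) : c.P k ≤ c.W.ms :=
  F.a.pull_le c.X.ms c.W.μ c.X.μ (c.π k) (mπ c k) le_rfl

theorem vis (F : Fd) (az : AzX) (hf : c.Fail) : ∃ f : c.X.X → ℂ, BM c.X.μ c.X.ms f ∧
    c.X.μ[f | c.B] =ᵐ[c.X.μ] 0 ∧
    ¬ c.W.μ[fun w => f (c.π true w) | OB c.L c.B true] =ᵐ[c.W.μ] 0 := by
  by_contra hn
  push Not at hn
  refine hf fun f f' T hf hf' h0 hT => ?_
  have z2 := hn f hf h0
  have hO := (az.facO c.L c.B true c.kc.1).le
  have hs : c.L.shp c.B ≤ OB c.L c.B true := (az.shp c.L c.B).trans le_sup_right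
  have b1 : BM c.W.μ (OB c.L c.B true) fun w => f' (c.π false w) :=
    (F.a.bm_comp c.X.ms c.W.μ c.X.μ (c.π false) f' (mπ c false) hf').mono le_sup_left
  have b2 : BM c.W.μ (OB c.L c.B true) (c.L.hat T) :=
    (az.bm c.L T hT).mono (le_sup_left.trans ((az.leS c.L c.B).trans le_sup_right))
  have b3 := bmc F (mπ c true) hf
  have z3 : c.W.μ[fun w => f (c.π true w) * (f' (c.π false w) * c.L.hat T w) | OB c.L c.B true]
      =ᵐ[c.W.μ] 0 := by
    filter_upwards [Fib27.ce_mul' hO b3 (b1.mul b2), z2] with w h1 h2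
    rw [h1, h2]
    simp
  simp only [← mul_assoc] at z3
  refine (condExp_condExp_of_le hs hO).symm.trans ((condExp_congr_ae z3).trans ?_)
  rw [condExp_zero]

/-- the row and the column versions of a visible function are correlated -/
theorem corr (F : Fd) (h : c.GI) (j : Bool) (k : c.W.X → ℂ) (hk : BM c.W.μ c.W.ms k)
    (hz : ∫ x, k (c.Bc j x) * conj (k (c.A j x)) ∂c.W2.μ = 0) : c.W.μ[k | c.P j] =ᵐ[c.W.μ] 0 := by
  have hP := P_le c F j
  obtain ⟨g0, g1, g2⟩ := fct F c.X.ms (mπ c j) le_rfl (hk.conj.ce (c.P j))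
  have cs := F.ld.cs c.L2 c.L (c.π j) (c.Bc j) (zs j) (c.L.emb (zs j)) (c.lift j) _ g0 hk.conj
    g1 g2.symm
  have e1 : (fun x => g0 (c.π j (c.A j x))) =ᵐ[c.W2.μ] fun x => g0 (c.π j (c.Bc j x)) :=
    F.a.keq_fun c.X.ms c.W2.μ c.X.μ (c.π j ∘ c.A j) (c.π j ∘ c.Bc j) g0 ((mπ c j).comp (mA c j))
      ((mπ c j).comp (mB c j)) (h.col j j) g1.1
  have e2 := Fib27.int_mul_ce (F.a.pull_le c.W.ms c.W2.μ c.W.μ (c.Bc j) (mB c j) le_rfl)
    (F.a.bm_comp c.W.ms c.W2.μ c.W.μ (c.Bc j) k (mB c j) hk) (bmc F (mA c j) hk.conj)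
  have e3 : ∫ x, k (c.Bc j x) * g0 (c.π j (c.Bc j x)) ∂c.W2.μ = 0 := by
    rw [← hz, ← e2]
    refine integral_congr_ae ?_
    filter_upwards [cs, e1] with x h1 h2
    rw [← h2]
    exact congrArg _ h1.symm
  rw [mint (mB c j) (hk.mul (bmc F (mπ c j) g1))] at e3
  refine Fib27.eq_zero_of_int_conj ((hk.ce (c.P j)).mono hP) ?_
  rw [Fib27.int_ce_mul hP hk (hk.ce (c.P j)).conj, ← e3]
  refine integral_congr_ae ?_
  filter_upwards [g2, Fib27.ce_conj hP hk] with w h1 h2
  rw [← h1, h2]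

end XF4L

open XF4L in
theorem f4R : F4R := by
  intro F az hx c E gi ok gx qc hg hf
  obtain ⟨f, f1, f2, f3⟩ := vis c F az hf
  by_contra hn
  apply f3
  have mw : MeasurePreserving E.pw E.W1.μ c.W.μ := E.adm.emb.mp
  have mL : MeasurePreserving E.Lw E.L2.W.μ c.W2.μ := E.lift.emb.mp
  have mA' : MeasurePreserving (E.L2.π (zs true)) E.L2.W.μ E.W1.μ := (E.L2.emb _).mp
  have mB' : MeasurePreserving (c.Bc true ∘ E.Lw) E.L2.W.μ c.W.μ := (mB c true).comp mL
  have b0 : BM c.W.μ c.W.ms fun w => f (c.π true w) := bmc F (mπ c true) f1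
  have bP : BM c.W.μ (c.P true) fun w => f (c.π true w) :=
    F.a.bm_comp c.X.ms c.W.μ c.X.μ (c.π true) f (mπ c true) f1
  have b1 : BM E.L2.W.μ (E.gx.G (some true) (some true)) fun x => f (c.π true (c.Bc true (E.Lw x))) :=
    F.a.bm_comp (c.P true) E.L2.W.μ c.W.μ (c.Bc true ∘ E.Lw) _ mB' bP
  have z0 : c.W.μ[fun w => f (c.π true w) | c.B2] =ᵐ[c.W.μ] 0 := by
    have l := gi.li.line {true} (fun _ => f) fun _ _ => f1
    simp only [Finset.prod_singleton] at l
    exact l.trans ((mπ c true).quasiMeasurePreserving.ae_eq_comp f2)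
  have z1 : E.L2.W.μ[fun x => f (c.π true (c.Bc true (E.Lw x))) | E.gx.β] =ᵐ[E.L2.W.μ] 0 :=
    (gx.colE (some true) _ b0).trans (mB'.quasiMeasurePreserving.ae_eq_comp z0)
  have pp := perp E.gx.β E.gx.G E.gx.W2.μ hg (hx _ _ E.gx.W2.μ hg) true (some true) none (by simp) _ b1 z1
    fun u hu h0 => by_contra fun hne => hn ⟨true, u, hu, hne, h0⟩
  have hO := (az.facO c.L c.B true c.kc.1).le
  have bk := b0.ce (OB c.L c.B true)
  generalize hk : c.W.μ[fun w => f (c.π true w) | OB c.L c.B true] = k at bk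
  have hle : pull E.L2.W.μ (E.pw ∘ E.L2.π (zs true)) (OB c.L c.B true) ≤
      sup (fun i => E.gx.G (some true) i ⊔ E.gx.β) (univ.erase (some true)) := by
    have l : ∀ i : I3, i ≠ some true → pull E.L2.W.μ (E.L2.π (zs true)) (E.gx.P1 i) ≤
        sup (fun i => E.gx.G (some true) i ⊔ E.gx.β) (univ.erase (some true)) := fun i hi =>
      ((gx.grow true i).ge.trans le_sup_left).trans
        (Fib27.le_sup' (fun i => E.gx.G (some true) i ⊔ E.gx.β) (mem_erase.2 ⟨hi, mem_univ i⟩))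
    rw [← F.a.pull_comp _ E.L2.W.μ E.W1.μ _ E.pw mA', OB, F.a.pull_sup, F.a.pull_sup]
    refine sup_le (le_trans (pull_mono _ _ ?_) (l (some false) (by simp)))
      (le_trans (pull_mono _ _ E.az) (l none (by simp)))
    exact (F.a.pull_comp c.X.ms E.W1.μ c.W.μ E.pw (c.π false) mw).le
  have p0 := pp _ ((F.a.bm_comp _ E.L2.W.μ c.W.μ _ k (mw.comp mA') bk).conj.mono hle)
  have e1 : (fun x => k (c.A true (E.Lw x))) =ᵐ[E.L2.W.μ] fun x => k (E.pw (E.L2.π (zs true) x)) :=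
    F.a.keq_fun c.W.ms E.L2.W.μ c.W.μ (c.A true ∘ E.Lw) (E.pw ∘ E.L2.π (zs true)) k
      ((mA c true).comp mL) (mw.comp mA') (F.la.slot E.L2 c.L2 E.pw E.Lw _ E.adm.emb E.lift)
      (bk.mono hO).1
  have k0 := corr c F gi true k (bk.mono hO) (by
    rw [← p0, ← mint mL ((bmc F (mB c true) (bk.mono hO)).mul (bmc F (mA c true) (bk.mono hO)).conj)]
    refine integral_congr_ae ?_
    filter_upwards [qc true (some true) _ b0, e1] with x h1 h2
    rw [h2]
    refine congrArg₂ _ ?_ rfl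
    rw [← hk]
    exact h1.symm)
  refine Fib27.eq_zero_of_int_conj (bk.mono hO) ?_
  have s3 := Fib27.int_mul_ce hO bk b0.conj
  have s4 := Fib27.int_ce_mul (P_le c F true) (bk.mono hO) bP.conj
  have s5 : ∫ w, (c.W.μ[k | c.P true]) w * conj (f (c.π true w)) ∂c.W.μ = 0 := by
    refine integral_eq_zero_of_ae ?_
    filter_upwards [k0] with x hx
    rw [hx]
    simp
  rw [← s5, s4, ← s3]
  refine integral_congr_ae ?_
  filter_upwards [Fib27.ce_conj hO b0] with w hw
  rw [hw, hk]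

end T5x

end
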