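import Pool.Agent.MP_154433_an.t5.Spec
import Pool.Agent.MP_154433_an.t3.GI

/-! Row XGI: independence in the two by two grid. -/

set_option autoImplicit false

open MeasureTheory ProbabilityTheory Filter Topology Function Finset

noncomputable section

namespace T5x

open T3x

theorem giR5 : GIR5 := by
  intro fd hl hc c
  have k2 : KC c.W c.B2 := fd.h.kc _ _ c.L.nice (fd.lb.fac c.L c.B c.kc.1)
  have l1 : LI c.L c.B := hl c.ν c.U c.hU c.uw c.X c.B c.L c.nice c.kc
  have l2 : LI c.L2 c.B2 := hl c.ν c.U c.hU c.uw c.W c.B2 c.L2 c.L.nice k2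
  obtain ⟨c1, c2, c3⟩ := hc c.L2 c.B2 (fun _ : Bool => c.X) (fun _ => c.B) (fun _ => c.L) c.π c.Bc
    univ k2 (fun _ => c.kc) l1.adm2 c.lift
    (GI.cind_of fd.a c.L c.kc.1.le zs univ (l1.line univ) fun i _ => (l1.adm2 i).cp)
  exact
    { li := l1
      li2 := l2
      col := fun q j A hA =>
        (fd.la.slot c.L2 c.L _ _ (zs q) (c.L.emb _) (c.lift j) A hA).symm
      rows := GI.cind_of fd.a c.L2 k2.1.le zs univ (l2.line univ) fun i _ => (l2.adm2 i).cp
      cols := c1
      rowB := fun q => (l2.adm2 q).le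
      colB := c2
      rowE := fun q g hg => GI.of_cp fd.a (c.L2.emb _).mp k2.1.le (l2.adm2 q).cp g hg
      colE := fun j g hg => GI.of_cp fd.a (c.lift j).emb.mp k2.1.le (c3 j (mem_univ j)) g hg
      pz := fun q => (l1.admZ q).cp }

end T5x

end
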