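import Pool.Agent.MP_154433_an.t5.Spec
import Pool.Agent.MP_154433_an.t3.GI

/-! Independence in the grid with three columns. -/

set_option autoImplicit false
set_option linter.unusedVariables false
set_option warn.classDefReducibility false

open MeasureTheory ProbabilityTheory Filter Topology Function Finset ComplexConjugate
open scoped BigOperators
open Fib27 (BM sup pr Oc Orow F23 LInd Mem)

noncomputable section

namespace T5x

open T3x

namespace XGxIL

theorem one_ne (j : I3) : ({j} : Finset I3) ≠ univ := by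
  intro h
  have h1 := congrArg Finset.card h
  rw [Finset.card_singleton, Finset.card_univ] at h1
  simp at h1

theorem col (fd : Fd) (g : Gx) (o : g.OK) (q : Bool) (j : I3) :
    KEq g.W2.μ (g.X j).ms (g.p j ∘ g.A q) (g.π j q ∘ g.Bc j) := fun A hA =>
  (fd.la.slot g.L2 (g.L j) _ _ (zs q) (o.adm j).emb (o.lift j) A hA).symm

theorem grow (fd : Fd) (g : Gx) (o : g.OK) (q : Bool) (j : I3) :
    g.G (some q) j = pull g.W2.μ (g.A q) (g.P1 j) := by
  have m1 : MeasurePreserving (g.Bc j) g.W2.μ (g.W j).μ := (o.lift j).emb.mp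
  have m2 : MeasurePreserving (g.A q) g.W2.μ g.W1.μ := (g.L2.emb (zs q)).mp
  have m3 : MeasurePreserving (g.π j q) (g.W j).μ (g.X j).μ := ((g.L j).emb (zs q)).mp
  have m4 : MeasurePreserving (g.p j) g.W1.μ (g.X j).μ := (o.adm j).emb.mp
  have e1 := fd.a.pull_comp (g.X j).ms g.W2.μ (g.W j).μ (g.Bc j) (g.π j q) m1
  have e2 := fd.a.pull_comp (g.X j).ms g.W2.μ g.W1.μ (g.A q) (g.p j) m2
  have e3 := fd.a.keq_pull (g.X j).ms g.W2.μ _ _ (m4.comp m2).measurable.comap_le
    (m3.comp m1).measurable.comap_le (col fd g o q j)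
  exact e1.trans (e3.symm.trans e2.symm)

end XGxIL

open XGxIL in
theorem gxiR : GxIR := by
  intro fd az li cs g o
  have a0 := o.adm none
  have l2 : LI g.L2 g.B1 := li g.ν g.U o.hU o.uw g.W1 g.B1 g.L2 a0.nice a0.kc
  have l1 : ∀ j, LI (g.L j) (g.B j) := fun j =>
    li g.ν g.U o.hU o.uw (g.X j) (g.B j) (g.L j) (o.nice j) (o.kc j)
  have c := fun S (hS : S ≠ univ) =>
    cs g.L2 g.B1 g.X g.B g.L g.p g.Bc S a0.kc o.kc o.adm o.lift (o.ind S hS)
  exact
    { li := l1
      li2 := l2
      col := col fd g o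
      grow := grow fd g o
      gz := fun j => az.lift g.L2 (g.L j) _ _ (g.B j) g.B1 (o.adm j).emb (o.lift j) (o.kc j).1
        a0.kc.1 (o.adm j).le
      cols := fun S hS => (c S hS).1
      rowB := fun q => (l2.adm2 q).le
      colB := fun j => (c _ (one_ne j)).2.1 j
      rowE := fun q f hf => GI.of_cp fd.a (g.L2.emb _).mp a0.kc.1.le (l2.adm2 q).cp f hf
      colE := fun j f hf => GI.of_cp fd.a (o.lift j).emb.mp ((l1 j).adm2 true).kc.1.le
        ((c _ (one_ne j)).2.2 j (Finset.mem_singleton_self j)) f hf }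

end T5x

end
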