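import Pool.Agent.MP_154433_an.t5.Spec
import Pool.Agent.MP_154433_an.t3.HG

/-! The saturated grid is a grid with a free row. -/

set_option autoImplicit false
set_option linter.unusedVariables false
set_option warn.classDefReducibility false

open MeasureTheory ProbabilityTheory Filter Topology Function Finset ComplexConjugate
open scoped BigOperators
open Fib27 (BM sup pr Oc Orow F23 LInd Mem)
open Pool.Agent.MP_154433_an.SG (Uni ufn)

noncomputable section

namespace T5x

open T3x

namespace XHGL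

variable (g : Gx)

theorem mB (o : g.OK) (j : I3) : MeasurePreserving (g.Bc j) g.W2.μ (g.W j).μ := (o.lift j).emb.mp

theorem Pc_le (az : AzX) (o : g.OK) (j k : I3) : g.Pc j k ≤ (g.W j).ms :=
  (az.facZ (g.L j) (g.B j) k (o.kc j).1).le

theorem B2_le (i : g.GI) (j : I3) : g.B2 j ≤ (g.W j).ms := ((i.li j).adm2 true).kc.1.le

theorem β_le (i : g.GI) : g.β ≤ g.W2.ms := (i.li2.adm2 true).kc.1.le

theorem row_le (F : Fd) (o : g.OK) (i : g.GI) (k j : I3) : g.G k j ≤ Pz g.L2 g.B1 k := by
  rcases k with _ | q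
  · exact i.gz j
  · rw [i.grow q j]
    exact HGr.pull_mono _ _
      (F.a.pull_le (g.X j).ms g.W1.μ (g.X j).μ (g.p j) (o.adm j).emb.mp le_rfl)

end XHGL

open XHGL in
theorem hg3R : HG3R := by
  intro F az h2 g o i h3
  refine ⟨fun q j f hf => ?_, ?_⟩
  · rw [← az.obe]
    exact HGr.qq F g.β (g.Pc j) (g.B2 j) _ g.W2.μ (g.W j).μ (g.Bc j) (mB g o j) (β_le g i)
      (Pc_le g az o j) (B2_le g i j) (i.colB j) (i.colE j) f hf
  refine ⟨fun k j => F.a.pull_le _ g.W2.μ (g.W j).μ (g.Bc j) (mB g o j) (Pc_le g az o j k),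
    β_le g i, fun S hS f hf => i.li2.cline S hS f fun k hk => (hf k hk).mono
      (Fib27.sup_le' fun j _ => row_le g F o i k j),
    fun S hS f hf => i.cols S hS f fun j hj => (hf j hj).mono
      (Fib27.sup_le' fun k _ => HGr.pull_mono _ _ (Pc_le g az o j k)), ?_, ?_⟩
  · rintro (_ | q) hq j a ha
    · exact absurd rfl hq
    refine HGr.f2g F g.β (g.Pc j) (g.B2 j) _ g.W2.μ (g.W j).μ (g.Bc j) (mB g o j) (β_le g i)
      (Pc_le g az o j) (B2_le g i j) (i.colB j) (i.colE j) (some q) (fun b hb => ?_) a ha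
    have e := h2 g.ν g.U o.hU o.uw (g.X j) (g.B j) (g.L j) (o.nice j) (o.kc j) (o.sat j) q b hb
    rw [← az.obe] at e
    exact e
  · rintro (_ | q) hq
    · exact absurd rfl hq
    exact h3 q

end T5x

end
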