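import Pool.Agent.MP_154433_an.t5.Spec
import Pool.Agent.MP_154433_an.t3.HGX

/-! Row `HX3`: functions with coefficients in the base, centring of dual functions. -/

set_option autoImplicit false
set_option linter.unusedVariables false
set_option warn.classDefReducibility false

open MeasureTheory ProbabilityTheory Filter Topology Function Finset ComplexConjugate
open scoped BigOperators
open Fib27 (BM sup pr Oc Orow F23 LInd Mem)

noncomputable section

namespace T5x

open T3x

namespace XHX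

theorem third (i j : Option Bool) (h : j ≠ i) :
    ∃ k, k ≠ i ∧ k ≠ j ∧ univ.erase i = ({j, k} : Finset (Option Bool)) := by
  revert i j
  decide

theorem pair_ne (i k : Option Bool) : ({i, k} : Finset (Option Bool)) ≠ univ := by
  revert i k
  decide

end XHX

open HGXL XHX in
theorem hx3R : HX3R := by
  intro b Ω β G m0 μ _ H
  have oc : ∀ q j, Oc G q j ⊔ β ≤ m0 := fun q j => sup_le (Fib27.sup_le' fun k _ => H.le _ _) H.ble
  have gb : ∀ q j, G q j ⊔ β ≤ m0 := fun q j => sup_le (H.le q j) H.ble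
  refine ⟨fun q => ⟨oc _, fun j a => ext2 (H.le _ j) (oc _ j) le_sup_right
    (H.f2c _ (Option.some_ne_none q) j), fun a ha j j' => ?_⟩, ?_⟩
  · simpa only [L, one_mul] using ext3 (H.le (some q)) (oc (some q)) (fun _ => le_sup_right) j j'
      (fun a ψ h1 h2 => H.f3 _ (Option.some_ne_none q) a ψ h1 h2 j j') univ a (fun _ => 1) ha
      (fun k hk => absurd (mem_univ k) hk) (BM.const 1)
  rintro q i h ⟨j, a, hj, ha, hoc, e⟩
  obtain ⟨k, hki, hkj, hS⟩ := third i j hj
  have a0 : ∀ l, BM μ m0 (a l) := fun l => (ha l).mono (gb _ l)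
  have cl : ∀ l, sup (fun q => G q l) univ ≤ m0 := fun l => Fib27.sup_le' fun _ _ => H.le _ _
  have up : ∀ l (f : Ω → ℂ), BM μ (G (some q) l ⊔ β) f →
      BM μ (sup (fun l => sup (fun q => G q l) univ) {l} ⊔ β) f := fun l f hf =>
    hf.mono (sup_le_sup_right ((Fib27.le_sup' (fun q' => G q' l) (mem_univ (some q))).trans
      (Fib27.le_sup' (fun l => sup (fun q => G q l) univ) (mem_singleton_self l))) _)
  have ind : ∀ l l', l ≠ l' → ∀ f f', BM μ (G (some q) l ⊔ β) f → BM μ (G (some q) l' ⊔ β) f' →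
      μ[fun x => f x * f' x | β] =ᵐ[μ] fun x => (μ[f | β]) x * (μ[f' | β]) x :=
    fun l l' ne f f' hf hf' => b.c.grp β _ {l, l'} {l} {l'} μ H.ble cl (H.cols _ (pair_ne l l'))
      (by simp) (by simp) (disjoint_singleton.2 ne) f f' (up l f hf) (up l' f' hf')
  have mj : BM μ β (μ[a j | β]) := (a0 j).ce β
  have mk : BM μ β (μ[a k | β]) := (a0 k).ce β
  have ep : ∀ c : Option Bool → Ω → ℂ, pr c (univ.erase i) = fun x => c j x * c k x := fun c => by
    funext x
    rw [hS, pr, prod_pair hkj.symm]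
  refine ⟨j, update a j fun x => a j x - (μ[a j | β]) x, hj, fun l => ?_, ?_, ?_⟩
  · rcases eq_or_ne l j with rfl | ne
    · rw [update_self]; exact (ha l).sub (mj.mono le_sup_right)
    · rw [update_of_ne ne]; exact ha l
  · rw [update_self]; exact hoc.sub (mj.mono le_sup_right)
  rw [ep, update_self, update_of_ne hkj]
  rw [ep] at e
  have e1 : μ[h | β] =ᵐ[μ] fun x => (μ[a j | β]) x * (μ[a k | β]) x :=
    ((condExp_congr_ae e).trans (condExp_condExp_of_le le_sup_right (gb _ i))).trans
      (ind j k hkj.symm _ _ (ha j) (ha k))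
  have e2 : μ[a k | G (some q) i ⊔ β] =ᵐ[μ] μ[a k | β] := by
    refine Fib27.ae_eq_of_tests (gb _ i) ((a0 k).ce _) (mk.mono le_sup_right) fun c hc => ?_
    have c0 := hc.mono (gb _ i)
    rw [Fib27.int_ce_mul (gb _ i) (a0 k) hc, ← integral_condExp H.ble,
      integral_congr_ae (ind k i hki _ _ (ha k) hc), Fib27.int_ce_symm H.ble (a0 k) c0,
      ← Fib27.int_ce_mul H.ble (a0 k) (c0.ce β)]
  have e3 := Fib27.ce_sub ((a0 j).mul (a0 k)) ((mj.mono H.ble).mul (a0 k)) (G (some q) i ⊔ β)
  have e4 := Fib27.ce_mul (gb (some q) i) (mj.mono le_sup_right) (a0 k)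
  have e5 : (fun x => (a j x - (μ[a j | β]) x) * a k x) =
      fun x => a j x * a k x - (μ[a j | β]) x * a k x := funext fun x => sub_mul _ _ _
  rw [e5]
  filter_upwards [e, e1, e2, e3, e4] with x e e1 e2 e3 e4
  rw [e3, e4, e2, e1, e]

end T5x

end
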