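import Pool.Agent.MP_154433_an.t5.Spec
import Pool.Agent.MP_154433_an.t3.GI
import Pool.Agent.MP_154433_an.t3.Ind2

/-! Independence on one line with a twist slot. -/

set_option autoImplicit false
set_option linter.unusedVariables false
set_option warn.classDefReducibility false

open MeasureTheory ProbabilityTheory Filter Topology Function Finset ComplexConjugate
open scoped BigOperators
open Fib27 (BM sup pr Oc Orow F23 LInd Mem)
open Pool.Agent.MP_154433_an.SG (Uni ufn)

noncomputable section

namespace T5x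

open T3x

namespace XLIL

theorem zs_inj : Injective zs := fun a b h => (Prod.ext_iff.1 h).2

theorem swap {Ω : Type} (β : MeasurableSpace Ω) {m0 : MeasurableSpace Ω} (μ : Measure Ω)
    (f g : Ω → ℂ) (h : μ[fun x => g x * f x | β] =ᵐ[μ] fun x => (μ[g | β]) x * (μ[f | β]) x) :
    μ[fun x => f x * g x | β] =ᵐ[μ] fun x => (μ[f | β]) x * (μ[g | β]) x := by
  simpa only [mul_comm] using h

end XLIL

open XLIL in
theorem liR : LIR := by
  intro F az ps ν U hU uw X B L hX hB
  have facS : Fac L.W (L.shp B) := F.lb.fac L B hB.1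
  have kc2 : KC L.W (L.B2 B) := F.h.kc L.W _ L.nice facS
  have kcZ : KC L.W (AZ L B) := az.kc L B hB.1
  have leZ : L.B2 B ≤ AZ L B := az.b2 L B
  have facP : ∀ k, Fac L.W (L.P (zs k)) := fun k => F.t.fpull _ _ _ _ (L.emb _) (F.t.top _)
  have l := fun S : Finset Bool => GI.line F (ind2 F ν U hU uw.erg) (by norm_num) L hX hB zs
    zs_inj (fun _ => one_ne_zero) S (by simpa using card_le_univ S)
  obtain ⟨hI, hc⟩ := l univ
  have hz := fun q => ps ν U hU uw X B L q hX hB
  have sl : ∀ q, pull L.W.μ (L.π (zs q)) B ≤ L.B2 B := fun q =>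
    (F.lb.slot L B _ hB.1).trans (F.h.le _ _)
  have pz := fun q => (F.c.cp_iff (L.P (zs q)) (L.B2 B) (AZ L B) L.W.μ (facP q).le kcZ.1.le leZ).1
    fun f hf => (hz q f hf).trans (hc q (mem_univ q) f hf).symm
  have pp : ∀ f g : L.W.X → ℂ, BM L.W.μ (L.P (zs true)) f → BM L.W.μ (L.P (zs false)) g →
      L.W.μ[fun x => f x * g x | L.B2 B] =ᵐ[L.W.μ]
        fun x => (L.W.μ[f | L.B2 B]) x * (L.W.μ[g | L.B2 B]) x := by
    intro f g hf hg
    have h := hI (fun b => bif b then f else g) fun b _ => by cases b; exacts [hg, hf]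
    have e : pr (fun b => bif b then f else g) univ = fun x => f x * g x :=
      funext fun x => Fintype.prod_bool _
    rw [e] at h
    filter_upwards [h] with x hx
    exact hx.trans (Fintype.prod_bool _)
  have le3 : ∀ o, Pz L B o ≤ L.W.ms := by
    rintro (_ | q)
    exacts [kcZ.1.le, (facP q).le]
  refine ⟨fun S => GI.ind_of F.a L hB.1.le zs S (l S).1 (l S).2,
    az.cl3 _ _ _ kc2.1.le le3 ?_,
    fun q => ⟨L.nice, L.emb _, kc2, sl q, hc q (mem_univ q)⟩,
    fun q => ⟨L.nice, L.emb _, kcZ, (sl q).trans leZ, hz q⟩⟩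
  rintro (_ | _ | _) (_ | _ | _) hij f g hf hg
  · exact absurd rfl hij
  · exact swap _ _ f g (pz false g f hg hf)
  · exact swap _ _ f g (pz true g f hg hf)
  · exact pz false f g hf hg
  · exact absurd rfl hij
  · exact swap _ _ f g (pp g f hg hf)
  · exact pz true f g hf hg
  · exact pp f g hf hg
  · exact absurd rfl hij

end T5x

end
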