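import Pool.Agent.MP_154433_an.t5.Spec

/-! Row XOk: the grid of the extension is admissible. -/

set_option autoImplicit false
set_option linter.unusedVariables false

open MeasureTheory ProbabilityTheory Filter Topology Function Finset ComplexConjugate
open scoped BigOperators
open Fib27 (BM sup pr)

noncomputable section

namespace T5x

open T3x

namespace XOkL

theorem cp_pull (a : BasA) {Ω Ω' : Type} (Y D C : MeasurableSpace Ω') {m0 : MeasurableSpace Ω}
    {m0' : MeasurableSpace Ω'} (μ : Measure Ω) (μ' : Measure Ω') [IsProbabilityMeasure μ]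
    [IsProbabilityMeasure μ'] (p : Ω → Ω') (hp : MeasurePreserving p μ μ') (hY : Y ≤ m0')
    (hD : D ≤ m0') (hC : C ≤ m0') (h : CP Y D C μ') :
    CP (pull μ p Y) (pull μ p D) (pull μ p C) μ := by
  rintro f ⟨hf, K, hK⟩
  obtain ⟨f', m, b, e⟩ := a.fact Y μ p f (max K 0)
    ((MeasurableSpace.comap_mono hY).trans hp.measurable.comap_le) (le_max_right _ _) hf
    (hK.mono fun _ h => h.trans (le_max_left _ _))
  have i : Integrable f' μ' :=
    Integrable.of_bound (m.mono hY le_rfl).aestronglyMeasurable _ (ae_of_all _ b)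
  have k := hp.quasiMeasurePreserving.ae_eq_comp
    (h f' ⟨m.aestronglyMeasurable, _, ae_of_all _ b⟩)
  exact (condExp_congr_ae e).trans <| (a.ce_comp C μ μ' p f' hp hC i).trans <| k.trans <|
    (a.ce_comp D μ μ' p f' hp hD i).symm.trans (condExp_congr_ae e).symm

theorem pull_mono {Ω Ω' : Type} {m0 : MeasurableSpace Ω} (μ : Measure Ω) (p : Ω → Ω')
    {B C : MeasurableSpace Ω'} (h : B ≤ C) : pull μ p B ≤ pull μ p C :=
  sup_le_sup_right (MeasurableSpace.comap_mono h) _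

theorem cp_left {Ω : Type} {Y Y' D C : MeasurableSpace Ω} {m0 : MeasurableSpace Ω} {μ : Measure Ω}
    (h : CP Y D C μ) (hY : Y' ≤ Y) : CP Y' D C μ := fun f hf => h f ⟨hf.1.mono hY, hf.2⟩

variable {c : Cx}

theorem adm (fd : Fd) (E : Ex c) (gi : c.GI) (q : Bool) :
    Adm E.W1 E.B1 c.X c.B (c.π q ∘ E.pw) :=
  fd.h.trans _ _ _ _ _ _ _ _ c.kc.1 E.adm (gi.li.adm2 q)

theorem Ple (fd : Fd) (c : Cx) (q : Bool) : c.P q ≤ c.W.ms :=
  fd.a.pull_le _ _ _ _ (c.L.emb (zs q)).mp le_rfl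

theorem pts (fd : Fd) (a : AzX) (gi : c.GI) (q q' : Bool) (h : q' ≠ q) :
    CP (c.P q) c.B2 (c.P q' ⊔ c.B2) c.W.μ := by
  have hB : c.B2 ≤ c.W.ms := (gi.li.adm2 q).kc.1.le
  refine (fd.c.cp_iff _ _ _ _ (Ple fd c q) (sup_le (Ple fd c q') hB) le_sup_right).2
    fun f g hf hg => ?_
  have s : ∀ k : Bool, c.P k ≤ sup (Pz c.L c.B) {some k} := fun k =>
    le_iSup₂_of_le (f := fun j (_ : j ∈ ({some k} : Finset I3)) => Pz c.L c.B j) (some k)
      (mem_singleton_self _) le_rfl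
  refine fd.c.grp c.B2 (Pz c.L c.B) {some q, some q'} {some q} {some q'} c.W.μ hB
    (fun i => (a.facZ c.L c.B i c.kc.1).le) (gi.li.cline _ fun e => ?_) (by simp) (by simp)
    (by simpa using h.symm) f g ⟨hf.1.mono ((s q).trans le_sup_left), hf.2⟩
    ⟨hg.1.mono (sup_le_sup_right (s q') _), hg.2⟩
  have : (none : I3) ∈ ({some q, some q'} : Finset I3) := e ▸ mem_univ _
  simp at this

theorem cp (fd : Fd) (a : AzX) (E : Ex c) (gi : c.GI) (q : Bool) (j : I3) (h : j ≠ some q) :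
    CP (E.gx.P1 (some q)) E.B1 (E.gx.P1 j ⊔ E.B1) E.W1.μ := by
  have mp := E.adm.emb.mp
  have e : ∀ k, E.gx.P1 (some k) = pull E.W1.μ E.pw (c.P k) := fun k =>
    (fd.a.pull_comp c.X.ms _ _ _ _ mp).symm
  have le : ∀ k, pull E.W1.μ E.pw (c.P k) ≤ pull E.W1.μ E.pw c.W.ms := fun k =>
    pull_mono _ _ (Ple fd c k)
  have hB : c.B2 ≤ c.W.ms := (gi.li.adm2 q).kc.1.le
  intro f hf
  rcases j with _ | q'
  · have h0 := (adm fd E gi q).cp f hf
    rw [e] at hf
    have h1 := cp_left E.cp (le q) f hf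
    have h2 := cp_pull fd.a _ _ _ _ _ _ mp (Ple fd c q)
      (fd.a.pull_le _ _ _ _ (c.L.emb (zs q)).mp c.kc.1.le) (a.kc c.L c.B c.kc.1).1.le (gi.pz q) f hf
    rw [fd.a.pull_comp _ _ _ _ _ mp] at h2
    exact h1.trans (h2.trans h0.symm)
  · rw [e] at hf
    have h0 := cp_left E.adm.cp (le q) f hf
    have h1 := cp_left (fd.c.drop _ _ _ _ _ (fd.a.pull_le _ _ _ _ mp le_rfl) E.adm.kc.1.le E.adm.le
      (pull_mono _ _ hB) (le q') E.adm.cp) (le q) f hf
    have h2 := cp_pull fd.a _ _ _ _ _ _ mp (Ple fd c q) hB (sup_le (Ple fd c q') hB)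
      (pts fd a gi q q' fun e => h (congrArg some e)) f hf
    rw [fd.a.pull_sup] at h2
    rw [e]
    exact h1.trans (h2.trans h0.symm)

end XOkL

open XOkL in
theorem okR : OkR := by
  intro fd a c E gi hs
  have ad : ∀ j, Adm E.gx.W1 E.gx.B1 (E.gx.X j) (E.gx.B j) (E.gx.p j) := by
    rintro (_ | q)
    · exact E.admz
    · exact adm fd E gi q
  have le : ∀ j, E.gx.P1 j ≤ E.W1.ms := fun j => fd.a.pull_le _ _ _ _ (ad j).emb.mp le_rfl
  have hB : E.B1 ≤ E.W1.ms := E.adm.kc.1.le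
  have k : ∀ q j, j ≠ some q → ∀ f f' : E.W1.X → ℂ, BM E.W1.μ (E.gx.P1 (some q)) f →
      BM E.W1.μ (E.gx.P1 j) f' → E.W1.μ[fun x => f x * f' x | E.B1] =ᵐ[E.W1.μ]
        fun x => (E.W1.μ[f | E.B1]) x * (E.W1.μ[f' | E.B1]) x := fun q j h f f' hf hf' =>
    (fd.c.cp_iff _ _ _ E.W1.μ (le _) (sup_le (le j) hB) le_sup_right).1 (cp fd a E gi q j h) f f' hf
      ⟨hf'.1.mono le_sup_left, hf'.2⟩
  refine ⟨c.hU, c.uw, ?_, ?_, ?_, ad, a.cl3 E.B1 E.gx.P1 E.W1.μ hB le ?_, ?_⟩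
  · rintro (_ | q)
    · exact E.niceZ
    · exact c.nice
  · rintro (_ | q)
    · exact E.kcZ
    · exact c.kc
  · rintro (_ | q)
    · exact E.satZ
    · exact hs
  · rintro (_ | q) j h f f' hf hf'
    · rcases j with _ | q
      · exact absurd rfl h
      · simpa only [mul_comm] using k q none h f' f hf' hf
    · exact k q j h.symm f f' hf hf'
  · rintro (_ | q)
    · exact E.liftz
    · exact fd.la.comp E.L2 c.L2 c.L E.pw (c.π q) E.Lw (c.Bc q) E.adm.emb (c.L.emb (zs q)) E.lift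
        (c.lift q)

end T5x

end
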