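import Pool.Agent.MP_154433_an.t5.Spec
import Pool.Agent.MP_154433_an.t3.R2P
import Pool.Agent.MP_154433_an.t3.GI
import Pool.Agent.MP_154433_an.t3.Ind2

/-! Row XR2P: two columns and one row. -/

set_option autoImplicit false
set_option linter.unusedVariables false
set_option warn.classDefReducibility false

noncomputable section

namespace T5x

open T3x

namespace XR2PL

/-- three slots, two of them the point slots -/
def sl : Option Bool → Slot := fun o => o.elim (2, true) zs

/-- a context with three slots and the same lines -/
def ctx (F : Fd) (c : Cx) : Ctx where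
  ν := c.ν
  U := c.U
  hU := c.hU
  erg := c.uw.erg
  ι := Option Bool
  sl := sl
  inj := by decide
  ne := by decide
  three := le_of_eq rfl
  ind := ind2 F c.ν c.U c.hU c.uw.erg
  X := c.X
  B := c.B
  nice := c.nice
  kc := c.kc
  L := c.L
  L2 := c.L2
  Bc
    | none => (F.la.ex c.L2 c.L _ (c.L.emb (sl none))).choose
    | some j => c.Bc j
  lift
    | none => (F.la.ex c.L2 c.L _ (c.L.emb (sl none))).choose_spec
    | some j => c.lift j

end XR2PL

theorem r2pR5 : R2PR5 := fun F c q j k h Y u hjk =>
  r2p F (XR2PL.ctx F c) (gi F _) (some q) (some j) (some k) h Y u fun e => hjk (Option.some.inj e)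

end T5x

end
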