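import Pool.Agent.MP_154433_an.t5.Spec
import Pool.Agent.MP_154433_an.t3.Sat

/-! Saturated extensions at the two point slots. -/

set_option autoImplicit false
set_option linter.unusedVariables false
set_option warn.classDefReducibility false

open MeasureTheory ProbabilityTheory Filter Topology Function Finset ComplexConjugate
open scoped BigOperators
open Fib27 (BM sup pr)

noncomputable section

namespace T5x

open T3x

namespace XSatL

open T3x.Sat (mae mcomp mint bm_comp close dense Ob)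

variable {ν : Wt} {U : Ultrafilter ℕ}

/-- the energy of a function in one slot with respect to the other slots and the base -/
def en {X : Sys} (L : Ln ν U X) (B : MeasurableSpace X.X) (q : Bool)
    (g : X.X → ℂ) : ℝ :=
  ∫ w, ‖(L.W.μ[fun v => g (L.π (zs q) v) | OB L B q]) w‖ ^ 2 ∂L.W.μ

theorem en_congr {X : Sys} (L : Ln ν U X) (B : MeasurableSpace X.X) (q : Bool)
    {g g' : X.X → ℂ} (h : g =ᵐ[X.μ] g') : en L B q g = en L B q g' := by
  have h1 : (fun v => g (L.π (zs q) v)) =ᵐ[L.W.μ] fun v => g' (L.π (zs q) v) :=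
    mae (L.emb (zs q)).mp h
  refine integral_congr_ae ?_
  filter_upwards [condExp_congr_ae (m := OB L B q) h1] with w hw
  rw [hw]

theorem en_le {X : Sys} (L : Ln ν U X) (B : MeasurableSpace X.X) (q : Bool)
    {g : X.X → ℂ} {C : ℝ} (h : ∀ᵐ x ∂X.μ, ‖g x‖ ≤ C) : en L B q g ≤ C ^ 2 := by
  have h1 : ∀ᵐ v ∂L.W.μ, ‖g (L.π (zs q) v)‖ ≤ C :=
    mae (L.emb (zs q)).mp h
  have h2 := ae_bdd_norm_condExp_of_ae_bdd_norm (m := OB L B q) h1
  have h3 : en L B q g ≤ ∫ _w, C ^ 2 ∂L.W.μ := by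
    refine integral_mono_of_nonneg (Eventually.of_forall fun w => by positivity)
      (integrable_const _) ?_
    filter_upwards [h2] with w hw
    exact pow_le_pow_left₀ (norm_nonneg _) hw 2
  simpa using h3

theorem key (F : Fd) (az : AzX) {X' X : Sys} (L' : Ln ν U X') (L : Ln ν U X) (B' : MeasurableSpace X'.X)
    (B : MeasurableSpace X.X) (p : X'.X → X.X) (Lp : L'.W.X → L.W.X) (q : Bool)
    (he : Emb X' X p) (hB : Fac X B) (hB' : Fac X' B') (hle : pull X'.μ p B ≤ B')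
    (hL : IsLift L' L p Lp) (g : X.X → ℂ) (hg : BM X.μ X.ms g) :
    en L B q g ≤ en L' B' q (fun x => g (p x)) ∧
      (en L' B' q (fun x => g (p x)) ≤ en L B q g →
        L'.W.μ[fun w => g (L.π (zs q) (Lp w)) | OB L' B' q] =ᵐ[L'.W.μ]
          L'.W.μ[fun w => g (L.π (zs q) (Lp w)) | pull L'.W.μ Lp (OB L B q)]) := by
  have b1 : BM L.W.μ L.W.ms fun v => g (L.π (zs q) v) := bm_comp F (L.emb (zs q)).mp hg
  have b2 : BM L'.W.μ L'.W.ms fun w => g (L.π (zs q) (Lp w)) := bm_comp F hL.emb.mp b1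
  have e1 := F.a.ce_comp (OB L B q) L'.W.μ L.W.μ Lp (fun v => g (L.π (zs q) v)) hL.emb.mp
    ((az.facO L B q hB).le) b1.integrable
  have e2 : (fun w => g (L.π (zs q) (Lp w))) =ᵐ[L'.W.μ] fun w => g (p (L'.π (zs q) w)) :=
    F.a.keq_fun X.ms L'.W.μ X.μ (L.π (zs q) ∘ Lp) (p ∘ L'.π (zs q)) g
      (mcomp (L.emb (zs q)).mp hL.emb.mp) (mcomp he.mp (L'.emb (zs q)).mp)
      (F.la.slot L' L p Lp (zs q) he hL) hg.1
  have e3 : en L B q g = ∫ w, ‖(L'.W.μ[fun w => g (L.π (zs q) (Lp w)) |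
      pull L'.W.μ Lp (OB L B q)]) w‖ ^ 2 ∂L'.W.μ := by
    unfold en
    rw [← mint hL.emb.mp ((b1.ce (OB L B q)).mono ((az.facO L B q hB).le))]
    refine integral_congr_ae ?_
    filter_upwards [e1] with w hw
    rw [hw]
  have e4 : en L' B' q (fun x => g (p x)) = ∫ w, ‖(L'.W.μ[fun w => g (L.π (zs q) (Lp w)) |
      OB L' B' q]) w‖ ^ 2 ∂L'.W.μ := by
    refine integral_congr_ae ?_
    filter_upwards [condExp_congr_ae (m := OB L' B' q) e2] with w hw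
    rw [hw]
  rw [e3, e4]
  exact F.d.eqn _ _ L'.W.μ (az.ob L' L p Lp B B' he hL hB hB' hle q) ((az.facO L' B' q hB').le) _
    (b2.memLp 2)

theorem en_mono (F : Fd) (az : AzX) {X' X : Sys} (L' : Ln ν U X') (L : Ln ν U X) (B' : MeasurableSpace X'.X)
    (B : MeasurableSpace X.X) (p : X'.X → X.X) (q : Bool)
    (he : Emb X' X p) (hB : Fac X B) (hB' : Fac X' B') (hle : pull X'.μ p B ≤ B')
    (g : X.X → ℂ) (hg : BM X.μ X.ms g) : en L B q g ≤ en L' B' q (fun x => g (p x)) := by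
  obtain ⟨Lp, hL⟩ := F.la.ex L' L p he
  exact (key F az L' L B' B p Lp q he hB hB' hle hL g hg).1

/-- the extension `Z` maximises every energy among the admissible extensions of `X` -/
def Mx (ν : Wt) (U : Ultrafilter ℕ) (Z : Sys) (C : MeasurableSpace Z.X) (X : Sys)
    (B : MeasurableSpace X.X) (r : Z.X → X.X) : Prop :=
  ∀ (LZ : Ln ν U Z) (Y : Sys) (D : MeasurableSpace Y.X) (p : Y.X → X.X) (LY : Ln ν U Y),
    Adm Y D X B p → ∀ (q : Bool) (f : X.X → ℂ), BM X.μ X.ms f →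
    en LY D q (fun y => f (p y)) ≤ en LZ C q fun z => f (r z)

theorem near (F : Fd) (az : AzX) (A : SatA) (X : Sys) (B : MeasurableSpace X.X)
    (hX : Nice X) (hB : KC X B) (q : Bool) (f : X.X → ℂ) (hf : BM X.μ X.ms f) (ε : ℝ) (hε : 0 < ε) :
    ∃ (Y : Sys) (D : MeasurableSpace Y.X) (p : Y.X → X.X) (LY : Ln ν U Y), Adm Y D X B p ∧
      ∀ (Y' : Sys) (D' : MeasurableSpace Y'.X) (p' : Y'.X → X.X) (LY' : Ln ν U Y'),
        Adm Y' D' X B p' →
        en LY' D' q (fun y => f (p' y)) ≤ en LY D q (fun y => f (p y)) + ε := by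
  let S : Set ℝ := {e | ∃ (Y : Sys) (D : MeasurableSpace Y.X) (p : Y.X → X.X) (LY : Ln ν U Y),
    Adm Y D X B p ∧ e = en LY D q fun y => f (p y)}
  have hne : S.Nonempty := by
    obtain ⟨Z, C, r, e, h, -⟩ := A.amal X B Empty (fun k => k.elim) (fun k => k.elim)
      (fun k => k.elim) hX hB (fun k => k.elim)
    obtain ⟨LZ⟩ := F.line ν U Z h.nice
    exact ⟨_, Z, C, r, LZ, h, rfl⟩
  obtain ⟨_, C, hC⟩ := hf
  have hbd : BddAbove S := by
    refine ⟨C ^ 2, ?_⟩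
    rintro _ ⟨Y, D, p, LY, h, rfl⟩
    exact en_le LY D q (mae h.emb.mp hC)
  obtain ⟨_, ⟨Y, D, p, LY, h, rfl⟩, hlt⟩ :=
    exists_lt_of_lt_csSup hne (show sSup S - ε < sSup S by linarith)
  refine ⟨Y, D, p, LY, h, fun Y' D' p' LY' h' => ?_⟩
  have := le_csSup hbd (show _ ∈ S from ⟨Y', D', p', LY', h', rfl⟩)
  linarith

theorem step (F : Fd) (az : AzX) (A : SatA) (ν : Wt) (U : Ultrafilter ℕ) (X : Sys)
    (B : MeasurableSpace X.X) (hX : Nice X) (hB : KC X B) :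
    ∃ (Z : Sys) (C : MeasurableSpace Z.X) (r : Z.X → X.X), Adm Z C X B r ∧ Mx ν U Z C X B r := by
  have h := fun k : Bool × {f : X.X → ℂ // BM X.μ X.ms f} × {ε : ℝ // 0 < ε} =>
    near (ν := ν) (U := U) F az A X B hX hB k.1 k.2.1.1 k.2.1.2 k.2.2.1 k.2.2.2
  choose Y D p LY h1 h2 using h
  obtain ⟨Z, C, r, e, hZ, he⟩ := A.amal X B _ Y D p hX hB h1
  refine ⟨Z, C, r, hZ, fun LZ Y' D' p' LY' h' q f hf => ?_⟩
  refine le_of_forall_pos_le_add fun ε hε => ?_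
  let k : Bool × {f : X.X → ℂ // BM X.μ X.ms f} × {ε : ℝ // 0 < ε} := (q, ⟨f, hf⟩, ⟨ε, hε⟩)
  have a1 := h2 k Y' D' p' LY' h'
  have a2 := en_mono F az LZ (LY k) C (D k) (e k) q (he k).1 (h1 k).kc.1 hZ.kc.1 (he k).2.1
    (fun y => f (p k y)) (bm_comp F (h1 k).emb.mp hf)
  have a3 : (fun z => f (p k (e k z))) =ᵐ[Z.μ] fun z => f (r z) :=
    F.a.keq_fun X.ms Z.μ X.μ (p k ∘ e k) r f (mcomp (h1 k).emb.mp (he k).1.mp) hZ.emb.mp
      (he k).2.2 hf.1
  have a4 := en_congr LZ C q a3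
  simp only [k] at a1 a2 a4
  linarith

theorem fin (F : Fd) (az : AzX) (X : ℕ → Sys) (B : ∀ k, MeasurableSpace (X k).X)
    (p : ∀ k, (X (k + 1)).X → (X k).X) (hn : ∀ k, Nice (X k)) (hB : ∀ k, KC (X k) (B k))
    (hp : ∀ k, Adm (X (k + 1)) (B (k + 1)) (X k) (B k) (p k))
    (hm : ∀ k, Mx ν U (X (k + 1)) (B (k + 1)) (X k) (B k) (p k)) (Z : Sys)
    (C : MeasurableSpace Z.X) (e : ∀ k, Z.X → (X k).X) (he : ∀ k, Adm Z C (X k) (B k) (e k))
    (hk : ∀ k, KEq Z.μ (X k).ms (p k ∘ e (k + 1)) (e k))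
    (hg : Z.ms ≤ ⨆ k, pull Z.μ (e k) (X k).ms) (LZ : Ln ν U Z) : SAT LZ C := by
  intro Y D r LY Lr hr hL q f hf
  have hC : Fac Z C := (he 0).kc.1
  have mp := mcomp (LZ.emb (zs q)).mp hL.emb.mp
  have b1 : BM LZ.W.μ LZ.W.ms fun v => f (LZ.π (zs q) v) := bm_comp F (LZ.emb (zs q)).mp hf
  refine EventuallyEq.trans ?_ (F.a.ce_comp (OB LZ C q) LY.W.μ LZ.W.μ Lr
    (fun v => f (LZ.π (zs q) v)) hL.emb.mp ((az.facO LZ C q hC).le) b1.integrable)
  refine close F _ _ LY.W.μ (az.ob LY LZ r Lr C D hr.emb hL hC hr.kc.1 hr.le q)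
    ((az.facO LY D q hr.kc.1).le) _ (bm_comp F mp hf) fun ε hε => ?_
  obtain ⟨k, g, hg1, hg2⟩ := dense F X p Z e (fun k => (hp k).emb) (fun k => (he k).emb) hk hg f hf
    ε hε
  have b2 : BM Z.μ Z.ms fun z => g (e k z) := bm_comp F (he k).emb.mp hg1
  refine ⟨fun w => g (e k (LZ.π (zs q) (Lr w))), bm_comp F mp b2, ?_, le_trans (le_of_eq ?_) hg2⟩
  · refine (key F az LY LZ D C r Lr q hr.emb hC hr.kc.1 hr.le hL _ b2).2 ?_
    obtain ⟨L1⟩ := F.line ν U (X (k + 1)) (hn (k + 1))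
    have a1 := hm k L1 Y D (e k ∘ r) LY (F.h.trans Y Z (X k) D C (B k) r (e k) (hB k).1 hr (he k))
      q g hg1
    have a2 := en_mono F az LZ L1 C (B (k + 1)) (e (k + 1)) q (he (k + 1)).emb (hB (k + 1)).1 hC
      (he (k + 1)).le (fun y => g (p k y)) (bm_comp F (hp k).emb.mp hg1)
    have a3 : (fun z => g (p k (e (k + 1) z))) =ᵐ[Z.μ] fun z => g (e k z) :=
      F.a.keq_fun (X k).ms Z.μ (X k).μ (p k ∘ e (k + 1)) (e k) g
        (mcomp (hp k).emb.mp (he (k + 1)).emb.mp) (he k).emb.mp (hk k) hg1.1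
    exact (a1.trans a2).trans (le_of_eq (en_congr LZ C q a3))
  · exact mint mp (hf.sub b2)

end XSatL

theorem satR5 : SatR5 := by
  intro F A az ν U X B hX hB
  have h := fun o : T3x.Sat.Ob => XSatL.step F az A ν U o.X o.B o.nice o.kc
  choose Z C r h1 h2 using h
  let s : ℕ → T3x.Sat.Ob := fun k =>
    Nat.rec ⟨X, B, hX, hB⟩ (fun _ o => ⟨Z o, C o, (h1 o).nice, (h1 o).kc⟩) k
  obtain ⟨Y, D, e, he, hk, hg⟩ := A.lim (fun k => (s k).X) (fun k => (s k).B) (fun k => r (s k))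
    hX hB fun k => h1 (s k)
  obtain ⟨LY⟩ := F.line ν U Y (he 0).nice
  exact ⟨Y, D, e 0, LY, he 0, XSatL.fin F az (fun k => (s k).X) (fun k => (s k).B)
    (fun k => r (s k)) (fun k => (s k).nice) (fun k => (s k).kc) (fun k => h1 (s k))
    (fun k => h2 (s k)) Y D e he hk hg LY⟩

end T5x

end
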