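import Pool.Agent.MP_154433_an.t5.Spec
import Pool.Agent.MP_154433_an.t3.GSpU

/-! Row `T5`: a failing line carries a nontrivial pair that is determined by the third slot. -/

set_option autoImplicit false
set_option linter.unusedVariables false
set_option warn.classDefReducibility false

open MeasureTheory ProbabilityTheory Filter Topology Function Finset ComplexConjugate
open scoped BigOperators
open Fib27 (BM sup pr Oc Orow F23 LInd Mem)
open Pool.Agent.MP_154433_an.SG (Uni ufn)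

noncomputable section

namespace T5x

open T3x

namespace XT5L

open T3x.GSpURow (um_comp um_bm um_mono um_ufn meas_pull)

theorem mpP (c : Cx) (k : Bool) : MeasurePreserving (c.π k) c.W.μ c.X.μ := (c.L.emb _).mp

theorem um_pt (c : Cx) (u : Bool → Uni c.X.X) (q : Bool) :
    Um c.W.ms c.W.μ fun w => ufn (u q) (c.π q w) := um_comp (mpP c q) (um_ufn _ (u q))

theorem um_up (c : Cx) (u : Bool → Uni c.X.X) : Um c.W.ms c.W.μ (c.up u) := by
  refine ⟨((um_bm (um_pt c u true)).mul (um_bm (um_pt c u false))).1, ?_⟩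
  filter_upwards [(um_pt c u true).2, (um_pt c u false).2] with x h1 h2
  show ‖ufn (u true) (c.π true x) * ufn (u false) (c.π false x)‖ = 1
  rw [norm_mul, h1, h2, mul_one]

/-- a tuple on the line gives a pair that is determined by the third slot -/
theorem th_le (az : AzX) (tz : ThC) (c : Cx) (u : Bool → Uni c.X.X) (φ : I3 → c.W.X → ℂ)
    (hu : ∀ q, φ (some q) = fun w => ufn (u q) (c.π q w)) (h0 : Um (c.AZ ⊔ c.B2) c.W.μ (φ none)) :
    Th c.B2 c.W.μ (pr φ univ) ≤ᵐ[c.W.μ] c.Θ u := by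
  have hB : c.B2 ≤ c.AZ := az.b2 c.L c.B
  have hA : c.AZ ≤ c.W.ms := (az.kc c.L c.B c.kc.1).1.le
  have e : pr φ univ = fun w => c.up u w * φ none w := by
    funext w
    simp only [pr, Fintype.prod_option, Fintype.prod_bool, hu]
    exact mul_comm _ _
  rw [e]
  exact tz.le c.B2 c.AZ c.W.μ (c.up u) (φ none) hB hA (um_up c u)
    (um_mono h0 (sup_le le_rfl hB))

theorem core (fd : Fd) (az : AzX) (rc : Rc) (tz : ThC) (c : Cx) {Ω : Type}
    (β : MeasurableSpace Ω) {m0 : MeasurableSpace Ω} (μ : Measure Ω) [IsProbabilityMeasure μ]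
    (Bc : Ω → c.W.X) (mpB : MeasurePreserving Bc μ c.W.μ)
    (hβ : β ≤ m0) (colB : pull μ Bc c.B2 ≤ β) (j : Bool) (h : Ω → ℂ) (hh : BM μ m0 h)
    (hz : μ[h | β] =ᵐ[μ] 0) (u : Bool → Uni c.X.X) (φ : I3 → c.W.X → ℂ)
    (hu : ∀ q, φ (some q) = fun w => ufn (u q) (c.π q w)) (h1 : Um (c.AZ ⊔ c.B2) c.W.μ (φ none))
    (h0 : μ (Bc ⁻¹' Th c.B2 c.W.μ (pr φ univ) ∩
      {x | (μ[fun y => h y * φ (some j) (Bc y) | β]) x ≠ 0}) ≠ 0) : c.T5 u := by
  refine ⟨j, fun n0 => h0 (measure_eq_zero_iff_ae_notMem.2 ?_)⟩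
  have mp2 := (mpP c j).comp mpB
  have b1 : BM c.W.μ c.B2 fun w => (c.X.μ[ufn (u j) | c.B]) (c.π j w) :=
    (fd.a.bm_comp c.B c.W.μ c.X.μ (c.π j) _ (mpP c j)
      ((um_bm (um_ufn c.X.μ (u j))).ce c.B)).mono
      ((fd.lb.slot c.L c.B (zs j) c.kc.1).trans (fd.h.le _ _))
  have b2 : BM μ β fun x => (c.X.μ[ufn (u j) | c.B]) (c.π j (Bc x)) :=
    (fd.a.bm_comp c.B2 μ c.W.μ Bc _ mpB b1).mono colB
  have e1 := mp2.quasiMeasurePreserving.ae (rc.eq c.B c.X.μ _ c.kc.1.le (um_ufn _ (u j)))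
  have e2 := mpB.quasiMeasurePreserving.ae (measure_eq_zero_iff_ae_notMem.1 n0)
  have e3 := mpB.quasiMeasurePreserving.ae (th_le az tz c u φ hu h1)
  have l1 := rc.loc β μ (fun y => h y * ufn (u j) (c.π j (Bc y))) h _
    (Bc ⁻¹' Th c.B2 c.W.μ (pr φ univ)) hβ (hh.mul (um_bm (um_comp mpB (um_pt c u j)))) hh b2
    (colB _ (meas_pull _ _ (rc.meas _ _ _))) (by
      filter_upwards [e1, e2, e3] with x a1 a2 a5 hx
      have a3 : ‖(c.X.μ[ufn (u j) | c.B]) (c.π j (Bc x))‖ = 1 := by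
        by_contra hn
        exact a2 ⟨a5 hx, hn⟩
      have a4 : ufn (u j) (c.π j (Bc x)) = (c.X.μ[ufn (u j) | c.B]) (c.π j (Bc x)) := a1 a3
      rw [a4, mul_comm])
  rw [hu j]
  filter_upwards [l1, hz] with x a1 a2 hx
  refine hx.2 ?_
  rw [a1 hx.1, a2, Pi.zero_apply, mul_zero]

end XT5L

theorem t5R5 : T5R5 := by
  intro fd az rc tz c E gi ok gxi gs f4
  obtain ⟨j, h, hv, hne, hz⟩ := f4
  obtain ⟨φ, ⟨⟨u, hu⟩, h1⟩, h0⟩ := gs j (some j) h hv hne
  have hβ : E.gx.β ≤ E.gx.W2.ms :=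
    (fd.h.kc _ _ E.L2.nice (fd.lb.fac E.L2 E.B1 E.adm.kc.1)).1.le
  have hG : ∀ k i, E.gx.G k i ≤ E.gx.W2.ms := fun k i =>
    fd.a.pull_le _ _ _ _ (ok.lift i).emb.mp (az.facZ (E.gx.L i) (E.gx.B i) k (ok.kc i).1).le
  have hh : BM E.gx.W2.μ E.gx.W2.ms h := by
    obtain ⟨j1, b, -, hb, -, he⟩ := hv
    have hp : BM E.gx.W2.μ E.gx.W2.ms (pr b (univ.erase (some j))) :=
      BM.pr fun k _ => (hb k).mono (sup_le (hG _ k) hβ)
    exact ((hp.ce _).mono (sup_le (hG _ _) hβ)).congr he.symm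
  exact ⟨u, XT5L.core fd az rc tz c E.gx.β E.gx.W2.μ (E.gx.Bc (some j))
    (ok.lift (some j)).emb.mp hβ
    (gxi.colB (some j)) j h hh hz u φ hu h1 h0⟩

end T5x

end
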