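import Pool.Agent.MP_154433_an.t5.Spec
import Pool.Agent.MP_154433_an.t5.GR2
import Pool.Agent.MP_154433_an.t5.GCm

/-! Row XTh: the events on which a function is determined by a larger factor. -/

set_option autoImplicit false
set_option linter.unusedVariables false
set_option warn.classDefReducibility false

open MeasureTheory ProbabilityTheory Filter Topology Function Finset ComplexConjugate
open scoped BigOperators
open Fib27 (BM sup pr Oc Orow F23 LInd Mem)

noncomputable section

namespace T5x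

open T3x

namespace XThL

open T5g T5g.GR2x

variable {Ω : Type} {A : MeasurableSpace Ω} {m0 : MeasurableSpace Ω} {μ : Measure Ω}

theorem um_mul {F η : Ω → ℂ} (h : A ≤ m0) (hF : Um m0 μ F) (hη : Um A μ η) :
    Um m0 μ fun x => F x * η x := by
  refine ⟨((um_bm hF).mul ((um_bm hη).mono h)).1, ?_⟩
  filter_upwards [hF.2, hη.2] with x a1 a2
  rw [norm_mul, a1, a2, one_mul]

theorem bm_norm {F : Ω → ℂ} (hF : BM μ m0 F) : BM μ m0 fun x => ((‖F x‖ : ℝ) : ℂ) := by
  obtain ⟨h1, C, hC⟩ := hF
  exact ⟨Complex.continuous_ofReal.comp_aestronglyMeasurable h1.norm, C,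
    hC.mono fun x hx => by simpa using hx⟩

end XThL

open XThL T5g T5g.GR2x in
theorem thC : ThCR := by
  intro fd rc
  have r2 := xR2a fd rc
  refine ⟨r2.meas, fun B A _ μ F F' h => eventuallyEq_set.2 (r2.congr B A μ F F' h), ?_, ?_, ?_⟩
  · intro Ω B A m0 μ _ F η h1 h2 hF hη
    have hm := um_mul h2 hF hη
    refine r2.of B A μ F (fun x => (μ[fun x => F x * η x | B]) x * conj (η x)) _ h1 h2 hF
      ((((um_bm hm).ce B).mono h1).mul (um_bm hη).conj)
      (rc.meas B μ _) ?_
    filter_upwards [rc.eq B μ _ (h1.trans h2) hm, hη.2] with x a1 a2 hx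
    rw [← a1 hx, mul_assoc, Complex.mul_conj', a2]
    simp
  · intro Ω B A m0 μ _ F h1 h2 hF
    have hη : Um A μ fun x => GCm.ph ((μ[F | A]) x) :=
      ⟨(GCm.ph_meas.comp stronglyMeasurable_condExp.measurable).stronglyMeasurable.aestronglyMeasurable,
        Eventually.of_forall fun x => GCm.ph_norm _⟩
    refine ⟨_, hη, rc.of B μ _ (fun _ => (1 : ℂ)) _ (h1.trans h2) (um_mul h2 hF hη) (BM.const 1)
      (r2.meas B A μ F) ?_⟩
    filter_upwards [r2.le B A μ F h1 h2 hF] with x a hx
    rw [(a hx).2, mul_comm]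
    exact GCm.ph_mul (a hx).1
  · intro Ω Ω' B A B' A' m0 m0' μ μ' _ _ p F hp hF h1 h2 h3
    have hg : Integrable (fun v => ‖(μ[F | A]) v‖) μ := int_norm F
    have e2 : μ'[fun v => ‖(μ'[fun y => F (p y) | A']) v‖ | B'] =ᵐ[μ']
        μ'[fun v => ‖(μ[F | A]) (p v)‖ | B'] :=
      condExp_congr_ae (h1.mono fun x hx => by simp only [hx])
    refine eventuallyEq_set.2 ?_
    filter_upwards [e2, h3 _ (bm_norm ((hF.ce A).mono h2)),
      ce_real (β := B') (g := fun v => ‖(μ[F | A]) (p v)‖) (hp.integrable_comp_of_integrable hg),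
      hp.quasiMeasurePreserving.ae (ce_real (β := B) hg)] with x a2 a3 a4 a5
    change (μ'[fun v => ‖(μ'[fun y => F (p y) | A']) v‖ | B']) x = 1 ↔
      (μ[fun v => ‖(μ[F | A]) v‖ | B]) (p x) = 1
    rw [a2, Complex.ofReal_injective (a4.symm.trans (a3.trans a5))]

end T5x

end
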