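import Pool.Agent.MP_154433_an.t5.GxU

/-! Column tuples in the saturated grid: spanning and extension to all columns. -/

set_option autoImplicit false
set_option linter.unusedVariables false
set_option warn.classDefReducibility false

open MeasureTheory ProbabilityTheory Filter Topology Function Finset ComplexConjugate
open scoped BigOperators
open Fib27 (BM sup pr Oc Orow F23 LInd Mem)
open Pool.Agent.MP_154433_an.SG (Uni ufn)

noncomputable section

namespace T5x

open T3x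

namespace XGsp

open T3x.RepL (um_bm um_mono um_mul um_cj um_pr bm_of)
open GxU

variable {g : Gx}

/-- labels of a cell descend to the column -/
theorem lab (F : Fd) (o : g.OK) (z : Lz g) (j k : Option Bool) (u : g.W2.X → ℂ)
    (hu : Lb (g.G k j) g.W2.μ u) :
    ∃ u' : (g.W j).X → ℂ, Lb (g.Pc j k) (g.W j).μ u' ∧ u =ᵐ[g.W2.μ] fun x => u' (g.Bc j x) := by
  have m2 : MeasurableSpace.comap (g.Bc j) (g.Pc j k) ≤ g.W2.ms :=
    (MeasurableSpace.comap_mono (z j k)).trans (mB o j).measurable.comap_le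
  obtain ⟨f, hf1, hf2, hf3⟩ := F.a.fact (g.Pc j k) g.W2.μ (g.Bc j) u 1 m2 zero_le_one hu.1
    (Eventually.of_forall hu.2)
  exact ⟨f, ⟨hf1.stronglyMeasurable.aestronglyMeasurable, hf2⟩, hf3⟩

theorem gsp1 (F : Fd) (rc : Rc) (sel : SelS) (o : g.OK) (z : Lz g) (gi : g.GI)
    (hg : HGz g.β g.G none g.W2.μ) : g.GSp g.Tup1 := by
  intro q j h hV h0
  have hb := dv_bm (top F o z (some q)) hV
  obtain ⟨C0, hC0⟩ := hb.2
  have hC : ∀ᵐ x ∂g.W2.μ, ‖h x‖ ≤ max C0 0 := hC0.mono fun x hx => hx.trans (le_max_left _ _)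
  obtain ⟨v, v0, η, hv, hv0, hη, hη', hpos⟩ := ggz g.β g.G none (some q) j g.W2.μ h (max C0 0) hg
    rfl (Option.some_ne_none q) hV (le_max_right _ _) hC h0
  have hB2 := (facB2 F o j).le
  choose w hw hw' using fun i k => lab F o z j k (v i k) (hv i k)
  choose w0 hw0 hw0' using fun k => lab F o z j k (v0 k) (hv0 k)
  obtain ⟨φ, hφ, hs⟩ := sel (g.B2 j) (g.Pc j) (g.W j).μ w w0 η hB2 (z j) three (gi.li j).cline
    hw hw0 hη hη'
  refine ⟨fun k y => conj (φ k y), fun k => um_cj (hφ k), fun hz => hpos ?_⟩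
  refine measure_mono_null_ae ?_ hz
  exact GSp1P.main rc (mB o j) hg.ble hB2 (gi.colE j) (some q)
    (fun i k => (GSp1P.Lb_bm (hw i k)).mono (z j k)) (fun k => (GSp1P.Lb_bm (hw0 k)).mono (z j k))
    hw' hw0' (fun k => um_mono (hφ k) (sup_le (z j k) hB2))
    (hb.mono (top F o z _ _)) (le_max_right _ _) hη hC
    (hs.mono fun x hx hD => ⟨(hx hD).1, ((hx hD).2 (some q)).2.2⟩)

theorem oc_bm (F : Fd) (r : Rc) (o : g.OK) (z : Lz g) (gi : g.GI) {j : Option Bool}
    {φ : Option Bool → (g.W j).X → ℂ} (h : g.Tup1 j φ) (q : Option Bool)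
    {ψ : g.W2.X → ℂ} (hψ : BM g.W2.μ g.β ψ)
    (hs : ∀ᵐ x ∂g.W2.μ, ψ x ≠ 0 → x ∈ g.Bc j ⁻¹' g.Θ j φ) :
    BM g.W2.μ (Oc g.G q j ⊔ g.β) fun x => ψ x * φ q (g.Bc j x) := by
  obtain ⟨κ, hκ, e⟩ := th_eq F r o z gi h
  have h1 : BM g.W2.μ (Oc g.G q j ⊔ g.β) (pr (fun k x => φ k (g.Bc j x)) (univ.erase q)) :=
    BM.pr fun k hk => (um_bm (um_col F o gi h k)).mono
      (sup_le_sup_right (Fib27.le_sup' (fun q' => g.G q' j) hk) _)
  have h2 := ((hψ.mul hκ).mono le_sup_right).mul h1.conj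
  refine h2.congr ?_
  have h3 := (Finset.eventually_all (univ.erase q)).2 fun k _ => (um_col F o gi h k).2
  filter_upwards [e, hs, h3] with x e hs h3
  by_cases h0 : ψ x = 0
  · simp [h0]
  have h4 : ‖pr (fun k x => φ k (g.Bc j x)) (univ.erase q) x‖ = 1 := by
    rw [pr, norm_prod, Finset.prod_eq_one h3]
  rw [← e (hs h0), ← Finset.mul_prod_erase _ _ (mem_univ q), mul_assoc, mul_assoc]
  change _ * (_ * (pr (fun k x => φ k (g.Bc j x)) (univ.erase q) x * _)) = _
  rw [Complex.mul_conj, Complex.normSq_eq_norm_sq, h4]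
  simp

theorem step (F : Fd) (r : Rc) (o : g.OK) (z : Lz g) (gi : g.GI)
    {C : ∀ j, (Option Bool → (g.W j).X → ℂ) → Prop} (hC : ∀ j φ, C j φ → g.Tup1 j φ)
    (gs : g.GSp C) {q : Bool} {j i : Option Bool}
    (hij : i ≠ j) {φ : Option Bool → (g.W j).X → ℂ} (hφ : g.Tup1 j φ) {E : Set g.W2.X}
    (hE : MeasurableSet[g.β] E) (hEΘ : E ≤ᵐ[g.W2.μ] g.Bc j ⁻¹' g.Θ j φ)
    {a : Option Bool → g.W2.X → ℂ}
    (ha : ∀ k, BM g.W2.μ (g.G (some q) k ⊔ g.β) (a k)) (haj : a j = fun x => φ (some q) (g.Bc j x))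
    (hpos : g.W2.μ (E ∩ {x | (g.W2.μ[pr a univ | g.β]) x ≠ 0}) ≠ 0) :
    ∃ φ', C i φ' ∧ g.W2.μ ((E ∩ g.Bc i ⁻¹' g.Θ i φ') ∩
      {x | (g.W2.μ[pr (update a i fun x => φ' (some q) (g.Bc i x)) univ | g.β]) x ≠ 0}) ≠ 0 := by
  have hβ := leβ F o
  have hle : ∀ k, g.G (some q) k ⊔ g.β ≤ g.W2.ms := top F o z (some q)
  have hK : BM g.W2.μ g.β (g.W2.μ[pr a univ | g.β]) :=
    (BM.pr fun k _ => (ha k).mono (hle k)).ce g.β
  obtain ⟨ψ, hψ, hψE, hψK⟩ : ∃ ψ : g.W2.X → ℂ, BM g.W2.μ g.β ψ ∧ (∀ x, ψ x ≠ 0 → x ∈ E) ∧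
      ∀ x ∈ E, ψ x = conj ((g.W2.μ[pr a univ | g.β]) x) := by
    refine ⟨_, (BM.indicator hE).mul hK.conj, fun x hx => ?_, fun x hx => by simp [hx]⟩
    by_contra h
    simp [h] at hx
  have hb : ∀ k, BM g.W2.μ (g.G (some q) k ⊔ g.β) (update a j (fun x => ψ x * a j x) k) :=
    fun k => by
    by_cases hk : k = j
    · subst hk
      rw [update_self]
      exact (hψ.mono le_sup_right).mul (ha k)
    · rw [update_of_ne hk]
      exact ha k
  have hbj : BM g.W2.μ (Oc g.G (some q) j ⊔ g.β) (update a j (fun x => ψ x * a j x) j) := by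
    rw [update_self, haj]
    refine oc_bm F r o z gi hφ (some q) hψ ?_
    filter_upwards [hEΘ] with x hx h0
    exact hx (hψE x h0)
  have hv : DV g.β g.G (some q) i g.W2.μ
      (g.W2.μ[pr (update a j fun x => ψ x * a j x) (univ.erase i) | g.G (some q) i ⊔ g.β]) :=
    ⟨j, _, hij.symm, hb, hbj, EventuallyEq.rfl⟩
  have hP : BM g.W2.μ g.W2.ms (pr (update a j fun x => ψ x * a j x) (univ.erase i)) :=
    BM.pr fun k _ => (hb k).mono (hle k)
  have key : ∀ u, BM g.W2.μ (g.G (some q) i ⊔ g.β) u → g.W2.μ[fun y =>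
      (g.W2.μ[pr (update a j fun x => ψ x * a j x) (univ.erase i) | g.G (some q) i ⊔ g.β]) y * u y
        | g.β] =ᵐ[g.W2.μ] fun x => ψ x * (g.W2.μ[pr (update a i u) univ | g.β]) x := by
    intro u hu
    have hQ : BM g.W2.μ g.W2.ms (pr (update a i u) univ) := BM.pr fun k _ => by
      by_cases hk : k = i
      · subst hk
        rw [update_self]
        exact hu.mono (hle k)
      · rw [update_of_ne hk]
        exact (ha k).mono (hle k)
    have e1 := (condExp_congr_ae (m := g.β) (Fib27.ce_mul' (hle i) hP hu).symm).trans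
      (condExp_condExp_of_le le_sup_right (hle i))
    have e2 : (fun y => pr (update a j fun x => ψ x * a j x) (univ.erase i) y * u y) =
        fun y => ψ y * pr (update a i u) univ y := by
      funext y
      have hj : j ∈ univ.erase i := mem_erase.2 ⟨hij.symm, mem_univ j⟩
      rw [Fib27.pr_erase _ (mem_univ i), update_self, Fib27.pr_update _ (notMem_erase i _),
        Fib27.pr_erase a hj, Fib27.pr_erase _ hj, update_self,
        Fib27.pr_update _ (notMem_erase j _)]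
      ring
    rw [e2] at e1
    exact e1.trans (Fib27.ce_mul hβ hψ hQ)
  have hne : ¬ (g.W2.μ[pr (update a j fun x => ψ x * a j x) (univ.erase i) |
      g.G (some q) i ⊔ g.β]) =ᵐ[g.W2.μ] 0 := by
    intro h0
    have e1 := key (a i) (ha i)
    rw [update_eq_self] at e1
    have e2 : (fun y => (g.W2.μ[pr (update a j fun x => ψ x * a j x) (univ.erase i) |
        g.G (some q) i ⊔ g.β]) y * a i y) =ᵐ[g.W2.μ] 0 := by
      filter_upwards [h0] with y hy
      simp [hy]
    have e3 := condExp_congr_ae (m := g.β) e2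
    rw [condExp_zero] at e3
    refine hpos (measure_eq_zero_iff_ae_notMem.2 ?_)
    filter_upwards [e1.symm.trans e3] with x hx hm
    rw [hψK x hm.1] at hx
    have hz := hm.2
    simp only [Pi.zero_apply, mul_eq_zero, map_eq_zero, or_self] at hx
    exact hz hx
  obtain ⟨φ', hφ', hp⟩ := gs q i _ hv hne
  refine ⟨φ', hφ', fun h0 => hp (measure_mono_null_ae ?_ h0)⟩
  filter_upwards [key _ (um_bm (um_col F o gi (hC _ _ hφ') (some q)))] with x hx hm
  have h1 := hm.2
  simp only [Set.mem_ofPred_eq] at h1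
  rw [hx] at h1
  exact ⟨⟨hψE x (left_ne_zero_of_mul h1), hm.1⟩, right_ne_zero_of_mul h1⟩

theorem full (F : Fd) (r : Rc) (o : g.OK) (z : Lz g) (gi : g.GI) (hg : HGz g.β g.G none g.W2.μ)
    {C : ∀ j, (Option Bool → (g.W j).X → ℂ) → Prop} (hC : ∀ j φ, C j φ → g.Tup1 j φ)
    (gs : g.GSp C) : g.Full C := by
  intro q j φ E a hφ hE hEΘ ha hpos
  have main : ∀ S : Finset (Option Bool), ∃ (E' : Set g.W2.X)
      (Φ : ∀ i, Option Bool → (g.W i).X → ℂ)
      (a' : Option Bool → g.W2.X → ℂ), MeasurableSet[g.β] E' ∧ E' ⊆ E ∧ Φ j = φ ∧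
      (∀ i, BM g.W2.μ (g.G (some q) i ⊔ g.β) (a' i)) ∧
      (∀ i, i = j ∨ i ∈ S → C i (Φ i) ∧ E' ≤ᵐ[g.W2.μ] g.Bc i ⁻¹' g.Θ i (Φ i) ∧
        a' i = fun x => Φ i (some q) (g.Bc i x)) ∧
      g.W2.μ (E' ∩ {x | (g.W2.μ[pr a' univ | g.β]) x ≠ 0}) ≠ 0 := by
    intro S
    induction S using Finset.induction_on with
    | empty =>
      refine ⟨E, update (fun _ _ _ => 1) j φ, update a j fun x => φ (some q) (g.Bc j x), hE,
        subset_rfl, update_self _ _ _, fun i => ?_, fun i hi => ?_, ?_⟩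
      · by_cases hk : i = j
        · subst hk
          rw [update_self]
          exact um_bm (um_col F o gi (hC _ _ hφ) (some q))
        · rw [update_of_ne hk]
          exact ha i
      · obtain rfl : i = j := by simpa using hi
        rw [update_self, update_self]
        exact ⟨hφ, hEΘ, rfl⟩
      · have e : pr (update a j fun x => φ (some q) (g.Bc j x)) univ =
            fun y => φ (some q) (g.Bc j y) * pr a (univ.erase j) y := by
          funext y
          rw [Fib27.pr_erase _ (mem_univ j), update_self, Fib27.pr_update _ (notMem_erase j _)]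
        rw [e]
        exact hpos
    | insert i S hi ih =>
      obtain ⟨E', Φ, a', h1, h2, h4, h5, h6, h7⟩ := ih
      by_cases hij : i = j
      · refine ⟨E', Φ, a', h1, h2, h4, h5, fun k hk => h6 k ?_, h7⟩
        rcases hk with hk | hk
        · exact Or.inl hk
        · rcases mem_insert.1 hk with hk | hk
          · exact Or.inl (hk.trans hij)
          · exact Or.inr hk
      obtain ⟨φ', hφ', hp⟩ := step F r o z gi hC gs hij (hC _ _ (h6 j (Or.inl rfl)).1) h1
        (h6 j (Or.inl rfl)).2.1 h5 (h6 j (Or.inl rfl)).2.2 h7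
      refine ⟨_, update Φ i φ', _, h1.inter (th_meas r gi i φ'), Set.inter_subset_left.trans h2,
        ?_, fun k => ?_, fun k hk => ?_, hp⟩
      · rw [update_of_ne (Ne.symm hij), h4]
      · by_cases hk : k = i
        · subst hk
          rw [update_self]
          exact um_bm (um_col F o gi (hC _ _ hφ') (some q))
        · rw [update_of_ne hk]
          exact h5 k
      · by_cases hki : k = i
        · subst hki
          rw [update_self, update_self]
          exact ⟨hφ', Eventually.of_forall fun x hx => hx.2, rfl⟩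
        · rw [update_of_ne hki, update_of_ne hki]
          have hk' : k = j ∨ k ∈ S := hk.imp id fun h => (mem_insert.1 h).resolve_left hki
          exact ⟨(h6 k hk').1, (Set.inter_subset_left.eventuallyLE).trans (h6 k hk').2.1,
            (h6 k hk').2.2⟩
  obtain ⟨E', Φ, a', h1, h2, h4, h5, h6, h7⟩ := main univ
  have h3 : ∀ i, C i (Φ i) := fun i => (h6 i (Or.inr (mem_univ i))).1
  have h8 : ∀ i, E' ≤ᵐ[g.W2.μ] g.Bc i ⁻¹' g.Θ i (Φ i) := fun i => (h6 i (Or.inr (mem_univ i))).2.1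
  have h9 : pr a' univ = fun x => ∏ i, Φ i (some q) (g.Bc i x) := by
    funext x
    exact Finset.prod_congr rfl fun i _ => by rw [(h6 i (Or.inr (mem_univ i))).2.2]
  rw [h9] at h7
  have hm : MeasurableSet[g.β]
      {x | (g.W2.μ[fun x => ∏ i, Φ i (some q) (g.Bc i x) | g.β]) x ≠ 0} :=
    (stronglyMeasurable_condExp.measurable (measurableSet_singleton (0 : ℂ))).compl
  refine ⟨_, Φ, h1.inter hm, Set.inter_subset_left.trans h2, h7, h3, h4,
    fun i => (Set.inter_subset_left.eventuallyLE).trans (h8 i), ?_⟩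
  have hrow : ∀ k, sup (g.G k) univ ≤ g.W2.ms := fun k => Fib27.sup_le' fun i _ => hg.le k i
  have hR : ∀ k, Um (sup (g.G k) univ ⊔ g.β) g.W2.μ fun x => ∏ i, Φ i k (g.Bc i x) := fun k =>
    um_pr (f := fun i x => Φ i k (g.Bc i x)) univ fun i =>
      um_mono (um_col F o gi (hC _ _ (h3 i)) k)
        (sup_le_sup_right (Fib27.le_sup' (g.G k) (mem_univ i)) _)
  have hcm := r.cm g.β (fun k => sup (g.G k) univ) g.W2.μ
    (fun k x => ∏ i, Φ i k (g.Bc i x)) hg.ble hrow three hg.rows hR (some q)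
  choose κ hκ hκe using fun i => th_eq F r o z gi (hC _ _ (h3 i))
  have hof := r.of g.β g.W2.μ (pr (fun k x => ∏ i, Φ i k (g.Bc i x)) univ) (pr κ univ) E' hg.ble
    (um_pr _ fun k => um_mono (hR k) (sup_le (hrow k) hg.ble))
    (BM.pr fun i _ => hκ i) h1 (by
      filter_upwards [ae_all_iff.2 hκe, ae_all_iff.2 h8] with x e1 e2 hx
      rw [pr, pr, Finset.prod_comm]
      exact Finset.prod_congr rfl fun i _ => e1 i (e2 i hx))
  intro k
  filter_upwards [hcm, hof] with x e1 e2 hx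
  exact e1 (e2 hx.1) hx.2 k

end XGsp

end T5x

end
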