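import Pool.Agent.MP_154433_an.t5.GxU

/-! A member of a column tuple and of a row tuple of the saturated grid is a function of the
point. -/

set_option autoImplicit false
set_option linter.unusedVariables false
set_option warn.classDefReducibility false

open MeasureTheory ProbabilityTheory Filter Topology Function Finset ComplexConjugate
open scoped BigOperators
open Fib27 (BM sup pr Oc Orow F23 LInd Mem)
open Pool.Agent.MP_154433_an.SG (Uni ufn)

noncomputable section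

namespace T5x

open T3x

namespace XRep

open T3x.RepL (um_bm um_mono um_mul um_cj um_pr bm_of d2_comp re_ge ce_ne pos_of)
open GxU

variable {g : Gx}

/-- a column member and a row member that correlate agree up to the base -/
theorem mat (F : Fd) (R : Rc) (o : g.OK) (z : Lz g) (hG : g.GI) (hF : g.Full g.Tup1)
    (j : Option Bool) (k : Bool) {φ : Option Bool → (g.W j).X → ℂ}
    {φ' : Option Bool → g.W1.X → ℂ} (h : g.Tup1 j φ)
    (h' : ∀ i, Um (g.P1 i ⊔ g.B1) g.W1.μ (φ' i)) {M : Set g.W2.X} (mM : MeasurableSet[g.β] M)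
    (M1 : ∀ᵐ x ∂g.W2.μ, x ∈ M → g.Bc j x ∈ g.Θ j φ)
    (M2 : ∀ᵐ x ∂g.W2.μ, x ∈ M → g.A k x ∈ Th g.B1 g.W1.μ (pr φ' univ))
    (hne : ∀ᵐ x ∂g.W2.μ, x ∈ M →
      (g.W2.μ[fun y => φ (some k) (g.Bc j y) * conj (φ' j (g.A k y)) | g.β]) x ≠ 0) :
    ∀ᵐ x ∂g.W2.μ, x ∈ M →
      x ∈ Th g.β g.W2.μ fun y => φ (some k) (g.Bc j y) * conj (φ' j (g.A k y)) := by
  have hβ := leβ F o
  have tp : ∀ i, g.G (some k) i ⊔ g.β ≤ g.W2.ms := top F o z (some k)
  set T := Th g.β g.W2.μ fun y => φ (some k) (g.Bc j y) * conj (φ' j (g.A k y)) with hT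
  have mT : MeasurableSet[g.β] T := R.meas _ _ _
  suffices h0 : g.W2.μ (M \ T) = 0 by
    filter_upwards [measure_eq_zero_iff_ae_notMem.1 h0] with x hx h1
    by_contra h2
    exact hx ⟨h1, h2⟩
  by_contra h0
  set a : Option Bool → g.W2.X → ℂ := fun i x => φ' i (g.A k x) with ha
  have ua : ∀ i, Um (g.G (some k) i ⊔ g.β) g.W2.μ (a i) := fun i => um_row F o hG k (h' i)
  have ua' : ∀ i, Um g.W2.ms g.W2.μ (a i) := fun i => um_mono (ua i) (tp i)
  have uR : Um g.W2.ms g.W2.μ (pr a univ) := um_pr _ ua'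
  have uφ : Um g.W2.ms g.W2.μ fun y => φ (some k) (g.Bc j y) :=
    um_mono (um_col F o hG h (some k)) (tp j)
  have MR : ∀ᵐ x ∂g.W2.μ, x ∈ M → x ∈ Th g.β g.W2.μ (pr a univ) := by
    filter_upwards [M2, hG.rowE k _ (um_bm (um_pr univ fun i =>
      um_mono (h' i) (sup_le (leP1 F o i) (b1_le o))))] with x h1 h2 hx
    have h3 : ‖(g.W1.μ[pr φ' univ | g.B1]) (g.A k x)‖ = 1 := h1 hx
    rw [← h2] at h3
    exact h3
  have loc := R.loc g.β g.W2.μ (fun y => φ (some k) (g.Bc j y) * pr a (univ.erase j) y)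
    (fun y => φ (some k) (g.Bc j y) * conj (φ' j (g.A k y))) (g.W2.μ[pr a univ | g.β]) M hβ
    ((um_bm uφ).mul (um_bm (um_pr _ ua'))) ((um_bm uφ).mul (um_bm (ua' j)).conj)
    ((um_bm uR).ce _) mM (by
      filter_upwards [MR, R.eq g.β g.W2.μ _ hβ uR, (ua' j).2] with x h1 h2 h3 hx
      rw [← h2 (h1 hx), Fib27.pr_erase a (mem_univ j)]
      have h4 : a j x * conj (a j x) = 1 := by
        rw [Complex.mul_conj, Complex.normSq_eq_norm_sq, h3]; simp
      show _ = a j x * pr a (univ.erase j) x * (φ (some k) (g.Bc j x) * conj (a j x))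
      linear_combination (-(φ (some k) (g.Bc j x) * pr a (univ.erase j) x)) * h4)
  obtain ⟨E', Φ, mE, sE, pE, tΦ, eΦ, -, hΦ⟩ := hF k j φ (M \ T) a h (mM.diff mT)
    (by filter_upwards [M1] with x h1 hx; exact h1 hx.1) (fun i => um_bm (ua i))
    (pos_of h0 (by
      filter_upwards [loc, MR, hne] with x h1 h2 h3 hx
      refine ⟨hx, ?_⟩
      show _ ≠ 0
      rw [h1 hx.1]
      refine mul_ne_zero (fun h4 => ?_) (h3 hx.1)
      have h5 : ‖(g.W2.μ[pr a univ | g.β]) x‖ = 1 := h2 hx.1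
      rw [h4, norm_zero] at h5
      exact zero_ne_one h5))
  set χ : Option Bool → g.W2.X → ℂ := fun i x => Φ i (some k) (g.Bc i x) * conj (a i x) with hχ
  have uc : ∀ i, Um (g.G (some k) i ⊔ g.β) g.W2.μ fun x => Φ i (some k) (g.Bc i x) :=
    fun i => um_col F o hG (tΦ i) (some k)
  have eχ : pr χ univ =
      fun x => pr (fun i x => Φ i (some k) (g.Bc i x)) univ x * conj (pr a univ x) := by
    funext x
    simp only [pr, hχ, prod_mul_distrib, map_prod]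
  have cm := R.cm g.β (g.G (some k)) g.W2.μ χ hβ (leG F o z (some k)) three (clG o z hG (some k))
    (fun i => um_mul (uc i) (um_cj (ua i))) j
  have mu := R.mul g.β g.W2.μ _ _ hβ (um_pr univ fun i => um_mono (uc i) (tp i)) (um_cj uR)
  have ej : χ j = fun y => φ (some k) (g.Bc j y) * conj (φ' j (g.A k y)) := by
    funext y
    simp only [hχ, ha, eΦ]
  rw [eχ, ej] at cm
  refine pE (measure_eq_zero_iff_ae_notMem.2 ?_)
  filter_upwards [cm, mu, hΦ (some k), MR, R.cj g.β g.W2.μ _ hβ uR, hne] with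
    x h1 h2 h3 h4 h5 h6 hx
  have hx' := sE hx
  have h7 := h1 (h2 ⟨h3 hx, h5.mpr (h4 hx'.1)⟩) (h6 hx'.1) j
  rw [ej] at h7
  exact hx'.2 h7

/-- conditioning on the column -/
theorem col (F : Fd) (o : g.OK) (j : Option Bool) (k : Bool) {f1 : (g.W j).X → ℂ}
    {f2 : g.W1.X → ℂ} (b1 : BM (g.W j).μ (g.W j).ms f1) (b2 : BM g.W1.μ g.W1.ms f2)
    {D : Set g.W1.X} {D' : Set (g.W j).X} (mD : MeasurableSet D) (mD' : MeasurableSet D')
    (h : ∀ᵐ x ∂g.W2.μ, g.A k x ∈ D → g.Bc j x ∈ D' → f1 (g.Bc j x) = f2 (g.A k x)) :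
    ∃ u : (g.X j).X → ℂ, Measurable u ∧
      ∀ᵐ x ∂g.W2.μ, g.A k x ∈ D → g.Bc j x ∈ D' → f1 (g.Bc j x) = u (g.p j (g.A k x)) := by
  have key : ∀ u, BM g.W1.μ g.W1.ms u → ∃ u0 : (g.X j).X → ℂ, Measurable u0 ∧
      g.W1.μ[u | g.P1 j] =ᵐ[g.W1.μ] (fun w => u0 (g.p j w)) ∧
      g.W2.μ[fun x => u (g.A k x) | pull g.W2.μ (g.Bc j) (g.W j).ms] =ᵐ[g.W2.μ]
        fun x => u0 (g.p j (g.A k x)) := by
    intro u hu
    obtain ⟨h1, C, hC⟩ := hu.ce (g.P1 j)
    obtain ⟨u0, m0, b0, e0⟩ := F.a.fact (g.X j).ms g.W1.μ (g.p j) _ (max C 0)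
      (mp o j).measurable.comap_le (le_max_right _ _) h1
      (hC.mono fun x hx => hx.trans (le_max_left _ _))
    exact ⟨u0, m0, e0, F.ld.cs g.L2 (g.L j) (g.p j) (g.Bc j) (zs k) (o.adm j).emb (o.lift j) u u0
      hu (bm_of _ m0 b0) e0.symm⟩
  have i1 : BM g.W1.μ g.W1.ms (D.indicator fun _ => (1 : ℂ)) := BM.indicator mD
  have i2 : BM (g.W j).μ (g.W j).ms (D'.indicator fun _ => (1 : ℂ)) := BM.indicator mD'
  obtain ⟨α, mα, eα, cα⟩ := key _ i1
  obtain ⟨γ, mγ, -, cγ⟩ := key _ (i1.mul b2)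
  refine ⟨fun x => γ x / α x, mγ.div mα, ?_⟩
  have hY : pull g.W2.μ (g.Bc j) (g.W j).ms ≤ g.W2.ms := F.a.pull_le _ _ _ _ (mB o j) le_rfl
  have c1 := Fib27.ce_mul hY (F.a.bm_comp _ _ _ _ _ (mB o j) (i2.mul b1)) (bm_A k i1)
  have c2 := Fib27.ce_mul hY (F.a.bm_comp _ _ _ _ _ (mB o j) i2) (bm_A k (i1.mul b2))
  have c3 : g.W2.μ[fun x => D'.indicator (fun _ => (1 : ℂ)) (g.Bc j x) * f1 (g.Bc j x) *
      D.indicator (fun _ => (1 : ℂ)) (g.A k x) | pull g.W2.μ (g.Bc j) (g.W j).ms] =ᵐ[g.W2.μ]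
      g.W2.μ[fun x => D'.indicator (fun _ => (1 : ℂ)) (g.Bc j x) *
        (D.indicator (fun _ => (1 : ℂ)) (g.A k x) * f2 (g.A k x)) |
          pull g.W2.μ (g.Bc j) (g.W j).ms] := by
    refine condExp_congr_ae ?_
    filter_upwards [h] with x hx
    by_cases h1 : g.A k x ∈ D
    · by_cases h2 : g.Bc j x ∈ D'
      · simp [h1, h2, hx h1 h2]
      · simp [h2]
    · simp [h1]
  have ne := (mA g k).quasiMeasurePreserving.ae ((ce_ne (leP1 F o j) mD).and eα)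
  filter_upwards [c1, c2, c3, cα, cγ, ne] with x c1 c2 c3 cα cγ ne h1 h2
  have n1 : α (g.p j (g.A k x)) ≠ 0 := by
    have := ne.1 h1
    rwa [ne.2] at this
  rw [c1, c2, cα, cγ] at c3
  simp only [Set.indicator_of_mem h2, one_mul] at c3
  rw [eq_div_iff n1]
  exact c3

theorem rep (F : Fd) (R : Rc) (Sel : SelS) (Apx : ApxS) (o : g.OK) (lz : Lz g) (hG : g.GI)
    (hF : g.Full g.Tup1) : g.Rep := by
  intro j k Φ E tΦ mE pE E1 E2
  have hβ := leβ F o
  have hB := (facB2 F o j).le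
  have hB1 := b1_le o
  have tp : ∀ i, g.G (some k) i ⊔ g.β ≤ g.W2.ms := top F o lz (some k)
  have uc : ∀ i, Um (g.G (some k) i ⊔ g.β) g.W2.μ fun x => Φ i (some k) (g.Bc i x) :=
    fun i => um_col F o hG (tΦ i) (some k)
  obtain ⟨v, v0, E', lv, l0, mE', sE, pE', hE'⟩ := Apx g.β (g.G (some k)) g.W2.μ
    (fun i x => Φ i (some k) (g.Bc i x)) E (1 / 100) hβ (leG F o lz (some k)) uc mE pE E2
    (by norm_num)
  have fa : ∀ i (z : g.W2.X → ℂ), Lb (g.G (some k) i) g.W2.μ z → ∃ u : (g.X i).X → ℂ,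
      Measurable u ∧ (∀ x, ‖u x‖ ≤ 1) ∧ z =ᵐ[g.W2.μ] fun x => u (g.p i (g.A k x)) :=
    fun i z hz => F.a.fact (g.X i).ms g.W2.μ (g.p i ∘ g.A k) z 1
      ((mp o i).comp (mA g k)).measurable.comap_le zero_le_one (G_eq F o hG k i ▸ hz.1)
      (Eventually.of_forall hz.2)
  choose u mu bu eu using fun n i => fa i _ (lv n i)
  choose u0 mu0 bu0 eu0 using fun i => fa i _ (l0 i)
  have lb : ∀ (i : Option Bool) (z : (g.X i).X → ℂ), Measurable z → (∀ x, ‖z x‖ ≤ 1) →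
      BM g.W1.μ (g.P1 i) fun w => z (g.p i w) := fun i z mz bz =>
    F.a.bm_comp (g.X i).ms g.W1.μ (g.X i).μ (g.p i) z (mp o i) (bm_of _ mz bz)
  set w : ℕ → Option Bool → g.W1.X → ℂ := fun n i y => u n i (g.p i y) with hw
  set w0 : Option Bool → g.W1.X → ℂ := fun i y => u0 i (g.p i y) with hw0
  have bw : ∀ n i, BM g.W1.μ g.W1.ms (w n i) :=
    fun n i => (lb i _ (mu n i) (bu n i)).mono (leP1 F o i)
  have bw0 : ∀ i, BM g.W1.μ g.W1.ms (w0 i) := fun i => (lb i _ (mu0 i) (bu0 i)).mono (leP1 F o i)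
  obtain ⟨φ, tφ, hφ⟩ := Sel g.B1 g.P1 g.W1.μ w w0 (1 / 100) hB1 (leP1 F o) three o.ind
    (fun n i => ⟨(lb i _ (mu n i) (bu n i)).1, fun y => bu n i _⟩)
    (fun i => ⟨(lb i _ (mu0 i) (bu0 i)).1, fun y => bu0 i _⟩) (by norm_num) le_rfl
  have ds : ∀ᵐ x ∂g.W2.μ, x ∈ DS g.β g.W2.μ v v0 (1 / 100) →
      g.A k x ∈ DS g.B1 g.W1.μ w w0 (1 / 100) := by
    have d1 : ∀ n, g.W2.μ[pr (v n) univ | g.β] =ᵐ[g.W2.μ]
        fun x => (g.W1.μ[pr (w n) univ | g.B1]) (g.A k x) := fun n =>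
      (condExp_congr_ae (Fib27.pr_congr_ae fun i _ => eu n i)).trans
        (hG.rowE k _ (BM.pr fun i _ => bw n i))
    have d2 := fun n i => d2_comp (mA g k) (hG.rowE k) (bw n i) (bw0 i) (eu n i) (eu0 i)
    filter_upwards [ae_all_iff.2 d1, ae_all_iff.2 fun n => ae_all_iff.2 (d2 n)] with x h1 h2 hx
    simp only [DS, Set.mem_iInter, Set.mem_iUnion, Set.mem_ofPred_eq] at hx ⊢
    intro n
    obtain ⟨i, h3, h4⟩ := hx n
    exact ⟨i, h1 i ▸ h3, fun l => h2 i l ▸ h4 l⟩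
  set r := g.W1.μ[fun y => φ j y * conj (w0 j y) | g.B1] with hr
  set s := g.W1.μ[fun y => ‖φ j y - w0 j y‖ ^ 2 | g.B1] with hs
  set z : (g.W j).X → ℂ := fun y => u0 j (g.π j k y) with hz
  have bz : BM (g.W j).μ (g.W j).ms z := GSp1P.bm_up (mP g j k) (bm_of _ (mu0 j) (bu0 j))
  set κ := (g.W j).μ[fun y => Φ j (some k) y * conj (z y) | g.B2 j] with hκ
  set s' := (g.W j).μ[fun y => ‖Φ j (some k) y - z y‖ ^ 2 | g.B2 j] with hs'
  have mr : Measurable[g.B1] r := stronglyMeasurable_condExp.measurable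
  have ms : Measurable[g.B1] s := stronglyMeasurable_condExp.measurable
  have mκ : Measurable[g.B2 j] κ := stronglyMeasurable_condExp.measurable
  have ms' : Measurable[g.B2 j] s' := stronglyMeasurable_condExp.measurable
  set D : Set g.W1.X := Th g.B1 g.W1.μ (pr φ univ) ∩ (r ⁻¹' {t | t.im = 0 ∧ 1 - 1 / 100 ≤ t.re} ∩
    s ⁻¹' Set.Iic ((1 / 100) ^ 2)) with hD
  set D' : Set (g.W j).X := g.Θ j (Φ j) ∩ s' ⁻¹' Set.Iic ((1 / 100) ^ 2) with hD'
  have mD : MeasurableSet[g.B1] D := (R.meas _ _ _).inter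
    ((mr ((measurableSet_eq_fun Complex.measurable_im measurable_const).inter
      (measurableSet_le measurable_const Complex.measurable_re))).inter (ms measurableSet_Iic))
  have mD' : MeasurableSet[g.B2 j] D' := (R.meas _ _ _).inter (ms' measurableSet_Iic)
  have kq : ∀ y : (g.X j).X → ℂ, Measurable y →
      (fun x => y (g.p j (g.A k x))) =ᵐ[g.W2.μ] fun x => y (g.π j k (g.Bc j x)) := fun y my =>
    swap F o hG k j my
  have ez : v0 j =ᵐ[g.W2.μ] fun x => z (g.Bc j x) := (eu0 j).trans (kq _ (mu0 j))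
  have uΦ := tup_um F o lz (tΦ j) (some k)
  have uφ : Um g.W1.ms g.W1.μ (φ j) := um_mono (tφ j) (sup_le (leP1 F o j) hB1)
  have s1 := d2_comp (mB o j) (hG.colE j) (um_bm uΦ) bz (EventuallyEq.refl _ _) ez
  have s2 := d2_comp (mA g k) (hG.rowE k) (um_bm uφ) (bw0 j) (EventuallyEq.refl _ _) (eu0 j)
  set M : Set g.W2.X := g.A k ⁻¹' D ∩ g.Bc j ⁻¹' D' with hM
  have mM : MeasurableSet[g.β] M := (msA hG k mD).inter (msB hG j mD')
  have EM : ∀ᵐ x ∂g.W2.μ, x ∈ E' → x ∈ M := by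
    filter_upwards [hE', ds, (mA g k).quasiMeasurePreserving.ae hφ, E1, s1] with x h1 h2 h3 h4 h5 hx
    obtain ⟨h6, h7⟩ := h3 (h2 (h1 hx).1)
    refine ⟨⟨h6, ⟨(h7 j).1, (h7 j).2.1⟩, (h7 j).2.2⟩, h4 (sE hx), ?_⟩
    exact h5.symm.trans_le ((h1 hx).2 j)
  have u1 : Um g.W2.ms g.W2.μ fun x => Φ j (some k) (g.Bc j x) := um_mono (uc j) (tp j)
  have u2 : Um g.W2.ms g.W2.μ fun x => φ j (g.A k x) := um_mono (um_row F o hG k (tφ j)) (tp j)
  have b0 : BM g.W2.μ g.W2.ms (v0 j) := (bm_B o j bz).congr ez.symm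
  have mt := mat F R o lz hG hF j k (tΦ j) tφ mM (Eventually.of_forall fun x hx => hx.2.1)
    (Eventually.of_forall fun x hx => hx.1.1) (by
      filter_upwards [re_ge hβ u1 u2 b0, s1, s2] with x h1 h2 h3 hx h4
      have h5 : s' (g.Bc j x) ≤ (1 / 100) ^ 2 := hx.2.2
      have h6 : s (g.A k x) ≤ (1 / 100) ^ 2 := hx.1.2.2
      rw [h2, h3, h4, Complex.zero_re] at h1
      linarith)
  set t := g.W2.μ[fun y => Φ j (some k) (g.Bc j y) * conj (φ j (g.A k y)) | g.β] with ht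
  have u3 := um_mul u1 (um_cj u2)
  have e1 : ∀ᵐ x ∂g.W2.μ, x ∈ M → Φ j (some k) (g.Bc j x) = t x * φ j (g.A k x) ∧ ‖t x‖ = 1 := by
    filter_upwards [mt, R.eq g.β g.W2.μ _ hβ u3, u2.2] with x h1 h2 h3 hx
    refine ⟨?_, h1 hx⟩
    have h4 : φ j (g.A k x) * conj (φ j (g.A k x)) = 1 := by
      rw [Complex.mul_conj, Complex.normSq_eq_norm_sq, h3]; simp
    have h5 : Φ j (some k) (g.Bc j x) * conj (φ j (g.A k x)) = t x := h2 (h1 hx)
    linear_combination φ j (g.A k x) * h5 - Φ j (some k) (g.Bc j x) * h4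
  have loc := R.loc g.β g.W2.μ (fun y => Φ j (some k) (g.Bc j y) * conj (z (g.Bc j y)))
    (fun y => φ j (g.A k y) * conj (w0 j (g.A k y))) t M hβ
    (bm_B o j ((um_bm uΦ).mul bz.conj)) (bm_A k ((um_bm uφ).mul (bw0 j).conj))
    ((um_bm u3).ce _) mM (by
      filter_upwards [e1, kq _ (mu0 j)] with x h1 h2 hx
      have h3 : w0 j (g.A k x) = z (g.Bc j x) := h2
      rw [(h1 hx).1, h3, mul_assoc])
  set ρ : (g.W j).X → ℂ := fun y => κ y / (‖κ y‖ : ℂ) with hρ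
  have bρ : BM (g.W j).μ (g.B2 j) ρ := by
    have mq : Measurable fun t : ℂ => t / (‖t‖ : ℂ) :=
      measurable_id.div (Complex.measurable_ofReal.comp measurable_norm)
    refine bm_of (C := 1) _ (mq.comp mκ) fun y => ?_
    simp only [hρ, norm_div, Complex.norm_real, norm_norm]
    exact div_self_le_one _
  have e2 : ∀ᵐ x ∂g.W2.μ, x ∈ M → ρ (g.Bc j x) = t x := by
    filter_upwards [e1, loc, hG.colE j _ ((um_bm uΦ).mul bz.conj),
      hG.rowE k _ ((um_bm uφ).mul (bw0 j).conj)] with x h1 h2 h3 h4 hx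
    have h5 : κ (g.Bc j x) = t x * r (g.A k x) := by
      have := h2 hx
      rw [h3, h4] at this
      exact this
    obtain ⟨h6, h7⟩ : (r (g.A k x)).im = 0 ∧ 1 - 1 / 100 ≤ (r (g.A k x)).re := hx.1.2.1
    have h8 : r (g.A k x) = ((r (g.A k x)).re : ℂ) := Complex.ext (by simp) (by simp [h6])
    have h9 : 0 < (r (g.A k x)).re := by linarith
    have h10 : ‖κ (g.Bc j x)‖ = (r (g.A k x)).re := by
      rw [h5, norm_mul, (h1 hx).2, one_mul, h8, Complex.norm_real, Complex.ofReal_re,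
        Real.norm_of_nonneg h9.le]
    show κ (g.Bc j x) / (‖κ (g.Bc j x)‖ : ℂ) = _
    rw [h10, h5, ← h8, mul_div_assoc, div_self, mul_one]
    intro h0
    rw [h0, Complex.zero_re] at h9
    exact lt_irrefl _ h9
  have e3 : ∀ᵐ x ∂g.W2.μ, x ∈ M →
      Φ j (some k) (g.Bc j x) * conj (ρ (g.Bc j x)) = φ j (g.A k x) := by
    filter_upwards [e1, e2] with x h1 h2 hx
    have h4 : t x * conj (t x) = 1 := by
      rw [Complex.mul_conj, Complex.normSq_eq_norm_sq, (h1 hx).2]; simp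
    rw [h2 hx, (h1 hx).1]
    linear_combination φ j (g.A k x) * h4
  obtain ⟨g0, mg, eg⟩ := col F o j k (f1 := fun y => Φ j (some k) y * conj (ρ y))
    ((um_bm uΦ).mul (bρ.mono hB).conj) (um_bm uφ) (hB1 _ mD) (hB _ mD')
    (e3.mono fun x hx h1 h2 => hx ⟨h1, h2⟩)
  classical
  set g1 : (g.X j).X → ℂ := fun x => if ‖g0 x‖ = 1 then g0 x else 1 with hg1
  have n1 : ∀ x, ‖g1 x‖ = 1 := fun x => by
    simp only [hg1]
    split_ifs with h
    · exact h
    · exact norm_one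
  have m1 : Measurable g1 :=
    Measurable.ite (measurableSet_eq_fun mg.norm measurable_const) mg measurable_const
  let y : Uni (g.X j).X := ⟨fun x => ⟨g1 x, mem_sphere_zero_iff_norm.2 (n1 x)⟩, m1⟩
  refine ⟨E', y, mE', sE, pE', ?_⟩
  have ug : Um g.W2.ms g.W2.μ fun x => g1 (g.π j k (g.Bc j x)) :=
    ⟨(m1.comp ((mP g j k).comp (mB o j)).measurable).aestronglyMeasurable,
      Eventually.of_forall fun x => n1 _⟩
  refine R.of g.β g.W2.μ _ (fun x => ρ (g.Bc j x)) E' hβ (um_mul u1 (um_cj ug))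
    ((F.a.bm_comp _ _ _ _ _ (mB o j) bρ).mono (hG.colB j)) mE' ?_
  filter_upwards [EM, eg, e3, kq _ mg, u1.2, u2.2] with x h1 h2 h3 h4 h5 h6 hx
  have hx' := h1 hx
  have h7 : Φ j (some k) (g.Bc j x) * conj (ρ (g.Bc j x)) = g0 (g.π j k (g.Bc j x)) :=
    (h2 hx'.1 hx'.2).trans h4
  have h8 : g1 (g.π j k (g.Bc j x)) = g0 (g.π j k (g.Bc j x)) := by
    simp only [hg1]
    rw [if_pos]
    rw [← h7, h3 hx', h6]
  have h9 : Φ j (some k) (g.Bc j x) * conj (Φ j (some k) (g.Bc j x)) = 1 := by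
    rw [Complex.mul_conj, Complex.normSq_eq_norm_sq, h5]; simp
  show Φ j (some k) (g.Bc j x) * conj (g1 (g.π j k (g.Bc j x))) = _
  rw [h8, ← h7, map_mul, Complex.conj_conj]
  linear_combination ρ (g.Bc j x) * h9

end XRep

end T5x

end
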