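import Pool.Agent.MP_154433_an.t5.Spec
import Pool.Agent.MP_154433_an.t5.XGsp
import Pool.Agent.MP_154433_an.t5.XRep
import Pool.Agent.MP_154433_an.t3.HGX

/-! Rows `HX3`, `GSp1`, `Full`, `Rep`, `GSpU` of the saturated grid. -/

set_option autoImplicit false
set_option linter.unusedVariables false
set_option warn.classDefReducibility false

open MeasureTheory ProbabilityTheory Filter Topology Function Finset ComplexConjugate
open scoped BigOperators
open Fib27 (BM sup pr Oc Orow F23 LInd Mem)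
open Pool.Agent.MP_154433_an.SG (Uni ufn)

noncomputable section

namespace T5x

open T3x

namespace XTup

open T3x.RepL (um_bm um_mono um_mul um_cj um_pr bm_of)
open T3x.GSpURow (um_comp um_ufn um_mul_conj meas_ne ne_of_le unim)
open GxU

variable {g : Gx}

theorem lz (a : AzX) (o : g.OK) : Lz g := fun j k => (a.facZ (g.L j) (g.B j) k (o.kc j).1).le

/-- the representation for both points of a column tuple -/
theorem rep_all (rep : g.Rep) (j : Option Bool) (Φ : ∀ i, Option Bool → (g.W i).X → ℂ)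
    (E : Set g.W2.X) (hΦ : ∀ i, g.Tup1 i (Φ i)) (hE : MeasurableSet[g.β] E) (h0 : g.W2.μ E ≠ 0)
    (h1 : E ≤ᵐ[g.W2.μ] g.Bc j ⁻¹' g.Θ j (Φ j))
    (h2 : ∀ k, E ≤ᵐ[g.W2.μ] (Th g.β g.W2.μ fun x => ∏ i, Φ i k (g.Bc i x))) :
    ∃ (E' : Set g.W2.X) (u : Bool → Uni (g.X j).X), MeasurableSet[g.β] E' ∧ E' ⊆ E ∧
      g.W2.μ E' ≠ 0 ∧ ∀ k, E' ≤ᵐ[g.W2.μ] Th g.β g.W2.μ fun x =>
        Φ j (some k) (g.Bc j x) * conj (ufn (u k) (g.π j k (g.Bc j x))) := by
  obtain ⟨E1, u1, m1, s1, n1, t1⟩ := rep j true Φ E hΦ hE h0 h1 (h2 _)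
  obtain ⟨E2, u2, m2, s2, n2, t2⟩ := rep j false Φ E1 hΦ m1 n1 (s1.eventuallyLE.trans h1)
    (s1.eventuallyLE.trans (h2 _))
  refine ⟨E2, fun k => cond k u1 u2, m2, s2.trans s1, n2, fun k => ?_⟩
  cases k
  · exact t2
  · exact s2.eventuallyLE.trans t1

theorem gspU (F : Fd) (rc : Rc) (o : g.OK) (z : Lz g) (gi : g.GI) (gs : g.GSp g.Tup1)
    (fu : g.Full g.Tup1) (rep : g.Rep) : g.GSp g.TupU := by
  intro q j h hv hne
  have hβ := leβ F o
  have tp := top F o z (some q)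
  have hh : BM g.W2.μ g.W2.ms h := (dv_bm tp hv).mono (tp j)
  obtain ⟨φ, hφ, h0⟩ := gs q j h hv hne
  obtain ⟨j1, a, -, ha, -, ea⟩ := hv
  have uφ : ∀ k, Um g.W2.ms g.W2.μ fun x => φ k (g.Bc j x) := fun k =>
    um_comp (mB o j) (tup_um F o z hφ k)
  have mΘ : MeasurableSet[g.β] (g.Bc j ⁻¹' g.Θ j φ) := th_meas rc gi j φ
  have mE0 := mΘ.inter (meas_ne g.β g.W2.μ fun y => h y * φ (some q) (g.Bc j y))
  have hP : BM g.W2.μ g.W2.ms (pr a (univ.erase j)) := BM.pr fun k _ => (ha k).mono (tp k)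
  have e0 : g.W2.μ[fun y => h y * φ (some q) (g.Bc j y) | g.β] =ᵐ[g.W2.μ]
      g.W2.μ[fun y => φ (some q) (g.Bc j y) * pr a (univ.erase j) y | g.β] := by
    have e1 := (condExp_congr_ae (m := g.β) (Fib27.ce_mul' (tp j) hP
      (um_bm (um_col F o gi hφ (some q)))).symm).trans (condExp_condExp_of_le le_sup_right (tp j))
    refine EventuallyEq.trans (condExp_congr_ae ?_) (e1.trans (condExp_congr_ae
      (Eventually.of_forall fun y => mul_comm _ _)))
    filter_upwards [ea] with y hy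
    rw [hy]
  obtain ⟨E1, Φ, m1, s1, n1, hΦ, hj, t1, t2⟩ := fu q j φ _ a hφ mE0
    Set.inter_subset_left.eventuallyLE ha (ne_of_le h0 (by
      filter_upwards [e0] with x hx hm
      refine ⟨hm, ?_⟩
      show _ ≠ 0
      rw [← hx]
      exact hm.2))
  obtain ⟨E, u, mE, sE, nE, tE⟩ := rep_all rep j Φ E1 hΦ m1 n1 (t1 j) t2
  rw [hj] at tE
  let ψ : Option Bool → (g.W j).X → ℂ := fun k =>
    k.elim (φ none) fun k' w => ufn (u k') (g.π j k' w)
  have hψ : g.TupU j ψ := ⟨⟨u, fun _ => rfl⟩, hφ none⟩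
  have ug : ∀ k, Um g.W2.ms g.W2.μ fun x => ψ k (g.Bc j x) := fun k =>
    um_comp (mB o j) (tup_um F o z (tupU1 g j ψ hψ) k)
  have uu := fun k => um_mul_conj (uφ k) (ug k)
  have tE' : ∀ k, E ≤ᵐ[g.W2.μ] Th g.β g.W2.μ fun x => φ k (g.Bc j x) * conj (ψ k (g.Bc j x)) := by
    rintro (_ | k)
    · refine rc.of g.β g.W2.μ _ (fun _ => 1) E hβ (uu none) (BM.const 1) mE ?_
      filter_upwards [(uφ none).2] with x hx _
      show φ none (g.Bc j x) * conj (φ none (g.Bc j x)) = 1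
      rw [Complex.mul_conj, Complex.normSq_eq_norm_sq, hx]; simp
    · exact tE k
  set t : Option Bool → g.W2.X → ℂ := fun k x =>
    conj ((g.W2.μ[fun x => φ k (g.Bc j x) * conj (ψ k (g.Bc j x)) | g.β]) x) with ht
  have bt : ∀ k, BM g.W2.μ g.β (t k) := fun k => ((um_bm (uu k)).ce g.β).conj
  have key : ∀ k, ∀ᵐ x ∂g.W2.μ, x ∈ E →
      ψ k (g.Bc j x) = t k x * φ k (g.Bc j x) ∧ ‖t k x‖ = 1 := by
    intro k
    filter_upwards [tE' k, rc.eq g.β g.W2.μ _ hβ (uu k), (uφ k).2] with x a1 a2 a3 hx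
    have a4 := a1 hx
    refine ⟨unim a3 (a2 a4), ?_⟩
    rw [ht]
    simp only [Complex.norm_conj]
    exact a4
  have l1 := rc.loc g.β g.W2.μ (fun y => h y * ψ (some q) (g.Bc j y))
    (fun y => h y * φ (some q) (g.Bc j y))
    (t (some q)) E hβ (hh.mul (um_bm (ug _))) (hh.mul (um_bm (uφ _))) (bt _) mE (by
      filter_upwards [key (some q)] with x hx hE
      rw [(hx hE).1]; ring)
  have bφ : BM (g.W j).μ (g.W j).ms (pr φ univ) := BM.pr fun k _ => um_bm (tup_um F o z hφ k)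
  have bψ : BM (g.W j).μ (g.W j).ms (pr ψ univ) :=
    BM.pr fun k _ => um_bm (tup_um F o z (tupU1 g j ψ hψ) k)
  have l2 := rc.loc g.β g.W2.μ (fun y => pr ψ univ (g.Bc j y))
    (fun y => pr φ univ (g.Bc j y)) (pr t univ) E hβ
    (BM.pr (ρ := fun k x => ψ k (g.Bc j x)) fun k _ => um_bm (ug k))
    (BM.pr (ρ := fun k x => φ k (g.Bc j x)) fun k _ => um_bm (uφ k))
    (BM.pr fun k _ => bt k) mE (by
      filter_upwards [ae_all_iff.2 key] with x hx hE
      simp only [pr, ← prod_mul_distrib]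
      exact prod_congr rfl fun k _ => (hx k hE).1)
  refine ⟨ψ, hψ, ne_of_le nE ?_⟩
  filter_upwards [l1, l2, ae_all_iff.2 key, gi.colE j _ bφ, gi.colE j _ bψ] with
    x a1 a2 a3 a4 a5 hE
  have hx := s1 (sE hE)
  refine ⟨?_, ?_⟩
  · have b1 : ‖((g.W j).μ[pr φ univ | g.B2 j]) (g.Bc j x)‖ = 1 := hx.1
    show ‖((g.W j).μ[pr ψ univ | g.B2 j]) (g.Bc j x)‖ = 1
    rw [← a5, a2 hE, a4, norm_mul, b1, mul_one]
    simp only [pr, norm_prod]
    exact prod_eq_one fun k _ => (a3 k hE).2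
  · show (g.W2.μ[fun y => h y * ψ (some q) (g.Bc j y) | g.β]) x ≠ 0
    rw [a1 hE]
    refine mul_ne_zero (fun hz => ?_) hx.2
    have := (a3 (some q) hE).2
    rw [hz, norm_zero] at this
    exact zero_ne_one this

end XTup

theorem gsp1R5 : GSp1R5 := fun F a rc sel _ g o gi hg =>
  XGsp.gsp1 F rc sel o (XTup.lz a o) gi hg

theorem fullR5 : FullR5 := fun F a rc _ g C o gi hg hC gs =>
  XGsp.full F rc o (XTup.lz a o) gi hg hC gs

theorem repR5 : RepR5 := fun F a rc sel apx g o gi fu =>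
  XRep.rep F rc sel apx o (XTup.lz a o) gi fu

theorem gspUR5 : GSpUR5 := fun F a rc g o gi _ gs fu rep =>
  XTup.gspU F rc o (XTup.lz a o) gi gs fu rep

end T5x

end
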