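import Pool.Agent.MP_154433_an.t3.DetX
import Pool.Agent.MP_154433_an.p5a.B
import Pool.Agent.MP_154433_an.t5.RAll
import Pool.Agent.MP_154433_an.t5.Sec5
import Pool.Agent.MP_154433_an.t5.XAz
import Pool.Agent.MP_154433_an.t5.XTh
import Pool.Agent.MP_154433_an.t5.XLI
import Pool.Agent.MP_154433_an.t5.XCol
import Pool.Agent.MP_154433_an.t5.XGI
import Pool.Agent.MP_154433_an.t5.XR2P
import Pool.Agent.MP_154433_an.t5.XF2
import Pool.Agent.MP_154433_an.t5.XSat
import Pool.Agent.MP_154433_an.t5.XCore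
import Pool.Agent.MP_154433_an.t5.XEx
import Pool.Agent.MP_154433_an.t5.XOk
import Pool.Agent.MP_154433_an.t5.XGxI
import Pool.Agent.MP_154433_an.t5.XF3
import Pool.Agent.MP_154433_an.t5.XHG
import Pool.Agent.MP_154433_an.t5.XHX
import Pool.Agent.MP_154433_an.t5.XTup
import Pool.Agent.MP_154433_an.t5.XF4
import Pool.Agent.MP_154433_an.t5.XT5
import Pool.Agent.MP_154433_an.t5.XCL

/-! The core theorem: two points and the twists are independent over the internal base. -/

set_option autoImplicit false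

namespace T5x

open T3x

theorem s14 : Sec14 :=
  sec14_of fdX (rc basX) (sel basX (rc basX)) (apx basX (rc basX)) (satA fdX) (pairX fdX)
    (azR fdX) ggz azX thC liR colR giR5 r2pR5 f2R5 satR5 coreR exR okR gxiR f3R5 hg3R hx3R gsp1R5
    fullR5 repR5 gspUR5 f4R t5R5 clR flxR

theorem step5 : Step5 := fun c hs hf => by
  obtain ⟨g, hg⟩ := s14.t5 c hs hf
  exact T5g.sec5 fdX (rc basX) (satA fdX) ind2 (pairX fdX) (azR fdX) s14.sat s14.flx
    (passX fdX (rc basX)) Pool.Agent.MP_154433_an.T4A.T5B.algS2 c g (s14.cl c hs) hg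

theorem coreS : CoreS := s14.core step5

theorem coreAll (ν : Wt) (hν : UW ν) : CoreF ν := coreFX fdX coreS ν hν

end T5x
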