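import Pool.Agent.MP_154433_an.t5.SpecR

/-! Row Az: calculus of the twist families and of the third slot. -/

set_option autoImplicit false
set_option linter.unusedVariables false
set_option warn.classDefReducibility false

open MeasureTheory ProbabilityTheory Filter Topology Function Finset ComplexConjugate
open scoped BigOperators
open Fib27 (BM sup pr Oc Orow F23 LInd Mem)

noncomputable section

namespace T5x

open T3x

namespace Az

theorem ee_add (s t : ℝ) : ee (s + t) = ee s * ee t := by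
  rw [ee, ee, ee, ← Complex.exp_add]
  congr 1
  push_cast
  ring

theorem ee_zero : ee 0 = 1 := by simp [ee]

theorem norm_ee (t : ℝ) : ‖ee t‖ = 1 := Complex.norm_exp_ofReal_mul_I _

theorem conj_ee (t : ℝ) : conj (ee t) = ee (-t) := by
  rw [ee, ee, ← Complex.exp_conj, map_mul, Complex.conj_ofReal, Complex.conj_I]
  congr 1
  push_cast
  ring

theorem cont_ee : Continuous ee := by
  unfold ee
  fun_prop

variable {Ω : Type} [m : MeasurableSpace Ω]

theorem fam {F : Lab × Ω → ℂ} (hF : F ∈ Tw Ω) : F ∈ FamS m := by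
  obtain ⟨g, b, hg, hb, ⟨C, hC⟩, rfl⟩ := hF
  refine ⟨fun l => (hg l.1).mul (cont_ee.measurable.comp ((hb l.1).const_mul
    ((l.2.1 - l.2.2 : ℤ) : ℝ))), C, fun s => ?_⟩
  rw [norm_mul, norm_ee, mul_one]
  exact hC _ _

theorem one : (fun _ => (1 : ℂ)) ∈ Tw Ω :=
  ⟨fun _ _ => 1, fun _ _ => 0, fun _ => measurable_const, fun _ => measurable_const,
    ⟨1, fun _ _ => by simp⟩, funext fun s => by simp [ee_zero]⟩

theorem mul {F G : Lab × Ω → ℂ} (hF : F ∈ Tw Ω) (hG : G ∈ Tw Ω) :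
    (fun s => F s * G s) ∈ Tw Ω := by
  obtain ⟨g, b, hg, hb, ⟨C, hC⟩, rfl⟩ := hF
  obtain ⟨g', b', hg', hb', ⟨C', hC'⟩, rfl⟩ := hG
  refine ⟨fun M x => g M x * g' M x, fun M x => b M x + b' M x, fun M => (hg M).mul (hg' M),
    fun M => (hb M).add (hb' M), ⟨C * C', fun M x => ?_⟩, funext fun s => ?_⟩
  · rw [norm_mul]
    exact mul_le_mul (hC _ _) (hC' _ _) (norm_nonneg _) ((norm_nonneg _).trans (hC M x))
  · simp only [mul_add, ee_add]
    ring

theorem cj {F : Lab × Ω → ℂ} (hF : F ∈ Tw Ω) : (fun s => conj (F s)) ∈ Tw Ω := by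
  obtain ⟨g, b, hg, hb, ⟨C, hC⟩, rfl⟩ := hF
  refine ⟨fun M x => conj (g M x), fun M x => -b M x,
    fun M => Complex.continuous_conj.measurable.comp (hg M), fun M => (hb M).neg,
    ⟨C, fun M x => by simpa using hC M x⟩, funext fun s => ?_⟩
  simp only [map_mul, conj_ee, mul_neg]

theorem comp {Ω' : Type} [m' : MeasurableSpace Ω'] {p : Ω' → Ω} (hp : Measurable p)
    {F : Lab × Ω → ℂ} (hF : F ∈ Tw Ω) : (fun z : Lab × Ω' => F (z.1, p z.2)) ∈ Tw Ω' := by
  obtain ⟨g, b, hg, hb, ⟨C, hC⟩, rfl⟩ := hF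
  exact ⟨fun M x => g M (p x), fun M x => b M (p x), fun M => (hg M).comp hp,
    fun M => (hb M).comp hp, ⟨C, fun M x => hC _ _⟩, rfl⟩

variable {ν : Wt} {U : Ultrafilter ℕ} {X : Sys}

theorem gen_le (L : Ln ν U X) : gen (Tw X.X) L.hat ≤ L.W.ms :=
  LfBx.gen_le _ fun F hF => LfBx.hat_meas L (fam hF)

theorem facP (fd : Fd) (L : Ln ν U X) : Fac L.W (PZ L) := by
  have hb := fd.t.bot L.W
  have key : ∀ n : ℤ, (∀ F ∈ FamS X.ms, ∀ w, L.hat F (L.W.Tz n w) =
      L.hat (fun s => F (s.1, X.Tz n s.2)) w) → (PZ L).comap (L.W.Tz n) ≤ PZ L := by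
    intro n hn
    unfold PZ
    rw [MeasurableSpace.comap_sup]
    refine sup_le_sup ?_ (fd.t.inv L.W _ n hb).le
    refine MeasurableSpace.comap_le_iff_le_map.2 (LfBx.gen_le _ fun F hF => ?_)
    have h1 : Measurable[gen (Tw X.X) L.hat] (L.hat fun s => F (s.1, X.Tz n s.2)) :=
      LfBx.gen_meas _ (comp (fd.t.mp X n).measurable hF)
    have h2 : (L.hat fun s => F (s.1, X.Tz n s.2)) = L.hat F ∘ L.W.Tz n :=
      funext fun w => (hn F (fam hF) w).symm
    rw [h2] at h1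
    exact h1
  refine ⟨sup_le (gen_le L) (fd.a.nul_le _), le_sup_right, key 1 fun F hF w => ?_,
    key (-1) fun F hF w => ?_⟩
  · simp only [fd.t.one]
    exact (L.eqv F hF w).symm
  · have h1 := L.eqv _ (LfBx.fam_tz fd.t (fd.t.top X) hF fun _ => -1) (L.W.Tz (-1) w)
    have h2 : ∀ (Y : Sys) (y : Y.X), Y.Tz (-1) (Y.T y) = y := fun Y y => by
      rw [← fd.t.one, ← fd.t.add, neg_add_cancel, fd.t.zero]
    have h3 : L.W.T (L.W.Tz (-1) w) = w := by
      rw [← fd.t.one, ← fd.t.add, add_neg_cancel, fd.t.zero]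
    simp only [h2, h3] at h1
    exact h1

theorem facS (fd : Fd) (L : Ln ν U X) {B : MeasurableSpace X.X} (hB : Fac X B) :
    Fac L.W (AS L B) := fd.t.fsup _ _ _ (facP fd L) (fd.lb.fac L B hB)

theorem liftP (fd : Fd) {X' : Sys} (L' : Ln ν U X') (L : Ln ν U X) (p : X'.X → X.X)
    (Lp : L'.W.X → L.W.X) (hp : Emb X' X p) (h : IsLift L' L p Lp) :
    pull L'.W.μ Lp (PZ L) ≤ PZ L' := by
  refine sup_le ?_ le_sup_right
  rw [PZ, MeasurableSpace.comap_sup]
  refine sup_le ?_ (le_sup_of_le_right ?_)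
  · simp only [gen, MeasurableSpace.comap_iSup, MeasurableSpace.comap_comp]
    refine iSup₂_le fun F hF => ?_
    rintro _ ⟨E, hE, rfl⟩
    have F0 := fam hF
    refine (fd.a.mem _ L'.W.μ (gen_le L') _).2 ⟨((LfBx.hat_meas L F0).comp h.emb.mp.measurable) hE,
      _, LfBx.gen_meas L'.hat (comp hp.mp.measurable hF) hE, ?_⟩
    refine eventuallyEq_set.2 ((h.hat F F0).mono fun w hw => ?_)
    simp only [Set.mem_preimage, Function.comp_apply] at hw ⊢
    rw [hw]
  · rw [nul, MeasurableSpace.comap_generateFrom]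
    refine MeasurableSpace.generateFrom_mono ?_
    rintro _ ⟨A, ⟨h1, h2⟩, rfl⟩
    exact ⟨h.emb.mp.measurable h1, by rw [h.emb.mp.measure_preimage h1.nullMeasurableSet, h2]⟩

theorem perp (fd : Fd) (L : Ln ν U X) {B : MeasurableSpace X.X} (hB : Fac X B) {g : L.W.X → ℂ}
    (hg : BM L.W.μ L.W.ms g)
    (h : ∀ F ∈ @Tw X.X X.ms, ∀ G ∈ FamS B, ∫ w, g w * (L.hat F w * L.hat G w) ∂L.W.μ = 0) :
    L.W.μ[g | AS L B] =ᵐ[L.W.μ] 0 := by
  let T : Set (L.W.X → ℂ) := {φ | ∃ F ∈ @Tw X.X X.ms, ∃ G ∈ FamS B, φ = fun w => L.hat F w * L.hat G w}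
  have fm : ∀ {G}, G ∈ FamS B → G ∈ FamS X.ms := fun hG => LfBx.fam_mono hB.le hG
  have k := fd.d.perp L.W.μ T ?_ ?_ ?_ ?_ g hg.integrable ?_
  · have e : gen T id ⊔ nul L.W.μ = AS L B := by
      refine le_antisymm (sup_le (LfBx.gen_le _ ?_) (le_sup_of_le_left le_sup_right))
        (sup_le (sup_le_sup_right (LfBx.gen_le _ fun F hF => ?_) _)
          (sup_le_sup_right (LfBx.gen_le _ fun G hG => ?_) _))
      · rintro _ ⟨F, hF, G, hG, rfl⟩
        exact ((LfBx.gen_meas L.hat hF).mono (le_sup_of_le_left le_sup_left) le_rfl).mul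
          ((LfBx.hat_shp L hG).mono le_sup_right le_rfl)
      · exact LfBx.gen_meas (A := T) id ⟨F, hF, _, LfBx.fam_const B 1,
          funext fun w => by rw [(L.ch w).const 1, mul_one]⟩
      · exact LfBx.gen_meas (A := T) id ⟨_, one (m := X.ms), G, hG,
          funext fun w => by rw [(L.ch w).const 1, one_mul]⟩
    rwa [e] at k
  · rintro _ ⟨F, hF, G, hG, rfl⟩
    obtain ⟨h1, C, hC⟩ := LfBx.hat_bdd L (fam (m := X.ms) hF)
    obtain ⟨h2, C', hC'⟩ := LfBx.hat_bdd L (fm hG)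
    refine ⟨h1.mul h2, C * C', fun w => ?_⟩
    rw [norm_mul]
    exact mul_le_mul (hC _) (hC' _) (norm_nonneg _) ((norm_nonneg _).trans (hC w))
  · exact ⟨_, ⟨_, one (m := X.ms), _, LfBx.fam_const B 1, rfl⟩,
      Eventually.of_forall fun w => by simp only [(L.ch w).const 1, mul_one]⟩
  · rintro _ ⟨F, hF, G, hG, rfl⟩ _ ⟨F', hF', G', hG', rfl⟩
    refine ⟨_, ⟨_, mul (m := X.ms) hF hF', _, LfBx.fam_mul hG hG', rfl⟩, Eventually.of_forall fun w => ?_⟩
    simp only [(L.ch w).mul _ (fam (m := X.ms) hF) _ (fam (m := X.ms) hF'), (L.ch w).mul _ (fm hG) _ (fm hG')]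
    ring
  · rintro _ ⟨F, hF, G, hG, rfl⟩
    refine ⟨_, ⟨_, cj (m := X.ms) hF, _, LfBx.fam_cj hG, rfl⟩, Eventually.of_forall fun w => ?_⟩
    simp only [(L.ch w).cj _ (fam (m := X.ms) hF), (L.ch w).cj _ (fm hG), map_mul]
  · rintro _ ⟨F, hF, G, hG, rfl⟩
    exact h F hF G hG

end Az

theorem azR : AzR := fun fd =>
  { fam := fun F hF => Az.fam hF
    one := Az.one
    mul := fun F hF G hG => Az.mul hF hG
    cj := fun F hF => Az.cj hF
    comp := fun p hp F hF => Az.comp hp hF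
    facP := fun L => Az.facP fd L
    facS := fun L B hB => Az.facS fd L hB
    kc := fun L B hB => fd.h.kc _ _ L.nice (Az.facS fd L hB)
    leS := fun L B => fd.h.le _ _
    shp := fun L B => le_sup_right.trans (fd.h.le _ (AS L B))
    b2 := fun L B => fd.h.mono _ _ _ le_sup_right
    mono := fun L B B' h => fd.h.mono _ _ _ (sup_le_sup_left (fd.lb.mono L B B' h) _)
    bm := fun L F hF => (LfBx.hat_bm L (Az.fam hF)).of_aesm
      (Measurable.stronglyMeasurable (mα := PZ L)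
        ((LfBx.gen_meas L.hat hF).mono le_sup_left le_rfl)).aestronglyMeasurable
    liftP := fun L' L p Lp hp h => Az.liftP fd L' L p Lp hp h
    lift := fun L' L p Lp B B' hp h hB hB' hle =>
      (fd.h.fn _ _ Lp _ L'.nice L.nice h.emb (Az.facS fd L hB)).trans (fd.h.mono _ _ _ (by
        rw [AS, fd.a.pull_sup]
        exact sup_le_sup (Az.liftP fd L' L p Lp hp h) (fd.la.shp L' L p Lp B B' hp h hB hB' hle)))
    perp := fun L B hB g hg h => Az.perp fd L hB hg h }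

end T5x

end
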