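import Pool.Agent.MP_154433_an.t5.DefsR
import Pool.Agent.MP_154433_an.t3.SpecG
import Pool.Agent.MP_154433_an.t3.Ind2
import Pool.Agent.MP_154433_an.t3.LfB

/-! Statements of the rows for the items 0, 6, 7 (note 154433_WW_h1). -/

set_option autoImplicit false
set_option linter.unusedVariables false
set_option warn.classDefReducibility false

open MeasureTheory ProbabilityTheory Filter Topology Function Finset ComplexConjugate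
open scoped BigOperators
open Fib27 (BM sup pr Oc Orow F23 LInd Mem)
open Pool.Agent.MP_154433_an.SG (Uni ufn)

noncomputable section

namespace T5x

open T3x

/-! ### the twist slot -/

/-- calculus of the twist families and of the third slot -/
structure AzC : Prop where
  fam : ∀ {Ω : Type} [m : MeasurableSpace Ω], ∀ F ∈ Tw Ω, F ∈ FamS m
  one : ∀ {Ω : Type} [m : MeasurableSpace Ω], (fun _ => (1 : ℂ)) ∈ Tw Ω
  mul : ∀ {Ω : Type} [m : MeasurableSpace Ω], ∀ F ∈ Tw Ω, ∀ G ∈ Tw Ω, (fun s => F s * G s) ∈ Tw Ω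
  cj : ∀ {Ω : Type} [m : MeasurableSpace Ω], ∀ F ∈ Tw Ω, (fun s => conj (F s)) ∈ Tw Ω
  comp : ∀ {Ω Ω' : Type} [m : MeasurableSpace Ω] [m' : MeasurableSpace Ω'] (p : Ω' → Ω),
    Measurable p → ∀ F ∈ Tw Ω, (fun z : Lab × Ω' => F (z.1, p z.2)) ∈ Tw Ω'
  facP : ∀ {ν U} {X : Sys} (L : Ln ν U X), Fac L.W (PZ L)
  facS : ∀ {ν U} {X : Sys} (L : Ln ν U X) B, Fac X B → Fac L.W (AS L B)
  kc : ∀ {ν U} {X : Sys} (L : Ln ν U X) B, Fac X B → KC L.W (AZ L B)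
  leS : ∀ {ν U} {X : Sys} (L : Ln ν U X) B, AS L B ≤ AZ L B
  shp : ∀ {ν U} {X : Sys} (L : Ln ν U X) B, L.shp B ≤ AZ L B
  b2 : ∀ {ν U} {X : Sys} (L : Ln ν U X) B, L.B2 B ≤ AZ L B
  mono : ∀ {ν U} {X : Sys} (L : Ln ν U X) (B B' : MeasurableSpace X.X), B ≤ B' →
    AZ L B ≤ AZ L B'
  bm : ∀ {ν U} {X : Sys} (L : Ln ν U X), ∀ F ∈ Tw X.X, BM L.W.μ (PZ L) (L.hat F)
  liftP : ∀ {ν U} {X' X : Sys} (L' : Ln ν U X') (L : Ln ν U X) p Lp, Emb X' X p →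
    IsLift L' L p Lp → pull L'.W.μ Lp (PZ L) ≤ PZ L'
  lift : ∀ {ν U} {X' X : Sys} (L' : Ln ν U X') (L : Ln ν U X) p Lp B B', Emb X' X p →
    IsLift L' L p Lp → Fac X B → Fac X' B' → pull X'.μ p B ≤ B' →
    pull L'.W.μ Lp (AZ L B) ≤ AZ L' B'
  perp : ∀ {ν U} {X : Sys} (L : Ln ν U X) B, Fac X B → ∀ g, BM L.W.μ L.W.ms g →
    (∀ F ∈ @Tw X.X X.ms, ∀ G ∈ FamS B, ∫ w, g w * (L.hat F w * L.hat G w) ∂L.W.μ = 0) →
    L.W.μ[g | AS L B] =ᵐ[L.W.μ] 0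

def AzR : Prop := Fd → AzC

/-- a point of conditional mean zero is orthogonal to the twists over the internal base -/
def Pair0 : Prop :=
  ∀ (ν : Wt) (U : Ultrafilter ℕ), (U : Filter ℕ) ≤ atTop → UW ν →
    ∀ (X : Sys) (B : MeasurableSpace X.X) (L : Ln ν U X) (q : Bool), Nice X → KC X B →
    ∀ h ∈ @Bdd X.X X.ms, X.μ[h | B] =ᵐ[X.μ] 0 → ∀ F ∈ @Tw X.X X.ms,
      L.W.μ[fun w => h (L.π (zs q) w) * L.hat F w | L.shp B] =ᵐ[L.W.μ] 0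

def Pair0R : Prop := Fd → AzC → Pair0
def PairR : Prop := Fd → AzC → Pair0 → PairS
def CoreFR : Prop := Fd → AzC → CoreS → ∀ ν, UW ν → CoreF ν

/-! ### from the hull to the internal level -/

/-- a family that is stable under differences stays orthogonal to the hull -/
def HZ : Prop :=
  ∀ (Y : Sys) (C : MeasurableSpace Y.X) (α : Type) (G : α → Y.X → ℂ) (e : α → ℕ → ℝ),
    Nice Y → Fac Y C → (∀ a, BM Y.μ Y.ms (G a)) →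
    (∀ (a : α) (n : ℕ), ∃ (a' : α) (k r : Y.X → ℂ), BM Y.μ C k ∧ BM Y.μ Y.ms r ∧
      ∫ y, ‖r y‖ ∂Y.μ ≤ e a n ∧
      (fun y => G a (Y.Tz n y) * conj (G a y)) =ᵐ[Y.μ] fun y => k y * G a' y + r y) →
    (∀ a, Tendsto (fun N : ℕ => (N : ℝ)⁻¹ * ∑ n ∈ range N, e a n) atTop (𝓝 0)) →
    (∀ a, Y.μ[G a | C] =ᵐ[Y.μ] 0) → ∀ a, Y.μ[G a | hull Y C] =ᵐ[Y.μ] 0

def HZR : Prop := Fd → HZ

section Psi

variable {V : Type} [AddCommGroup V]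

/-- decay along the integers -/
def DecZ (X : Sys) (B : MeasurableSpace X.X) (sg : AddAut V) (ψ : V → X.X → ℂ) : Prop :=
  ∀ a, Tendsto (fun N : ℕ => (N : ℝ)⁻¹ *
    ∑ n ∈ range N, X.μ.real (Th B X.μ (ψ (((n : ℤ) • sg) a - a)) \ Th B X.μ (ψ a))) atTop (𝓝 0)

/-- the nontrivial part of `ψ c` on `I` -/
def off (X : Sys) (B : MeasurableSpace X.X) (ψ : V → X.X → ℂ) (I : Set X.X) (c : V) : X.X → ℂ :=
  (I \ Th B X.μ (ψ c)).indicator (ψ c)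

/-- positive twisted averages of the shifts of `c` -/
def TwP (ν : Wt) (U : Ultrafilter ℕ) (X : Sys) (B : MeasurableSpace X.X) (sg : AddAut V)
    (ψ : V → X.X → ℂ) (I : Set X.X) (c : V) : Prop :=
  ∃ δ : ℝ, 0 < δ ∧ ∀ᶠ M in (U : Filter ℕ), ∃ (β : ℤ → X.X → ℂ) (b : X.X → ℝ),
    (∀ d, Measurable[B] (β d)) ∧ (∀ d x, ‖β d x‖ ≤ 1) ∧ Measurable[X.ms] b ∧
    δ ≤ ∫ x, ‖ν.av M fun d => β d x * off X B ψ I ((d • sg) c) x * ee ((d : ℝ) * b x)‖ ∂X.μ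

end Psi

/-- a nontrivial pair that is determined by the third slot correlates with the twists -/
def Pass1 : Prop :=
  ∀ (c : Cx) (V : Type) [AddCommGroup V] (sg : AddAut V) (ψ : V → c.X.X → ℂ) (I : Set c.X.X)
    (j : Bool) (v : Bool → V), Psi c.X c.B sg ψ → PsC c.X c.B sg ψ → DecZ c.X c.B sg ψ →
    MeasurableSet I → c.X.T ⁻¹' I = I →
    c.W.μ (c.π j ⁻¹' I ∩ c.ThZ (fun w => ψ (v true) (c.π true w) * ψ (v false) (c.π false w)) ∩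
      c.Nt j (ψ (v j))) ≠ 0 →
    ∃ a a' : V, ¬ c.W.μ[fun w => off c.X c.B ψ I a (c.π j w) * ψ a' (c.π (!j) w) | AS c.L c.B]
      =ᵐ[c.W.μ] 0

def Pass2 : Prop :=
  ∀ (c : Cx) (V : Type) [AddCommGroup V] (sg : AddAut V) (ψ : V → c.X.X → ℂ) (I : Set c.X.X)
    (j : Bool) (a a' : V), Psi c.X c.B sg ψ → PsC c.X c.B sg ψ →
    MeasurableSet I → c.X.T ⁻¹' I = I →
    ¬ c.W.μ[fun w => off c.X c.B ψ I a (c.π j w) * ψ a' (c.π (!j) w) | AS c.L c.B]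
      =ᵐ[c.W.μ] 0 → TwP c.ν c.U c.X c.B sg ψ I a

def Pass1R : Prop := Fd → Rc → AzC → HZ → Pass1
def Pass2R : Prop := Fd → Rc → AzC → Pass2

/-! ### dissociated families -/

/-- characters of the fibres of `B` -/
structure Chr {Ω V : Type} [AddCommGroup V] (B : MeasurableSpace Ω) {m0 : MeasurableSpace Ω}
    (μ : Measure Ω) (ψ : V → Ω → ℂ) : Prop where
  le : B ≤ m0
  um : ∀ v, Um m0 μ (ψ v)
  add : ∀ v v', ψ (v + v') =ᵐ[μ] fun x => ψ v x * ψ v' x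
  neg : ∀ v, ψ (-v) =ᵐ[μ] fun x => conj (ψ v x)
  zero : ψ 0 =ᵐ[μ] fun _ => 1
  onn : ∀ v, ∀ᵐ x ∂μ, ‖(μ[ψ v | B]) x‖ = 0 ∨ ‖(μ[ψ v | B]) x‖ = 1

/-- the exponential moment of a dissociated sum -/
def Mgf : Prop :=
  ∀ (Ω V : Type) [AddCommGroup V] (B : MeasurableSpace Ω) (m0 : MeasurableSpace Ω)
    (μ : Measure Ω) [IsProbabilityMeasure μ] (ψ : V → Ω → ℂ) (v : ℤ → V) (S : Finset ℤ)
    (E : Set Ω) (a : ℤ → Ω → ℂ) (w : ℤ → ℝ), Chr B μ ψ → MeasurableSet[B] E →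
    (∀ x ∈ E, Dis (fun u => x ∈ Th B μ (ψ u)) v S) → (∀ d, Measurable[B] (a d)) →
    (∀ d x, ‖a d x‖ ≤ w d) →
    ∫ x in E, Real.exp (∑ d ∈ S, a d x * ψ (v d) x).re ∂μ ≤
      μ.real E * Real.exp ((∑ d ∈ S, w d ^ 2) / 2)

/-- the tail of a dissociated sum -/
def Tail : Prop :=
  ∀ (Ω V : Type) [AddCommGroup V] (B : MeasurableSpace Ω) (m0 : MeasurableSpace Ω)
    (μ : Measure Ω) [IsProbabilityMeasure μ] (ψ : V → Ω → ℂ) (v : ℤ → V) (S : Finset ℤ)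
    (E : Set Ω) (a : ℤ → Ω → ℂ) (w : ℤ → ℝ) (s t : ℝ), Chr B μ ψ → MeasurableSet[B] E →
    (∀ x ∈ E, Dis (fun u => x ∈ Th B μ (ψ u)) v S) → (∀ d, Measurable[B] (a d)) →
    (∀ d x, ‖a d x‖ ≤ w d) → 0 < s → ∑ d ∈ S, w d ^ 2 ≤ s → 0 ≤ t →
    μ.real (E ∩ {x | t ≤ ‖∑ d ∈ S, a d x * ψ (v d) x‖}) ≤
      4 * μ.real E * Real.exp (-(t ^ 2 / (8 * s)))

/-- the same for all frequencies and for a union of dissociated sets -/
def SupT : Prop :=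
  ∀ (Ω V : Type) [AddCommGroup V] (B : MeasurableSpace Ω) (m0 : MeasurableSpace Ω)
    (μ : Measure Ω) [IsProbabilityMeasure μ] (ψ : V → Ω → ℂ) (v : ℤ → V) (K : ℕ)
    (S : Fin K → Finset ℤ) (sp : Finset ℤ) (E : Set Ω) (a : ℤ → Ω → ℂ) (w : ℤ → ℝ) (b : Ω → ℝ)
    (a0 : ℤ) (n Q : ℕ) (s t : ℝ), Chr B μ ψ → MeasurableSet[B] E →
    (∀ x ∈ E, ∀ i, Dis (fun u => x ∈ Th B μ (ψ u)) v (S i)) → (∀ d, Measurable[B] (a d)) →
    (∀ d x, ‖a d x‖ ≤ w d) → (∀ d ∈ sp, a0 ≤ d ∧ d < a0 + n) → ∑ d ∈ sp, w d ≤ 1 →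
    (∀ d ∈ sp, w d ≤ s) → 0 < s → 0 ≤ t → 0 < Q →
    μ.real (E ∩ {x | K * t + 7 * n / Q < ‖∑ d ∈ sp.filter (fun d => ∃ i, d ∈ S i),
        a d x * ψ (v d) x * ee ((d : ℝ) * b x)‖}) ≤
      4 * K * Q * μ.real E * Real.exp (-(t ^ 2 / (8 * s)))

/-- the same on the event that the labels are covered -/
def CovT : Prop :=
  ∀ (Ω V : Type) [AddCommGroup V] (B : MeasurableSpace Ω) (m0 : MeasurableSpace Ω)
    (μ : Measure Ω) [IsProbabilityMeasure μ] (ψ : V → Ω → ℂ) (v : ℤ → V) (K : ℕ)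
    (sp : Finset ℤ) (a : ℤ → Ω → ℂ) (w : ℤ → ℝ) (b : Ω → ℝ)
    (a0 : ℤ) (n Q : ℕ) (s t ε : ℝ), Chr B μ ψ → (∀ d, Measurable[B] (a d)) →
    (∀ d x, ‖a d x‖ ≤ w d) → (∀ d x, x ∈ Th B μ (ψ (v d)) → a d x = 0) →
    (∀ d ∈ sp, a0 ≤ d ∧ d < a0 + n) → ∑ d ∈ sp, w d ≤ 1 →
    (∀ d ∈ sp, w d ≤ s) → 0 < s → 0 ≤ t → 0 < Q →
    MeasurableSet[B] {x | Cov (fun u => x ∈ Th B μ (ψ u)) v sp w K ε} ∧
    μ.real ({x | Cov (fun u => x ∈ Th B μ (ψ u)) v sp w K ε} ∩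
      {x | K * t + 7 * n / Q + ε < ‖∑ d ∈ sp, a d x * ψ (v d) x * ee ((d : ℝ) * b x)‖}) ≤
      4 * K * Q * Real.exp (-(t ^ 2 / (8 * s)))

/-- positive twisted averages force many relations -/
def Rud : Prop :=
  ∀ (ν : Wt) (U : Ultrafilter ℕ) (X : Sys) (B : MeasurableSpace X.X) (V : Type) [AddCommGroup V]
    (sg : AddAut V) (ψ : V → X.X → ℂ) (I : Set X.X) (c : V), (U : Filter ℕ) ≤ atTop → UW ν →
    Fac X B → Psi X B sg ψ → PsC X B sg ψ → MeasurableSet[B] I → TwP ν U X B sg ψ I c →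
    Rel2 ν U X sg (fun u => Th B X.μ (ψ u)) I c

def TailR : Prop := Mgf → Tail
def SupR : Prop := Tail → SupT
def CovR : Prop := SupT → CovT
def RudR : Prop := CovT → Rud

/-- the output of the items 6 and 7 -/
def Pass : Prop :=
  ∀ (c : Cx) (V : Type) [AddCommGroup V] (sg : AddAut V) (ψ : V → c.X.X → ℂ) (I : Set c.X.X)
    (j : Bool) (v : Bool → V), Psi c.X c.B sg ψ → MeasurableSet I → c.X.T ⁻¹' I = I →
    c.W.μ (c.π j ⁻¹' I ∩ c.ThZ (fun w => ψ (v true) (c.π true w) * ψ (v false) (c.π false w)) ∩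
      c.Nt j (ψ (v j))) ≠ 0 →
    ∃ a : V, Rel2 c.ν c.U c.X sg (fun u => Th c.B c.X.μ (ψ u)) I a

end T5x

end
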