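import Pool.Agent.MP_154433_an.t5.GGz
import Pool.Agent.MP_154433_an.t5.SpecG

/-! Definitions for sections 1 to 4: three slots, the saturated grid, tuples. -/

set_option autoImplicit false
set_option linter.unusedVariables false
set_option warn.classDefReducibility false

open MeasureTheory ProbabilityTheory Filter Topology Function Finset ComplexConjugate
open scoped BigOperators
open Fib27 (BM sup pr Oc Orow F23 LInd Mem)
open Pool.Agent.MP_154433_an.SG (Uni ufn)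

noncomputable section

namespace T5x

open T3x

/-- the three slots: two points and the twists (`none`) -/
abbrev I3 : Type := Option Bool

variable {ν : Wt} {U : Ultrafilter ℕ}

/-- the sigma-algebras of the three slots -/
def Pz {X : Sys} (L : Ln ν U X) (B : MeasurableSpace X.X) : I3 → MeasurableSpace L.W.X
  | some q => L.P (zs q)
  | none => AZ L B

/-- independence on one line -/
structure LI {X : Sys} (L : Ln ν U X) (B : MeasurableSpace X.X) : Prop where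
  line : ∀ S : Finset Bool, IndOver L B (L.B2 B) zs S
  cline : CLine (L.B2 B) (Pz L B) L.W.μ
  adm2 : ∀ q, Adm L.W (L.B2 B) X B (L.π (zs q))
  admZ : ∀ q, Adm L.W (AZ L B) X B (L.π (zs q))

/-- the conditional expectation on the rest of the line keeps the point -/
def F2L {X : Sys} (L : Ln ν U X) (B : MeasurableSpace X.X) : Prop :=
  ∀ (q : Bool) (a : L.W.X → ℂ), BM L.W.μ (L.P (zs q)) a →
    BM L.W.μ (L.P (zs q) ⊔ L.B2 B) (L.W.μ[a | OB L B q])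

namespace Cx

variable (c : Cx)

/-- independence in the two by two grid (no saturation needed) -/
structure GI : Prop where
  li : LI c.L c.B
  li2 : LI c.L2 c.B2
  col : ∀ q j, KEq c.W2.μ c.X.ms (c.π j ∘ c.A q) (c.π q ∘ c.Bc j)
  rows : CInd c.β (fun q => pull c.W2.μ (c.A q) c.W.ms) univ c.W2.μ
  cols : CInd c.β (fun j => pull c.W2.μ (c.Bc j) c.W.ms) univ c.W2.μ
  rowB : ∀ q, pull c.W2.μ (c.A q) c.B2 ≤ c.β
  colB : ∀ j, pull c.W2.μ (c.Bc j) c.B2 ≤ c.β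
  rowE : ∀ q g, BM c.W.μ c.W.ms g →
    c.W2.μ[fun x => g (c.A q x) | c.β] =ᵐ[c.W2.μ] fun x => (c.W.μ[g | c.B2]) (c.A q x)
  colE : ∀ j g, BM c.W.μ c.W.ms g →
    c.W2.μ[fun x => g (c.Bc j x) | c.β] =ᵐ[c.W2.μ] fun x => (c.W.μ[g | c.B2]) (c.Bc j x)
  pz : ∀ q, CP (c.P q) (pull c.W.μ (c.π q) c.B) c.AZ c.W.μ

/-- two columns and one row -/
def R2P : Prop := ∀ (q j k : Bool) (h Y u : c.W.X → ℂ), j ≠ k → BM c.W.μ c.W.ms h →
  BM c.W.μ c.W.ms Y → BM c.W.μ c.W.ms u → c.W.μ[h | c.P q ⊔ c.L.shp c.B] =ᵐ[c.W.μ] 0 →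
  ∫ x, h (c.Bc j x) * Y (c.Bc k x) * u (c.A q x) ∂c.W2.μ = 0

end Cx

/-! ### the saturated grid -/

/-- three columns over possibly different systems, and the line over a common extension -/
structure Gx where
  ν : Wt
  U : Ultrafilter ℕ
  X : I3 → Sys
  B : ∀ j, MeasurableSpace (X j).X
  L : ∀ j, Ln ν U (X j)
  W1 : Sys
  B1 : MeasurableSpace W1.X
  p : ∀ j, W1.X → (X j).X
  L2 : Ln ν U W1
  Bc : ∀ j, L2.W.X → (L j).W.X

namespace Gx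

variable (g : Gx)

abbrev W (j : I3) : Sys := (g.L j).W
abbrev W2 : Sys := g.L2.W
def π (j : I3) (q : Bool) : (g.W j).X → (g.X j).X := (g.L j).π (zs q)
def A (q : Bool) : g.W2.X → g.W1.X := g.L2.π (zs q)
def P1 (j : I3) : MeasurableSpace g.W1.X := pull g.W1.μ (g.p j) (g.X j).ms
def Pc (j k : I3) : MeasurableSpace (g.W j).X := Pz (g.L j) (g.B j) k
def B2 (j : I3) : MeasurableSpace (g.W j).X := (g.L j).B2 (g.B j)
def β : MeasurableSpace g.W2.X := g.L2.B2 g.B1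
/-- the cell in row `k` and column `j` -/
def G (k j : I3) : MeasurableSpace g.W2.X := pull g.W2.μ (g.Bc j) (g.Pc j k)

structure OK : Prop where
  hU : (g.U : Filter ℕ) ≤ atTop
  uw : UW g.ν
  nice : ∀ j, Nice (g.X j)
  kc : ∀ j, KC (g.X j) (g.B j)
  sat : ∀ j, SAT (g.L j) (g.B j)
  adm : ∀ j, Adm g.W1 g.B1 (g.X j) (g.B j) (g.p j)
  ind : CLine g.B1 g.P1 g.W1.μ
  lift : ∀ j, IsLift g.L2 (g.L j) (g.p j) (g.Bc j)

structure GI : Prop where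
  li : ∀ j, LI (g.L j) (g.B j)
  li2 : LI g.L2 g.B1
  col : ∀ q j, KEq g.W2.μ (g.X j).ms (g.p j ∘ g.A q) (g.π j q ∘ g.Bc j)
  grow : ∀ q j, g.G (some q) j = pull g.W2.μ (g.A q) (g.P1 j)
  gz : ∀ j, g.G none j ≤ AZ g.L2 g.B1
  cols : CLine g.β (fun j => pull g.W2.μ (g.Bc j) (g.W j).ms) g.W2.μ
  rowB : ∀ q, pull g.W2.μ (g.A q) g.B1 ≤ g.β
  colB : ∀ j, pull g.W2.μ (g.Bc j) (g.B2 j) ≤ g.β
  rowE : ∀ q f, BM g.W1.μ g.W1.ms f →
    g.W2.μ[fun x => f (g.A q x) | g.β] =ᵐ[g.W2.μ] fun x => (g.W1.μ[f | g.B1]) (g.A q x)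
  colE : ∀ j f, BM (g.W j).μ (g.W j).ms f →
    g.W2.μ[fun x => f (g.Bc j x) | g.β] =ᵐ[g.W2.μ] fun x => ((g.W j).μ[f | g.B2 j]) (g.Bc j x)

def F3 : Prop := ∀ (q : Bool) (a : I3 → g.W2.X → ℂ) (ψ : g.W2.X → ℂ),
  (∀ k, BM g.W2.μ (g.G (some q) k) (a k)) → BM g.W2.μ g.β ψ → ∀ j j',
    ∫ x, ψ x * ((g.W2.μ[a j | Oc g.G (some q) j ⊔ g.β]) x * pr a (univ.erase j) x) ∂g.W2.μ =
      ∫ x, ψ x * ((g.W2.μ[a j' | Oc g.G (some q) j' ⊔ g.β]) x * pr a (univ.erase j') x) ∂g.W2.μ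

/-- the column operator is the operator of the column line -/
def QC : Prop := ∀ (q : Bool) (j : I3) (f : (g.W j).X → ℂ), BM (g.W j).μ (g.W j).ms f →
  g.W2.μ[fun x => f (g.Bc j x) | Oc g.G (some q) j ⊔ g.β] =ᵐ[g.W2.μ]
    fun x => ((g.W j).μ[f | OB (g.L j) (g.B j) q]) (g.Bc j x)

def Tup1 (j : I3) (φ : I3 → (g.W j).X → ℂ) : Prop :=
  ∀ k, Um (g.Pc j k ⊔ g.B2 j) (g.W j).μ (φ k)

def Θ (j : I3) (φ : I3 → (g.W j).X → ℂ) : Set (g.W j).X := Th (g.B2 j) (g.W j).μ (pr φ univ)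

/-- tuples whose entries at the two points are functions of the points -/
def TupU (j : I3) (φ : I3 → (g.W j).X → ℂ) : Prop :=
  (∃ u : Bool → Uni (g.X j).X, ∀ q, φ (some q) = fun w => ufn (u q) (g.π j q w)) ∧
    Um (g.Pc j none ⊔ g.B2 j) (g.W j).μ (φ none)

/-- the members of the column tuples of the class span the dual functions -/
def GSp (C : ∀ j, (I3 → (g.W j).X → ℂ) → Prop) : Prop :=
  ∀ (q : Bool) (j : I3) (h : g.W2.X → ℂ), DV g.β g.G (some q) j g.W2.μ h → ¬ h =ᵐ[g.W2.μ] 0 →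
    ∃ φ, C j φ ∧ g.W2.μ (g.Bc j ⁻¹' g.Θ j φ ∩
      {x | (g.W2.μ[fun y => h y * φ (some q) (g.Bc j y) | g.β]) x ≠ 0}) ≠ 0

def Full (C : ∀ j, (I3 → (g.W j).X → ℂ) → Prop) : Prop :=
  ∀ (q : Bool) (j : I3) (φ : I3 → (g.W j).X → ℂ) (E : Set g.W2.X) (a : I3 → g.W2.X → ℂ), C j φ →
    MeasurableSet[g.β] E → E ≤ᵐ[g.W2.μ] g.Bc j ⁻¹' g.Θ j φ →
    (∀ i, BM g.W2.μ (g.G (some q) i ⊔ g.β) (a i)) →
    g.W2.μ (E ∩ {x | (g.W2.μ[fun y => φ (some q) (g.Bc j y) * pr a (univ.erase j) y | g.β]) x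
      ≠ 0}) ≠ 0 →
    ∃ (E' : Set g.W2.X) (Φ : ∀ i, I3 → (g.W i).X → ℂ), MeasurableSet[g.β] E' ∧ E' ⊆ E ∧
      g.W2.μ E' ≠ 0 ∧ (∀ i, C i (Φ i)) ∧ Φ j = φ ∧
      (∀ i, E' ≤ᵐ[g.W2.μ] g.Bc i ⁻¹' g.Θ i (Φ i)) ∧
      ∀ k, E' ≤ᵐ[g.W2.μ] Th g.β g.W2.μ fun x => ∏ i, Φ i k (g.Bc i x)

/-- a member of a column tuple that is also a member of a row tuple is a function of the point -/
def Rep : Prop := ∀ (j : I3) (k : Bool) (Φ : ∀ i, I3 → (g.W i).X → ℂ) (E : Set g.W2.X),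
  (∀ i, g.Tup1 i (Φ i)) → MeasurableSet[g.β] E → g.W2.μ E ≠ 0 →
  E ≤ᵐ[g.W2.μ] g.Bc j ⁻¹' g.Θ j (Φ j) →
  E ≤ᵐ[g.W2.μ] (Th g.β g.W2.μ fun x => ∏ i, Φ i (some k) (g.Bc i x)) →
  ∃ (E' : Set g.W2.X) (u : Uni (g.X j).X), MeasurableSet[g.β] E' ∧ E' ⊆ E ∧ g.W2.μ E' ≠ 0 ∧
    E' ≤ᵐ[g.W2.μ] Th g.β g.W2.μ fun x =>
      Φ j (some k) (g.Bc j x) * conj (ufn u (g.π j k (g.Bc j x)))

end Gx

/-- the extension of the line that carries a saturated third slot -/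
structure Ex (c : Cx) where
  Z : Sys
  C : MeasurableSpace Z.X
  niceZ : Nice Z
  kcZ : KC Z C
  LZ : Ln c.ν c.U Z
  satZ : SAT LZ C
  W1 : Sys
  B1 : MeasurableSpace W1.X
  pw : W1.X → c.W.X
  pz : W1.X → Z.X
  adm : Adm W1 B1 c.W c.B2 pw
  admz : Adm W1 B1 Z C pz
  az : pull W1.μ pw c.AZ ≤ pull W1.μ pz Z.ms
  cp : CP (pull W1.μ pw c.W.ms) (pull W1.μ pw c.AZ) (pull W1.μ pz Z.ms ⊔ B1) W1.μ
  L2 : Ln c.ν c.U W1
  Lw : L2.W.X → c.W2.X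
  lift : IsLift L2 c.L2 pw Lw
  Bz : L2.W.X → LZ.W.X
  liftz : IsLift L2 LZ pz Bz

namespace Ex

variable {c : Cx} (E : Ex c)

def XX : I3 → Sys
  | some _ => c.X
  | none => E.Z

def BB : ∀ j, MeasurableSpace (E.XX j).X
  | some _ => c.B
  | none => E.C

def LL : ∀ j, Ln c.ν c.U (E.XX j)
  | some _ => c.L
  | none => E.LZ

def pp : ∀ j, E.W1.X → (E.XX j).X
  | some q => c.π q ∘ E.pw
  | none => E.pz

def BC : ∀ j, E.L2.W.X → (E.LL j).W.X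
  | some q => c.Bc q ∘ E.Lw
  | none => E.Bz

/-- the grid of the extension -/
def gx : Gx := ⟨c.ν, c.U, E.XX, E.BB, E.LL, E.W1, E.B1, E.pp, E.L2, E.BC⟩

/-- a dual function of mean zero that does not vanish -/
def F4 : Prop := ∃ (j : Bool) (u : E.gx.W2.X → ℂ),
  DV E.gx.β E.gx.G (some j) (some j) E.gx.W2.μ u ∧ ¬ u =ᵐ[E.gx.W2.μ] 0 ∧
    E.gx.W2.μ[u | E.gx.β] =ᵐ[E.gx.W2.μ] 0

end Ex

end T5x

end
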