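import Pool.Agent.MP_154433_an.t3.Spec

/-! Common definitions for the line with an internal twist slot (note 154433_WW_h1). -/

set_option autoImplicit false
set_option linter.unusedVariables false
set_option warn.classDefReducibility false

open MeasureTheory ProbabilityTheory Filter Topology Function Finset ComplexConjugate
open scoped BigOperators
open Fib27 (BM sup pr Oc Orow F23 LInd Mem)
open Pool.Agent.MP_154433_an.SG (Uni ufn)

noncomputable section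

namespace T5x

open T3x

def ee (t : ℝ) : ℂ := Complex.exp (((2 * Real.pi * t : ℝ) : ℂ) * Complex.I)

/-- the two point slots: `zs true` carries `d1 = l.2.1`, `zs false` carries `d2 = l.2.2` -/
def zs (q : Bool) : Slot := (1, q)

/-- the twist families `g M x * e ((d1 - d2) * b M x)` -/
def Tw (Ω : Type) [MeasurableSpace Ω] : Set (Lab × Ω → ℂ) :=
  {F | ∃ (g : ℕ → Ω → ℂ) (b : ℕ → Ω → ℝ), (∀ M, Measurable (g M)) ∧ (∀ M, Measurable (b M)) ∧
    (∃ C : ℝ, ∀ M x, ‖g M x‖ ≤ C) ∧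
    F = fun s => g s.1.1 s.2 * ee (((s.1.2.1 - s.1.2.2 : ℤ) : ℝ) * b s.1.1 s.2)}

variable {ν : Wt} {U : Ultrafilter ℕ}

def PZ {X : Sys} (L : Ln ν U X) : MeasurableSpace L.W.X := gen (Tw X.X) L.hat ⊔ nul L.W.μ

/-- twists and the internal base -/
def AS {X : Sys} (L : Ln ν U X) (B : MeasurableSpace X.X) : MeasurableSpace L.W.X :=
  PZ L ⊔ L.shp B

/-- the third slot -/
def AZ {X : Sys} (L : Ln ν U X) (B : MeasurableSpace X.X) : MeasurableSpace L.W.X :=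
  hull L.W (AS L B)

/-- the rest of the line seen from the point slot `q` -/
def OB {X : Sys} (L : Ln ν U X) (B : MeasurableSpace X.X) (q : Bool) : MeasurableSpace L.W.X :=
  L.P (zs (!q)) ⊔ AZ L B

/-- the hypotheses on the weights (one scale) -/
structure UW (ν : Wt) : Prop where
  erg : ERG ν
  tw0 : ∀ (Z : Sys) (F : Z.X → ℂ) (Δ : ℕ → Z.X → ℝ), BM Z.μ Z.ms F →
    Z.μ[F | T3x.Inv Z] =ᵐ[Z.μ] 0 → (∀ M, Measurable (Δ M)) →
    Tendsto (fun M => ∫ z, ‖ν.av M fun d => F (Z.Tz d z) * ee ((d : ℝ) * Δ M z)‖ *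
      ‖ν.av M fun d => ee ((d : ℝ) * Δ M z)‖ ∂Z.μ) atTop (𝓝 0)
  atom : ∃ (a : ℕ → ℤ) (n : ℕ → ℕ), (∀ M, ∀ d ∈ ν.sp M, a M ≤ d ∧ d < a M + n M) ∧
    ∀ ε : ℝ, 0 < ε → ∀ᶠ M in atTop, ∀ d ∈ ν.sp M, ν.w M d * Real.log ((n M : ℝ) + 1) ≤ ε

/-- the two points and the twists are independent over the internal base -/
def Core {X : Sys} (L : Ln ν U X) (B : MeasurableSpace X.X) : Prop :=
  ∀ (f f' : X.X → ℂ) (F : Lab × X.X → ℂ), BM X.μ X.ms f → BM X.μ X.ms f' →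
    X.μ[f | B] =ᵐ[X.μ] 0 → F ∈ @Tw X.X X.ms →
    L.W.μ[fun w => f (L.π (zs true) w) * f' (L.π (zs false) w) * L.hat F w | L.shp B]
      =ᵐ[L.W.μ] 0

/-- the core theorem on lines -/
def CoreS : Prop :=
  ∀ (ν : Wt) (U : Ultrafilter ℕ), (U : Filter ℕ) ≤ atTop → UW ν →
    ∀ (X : Sys) (B : MeasurableSpace X.X) (L : Ln ν U X), Nice X → KC X B → Core L B

/-- the core theorem at finite level -/
def CoreF (ν : Wt) : Prop :=
  ∀ (X : Sys) (B : MeasurableSpace X.X) (f : X.X → ℂ) (β : ℕ → ℤ → X.X → ℂ) (b : ℕ → X.X → ℝ),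
    Nice X → KC X B → BM X.μ X.ms f → X.μ[f | B] =ᵐ[X.μ] 0 →
    (∀ M d, Measurable[B] (β M d)) → (∀ M d x, ‖β M d x‖ ≤ 1) →
    (∀ M, Measurable[X.ms] (b M)) →
    Tendsto (fun M => ∫ x, ‖ν.av M fun d => β M d x * f (X.Tz d x) * ee ((d : ℝ) * b M x)‖ ^ 2
      ∂X.μ) atTop (𝓝 0)

/-- uniform comparison of twisted averages (the frequency is any measurable function) -/
def UWW (ν ν' : Wt) : Prop :=
  ∀ (Y : Sys) (g : Y.X → ℂ) (b : ℕ → Y.X → ℝ), BM Y.μ Y.ms g → (∀ M, Measurable (b M)) →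
    Tendsto (fun M => ∫ y, ‖(ν.av M fun d => g (Y.Tz d y) * ee ((d : ℝ) * b M y)) -
      ν'.av M fun d => g (Y.Tz d y) * ee ((d : ℝ) * b M y)‖ ^ 2 ∂Y.μ) atTop (𝓝 0)

/-- the pairs (point, twists) are independent over the internal base, in every line -/
def PairS : Prop :=
  ∀ (ν : Wt) (U : Ultrafilter ℕ), (U : Filter ℕ) ≤ atTop → UW ν →
    ∀ (X : Sys) (B : MeasurableSpace X.X) (L : Ln ν U X) (q : Bool), Nice X → KC X B →
      CP (L.P (zs q)) (pull L.W.μ (L.π (zs q)) B) (AZ L B) L.W.μ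

/-- saturation at the two point slots -/
def SAT {X : Sys} (L : Ln ν U X) (B : MeasurableSpace X.X) : Prop :=
  ∀ (X' : Sys) (B' : MeasurableSpace X'.X) (p : X'.X → X.X) (L' : Ln ν U X')
    (Lp : L'.W.X → L.W.X), Adm X' B' X B p → IsLift L' L p Lp → ∀ (q : Bool) (f : X.X → ℂ),
    BM X.μ X.ms f →
    L'.W.μ[fun w => f (L.π (zs q) (Lp w)) | OB L' B' q] =ᵐ[L'.W.μ]
      fun w => (L.W.μ[fun v => f (L.π (zs q) v) | OB L B q]) (Lp w)

/-- the data of the core theorem: a line, the line over it, the column maps -/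
structure Cx where
  ν : Wt
  U : Ultrafilter ℕ
  hU : (U : Filter ℕ) ≤ atTop
  uw : UW ν
  X : Sys
  B : MeasurableSpace X.X
  nice : Nice X
  kc : KC X B
  L : Ln ν U X
  L2 : Ln ν U L.W
  Bc : Bool → L2.W.X → L.W.X
  lift : ∀ j, IsLift L2 L (L.π (zs j)) (Bc j)

namespace Cx

variable (c : Cx)

abbrev W : Sys := c.L.W
abbrev W2 : Sys := c.L2.W
def π (k : Bool) : c.W.X → c.X.X := c.L.π (zs k)
def A (q : Bool) : c.W2.X → c.W.X := c.L2.π (zs q)
def P (k : Bool) : MeasurableSpace c.W.X := c.L.P (zs k)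
def B2 : MeasurableSpace c.W.X := c.L.B2 c.B
def AZ : MeasurableSpace c.W.X := T5x.AZ c.L c.B
def β : MeasurableSpace c.W2.X := c.L2.B2 c.B2
def Sat : Prop := SAT c.L c.B
def Fail : Prop := ¬ Core c.L c.B

/-- the event (fibres of the base) on which `F` is determined by the third slot -/
def ThZ (F : c.W.X → ℂ) : Set c.W.X :=
  {w | (c.W.μ[fun v => ‖(c.W.μ[F | c.AZ]) v‖ | c.B2]) w = 1}

/-- the product of the two entries -/
def up (g : Bool → Uni c.X.X) : c.W.X → ℂ := fun w =>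
  ufn (g true) (c.π true w) * ufn (g false) (c.π false w)

def Θ (g : Bool → Uni c.X.X) : Set c.W.X := c.ThZ (c.up g)

/-- the event on which `g` in slot `k` is not determined by the base -/
def Nt (k : Bool) (g : c.X.X → ℂ) : Set c.W.X := {w | ‖(c.X.μ[g | c.B]) (c.π k w)‖ ≠ 1}

def T5 (g : Bool → Uni c.X.X) : Prop := ∃ j, c.W.μ (c.Θ g ∩ c.Nt j (ufn (g j))) ≠ 0

def CL : Prop := ∀ (q j k : Bool) (g h : Bool → Uni c.X.X) (Z : Set c.W.X), h q = g j →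
  MeasurableSet[c.B2] Z → (∀ g' : Bool → Uni c.X.X, g' q = g k → c.Θ g' ≤ᵐ[c.W.μ] Z) →
  (c.Bc q ⁻¹' c.Θ g ∩ c.A j ⁻¹' c.Θ h : Set c.W2.X) ≤ᵐ[c.W2.μ] c.A k ⁻¹' Z

/-- three sides of a square of tuples give the fourth; `g q j` sits in row `q`, column `j` -/
def FLX : Prop := ∀ (g : Bool → Bool → Uni c.X.X) (j : Bool),
  (c.A true ⁻¹' c.Θ (g true) ∩ c.A false ⁻¹' c.Θ (g false) ∩ c.Bc j ⁻¹' c.Θ (fun q => g q j) :
    Set c.W2.X) ≤ᵐ[c.W2.μ] c.Bc (!j) ⁻¹' c.Θ (fun q => g q (!j))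

end Cx

end T5x

end
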