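import Pool.Agent.MP_154433_an.t5.Defs0

/-! Dissociated families and the relation event. -/

set_option autoImplicit false
set_option linter.unusedVariables false
set_option warn.classDefReducibility false

open MeasureTheory ProbabilityTheory Filter Topology Function Finset ComplexConjugate
open scoped BigOperators
open Fib27 (BM sup pr Oc Orow F23 LInd Mem)
open Pool.Agent.MP_154433_an.SG (Uni ufn)

noncomputable section

namespace T5x

open T3x

section Dis

variable {V : Type} [AddCommGroup V]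

/-- the family `v` is dissociated on `S` modulo `n` -/
def Dis (n : V → Prop) (v : ℤ → V) (S : Finset ℤ) : Prop :=
  ∀ P ⊆ S, ∀ Q ⊆ S, Disjoint P Q → (P ∪ Q).Nonempty → ¬ n (∑ d ∈ P, v d - ∑ d ∈ Q, v d)

open Classical in
/-- the nontrivial labels are covered by `K` dissociated sets up to the mass `ε` -/
def Cov (n : V → Prop) (v : ℤ → V) (sp : Finset ℤ) (w : ℤ → ℝ) (K : ℕ) (ε : ℝ) : Prop :=
  ∃ S : Fin K → Finset ℤ, (∀ i, Dis n v (S i)) ∧
    ∑ d ∈ sp.filter (fun d => ¬ n (v d) ∧ ∀ i, d ∉ S i), w d ≤ ε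

/-- many labels are not covered -/
def Rel2 (ν : Wt) (U : Ultrafilter ℕ) (X : Sys) (sg : AddAut V) (N : V → Set X.X) (I : Set X.X)
    (c : V) : Prop :=
  ∃ ε : ℝ, 0 < ε ∧ ∀ K : ℕ, ∀ᶠ M in (U : Filter ℕ), ε ≤ X.μ.real
    {x | x ∈ I ∧ ¬ Cov (fun u => x ∈ N u) (fun d => (d • sg) c) (ν.sp M) (ν.w M) K ε}

end Dis

end T5x

end
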