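import Pool.Agent.MP_154433_an.t3.FSpan

/-!
FSPAN with a free row: in a grid of three rows in which nothing is known about the row `z`, the
members of column tuples span the dual functions of a point outside the row `z`.
-/

set_option autoImplicit false

open MeasureTheory ProbabilityTheory Finset Filter

namespace T5F

open Fib27 T3F

/-- F2 and F3 along the rows other than `z` -/
structure HG5 {Ω : Type} {m0 : MeasurableSpace Ω} {ι : Type} [Fintype ι] [DecidableEq ι]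
    (κ : Measure Ω) (G : ι → ι → MeasurableSpace Ω) (z : ι) : Prop where
  le : ∀ q j, G q j ≤ m0
  rows : LInd κ (fun q => sup (G q) univ)
  cols : LInd κ (fun j => sup (fun q => G q j) univ)
  fr : ∀ q, q ≠ z → F23 κ (G q) (Oc G q)

variable {Ω ι : Type} [Fintype ι] [DecidableEq ι] {m0 : MeasurableSpace Ω} {κ : Measure Ω}
  {G : ι → ι → MeasurableSpace Ω} {z : ι}

theorem HG5.oc_le (h : HG5 κ G z) (q j : ι) : Oc G q j ≤ m0 := sup_le' fun k _ => h.le k j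

theorem HG5.or_le (h : HG5 κ G z) (q j : ι) : Orow G q j ≤ m0 := sup_le' fun k _ => h.le q k

variable [IsProbabilityMeasure κ]

section mult

open K Mult

theorem HG5.mult0 (hG : HG5 κ G z) {q0 q j0 j1 : ι} (h0 : q0 ≠ z) (hz : q ≠ z) (hq : q ≠ q0) (hj : j1 ≠ j0)
    {ρ ρ' : Ω → ℂ} (hρ : BM κ (sup (fun q' => G q' j0) ((univ.erase q0).erase q)) ρ)
    (hρ' : BM κ (sup (fun q' => G q' j0) ((univ.erase q0).erase q)) ρ')
    {a1 : Ω → ℂ} (ha : BM κ (G q0 j1) a1) (ha' : BM κ (Oc G q0 j1) a1) :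
    ∃ A : Ω → ℂ, BM κ (G q0 j1) A ∧ BM κ (Oc G q0 j1) A ∧
      ∀ a : ι → Ω → ℂ, (∀ j, BM κ (G q0 j) (a j)) → (∀ j, BM κ (Oc G q0 j) (a j)) →
        ∫ ω, Cop κ (G q0 j0) (G q j0) ρ ρ' (a j0) ω * a1 ω *
            pr a ((univ.erase j0).erase j1) ω ∂κ =
          ∫ ω, a j0 ω * A ω * pr a ((univ.erase j0).erase j1) ω ∂κ := by
  set S := (univ.erase q0).erase q with hS
  set T := (univ.erase j0).erase j1 with hT
  have hS' : (univ.erase q).erase q0 = S := erase_right_comm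
  have hrow : ∀ k, sup (G k) univ ≤ m0 := fun k => sp_le _ fun j _ => hG.le k j
  have hcol : ∀ j, sup (fun k => G k j) univ ≤ m0 := fun j => sp_le _ fun k _ => hG.le k j
  have hZ : ∀ j, sup (fun k => G k j) S ≤ sup (fun k => sup (G k) univ) S := fun j =>
    sp_le _ fun k hk => (le_sp (G k) (mem_univ j)).trans
      (le_sp (fun k => sup (G k) univ) hk)
  have hC : ∀ j, sup (fun k => G k j) S ≤ sup (fun k => G k j) univ := fun j =>
    sp_le _ fun k _ => le_sp (fun k => G k j) (mem_univ k)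
  have hJ : sup (fun j => sup (fun k => G k j) S) T ≤
      sup (fun j => sup (fun k => G k j) univ) T := sp_le _ fun j hj =>
    (hC j).trans (le_sp (fun j => sup (fun k => G k j) univ) hj)
  have o1 : ∀ j, Oc G q j = G q0 j ⊔ sup (fun k => G k j) S := fun j => sp_erase _ hq
  have o2 : ∀ j, Oc G q0 j = G q j ⊔ sup (fun k => G k j) S := fun j =>
    hS' ▸ sp_erase (fun k => G k j) hq.symm
  have i0 := hG.rows {q0} S (by simp [hS]) ⟨q, by simp [hq], by simp [hS]⟩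
  have iq := hG.rows {q} S (by simp [hS]) ⟨q0, by simp [hq.symm], by simp [hS]⟩
  have k0 := hG.cols {j0} T (by simp [hT]) ⟨j1, by simp [hj], by simp [hT]⟩
  have k1 := hG.cols {j1} T (by simp [hT]) ⟨j0, by simp [hj.symm], by simp [hT]⟩
  rw [sp_one] at i0 iq k0 k1
  obtain ⟨A, hA, e⟩ := multA (c0 := G q0 j0) (d0 := G q j0) (d1 := G q j1) (hrow q0) (hrow q)
    (sp_le _ fun k _ => hrow k) (hcol j0) (hcol j1) (le_sp _ (mem_univ _))
    (le_sp _ (mem_univ _)) (le_sp _ (mem_univ _)) (le_sp _ (mem_univ _)) (hZ j0) (hZ j1)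
    (sp_le (fun j => sup (fun k => G k j) S) (S := T) fun j _ => hZ j)
    (sup_le (le_sp (fun k => G k j0) (mem_univ q)) (hC j0))
    (le_sp (fun k => G k j1) (mem_univ q))
    (sup_le (le_sp (fun k => G k j1) (mem_univ q0)) (hC j1)) i0 iq
    (indep_of_indep_of_le_right k0 hJ) (indep_of_indep_of_le_right k1 hJ)
    (fun w hw => o1 j0 ▸ (hG.fr q hz).f2 j0 w hw) (fun w hw => o1 j1 ▸ (hG.fr q hz).f2 j1 w hw)
    hρ hρ' ha (o2 j1 ▸ ha')
  refine ⟨κ[A | Oc G q0 j1], (hG.fr q0 h0).f2 j1 A hA, cond hA _, fun a h1 h2 => ?_⟩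
  have e1 := e (pr a T) (a j0)
    (K.prod T a fun j _ => K.mono (h1 j) (le_sp _ (mem_univ j)))
    (K.prod T a fun j hj => K.mono (h2 j) (o2 j ▸ sup_le_sup (le_sp _ (mem_univ j))
      (le_sp (fun j => sup (fun k => G k j) S) hj))) (h1 j0) (o2 j0 ▸ h2 j0)
  have e2 := (hG.fr q0 h0).f3 (Function.update a j1 A) (fun k => by
    by_cases c : k = j1
    · subst c
      simpa using hA
    · simpa [c] using h1 k) j0 j1
  have u0 : Function.update a j1 A j0 = a j0 := Function.update_of_ne hj.symm _ _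
  have uT : ∀ x, ∏ k ∈ T, Function.update a j1 A k x = pr a T x := fun x =>
    prod_congr rfl fun k hk => by rw [Function.update_of_ne (ne_of_mem_erase hk)]
  have p0 : ∀ x, pr (Function.update a j1 A) (univ.erase j0) x = A x * pr a T x := fun x => by
    rw [pr, ← mul_prod_erase _ _ (show j1 ∈ univ.erase j0 by simp [hj]), Function.update_self,
      uT]
  have p1 : ∀ x, pr (Function.update a j1 A) (univ.erase j1) x = a j0 x * pr a T x := fun x => by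
    rw [pr, ← mul_prod_erase _ _ (show j0 ∈ univ.erase j1 by simp [hj.symm]), u0,
      erase_right_comm, uT]
  simp only [p0, p1, u0, Function.update_self] at e2
  rw [icongr (K.self ((hG.fr q0 h0).le j0) (h2 j0))] at e2
  rw [e1]
  exact (iring fun x => mul_assoc _ _ _).trans (e2.trans (iring fun x => by ring))

end mult

theorem HG5.gd_CG (h : HG5 κ G z) {q0 j0 q : ι} (h0 : q0 ≠ z) (hq : q ≠ q0) {ρ ρ' : ι → Ω → ℂ}
    (hρ : ∀ k, BM κ (G k j0) (ρ k)) (hρ' : ∀ k, BM κ (G k j0) (ρ' k)) {a : Ω → ℂ}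
    (ha : BM κ m0 a) : Gd κ G q0 j0 (CG κ G q0 j0 q ρ ρ' a) := by
  have h1 : BM κ m0 (pr ρ ((univ.erase q0).erase q)) := BM.pr fun k _ => (hρ k).mono (h.le k j0)
  have h2 : BM κ m0 (pr ρ' ((univ.erase q0).erase q)) := BM.pr fun k _ => (hρ' k).mono (h.le k j0)
  refine ⟨Cop_bm _ _ (h.le q j0) h1 h2 ha, ?_⟩
  refine dual_bm (h.le q0 j0) (h.oc_le q0 j0) ((h.fr q0 h0).f2 j0) (BM.mul ?_ ?_)
  · exact (BM.pr_sup (p := fun k => G k j0) fun k _ => hρ' k).mono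
      (sup_mono' _ (erase_subset _ _))
  · exact ((ha.mul h1).ce (G q j0)).mono
      (le_sup' (fun k => G k j0) (mem_erase.2 ⟨hq, mem_univ q⟩))

theorem HG5.mult (h : HG5 κ G z) {q0 j0 q j1 : ι} (h0 : q0 ≠ z) (hz : q ≠ z) (hq : q ≠ q0)
    (hj : j1 ≠ j0)
    {ρ ρ' : ι → Ω → ℂ} (hρ : ∀ k, BM κ (G k j0) (ρ k)) (hρ' : ∀ k, BM κ (G k j0) (ρ' k))
    {a1 : Ω → ℂ} (ha1 : Gd κ G q0 j1 a1) :
    ∃ A, Gd κ G q0 j1 A ∧ ∀ (x : Ω → ℂ) (a : ι → Ω → ℂ), Gd κ G q0 j0 x →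
      (∀ j, Gd κ G q0 j (a j)) → a j1 = a1 →
      ∫ ω, CG κ G q0 j0 q ρ ρ' x ω * pr a (univ.erase j0) ω ∂κ =
        ∫ ω, x ω * pr (Function.update a j1 A) (univ.erase j0) ω ∂κ := by
  obtain ⟨A, h1, h2, h3⟩ := h.mult0 h0 hz hq hj
    (BM.pr_sup (p := fun k => G k j0) fun k _ => hρ k)
    (BM.pr_sup (p := fun k => G k j0) fun k _ => hρ' k) ha1.1 ha1.2
  refine ⟨A, ⟨h1, h2⟩, fun x a hx ha e => ?_⟩
  have h4 := h3 (Function.update a j0 x) (fun j => (gd_update ha hx j).1)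
    (fun j => (gd_update ha hx j).2)
  rw [Function.update_self, pr_update _ (by simp)] at h4
  simp only [pr_erase _ (mem_erase.2 ⟨hj, mem_univ j1⟩), Function.update_self, e, ← mul_assoc]
  rw [pr_update _ (by simp)]
  exact h4

theorem HG5.cg_perp (h : HG5 κ G z) (hc : 3 ≤ Fintype.card ι) {q0 j0 q : ι} (h0 : q0 ≠ z)
    (hz : q ≠ z) (hq : q ≠ q0)
    {ρ ρ' : ι → Ω → ℂ} (hρ : ∀ k, BM κ (G k j0) (ρ k)) (hρ' : ∀ k, BM κ (G k j0) (ρ' k))
    {y : Ω → ℂ} (hy : Gd κ G q0 j0 y) (hp : Perp κ (Orow G q0 j0) y) :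
    Perp κ (Orow G q0 j0) (CG κ G q0 j0 q ρ ρ' y) := by
  obtain ⟨j1, hj1, -⟩ := exists_third hc j0 j0
  have hle := h.le q0 j0
  have g1 := h.gd_CG h0 hq hρ hρ' (hy.1.mono hle)
  refine perp_pr (h.le q0) (g1.1.mono hle) fun a ha => ?_
  rw [(h.fr q0 h0).all g1.1 g1.2 ha]
  set b : ι → Ω → ℂ := fun k => κ[a k | Oc G q0 k] with hb
  have gb : ∀ k, Gd κ G q0 k (b k) := fun k => ⟨(h.fr q0 h0).f2 k _ (ha k), (ha k).ce _⟩
  obtain ⟨A, hA, eA⟩ := h.mult h0 hz hq hj1 hρ hρ' (gb j1)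
  rw [eA y b hy gb rfl]
  exact hp _ (BM.pr_sup (p := G q0) fun k _ => (gd_update gb hA k).1)

/-- the commutator of two operators is orthogonal to the row -/
theorem HG5.comm_perp (h : HG5 κ G z) (hc : 3 ≤ Fintype.card ι) {q0 j0 q : ι} (h0 : q0 ≠ z)
    (hz : q ≠ z) (hq : q ≠ q0) {ρ ρ' τ τ' : ι → Ω → ℂ} (hρ : ∀ k, BM κ (G k j0) (ρ k))
    (hρ' : ∀ k, BM κ (G k j0) (ρ' k)) (hτ : ∀ k, BM κ (G k j0) (τ k))
    (hτ' : ∀ k, BM κ (G k j0) (τ' k)) {c : Ω → ℂ} (hc1 : Gd κ G q0 j0 c) :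
    Perp κ (Orow G q0 j0) (fun ω => CG κ G q0 j0 q ρ ρ' (CG κ G q0 j0 q τ τ' c) ω -
      CG κ G q0 j0 q τ τ' (CG κ G q0 j0 q ρ ρ' c) ω) := by
  obtain ⟨j1, hj1, -⟩ := exists_third hc j0 j0
  obtain ⟨j2, hj2, hj12⟩ := exists_third hc j0 j1
  have hle := h.le q0 j0
  have g1 := h.gd_CG h0 hq hρ hρ' (hc1.1.mono hle)
  have g2 := h.gd_CG h0 hq hτ hτ' (hc1.1.mono hle)
  have g3 := h.gd_CG h0 hq hρ hρ' (g2.1.mono hle)
  have g4 := h.gd_CG h0 hq hτ hτ' (g1.1.mono hle)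
  refine perp_pr (h.le q0) ((g3.1.sub g4.1).mono hle) fun a ha => ?_
  rw [(h.fr q0 h0).all (g3.1.sub g4.1) (g3.2.sub g4.2) ha]
  set b : ι → Ω → ℂ := fun k => κ[a k | Oc G q0 k] with hb
  have gb : ∀ k, Gd κ G q0 k (b k) := fun k => ⟨(h.fr q0 h0).f2 k _ (ha k), (ha k).ce _⟩
  obtain ⟨A, hA, eA⟩ := h.mult h0 hz hq hj1 hρ hρ' (gb j1)
  obtain ⟨B, hB, eB⟩ := h.mult h0 hz hq hj2 hτ hτ' (gb j2)
  rw [int_sub_mul (g3.1.mono hle) (g4.1.mono hle) (BM.pr fun k _ => (gb k).1.mono (h.le q0 k)),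
    eA _ b g2 gb rfl, eB _ _ hc1 (gd_update gb hA) (Function.update_of_ne hj12 _ _),
    eB _ b g1 gb rfl, eA _ _ hc1 (gd_update gb hB) (Function.update_of_ne hj12.symm _ _),
    Function.update_comm hj12, sub_self]

open Rank1 in
/-- the partner of `v` at the point `q` -/
lemma one5 {p : ι → MeasurableSpace Ω} (hle : ∀ j, p j ≤ m0) (hI : LInd κ p)
    (h3 : 3 ≤ Fintype.card ι) {i0 q : ι} (hq : q ≠ i0)
    (hf2 : ∀ a, BM κ (p q) a → BM κ (p q) (κ[a | sup p (univ.erase q)])) {v : Ω → ℂ}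
    (hv : BM κ (p i0) v) (hv' : BM κ (sup p (univ.erase i0)) v) (h0 : ¬ ∀ᵐ ω ∂κ, v ω = 0)
    (hE : ∀ ρ ρ' : ι → Ω → ℂ, (∀ k, BM κ (p k) (ρ k)) → (∀ k, BM κ (p k) (ρ' k)) →
      ∃ lam : ℂ, ∀ᵐ ω ∂κ, Cop κ (p i0) (p q) (pr ρ ((univ.erase i0).erase q))
        (pr ρ' ((univ.erase i0).erase q)) v ω = lam * v ω) :
    ∃ b η : Ω → ℂ, BM κ (p q) b ∧ BM κ (sup p ((univ.erase i0).erase q)) η ∧
      (∀ᵐ ω ∂κ, ‖b ω‖ = 1) ∧ (∀ᵐ ω ∂κ, v ω * b ω = η ω) ∧
      ∃ c : ℝ, 0 < c ∧ ∀ᵐ ω ∂κ, ‖v ω‖ = c := by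
  have le0 : ∀ S : Finset ι, sup p S ≤ m0 := fun S => sup_le' fun j _ => hle j
  have ind1 : ∀ {j q : ι} {T : Finset ι}, j ∉ T → q ∉ T → q ≠ j → Indep (p j) (sup p T) κ := by
    intro j q T hj hq h
    rw [← sup_singleton' p j]
    exact hI _ _ (disjoint_singleton_left.2 hj) ⟨q, by simpa using h, hq⟩
  set Z := (univ.erase i0).erase q with hZ
  have hi := hle i0
  have hp := hle q
  have hz := le0 Z
  have hv0 := hv.mono hi
  have iZ : i0 ∉ Z := by simp [hZ]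
  have qZ : q ∉ Z := by simp [hZ]
  have s1 : sup p (univ.erase i0) = p q ⊔ sup p Z := sup_erase' p (by simpa using hq)
  have s2 : sup p (univ.erase q) = p i0 ⊔ sup p Z := by
    rw [hZ, erase_right_comm]
    exact sup_erase' p (by simpa using hq.symm)
  obtain ⟨ρ, hρ, hb0⟩ : ∃ ρ : ι → Ω → ℂ, (∀ k, BM κ (p k) (ρ k)) ∧
      ¬ ∀ᵐ ω ∂κ, (κ[fun ω => v ω * pr ρ Z ω | p q]) ω = 0 := by
    by_contra h
    push Not at h
    refine h0 (Perp.eq_zero ?_ (le0 _) hv')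
    rw [s1]
    refine perp_sup_pr hp hle hv0 fun a ρ ha hρ => ?_
    rw [← perp_of_ce hp (hv0.mul ((BM.pr_sup fun k _ => hρ k).mono hz)) (h ρ hρ) a ha]
    exact integral_congr_ae (Eventually.of_forall fun ω => by ring)
  set b := κ[fun ω => v ω * pr ρ Z ω | p q] with hb
  have hρZ : BM κ (sup p Z) (pr ρ Z) := BM.pr_sup fun k _ => hρ k
  have hbq : BM κ (p q) b := (hv0.mul (hρZ.mono hz)).ce _
  have hb' : BM κ (p i0 ⊔ sup p Z) b := by
    rw [← s2]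
    refine dual_bm hp (le0 _) hf2 ?_
    rw [s2]
    exact (hv.mono le_sup_left).mul (hρZ.mono le_sup_right)
  have hb1 := hbq.mono hp
  have hN : ∫ ω, v ω * (starRingEnd ℂ) (v ω) ∂κ ≠ 0 := fun h => h0 (eq_zero_of_int_conj hv0 h)
  set N := ∫ ω, v ω * (starRingEnd ℂ) (v ω) ∂κ with hNd
  have hvb := hv0.conj.mul hb1
  set η : Ω → ℂ := fun ω => N⁻¹ * (κ[fun ω => (starRingEnd ℂ) (v ω) * b ω | sup p Z]) ω with hη
  have hηZ : BM κ (sup p Z) η := (hvb.ce _).cmul _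
  have I1 : Indep (p i0) (sup p Z) κ := ind1 iZ qZ hq
  have I2 : Indep (p q) (sup p Z) κ := ind1 qZ iZ hq.symm
  have I3 : Indep (p q) (p i0) κ := by
    have hc : 0 < Z.card := by
      rw [hZ, card_erase_of_mem (by simpa using hq), card_erase_of_mem (mem_univ _), card_univ]
      omega
    obtain ⟨k, hk⟩ := card_pos.1 hc
    rw [← sup_singleton' p i0]
    exact ind1 (q := k) (by simpa using hq) (by simpa using (mem_erase.1 (mem_erase.1 hk).2).1)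
      (mem_erase.1 hk).1
  have hvη : BM κ (p i0 ⊔ sup p Z) fun ω => v ω * η ω :=
    (hv.mono le_sup_left).mul (hηZ.mono le_sup_right)
  have key : ∀ᵐ ω ∂κ, b ω - v ω * η ω = 0 := by
    refine Perp.eq_zero (perp_sup_pr hi hle (hb1.sub (hvη.mono (sup_le hi hz)))
      fun a ρ' ha hρ' => ?_) (sup_le hi hz) (hb'.sub hvη)
    have hρZ' : BM κ (sup p Z) (pr ρ' Z) := BM.pr_sup fun k _ => hρ' k
    obtain ⟨lam, hl⟩ := hE ρ ρ' hρ hρ'
    have e1 : ∀ u : Ω → ℂ, BM κ (p i0) u →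
        ∫ ω, b ω * (u ω * pr ρ' Z ω) ∂κ = lam * ∫ ω, v ω * u ω ∂κ := fun u hu => by
      have := int_ce_mul hi ((hρZ'.mono hz).mul hb1) hu
      rw [← integral_const_mul]
      refine (integral_congr_ae (Eventually.of_forall fun ω => by ring)).trans
        (this.symm.trans (integral_congr_ae ?_))
      filter_upwards [hl] with ω hω
      rw [← mul_assoc, ← hω]
      rfl
    have e2 : ∫ ω, η ω * pr ρ' Z ω ∂κ = lam := by
      simp only [hη, mul_assoc]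
      rw [integral_const_mul, int_ce_mul hz hvb hρZ', inv_mul_eq_iff_eq_mul₀ hN, mul_comm N, hNd,
        ← e1 _ hv.conj]
      exact integral_congr_ae (Eventually.of_forall fun ω => by ring)
    rw [int_sub_mul hb1 (hvη.mono (sup_le hi hz)) ((ha.mono hi).mul (hρZ'.mono hz)), e1 a ha,
      sub_eq_zero, mul_comm, ← e2, ← int_mul_indep hi hz I1 (hv.mul ha) (hηZ.mul hρZ')]
    exact integral_congr_ae (Eventually.of_forall fun ω => by ring)
  have hz0 : ∫ ω, b ω * (starRingEnd ℂ) (b ω) ∂κ ≠ 0 := fun h => hb0 (eq_zero_of_int_conj hb1 h)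
  have ez : ∀ᵐ ω ∂κ, b ω * (starRingEnd ℂ) (b ω) =
      (v ω * (starRingEnd ℂ) (v ω)) * (η ω * (starRingEnd ℂ) (η ω)) := by
    filter_upwards [key] with ω hω
    rw [sub_eq_zero.1 hω, map_mul]
    ring
  obtain ⟨cx, hx0, hx⟩ := cst hi hz hp I1.symm I3 (hv.mul hv.conj) (hηZ.mul hηZ.conj)
    (hbq.mul hbq.conj) ez hz0
  obtain ⟨cy, hy0, hy⟩ := cst hz hi hp I1 I2 (hηZ.mul hηZ.conj) (hv.mul hv.conj)
    (hbq.mul hbq.conj) (ez.mono fun ω h => h.trans (mul_comm _ _)) hz0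
  have hs : 0 < Real.sqrt ‖cx * cy‖ := Real.sqrt_pos.2 (norm_pos_iff.2 (mul_ne_zero hx0 hy0))
  refine ⟨fun ω => ((Real.sqrt ‖cx * cy‖ : ℝ) : ℂ)⁻¹ * (starRingEnd ℂ) (b ω),
    fun ω => (((Real.sqrt ‖cx * cy‖ : ℝ) : ℂ)⁻¹ * cx) * (starRingEnd ℂ) (η ω), hbq.conj.cmul _,
    hηZ.conj.cmul _, ?_, ?_, _, Real.sqrt_pos.2 (norm_pos_iff.2 hx0), hx.mono fun ω => norm_of⟩
  · filter_upwards [ez, hx, hy] with ω a b c
    rw [b, c] at a
    rw [norm_mul, Complex.norm_conj, norm_of a, norm_inv, Complex.norm_real,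
      Real.norm_of_nonneg hs.le, inv_mul_cancel₀ hs.ne']
  · filter_upwards [key, hx] with ω a b
    rw [sub_eq_zero.1 a, map_mul, ← b]
    ring

end T5F
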