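import Pool.Agent.MP_154433_an.t5.FSpanA

/-! FSPAN with a free row: the main statement. -/

set_option autoImplicit false

open MeasureTheory ProbabilityTheory Finset Filter

namespace T5F

open Fib27 T3F

variable {Ω ι : Type} [Fintype ι] [DecidableEq ι] {m0 : MeasurableSpace Ω} {κ : Measure Ω}
  {G : ι → ι → MeasurableSpace Ω} {z : ι}

theorem erase_two (hc : Fintype.card ι = 3) {a b c : ι} (hab : b ≠ a) (hca : c ≠ a) (hcb : c ≠ b) :
    ((univ : Finset ι).erase a).erase b = {c} := by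
  have h1 : (((univ : Finset ι).erase a).erase b).card = 1 := by
    rw [card_erase_of_mem (by simpa using hab), card_erase_of_mem (mem_univ _), card_univ, hc]
  obtain ⟨x, hx⟩ := card_eq_one.1 h1
  have h2 : c ∈ ((univ : Finset ι).erase a).erase b := by simp [hca, hcb]
  rw [hx] at h2 ⊢
  rw [mem_singleton.1 h2]

variable [IsProbabilityMeasure κ]

/-- a function that is determined by its column and orthogonal to the functions of that kind that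
are orthogonal to the row correlates with a member of a column tuple -/
theorem fspan5 (h : HG5 κ G z) (hc3 : Fintype.card ι = 3) {q0 j0 : ι} (h0 : q0 ≠ z) {f : Ω → ℂ}
    (hf : BM κ (G q0 j0) f) (hfc : BM κ (Oc G q0 j0) f)
    (hfr : ∀ y, Gd κ G q0 j0 y → Perp κ (Orow G q0 j0) y → ∫ ω, f ω * y ω ∂κ = 0)
    (hne : ¬ ∀ᵐ ω ∂κ, f ω = 0) : ∃ χ : ι → Ω → ℂ, Tup κ (fun k => G k j0) χ ∧
      ∫ ω, f ω * (starRingEnd ℂ) (χ q0 ω) ∂κ ≠ 0 := by
  by_contra hcon0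
  push Not at hcon0
  have hc : 3 ≤ Fintype.card ι := hc3.ge
  have hle := h.le q0 j0
  have hcol : ∀ k, G k j0 ≤ m0 := fun k => h.le k j0
  have hL : LInd κ (fun q => G q j0) := h.rows.mono fun q => le_sup' (G q) (mem_univ j0)
  obtain ⟨q1, hq1, hqz⟩ := exists_third hc q0 z
  obtain ⟨ρ1, hρ1, hne1⟩ : ∃ ρ : ι → Ω → ℂ, (∀ k, BM κ (G k j0) (ρ k)) ∧ ¬ ∀ᵐ ω ∂κ,
      (κ[fun ω => f ω * pr ρ ((univ.erase q0).erase q1) ω | G q1 j0]) ω = 0 := by
    by_contra hcon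
    push Not at hcon
    have hp := perp_sup_pr (p := fun k => G k j0) (S := (univ.erase q0).erase q1) (hcol q1) hcol
      (hf.mono hle) fun a ρ ha hρ => by
        have := perp_of_ce (hcol q1) ((hf.mono hle).mul (BM.pr fun k _ => (hρ k).mono (hcol k)))
          (hcon ρ hρ) a ha
        rw [← this]
        exact integral_congr_ae (Eventually.of_forall fun ω => by simp only; ring)
    rw [← sup_erase' (fun k => G k j0) (mem_erase.2 ⟨hq1, mem_univ q1⟩)] at hp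
    exact hne (hp.eq_zero (h.oc_le q0 j0) hfc)
  let T := {τ : (ι → Ω → ℂ) × (ι → Ω → ℂ) //
    (∀ k, BM κ (G k j0) (τ.1 k)) ∧ ∀ k, BM κ (G k j0) (τ.2 k)}
  let N1 := {χ : ι → Ω → ℂ // Tup κ (fun k => G k j0) χ}
  let N2 := {y : Ω → ℂ // Gd κ G q0 j0 y ∧ Perp κ (Orow G q0 j0) y}
  let w : N1 ⊕ N2 → Ω → ℂ := Sum.elim (fun n => n.1 q0) fun n => n.1
  have hw : ∀ n, BM κ (G q0 j0) (w n) := by
    rintro (n | n)
    · exact n.2.bm q0
    · exact n.2.1.1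
  have inv : ∀ (ρ ρ' : ι → Ω → ℂ), (∀ k, BM κ (G k j0) (ρ k)) → (∀ k, BM κ (G k j0) (ρ' k)) →
      ∀ a, BM κ (G q0 j0) a → (∀ n, ∫ ω, a ω * w n ω ∂κ = 0) →
      ∀ n, ∫ ω, CG κ G q0 j0 q1 ρ ρ' a ω * w n ω ∂κ = 0 := by
    intro ρ ρ' hρ hρ' a h1 h2 n
    refine (Cop_symm hle (hcol q1) (BM.pr fun k _ => (hρ k).mono (hcol k))
      (BM.pr fun k _ => (hρ' k).mono (hcol k)) h1 (hw n)).trans ?_
    rcases n with n | n
    · obtain ⟨lam, e⟩ := tup_eig n.2 hcol hL hq1 hρ' hρ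
      refine (Mult.icongr e a).trans ?_
      have : ∫ ω, lam * n.1 q0 ω * a ω ∂κ = lam * ∫ ω, a ω * n.1 q0 ω ∂κ := by
        rw [← integral_const_mul]
        exact Mult.iring fun ω => by ring
      rw [this]
      exact mul_eq_zero_of_right _ (h2 (Sum.inl n))
    · have := h2 (Sum.inr ⟨CG κ G q0 j0 q1 ρ' ρ n.1, h.gd_CG h0 hq1 hρ' hρ (n.2.1.1.mono hle),
        h.cg_perp hc h0 hqz hq1 hρ' hρ n.2.1 n.2.2⟩)
      rw [← this]
      exact Mult.iring fun ω => mul_comm _ _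
  obtain ⟨v, ⟨hv1, hv2, hv3⟩, hv0, hv⟩ := eig2 (T := T) (N := N1 ⊕ N2) (S := Unit) (m := G q0 j0)
    (fun _ => G q1 j0) (fun _ => Oc G q0 j0) w (fun τ => pr τ.1.1 ((univ.erase q0).erase q1))
    (fun τ => pr τ.1.2 ((univ.erase q0).erase q1))
    (fun a => BM κ (G q0 j0) a ∧ (∀ n, ∫ ω, a ω * w n ω ∂κ = 0) ∧
      ∀ _ : Unit, BM κ (Oc G q0 j0) a) hle
    (fun _ => hcol _) (fun _ => h.oc_le q0 j0)
    (fun _ => hL.pair hq1.symm h0.symm hqz.symm)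
    (fun τ => BM.pr fun k _ => (τ.2.1 k).mono (hcol k))
    (fun τ => BM.pr fun k _ => (τ.2.2 k).mono (hcol k)) (fun n => (hw n).mono hle)
    (fun a => Iff.rfl)
    (by
      rintro ⟨⟨ρ, ρ'⟩, hρ, hρ'⟩ a ⟨h1, h2, h3⟩
      have g := h.gd_CG h0 hq1 hρ hρ' (h1.mono hle)
      exact ⟨g.1, inv ρ ρ' hρ hρ' a h1 h2, fun _ => g.2⟩)
    (by
      rintro ⟨⟨ρ, ρ'⟩, hρ, hρ'⟩ ⟨⟨τ, τ'⟩, hτ, hτ'⟩ a ⟨h1, h2, h3⟩
      have g1 := h.gd_CG h0 hq1 hρ hρ' (h1.mono hle)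
      have g2 := h.gd_CG h0 hq1 hτ hτ' (h1.mono hle)
      have g3 := h.gd_CG h0 hq1 hρ hρ' (g2.1.mono hle)
      have g4 := h.gd_CG h0 hq1 hτ hτ' (g1.1.mono hle)
      have hp := h.comm_perp hc h0 hqz hq1 hρ hρ' hτ hτ' ⟨h1, h3 ()⟩
      let n : N1 ⊕ N2 := Sum.inr ⟨_, ⟨(g3.1.sub g4.1).conj, (g3.2.sub g4.2).conj⟩, perp_conj hp⟩
      have e3 := inv ρ ρ' hρ hρ' _ g2.1 (inv τ τ' hτ hτ' a h1 h2) n
      have e4 := inv τ τ' hτ hτ' _ g1.1 (inv ρ ρ' hρ hρ' a h1 h2) n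
      have e5 := eq_zero_of_int_conj ((g3.1.sub g4.1).mono hle) (by
        refine (int_sub_mul (g3.1.mono hle) (g4.1.mono hle) ((hw n).mono hle)).trans ?_
        rw [e3, e4, sub_self])
      filter_upwards [e5] with ω hω
      exact sub_eq_zero.1 hω)
    ⟨(ρ1, fun k ω => (starRingEnd ℂ) (ρ1 k ω)), hρ1, fun k => (hρ1 k).conj⟩ f
    (fun ω => pr_conj _ _ ω)
    ⟨hf, by
      rintro (n | n)
      · have := hcon0 _ (tup_conj n.2)
        simp only [Complex.conj_conj] at this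
        exact this
      · exact hfr n.1 n.2.1 n.2.2, fun _ => hfc⟩ hne1
  obtain ⟨b, η, hb, hη, hb1, e, c, hc0, hvc⟩ := one5 (p := fun k => G k j0) hcol hL hc hq1
    ((h.fr q1 hqz).f2 j0) hv1 (hv3 ()) hv0 fun ρ ρ' hρ hρ' => hv ⟨(ρ, ρ'), hρ, hρ'⟩
  have hZ := erase_two hc3 hq1 h0.symm hqz.symm
  rw [hZ, sup_singleton'] at hη
  have hcc : (c : ℂ) ≠ 0 := by exact_mod_cast hc0.ne'
  have hn : ∀ x : ℂ, ‖x‖ = c → ‖(c : ℂ)⁻¹ * x‖ = 1 := fun x hx => by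
    rw [norm_mul, hx, norm_inv, Complex.norm_real, Real.norm_of_nonneg hc0.le,
      inv_mul_cancel₀ hc0.ne']
  let χ : ι → Ω → ℂ := fun k => if k = q0 then fun ω => (c : ℂ)⁻¹ * v ω else
    if k = q1 then b else fun ω => (c : ℂ)⁻¹ * (starRingEnd ℂ) (η ω)
  have c0 : χ q0 = fun ω => (c : ℂ)⁻¹ * v ω := if_pos rfl
  have c1 : χ q1 = b := (if_neg hq1).trans (if_pos rfl)
  have c2 : χ z = fun ω => (c : ℂ)⁻¹ * (starRingEnd ℂ) (η ω) :=
    (if_neg h0.symm).trans (if_neg hqz.symm)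
  have all : ∀ k, k = q0 ∨ k = q1 ∨ k = z := fun k => by
    by_cases a0 : k = q0
    · exact Or.inl a0
    by_cases a1 : k = q1
    · exact Or.inr (Or.inl a1)
    have : k ∈ ((univ : Finset ι).erase q0).erase q1 := by simp [a0, a1]
    rw [hZ] at this
    exact Or.inr (Or.inr (mem_singleton.1 this))
  have hηc : ∀ᵐ ω ∂κ, ‖η ω‖ = c := by
    filter_upwards [e, hb1, hvc] with ω a1 a2 a3
    rw [← a1, norm_mul, a2, a3, mul_one]
  have hχ : Tup κ (fun k => G k j0) χ := by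
    refine ⟨fun k => ?_, fun k => ?_, 1, ?_⟩
    · rcases all k with rfl | rfl | rfl
      · rw [c0]; exact (hv1.cmul _).1
      · rw [c1]; exact hb.1
      · rw [c2]; exact (hη.conj.cmul _).1
    · rcases all k with rfl | rfl | rfl
      · rw [c0]; exact hvc.mono fun ω hω => hn _ hω
      · rw [c1]; exact hb1
      · rw [c2]; exact hηc.mono fun ω hω => hn _ (by rw [Complex.norm_conj, hω])
    · filter_upwards [e, hηc] with ω a1 a2
      rw [← mul_prod_erase _ _ (mem_univ q0), ← mul_prod_erase _ _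
        (show q1 ∈ univ.erase q0 by simp [hq1]), hZ, prod_singleton, c0, c1, c2]
      have a3 : η ω * (starRingEnd ℂ) (η ω) = (c : ℂ) * c := by
        rw [Complex.mul_conj, Complex.normSq_eq_norm_sq, a2]
        push_cast
        ring
      have a4 : (c : ℂ)⁻¹ * v ω * (b ω * ((c : ℂ)⁻¹ * (starRingEnd ℂ) (η ω))) =
          (c : ℂ)⁻¹ * (c : ℂ)⁻¹ * ((v ω * b ω) * (starRingEnd ℂ) (η ω)) := by ring
      rw [a4, a1, a3]
      field_simp
  have e2 : ∫ ω, v ω * (starRingEnd ℂ) (χ q0 ω) ∂κ = 0 := hv2 (Sum.inl ⟨_, tup_conj hχ⟩)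
  simp only [c0, map_mul] at e2
  refine hv0 (eq_zero_of_int_conj (hv1.mono hle) ?_)
  have e3 : ∫ ω, v ω * ((starRingEnd ℂ) (c : ℂ)⁻¹ * (starRingEnd ℂ) (v ω)) ∂κ =
      (starRingEnd ℂ) (c : ℂ)⁻¹ * ∫ ω, v ω * (starRingEnd ℂ) (v ω) ∂κ := by
    rw [← integral_const_mul]
    exact Mult.iring fun ω => by ring
  rw [e3] at e2
  exact (mul_eq_zero.1 e2).resolve_left (by simpa using hc0.ne')

/-- the dual function of a row product with one factor that is determined by its column is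
determined by its column -/
theorem HG5.dual_gd (h : HG5 κ G z) {q0 j0 j1 : ι} (h0 : q0 ≠ z) (hj : j1 ≠ j0) {b : ι → Ω → ℂ}
    (hb : ∀ k, BM κ (G q0 k) (b k)) (hb1 : BM κ (Oc G q0 j1) (b j1)) :
    Gd κ G q0 j0 (κ[pr b (univ.erase j0) | G q0 j0]) := by
  have hle := h.le q0 j0
  have hO := h.oc_le q0 j0
  have hp : BM κ m0 (pr b (univ.erase j0)) := BM.pr fun k _ => (hb k).mono (h.le q0 k)
  have hy := hp.ce (G q0 j0)
  refine ⟨hy, (hy.ce (Oc G q0 j0)).congr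
    (ae_eq_of_tests hle ((h.fr q0 h0).f2 j0 _ hy) hy fun c hc => ?_)⟩
  rw [int_ce_symm hO (hy.mono hle) (hc.mono hle), int_ce_mul hle hp ((h.fr q0 h0).f2 j0 c hc),
    int_ce_mul hle hp hc]
  have e := (h.fr q0 h0).move hj hc (hb j1) hb
  simp only [pr_erase b (mem_erase.2 ⟨hj, mem_univ j1⟩)]
  refine (Mult.iring fun ω => mul_comm _ _).trans (e.trans (integral_congr_ae ?_))
  filter_upwards [hb1.ce_self (h.oc_le q0 j1)] with ω hω
  rw [hω, mul_comm]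

/-- FSPAN for dual functions -/
theorem fspanD (h : HG5 κ G z) (hc3 : Fintype.card ι = 3) {q0 j0 j1 : ι} (h0 : q0 ≠ z)
    (hj : j1 ≠ j0) {b : ι → Ω → ℂ} (hb : ∀ k, BM κ (G q0 k) (b k))
    (hb1 : BM κ (Oc G q0 j1) (b j1)) {f : Ω → ℂ} (hf : f =ᵐ[κ] κ[pr b (univ.erase j0) | G q0 j0])
    (hne : ¬ f =ᵐ[κ] 0) :
    ∃ v, Mem κ (fun q => G q j0) q0 v ∧ ∫ x, f x * (starRingEnd ℂ) (v x) ∂κ ≠ 0 := by
  have hg := h.dual_gd h0 hj hb hb1
  have hp : BM κ m0 (pr b (univ.erase j0)) := BM.pr fun k _ => (hb k).mono (h.le q0 k)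
  obtain ⟨χ, h1, h2⟩ := fspan5 h hc3 h0 (hg.1.congr hf.symm) (hg.2.congr hf.symm)
    (fun y hy hy' => by
      rw [Mult.icongr hf y, int_ce_mul (h.le q0 j0) hp hy.1,
        ← hy' _ (BM.pr_sup (p := G q0) fun k _ => hb k)]
      exact Mult.iring fun ω => mul_comm _ _) hne
  exact ⟨χ q0, ⟨χ, h1, rfl⟩, h2⟩

end T5F
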