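import Pool.Agent.MP_154433_an.t3.GGall
import Pool.Agent.MP_154433_an.t5.FSpanB

/-! From the global grid with a free row to the fibres and back. -/

set_option autoImplicit false
set_option linter.unusedVariables false
set_option warn.classDefReducibility false

open MeasureTheory ProbabilityTheory Filter Topology Function Finset ComplexConjugate
open scoped BigOperators
open Fib27 (BM sup pr Oc Orow F23 LInd Mem)
open Pool.Agent.MP_154433_an.SG hiding PC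

noncomputable section

namespace T5x

open T3x

/-- a grid over a base with F2 and F3 in the rows other than `z` -/
structure HGz {Ω ι : Type} [Fintype ι] [DecidableEq ι] (β : MeasurableSpace Ω)
    (G : ι → ι → MeasurableSpace Ω) (z : ι) {m0 : MeasurableSpace Ω} (μ : Measure Ω) : Prop where
  le : ∀ q j, G q j ≤ m0
  ble : β ≤ m0
  rows : CLine β (fun q => sup (G q) univ) μ
  cols : CLine β (fun j => sup (fun q => G q j) univ) μ
  f2c : ∀ q, q ≠ z → ∀ j a, BM μ (G q j) a → BM μ (G q j ⊔ β) (μ[a | Oc G q j ⊔ β])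
  f3 : ∀ q, q ≠ z → ∀ (a : ι → Ω → ℂ) (ψ : Ω → ℂ), (∀ k, BM μ (G q k) (a k)) → BM μ β ψ → ∀ j j',
    ∫ x, ψ x * ((μ[a j | Oc G q j ⊔ β]) x * pr a (univ.erase j) x) ∂μ =
      ∫ x, ψ x * ((μ[a j' | Oc G q j' ⊔ β]) x * pr a (univ.erase j') x) ∂μ

/-- `h` is the dual function at `(q, j)` of a row product with a factor that is determined by its
column -/
def DV {Ω ι : Type} [Fintype ι] [DecidableEq ι] (β : MeasurableSpace Ω)
    (G : ι → ι → MeasurableSpace Ω) (q j : ι) {m0 : MeasurableSpace Ω} (μ : Measure Ω)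
    (h : Ω → ℂ) : Prop :=
  ∃ (j1 : ι) (b : ι → Ω → ℂ), j1 ≠ j ∧ (∀ k, BM μ (G q k ⊔ β) (b k)) ∧
    BM μ (Oc G q j1 ⊔ β) (b j1) ∧ h =ᵐ[μ] μ[pr b (univ.erase j) | G q j ⊔ β]

def GGzS : Prop := ∀ {Ω ι : Type} [Fintype ι] [DecidableEq ι] (β : MeasurableSpace Ω)
  (G : ι → ι → MeasurableSpace Ω) (z q j : ι) {m0 : MeasurableSpace Ω} (μ : Measure Ω)
  [IsProbabilityMeasure μ] (h : Ω → ℂ) (C : ℝ), HGz β G z μ → Fintype.card ι = 3 → q ≠ z →
  DV β G q j μ h → 0 ≤ C → (∀ᵐ x ∂μ, ‖h x‖ ≤ C) → ¬ h =ᵐ[μ] 0 →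
  ∃ (v : ℕ → ι → Ω → ℂ) (v0 : ι → Ω → ℂ) (η : ℝ), (∀ i k, Lb (G k j) μ (v i k)) ∧
    (∀ k, Lb (G k j) μ (v0 k)) ∧ 0 < η ∧ η ≤ 1 / 100 ∧
    μ (DS β μ v v0 η ∩ {x | C * η < ‖(μ[fun y => h y * conj (v0 q y) | β]) x‖}) ≠ 0

namespace GGz

open T3x.GA T3x.GG3r

variable {Ω ι : Type} [Fintype ι] [DecidableEq ι]

/-- the closed countable family -/
lemma fam (β : MeasurableSpace Ω) (G : ι → ι → MeasurableSpace Ω) (z q j j1 : ι)
    {m0 : MeasurableSpace Ω} (μ : Measure Ω) [IsProbabilityMeasure μ] (h : Ω → ℂ)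
    (b : ι → Ω → ℂ) (hG : HGz β G z μ) (hh : BM μ (G q j ⊔ β) h)
    (hb : ∀ k, BM μ (G q k ⊔ β) (b k)) (hb1 : BM μ (Oc G q j1 ⊔ β) (b j1)) :
    ∃ S : Set ((ι × ι) × Set Ω), S.Countable ∧ S ⊆ ok G ∧ (∀ p, (p, Set.univ) ∈ S) ∧
      (BM μ (g S q j ⊔ β) h ∧ (∀ k, BM μ (g S q k ⊔ β) (b k)) ∧ BM μ (Oc (g S) q j1 ⊔ β) (b j1)) ∧
      (∀ q j, IsPiSystem (at' S q j)) ∧ ∀ q j, q ≠ z → ∀ s ∈ at' S q j,
      AEStronglyMeasurable[F1 β q j S] (μ[s.indicator fun _ => (1 : ℂ) | Oc G q j ⊔ β]) μ ∧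
      AEStronglyMeasurable[F2 β q j S] (μ[s.indicator fun _ => (1 : ℂ) | Oc G q j ⊔ β]) μ := by
  have mo : ∀ (Φ : Set ((ι × ι) × Set Ω) → MeasurableSpace Ω) (hΦ : Monotone Φ) (f : Ω → ℂ),
      ∀ S S', S ⊆ S' → AEStronglyMeasurable[Φ S] f μ → AEStronglyMeasurable[Φ S'] f μ :=
    fun Φ hΦ f S S' e e' => e'.mono (hΦ e)
  have hall : ∃ S : Set ((ι × ι) × Set Ω), S.Countable ∧ S ⊆ ok G ∧
      ∀ k, AEStronglyMeasurable[F1 β q k S] (b k) μ := by
    choose S c o v using fun k => fnC (ok G) _ (F1_mono β q k) μ (le1 G β q k) (b k) (hb k).1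
    exact ⟨⋃ k, S k, Set.countable_iUnion c, Set.iUnion_subset o,
      fun k => mo _ (F1_mono β q k) _ _ _ (Set.subset_iUnion S k) (v k)⟩
  obtain ⟨S0, c0, o0, u0, v1, v2, v3⟩ := both (ok := ok G)
    (Q := fun S => ∀ p : ι × ι, (p, Set.univ) ∈ S) (fun S S' e e' p => e (e' p))
    (fun S S' e e' => ⟨mo _ (F1_mono β q j) h S S' e e'.1,
      fun k => mo _ (F1_mono β q k) _ S S' e (e'.2.1 k), mo _ (F2_mono β q j1) _ S S' e e'.2.2⟩)
    ⟨Set.range fun p : ι × ι => (p, Set.univ), Set.countable_range _, by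
      rintro _ ⟨p, rfl⟩
      exact @MeasurableSet.univ _ (G p.1 p.2), fun p => ⟨p, rfl⟩⟩
    (both (mo _ (F1_mono β q j) h)
      (fun S S' e e' => ⟨fun k => mo _ (F1_mono β q k) _ S S' e (e'.1 k),
        mo _ (F2_mono β q j1) _ S S' e e'.2⟩)
      (fnC (ok G) _ (F1_mono β q j) μ (le1 G β q j) h hh.1)
      (both (fun S S' e e' k => mo _ (F1_mono β q k) _ S S' e (e' k)) (mo _ (F2_mono β q j1) _)
        hall (fnC (ok G) _ (F2_mono β q j1) μ (le2 G β q j1) _ hb1.1)))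
  let ec : (ι × ι) × Set Ω → Ω → ℂ := fun a =>
    μ[a.2.indicator fun _ => (1 : ℂ) | Oc G a.1.1 a.1.2 ⊔ β]
  let Pc : (ι × ι) × Set Ω → Set ((ι × ι) × Set Ω) → Prop := fun a S => a.1.1 ≠ z →
    AEStronglyMeasurable[F1 β a.1.1 a.1.2 S] (ec a) μ ∧
      AEStronglyMeasurable[F2 β a.1.1 a.1.2 S] (ec a) μ
  have mc : ∀ a S S', S ⊆ S' → Pc a S → Pc a S' := fun a S S' e e' u =>
    ⟨mo _ (F1_mono β _ _) _ S S' e (e' u).1, mo _ (F2_mono β _ _) _ S S' e (e' u).2⟩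
  obtain ⟨S, c, o, s0, cl⟩ := CntR.closure (ok G)
    (fun a a' S => (a'.1 = a.1 → (a.1, a.2 ∩ a'.2) ∈ S) ∧ Pc a S)
    (fun a a' S S' e e' => ⟨fun u => e (e'.1 u), mc a S S' e e'.2⟩)
    (fun a ha a' ha' => by
      have hi : BM μ (G a.1.1 a.1.2) (a.2.indicator fun _ => (1 : ℂ)) := BM.indicator ha
      refine both (fun S S' e e' u => e (e' u)) (mc a) ?_ ?_
      · by_cases u : a'.1 = a.1
        · refine ⟨{(a.1, a.2 ∩ a'.2)}, Set.countable_singleton _, Set.singleton_subset_iff.2 ?_,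
            fun _ => rfl⟩
          have h2 : MeasurableSet[G a.1.1 a.1.2] a'.2 := by rw [← u]; exact ha'
          exact MeasurableSet.inter (m := G a.1.1 a.1.2) ha h2
        · exact ⟨∅, Set.countable_empty, Set.empty_subset _, fun u' => absurd u' u⟩
      · by_cases u : a.1.1 = z
        · exact ⟨∅, Set.countable_empty, Set.empty_subset _, fun u' => absurd u u'⟩
        · obtain ⟨S, s1, s2, s3⟩ := both (mo _ (F1_mono β _ _) _) (mo _ (F2_mono β _ _) _)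
            (fnC (ok G) _ (F1_mono β _ _) μ (le1 G β _ _) _ (hG.f2c _ u _ _ hi).1)
            (fnC (ok G) _ (F2_mono β _ _) μ (le2 G β _ _) _ (hi.ce _).1)
          exact ⟨S, s1, s2, fun _ => s3⟩)
    S0 c0 o0
  exact ⟨S, c, o, fun p => s0 (u0 p), ⟨hh.of_aesm (v1.mono (F1_mono β q j s0)),
    fun k => (hb k).of_aesm ((v2 k).mono (F1_mono β q k s0)),
    hb1.of_aesm (v3.mono (F2_mono β q j1 s0))⟩,
    fun q j s hs t ht _ => (cl _ hs _ ht).1 rfl, fun q j u s hs => (cl _ hs _ hs).2 u⟩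

/-- a countable model over the same base -/
theorem ga (β : MeasurableSpace Ω) (G : ι → ι → MeasurableSpace Ω) (z q j : ι)
    {m0 : MeasurableSpace Ω} (μ : Measure Ω) [IsProbabilityMeasure μ] (h : Ω → ℂ)
    (hG : HGz β G z μ) (hV : DV β G q j μ h) :
    ∃ W : Ω → Cf ι, Measurable W ∧ (∀ q' j', (PC q' j').comap W ≤ G q' j') ∧
      HGz β (fun q' j' => (PC q' j').comap W) z μ ∧
      DV β (fun q' j' => (PC q' j').comap W) q j μ h := by
  classical
  obtain ⟨j1, b, hj, hb, hb1, eh⟩ := hV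
  have hp : BM μ m0 (pr b (univ.erase j)) :=
    BM.pr fun k _ => (hb k).mono (sup_le (hG.le q k) hG.ble)
  obtain ⟨S, c, o, u, v, pi, cl⟩ := fam β G z q j j1 μ h b hG ((hp.ce _).congr eh.symm) hb hb1
  have hle := g_le o
  have hc : ∀ p : ι × ι, ∃ f : ℕ → Set Ω, at' S p.1 p.2 = Set.range f := fun p =>
    Set.Countable.exists_eq_range
      (c.preimage_of_injOn (f := fun A : Set Ω => ((p.1, p.2), A))
        fun _ _ _ _ e => (Prod.ext_iff.1 e).2) ⟨Set.univ, u _⟩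
  choose f hf using hc
  let W : Ω → Cf ι := fun x p n => decide (x ∈ f p n)
  have hW : (fun q' j' => (PC q' j').comap W) = g S := by
    funext q' j'
    rw [PC, MeasurableSpace.comap_comp, g, hf (q', j'), ← comap_seq]
    rfl
  have h0 : ∀ q j, g S q j ≤ m0 := fun q j => (hle q j).trans (hG.le q j)
  have hOc : ∀ q j, Oc G q j ⊔ β ≤ m0 := fun q j =>
    sup_le (Fib27.sup_le' fun k _ => hG.le k j) hG.ble
  have ec : ∀ q j a, q ≠ z → BM μ (g S q j) a →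
      μ[a | Oc (g S) q j ⊔ β] =ᵐ[μ] μ[a | Oc G q j ⊔ β] :=
    fun q j a hq ha => keepE (h0 q j) (hOc q j) (sup_le_sup_right (oc_mono hle q j) β) (pi q j)
      (u _) rfl (fun s hs => (cl q j hq s hs).2) ha
  refine ⟨W, ?_, fun q' j' => ?_, ?_, ?_⟩
  · refine measurable_pi_iff.2 fun p => measurable_pi_iff.2 fun n => measurable_to_bool ?_
    have : (fun x => W x p n) ⁻¹' {true} = f p n := by ext x; simp [W]
    rw [this]
    refine h0 p.1 p.2 _ (MeasurableSpace.measurableSet_generateFrom ?_)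
    rw [hf p]
    exact ⟨n, rfl⟩
  · rw [congrFun (congrFun hW q') j']
    exact hle q' j'
  · rw [hW]
    refine ⟨h0, hG.ble, fun T hT a ha => hG.rows T hT a fun k hk =>
      (ha k hk).mono (Fib27.sup_mono'' subset_rfl fun i _ => hle k i),
      fun T hT a ha => hG.cols T hT a fun k hk =>
      (ha k hk).mono (Fib27.sup_mono'' subset_rfl fun i _ => hle i k),
      fun q hq j a ha => ?_, fun q hq a ψ ha hψ j j' => ?_⟩
    · exact (keepD (h0 q j) (hOc q j) (sup_le (h0 q j) hG.ble) (pi q j) (u _) rfl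
        (fun s hs => (cl q j hq s hs).1) ha).congr (ec q j a hq ha).symm
    · have e : ∀ j, ∫ x, ψ x * ((μ[a j | Oc (g S) q j ⊔ β]) x * pr a (univ.erase j) x) ∂μ =
          ∫ x, ψ x * ((μ[a j | Oc G q j ⊔ β]) x * pr a (univ.erase j) x) ∂μ := fun j =>
        integral_congr_ae ((ec q j _ hq (ha j)).mono fun x hx => by simp only [hx])
      rw [e, e]
      exact hG.f3 q hq a ψ (fun k => (ha k).mono (hle q k)) hψ j j'
  · rw [hW]
    refine ⟨j1, b, hj, v.2.1, v.2.2, ?_⟩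
    have l1 : g S q j ⊔ β ≤ G q j ⊔ β := sup_le_sup_right (hle q j) β
    have l2 : G q j ⊔ β ≤ m0 := sup_le (hG.le q j) hG.ble
    exact (v.1.ce_self (l1.trans l2)).symm.trans
      ((condExp_congr_ae eh).trans (condExp_condExp_of_le l1 l2))

lemma grid {z : ι} {X Zs : Type} [MeasurableSpace X]
    [MeasurableSpace Zs] (μ : Measure X) [IsProbabilityMeasure μ] {W : X → Cf ι} {Z : X → Zs}
    (hW : Measurable W) (hZ : Measurable Z)
    (hG : HGz (cm Z) (fun q j => (PC q j).comap W) z μ) :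
    ∀ᵐ y ∂μ.map Z, T5F.HG5 (condDistrib W Z μ y) (PC : ι → ι → MeasurableSpace (Cf ι)) z := by
  have ocl : ∀ q j : ι, Oc PC q j ≤ (inferInstance : MeasurableSpace (Cf ι)) := fun q j =>
    Fib27.sup_le' fun k _ => pc_le k j
  have oce : ∀ q j : ι, (Oc PC q j).comap W = Oc (fun q j => (PC q j).comap W) q j := fun q j =>
    comap_sup' _ _ _
  have a1 := gb fk (fun q : ι => sup (PC q) univ) μ W Z hW hZ
    (fun q => Fib27.sup_le' fun k _ => pc_le q k) (fun q => cg_sup _ _ fun k => pc_cg q k)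
    (by simpa only [comap_sup'] using hG.rows)
  have a2 := gb fk (fun j : ι => sup (fun q => PC q j) univ) μ W Z hW hZ
    (fun j => Fib27.sup_le' fun k _ => pc_le k j) (fun j => cg_sup _ _ fun k => pc_cg k j)
    (by simpa only [comap_sup'] using hG.cols)
  have a3 := fun (q : {q : ι // q ≠ z}) (j : ι) => g2 fk (PC q.1 j) (Oc PC q.1 j) μ W Z hW hZ
    (pc_le q.1 j) (ocl q.1 j) (pc_cg q.1 j) (cg_sup _ _ fun k => pc_cg k j)
    (by rw [oce]; exact hG.f2c q.1 q.2 j)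
  have a5 := fun q : {q : ι // q ≠ z} => g3 fk (PC q.1) (Oc PC q.1) μ W Z hW hZ (pc_le q.1)
    (ocl q.1) (pc_cg q.1) (fun j => cg_sup _ _ fun k => pc_cg k j)
    (by simp only [oce]; exact hG.f3 q.1 q.2)
  filter_upwards [a1, a2, ae_all_iff.2 fun q => ae_all_iff.2 fun j => a3 q j,
    ae_all_iff.2 a5] with y b1 b2 b3 b5
  exact ⟨pc_le, b1, b2, fun q hq => ⟨ocl q, b3 ⟨q, hq⟩, b5 ⟨q, hq⟩⟩⟩

/-- selection of labels in one fibre -/
theorem gf {m0 : MeasurableSpace Ω} (κ : Measure Ω) [IsProbabilityMeasure κ]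
    (p : ι → MeasurableSpace Ω) (hle : ∀ k, p k ≤ m0) (hc : 3 ≤ Fintype.card ι) (q : ι)
    (h : Ω → ℂ) (C : ℝ) (v : ℕ → ι → Ω → ℂ) (hhm : AEStronglyMeasurable h κ)
    (hw : ∃ w, Mem κ p q w ∧ ∫ x, h x * conj (w x) ∂κ ≠ 0) (hC : ∀ᵐ x ∂κ, ‖h x‖ ≤ C)
    (hv : ∀ i k, AEStronglyMeasurable (v i k) κ ∧ ∀ x, ‖v i k x‖ ≤ 1)
    (hden : ∀ χ : ι → Ω → ℂ, (∀ k, AEStronglyMeasurable[p k] (χ k) κ ∧ ∀ᵐ x ∂κ, ‖χ k x‖ ≤ 1) →
      ∀ ε : ℝ, 0 < ε → ∃ i, ∀ k, ∫ x, ‖v i k x - χ k x‖ ^ 2 ∂κ ≤ ε) :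
    ∃ i0 n : ℕ, C * (1 / (100 + n : ℝ)) < ‖∫ x, h x * conj (v i0 q x) ∂κ‖ ∧
      ∀ n' : ℕ, ∃ i, 1 - (1 / 4 : ℝ) ^ n' ≤ ‖∫ x, pr (v i) univ x ∂κ‖ ∧
        ∀ k, ∫ x, ‖v i k x - v i0 k x‖ ^ 2 ∂κ ≤ (1 / (100 + n : ℝ)) ^ 2 := by
  obtain ⟨w, ⟨χ, ⟨hm, h1, γ, hγ⟩, rfl⟩, ha⟩ := hw
  have hm0 : ∀ k, AEStronglyMeasurable (χ k) κ := fun k => (hm k).mono (hle k)
  have h1' : ∀ k, ∀ᵐ x ∂κ, ‖χ k x‖ ≤ 1 := fun k => (h1 k).mono fun x hx => hx.le
  have hd := hden χ fun k => ⟨hm k, h1' k⟩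
  have hdm : ∀ i k, AEStronglyMeasurable (fun x => v i k x - χ k x) κ :=
    fun i k => (hv i k).1.sub (hm0 k)
  have hdb : ∀ i k, ∀ᵐ x ∂κ, ‖v i k x - χ k x‖ ≤ 2 := fun i k => by
    filter_upwards [h1' k] with x hx
    have := norm_sub_le (v i k x) (χ k x)
    linarith [(hv i k).2 x]
  have hC0 : 0 ≤ C := by
    obtain ⟨x, hx⟩ := hC.exists
    exact (norm_nonneg _).trans hx
  have hγ1 : ‖γ‖ = 1 := by
    obtain ⟨x, hx, hx'⟩ := ((ae_all_iff.2 h1).and hγ).exists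
    rw [← hx', norm_prod]
    exact Finset.prod_eq_one fun k _ => hx k
  have hapos : 0 < ‖∫ x, h x * conj (χ q x) ∂κ‖ := norm_pos_iff.2 ha
  obtain ⟨n, hn⟩ := exists_nat_gt (2 * C / ‖∫ x, h x * conj (χ q x) ∂κ‖)
  have hN : (0 : ℝ) < 100 + n := by positivity
  obtain ⟨η, hη⟩ : ∃ η : ℝ, η = 1 / (100 + n : ℝ) := ⟨_, rfl⟩
  have hη0 : 0 < η := by rw [hη]; positivity
  have hCη : 2 * (C * η) < ‖∫ x, h x * conj (χ q x) ∂κ‖ := by
    rw [div_lt_iff₀ hapos] at hn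
    have : 2 * (C * η) = 2 * C / (100 + n) := by rw [hη]; ring
    rw [this, div_lt_iff₀ hN]
    nlinarith
  obtain ⟨i0, hi0⟩ := hd ((η / 2) ^ 2) (by positivity)
  have hcm : ∀ f : Ω → ℂ, AEStronglyMeasurable f κ → (∀ᵐ x ∂κ, ‖f x‖ ≤ 1) →
      Integrable (fun x => h x * conj (f x)) κ := fun f hf hb => by
    refine Integrable.of_bound (hhm.mul (Complex.continuous_conj.comp_aestronglyMeasurable hf))
      C ?_
    filter_upwards [hb, hC] with x hx hx'
    rw [norm_mul, Complex.norm_conj]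
    exact (mul_le_of_le_one_right (norm_nonneg _) hx).trans hx'
  refine ⟨i0, n, ?_, fun n' => ?_⟩
  · rw [← hη]
    have e1 := GF.l1_le (hdm i0 q) (hdb i0 q) (by positivity : 0 < η / 2) (hi0 q)
    have e2 : ‖∫ x, h x * conj (χ q x) ∂κ - ∫ x, h x * conj (v i0 q x) ∂κ‖ ≤
        ∫ x, C * ‖v i0 q x - χ q x‖ ∂κ := by
      rw [← integral_sub (hcm _ (hm0 q) (h1' q))
        (hcm _ (hv i0 q).1 (Eventually.of_forall (hv i0 q).2))]
      refine norm_integral_le_of_norm_le ((GF.int1 (hdm i0 q) (hdb i0 q)).const_mul C) ?_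
      filter_upwards [hC] with x hx
      rw [← mul_sub, ← map_sub, norm_mul, Complex.norm_conj, norm_sub_rev]
      exact mul_le_mul_of_nonneg_right hx (norm_nonneg _)
    rw [integral_const_mul] at e2
    have e3 := norm_sub_norm_le (∫ x, h x * conj (χ q x) ∂κ) (∫ x, h x * conj (v i0 q x) ∂κ)
    have e4 := mul_le_mul_of_nonneg_left e1 hC0
    have e5 : 0 ≤ C * η := mul_nonneg hC0 hη0.le
    linarith
  · rw [← hη]
    have hK : (0 : ℝ) < Fintype.card ι := by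
      have : 0 < Fintype.card ι := by omega
      exact_mod_cast this
    obtain ⟨δ, hδ⟩ : ∃ δ : ℝ, δ = min (η / 2) ((1 / 4) ^ n' / Fintype.card ι) := ⟨_, rfl⟩
    have hδ0 : 0 < δ := by rw [hδ]; positivity
    have hδ1 : δ ≤ η / 2 := by rw [hδ]; exact min_le_left _ _
    have hδ2 : Fintype.card ι * δ ≤ (1 / 4 : ℝ) ^ n' := by
      have : δ ≤ (1 / 4) ^ n' / Fintype.card ι := by rw [hδ]; exact min_le_right _ _
      rwa [le_div_iff₀ hK, mul_comm] at this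
    obtain ⟨i, hi⟩ := hd (δ ^ 2) (by positivity)
    refine ⟨i, ?_, fun k => ?_⟩
    · have hpi : Integrable (pr (v i) univ) κ := by
        refine Integrable.of_bound
          (Finset.aestronglyMeasurable_fun_prod univ fun k _ => (hv i k).1) 1
          (Eventually.of_forall fun x => ?_)
        show ‖∏ k, v i k x‖ ≤ 1
        rw [norm_prod]
        exact Finset.prod_le_one (fun k _ => norm_nonneg _) fun k _ => (hv i k).2 x
      have e0 : ∫ x, (pr (v i) univ x - γ) ∂κ = ∫ x, pr (v i) univ x ∂κ - γ := by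
        rw [integral_sub hpi (integrable_const _)]
        simp
      have e1 : ‖∫ x, (pr (v i) univ x - γ) ∂κ‖ ≤ ∫ x, ∑ k, ‖v i k x - χ k x‖ ∂κ := by
        refine norm_integral_le_of_norm_le
          (integrable_finsetSum _ fun k _ => GF.int1 (hdm i k) (hdb i k)) ?_
        filter_upwards [ae_all_iff.2 h1', hγ] with x hx hx'
        rw [← hx']
        exact GF.prod_sub _ _ (fun k => (hv i k).2 x) hx univ
      rw [e0, integral_finsetSum _ fun k _ => GF.int1 (hdm i k) (hdb i k)] at e1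
      have e2 : ∑ k, ∫ x, ‖v i k x - χ k x‖ ∂κ ≤ ∑ _k : ι, δ :=
        Finset.sum_le_sum fun k _ => GF.l1_le (hdm i k) (hdb i k) hδ0 (hi k)
      rw [Finset.sum_const, Finset.card_univ, nsmul_eq_mul] at e2
      have e3 := norm_sub_norm_le γ (∫ x, pr (v i) univ x ∂κ)
      rw [norm_sub_rev, hγ1] at e3
      linarith
    · have e1 : ∫ x, ‖v i k x - v i0 k x‖ ^ 2 ∂κ ≤
          ∫ x, (2 * ‖v i k x - χ k x‖ ^ 2 + 2 * ‖v i0 k x - χ k x‖ ^ 2) ∂κ := by
        refine integral_mono_of_nonneg (Eventually.of_forall fun x => by positivity)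
          (((GF.int2 (hdm i k) (hdb i k)).const_mul 2).add
            ((GF.int2 (hdm i0 k) (hdb i0 k)).const_mul 2)) (Eventually.of_forall fun x => ?_)
        have t1 : ‖v i k x - v i0 k x‖ ≤ ‖v i k x - χ k x‖ + ‖v i0 k x - χ k x‖ := by
          have := norm_sub_le (v i k x - χ k x) (v i0 k x - χ k x)
          rwa [sub_sub_sub_cancel_right] at this
        have t2 := pow_le_pow_left₀ (norm_nonneg _) t1 2
        show ‖v i k x - v i0 k x‖ ^ 2 ≤
          2 * ‖v i k x - χ k x‖ ^ 2 + 2 * ‖v i0 k x - χ k x‖ ^ 2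
        nlinarith [sq_nonneg (‖v i k x - χ k x‖ - ‖v i0 k x - χ k x‖)]
      rw [integral_add ((GF.int2 (hdm i k) (hdb i k)).const_mul 2)
        ((GF.int2 (hdm i0 k) (hdb i0 k)).const_mul 2), integral_const_mul,
        integral_const_mul] at e1
      have t3 := pow_le_pow_left₀ hδ0.le hδ1 2
      have t4 := hi k
      have t5 := hi0 k
      nlinarith

lemma core {X Zs : Type} (β : MeasurableSpace X) [m0 : MeasurableSpace X] [MeasurableSpace Zs]
    (μ : Measure X) [IsProbabilityMeasure μ] {W : X → Cf ι} {Z : X → Zs} (hβ : β = cm Z)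
    (hW : Measurable W) (hZ : Measurable Z) {z : ι}
    (hG : HGz β (fun q j => (PC q j).comap W) z μ) (hc : Fintype.card ι = 3) {q j : ι}
    (hq : q ≠ z) {h : X → ℂ} {C : ℝ} (hV : DV β (fun q j => (PC q j).comap W) q j μ h)
    (hC : 0 ≤ C) (hb : ∀ᵐ x ∂μ, ‖h x‖ ≤ C) (hne : ¬ h =ᵐ[μ] 0) :
    ∃ (v : ℕ → ι → Cf ι → ℂ) (i0 n : ℕ),
      (∀ i k, Measurable[PC k j] (v i k) ∧ ∀ ω, ‖v i k ω‖ ≤ 1) ∧
      μ (DS β μ (fun i k x => v i k (W x)) (fun k x => v i0 k (W x)) (1 / (100 + n : ℝ)) ∩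
        {x | C * (1 / (100 + n : ℝ)) < ‖(μ[fun y => h y * conj (v i0 q (W y)) | β]) x‖}) ≠ 0 := by
  subst hβ
  have hK := fk
  obtain ⟨v, hv, hd⟩ := lab ι j
  obtain ⟨j1, b, hj, hb0, hb1, eh⟩ := hV
  have mv : ∀ i k, Measurable (v i k) := fun i k => (hv i k).1.mono (pc_le k j) le_rfl
  have ocl : Oc PC q j1 ≤ (inferInstance : MeasurableSpace (Cf ι)) :=
    Fib27.sup_le' fun k _ => pc_le k j1
  have hp : BM μ m0 (pr b (univ.erase j)) :=
    BM.pr fun k _ => (hb0 k).mono (sup_le (hG.le q k) hG.ble)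
  have hh : BM μ ((PC q j).comap W ⊔ cm Z) h := (hp.ce _).congr eh.symm
  obtain ⟨g, mg, bg, sg, eg⟩ := hK.rep (PC q j) μ W Z h C (pc_le q j) hC hh.1 hb
  have hD : ∀ k, ∃ D : ℝ, 0 ≤ D ∧ ∀ᵐ x ∂μ, ‖b k x‖ ≤ D := fun k => by
    obtain ⟨D, hD⟩ := (hb0 k).2
    exact ⟨max D 0, le_max_right _ _, hD.mono fun x hx => hx.trans (le_max_left _ _)⟩
  choose D hD0 hD1 using hD
  choose B mB bB sB eB using fun k =>
    hK.rep (PC q k) μ W Z (b k) (D k) (pc_le q k) (hD0 k) (hb0 k).1 (hD1 k)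
  obtain ⟨g1, mg1, -, sg1, eg1⟩ := hK.rep (Oc PC q j1) μ W Z (b j1) (D j1) ocl (hD0 j1)
    (by rw [Oc, comap_sup']; exact hb1.1) (hD1 j1)
  have a1 := ae_of_ae_map hZ.aemeasurable (grid μ hW hZ hG)
  have a2 := ae_of_ae_map hZ.aemeasurable
    ((hK.ae μ W Z hW hZ g1 (B j1) mg1 (mB j1)).1 (eg1.symm.trans (eB j1)))
  have a3 := ae_of_ae_map hZ.aemeasurable (hK.ce (PC q j) μ W Z hW hZ (pc_le q j) (pc_cg q j)
    (pr B (univ.erase j)) ⟨Finset.measurable_prod _ fun k _ => mB k, ∏ k ∈ univ.erase j, D k,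
      fun y => by
        rw [pr, norm_prod]
        exact prod_le_prod (fun k _ => norm_nonneg _) fun k _ => bB k y⟩ g ⟨mg, C, bg⟩ sg (by
      refine (condExp_congr_ae ?_).trans (eh.symm.trans eg)
      filter_upwards [ae_all_iff.2 eB] with x hx
      exact prod_congr rfl fun k _ => (hx k).symm))
  have bp : ∀ i ω, ‖pr (v i) univ ω‖ ≤ 1 := fun i ω => by
    rw [pr, norm_prod]
    exact prod_le_one (fun k _ => norm_nonneg _) fun k _ => (hv i k).2 ω
  have mp : ∀ i, Measurable (pr (v i) univ) := fun i => Finset.measurable_prod _ fun k _ => mv i k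
  have a4 : ∀ i, μ[pr (fun k x => v i k (W x)) univ | cm Z] =ᵐ[μ]
      fun x => ∫ ω, pr (v i) univ ω ∂condDistrib W Z μ (Z x) := fun i =>
    condExp_ae_eq_integral_condDistrib hZ hW.aemeasurable (mp i).stronglyMeasurable
      (Integrable.of_bound ((mp i).comp hW).aestronglyMeasurable 1
        (Eventually.of_forall fun x => bp i _))
  have a5 : ∀ i i' k, μ[fun y => ‖v i k (W y) - v i' k (W y)‖ ^ 2 | cm Z] =ᵐ[μ]
      fun x => ∫ ω, ‖v i k ω - v i' k ω‖ ^ 2 ∂condDistrib W Z μ (Z x) := fun i i' k => by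
    have m : Measurable fun ω => ‖v i k ω - v i' k ω‖ ^ 2 :=
      ((mv i k).sub (mv i' k)).norm.pow_const 2
    refine condExp_ae_eq_integral_condDistrib hZ hW.aemeasurable m.stronglyMeasurable
      (Integrable.of_bound (m.comp hW).aestronglyMeasurable (2 ^ 2)
        (Eventually.of_forall fun x => ?_))
    rw [norm_pow, norm_norm]
    refine pow_le_pow_left₀ (norm_nonneg _) ((norm_sub_le _ _).trans ?_) 2
    linarith [(hv i k).2 (W x), (hv i' k).2 (W x)]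
  have a6 : ∀ i, μ[fun y => h y * conj (v i q (W y)) | cm Z] =ᵐ[μ]
      fun x => ∫ ω, g (Z x, ω) * conj (v i q ω) ∂condDistrib W Z μ (Z x) := fun i => by
    refine (condExp_congr_ae ?_).trans (hK.int μ W Z hW hZ (fun p => g p * conj (v i q p.2))
      ⟨mg.mul (Complex.continuous_conj.measurable.comp ((mv i q).comp measurable_snd)), C,
        fun p => ?_⟩)
    · filter_upwards [eg] with x hx
      rw [hx]
    · rw [norm_mul, Complex.norm_conj]
      exact (mul_le_of_le_one_right (norm_nonneg _) ((hv i q).2 _)).trans (bg p)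
  have a7 : μ[fun y => h y * conj (h y) | cm Z] =ᵐ[μ]
      fun x => ∫ ω, g (Z x, ω) * conj (g (Z x, ω)) ∂condDistrib W Z μ (Z x) := by
    refine (condExp_congr_ae ?_).trans (hK.int μ W Z hW hZ (fun p => g p * conj (g p))
      ⟨mg.mul (Complex.continuous_conj.measurable.comp mg), C * C, fun p => ?_⟩)
    · filter_upwards [eg] with x hx
      rw [hx]
    · rw [norm_mul, Complex.norm_conj]
      exact mul_le_mul (bg p) (bg p) (norm_nonneg _) hC
  by_contra hcon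
  push Not at hcon
  have a8 := ae_all_iff.2 fun i0 => ae_all_iff.2 fun n =>
    measure_eq_zero_iff_ae_notMem.1 (hcon v i0 n hv)
  have h0 : BM μ m0 h := hh.mono (sup_le (hG.le q j) hG.ble)
  refine hne (Fib27.eq_zero_of_int_conj h0 ?_)
  rw [← integral_condExp hG.ble]
  refine integral_eq_zero_of_ae ?_
  filter_upwards [a1, a2, a3, ae_all_iff.2 a4, ae_all_iff.2 fun i => ae_all_iff.2 fun i' =>
    ae_all_iff.2 (a5 i i'), ae_all_iff.2 a6, a7, a8] with x b1 b2 b3 b4 b5 b6 b7 b8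
  rw [b7]
  have bz : ∀ k, BM (condDistrib W Z μ (Z x)) (PC q k) fun ω => B k (Z x, ω) := fun k =>
    ⟨(sB k _).aestronglyMeasurable, D k, Eventually.of_forall fun ω => bB k _⟩
  by_cases hz : (fun ω => g (Z x, ω)) =ᵐ[condDistrib W Z μ (Z x)] 0
  · refine integral_eq_zero_of_ae ?_
    filter_upwards [hz] with ω hω
    simp only [hω, Pi.zero_apply, zero_mul]
  · obtain ⟨i0, n, c1, c2⟩ := gf _ (fun k => PC k j) (fun k => pc_le k j) hc.ge q _ C v
      (mg.comp measurable_prodMk_left).aestronglyMeasurable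
      (T5F.fspanD b1 hc hq hj bz ((bz j1).of_aesm ((sg1 _).aestronglyMeasurable.congr b2))
        b3.symm hz)
      (Eventually.of_forall fun ω => bg _)
      (fun i k => ⟨(mv i k).aestronglyMeasurable, (hv i k).2⟩) (hd _)
    refine absurd ⟨?_, ?_⟩ (b8 i0 n)
    · refine Set.mem_iInter.2 fun n' => ?_
      obtain ⟨i, d1, d2⟩ := c2 n'
      refine Set.mem_iUnion.2 ⟨i, ?_, fun k => ?_⟩
      · rw [b4]; exact d1
      · rw [b5]; exact d2 k
    · rw [Set.mem_ofPred_eq, b6]; exact c1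

end GGz

theorem ggz : GGzS := by
  intro Ω ι _ _ β G z q j m0 μ _ h C hG hc hq hV hC hb hne
  obtain ⟨W, hW, hle, hG', hV'⟩ := GGz.ga β G z q j μ h hG hV
  obtain ⟨v, i0, n, hv, e⟩ := @GGz.core ι _ _ Ω Ω β m0 β μ _ W id
    MeasurableSpace.comap_id.symm hW (measurable_id'' hG.ble) z hG' hc q j hq h C hV' hC hb hne
  have lb : ∀ i k, Lb (G k j) μ fun x => v i k (W x) := fun i k =>
    ⟨((((hv i k).1.comp (@comap_measurable _ _ (PC k j) W)).mono (hle k j)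
      le_rfl).stronglyMeasurable).aestronglyMeasurable, fun x => (hv i k).2 _⟩
  refine ⟨_, _, _, lb, lb i0, by positivity, ?_, e⟩
  exact one_div_le_one_div_of_le (by norm_num) (le_add_of_nonneg_right (Nat.cast_nonneg n))

end T5x

end
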