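import Pool.Agent.MP_154433_an.t5.SpecG
import Pool.Agent.MP_154433_an.t3.GLn

/-! Families of sets that describe an event of the line. -/

set_option autoImplicit false
set_option linter.unusedVariables false
set_option warn.classDefReducibility false

open MeasureTheory ProbabilityTheory Filter Topology Function Finset ComplexConjugate
open scoped BigOperators
open Fib27 (BM sup pr Oc Orow F23 LInd Mem)
open Pool.Agent.MP_154433_an.SG (Uni ufn)

noncomputable section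

namespace T5g

open T3x T5x

namespace GLn

open T3x.GLn (Rp Tz_neg)

theorem rec1_mem (fd : Fd) (c : Cx) {V : Type} (A : V → V → Lab → Set c.X.X) (i1 : Bool)
    (l : Lab) (a a' : V) (x : c.X.X) :
    c.X.Tz (rho (zs i1) l) x ∈ rec1 c A i1 l a a' ↔ x ∈ A a a' l := by
  unfold rec1
  rw [Set.mem_preimage, Tz_neg fd]

theorem stp_Tz (fd : Fd) (c : Cx) (i1 i2 : Bool) (l : Lab) (x : c.X.X) :
    c.X.Tz (stp i1 i2 l) (c.X.Tz (rho (zs i1) l) x) = c.X.Tz (rho (zs i2) l) x := by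
  rw [← fd.t.add, stp, sub_add_cancel]

theorem rec1_meas (fd : Fd) (c : Cx) {V : Type} {ψ : V → c.X.X → ℂ} {i1 i2 : Bool}
    {A : V → V → Lab → Set c.X.X} (h : Desc c ψ i1 i2 A) (l : Lab) (a a' : V) :
    MeasurableSet (rec1 c A i1 l a a') := (fd.t.mp c.X _).measurable (h.1 a a' l)

theorem desc_rp {c : Cx} {V : Type} {ψ : V → c.X.X → ℂ} {i1 i2 : Bool}
    {A : V → V → Lab → Set c.X.X} (h : Desc c ψ i1 i2 A) (a a' : V) :
    Rp c.L (A a a') (c.SV ψ i1 i2 a a') := T3x.GLn.Rp.of_ae (h.1 a a') (h.2 a a')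

theorem th_meas (rc : Rc) (c : Cx) (g : c.X.X → ℂ) : MeasurableSet (Th c.B c.X.μ g) :=
  c.kc.1.le _ (rc.meas c.B c.X.μ g)

theorem nt_iff (c : Cx) (k : Bool) (g : c.X.X → ℂ) (w : c.W.X) :
    w ∈ c.Nt k g ↔ w ∉ c.L.π (zs k) ⁻¹' Th c.B c.X.μ g := Iff.rfl

end GLn

end T5g

end
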