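import Pool.Agent.MP_154433_an.t5.Defs
import Pool.Agent.MP_154433_an.t3.Rep
import Pool.Agent.MP_154433_an.t3.GSpU
import Pool.Agent.MP_154433_an.t3.GSp1
import Pool.Agent.MP_154433_an.t3.Full

/-! Elementary facts on the saturated grid. -/

set_option autoImplicit false
set_option linter.unusedVariables false
set_option warn.classDefReducibility false

open MeasureTheory ProbabilityTheory Filter Topology Function Finset ComplexConjugate
open scoped BigOperators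
open Fib27 (BM sup pr Oc Orow F23 LInd Mem)
open Pool.Agent.MP_154433_an.SG (Uni ufn)

noncomputable section

namespace T5x

open T3x

namespace GxU

open T3x.RepL (um_bm um_mono um_mul um_cj um_pr bm_of)

/-- the slots of the columns are measurable -/
def Lz (g : Gx) : Prop := ∀ j k, g.Pc j k ≤ (g.W j).ms

theorem three : 3 ≤ Fintype.card (Option Bool) := le_of_eq (by rfl)

variable {g : Gx}

theorem mA (g : Gx) (q : Bool) : MeasurePreserving (g.A q) g.W2.μ g.W1.μ := (g.L2.emb _).mp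

theorem mP (g : Gx) (j : Option Bool) (k : Bool) :
    MeasurePreserving (g.π j k) (g.W j).μ (g.X j).μ := ((g.L j).emb _).mp

theorem mB (o : g.OK) (j : Option Bool) : MeasurePreserving (g.Bc j) g.W2.μ (g.W j).μ :=
  (o.lift j).emb.mp

theorem mp (o : g.OK) (j : Option Bool) : MeasurePreserving (g.p j) g.W1.μ (g.X j).μ :=
  (o.adm j).emb.mp

theorem b1_le (o : g.OK) : g.B1 ≤ g.W1.ms := (o.adm none).kc.1.le

theorem facB2 (F : Fd) (o : g.OK) (j : Option Bool) : Fac (g.W j) (g.B2 j) :=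
  (F.h.kc (g.W j) _ (g.L j).nice (F.lb.fac (g.L j) (g.B j) (o.kc j).1)).1

theorem leβ (F : Fd) (o : g.OK) : g.β ≤ g.W2.ms :=
  (F.h.kc g.W2 _ g.L2.nice (F.lb.fac g.L2 g.B1 (o.adm none).kc.1)).1.le

theorem leP1 (F : Fd) (o : g.OK) (j : Option Bool) : g.P1 j ≤ g.W1.ms :=
  F.a.pull_le _ _ _ _ (mp o j) le_rfl

theorem leG (F : Fd) (o : g.OK) (z : Lz g) (k j : Option Bool) : g.G k j ≤ g.W2.ms :=
  F.a.pull_le _ _ _ _ (mB o j) (z j k)

theorem top (F : Fd) (o : g.OK) (z : Lz g) (k j : Option Bool) : g.G k j ⊔ g.β ≤ g.W2.ms :=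
  sup_le (leG F o z k j) (leβ F o)

theorem tup_um (F : Fd) (o : g.OK) (z : Lz g) {j : Option Bool}
    {φ : Option Bool → (g.W j).X → ℂ} (h : g.Tup1 j φ) (k : Option Bool) :
    Um (g.W j).ms (g.W j).μ (φ k) :=
  um_mono (h k) (sup_le (z j k) (facB2 F o j).le)

theorem bm_col (F : Fd) (o : g.OK) (gi : g.GI) {i k : Option Bool} {φ : (g.W i).X → ℂ}
    (h : BM (g.W i).μ (g.Pc i k ⊔ g.B2 i) φ) : BM g.W2.μ (g.G k i ⊔ g.β) fun x => φ (g.Bc i x) := by
  have h1 := F.a.bm_comp _ g.W2.μ (g.W i).μ _ _ (mB o i) h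
  rw [F.a.pull_sup] at h1
  exact h1.mono (sup_le_sup_left (gi.colB i) _)

theorem um_col (F : Fd) (o : g.OK) (gi : g.GI) {i : Option Bool}
    {φ : Option Bool → (g.W i).X → ℂ} (h : g.Tup1 i φ) (k : Option Bool) :
    Um (g.G k i ⊔ g.β) g.W2.μ fun x => φ k (g.Bc i x) :=
  ⟨(bm_col F o gi (um_bm (h k))).1, (mB o i).quasiMeasurePreserving.ae (h k).2⟩

theorem um_row (F : Fd) (o : g.OK) (gi : g.GI) (k : Bool) {i : Option Bool} {φ : g.W1.X → ℂ}
    (h : Um (g.P1 i ⊔ g.B1) g.W1.μ φ) :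
    Um (g.G (some k) i ⊔ g.β) g.W2.μ fun x => φ (g.A k x) := by
  refine ⟨?_, (mA g k).quasiMeasurePreserving.ae h.2⟩
  have h1 := F.a.bm_comp _ g.W2.μ g.W1.μ _ _ (mA g k) (um_bm h)
  rw [F.a.pull_sup, ← gi.grow] at h1
  exact (h1.mono (sup_le_sup_left (gi.rowB k) _)).1

theorem G_eq (F : Fd) (o : g.OK) (gi : g.GI) (k : Bool) (j : Option Bool) :
    g.G (some k) j = pull g.W2.μ (g.p j ∘ g.A k) (g.X j).ms :=
  (gi.grow k j).trans (F.a.pull_comp _ _ _ _ _ (mA g k))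

theorem clG (o : g.OK) (z : Lz g) (gi : g.GI) (k : Option Bool) : CLine g.β (g.G k) g.W2.μ := by
  intro S hS f hf
  refine gi.cols S hS f fun i hi => (hf i hi).mono ?_
  exact sup_le_sup_right (MeasurableSpace.comap_mono (z i k)) _

theorem msA (gi : g.GI) (q : Bool) {D : Set g.W1.X} (hD : MeasurableSet[g.B1] D) :
    MeasurableSet[g.β] (g.A q ⁻¹' D) :=
  (le_sup_left.trans (gi.rowB q) : g.B1.comap (g.A q) ≤ g.β) _ ⟨D, hD, rfl⟩

theorem msB (gi : g.GI) (j : Option Bool) {D : Set (g.W j).X} (hD : MeasurableSet[g.B2 j] D) :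
    MeasurableSet[g.β] (g.Bc j ⁻¹' D) :=
  (le_sup_left.trans (gi.colB j) : (g.B2 j).comap (g.Bc j) ≤ g.β) _ ⟨D, hD, rfl⟩

theorem bm_B (o : g.OK) (j : Option Bool) {φ : (g.W j).X → ℂ} (h : BM (g.W j).μ (g.W j).ms φ) :
    BM g.W2.μ g.W2.ms fun x => φ (g.Bc j x) := GSp1P.bm_up (mB o j) h

theorem bm_A (k : Bool) {φ : g.W1.X → ℂ} (h : BM g.W1.μ g.W1.ms φ) :
    BM g.W2.μ g.W2.ms fun x => φ (g.A k x) := GSp1P.bm_up (mA g k) h

theorem th_meas (r : Rc) (gi : g.GI) (i : Option Bool) (φ : Option Bool → (g.W i).X → ℂ) :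
    MeasurableSet[g.β] (g.Bc i ⁻¹' g.Θ i φ) := msB gi i (r.meas _ _ _)

/-- on the event of a column tuple the product is a function of the base -/
theorem th_eq (F : Fd) (r : Rc) (o : g.OK) (z : Lz g) (gi : g.GI) {i : Option Bool}
    {φ : Option Bool → (g.W i).X → ℂ} (h : g.Tup1 i φ) :
    ∃ κ, BM g.W2.μ g.β κ ∧ ∀ᵐ x ∂g.W2.μ, x ∈ g.Bc i ⁻¹' g.Θ i φ → ∏ k, φ k (g.Bc i x) = κ x := by
  have hu : Um (g.W i).ms (g.W i).μ (pr φ univ) := um_pr _ (tup_um F o z h)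
  refine ⟨fun x => ((g.W i).μ[pr φ univ | g.B2 i]) (g.Bc i x),
    (F.a.bm_comp _ g.W2.μ (g.W i).μ _ _ (mB o i) ((um_bm hu).ce (g.B2 i))).mono (gi.colB i), ?_⟩
  exact (mB o i).quasiMeasurePreserving.ae (r.eq (g.B2 i) (g.W i).μ _ (facB2 F o i).le hu)

theorem swap (F : Fd) (o : g.OK) (gi : g.GI) (k : Bool) (j : Option Bool) {y : (g.X j).X → ℂ}
    (my : Measurable y) :
    (fun x => y (g.p j (g.A k x))) =ᵐ[g.W2.μ] fun x => y (g.π j k (g.Bc j x)) :=
  F.a.keq_fun (g.X j).ms g.W2.μ (g.X j).μ _ _ y ((mp o j).comp (mA g k))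
    ((mP g j k).comp (mB o j)) (gi.col k j) my.aestronglyMeasurable

/-- dual functions are bounded functions of their cell -/
theorem dv_bm {Ω ι : Type} [Fintype ι] [DecidableEq ι] {β : MeasurableSpace Ω}
    {G : ι → ι → MeasurableSpace Ω} {q j : ι} {m0 : MeasurableSpace Ω} {μ : Measure Ω}
    [IsProbabilityMeasure μ] {h : Ω → ℂ} (hle : ∀ k, G q k ⊔ β ≤ m0) (hV : DV β G q j μ h) :
    BM μ (G q j ⊔ β) h := by
  obtain ⟨j1, b, -, hb, -, e⟩ := hV
  exact ((BM.pr fun k _ => (hb k).mono (hle k)).ce _).congr e.symm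

end GxU

end T5x

end
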