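import Pool.Agent.MP_154433_an.t5.SpecR
import Pool.Agent.MP_154433_an.t3.GRelC
import Pool.Agent.MP_154433_an.t3.GPsc

/-! Assembly of the items 6 and 7 from the rows. -/

set_option autoImplicit false
set_option linter.unusedVariables false
set_option warn.classDefReducibility false

open MeasureTheory ProbabilityTheory Filter Topology Function Finset ComplexConjugate
open scoped BigOperators
open Fib27 (BM sup pr Oc Orow F23 LInd Mem)

noncomputable section

namespace T5x

open T3x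

theorem decZ (F : Fd) (R : Rc) {X : Sys} {B : MeasurableSpace X.X} {V : Type} [AddCommGroup V]
    {sg : AddAut V} {ψ : V → X.X → ℂ} (hX : Nice X) (hB : KC X B) (P : PsC X B sg ψ) :
    DecZ X B sg ψ := by
  intro a
  have e : KK X B = B := le_antisymm hB.2 (F.kb.le X B hX hB.1)
  have b := GRelC.off_bm R hB.1 P a
  have w : WM X B (GRelC.off B ψ a) :=
    (F.kb.wm X B hX hB.1 _ (b.memLp 2)).2 (by rw [e]; exact P.off a)
  refine squeeze_zero (fun N => ?_) (fun N => ?_) (w.2 _ (P.bm a).conj)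
  · exact mul_nonneg (inv_nonneg.2 (Nat.cast_nonneg N)) (sum_nonneg fun n _ => measureReal_nonneg)
  · exact mul_le_mul_of_nonneg_left (sum_le_sum fun n _ => GRelC.two R hB.1 P n a a)
      (inv_nonneg.2 (Nat.cast_nonneg N))

theorem pass_of (fd : Fd) (rc : Rc) (h1 : Pass1) (h2 : Pass2) (h3 : Rud) : Pass := by
  intro c V _ sg ψ I j v hψ mI hI h
  have P := xPsc fd rc c.X c.B V sg ψ c.kc.1 hψ
  obtain ⟨a, a', ha⟩ := h1 c V sg ψ I j v hψ P (decZ fd rc c.nice c.kc P) mI hI h
  have hB : MeasurableSet[c.B] I :=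
    ((fd.kb.inv c.X c.B c.nice c.kc.1).trans c.kc.2) I
      ((le_sup_left : MeasurableSpace.invariants c.X.T ≤ T3x.Inv c.X) I ⟨mI, hI⟩)
  exact ⟨a, h3 c.ν c.U c.X c.B V sg ψ I a c.hU c.uw c.kc.1 hψ P hB
    (h2 c V sg ψ I j a a' hψ P mI hI ha)⟩

end T5x

end
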