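import Pool.Agent.MP_154433_an.t5.Spec

/-! Row Core: the core theorem descends from a saturated extension. -/

set_option autoImplicit false
set_option linter.unusedVariables false
set_option warn.classDefReducibility false

open MeasureTheory ProbabilityTheory Filter Topology Function Finset ComplexConjugate
open scoped BigOperators
open Fib27 (BM sup pr Oc Orow F23 LInd Mem)
open Pool.Agent.MP_154433_an.SG (Uni ufn)

noncomputable section

namespace T5x

open T3x

namespace XCoreL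

theorem ae_comp {Ω Ω' : Type} {m : MeasurableSpace Ω} {m' : MeasurableSpace Ω'} {μ : Measure Ω}
    {μ' : Measure Ω'} {p : Ω → Ω'} (h : MeasurePreserving p μ μ') {f : Ω' → ℂ}
    (e : f =ᵐ[μ'] 0) : (fun x => f (p x)) =ᵐ[μ] 0 :=
  h.quasiMeasurePreserving.ae_eq_comp e

theorem of_comp {Ω Ω' : Type} {m : MeasurableSpace Ω} {m' : MeasurableSpace Ω'} {μ : Measure Ω}
    {μ' : Measure Ω'} {p : Ω → Ω'} (h : MeasurePreserving p μ μ') {f : Ω' → ℂ}
    (hf : StronglyMeasurable f) (e : (fun x => f (p x)) =ᵐ[μ] 0) : f =ᵐ[μ'] 0 := by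
  rw [← h.map_eq]
  exact (ae_map_iff h.measurable.aemeasurable
    (hf.measurableSet_eq_fun stronglyMeasurable_zero)).2 e

theorem mpc {Z Y X : Sys} {p : Z.X → Y.X} {q : Y.X → X.X} (hp : Emb Z Y p) (hq : Emb Y X q) :
    MeasurePreserving (q ∘ p) Z.μ X.μ := hq.mp.comp hp.mp

theorem ms {Y X : Sys} {p : Y.X → X.X} (hp : Emb Y X p) : Measurable p := hp.mp.measurable

end XCoreL

open XCoreL in
theorem coreR : CoreR := by
  intro fd az sat step ν U hU uw X B L hX hB f f' F hf hf' h0 hF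
  obtain ⟨X', B', p, L', adm, hs⟩ := sat ν U X B hX hB
  obtain ⟨Lp, hL⟩ := fd.la.ex L' L p adm.emb
  have hp := adm.emb.mp
  have hq := hL.emb.mp
  have core : Core L' B' := not_not.1 (step (mkCx fd hU uw L' adm.nice adm.kc) hs)
  have bm : ∀ g, BM X.μ X.ms g → BM X'.μ X'.ms fun x => g (p x) := fun g hg =>
    (fd.a.bm_comp X.ms X'.μ X.μ p g hp hg).mono (fd.a.pull_le X.ms X'.μ X.μ p hp le_rfl)
  have bl : ∀ g q, BM X.μ X.ms g → BM L.W.μ L.W.ms fun w => g (L.π (zs q) w) := fun g q hg =>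
    (fd.a.bm_comp X.ms L.W.μ X.μ _ g (L.emb _).mp hg).mono
      (fd.a.pull_le X.ms L.W.μ X.μ _ (L.emb _).mp le_rfl)
  have z : X'.μ[fun x => f (p x) | B'] =ᵐ[X'.μ] 0 :=
    ((adm.cp _ (fd.a.bm_comp X.ms X'.μ X.μ p f hp hf)).trans
      (fd.a.ce_comp B X'.μ X.μ p f hp hB.1.le hf.integrable)).trans
      (ae_comp hp h0)
  have h1 := core _ _ _ (bm f hf) (bm f' hf') z
    (az.comp (m := X.ms) (m' := X'.ms) p (ms adm.emb) F hF)
  have sl : ∀ g q, BM X.μ X.ms g → (fun w => g (L.π (zs q) (Lp w))) =ᵐ[L'.W.μ]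
      fun w => g (p (L'.π (zs q) w)) := fun g q hg =>
    fd.a.keq_fun X.ms L'.W.μ X.μ _ _ g (mpc hL.emb (L.emb _)) (mpc (L'.emb _) adm.emb)
      (fd.la.slot L' L p Lp (zs q) adm.emb hL) hg.1
  have hG : BM L.W.μ L.W.ms fun w => f (L.π (zs true) w) * f' (L.π (zs false) w) * L.hat F w :=
    ((bl f true hf).mul (bl f' false hf')).mul ((az.bm L F hF).mono (az.facP L).le)
  have e : (fun w => f (L.π (zs true) (Lp w)) * f' (L.π (zs false) (Lp w)) * L.hat F (Lp w))
      =ᵐ[L'.W.μ] fun w => f (p (L'.π (zs true) w)) * f' (p (L'.π (zs false) w)) *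
        L'.hat (fun z => F (z.1, p z.2)) w := by
    filter_upwards [sl f true hf, sl f' false hf', hL.hat F (az.fam (m := X.ms) F hF)] with w a b c
    rw [a, b, c]
  have le1 := fd.la.shp L' L p Lp B B' adm.emb hL hB.1 adm.kc.1 adm.le
  have le2 := (fd.lb.fac L' B' adm.kc.1).le
  have c1 := fd.a.ce_comp (L.shp B) L'.W.μ L.W.μ Lp _ hq (fd.lb.fac L B hB.1).le hG.integrable
  have c2 : (fun w => (L.W.μ[fun w => f (L.π (zs true) w) * f' (L.π (zs false) w) * L.hat F w |
      L.shp B]) (Lp w)) =ᵐ[L'.W.μ] 0 := by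
    refine c1.symm.trans ((condExp_condExp_of_le le1 le2).symm.trans ?_)
    refine (condExp_congr_ae ((condExp_congr_ae e).trans h1)).trans ?_
    rw [condExp_zero]
  exact of_comp hq (stronglyMeasurable_condExp.mono (fd.lb.fac L B hB.1).le) c2

end T5x

end
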