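import Pool.Agent.MP_154433_an.t5.RAll
import Pool.Agent.MP_154433_an.t5.XAz
import Pool.Agent.MP_154433_an.t5.XTh
import Pool.Agent.MP_154433_an.t5.XLI
import Pool.Agent.MP_154433_an.t5.XCol
import Pool.Agent.MP_154433_an.t5.XGI
import Pool.Agent.MP_154433_an.t5.XR2P
import Pool.Agent.MP_154433_an.t5.XF2
import Pool.Agent.MP_154433_an.t5.XSat
import Pool.Agent.MP_154433_an.t5.XCore
import Pool.Agent.MP_154433_an.t5.XEx
import Pool.Agent.MP_154433_an.t5.XOk
import Pool.Agent.MP_154433_an.t5.XGxI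
import Pool.Agent.MP_154433_an.t5.XF3
import Pool.Agent.MP_154433_an.t5.XHG
import Pool.Agent.MP_154433_an.t5.XHX
import Pool.Agent.MP_154433_an.t5.XTup
import Pool.Agent.MP_154433_an.t5.XF4
import Pool.Agent.MP_154433_an.t5.XT5
import Pool.Agent.MP_154433_an.t5.XCL

/-! Sections 1 to 4: all rows. -/

set_option autoImplicit false

namespace T5x

open T3x

theorem sec14 (fd : Fd) (rc : Rc) (sel : SelS) (apx : ApxS) (sa : SatA) : Sec14 :=
  sec14_of fd rc sel apx sa (pairX fd) (azR fd) ggz azX thC liR colR giR5 r2pR5 f2R5 satR5 coreR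
    exR okR gxiR f3R5 hg3R hx3R gsp1R5 fullR5 repR5 gspUR5 f4R t5R5 clR flxR

end T5x
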