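import Pool.Agent.MP_154433_an.t5.SpecG

/-! Section 5 follows from its rows. -/

set_option autoImplicit false
set_option linter.unusedVariables false
set_option warn.classDefReducibility false

open MeasureTheory ProbabilityTheory Filter Topology Function Finset ComplexConjugate
open scoped BigOperators
open Fib27 (BM sup pr Oc Orow F23 LInd Mem)
open Pool.Agent.MP_154433_an.SG (Uni ufn)

noncomputable section

namespace T5g

open T3x T5x

namespace Sec5A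

theorem keq_comp {Z Y W : Sys} {r : Z.X → Y.X} (h : Emb Z Y r) (D : MeasurableSpace W.X)
    {p p' : Y.X → W.X} (e : KEq Y.μ D p p') : KEq Z.μ D (p ∘ r) (p' ∘ r) :=
  fun A hA => h.mp.quasiMeasurePreserving.preimage_ae_eq (e A hA)

theorem int_comp {Z Y W : Sys} {r : Z.X → Y.X} (h : Emb Z Y r) {p p' : Y.X → W.X}
    (h1 : Emb Y W p) (h2 : Emb Y W.frz p') {f f' : W.X → ℂ} (hf : BM W.μ W.ms f)
    (hf' : BM W.μ W.ms f') :
    ∫ x, f ((p ∘ r) x) * f' ((p' ∘ r) x) ∂Z.μ = ∫ x, f (p x) * f' (p' x) ∂Y.μ := by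
  have m : AEStronglyMeasurable (fun x => f (p x) * f' (p' x)) (Z.μ.map r) := by
    rw [h.mp.map_eq]
    exact (hf.1.comp_quasiMeasurePreserving h1.mp.quasiMeasurePreserving).mul
      (hf'.1.comp_quasiMeasurePreserving h2.mp.quasiMeasurePreserving)
  have := integral_map h.mp.measurable.aemeasurable m
  rw [h.mp.map_eq] at this
  exact this.symm

theorem hat (hA : HatA) (hB : HatB) (st : Sat5) (fd : Fd) (g : GC) (c : Cx) :
    Nonempty c.Hat := by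
  obtain ⟨Xh, e, Bh, rp, adm, hle⟩ := hA fd g c true
  obtain ⟨X1, p1, p2, B1, e2, com, ind, adm1, le2⟩ := hB fd Xh Bh adm.nice adm.kc
  obtain ⟨X2, B2, r, L1, admr, sat⟩ := st c.ν c.U X1 B1 adm1.nice adm1.kc
  have adm1' := fd.h.trans X2 X1 Xh B2 B1 Bh r p1 adm.kc.1 admr adm1
  have adm2 := fd.h.trans X2 Xh c.X B2 Bh c.B (p1 ∘ r) _ c.kc.1 adm1' adm
  obtain ⟨Lp, hLp⟩ := fd.la.ex L1 c.L _ adm2.emb
  refine ⟨⟨Xh, e, true, rp, X2, p1 ∘ r, p2 ∘ r, adm1'.emb, fd.t.emb_comp _ _ _ _ _ admr.emb e2,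
    keq_comp admr.emb _ com,
    fun f f' hf hf' => (int_comp admr.emb adm1.emb e2 hf hf').trans (ind f f' hf hf'),
    B2, adm2, fun a => ?_, ?_, L1, Lp, hLp, sat⟩⟩
  · refine le_trans ?_ adm1'.le
    refine sup_le_sup_right ?_ _
    rw [← MeasurableSpace.comap_comp]
    exact MeasurableSpace.comap_mono (le_trans le_sup_left (hle a))
  · refine le_trans ?_ admr.le
    refine sup_le_sup_right ?_ _
    rw [← MeasurableSpace.comap_comp]
    exact MeasurableSpace.comap_mono (le_trans le_sup_left le2)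

theorem ty (hA : TyA) (hB : TyB) (fd : Fd) (g : GC) (z : ZC) (c : Cx) (H : c.Hat)
    (𝒱 : Subgroup (Uni c.X.X)) (s : 𝒱 ≃* 𝒱) (cl : c.CL) (ex : c.Exh 𝒱 s) : H.Ty 𝒱 := by
  have hm : ∀ q u, MeasurableSet (c.ZV 𝒱 q u) := fun q u =>
    (g.ctx c).kc2.1.le _ ((z.zv c 𝒱 s ex).meas q u)
  refine ⟨hA fd g z c H 𝒱 s cl ex, fun q u _ u' _ => ?_, fun q u _ => hB fd g z c H q _ (hm q u)⟩
  filter_upwards [hB fd g z c H q _ ((hm q u').diff (hm q u))] with w hw h1 h2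
  by_contra h3
  obtain ⟨i, hi⟩ := hw ⟨h2, h3⟩
  exact hi.2 (h1 i hi.1)

theorem psi (hA : PsiA) (hB : PsiB) (fd : Fd) (rc : Rc) (g : GC) (z : ZC) : PsiS := by
  intro c H 𝒱 s g0 ex
  obtain ⟨h1, h2, h3, h4⟩ := hA fd g z c H 𝒱 s g0 ex
  refine ⟨H.HH 𝒱 g0, Finsupp.domCongr s.toEquiv, H.psi 𝒱 g0, fun _ _ => Iff.rfl, h1,
    ⟨h2, fun v v' => Eventually.of_forall (h3 v v'), h4, hB fd rc g z hA c H 𝒱 s g0 ex⟩,
    fun u x hx => ?_, fun u x hx => ?_⟩
  · unfold Cx.Hat.psi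
    rw [Finsupp.prod_single_index (by simp), if_pos hx, zpow_one]
  · unfold Cx.Hat.psi
    rw [Finsupp.prod_single_index (by simp), if_neg hx, zpow_one]

/-- all rows -/
structure Rows : Prop where
  r2a : R2aR
  cm : CmR
  ctx : CtxR
  psc : PscR
  ff : FfR
  zv : ZvR
  ht : HtR
  exh : ExhR
  hatA : HatA
  hatB : HatB
  tyA : TyA
  tyB : TyB
  mixL : MixL
  dom : DomS
  posB : PosB
  psiA : PsiA
  psiB : PsiB
  bunB : BunB
  relC : RelC
  stpA : StpA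
  flat : FlatR
  stpB : StpB
  algA : AlgA
  algT : AlgT
  algB : AlgB
  algC : AlgC

theorem out (r : Rows) : Sec5 := by
  intro fd rc sa i2 pr pz st flx pass alg c g cl t5
  have r2 : R2 := ⟨r.r2a fd rc, r.cm fd rc (r.r2a fd rc)⟩
  have cx := r.ctx fd i2 pr pz
  have G : GC := ⟨r2, pz, cx, r.psc fd rc, fun c V _ _ sg ψ h =>
    r.ff fd rc r2 c V sg ψ (cx c) (r.psc fd rc _ _ V sg ψ c.kc.1 h) h⟩
  have Z : ZC := ⟨r.zv fd rc G, r.ht fd sa G⟩
  obtain ⟨𝒱, s, ex, hg⟩ := r.exh fd G c g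
  obtain ⟨H⟩ := hat r.hatA r.hatB st fd G c
  have hty := ty r.tyA r.tyB fd G Z c H 𝒱 s cl ex
  have pos := r.posB fd G Z r.mixL r.dom c H 𝒱 s g ex hty hg t5
  obtain ⟨c1, V, i1, i2', sg, ψ, sat, hψ, bun⟩ :=
    r.bunB fd rc G Z (psi r.psiA r.psiB fd rc G Z) c H 𝒱 s g true false ex hty hg pos
  obtain ⟨h1, h2, h3, h4, h5⟩ := r.stpA fd rc G c1 V sg ψ true false (by decide) hψ
  exact r.algC fd rc i2 G r.algA r.algT r.algB r.relC pass alg c1 V sg ψ hψ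
    ⟨h1, h2, h3, h4, h5, r.stpB fd G c1 V sg ψ true false (by decide) hψ
      (r.flat fd G c1 V sg ψ (flx c1 sat) hψ)⟩ bun

end Sec5A

end T5g

end
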