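import Pool.Agent.MP_154433_an.t5.Defs

/-! Statements of the rows of sections 1 to 4. -/

set_option autoImplicit false
set_option linter.unusedVariables false
set_option warn.classDefReducibility false

open MeasureTheory ProbabilityTheory Filter Topology Function Finset ComplexConjugate
open scoped BigOperators
open Fib27 (BM sup pr Oc Orow F23 LInd Mem)
open Pool.Agent.MP_154433_an.SG (Uni ufn)

noncomputable section

namespace T5x

open T3x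

/-! ### calculus -/

/-- more facts on the third slot -/
structure AzX : Prop extends AzC where
  ob : ∀ {ν U} {X' X : Sys} (L' : Ln ν U X') (L : Ln ν U X) p Lp B B', Emb X' X p →
    IsLift L' L p Lp → Fac X B → Fac X' B' → pull X'.μ p B ≤ B' → ∀ q,
    pull L'.W.μ Lp (OB L B q) ≤ OB L' B' q
  facO : ∀ {ν U} {X : Sys} (L : Ln ν U X) B q, Fac X B → Fac L.W (OB L B q)
  facZ : ∀ {ν U} {X : Sys} (L : Ln ν U X) B k, Fac X B → Fac L.W (Pz L B k)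
  obe : ∀ {ν U} {X : Sys} (L : Ln ν U X) B q,
    sup (Pz L B) (univ.erase (some q)) ⊔ L.B2 B = OB L B q
  /-- three members that are independent in pairs -/
  cl3 : ∀ {Ω : Type} (β : MeasurableSpace Ω) (p : I3 → MeasurableSpace Ω)
    {m0 : MeasurableSpace Ω} (μ : Measure Ω) [IsProbabilityMeasure μ], β ≤ m0 → (∀ i, p i ≤ m0) →
    (∀ i j, i ≠ j → ∀ f f' : Ω → ℂ, BM μ (p i) f → BM μ (p j) f' →
      μ[fun x => f x * f' x | β] =ᵐ[μ] fun x => (μ[f | β]) x * (μ[f' | β]) x) → CLine β p μ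

/-- the events `Th2` -/
structure ThC : Prop where
  meas : ∀ {Ω : Type} (B A : MeasurableSpace Ω) {m0 : MeasurableSpace Ω} (μ : Measure Ω)
    (F : Ω → ℂ), MeasurableSet[B] (T5g.Th2 B A μ F)
  congr : ∀ {Ω : Type} (B A : MeasurableSpace Ω) {m0 : MeasurableSpace Ω} (μ : Measure Ω)
    (F F' : Ω → ℂ), F =ᵐ[μ] F' → T5g.Th2 B A μ F =ᵐ[μ] T5g.Th2 B A μ F'
  le : ∀ {Ω : Type} (B A : MeasurableSpace Ω) {m0 : MeasurableSpace Ω} (μ : Measure Ω)
    [IsProbabilityMeasure μ] (F η : Ω → ℂ), B ≤ A → A ≤ m0 → Um m0 μ F → Um A μ η →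
    (Th B μ fun x => F x * η x) ≤ᵐ[μ] T5g.Th2 B A μ F
  ex : ∀ {Ω : Type} (B A : MeasurableSpace Ω) {m0 : MeasurableSpace Ω} (μ : Measure Ω)
    [IsProbabilityMeasure μ] (F : Ω → ℂ), B ≤ A → A ≤ m0 → Um m0 μ F →
    ∃ η : Ω → ℂ, Um A μ η ∧ T5g.Th2 B A μ F ≤ᵐ[μ] Th B μ fun x => F x * η x
  comp : ∀ {Ω Ω' : Type} (B A : MeasurableSpace Ω) (B' A' : MeasurableSpace Ω')
    {m0 : MeasurableSpace Ω} {m0' : MeasurableSpace Ω'} (μ : Measure Ω) (μ' : Measure Ω')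
    [IsProbabilityMeasure μ] [IsProbabilityMeasure μ'] (p : Ω' → Ω) (F : Ω → ℂ),
    MeasurePreserving p μ' μ → BM μ m0 F →
    μ'[fun x => F (p x) | A'] =ᵐ[μ'] (fun x => (μ[F | A]) (p x)) → A ≤ m0 →
    (∀ f, BM μ m0 f → μ'[fun x => f (p x) | B'] =ᵐ[μ'] fun x => (μ[f | B]) (p x)) →
    (T5g.Th2 B' A' μ' fun x => F (p x)) =ᵐ[μ'] p ⁻¹' T5g.Th2 B A μ F

def LIS : Prop := ∀ (ν : Wt) (U : Ultrafilter ℕ), (U : Filter ℕ) ≤ atTop → UW ν →
  ∀ (X : Sys) (B : MeasurableSpace X.X) (L : Ln ν U X), Nice X → KC X B → LI L B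

/-- lifts of independent admissible maps -/
def ColS : Prop := ∀ {ν : Wt} {U : Ultrafilter ℕ} {W1 : Sys} (L2 : Ln ν U W1)
  (B1 : MeasurableSpace W1.X) {ι : Type} (X : ι → Sys) (B : ∀ i, MeasurableSpace (X i).X)
  (L : ∀ i, Ln ν U (X i)) (p : ∀ i, W1.X → (X i).X) (Bc : ∀ i, L2.W.X → (L i).W.X)
  (S : Finset ι), KC W1 B1 → (∀ i, KC (X i) (B i)) → (∀ i, Adm W1 B1 (X i) (B i) (p i)) →
  (∀ i, IsLift L2 (L i) (p i) (Bc i)) →
  CInd B1 (fun i => pull W1.μ (p i) (X i).ms) S W1.μ →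
  CInd (L2.B2 B1) (fun i => pull L2.W.μ (Bc i) (L i).W.ms) S L2.W.μ ∧
    (∀ i, pull L2.W.μ (Bc i) ((L i).B2 (B i)) ≤ L2.B2 B1) ∧
    ∀ i ∈ S, CP (pull L2.W.μ (Bc i) (L i).W.ms) (pull L2.W.μ (Bc i) ((L i).B2 (B i)))
      (L2.B2 B1) L2.W.μ

def F2S : Prop := ∀ (ν : Wt) (U : Ultrafilter ℕ), (U : Filter ℕ) ≤ atTop → UW ν →
  ∀ (X : Sys) (B : MeasurableSpace X.X) (L : Ln ν U X), Nice X → KC X B → SAT L B → F2L L B

/-- no saturated context fails -/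
def Step5 : Prop := ∀ c : Cx, c.Sat → ¬ c.Fail

def AzXR : Prop := Fd → AzC → AzX
def ThCR : Prop := Fd → Rc → ThC
def LIR : Prop := Fd → AzX → PairS → LIS
def ColR : Prop := Fd → ColS
def GIR5 : Prop := Fd → LIS → ColS → ∀ c : Cx, c.GI
def R2PR5 : Prop := Fd → ∀ c : Cx, c.R2P
def F2R5 : Prop := Fd → AzX → ∀ c : Cx, c.GI → c.Sat → c.R2P → F2L c.L c.B
def SatR5 : Prop := Fd → SatA → AzX → T5g.Sat5
def CoreR : Prop := Fd → AzX → T5g.Sat5 → Step5 → CoreS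
def ExR : Prop := Fd → AzX → T5g.Sat5 → ∀ c : Cx, Nonempty (Ex c)
def OkR : Prop := Fd → AzX → ∀ (c : Cx) (E : Ex c), c.GI → c.Sat → E.gx.OK
def GxIR : Prop := Fd → AzX → LIS → ColS → ∀ g : Gx, g.OK → g.GI
def F3R5 : Prop := Fd → AzX → ∀ g : Gx, g.OK → g.GI → g.F3
def HG3R : Prop := Fd → AzX → F2S → ∀ g : Gx, g.OK → g.GI → g.F3 → g.QC ∧ HGz g.β g.G none g.W2.μ

/-! ### abstract grids -/

/-- functions with coefficients in the base -/
structure HX3 {Ω : Type} (β : MeasurableSpace Ω) (G : I3 → I3 → MeasurableSpace Ω)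
    {m0 : MeasurableSpace Ω} (μ : Measure Ω) : Prop where
  f23 : ∀ q : Bool, F23 μ (fun k => G (some q) k ⊔ β) (fun k => Oc G (some q) k ⊔ β)
  cen : ∀ (q : Bool) (i : I3) (h : Ω → ℂ), DV β G (some q) i μ h →
    DV β G (some q) i μ fun x => h x - (μ[h | β]) x

def HX3S : Prop := ∀ {Ω : Type} (β : MeasurableSpace Ω) (G : I3 → I3 → MeasurableSpace Ω)
  {m0 : MeasurableSpace Ω} (μ : Measure Ω) [IsProbabilityMeasure μ], HGz β G none μ → HX3 β G μ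

def HX3R : Prop := Bas → HX3S

/-! ### tuples in the saturated grid -/

def GSp1R5 : Prop := Fd → AzX → Rc → SelS → GGzS → ∀ g : Gx, g.OK → g.GI → HGz g.β g.G none g.W2.μ →
  g.GSp g.Tup1
def FullR5 : Prop := Fd → AzX → Rc → HX3S → ∀ (g : Gx)
  (C : ∀ j, (I3 → (g.W j).X → ℂ) → Prop), g.OK → g.GI → HGz g.β g.G none g.W2.μ →
  (∀ j φ, C j φ → g.Tup1 j φ) → g.GSp C → g.Full C
def RepR5 : Prop := Fd → AzX → Rc → SelS → ApxS → ∀ g : Gx, g.OK → g.GI → g.Full g.Tup1 → g.Rep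
def GSpUR5 : Prop := Fd → AzX → Rc → ∀ g : Gx, g.OK → g.GI → HGz g.β g.G none g.W2.μ →
  g.GSp g.Tup1 → g.Full g.Tup1 → g.Rep → g.GSp g.TupU

/-! ### back to the line -/

def F4R : Prop := Fd → AzX → HX3S → ∀ (c : Cx) (E : Ex c), c.GI → E.gx.OK → E.gx.GI → E.gx.QC →
  HGz E.gx.β E.gx.G none E.gx.W2.μ → c.Fail → E.F4
def T5R5 : Prop := Fd → AzX → Rc → ThC → ∀ (c : Cx) (E : Ex c), c.GI → E.gx.OK → E.gx.GI →
  E.gx.GSp E.gx.TupU → E.F4 → ∃ g, c.T5 g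
def CLR : Prop := Fd → AzX → Rc → ThC → ∀ (c : Cx) (E : Ex c), c.GI → E.gx.OK → E.gx.GI →
  E.gx.Full E.gx.TupU → c.CL
def FLXR : Prop := Fd → AzX → Rc → ThC → ∀ (c : Cx) (E : Ex c), c.GI → E.gx.OK → E.gx.GI →
  E.gx.Full E.gx.Tup1 → c.FLX

/-- the output of sections 1 to 4 -/
structure Sec14 : Prop where
  az : AzX
  tz : ThC
  li : LIS
  col : ColS
  gi : ∀ c : Cx, c.GI
  sat : T5g.Sat5
  cl : ∀ c : Cx, c.Sat → c.CL
  flx : ∀ c : Cx, c.Sat → c.FLX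
  t5 : ∀ c : Cx, c.Sat → c.Fail → ∃ g, c.T5 g
  core : Step5 → CoreS

/-! ### assembly -/

/-- every line is the line of a context -/
def mkCx (fd : Fd) {ν : Wt} {U : Ultrafilter ℕ} (hU : (U : Filter ℕ) ≤ atTop) (uw : UW ν)
    {X : Sys} {B : MeasurableSpace X.X} (L : Ln ν U X) (hX : Nice X) (hB : KC X B) : Cx where
  ν := ν
  U := U
  hU := hU
  uw := uw
  X := X
  B := B
  nice := hX
  kc := hB
  L := L
  L2 := (fd.line ν U L.W L.nice).some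
  Bc := fun j => (fd.la.ex (fd.line ν U L.W L.nice).some L _ (L.emb (zs j))).choose
  lift := fun j => (fd.la.ex (fd.line ν U L.W L.nice).some L _ (L.emb (zs j))).choose_spec

theorem tupU1 (g : Gx) (j : I3) (φ : I3 → (g.W j).X → ℂ) (h : g.TupU j φ) : g.Tup1 j φ := by
  obtain ⟨⟨u, hu⟩, h0⟩ := h
  rintro (_ | q)
  · exact h0
  rw [hu q]
  refine ⟨?_, Eventually.of_forall fun x => Circle.norm_coe _⟩
  have h1 : Measurable[MeasurableSpace.comap (g.π j q) (g.X j).ms]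
      fun w => ufn (u q) (g.π j q w) :=
    Measurable.comp (g := fun ω => ((u q).1 ω : ℂ)) (u q).2 (comap_measurable _)
  have h2 : MeasurableSpace.comap (g.π j q) (g.X j).ms ≤ g.Pc j (some q) ⊔ g.B2 j :=
    le_trans (le_sup_left (b := nul (g.W j).μ)) le_sup_left
  exact (h1.mono h2 le_rfl).stronglyMeasurable.aestronglyMeasurable

theorem sec14_of (fd : Fd) (rc : Rc) (sel : SelS) (apx : ApxS) (sa : SatA) (ps : PairS)
    (azc : AzC) (G : GGzS) (az : AzXR) (tz : ThCR) (li : LIR) (col : ColR) (gi : GIR5) (r2p : R2PR5) (f2 : F2R5)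
    (sat : SatR5) (core : CoreR) (ex : ExR) (ok : OkR) (gxi : GxIR) (f3 : F3R5) (hz : HG3R)
    (hzx' : HX3R) (gsp1 : GSp1R5) (full : FullR5) (rep : RepR5) (gspU : GSpUR5) (f4 : F4R)
    (t5 : T5R5) (cl : CLR) (flx : FLXR) : Sec14 := by
  have hzx : HX3S := hzx' ⟨fd.a, fd.t, fd.d, fd.c⟩
  have a := az fd azc
  have t := tz fd rc
  have l := li fd a ps
  have cs : ColS := col fd
  have g := gi fd l cs
  have s := sat fd sa a
  have h2 : F2S := fun ν U hU uw X B L hX hB hs =>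
    f2 fd a (mkCx fd hU uw L hX hB) (g _) hs (r2p fd _)
  have key : ∀ c : Cx, c.Sat → c.CL ∧ c.FLX ∧ (c.Fail → ∃ u, c.T5 u) := by
    intro c hs
    obtain ⟨E⟩ := ex fd a s c
    have o := ok fd a c E (g c) hs
    have i := gxi fd a l cs _ o
    obtain ⟨qc, h⟩ := hz fd a h2 _ o i (f3 fd a _ o i)
    have g1 := gsp1 fd a rc sel G _ o i h
    have fu1 := full fd a rc hzx _ _ o i h (fun _ _ e => e) g1
    have gU := gspU fd a rc _ o i h g1 fu1 (rep fd a rc sel apx _ o i fu1)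
    have fuU := full fd a rc hzx _ _ o i h (tupU1 _) gU
    exact ⟨cl fd a rc t c E (g c) o i fuU, flx fd a rc t c E (g c) o i fu1,
      fun hf => t5 fd a rc t c E (g c) o i gU (f4 fd a hzx c E (g c) o i qc h hf)⟩
  exact ⟨a, t, l, cs, g, s, fun c hs => (key c hs).1, fun c hs => (key c hs).2.1,
    fun c hs => (key c hs).2.2, core fd a s⟩

end T5x

end
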