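import Pool.Agent.MP_154433_an.t5.Defs0
import Pool.Agent.MP_154433_an.t3s.Spec

/-! From the core theorem to uniform twisted averages along the random set: definitions and
statements of the rows. -/

set_option autoImplicit false
set_option linter.unusedVariables false
set_option warn.classDefReducibility false

open MeasureTheory ProbabilityTheory Filter Topology Function Finset ComplexConjugate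
open scoped BigOperators
open Fib27 (BM)
open Pool.Agent.MP_154433_an

noncomputable section

namespace T5u

open T3x T5x

/-! ### structure -/

/-- the twisted average with frequency `t` -/
def tav (ν : Wt) (Y : Sys) (g : Y.X → ℂ) (M : ℕ) (t : ℝ) (y : Y.X) : ℂ :=
  ν.av M fun d => g (Y.Tz d y) * ee ((d : ℝ) * t)

def U0 (ν : Wt) (Y : Sys) (g : Y.X → ℂ) : Prop :=
  ∀ b : ℕ → Y.X → ℝ, (∀ M, Measurable (b M)) →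
    Tendsto (fun M => ∫ y, ‖tav ν Y g M (b M y) y‖ ^ 2 ∂Y.μ) atTop (𝓝 0)

def UV (ν ν' : Wt) (Y : Sys) (g : Y.X → ℂ) : Prop :=
  ∀ b : ℕ → Y.X → ℝ, (∀ M, Measurable (b M)) →
    Tendsto (fun M => ∫ y, ‖tav ν Y g M (b M y) y - tav ν' Y g M (b M y) y‖ ^ 2 ∂Y.μ) atTop (𝓝 0)

def UG (ν ν' : Wt) (Y : Sys) (C : MeasurableSpace Y.X) : Prop :=
  ∀ g : Y.X → ℂ, BM Y.μ C g → UV ν ν' Y g

/-- functions orthogonal to `B0` have small twisted averages after one van der Corput step -/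
def TG0 (ν' : Wt) (X : Sys) (B0 : MeasurableSpace X.X) : Prop :=
  ∀ g : X.X → ℂ, BM X.μ X.ms g → (∀ᵐ x ∂X.μ, ‖g x‖ ≤ 1) → X.μ[g | B0] =ᵐ[X.μ] 0 →
    ∀ ε : ℝ, 0 < ε → ∃ (H : ℕ) (a : ℕ → ℕ → ℝ), 1 ≤ H ∧
      ∑ n ∈ range H, ∑ n' ∈ range H, a n n' ≤ ε * H ^ 2 ∧
      ∀ (n n' : ℕ) (η : ℝ), 0 < η → ∀ᶠ M in atTop, ∀ b : X.X → ℝ, Measurable[X.ms] b →
        ∫ x, ‖tav ν' X (fun y => g (X.Tz n y) * conj (g (X.Tz n' y))) M (b x) x‖ ^ 2 ∂X.μ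
          ≤ a n n' + η

def THas (ν ν' : Wt) : Prop :=
  ∀ X : Sys, ∃ B0, Fac X B0 ∧ T3x.Inv X ≤ B0 ∧ UG ν ν' X B0 ∧ TG0 ν' X B0

/-- the form of the core theorem that is used -/
def CoreX (ν : Wt) : Prop :=
  ∀ (X : Sys) (B : MeasurableSpace X.X) (f : X.X → ℂ), Nice X → KC X B → BM X.μ X.ms f →
    X.μ[f | B] =ᵐ[X.μ] 0 → U0 ν X f

/-- measurable choice of a nearly best frequency -/
def Pick : Prop := ∀ (Ω : Type) (m : MeasurableSpace Ω) (φ : ℝ → Ω → ℂ) (η : ℝ), 0 < η →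
  (∀ t, Measurable[m] (φ t)) → (∀ x, Continuous fun t => φ t x) →
  (∀ x, ∃ K : ℝ, ∀ t, ‖φ t x‖ ≤ K) →
  ∃ b : Ω → ℝ, Measurable[m] b ∧ ∀ x t, ‖φ t x‖ ^ 2 ≤ ‖φ (b x) x‖ ^ 2 + η

def Drop : Prop := ∀ (ν : Wt) (X : Sys) (C : MeasurableSpace X.X) (G : X.X → ℂ) (M : ℕ)
  (b : X.X → ℝ) (η : ℝ), Fac X C → BM X.μ X.ms G → Measurable[X.ms] b → 0 < η →
  ∃ b' : X.X → ℝ, Measurable[X.ms] b' ∧
    ∫ x, ‖tav ν X (X.μ[G | C]) M (b x) x‖ ^ 2 ∂X.μ ≤ ∫ x, ‖tav ν X G M (b' x) x‖ ^ 2 ∂X.μ + η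

structure UGf : Prop where
  dense : ∀ (ν ν' : Wt) (X : Sys) (C : MeasurableSpace X.X) (T : Set (X.X → ℂ)), C ≤ X.ms →
    (∀ φ ∈ T, BM X.μ X.ms φ) →
    (∀ g, BM X.μ C g → ∀ ε : ℝ, 0 < ε → ∃ (n : ℕ) (a : Fin n → X.X → ℂ), (∀ i, a i ∈ T) ∧
      ∫ x, ‖g x - ∑ i, a i x‖ ^ 2 ∂X.μ ≤ ε) →
    (∀ f ∈ T, UV ν ν' X f) → UG ν ν' X C
  chain : ∀ (ν ν' : Wt) (X : Sys) (𝒞 : Set (MeasurableSpace X.X)), 𝒞.Nonempty →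
    IsChain (· ≤ ·) 𝒞 → (∀ C ∈ 𝒞, Fac X C ∧ UG ν ν' X C) → UG ν ν' X (sSup 𝒞)
  down : ∀ (ν ν' : Wt) (X X' : Sys) (e : X.X → X'.X), Emb X X' e →
    (∀ f ∈ Bdd X.X, ∃ f' ∈ Bdd X'.X, ∀ x, f' (e x) = f x) → UG ν ν' X' X'.ms → UG ν ν' X X.ms
  zero : ∀ (ν ν' : Wt) (X : Sys) (f : X.X → ℂ), BM X.μ X.ms f → U0 ν X f → U0 ν' X f →
    UV ν ν' X f
  add : ∀ (ν ν' : Wt) (X : Sys) (f f1 f2 : X.X → ℂ), BM X.μ X.ms f1 → BM X.μ X.ms f2 →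
    (f =ᵐ[X.μ] fun x => f1 x + f2 x) → UV ν ν' X f1 → UV ν ν' X f2 → UV ν ν' X f

/-- one pair of times: the Cauchy-Schwarz step with a twist `τ` -/
def KeyT : Prop := ∀ (X Z : Sys) (C : MeasurableSpace X.X) (p : Bool → Z.X → X.X), Fac X C →
  Pair X C Z p → ∀ (H : Z.X → ℂ) (g k : X.X → ℂ), BM Z.μ (T3x.Inv Z) H → BM X.μ X.ms g →
  BM X.μ X.ms k → Star p H g k → ∃ K : ℝ, 0 ≤ K ∧ ∀ (N : ℕ), 1 ≤ N → ∀ (d d' : ℤ) (τ : X.X → ℂ),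
    BM X.μ X.ms τ →
    ‖∫ x, τ x * (k (X.Tz d x) * conj (k (X.Tz d' x))) ∂X.μ‖ ^ 2 ≤
      K * ∑ n ∈ range N, ∑ n' ∈ range N, (N : ℝ)⁻¹ * (N : ℝ)⁻¹ *
        (∫ x, τ (X.Tz n x) * conj (τ (X.Tz n' x)) *
          ((X.μ[fun y => g (X.Tz n y) * conj (g (X.Tz n' y)) | C]) (X.Tz d x) *
            conj ((X.μ[fun y => g (X.Tz n y) * conj (g (X.Tz n' y)) | C]) (X.Tz d' x))) ∂X.μ).re

def UCptA : Prop := ∀ (ν' ν'' : Wt) (X : Sys) B0 C Z p, Nice X → Fac X B0 → Fac X C → B0 ≤ C →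
  Pair X C Z p → UG ν'' ν' X C → TG0 ν' X B0 → ∀ (H : Z.X → ℂ) (g k : X.X → ℂ),
  BM Z.μ (T3x.Inv Z) H → BM X.μ X.ms g → BM X.μ X.ms k → Star p H g k →
  X.μ[g | C] =ᵐ[X.μ] 0 → U0 ν'' X k

def UCptS : Prop := ∀ (ν ν' : Wt) (X : Sys) B0 C, Nice X → Fac X B0 → Fac X C → B0 ≤ C →
  T3x.Inv X ≤ C → UG ν ν' X C → TG0 ν' X B0 → UG ν ν' X (KK X C)

def UDet : Prop := ∀ ν ν' : Wt, CoreX ν → CoreX ν' → THas ν ν' → ∀ X : Sys, UG ν ν' X X.ms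

def DropR : Prop := Fd → Pick → Drop
def UGfR : Prop := Fd → Pick → UGf
def KeyR : Prop := Fd → KeyT
def UCptAR : Prop := Fd → KeyT → Drop → UCptA
def UCptR : Prop := Fd → UGf → UCptA → UCptS
def UDetR : Prop := Fd → UGf → UCptS → UDet

/-! ### sequences of weights at one scale -/

/-- the sequence is flat in frequency -/
def Fl (a : ℕ → ℝ) : Prop := ∀ ε : ℝ, 0 < ε → ∀ᶠ N : ℕ in atTop, ∀ t : ℝ,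
  ‖∑ d ∈ range N, ((a d - 1 : ℝ) : ℂ) * ee ((d : ℝ) * t)‖ ≤ ε * N

/-- small atoms -/
def At (a : ℕ → ℝ) : Prop := ∀ ε : ℝ, 0 < ε → ∀ᶠ N : ℕ in atTop, ∀ d < N,
  a d * Real.log ((N : ℝ) + 2) ≤ ε * N

/-- the sequence does not see twisted structured sequences -/
def TStr (a : ℕ → ℝ) : Prop := ∀ (J : ℕ) (b : Fin J → Fin 3 → ℤ), (∀ t i, b t i ≠ 0) →
  ∀ ε : ℝ, 0 < ε → ∀ᶠ N : ℕ in atTop, ∀ (u : Fin J → ℤ → ℂ) (θ : ℕ → ℝ),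
    (∀ t, u t ∈ T3S.CZ (b t) (N ^ 2)) →
    ∑ n ∈ range N, ‖∑ d ∈ range N, ((a d - 1 : ℝ) : ℂ) *
      ((∏ t, u t ((n : ℤ) + (d : ℤ))) * ee ((d : ℝ) * θ n))‖ ≤ ε * N * N

def sav (a : ℕ → ℝ) (Y : Sys) (g : Y.X → ℂ) (N : ℕ) (t : ℝ) (y : Y.X) : ℂ :=
  ∑ d ∈ range N, ((a d - 1 : ℝ) : ℂ) * (g (Y.Tz d y) * ee ((d : ℝ) * t))

def SV (a : ℕ → ℝ) (Y : Sys) (g : Y.X → ℂ) : Prop :=
  ∀ b : ℕ → Y.X → ℝ, (∀ N, Measurable (b N)) →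
    Tendsto (fun N : ℕ => (N : ℝ)⁻¹ * ∫ y, ‖sav a Y g N (b N y) y‖ ∂Y.μ) atTop (𝓝 0)

/-- uniform weights -/
def un : Wt := wtOf (fun _ => 1) fun _ => zero_le_one

def ConvT : Prop := ∀ (a : ℕ → ℝ) (ha : ∀ n, 0 ≤ a n), Fl a → ∀ (Y : Sys) (g : Y.X → ℂ),
  BM Y.μ Y.ms g → (SV a Y g ↔ UV (wtOf a ha) un Y g)

def ErgT : Prop := ∀ (a : ℕ → ℝ) (ha : ∀ n, 0 ≤ a n), Fl a → ERG (wtOf a ha)

/-- ergodic weights on functions -/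
def ErgL : Prop := ∀ ν : Wt, ERG ν → ∀ (Z : Sys) (F : Z.X → ℂ), BM Z.μ Z.ms F →
  Z.μ[F | T3x.Inv Z] =ᵐ[Z.μ] 0 →
  Tendsto (fun M => ∫ z, ‖ν.av M fun d => F (Z.Tz d z)‖ ∂Z.μ) atTop (𝓝 0)

def Tw0 (ν : Wt) : Prop := ∀ (Z : Sys) (F : Z.X → ℂ) (Δ : ℕ → Z.X → ℝ), BM Z.μ Z.ms F →
  Z.μ[F | T3x.Inv Z] =ᵐ[Z.μ] 0 → (∀ M, Measurable (Δ M)) →
  Tendsto (fun M => ∫ z, ‖ν.av M fun d => F (Z.Tz d z) * ee ((d : ℝ) * Δ M z)‖ *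
    ‖ν.av M fun d => ee ((d : ℝ) * Δ M z)‖ ∂Z.μ) atTop (𝓝 0)

def Tw0T : Prop := ∀ (a : ℕ → ℝ) (ha : ∀ n, 0 ≤ a n), Fl a → ERG (wtOf a ha) → Tw0 (wtOf a ha)

def AtomT : Prop := ∀ (a : ℕ → ℝ) (ha : ∀ n, 0 ≤ a n), Fl a → At a → ERG (wtOf a ha) →
  Tw0 (wtOf a ha) → UW (wtOf a ha)

def ProdT : Prop := ∀ a : ℕ → ℝ, (∀ n, 0 ≤ a n) → Fl a → TStr a → ∀ (Y : Sys) (ι : Type)
  [Fintype ι] (D : ι → Y.X → ℂ),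
  (∀ t, ∃ b : Fin 3 → ℤ, (∀ i, b i ≠ 0) ∧ D t ∈ T3S.DD Y.μ Y.T b) → SV a Y fun y => ∏ t, D t y

def GoodT : Prop := ∀ a : ℕ → ℝ, (∀ n, 0 ≤ a n) → Fl a → TStr a → ∀ (Y : Sys) (g : Y.X → ℂ),
  BM Y.μ (T3S.B0 Y.μ Y.T 2) g → SV a Y g

/-- one van der Corput step removes the twist -/
def DwT : Prop := ∀ (X : Sys) (G : X.X → ℂ), T3S.MB1 G → ∀ (H : ℕ), 1 ≤ H → ∀ s η : ℝ, 0 < s →
  0 < η → ∀ᶠ M in atTop, ∀ b : X.X → ℝ, Measurable b →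
    ∫ x, ‖tav un X G M (b x) x‖ ^ 2 ∂X.μ ≤ s + T3S.QX X.μ X.T H 2 (fun _ => 1) G / s + η

def UnifT : Prop := ∀ X : Sys, TG0 un X (T3S.B0 X.μ X.T 2)

def ErgTR : Prop := T3S.ErgS → T3S.NormS → ErgT
def ErgLR : Prop := Bas → ErgL
def Tw0R : Prop := Bas → ErgL → Tw0T
def GoodTR : Prop := ProdT → GoodT
def DwR : Prop := T3S.NormS → T3S.VdcS → T3S.GvnS → DwT
def UnifTR : Prop := T3S.FacS → T3S.ZeroS → DwT → UnifT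

/-! ### the random set -/

/-- importance weights -/
def iw (σ : ℕ → ℝ) (p : ℕ → Prop) (d : ℕ) : ℝ := T3S.ind p d / σ d

def G1 (σ : ℕ → ℝ) : Prop := Tendsto (fun n : ℕ => (n : ℝ) * σ n / Real.log n) atTop atTop

/-- twisted averages with signed weights vanish, for every choice of the frequency -/
def UWy (y : ℕ → ℕ → ℝ) : Prop :=
  ∀ (Y : Sys) (g : Y.X → ℂ) (b : ℕ → Y.X → ℝ), BM Y.μ Y.ms g → (∀ M, Measurable (b M)) →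
    Tendsto (fun M => ∫ x, ‖∑ d ∈ range M, (y M d : ℂ) * (g (Y.Tz d x) * ee ((d : ℝ) * b M x))‖
      ∂Y.μ) atTop (𝓝 0)

def SigT : Prop := ∀ σ : ℕ → ℝ, (∀ n, 0 ≤ σ n ∧ σ n ≤ 1) → Antitone σ → G1 σ →
  (∀ n, 0 < σ n) ∧ T3S.Gr σ 1 ∧ Tendsto (T3S.Wt σ) atTop atTop ∧ (∀ p, At (iw σ p)) ∧
    At (fun _ => 1) ∧ Fl fun _ => 1

def LayT : Prop := ∀ (σ : ℕ → ℝ) (p : ℕ → Prop), (∀ n, 0 < σ n) → Antitone σ →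
  Tendsto (T3S.Wt σ) atTop atTop →
  (∀ (Y : Sys) (g : Y.X → ℂ), BM Y.μ Y.ms g → SV (iw σ p) Y g) → UWy (T3S.yw σ p)

def TailT : Prop := ∀ σ : ℕ → ℝ, (∀ n, 0 ≤ σ n ∧ σ n ≤ 1) →
  ∀ (Ω : Type) [MeasurableSpace Ω] (P : Measure Ω) [IsProbabilityMeasure P] (E : ℕ → Set Ω),
  (∀ n, MeasurableSet (E n)) → iIndepSet E P → (∀ n, P (E n) = ENNReal.ofReal (σ n)) →
  ∀ (c : ℕ → ℝ) (M : ℕ) (V ε : ℝ), (∀ k, |c k| ≤ 1) → ∑ k ∈ range M, σ k * c k ^ 2 ≤ V →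
  0 ≤ ε → ε ≤ 1 →
  P.real {ω | ε * V ≤ ∑ k ∈ range M, ((E k).indicator (fun _ => (1 : ℝ)) ω - σ k) * c k} ≤
    Real.exp (-(ε ^ 2 * V / 4))

def UbT : Prop := ∀ σ : ℕ → ℝ, (∀ n, 0 < σ n ∧ σ n ≤ 1) → Antitone σ → G1 σ →
  ∀ (Ω : Type) [MeasurableSpace Ω] (P : Measure Ω) [IsProbabilityMeasure P] (E : ℕ → Set Ω),
  (∀ n, MeasurableSet (E n)) → iIndepSet E P → (∀ n, P (E n) = ENNReal.ofReal (σ n)) →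
  ∀ (C : ℝ) (S : ℕ → Finset (ℕ → ℂ)), (∀ M, ∀ c ∈ S M, T3S.B1 c) →
  (∀ M, 1 ≤ M → ((S M).card : ℝ) ≤ Real.exp (C * (Real.log M + 1))) → ∀ ε : ℝ, 0 < ε →
  ∀ᵐ ω ∂P, ∀ᶠ N in atTop, ∀ c ∈ S N,
    ‖∑ d ∈ range N, ((iw σ (fun m => ω ∈ E m) d - 1 : ℝ) : ℂ) * c d‖ ≤ ε * N

/-- nets for dual functions on cyclic groups -/
def CovZ : Prop := ∀ (k : ℕ) (A ε : ℝ), 0 < A → 0 < ε → ∃ C : ℝ, 0 ≤ C ∧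
  ∀ (N : ℕ) [NeZero N], ∃ 𝓥 : Finset (ZMod N → ℂ), (∀ v ∈ 𝓥, T3S.B1 v) ∧
    (𝓥.card : ℝ) ≤ Real.exp (C * T3S.LG (ZMod N)) ∧
    ∀ u : ZMod N → ℂ, T3S.Dual k A u → ∃ v ∈ 𝓥, 𝔼 x, ‖u x - v x‖ ≤ ε

def NetP : Prop := ∀ (J : ℕ) (b : Fin J → Fin 3 → ℤ), (∀ t i, b t i ≠ 0) → ∀ ε : ℝ, 0 < ε →
  ∃ (C : ℝ) (S : ℕ → Finset (ℕ → ℂ)), (∀ M, ∀ c ∈ S M, T3S.B1 c) ∧
    (∀ M, 1 ≤ M → ((S M).card : ℝ) ≤ Real.exp (C * (Real.log M + 1))) ∧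
    ∀ᶠ M in atTop, ∀ u : Fin J → ℤ → ℂ, (∀ t, u t ∈ T3S.CZ (b t) (M ^ 2)) →
      ∃ c : ℕ → ℕ → ℂ, (∀ n < M, c n ∈ S M) ∧
        ∀ d < M, ∑ n ∈ range M, ‖∏ t, u t ((n : ℤ) + (d : ℤ)) - c n d‖ ≤ ε * M

/-- the same with a frequency for each base point -/
def NetT : Prop := ∀ (J : ℕ) (b : Fin J → Fin 3 → ℤ), (∀ t i, b t i ≠ 0) → ∀ ε : ℝ, 0 < ε →
  ∃ (C : ℝ) (S : ℕ → Finset (ℕ → ℂ)), (∀ M, ∀ c ∈ S M, T3S.B1 c) ∧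
    (∀ M, 1 ≤ M → ((S M).card : ℝ) ≤ Real.exp (C * (Real.log M + 1))) ∧
    ∀ᶠ M in atTop, ∀ (u : Fin J → ℤ → ℂ) (θ : ℕ → ℝ), (∀ t, u t ∈ T3S.CZ (b t) (M ^ 2)) →
      ∃ c : ℕ → ℕ → ℂ, (∀ n < M, c n ∈ S M) ∧ ∀ d < M, ∑ n ∈ range M,
        ‖(∏ t, u t ((n : ℤ) + (d : ℤ))) * ee ((d : ℝ) * θ n) - c n d‖ ≤ ε * M

def AeT : Prop := ∀ σ : ℕ → ℝ, (∀ n, 0 < σ n ∧ σ n ≤ 1) → Antitone σ → G1 σ →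
  ∀ (Ω : Type) [MeasurableSpace Ω] (P : Measure Ω) [IsProbabilityMeasure P] (E : ℕ → Set Ω),
  (∀ n, MeasurableSet (E n)) → iIndepSet E P → (∀ n, P (E n) = ENNReal.ofReal (σ n)) →
  ∀ᵐ ω ∂P, TStr (iw σ fun m => ω ∈ E m) ∧ Fl (iw σ fun m => ω ∈ E m)

def UbR : Prop := TailT → UbT
def NetPR : Prop := T3S.ApxS → CovZ → NetP
def NetTR : Prop := NetP → NetT
def AeR : Prop := NetT → UbT → AeT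

/-- the result of this part -/
def MainU : Prop := ∀ σ : ℕ → ℝ, (∀ n, 0 ≤ σ n ∧ σ n ≤ 1) → Antitone σ → G1 σ →
  ∀ (Ω : Type) [MeasurableSpace Ω] (P : Measure Ω) [IsProbabilityMeasure P] (E : ℕ → Set Ω),
  (∀ n, MeasurableSet (E n)) → iIndepSet E P → (∀ n, P (E n) = ENNReal.ofReal (σ n)) →
  ∀ᵐ ω ∂P, UWy (T3S.yw σ fun m => ω ∈ E m)

end T5u

end
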