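import Pool.Agent.MP_154433_an.t5.SpecU

/-! Uniform twisted averages when the total weight beats the square of the logarithm:
statements of the additional rows. -/

set_option autoImplicit false
set_option linter.unusedVariables false

open MeasureTheory ProbabilityTheory Filter Topology Function Finset
open scoped BigOperators
open Fib27 (BM)
open Pool.Agent.MP_154433_an

noncomputable section

namespace T5u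

open T3x T5x

open Classical in
/-- importance weights on the indices where `σ` is at least `ρ`, one elsewhere -/
def iv (σ ρ : ℕ → ℝ) (p : ℕ → Prop) (d : ℕ) : ℝ := if ρ d ≤ σ d then T3S.ind p d / σ d else 1

def RhoT : Prop := ∀ σ : ℕ → ℝ, (∀ n, 0 ≤ σ n) → T3S.Gr σ 2 → ∃ ρ : ℕ → ℝ, (∀ n, 0 < ρ n) ∧
  Antitone ρ ∧ G1 ρ ∧ Tendsto (fun M => T3S.Wt ρ M / T3S.Wt σ M) atTop (𝓝 0)

def UbA {Ω : Type} [MeasurableSpace Ω] (P : Measure Ω) (a : Ω → ℕ → ℝ) : Prop :=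
  ∀ (C : ℝ) (S : ℕ → Finset (ℕ → ℂ)), (∀ M, ∀ c ∈ S M, T3S.B1 c) →
  (∀ M, 1 ≤ M → ((S M).card : ℝ) ≤ Real.exp (C * (Real.log M + 1))) → ∀ ε : ℝ, 0 < ε →
  ∀ᵐ ω ∂P, ∀ᶠ N in atTop, ∀ c ∈ S N, ‖∑ d ∈ range N, ((a ω d - 1 : ℝ) : ℂ) * c d‖ ≤ ε * N

def UbV : Prop := ∀ σ ρ : ℕ → ℝ, (∀ n, 0 ≤ σ n ∧ σ n ≤ 1) → (∀ n, 0 < ρ n) → Antitone ρ → G1 ρ →
  ∀ (Ω : Type) [MeasurableSpace Ω] (P : Measure Ω) [IsProbabilityMeasure P] (E : ℕ → Set Ω),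
  (∀ n, MeasurableSet (E n)) → iIndepSet E P → (∀ n, P (E n) = ENNReal.ofReal (σ n)) →
  UbA P fun ω => iv σ ρ fun m => ω ∈ E m

def AeV : Prop := ∀ (Ω : Type) [MeasurableSpace Ω] (P : Measure Ω) (a : Ω → ℕ → ℝ),
  (∀ ω d, 0 ≤ a ω d) → UbA P a → ∀ᵐ ω ∂P, TStr (a ω) ∧ Fl (a ω)

def AtV : Prop := (At (fun _ => 1) ∧ Fl fun _ => 1) ∧ ∀ (σ ρ : ℕ → ℝ) (p : ℕ → Prop),
  (∀ n, 0 < ρ n) → Antitone ρ → G1 ρ → (∀ d, 0 ≤ iv σ ρ p d) ∧ At (iv σ ρ p)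

def LayA : Prop := ∀ σ a : ℕ → ℝ, (∀ n, 0 ≤ σ n) → Antitone σ →
  Tendsto (T3S.Wt σ) atTop atTop → (∀ (Y : Sys) (g : Y.X → ℂ), BM Y.μ Y.ms g → SV a Y g) →
  UWy fun M d => σ d * (a d - 1) / T3S.Wt σ M

def NearV : Prop := ∀ y y' : ℕ → ℕ → ℝ, T3S.Near y y' → UWy y' → UWy y

def BadV : Prop := ∀ σ ρ : ℕ → ℝ, (∀ n, 0 ≤ σ n ∧ σ n ≤ 1) → (∀ n, 0 < ρ n) → T3S.Gr σ 1 →
  Tendsto (T3S.Wt σ) atTop atTop → Tendsto (fun M => T3S.Wt ρ M / T3S.Wt σ M) atTop (𝓝 0) →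
  ∀ (Ω : Type) [MeasurableSpace Ω] (P : Measure Ω) [IsProbabilityMeasure P] (E : ℕ → Set Ω),
  (∀ n, MeasurableSet (E n)) → iIndepSet E P → (∀ n, P (E n) = ENNReal.ofReal (σ n)) →
  ∀ᵐ ω ∂P, T3S.Near (T3S.yw σ fun m => ω ∈ E m)
    fun M d => σ d * (iv σ ρ (fun m => ω ∈ E m) d - 1) / T3S.Wt σ M

def GrV : Prop := ∀ σ : ℕ → ℝ, T3S.Gr σ 2 → T3S.Gr σ 1 ∧ Tendsto (T3S.Wt σ) atTop atTop

def UbVR : Prop := TailT → UbV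
def AeVR : Prop := NetT → AeV
def BadR : Prop := T3S.UbS → BadV

/-- the result of this part -/
def MainV : Prop := ∀ σ : ℕ → ℝ, (∀ n, 0 ≤ σ n ∧ σ n ≤ 1) → Antitone σ → T3S.Gr σ 2 →
  ∀ (Ω : Type) [MeasurableSpace Ω] (P : Measure Ω) [IsProbabilityMeasure P] (E : ℕ → Set Ω),
  (∀ n, MeasurableSet (E n)) → iIndepSet E P → (∀ n, P (E n) = ENNReal.ofReal (σ n)) →
  ∀ᵐ ω ∂P, UWy (T3S.yw σ fun m => ω ∈ E m)

theorem mainV_of (sv : ∀ a : ℕ → ℝ, (∀ n, 0 ≤ a n) → Fl a → At a → TStr a →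
      ∀ (Y : Sys) (g : Y.X → ℂ), BM Y.μ Y.ms g → SV a Y g)
    (rho : RhoT) (ub : UbV) (ae : AeV) (atv : AtV) (lay : LayA) (near : NearV) (bad : BadV)
    (gr : GrV) : MainV := by
  intro σ hσ ha hg Ω _ P _ E hE hind hP
  obtain ⟨ρ, r1, r2, r3, r4⟩ := rho σ (fun n => (hσ n).1) hg
  obtain ⟨g1, g2⟩ := gr σ hg
  filter_upwards [ae Ω P _ (fun ω => (atv.2 σ ρ _ r1 r2 r3).1)
    (ub σ ρ hσ r1 r2 r3 Ω P E hE hind hP), bad σ ρ hσ r1 g1 g2 r4 Ω P E hE hind hP] with ω h1 h2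
  exact near _ _ h2 (lay σ _ (fun n => (hσ n).1) ha g2
    (sv _ (atv.2 σ ρ _ r1 r2 r3).1 h1.2 (atv.2 σ ρ _ r1 r2 r3).2 h1.1))

end T5u

end
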