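import Pool.Agent.MP_154433_an.t5.SpecU

/-! Row UAe: almost surely the importance weights do not see twisted structured sequences. -/

set_option autoImplicit false

open MeasureTheory ProbabilityTheory Filter Topology Function Finset
open scoped BigOperators
open Pool.Agent.MP_154433_an

noncomputable section

namespace T5u

open T3x T5x

namespace UAe

lemma step (a : ℕ → ℝ) (N : ℕ) (U c : ℕ → ℕ → ℂ) (ε : ℝ) (hε : 0 ≤ ε)
    (h1 : ∀ n < N, ‖∑ d ∈ range N, (a d : ℂ) * c n d‖ ≤ ε * N)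
    (h2 : ∀ d < N, ∑ n ∈ range N, ‖U n d - c n d‖ ≤ ε * N)
    (h3 : ∑ d ∈ range N, |a d| ≤ 3 * N) :
    ∑ n ∈ range N, ‖∑ d ∈ range N, (a d : ℂ) * U n d‖ ≤ 4 * ε * N * N := by
  have h4 : ∀ n ∈ range N, ‖∑ d ∈ range N, (a d : ℂ) * U n d‖ ≤
      ε * N + ∑ d ∈ range N, |a d| * ‖U n d - c n d‖ := fun n hn => by
    have e : ∑ d ∈ range N, (a d : ℂ) * U n d =
        ∑ d ∈ range N, (a d : ℂ) * c n d + ∑ d ∈ range N, (a d : ℂ) * (U n d - c n d) := by
      rw [← sum_add_distrib]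
      exact sum_congr rfl fun d _ => by ring
    rw [e]
    refine (norm_add_le _ _).trans (add_le_add (h1 n (mem_range.1 hn)) ?_)
    refine (norm_sum_le _ _).trans (sum_le_sum fun d _ => ?_)
    rw [norm_mul, Complex.norm_real, Real.norm_eq_abs]
  refine (sum_le_sum h4).trans ?_
  rw [sum_add_distrib, sum_const, card_range, nsmul_eq_mul, sum_comm]
  have h5 : ∑ d ∈ range N, ∑ n ∈ range N, |a d| * ‖U n d - c n d‖ ≤
      ∑ d ∈ range N, |a d| * (ε * N) := sum_le_sum fun d hd => by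
    rw [← mul_sum]
    exact mul_le_mul_of_nonneg_left (h2 d (mem_range.1 hd)) (abs_nonneg _)
  rw [← sum_mul] at h5
  have h6 := mul_le_mul_of_nonneg_right h3 (mul_nonneg hε (Nat.cast_nonneg (α := ℝ) N))
  linarith

lemma mass (a : ℕ → ℝ) (ha : ∀ d, 0 ≤ a d) (N : ℕ)
    (h : ‖∑ d ∈ range N, ((a d - 1 : ℝ) : ℂ) * 1‖ ≤ 1 * N) :
    ∑ d ∈ range N, |a d - 1| ≤ 3 * N := by
  simp only [mul_one, one_mul] at h
  rw [← Complex.ofReal_sum, Complex.norm_real, Real.norm_eq_abs] at h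
  have h1 : ∑ d ∈ range N, |a d - 1| ≤ ∑ d ∈ range N, ((a d - 1) + 2) :=
    sum_le_sum fun d _ => abs_le.2 ⟨by linarith [ha d], by linarith⟩
  rw [sum_add_distrib, sum_const, card_range, nsmul_eq_mul] at h1
  linarith [le_abs_self (∑ d ∈ range N, (a d - 1))]

lemma flat {a : ℕ → ℝ} (h : TStr a) : Fl a := by
  intro ε hε
  filter_upwards [h 0 Fin.elim0 (fun t => t.elim0) ε hε, eventually_ge_atTop 1] with N hN h1 t
  have h2 := hN Fin.elim0 (fun _ => t) fun t => t.elim0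
  simp only [univ_eq_empty, prod_empty, one_mul, sum_const, card_range, nsmul_eq_mul] at h2
  have h3 : (0 : ℝ) < N := by exact_mod_cast h1
  rw [mul_comm] at h2
  exact le_of_mul_le_mul_right h2 h3

end UAe

theorem aeT : AeR := by
  intro h1 h2 σ hσ ha hg Ω _ P _ E hE hind hP
  have hm := h2 σ hσ ha hg Ω P E hE hind hP 0 (fun _ => {fun _ => 1})
    (fun M c hc x => by rw [mem_singleton.1 hc]; simp) (fun M _ => by simp) 1 one_pos
  have hs : ∀ᵐ ω ∂P, ∀ (J : ℕ) (b : Fin J → Fin 3 → ℤ) (j : ℕ), (∀ t i, b t i ≠ 0) →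
      ∀ᶠ N : ℕ in atTop, ∀ (u : Fin J → ℤ → ℂ) (θ : ℕ → ℝ), (∀ t, u t ∈ T3S.CZ (b t) (N ^ 2)) →
        ∑ n ∈ range N, ‖∑ d ∈ range N, ((iw σ (fun m => ω ∈ E m) d - 1 : ℝ) : ℂ) *
          ((∏ t, u t ((n : ℤ) + (d : ℤ))) * ee ((d : ℝ) * θ n))‖ ≤
          4 * (1 / ((j : ℝ) + 1)) * N * N := by
    simp only [ae_all_iff]
    intro J b j hb
    obtain ⟨C, S, s1, s2, s3⟩ := h1 J b hb (1 / ((j : ℝ) + 1)) (by positivity)
    have := h2 σ hσ ha hg Ω P E hE hind hP C S s1 s2 (1 / ((j : ℝ) + 1)) (by positivity)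
    filter_upwards [this, hm] with ω k1 k2
    filter_upwards [k1, k2, s3] with N m1 m2 m3 u θ hu
    obtain ⟨c, c1, c2⟩ := m3 u θ hu
    refine UAe.step (fun d => iw σ (fun m => ω ∈ E m) d - 1) N _ c _ (by positivity)
      (fun n hn => m1 _ (c1 n hn)) c2 (UAe.mass _ (fun d => ?_) N (m2 _ (mem_singleton_self _)))
    refine div_nonneg ?_ (hσ d).1.le
    unfold T3S.ind
    split_ifs <;> norm_num
  filter_upwards [hs] with ω hω
  have h3 : TStr (iw σ fun m => ω ∈ E m) := fun J b hb ε hε => by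
    obtain ⟨j, hj⟩ := exists_nat_one_div_lt (by positivity : 0 < ε / 4)
    filter_upwards [hω J b j hb] with N hN u θ hu
    refine (hN u θ hu).trans ?_
    gcongr
    linarith
  exact ⟨h3, UAe.flat h3⟩

end T5u

end
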