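import Pool.Agent.MP_154433_an.t5.SpecU
import Pool.Agent.MP_154433_an.t3s.Basic

/-! Row UConv: signed sums along a flat sequence against differences of twisted averages. -/

set_option autoImplicit false
set_option linter.unusedVariables false
set_option warn.classDefReducibility false

open MeasureTheory ProbabilityTheory Filter Topology Function Finset ComplexConjugate
open scoped BigOperators
open Fib27 (BM)
open Pool.Agent.MP_154433_an

noncomputable section

namespace T5u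

open T3x T5x

namespace UConv

theorem norm_ee (t : ℝ) : ‖ee t‖ = 1 := Complex.norm_exp_ofReal_mul_I _

theorem cont_ee : Continuous ee := by
  unfold ee
  fun_prop

theorem av_le (ν : Wt) (M : ℕ) {φ : ℤ → ℂ} {K : ℝ} (h : ∀ d, ‖φ d‖ ≤ K) : ‖ν.av M φ‖ ≤ K := by
  refine (norm_sum_le _ _).trans ((sum_le_sum fun d _ => ?_).trans_eq
    (show ∑ d ∈ ν.sp M, ν.w M d * K = K by rw [← sum_mul, ν.one, one_mul]))
  rw [norm_smul, Real.norm_of_nonneg (ν.nn M d)]
  exact mul_le_mul_of_nonneg_left (h d) (ν.nn M d)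

theorem av_wt {a : ℕ → ℝ} (ha : ∀ n, 0 ≤ a n) {M : ℕ} (h : ∑ n ∈ range M, a n ≠ 0) (φ : ℤ → ℂ) :
    (wtOf a ha).av M φ = ∑ d ∈ range M, ((a d / ∑ n ∈ range M, a n : ℝ) : ℂ) * φ d := by
  simp only [Wt.av, wtOf, if_neg h]
  rw [sum_image fun x _ y _ e => Nat.cast_injective e]
  simp only [Int.toNat_natCast, Complex.real_smul]

theorem est {a : ℕ → ℝ} (ha : ∀ n, 0 ≤ a n) {M : ℕ} (hM : 1 ≤ M) {ε K : ℝ} (e2 : ε ≤ 1 / 2)
    (hA : |∑ n ∈ range M, a n - M| ≤ ε * M) {φ : ℤ → ℂ} (h : ∀ d, ‖φ d‖ ≤ K) :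
    ‖(wtOf a ha).av M φ - un.av M φ - (M : ℂ)⁻¹ * ∑ d ∈ range M, ((a d - 1 : ℝ) : ℂ) * φ d‖ ≤
      ε * K := by
  have m0 : (0 : ℝ) < M := by exact_mod_cast hM
  have A0 : 0 < ∑ n ∈ range M, a n := by
    have := (abs_le.1 hA).1
    nlinarith
  have K0 : 0 ≤ K := (norm_nonneg _).trans (h 0)
  have s1 : ∑ n ∈ range M, (1 : ℝ) = M := by simp
  rw [un, av_wt ha A0.ne', av_wt _ (by rw [s1]; exact m0.ne'), s1, mul_sum, ← sum_sub_distrib,
    ← sum_sub_distrib]
  generalize hS : ∑ n ∈ range M, a n = A at *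
  refine (norm_sum_le _ _).trans ((sum_le_sum (g := fun d => a d * (|A⁻¹ - (M : ℝ)⁻¹| * K))
    fun d _ => ?_).trans ?_)
  · rw [show ((a d / A : ℝ) : ℂ) * φ d - ((1 / M : ℝ) : ℂ) * φ d -
        (M : ℂ)⁻¹ * (((a d - 1 : ℝ) : ℂ) * φ d) = ((a d * (A⁻¹ - (M : ℝ)⁻¹) : ℝ) : ℂ) * φ d by
      push_cast; ring, norm_mul, Complex.norm_real, Real.norm_eq_abs, abs_mul, abs_of_nonneg (ha d),
      mul_assoc]
    exact mul_le_mul_of_nonneg_left (mul_le_mul_of_nonneg_left (h d) (abs_nonneg _)) (ha d)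
  · rw [← sum_mul, hS, ← mul_assoc]
    refine mul_le_mul_of_nonneg_right ?_ K0
    rw [← abs_of_pos A0, ← abs_mul, abs_of_pos A0,
      show A * (A⁻¹ - (M : ℝ)⁻¹) = -(A - M) / M by field_simp; ring, abs_div, abs_neg, abs_of_pos m0,
      div_le_iff₀ m0]
    exact hA

variable {X : Type} [MeasurableSpace X] {μ : Measure X} [IsProbabilityMeasure μ]

theorem near {u v : ℕ → X → ℂ} {K : ℝ} (hu : ∀ M, AEStronglyMeasurable (u M) μ)
    (hv : ∀ M, AEStronglyMeasurable (v M) μ) (hK : ∀ M, ∀ᵐ x ∂μ, ‖u M x‖ ≤ K)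
    (h : ∀ ε : ℝ, 0 < ε → ∀ᶠ M in atTop, ∀ᵐ x ∂μ, ‖u M x - v M x‖ ≤ ε) :
    Tendsto (fun M => ∫ x, ‖u M x‖ ∂μ - ∫ x, ‖v M x‖ ∂μ) atTop (𝓝 0) := by
  refine NormedAddGroup.tendsto_nhds_zero.2 fun ε hε => (h (ε / 2) (half_pos hε)).mono fun M e => ?_
  have i1 : Integrable (u M) μ := Integrable.of_bound (hu M) K (hK M)
  have i2 : Integrable (fun x => u M x - v M x) μ := Integrable.of_bound ((hu M).sub (hv M)) _ e
  have i3 : Integrable (v M) μ := by simpa using i1.sub' i2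
  rw [← integral_sub i1.norm i3.norm]
  refine lt_of_le_of_lt ((norm_integral_le_of_norm_le_const (C := ε / 2)
    (e.mono fun x hx => ?_)).trans_eq (by simp)) (half_lt_self hε)
  exact (abs_norm_sub_norm_le _ _).trans hx

theorem l12 {u : ℕ → X → ℂ} {K : ℝ} (hu : ∀ M, AEStronglyMeasurable (u M) μ)
    (hK : ∀ M, ∀ᵐ x ∂μ, ‖u M x‖ ≤ K) :
    Tendsto (fun M => ∫ x, ‖u M x‖ ∂μ) atTop (𝓝 0) ↔
      Tendsto (fun M => ∫ x, ‖u M x‖ ^ 2 ∂μ) atTop (𝓝 0) := by
  have i1 : ∀ M, Integrable (fun x => ‖u M x‖) μ := fun M =>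
    (Integrable.of_bound (hu M) K (hK M)).norm
  have i2 : ∀ M, Integrable (fun x => ‖u M x‖ ^ 2) μ := fun M =>
    Integrable.of_bound ((hu M).norm.pow 2) (K ^ 2) ((hK M).mono fun x hx => by
      rw [norm_pow, norm_norm]; exact pow_le_pow_left₀ (norm_nonneg _) hx 2)
  refine ⟨fun h => squeeze_zero (fun M => integral_nonneg fun x => sq_nonneg _) (fun M => ?_)
    (by simpa using h.const_mul K), fun h => ?_⟩
  · rw [← integral_const_mul]
    exact integral_mono_ae (i2 M) ((i1 M).const_mul K) ((hK M).mono fun x hx => by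
      beta_reduce; rw [sq]; exact mul_le_mul_of_nonneg_right hx (norm_nonneg _))
  · refine NormedAddGroup.tendsto_nhds_zero.2 fun ε hε =>
      (h.eventually (gt_mem_nhds (show 0 < ε / 2 * (ε / 2) by positivity))).mono fun M e => ?_
    have s0 := half_pos hε
    rw [Real.norm_of_nonneg (integral_nonneg fun x => norm_nonneg _)]
    have a : ∫ x, ‖u M x‖ ∂μ ≤ ∫ x, (ε / 2 + ‖u M x‖ ^ 2 / (ε / 2)) ∂μ :=
      integral_mono (i1 M) ((integrable_const _).add ((i2 M).div_const _)) fun x => by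
        beta_reduce
        rw [← sub_le_iff_le_add', le_div_iff₀ s0]
        nlinarith [sq_nonneg (‖u M x‖ - ε / 2), norm_nonneg (u M x)]
    rw [integral_add (integrable_const _) ((i2 M).div_const _)] at a
    simp only [integral_const, probReal_univ, one_smul, integral_div] at a
    have := (div_lt_iff₀ s0).2 e
    linarith

end UConv

open UConv in
theorem conv : ConvT := by
  intro a ha hF Y g ⟨hg, C, hC⟩
  refine forall_congr' fun b => forall_congr' fun hb => ?_
  have mp : ∀ d : ℤ, MeasurePreserving (Y.Tz d) Y.μ Y.μ := fun d => T3S.Tz_mp Y.mp d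
  have bd : ∀ᵐ y ∂Y.μ, ∀ (d : ℤ) (t : ℝ), ‖g (Y.Tz d y) * ee t‖ ≤ C :=
    (ae_all_iff.2 fun d : ℤ => (mp d).quasiMeasurePreserving.ae hC).mono fun y hy d t => by
      rw [norm_mul, norm_ee, mul_one]; exact hy d
  have ms : ∀ (M : ℕ) (d : ℤ) (c : ℝ),
      AEStronglyMeasurable (fun y => g (Y.Tz d y) * ee (c * b M y)) Y.μ := fun M d c =>
    (hg.comp_measurePreserving (mp d)).mul
      (cont_ee.measurable.comp ((hb M).const_mul c)).aestronglyMeasurable
  have mt : ∀ (ν : Wt) (M : ℕ), AEStronglyMeasurable (fun y => tav ν Y g M (b M y) y) Y.μ :=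
    fun ν M => Finset.aestronglyMeasurable_fun_sum _ fun d _ => (ms M d d).const_smul (ν.w M d)
  have hu := fun M => (mt (wtOf a ha) M).sub (mt un M)
  have hK : ∀ M, ∀ᵐ y ∂Y.μ, ‖tav (wtOf a ha) Y g M (b M y) y - tav un Y g M (b M y) y‖ ≤ C + C :=
    fun M => bd.mono fun y hy => (norm_sub_le _ _).trans
      (add_le_add (av_le _ M fun d => hy d _) (av_le _ M fun d => hy d _))
  have key := near (μ := Y.μ) (v := fun M y => (M : ℂ)⁻¹ * sav a Y g M (b M y) y)
    (u := fun M y => tav (wtOf a ha) Y g M (b M y) y - tav un Y g M (b M y) y) hu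
    (fun M => (Finset.aestronglyMeasurable_fun_sum (range M) fun d _ =>
      (ms M (d : ℤ) (d : ℝ)).const_mul ((a d - 1 : ℝ) : ℂ)).const_mul _) hK
    fun ε hε => by
      have c0 : 0 < |C| + 1 := by positivity
      filter_upwards [hF (min (1 / 2) (ε / (|C| + 1))) (by positivity), eventually_ge_atTop 1] with
        M h1 h2
      have h3 := h1 0
      simp only [mul_zero, show ee 0 = 1 by simp [ee], mul_one] at h3
      rw [← Complex.ofReal_sum, Complex.norm_real, Real.norm_eq_abs, sum_sub_distrib] at h3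
      simp only [sum_const, card_range, nsmul_eq_mul, mul_one] at h3
      refine bd.mono fun y hy => ?_
      have h4 := est ha h2 (min_le_left _ _) h3 (K := |C| + 1)
        (φ := fun d => g (Y.Tz d y) * ee ((d : ℝ) * b M y))
        fun d => (hy d _).trans (by linarith [le_abs_self C])
      simp only [Int.cast_natCast] at h4
      exact h4.trans ((le_div_iff₀ c0).1 (min_le_right _ _))
  rw [← l12 (u := fun M y => tav (wtOf a ha) Y g M (b M y) y - tav un Y g M (b M y) y) hu hK]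
  simp only [norm_mul, norm_inv, Complex.norm_natCast, integral_const_mul] at key
  exact ⟨fun h => by simpa using key.add h, fun h => by simpa using h.sub key⟩

end T5u

end
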