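import Pool.Agent.MP_154433_an.t5.SpecU
import Pool.Agent.MP_154433_an.t3.CptA

/-! Row UCptA: twisted averages of convolutions vanish. -/

set_option autoImplicit false
set_option linter.unusedVariables false
set_option linter.unusedSectionVars false

open MeasureTheory ProbabilityTheory Filter Topology Function Finset ComplexConjugate
open scoped BigOperators
open Fib27 (BM)

noncomputable section

namespace T5u

open T3x T5x

namespace UCptAx

open CptA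

theorem ee_add (s t : ℝ) : ee (s + t) = ee s * ee t := by
  rw [ee, ee, ee, ← Complex.exp_add]
  congr 1
  push_cast
  ring

theorem norm_ee (t : ℝ) : ‖ee t‖ = 1 := Complex.norm_exp_ofReal_mul_I _

theorem conj_ee (t : ℝ) : conj (ee t) = ee (-t) := by
  rw [ee, ee, ← Complex.exp_conj, map_mul, Complex.conj_ofReal, Complex.conj_I]
  congr 1
  push_cast
  ring

theorem cont_ee : Continuous ee := by
  unfold ee
  fun_prop

theorem ee_sub (d s t : ℝ) : ee (d * (s - t)) = ee (d * s) * conj (ee (d * t)) := by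
  rw [conj_ee, ← ee_add]
  congr 1
  ring

theorem bm_ee {Ω : Type} {m m0 : MeasurableSpace Ω} {μ : Measure[m0] Ω} {b : Ω → ℝ}
    (hb : Measurable[m] b) (d : ℝ) : BM μ m fun x => ee (d * b x) :=
  ⟨(cont_ee.measurable.comp (hb.const_mul d)).aestronglyMeasurable, 1,
    Eventually.of_forall fun _ => (norm_ee _).le⟩

variable {X : Sys} {ν ν' : Wt}

theorem tav_eq (g : X.X → ℂ) (M : ℕ) (t : ℝ) (x : X.X) :
    tav ν X g M t x = ∑ d ∈ ν.sp M, ν.w M d • (g (X.Tz d x) * ee ((d : ℝ) * t)) := rfl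

theorem bm_tav (t : BasT) {B : MeasurableSpace X.X} (hB : Fac X B) {g : X.X → ℂ}
    (hg : BM X.μ B g) {b : X.X → ℝ} (hb : Measurable[B] b) (ν : Wt) (M : ℕ) :
    BM X.μ B fun x => tav ν X g M (b x) x :=
  CptA.bm_wsum (ν.sp M) (ν.w M) fun d _ => (t.bm X B d g hB hg).mul (bm_ee hb d)

theorem bmt (t : BasT) {g : X.X → ℂ} (hg : BM X.μ X.ms g) {b : X.X → ℝ}
    (hb : Measurable[X.ms] b) (ν : Wt) (M : ℕ) : BM X.μ X.ms fun x => tav ν X g M (b x) x :=
  bm_tav t (t.top X) hg hb ν M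

theorem msh (t : BasT) {b : X.X → ℝ} (hb : Measurable b) (n n' : ℤ) :
    Measurable fun x => b (X.Tz n x) - b (X.Tz n' x) :=
  (hb.comp (t.mp X n).measurable).sub (hb.comp (t.mp X n').measurable)

theorem sq_tav (F : Fd) {X : Sys} (ν : Wt) (M : ℕ) {f : X.X → ℂ} (hf : BM X.μ X.ms f)
    {b : X.X → ℝ} (hb : Measurable[X.ms] b) :
    ∫ x, ‖tav ν X f M (b x) x‖ ^ 2 ∂X.μ = ∑ d ∈ ν.sp M, ∑ d' ∈ ν.sp M, ν.w M d * ν.w M d' *
      (∫ x, ee (d * b x) * conj (ee (d' * b x)) * (f (X.Tz d x) * conj (f (X.Tz d' x)))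
        ∂X.μ).re := by
  have := sq_wsum (μ := X.μ) (ν.sp M) (ν.w M) (f := fun d x => f (X.Tz d x) * ee (d * b x))
    fun d _ => (bmT F hf d).mul (bm_ee hb d)
  refine this.trans (sum_congr rfl fun d _ => sum_congr rfl fun d' _ => ?_)
  congr 3
  funext x
  rw [map_mul]
  ring

theorem core (F : Fd) (hk : KeyT) (hd : Drop) {ν' ν'' : Wt} {X Z : Sys}
    {B0 C : MeasurableSpace X.X} {p : Bool → Z.X → X.X} (hB : B0 ≤ C) (hC : Fac X C)
    (hP : Pair X C Z p) (hGood : UG ν'' ν' X C) (hG0 : TG0 ν' X B0) (H : Z.X → ℂ)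
    (g k : X.X → ℂ) (a1 : BM Z.μ (T3x.Inv Z) H) (a2 : BM X.μ X.ms g) (a3 : BM X.μ X.ms k)
    (a4 : Star p H g k) (hg1 : ∀ᵐ x ∂X.μ, ‖g x‖ ≤ 1) (h0 : X.μ[g | C] =ᵐ[X.μ] 0) :
    U0 ν'' X k := by
  intro b hb
  obtain ⟨K, hK, hkey⟩ := hk X Z C p hC hP H g k a1 a2 a3 a4
  let G : ℕ → ℕ → X.X → ℂ := fun n n' y => g (X.Tz n y) * conj (g (X.Tz n' y))
  have hG : ∀ n n', BM X.μ X.ms (G n n') := fun n n' => (bmT F a2 n).mul (bmT F a2 n').conj
  have hc : ∀ n n', BM X.μ C (X.μ[G n n' | C]) := fun n n' => (hG n n').ce C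
  have hc' : ∀ n n', BM X.μ X.ms (X.μ[G n n' | C]) := fun n n' => (hc n n').mono hC.le
  let β : ℕ → ℕ → ℕ → X.X → ℝ := fun n n' M x => b M (X.Tz n x) - b M (X.Tz n' x)
  have hβ : ∀ n n' M, Measurable[X.ms] (β n n' M) := fun n n' M =>
    (msh F.t (hb M) n n')
  have main : ∀ N M, 1 ≤ N → (∫ x, ‖tav ν'' X k M (b M x) x‖ ^ 2 ∂X.μ) ^ 2 ≤
      K * ∑ n ∈ range N, ∑ n' ∈ range N, (N : ℝ)⁻¹ * (N : ℝ)⁻¹ *
        ∫ x, ‖tav ν'' X (X.μ[G n n' | C]) M (β n n' M x) x‖ ^ 2 ∂X.μ := by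
    intro N M hN
    rw [sq_tav F ν'' M a3 (hb M)]
    refine (jensen _ _ (ν''.nn M) (ν''.one M) _ _ fun d d' => le_trans
      ((sq_abs _).symm.trans_le (pow_le_pow_left₀ (abs_nonneg _) (Complex.abs_re_le_norm _) 2))
      (hkey N hN d d' (fun x => ee (d * b M x) * conj (ee (d' * b M x)))
        ((bm_ee (hb M) d).mul (bm_ee (hb M) d').conj))).trans (le_of_eq ?_)
    simp only [sq_tav F ν'' M (hc' _ _) (hβ _ _ M), Finset.mul_sum]
    simp only [Finset.sum_comm (s := ν''.sp M) (t := range N)]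
    refine Finset.sum_congr rfl fun n _ => Finset.sum_congr rfl fun n' _ =>
      Finset.sum_congr rfl fun d _ => Finset.sum_congr rfl fun d' _ => ?_
    have e : (fun x => ee (d * b M (X.Tz n x)) * conj (ee (d' * b M (X.Tz n x))) *
        conj (ee (d * b M (X.Tz n' x)) * conj (ee (d' * b M (X.Tz n' x)))) *
        ((X.μ[G n n' | C]) (X.Tz d x) * conj ((X.μ[G n n' | C]) (X.Tz d' x)))) =
        fun x => ee (d * β n n' M x) * conj (ee (d' * β n n' M x)) *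
          ((X.μ[G n n' | C]) (X.Tz d x) * conj ((X.μ[G n n' | C]) (X.Tz d' x))) := by
      funext x
      simp only [β, ee_sub, map_mul]
      ring
    rw [e]
    ring
  have hB0 : X.μ[g | B0] =ᵐ[X.μ] 0 := by
    refine (condExp_condExp_of_le hB hC.le).symm.trans ((condExp_congr_ae h0).trans ?_)
    rw [condExp_zero]
  refine tendsto_order.2 ⟨fun a ha => Eventually.of_forall fun M =>
    ha.trans_le (integral_nonneg fun x => by positivity), fun ε hε => ?_⟩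
  have hδ : 0 < ε ^ 2 / (8 * K + 1) := by positivity
  obtain ⟨N, a, hN, ha, hs⟩ := hG0 g a2 hg1 hB0 _ hδ
  have hev : ∀ n ∈ range N, ∀ n' ∈ range N, ∀ᶠ M in atTop,
      ∫ x, ‖tav ν'' X (X.μ[G n n' | C]) M (β n n' M x) x‖ ^ 2 ∂X.μ ≤
        6 * (ε ^ 2 / (8 * K + 1)) + 2 * a n n' := by
    intro n _ n' _
    filter_upwards [(tendsto_order.1 (hGood _ (hc n n') (β n n') (hβ n n'))).2 _ hδ,
      hs n n' _ hδ] with M h1 h2
    have h3 := sq_le_two (bmt F.t (hc' n n') (hβ n n' M) ν'' M) (bmt F.t (hc' n n') (hβ n n' M) ν' M)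
    obtain ⟨b', h4, h5⟩ := hd ν' X C (G n n') M (β n n' M) _ hC (hG n n') (hβ n n' M) hδ
    have h6 := h2 b' h4
    linarith
  filter_upwards [(Finset.eventually_all _).2 fun n hn => (Finset.eventually_all _).2 (hev n hn)]
    with M hM
  have hN' : (0 : ℝ) < N := by exact_mod_cast hN
  have h5 : ∑ n ∈ range N, ∑ n' ∈ range N, (N : ℝ)⁻¹ * (N : ℝ)⁻¹ *
      ∫ x, ‖tav ν'' X (X.μ[G n n' | C]) M (β n n' M x) x‖ ^ 2 ∂X.μ ≤
      8 * (ε ^ 2 / (8 * K + 1)) := by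
    refine (Finset.sum_le_sum fun n hn => Finset.sum_le_sum fun n' hn' =>
      mul_le_mul_of_nonneg_left (hM n hn n' hn') (by positivity)).trans ?_
    simp only [← Finset.mul_sum, Finset.sum_add_distrib, Finset.sum_const, Finset.card_range,
      nsmul_eq_mul]
    calc _ = (N : ℝ)⁻¹ * (N : ℝ)⁻¹ * (N * (N * (6 * (ε ^ 2 / (8 * K + 1)))) +
          2 * ∑ n ∈ range N, ∑ n' ∈ range N, a n n') := by ring
      _ ≤ (N : ℝ)⁻¹ * (N : ℝ)⁻¹ * (N * (N * (6 * (ε ^ 2 / (8 * K + 1)))) +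
          2 * (ε ^ 2 / (8 * K + 1) * N ^ 2)) := by gcongr
      _ = _ := by
        field_simp
        ring
  have h6 := (main N M hN).trans (mul_le_mul_of_nonneg_left h5 hK)
  have h7 : K * (8 * (ε ^ 2 / (8 * K + 1))) < ε ^ 2 := by
    have : ε ^ 2 = (8 * K + 1) * (ε ^ 2 / (8 * K + 1)) := by field_simp
    linarith
  exact lt_of_pow_lt_pow_left₀ 2 hε.le (h6.trans_lt h7)

end UCptAx

theorem ucptA : UCptAR := by
  intro F hk hd ν' ν'' X B0 C Z p hX hB0 hC hB hP hGood hG0 H g k a1 a2 a3 a4 h0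
  obtain ⟨L, hL, hLg⟩ : ∃ L : ℝ, 0 < L ∧ ∀ᵐ x ∂X.μ, ‖g x‖ ≤ L := by
    obtain ⟨L, hL⟩ := a2.2
    exact ⟨max L 1, lt_max_of_lt_right one_pos, hL.mono fun x hx => hx.trans (le_max_left _ _)⟩
  have hL' : (L : ℂ) ≠ 0 := by exact_mod_cast hL.ne'
  refine UCptAx.core F hk hd hB hC hP hGood hG0 (fun z => (L : ℂ) * H z)
    (fun x => (L : ℂ)⁻¹ * g x) k (a1.cmul _) (a2.cmul _) a3 ?_ ?_ ?_
  · have e : (fun z => (L : ℂ) * H z * ((L : ℂ)⁻¹ * g (p true z))) =
        fun z => H z * g (p true z) := by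
      funext z
      field_simp
    unfold T3x.Star
    rw [e]
    exact a4
  · filter_upwards [hLg] with x hx
    rw [norm_mul, norm_inv, Complex.norm_real, Real.norm_of_nonneg hL.le,
      inv_mul_le_iff₀ hL, mul_one]
    exact hx
  · refine (Fib27.ce_cmul hC.le _ a2).trans ?_
    filter_upwards [h0] with x hx
    simp [hx]

end T5u

end
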