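import Pool.Agent.MP_154433_an.t5.SpecU

/-! Row UDet: from the core theorem to all systems. -/

set_option autoImplicit false
set_option linter.unusedVariables false

open MeasureTheory ProbabilityTheory Filter Topology Function Finset ComplexConjugate
open scoped BigOperators
open Fib27 (BM)
open Pool.Agent.MP_154433_an

noncomputable section

namespace T5u

open T3x T5x

theorem coreX (ν : Wt) (h : T5x.CoreF ν) : CoreX ν := by
  intro X B f hX hB hf h0 b hb
  have := h X B f (fun _ _ _ => 1) b hX hB hf h0 (fun _ _ => measurable_const)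
    (fun _ _ _ => by simp) hb
  simpa only [one_mul, tav] using this

theorem udet : UDetR := by
  intro F G hC ν ν' c1 c2 hB X
  obtain ⟨X', e, hX, he, hf⟩ := F.nice0 X
  refine G.down ν ν' X X' e he hf fun g hg => ?_
  obtain ⟨B0, b1, b2, b3, b4⟩ := hB X'
  have hK := F.h.kc X' B0 hX b1
  have hU : UG ν ν' X' (hull X' B0) := F.h.ind X' B0 _ hX b1 b3
    (fun C k1 k2 k3 => hC ν ν' X' B0 C hX b1 k1 k2 (b2.trans k2) k3 b4)
    fun 𝒞 k1 k2 k3 => G.chain ν ν' X' 𝒞 k1 k2 fun C h => ⟨(k3 C h).1, (k3 C h).2.2⟩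
  have hle : hull X' B0 ≤ X'.ms := hK.1.le
  have hc := hg.ce (hull X' B0)
  have hc' := hc.mono hle
  have h0 : X'.μ[fun x => g x - (X'.μ[g | hull X' B0]) x | hull X' B0] =ᵐ[X'.μ] 0 := by
    filter_upwards [condExp_sub hg.integrable hc'.integrable (hull X' B0), BM.ce_self hle hc]
      with x x1 x2
    exact x1.trans (by rw [Pi.sub_apply, x2, sub_self]; rfl)
  exact G.add ν ν' X' g _ _ hc' (hg.sub hc') (Eventually.of_forall fun x => by ring) (hU _ hc)
    (G.zero ν ν' X' _ (hg.sub hc') (c1 X' _ _ hX hK (hg.sub hc') h0)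
      (c2 X' _ _ hX hK (hg.sub hc') h0))

end T5u

end
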