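import Pool.Agent.MP_154433_an.t5.SpecU
import Pool.Agent.MP_154433_an.t3.CptA

/-! A conditional expectation does not increase the best twisted average. -/

set_option autoImplicit false
set_option linter.unusedVariables false

open MeasureTheory ProbabilityTheory Filter Topology Function Finset ComplexConjugate
open scoped BigOperators
open Fib27 (BM)
open Pool.Agent.MP_154433_an

noncomputable section

namespace T5u

open T3x T5x

namespace UDrop

lemma cont_ee : Continuous ee := by unfold ee; fun_prop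

lemma norm_ee (t : ℝ) : ‖ee t‖ = 1 := Complex.norm_exp_ofReal_mul_I _

lemma bm_ee {Ω : Type} {m m0 : MeasurableSpace Ω} {μ : Measure Ω} {β : Ω → ℝ}
    (h : Measurable[m] β) (d : ℤ) : BM μ m fun x => ee ((d : ℝ) * β x) :=
  ⟨(cont_ee.measurable.comp (h.const_mul (d : ℝ))).stronglyMeasurable.aestronglyMeasurable, 1,
    ae_of_all _ fun x => (norm_ee _).le⟩

lemma bm_tav (F : Fd) (ν : Wt) {X : Sys} {B : MeasurableSpace X.X} (hB : Fac X B) {g : X.X → ℂ}
    (hg : BM X.μ B g) (M : ℕ) {β : X.X → ℝ} (h : Measurable[B] β) :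
    BM X.μ B fun x => tav ν X g M (β x) x :=
  CptA.bm_wsum (ν.sp M) (ν.w M) fun d _ => (F.t.bm X B d g hB hg).mul (bm_ee h d)

end UDrop

open UDrop in
theorem drop : DropR := by
  intro F hP ν X C G M b η hC hG hb hη
  have hc : BM X.μ C (X.μ[G | C]) := hG.ce C
  have mc : Measurable[C] (X.μ[G | C]) := stronglyMeasurable_condExp.measurable
  obtain ⟨β, mβ, hβ⟩ := hP X.X C (fun t x => tav ν X (X.μ[G | C]) M t x) η hη
    (fun t => Finset.measurable_sum _ fun d _ => Measurable.const_smul
      ((mc.comp (measurable_iff_comap_le.2 (F.t.inv X C d hC).le)).mul_const _) (ν.w M d))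
    (fun x => continuous_finsetSum _ fun d _ => Continuous.const_smul
      (continuous_const.mul (cont_ee.comp (continuous_const.mul continuous_id))) (ν.w M d))
    fun x => ⟨_, fun t => (norm_sum_le _ _).trans (le_of_eq (Finset.sum_congr rfl fun d _ => by
      rw [norm_smul, norm_mul, norm_ee]))⟩
  have mβ' : Measurable[X.ms] β := mβ.mono hC.le le_rfl
  refine ⟨β, mβ', ?_⟩
  have hv := bm_tav F ν (F.t.top X) hG M mβ'
  have hw := bm_tav F ν hC hc M mβ
  have h1 : X.μ[fun x => tav ν X G M (β x) x | C] =ᵐ[X.μ] fun x => tav ν X (X.μ[G | C]) M (β x) x := by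
    refine Fib27.ce_eq_of_tests hC.le hv hw fun t ht => ?_
    refine (CptA.int_wsum (ν.sp M) (ν.w M) (fun d _ => (CptA.bmT F hG d).mul (bm_ee mβ' d))
      (ht.mono hC.le)).trans (Eq.trans ?_ (CptA.int_wsum (ν.sp M) (ν.w M)
        (fun d _ => (CptA.bmT F (hc.mono hC.le) d).mul (bm_ee mβ' d)) (ht.mono hC.le)).symm)
    refine Finset.sum_congr rfl fun d _ => congrArg _ ?_
    simp only [mul_assoc]
    rw [← Fib27.int_ce_mul hC.le (CptA.bmT F hG d) ((bm_ee mβ d).mul ht)]
    refine integral_congr_ae ?_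
    filter_upwards [F.t.ce X C d G hC hG.integrable] with x hx
    rw [hx]
  have h2 := (F.d.eqn C X.ms X.μ hC.le le_rfl _ (hv.memLp 2)).1
  have h3 : ∫ x, ‖tav ν X (X.μ[G | C]) M (β x) x‖ ^ 2 ∂X.μ ≤ ∫ x, ‖tav ν X G M (β x) x‖ ^ 2 ∂X.μ := by
    refine le_trans (le_of_eq (integral_congr_ae ?_)) (h2.trans (le_of_eq (integral_congr_ae ?_)))
    · filter_upwards [h1] with x hx
      rw [hx]
    · filter_upwards [hv.ce_self le_rfl] with x hx
      rw [hx]
  have i2 := CptA.int_sq (hw.mono hC.le)
  have h4 := integral_mono (CptA.int_sq (bm_tav F ν (F.t.top X) (hc.mono hC.le) M hb))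
    (i2.add (integrable_const η)) fun x => hβ x (b x)
  simp only [Pi.add_apply] at h4
  rw [integral_add i2 (integrable_const η), integral_const, probReal_univ, one_smul] at h4
  linarith

end T5u

end
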