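import Pool.Agent.MP_154433_an.t5.SpecU
import Pool.Agent.MP_154433_an.t3s.Basic

/-! Row UDw: one van der Corput step removes the twist. -/

set_option autoImplicit false
set_option linter.unusedVariables false
set_option warn.classDefReducibility false

open MeasureTheory ProbabilityTheory Filter Topology Function Finset ComplexConjugate
open scoped BigOperators
open Pool.Agent.MP_154433_an

noncomputable section

namespace T5u

open T3x T5x

namespace UDw

theorem norm_ee (t : ℝ) : ‖ee t‖ = 1 := Complex.norm_exp_ofReal_mul_I _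

theorem wt_one (M : ℕ) : T3S.Wt (fun _ => 1) M = M := by simp [T3S.Wt]

theorem pw : T3S.PW (T3S.nb fun _ => 1) := by
  refine ⟨fun M d => ?_, ?_⟩
  · rw [T3S.nb, wt_one]
    positivity
  · filter_upwards [eventually_ge_atTop 1] with M hM
    have : (M : ℝ) ≠ 0 := by exact_mod_cast (by omega : M ≠ 0)
    simp only [T3S.nb, wt_one, sum_const, card_range, nsmul_eq_mul]
    field_simp

theorem tav_un (X : Sys) (G : X.X → ℂ) {M : ℕ} (hM : 1 ≤ M) (t : ℝ) (x : X.X) :
    tav un X G M t x = ∑ d ∈ range M, ((T3S.nb (fun _ => 1) M d : ℝ) : ℂ) *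
      (G (T3S.Tz X.T (d : ℤ) x) * ee ((d : ℝ) * t)) := by
  have h : ¬ (∑ n ∈ range M, (1 : ℝ)) = 0 := by
    simp only [sum_const, card_range, nsmul_eq_mul, mul_one, Nat.cast_eq_zero]
    omega
  simp only [tav, Wt.av, un, wtOf, if_neg h]
  rw [sum_image fun a _ b _ e => Nat.cast_injective e]
  refine sum_congr rfl fun d _ => ?_
  rw [Complex.real_smul, Int.cast_natCast]
  rfl

theorem ee_pair (a a' : ℝ) (d t : ℝ) :
    ee ((d + a') * t) * conj (ee ((d + a) * t)) = ee ((a' - a) * t) := by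
  rw [ee, ee, ee, ← Complex.exp_conj, ← Complex.exp_add, map_mul, Complex.conj_ofReal,
    Complex.conj_I]
  congr 1
  push_cast
  ring

theorem integral_expR {X : Type} [MeasurableSpace X] {μ : Measure X} {ι : Type} (s : Finset ι)
    {f : ι → X → ℝ} (h : ∀ i ∈ s, Integrable (f i) μ) :
    Integrable (fun x => 𝔼 i ∈ s, f i x) μ ∧
      ∫ x, 𝔼 i ∈ s, f i x ∂μ = 𝔼 i ∈ s, ∫ x, f i x ∂μ := by
  simp only [Finset.expect_eq_sum_div_card]
  exact ⟨(integrable_finsetSum s h).div_const _, by rw [integral_div, integral_finsetSum s h]⟩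

end UDw

open UDw in
theorem dw : DwR := by
  intro hN hV hG X G hG1 H hH s η hs hη
  have : Nonempty (Fin H) := ⟨⟨0, hH⟩⟩
  set w := T3S.nb fun _ => (1 : ℝ) with hw
  have hA : T3S.AsInv w := by
    refine hN.2.2.2 _ (fun _ => zero_le_one) antitone_const ?_
    rw [show T3S.Wt (fun _ => 1) = fun M : ℕ => (M : ℝ) from funext wt_one]
    exact tendsto_natCast_atTop_atTop
  let D : Fin H → Fin H → X.X → ℂ := fun h h' =>
    T3S.ddX X.T (1 * (((h' : ℕ) : ℤ) - ((h : ℕ) : ℤ))) G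
  let K : Fin H → Fin H → X.X → ℂ := fun h h' y => D h h' (T3S.Tz X.T ((h : ℕ) : ℤ) y)
  have hD : ∀ h h', T3S.MB1 (D h h') := fun h h' => hG1.ddX _ _
  have hK : ∀ h h', T3S.MB1 (K h h') := fun h h' => (hD h h').tz _ _
  let A : ℕ → Fin H → Fin H → X.X → ℂ := fun M h h' =>
    T3S.wavg X.T w (fun _ : Fin 1 => (1 : ℤ)) (fun _ => K h h') M
  have h2 : ∀ᶠ M in atTop, ∀ h h', ∫ x, ‖A M h h' x‖ ^ 2 ∂X.μ ≤
      T3S.QX X.μ X.T H 1 (Fin.tail fun _ : Fin 2 => (1 : ℤ)) (D h h') + s * η / 2 := by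
    refine eventually_all.2 fun h => eventually_all.2 fun h' => ?_
    filter_upwards [hG w pw hA X.X X.μ X.T X.mp H hH 0 (fun _ => 1) (fun _ => K h h')
      (fun _ => hK h h') (s * η / 2) (by positivity)] with M hM
    rw [pow_zero, pow_one, T3S.QX_tz X.mp H _ _ _ (hD h h')] at hM
    have e : (Fin.cons (1 : ℤ) (fun j : Fin 0 => (1 : ℤ) - 1) : Fin 1 → ℤ) =
        Fin.tail fun _ : Fin 2 => (1 : ℤ) := by
      funext i
      rw [Fin.eq_zero i]
      rfl
    exact hM.trans_eq (by rw [← e])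
  filter_upwards [h2, hV w pw hA H hH (η / 2) (by positivity), eventually_ge_atTop 1]
    with M h2 h1 hM b hb
  have hI : ∀ h h', Integrable (fun x => ‖A M h h' x‖ ^ 2) X.μ := fun h h' => by
    refine Integrable.of_bound ((T3S.wavg_meas X.T w _ (fun _ => (hK h h').1) M).norm.pow_const
      2).aestronglyMeasurable ((∑ d ∈ range M, |w M d|) ^ 2) (Eventually.of_forall fun x => ?_)
    rw [Real.norm_of_nonneg (sq_nonneg _)]
    exact pow_le_pow_left₀ (norm_nonneg _) (T3S.wavg_norm_le X.T w _ (fun _ => (hK h h').2) M x) 2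
  have hI1 := fun h => integral_expR (μ := X.μ) univ fun h' _ => hI h h'
  have hI2 := integral_expR (μ := X.μ) univ fun h _ => (hI1 h).1
  have hp : ∀ x, ‖tav un X G M (b x) x‖ ^ 2 ≤
      s + (𝔼 h : Fin H, 𝔼 h' : Fin H, ‖A M h h' x‖ ^ 2) / s + η / 2 := fun x => by
    rw [tav_un X G hM]
    refine (h1 (fun d => G (T3S.Tz X.T (d : ℤ) x) * ee ((d : ℝ) * b x)) fun d => ?_).trans ?_
    · rw [norm_mul, norm_ee, mul_one]
      exact hG1.2 _
    refine add_le_add_left ?_ _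
    have e : s + (𝔼 h : Fin H, 𝔼 h' : Fin H, ‖A M h h' x‖ ^ 2) / s =
        𝔼 h : Fin H, 𝔼 h' : Fin H, (s + ‖A M h h' x‖ ^ 2 / s) := by
      simp only [expect_add_distrib, expect_const univ_nonempty, expect_div]
    rw [e, T3S.re_exp]
    refine expect_le_expect fun h _ => ?_
    rw [T3S.re_exp]
    refine expect_le_expect fun h' _ => ?_
    have e2 : ∑ d ∈ range M, (w M d : ℂ) *
        (G (T3S.Tz X.T ((d + h' : ℕ) : ℤ) x) * ee (((d + h' : ℕ) : ℝ) * b x) *
          conj (G (T3S.Tz X.T ((d + h : ℕ) : ℤ) x) * ee (((d + h : ℕ) : ℝ) * b x))) =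
        A M h h' x * ee ((((h' : ℕ) : ℝ) - ((h : ℕ) : ℝ)) * b x) := by
      simp only [A, T3S.wavg, sum_mul]
      refine sum_congr rfl fun d _ => ?_
      rw [← ee_pair (h : ℕ) (h' : ℕ) d (b x)]
      simp only [Fin.prod_univ_one, K, D, T3S.ddX, ← T3S.Tz_add, map_mul]
      rw [show (1 : ℤ) * (((h' : ℕ) : ℤ) - ((h : ℕ) : ℤ)) + ((h : ℕ) : ℤ) + 1 * (d : ℤ) =
        ((d + h' : ℕ) : ℤ) by push_cast; ring,
        show ((h : ℕ) : ℤ) + 1 * (d : ℤ) = ((d + h : ℕ) : ℤ) by push_cast; ring]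
      rw [Nat.cast_add (R := ℝ), Nat.cast_add (R := ℝ)]
      ring
    rw [e2]
    refine (Complex.re_le_norm _).trans ?_
    rw [norm_mul, norm_ee, mul_one, ← sub_le_iff_le_add', le_div_iff₀ hs]
    nlinarith [sq_nonneg (‖A M h h' x‖ - s), norm_nonneg (A M h h' x)]
  have hc : Integrable (fun x => s + (𝔼 h : Fin H, 𝔼 h' : Fin H, ‖A M h h' x‖ ^ 2) / s) X.μ :=
    (integrable_const s).add (hI2.1.div_const s)
  refine (integral_mono_of_nonneg (Eventually.of_forall fun x => sq_nonneg _)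
    (hc.add (integrable_const (η / 2))) (Eventually.of_forall hp)).trans ?_
  have e3 : ∫ x, s + (𝔼 h : Fin H, 𝔼 h' : Fin H, ‖A M h h' x‖ ^ 2) / s + η / 2 ∂X.μ =
      s + (𝔼 h : Fin H, 𝔼 h' : Fin H, ∫ x, ‖A M h h' x‖ ^ 2 ∂X.μ) / s + η / 2 := by
    rw [integral_add hc (integrable_const _),
      integral_add (integrable_const s) (hI2.1.div_const s), integral_div, hI2.2]
    simp only [integral_const, probReal_univ, one_smul, fun h => (hI1 h).2]
  refine (le_of_eq e3).trans ?_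
  have h4 : (𝔼 h : Fin H, 𝔼 h' : Fin H, ∫ x, ‖A M h h' x‖ ^ 2 ∂X.μ) ≤
      T3S.QX X.μ X.T H 2 (fun _ => 1) G + s * η / 2 := by
    have e : T3S.QX X.μ X.T H 2 (fun _ => 1) G + s * η / 2 = 𝔼 h : Fin H, 𝔼 h' : Fin H,
        (T3S.QX X.μ X.T H 1 (Fin.tail fun _ : Fin 2 => (1 : ℤ)) (D h h') + s * η / 2) := by
      simp only [expect_add_distrib, expect_const univ_nonempty]
      rfl
    rw [e]
    exact expect_le_expect fun h _ => expect_le_expect fun h' _ => h2 h h'
  have h5 := div_le_div_of_nonneg_right h4 hs.le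
  rw [add_div, show s * η / 2 / s = η / 2 by field_simp] at h5
  linarith

end T5u

end
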