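import Pool.Agent.MP_154433_an.t5.SpecU
import Pool.Agent.MP_154433_an.t3s.Bridge

/-! Flat sequences give ergodic weights. -/

set_option autoImplicit false
set_option linter.unusedVariables false
set_option warn.classDefReducibility false

open MeasureTheory ProbabilityTheory Filter Topology Function Finset ComplexConjugate
open scoped BigOperators
open Fib27 (BM)
open Pool.Agent.MP_154433_an

noncomputable section

namespace T5u

open T3x T5x

namespace UErg

theorem chi_eq {n : ℕ} (hn : n ≠ 0) (χ : AddChar (ZMod n) ℂ) :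
    ∃ t : ℝ, ∀ d : ℕ, χ (d : ZMod n) = ee ((d : ℝ) * t) := by
  have : NeZero n := ⟨hn⟩
  refine ⟨Complex.arg (χ 1) / (2 * Real.pi), fun d => ?_⟩
  have h1 : χ 1 = Complex.exp ((Complex.arg (χ 1) : ℂ) * Complex.I) := by
    have h := Complex.norm_mul_exp_arg_mul_I (χ 1)
    rw [χ.norm_apply] at h
    simpa using h.symm
  have h2 : χ (d : ZMod n) = χ 1 ^ d := by
    rw [← AddChar.map_nsmul_eq_pow, nsmul_one]
  have h3 : 2 * Real.pi * ((d : ℝ) * (Complex.arg (χ 1) / (2 * Real.pi))) =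
      d * Complex.arg (χ 1) := by
    have := Real.pi_pos
    field_simp
  rw [h2, ee, h3, h1, ← Complex.exp_nat_mul, ← h1]
  congr 1
  push_cast
  ring

theorem wt_one (M : ℕ) : T3S.Wt (fun _ => (1 : ℝ)) M = M := by simp [T3S.Wt]

theorem erg_one (h1 : T3S.ErgS) (h2 : T3S.NormS) : T3S.Erg (T3S.nb fun _ => 1) := by
  refine h1.1 _ ⟨fun M d => ?_, ?_⟩ (h2.2.2.2 _ (fun _ => zero_le_one) antitone_const ?_)
  · rw [T3S.nb, wt_one]
    positivity
  · filter_upwards [eventually_gt_atTop 0] with M hM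
    have : (M : ℝ) ≠ 0 := by positivity
    simp [T3S.nb, wt_one, this]
  · exact tendsto_natCast_atTop_atTop.congr fun M => (wt_one M).symm

theorem mix {a : ℕ → ℝ} (h : Fl a) :
    T3S.Mix fun M d => a d / M - T3S.nb (fun _ => 1) M d := by
  intro ε hε
  filter_upwards [h ε hε, eventually_gt_atTop 0] with M hM h0 χ
  obtain ⟨t, ht⟩ := chi_eq (show 2 * M ≠ 0 by omega) χ
  have hp : (0 : ℝ) < M := by positivity
  have e : ∑ d ∈ range M, ((a d / M - T3S.nb (fun _ => 1) M d : ℝ) : ℂ) * χ (d : ZMod (2 * M)) =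
      (((M : ℝ)⁻¹ : ℝ) : ℂ) * ∑ d ∈ range M, ((a d - 1 : ℝ) : ℂ) * ee ((d : ℝ) * t) := by
    rw [mul_sum]
    refine sum_congr rfl fun d _ => ?_
    rw [ht, T3S.nb, wt_one]
    push_cast
    ring
  rw [e, norm_mul, Complex.norm_real, Real.norm_of_nonneg (inv_nonneg.2 hp.le),
    inv_mul_le_iff₀ hp, mul_comm]
  exact hM t

theorem mass {a : ℕ → ℝ} (h : Fl a) :
    Tendsto (fun M : ℕ => (∑ d ∈ range M, a d) / M) atTop (𝓝 1) := by
  rw [Metric.tendsto_nhds]
  intro ε hε
  filter_upwards [h (ε / 2) (half_pos hε), eventually_gt_atTop 0] with M hM h0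
  have hp : (0 : ℝ) < M := by positivity
  have h1 := hM 0
  have e : ∑ d ∈ range M, ((a d - 1 : ℝ) : ℂ) * ee ((d : ℝ) * 0) =
      ((∑ d ∈ range M, a d - M : ℝ) : ℂ) := by
    simp [ee, sum_sub_distrib]
  rw [e, Complex.norm_real, Real.norm_eq_abs] at h1
  rw [Real.dist_eq, div_sub_one hp.ne', abs_div, abs_of_pos hp, div_lt_iff₀ hp]
  nlinarith

end UErg

theorem ergT : ErgTR := by
  intro h1 h2 a ha hf E _ _ _ V v hv
  have he : T3S.Erg fun M d => a d / M := h1.2 _ _ (UErg.erg_one h1 h2) (UErg.mix hf)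
  have hm := UErg.mass hf
  have h3 := (hm.inv₀ one_ne_zero).smul (he E V v hv)
  rw [smul_zero] at h3
  refine h3.congr' ?_
  filter_upwards [hm.eventually (lt_mem_nhds zero_lt_one), eventually_gt_atTop 0] with M hM h0
  have hp : (M : ℝ) ≠ 0 := by positivity
  have hA : ∑ d ∈ range M, a d ≠ 0 := fun e => by simp [e] at hM
  simp only [Wt.av, wtOf, if_neg hA]
  rw [sum_image fun x _ y _ e => Nat.cast_injective e, smul_sum]
  refine sum_congr rfl fun d _ => ?_
  rw [T3S.Bridge.pow_app, Complex.coe_smul, smul_smul, Int.toNat_natCast]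
  congr 1
  field_simp

end T5u

end
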