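import Pool.Agent.MP_154433_an.t5.SpecU
import Pool.Agent.MP_154433_an.t3.Met

/-! Ergodic weights on functions. -/

set_option autoImplicit false

open MeasureTheory ProbabilityTheory Filter Topology Function Finset ComplexConjugate
open scoped BigOperators

noncomputable section

namespace T5u

open T3x T3x.MetL

namespace UErgL

lemma l1_le {Ω : Type} [MeasurableSpace Ω] {μ : Measure Ω} [IsProbabilityMeasure μ]
    (v : Lp ℂ 2 μ) : ∫ x, ‖v x‖ ∂μ ≤ ‖v‖ := by
  rw [integral_norm_eq_lintegral_enorm (Lp.aestronglyMeasurable v),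
    ← eLpNorm_one_eq_lintegral_enorm, Lp.norm_def]
  exact ENNReal.toReal_mono (Lp.eLpNorm_ne_top v)
    (eLpNorm_le_eLpNorm_of_exponent_le one_le_two (Lp.aestronglyMeasurable v))

end UErgL

theorem ergL : ErgLR := by
  intro b ν hν Z F hF h0
  obtain ⟨C, hC⟩ := hF.2
  have hf : MemLp F 2 Z.μ := MemLp.of_bound hF.1 C hC
  have h := erg0 b hν Z 1 (hf.toLp F) fun g g2 gi => by
    simp_rw [b.t.one] at gi
    rw [← orth b Z hf g2 gi]
    refine integral_congr_ae ?_
    filter_upwards [hf.coeFn_toLp, h0] with x h1 h2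
    rw [h1, h2, Pi.zero_apply, sub_zero]
  refine squeeze_zero (fun M => integral_nonneg fun _ => norm_nonneg _) (fun M => ?_)
    (tendsto_zero_iff_norm_tendsto_zero.1 h)
  refine le_of_eq_of_le (integral_congr_ae ?_) (UErgL.l1_le _)
  filter_upwards [sum_coe b Z (ν.sp M) (fun d => ((ν.w M d : ℝ) : ℂ)) (fun d => 1 * d) hf]
    with x hx
  rw [hx]
  simp only [Wt.av, Complex.real_smul, one_mul]

end T5u

end
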