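import Pool.Agent.MP_154433_an.t5.SpecU
import Pool.Agent.MP_154433_an.t3.Gf

/-! Row UGf: closure properties of factors that are good for twisted averages. -/

set_option autoImplicit false
set_option linter.unusedVariables false

open MeasureTheory ProbabilityTheory Filter Topology Function Finset ComplexConjugate
open scoped BigOperators
open Fib27 (BM)
open Pool.Agent.MP_154433_an

noncomputable section

namespace T5u

open T3x T5x T3x.GfL

namespace UGfL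

lemma norm_ee (t : ℝ) : ‖ee t‖ = 1 := Complex.norm_exp_ofReal_mul_I _

lemma cont_ee : Continuous ee := by
  unfold ee
  fun_prop

variable {X : Sys} {ν ν' : Wt}

lemma tav_eq (g : X.X → ℂ) (M : ℕ) (t : ℝ) (x : X.X) :
    tav ν X g M t x = ∑ d ∈ ν.sp M, (ν.w M d : ℂ) * (g (X.Tz d x) * ee ((d : ℝ) * t)) := by
  simp only [tav, Wt.av, Complex.real_smul]

lemma bm_ee {b : X.X → ℝ} (hb : Measurable b) (c : ℝ) : BM X.μ X.ms fun x => ee (c * b x) :=
  ⟨(cont_ee.measurable.comp (hb.const_mul c)).aestronglyMeasurable, 1,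
    Eventually.of_forall fun x => (norm_ee _).le⟩

lemma bm_tav (t : BasT) {g : X.X → ℂ} (hg : BM X.μ X.ms g) (M : ℕ) {b : X.X → ℝ}
    (hb : Measurable b) : BM X.μ X.ms fun x => tav ν X g M (b x) x :=
  (bm_sum (ν.sp M) fun d _ => ((bm_comp (t.mp X d) hg).mul (bm_ee hb d)).cmul
    (ν.w M d : ℂ)).congr (Eventually.of_forall fun x => (tav_eq g M _ x).symm)

lemma contr (t : BasT) {h : X.X → ℂ} (hh : BM X.μ X.ms h) (M : ℕ) {b : X.X → ℝ}
    (hb : Measurable b) :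
    ∫ x, ‖tav ν X h M (b x) x‖ ^ 2 ∂X.μ ≤ ∫ x, ‖h x‖ ^ 2 ∂X.μ := by
  have hi : ∀ d ∈ ν.sp M, Integrable (fun x => ν.w M d * ‖h (X.Tz d x)‖ ^ 2) X.μ :=
    fun d _ => (isq (bm_comp (t.mp X _) hh)).const_mul _
  refine (integral_mono (isq (bm_tav t hh M hb)) (integrable_finsetSum _ hi)
    fun x => ?_).trans (le_of_eq ?_)
  · have cv : ConvexOn ℝ Set.univ fun z : ℂ => ‖z‖ ^ 2 :=
      convexOn_univ_norm.pow (fun _ _ => norm_nonneg _) 2
    have h1 := cv.map_sum_le (t := ν.sp M) (w := ν.w M) (p := fun d =>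
      h (X.Tz d x) * ee ((d : ℝ) * b x))
      (fun d _ => ν.nn M d) (ν.one M) fun _ _ => Set.mem_univ _
    simp only [Complex.real_smul, smul_eq_mul, norm_mul, norm_ee, mul_one] at h1
    simp only [tav_eq]
    exact h1
  · rw [integral_finsetSum _ hi, ← one_mul (∫ x, ‖h x‖ ^ 2 ∂X.μ), ← ν.one M, sum_mul]
    refine sum_congr rfl fun d _ => ?_
    rw [integral_const_mul, int_comp (f := fun y => ‖h y‖ ^ 2) (t.mp X _) (isq hh).1]

lemma tav_congr (t : BasT) {f g : X.X → ℂ} (h : f =ᵐ[X.μ] g) :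
    ∀ᵐ x ∂X.μ, ∀ (ν : Wt) M s, tav ν X f M s x = tav ν X g M s x := by
  filter_upwards [ae_all_iff.2 fun n : ℤ => (t.mp X n).quasiMeasurePreserving.ae h] with x hx
  intro ν M s
  simp only [tav_eq, hx]

lemma tav_add (f g : X.X → ℂ) (M : ℕ) (s : ℝ) (x : X.X) :
    tav ν X (fun y => f y + g y) M s x = tav ν X f M s x + tav ν X g M s x := by
  simp only [tav_eq, ← sum_add_distrib]
  exact sum_congr rfl fun d _ => by ring

lemma tav_split (g : X.X → ℂ) {n : ℕ} (a : Fin n → X.X → ℂ) (M : ℕ) (s : ℝ) (x : X.X) :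
    tav ν X g M s x = ∑ j, tav ν X (a j) M s x +
      tav ν X (fun y => g y - ∑ j, a j y) M s x := by
  simp only [tav_eq]
  rw [sum_comm, ← sum_add_distrib]
  refine sum_congr rfl fun d _ => ?_
  rw [← mul_sum, ← sum_mul]
  ring

lemma dense (t : BasT) {C : MeasurableSpace X.X} {T : Set (X.X → ℂ)} (hC : C ≤ X.ms)
    (hT : ∀ φ ∈ T, BM X.μ X.ms φ)
    (h1 : ∀ g, BM X.μ C g → ∀ ε : ℝ, 0 < ε → ∃ (n : ℕ) (a : Fin n → X.X → ℂ), (∀ i, a i ∈ T) ∧
      ∫ x, ‖g x - ∑ i, a i x‖ ^ 2 ∂X.μ ≤ ε)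
    (h2 : ∀ f ∈ T, UV ν ν' X f) : UG ν ν' X C := by
  intro g hg b hb
  have hg' := hg.mono hC
  refine sm_apx (m0 := X.ms) (μ := X.μ)
    (φ := fun M y => tav ν X g M (b M y) y - tav ν' X g M (b M y) y) fun ε hε => ?_
  obtain ⟨n, a, ha, hd'⟩ := h1 g hg (ε / 4) (by positivity)
  have hd := hg'.sub (bm_sum univ fun j _ => hT _ (ha j))
  have bm : ∀ j M, BM X.μ X.ms fun x => tav ν X (a j) M (b M x) x - tav ν' X (a j) M (b M x) x :=
    fun j M => (bm_tav t (hT _ (ha j)) M (hb M)).sub (bm_tav t (hT _ (ha j)) M (hb M))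
  refine ⟨_, fun M x => tav ν X (fun y => g y - ∑ j, a j y) M (b M x) x -
    tav ν' X (fun y => g y - ∑ j, a j y) M (b M x) x,
    sm_sum univ bm fun j => h2 _ (ha j) b hb, fun M => ⟨bm_sum _ fun j _ => bm j M,
      (bm_tav t hd M (hb M)).sub (bm_tav t hd M (hb M)), ?_⟩, fun M x => ?_⟩
  · linarith [n2_sub (bm_tav (ν := ν) t hd M (hb M)) (bm_tav (ν := ν') t hd M (hb M)),
      contr (ν := ν) t hd M (hb M), contr (ν := ν') t hd M (hb M)]
  · rw [tav_split (ν := ν) g a, tav_split (ν := ν') g a, sum_sub_distrib]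
    ring

lemma meas_tav (t : BasT) {g : X.X → ℂ} (hg : Measurable g) (M : ℕ) (s : ℝ) :
    Measurable (tav ν X g M s) := by
  have e : tav ν X g M s = fun x =>
      ∑ d ∈ ν.sp M, (ν.w M d : ℂ) * (g (X.Tz d x) * ee ((d : ℝ) * s)) := funext (tav_eq g M s)
  rw [e]
  exact Finset.measurable_sum _ fun d _ =>
    ((hg.comp (t.mp X d).measurable).mul_const _).const_mul _

lemma cont_tav (g : X.X → ℂ) (M : ℕ) (x : X.X) : Continuous fun s => tav ν X g M s x := by
  simp only [tav_eq]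
  exact continuous_finsetSum _ fun d _ => continuous_const.mul
    (continuous_const.mul (cont_ee.comp (continuous_const.mul continuous_id)))

lemma bd_tav (g : X.X → ℂ) (M : ℕ) (x : X.X) (s : ℝ) :
    ‖tav ν X g M s x‖ ≤ ∑ d ∈ ν.sp M, ‖(ν.w M d : ℂ)‖ * ‖g (X.Tz d x)‖ := by
  rw [tav_eq]
  refine (norm_sum_le _ _).trans (le_of_eq (sum_congr rfl fun d _ => ?_))
  rw [norm_mul, norm_mul, norm_ee, mul_one]

lemma down (A : BasA) (t : BasT) (P : Pick) {X' : Sys} {e : X.X → X'.X} (he : Emb X X' e)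
    (h : ∀ f ∈ Bdd X.X, ∃ f' ∈ Bdd X'.X, ∀ x, f' (e x) = f x) (hg : UG ν ν' X' X'.ms) :
    UG ν ν' X X.ms := by
  rintro f ⟨k1, C, hC⟩ b hb
  have hf : BM X.μ X.ms f := ⟨k1, C, hC⟩
  obtain ⟨f0, a1, a2, a3⟩ := A.rep X.ms X.μ f (max C 0) (le_max_right _ _) k1
    (hC.mono fun _ h => h.trans (le_max_left _ _))
  obtain ⟨f', ⟨b1, C', b2⟩, b3⟩ := h f0 ⟨a1, _, a2⟩
  have c1 : BM X'.μ X'.ms f' := ⟨b1.aestronglyMeasurable, C', Eventually.of_forall b2⟩
  have c2 : f =ᵐ[X.μ] fun x => f' (e x) := by simpa only [b3]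
  have e1 : ∀ᵐ x ∂X.μ, ∀ (ν : Wt) M s, tav ν X f M s x = tav ν X' f' M s (e x) := by
    filter_upwards [tav_congr t c2, ae_all_iff.2 fun n : ℤ => A.keq_fun X'.ms X.μ X'.μ _ _ f'
      (he.mp.comp (t.mp X n)) ((t.mp X' n).comp he.mp) (t.emb_z X X' e n he) c1.1] with x h1 h2
    intro ν M s
    rw [h1, tav_eq, tav_eq]
    exact sum_congr rfl fun d _ => congrArg _ (congrArg (· * _) (h2 d))
  have pk : ∀ M : ℕ, ∃ b' : X'.X → ℝ, Measurable b' ∧ ∀ y s,
      ‖tav ν X' f' M s y - tav ν' X' f' M s y‖ ^ 2 ≤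
        ‖tav ν X' f' M (b' y) y - tav ν' X' f' M (b' y) y‖ ^ 2 + 1 / ((M : ℝ) + 1) := fun M =>
    P X'.X X'.ms (fun s y => tav ν X' f' M s y - tav ν' X' f' M s y) _ (by positivity)
      (fun s => (meas_tav t b1 M s).sub (meas_tav t b1 M s))
      (fun y => (cont_tav f' M y).sub (cont_tav f' M y))
      fun y => ⟨_, fun s => (norm_sub_le _ _).trans
        (add_le_add (bd_tav f' M y s) (bd_tav f' M y s))⟩
  choose b' p1 p2 using pk
  refine squeeze_zero (fun _ => integral_nonneg fun _ => by positivity) (fun M => ?_)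
    (by simpa only [add_zero] using
      (hg f' c1 b' p1).add (tendsto_one_div_add_atTop_nhds_zero_nat (𝕜 := ℝ)))
  have q := (bm_tav (ν := ν) t c1 M (p1 M)).sub (bm_tav (ν := ν') t c1 M (p1 M))
  rw [← int_comp he.mp (isq q).1]
  have q' := isq (bm_comp he.mp q)
  refine (integral_mono_ae (isq ((bm_tav t hf M (hb M)).sub (bm_tav t hf M (hb M))))
    (q'.add (integrable_const (1 / ((M : ℝ) + 1)))) ?_).trans (le_of_eq ?_)
  · filter_upwards [e1] with x hx
    rw [hx, hx]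
    exact p2 M _ _
  · simp only [Pi.add_apply]
    rw [integral_add q' (integrable_const _), integral_const, probReal_univ, one_smul]

end UGfL

open UGfL in
theorem ugf : UGfR := by
  rintro ⟨A, t, D, -⟩ P
  refine ⟨fun ν ν' X C T hC hT h1 h2 => UGfL.dense t hC hT h1 h2,
    fun ν ν' X 𝒞 hne hch h => ?_, fun ν ν' X X' e he h hg => down A t P he h hg,
    fun ν ν' X f hf h1 h2 b hb => ?_, fun ν ν' X f f1 f2 k1 k2 e h1 h2 b hb => ?_⟩
  · have hle := (t.fsSup X 𝒞 hne fun C hC => (h C hC).1).le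
    refine UGfL.dense t (T := {φ | ∃ C ∈ 𝒞, BM X.μ C φ}) hle
      (fun φ ⟨C, hC, hφ⟩ => hφ.mono (h C hC).1.le) (fun g hg ε hε => ?_)
      fun f ⟨C, hC, hφ⟩ => (h C hC).2 f hφ
    obtain ⟨C, hC, k⟩ := D.chain 𝒞 X.μ hne hch.directedOn (fun C hC => (h C hC).1.le) g
      ((hg.mono hle).memLp 2) ε hε
    refine ⟨1, fun _ => X.μ[g | C], fun _ => ⟨C, hC, hg.ce C⟩, le_trans (le_of_eq ?_)
      (k C hC le_rfl)⟩
    refine integral_congr_ae ?_
    filter_upwards [BM.ce_self hle hg] with x hx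
    rw [hx, Fin.sum_univ_one]
  · exact sm_of (μ := X.μ) (φ := fun M y => tav ν X f M (b M y) y - tav ν' X f M (b M y) y)
      (h1 b hb) (h2 b hb) fun M => n2_sub (bm_tav t hf M (hb M)) (bm_tav t hf M (hb M))
  · refine sm_of (μ := X.μ) (φ := fun M y => tav ν X f M (b M y) y - tav ν' X f M (b M y) y)
      (h1 b hb) (h2 b hb) fun M => le_trans (le_of_eq (integral_congr_ae ?_))
        (n2_add ((bm_tav t k1 M (hb M)).sub (bm_tav t k1 M (hb M)))
          ((bm_tav t k2 M (hb M)).sub (bm_tav t k2 M (hb M))))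
    filter_upwards [tav_congr t e] with x hx
    rw [hx, hx, tav_add, tav_add]
    congr 2
    ring

end T5u

end
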