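import Pool.Agent.MP_154433_an.t5.SpecU
import Pool.Agent.MP_154433_an.t3s.Good

/-! Row UGood: twisted averages vanish on the structured factor. -/

set_option autoImplicit false
set_option linter.unusedVariables false
set_option warn.classDefReducibility false

open MeasureTheory ProbabilityTheory Filter Topology Function Finset ComplexConjugate
open scoped BigOperators
open Fib27 (BM)
open Pool.Agent.MP_154433_an

noncomputable section

namespace T5u

open T3x T5x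

namespace UGood

open T3S.GoodR

/-- a property that is linear and closed in the mean passes from an algebra to the generated
sigma-algebra -/
theorem slotA {X : Type} [m0 : MeasurableSpace X] {μ : Measure X} [IsProbabilityMeasure μ]
    (P : (X → ℂ) → Prop)
    (hadd : ∀ g g', MB g → MB g' → P g → P g' → P fun x => g x + g' x)
    (hmul : ∀ (c : ℂ) g, P g → P fun x => c * g x)
    (hapx : ∀ g, MB g → (∀ ε : ℝ, 0 < ε → ∃ g', MB g' ∧ P g' ∧ ∫ x, ‖g x - g' x‖ ∂μ ≤ ε) → P g)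
    (S : Set (X → ℝ)) (h1 : (1 : X → ℝ) ∈ S)
    (hm : ∀ φ ∈ S, ∀ φ' ∈ S, φ * φ' ∈ S) (hS : ∀ φ ∈ S, Measurable φ ∧ ∃ C : ℝ, ∀ x, |φ x| ≤ C)
    (hV : ∀ φ ∈ S, P fun x => (φ x : ℂ)) {g : X → ℂ} (hg : MB g)
    (hB : AEStronglyMeasurable[⨆ φ ∈ S, MeasurableSpace.comap φ inferInstance] g μ) : P g := by
  have hsp : ∀ φ ∈ Submodule.span ℝ S, P fun x => (φ x : ℂ) := by
    intro φ hφ
    induction hφ using Submodule.span_induction with
    | mem x h => exact hV x h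
    | zero =>
      have := hmul 0 _ (hV 1 h1)
      simpa using this
    | add f g hf hg ihf ihg =>
      have := hadd _ _ (MB.ofReal (SG.Dens.span_bdd hS hf))
        (MB.ofReal (SG.Dens.span_bdd hS hg)) ihf ihg
      simpa using this
    | smul c f hf ihf =>
      have := hmul (c : ℂ) _ ihf
      simpa using this
  have hre : ∀ ψ : X → ℝ, (Measurable ψ ∧ ∃ C : ℝ, ∀ x, |ψ x| ≤ C) →
      AEStronglyMeasurable[⨆ φ ∈ S, MeasurableSpace.comap φ inferInstance] ψ μ →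
      P fun x => (ψ x : ℂ) := by
    intro ψ hψ hψB
    refine hapx _ (MB.ofReal hψ) fun ε hε => ?_
    obtain ⟨C, hC⟩ := hψ.2
    obtain ⟨φ, hφ, hlt⟩ := SG.Dens.partB h1 hm hS μ ψ ⟨hψB, C, Eventually.of_forall hC⟩ ε hε
    refine ⟨fun x => (φ x : ℂ), MB.ofReal (SG.Dens.span_bdd hS hφ), hsp φ hφ, ?_⟩
    refine le_of_eq_of_le (integral_congr_ae (Eventually.of_forall fun x => ?_)) hlt.le
    show ‖(ψ x : ℂ) - (φ x : ℂ)‖ = |ψ x - φ x|
    rw [← Complex.ofReal_sub, Complex.norm_real, Real.norm_eq_abs]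
  obtain ⟨C, h0, hC⟩ := hg.2
  have b1 : Measurable (fun x => (g x).re) ∧ ∃ C : ℝ, ∀ x, |(g x).re| ≤ C :=
    ⟨Complex.measurable_re.comp hg.1, C, fun x => (Complex.abs_re_le_norm _).trans (hC x)⟩
  have b2 : Measurable (fun x => (g x).im) ∧ ∃ C : ℝ, ∀ x, |(g x).im| ≤ C :=
    ⟨Complex.measurable_im.comp hg.1, C, fun x => (Complex.abs_im_le_norm _).trans (hC x)⟩
  have v1 := hre _ b1 (Complex.continuous_re.comp_aestronglyMeasurable hB)
  have v2 := hre _ b2 (Complex.continuous_im.comp_aestronglyMeasurable hB)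
  have v3 := hadd _ _ (MB.ofReal b1) ((MB.const Complex.I).mul (MB.ofReal b2)) v1
    (hmul Complex.I _ v2)
  have e : g = fun x => ((g x).re : ℂ) + Complex.I * ((g x).im : ℂ) := funext fun x => by
    rw [mul_comm, Complex.re_add_im]
  rw [← e] at v3
  exact v3

theorem nee (t : ℝ) : ‖ee t‖ = 1 := Complex.norm_exp_ofReal_mul_I _

theorem cee : Continuous ee := by
  unfold ee
  fun_prop

theorem mass {a : ℕ → ℝ} (ha : ∀ n, 0 ≤ a n) (h : Fl a) :
    ∀ᶠ N : ℕ in atTop, ∑ d ∈ range N, |a d - 1| ≤ 3 * N := by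
  filter_upwards [h 1 one_pos] with N hN
  have h1 := hN 0
  have e0 : ee 0 = 1 := by simp [ee]
  simp only [mul_zero, e0, mul_one, one_mul] at h1
  rw [← Complex.ofReal_sum, Complex.norm_real, Real.norm_eq_abs] at h1
  have h2 : ∑ d ∈ range N, |a d - 1| ≤ ∑ d ∈ range N, ((a d - 1) + 2) :=
    sum_le_sum fun d _ => abs_le.2 ⟨by linarith [ha d], by linarith⟩
  rw [sum_add_distrib, sum_const, card_range, nsmul_eq_mul] at h2
  linarith [(abs_le.1 h1).2]

/-- the twisted sum in the form of row Good -/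
def O (a : ℕ → ℝ) (Y : Sys) (b : ℕ → Y.X → ℝ) (g : Y.X → ℂ) (N : ℕ) : Y.X → ℂ :=
  op Y.T (fun _ d => a d - 1) 1 (fun d x => ee ((d : ℝ) * b N x)) g N

theorem sav_eq (a : ℕ → ℝ) (Y : Sys) (b : ℕ → Y.X → ℝ) (g : Y.X → ℂ) (N : ℕ) (y : Y.X) :
    sav a Y g N (b N y) y = O a Y b g N y := by
  simp only [sav, O, op, one_mul]
  rfl

def PV (a : ℕ → ℝ) (Y : Sys) (b : ℕ → Y.X → ℝ) (g : Y.X → ℂ) : Prop :=
  Tendsto (fun N : ℕ => (N : ℝ)⁻¹ * ∫ y, ‖O a Y b g N y‖ ∂Y.μ) atTop (𝓝 0)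

variable {a : ℕ → ℝ} {Y : Sys} {b : ℕ → Y.X → ℝ}

theorem mR (hb : ∀ N, Measurable (b N)) (N d : ℕ) : Measurable fun x => ee ((d : ℝ) * b N x) :=
  cee.measurable.comp ((hb N).const_mul _)

theorem nn (g : Y.X → ℂ) (N : ℕ) : 0 ≤ (N : ℝ)⁻¹ * ∫ y, ‖O a Y b g N y‖ ∂Y.μ :=
  mul_nonneg (by positivity) (integral_nonneg fun _ => norm_nonneg _)

theorem iadd (hb : ∀ N, Measurable (b N)) {g g' : Y.X → ℂ} (hg : MB g) (hg' : MB g') (N : ℕ) :
    (N : ℝ)⁻¹ * ∫ y, ‖O a Y b (fun x => g x + g' x) N y‖ ∂Y.μ ≤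
      (N : ℝ)⁻¹ * ∫ y, ‖O a Y b g N y‖ ∂Y.μ + (N : ℝ)⁻¹ * ∫ y, ‖O a Y b g' N y‖ ∂Y.μ := by
  rw [← mul_add]
  exact mul_le_mul_of_nonneg_left
    (int_add zero_le_one (mR hb N) (fun d x => (nee _).le) hg hg' N) (by positivity)

theorem padd (hb : ∀ N, Measurable (b N)) (g g' : Y.X → ℂ) (hg : MB g) (hg' : MB g')
    (h : PV a Y b g) (h' : PV a Y b g') : PV a Y b fun x => g x + g' x := by
  have h3 := h.add h'
  rw [add_zero] at h3
  exact squeeze_zero (nn _) (iadd hb hg hg') h3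

theorem pmul (c : ℂ) (g : Y.X → ℂ) (h : PV a Y b g) : PV a Y b fun x => c * g x := by
  have h3 := h.const_mul ‖c‖
  rw [mul_zero] at h3
  refine h3.congr fun M => ?_
  simp only [O, op_mul, norm_mul, integral_const_mul]
  ring

theorem papx (ha : ∀ n, 0 ≤ a n) (hF : Fl a) (hb : ∀ N, Measurable (b N)) (g : Y.X → ℂ)
    (hg : MB g)
    (h : ∀ ε : ℝ, 0 < ε → ∃ g', MB g' ∧ PV a Y b g' ∧ ∫ x, ‖g x - g' x‖ ∂Y.μ ≤ ε) :
    PV a Y b g := by
  refine tendsto_order.2 ⟨fun c hc => Eventually.of_forall fun M => hc.trans_le (nn _ _),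
    fun c hc => ?_⟩
  obtain ⟨g', hg', hV, hε⟩ := h (c / 6) (by positivity)
  filter_upwards [mass ha hF, (tendsto_order.1 hV).2 (c / 2) (by positivity),
    eventually_ge_atTop 1] with M h1 h2 hM
  have e : g = fun x => g' x + (g x - g' x) := funext fun x => by ring
  have h3 := iadd (a := a) hb hg' (hg.sub hg') M
  rw [← e] at h3
  have h4 : ∫ y, ‖O a Y b (fun x => g x - g' x) M y‖ ∂Y.μ ≤ _ :=
    op_int Y.mp zero_le_one (fun d x => (nee _).le) (hg.sub hg') M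
  have m0 : (0 : ℝ) < M := by exact_mod_cast hM
  have h5 : (∑ d ∈ range M, |a d - 1|) * (1 * ∫ x, ‖g x - g' x‖ ∂Y.μ) ≤ 3 * M * (c / 6) := by
    rw [one_mul]
    exact mul_le_mul h1 hε (integral_nonneg fun x => norm_nonneg _) (by positivity)
  have h6 : (M : ℝ)⁻¹ * ∫ y, ‖O a Y b (fun x => g x - g' x) M y‖ ∂Y.μ ≤ c / 2 := by
    rw [inv_mul_le_iff₀ m0]
    linarith
  linarith

theorem pbase (h : ProdT) (ha : ∀ n, 0 ≤ a n) (hF : Fl a) (hs : TStr a)
    (hb : ∀ N, Measurable (b N)) {φ : Y.X → ℝ} (hφ : Shape Y.μ Y.T 2 φ) :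
    PV a Y b fun x => (φ x : ℂ) := by
  obtain ⟨a1, a2, ph, κ, _, D, a3, a4, a5, a6⟩ := hφ
  have h1 := h a ha hF hs Y κ D a5 b hb
  simp only [sav_eq] at h1
  have hD : MB fun y => ∏ t, D t y := by
    choose b' _ hb' using a5
    exact ⟨Finset.measurable_prod _ fun t _ => (hb' t).1.1, 1, zero_le_one,
      fun y => T3S.norm_prod_le_one _ fun t _ => (hb' t).1.2 y⟩
  refine squeeze_zero (nn _) (fun M => ?_) h1
  refine mul_le_mul_of_nonneg_left ?_ (by positivity)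
  refine integral_mono_of_nonneg (Eventually.of_forall fun x => norm_nonneg _)
    ((op_MB zero_le_one (mR hb M) (fun d x => (nee _).le) hD M).intn Y.μ) ?_
  filter_upwards [ae_all_iff.2 a4] with x hx
  have e : O a Y b (fun x => (φ x : ℂ)) M x = ph x * O a Y b (fun y => ∏ t, D t y) M x := by
    simp only [O, op, Finset.mul_sum, a6, hx]
    exact Finset.sum_congr rfl fun d _ => by ring
  rw [e, norm_mul]
  refine mul_le_of_le_one_left (norm_nonneg _) ?_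
  rw [Complex.norm_real, Real.norm_eq_abs]
  exact a3 x

end UGood

open UGood T3S.GoodR in
theorem goodT : GoodTR := by
  intro h a ha hF hs Y g hg b hb
  have hB : T3S.B0 Y.μ Y.T 2 ≤ Y.ms := iSup₂_le fun φ hφ =>
    (shape Y.mp 2 (Submonoid.subset_closure hφ)).1.comap_le
  obtain ⟨g', h1, h2, h3⟩ := rep _ hB (f := g) ⟨hg.1, hg.2⟩
  have hV : PV a Y b g' :=
    slotA (μ := Y.μ) (PV a Y b) (padd hb) pmul (papx ha hF hb)
      (Submonoid.closure (T3S.Gen Y.μ Y.T 2) : Set (Y.X → ℝ)) (one_mem _)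
      (fun φ hφ φ' hφ' => mul_mem hφ hφ')
      (fun φ hφ => ⟨(shape Y.mp 2 hφ).1, 1, (shape Y.mp 2 hφ).2.1⟩)
      (fun φ hφ => pbase h ha hF hs hb (shape Y.mp 2 hφ)) h1
      (h2.mono (iSup₂_le fun φ hφ => le_iSup₂_of_le φ (Submonoid.subset_closure hφ) le_rfl))
  have h4 : ∀ᵐ x ∂Y.μ, ∀ v : ℤ, g (T3S.Tz Y.T v x) = g' (T3S.Tz Y.T v x) :=
    ae_all_iff.2 fun v => (T3S.Tz_mp Y.mp v).quasiMeasurePreserving.ae h3
  refine hV.congr fun N => ?_
  congr 1
  refine integral_congr_ae ?_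
  filter_upwards [h4] with x hx
  rw [sav_eq]
  simp only [O, op, hx]

end T5u

end
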