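import Pool.Agent.MP_154433_an.t5.SpecU
import Pool.Agent.MP_154433_an.t3.CptA

/-! Row UKey: the Cauchy-Schwarz step with a twist. -/

set_option autoImplicit false
set_option linter.unusedVariables false
set_option linter.unusedSectionVars false

open MeasureTheory ProbabilityTheory Filter Topology Function Finset ComplexConjugate
open scoped BigOperators
open Fib27 (BM)

noncomputable section

namespace T5u

open T3x T5x

namespace UKey

open CptA

theorem rpIntT (F : Fd) {X Z : Sys} {J : Type} [Fintype J] {j0 : J} {q : Z.X → X.X}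
    (hq : Emb Z X q) {W : Sys} {P : J → W.X → Z.X}
    (hW : IsRP (fun _ : J => Z) X X.ms (fun _ => q) j0 W P)
    (G : J → Z.X → ℂ) (u : J → X.X → ℂ) (hG : ∀ j, BM Z.μ Z.ms (G j))
    (hu : ∀ j, BM X.μ X.ms (u j))
    (h : ∀ j, (fun z => u j (q z)) =ᵐ[Z.μ] Z.μ[G j | pull Z.μ q X.ms]) {τ : X.X → ℂ}
    (hτ : BM X.μ X.ms τ) :
    ∫ w, τ (q (P j0 w)) * ∏ j, G j (P j w) ∂W.μ = ∫ x, τ x * ∏ j, u j x ∂X.μ := by
  have hm : ∀ j, MeasurePreserving (q ∘ P j) W.μ X.μ := fun j => hq.mp.comp (hW.emb j).mp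
  have h0 := Fib27.int_mul_ce (F.a.pull_le X.ms W.μ X.μ _ (hm j0) le_rfl)
    (F.a.bm_comp X.ms W.μ X.μ _ τ (hm j0) hτ)
    (bm_prod (μ := W.μ) univ fun j _ => bmc F (hW.emb j).mp (hG j))
  refine h0.symm.trans ?_
  rw [← intc (hm j0) (hτ.mul (bm_prod univ fun j _ => hu j))]
  refine integral_congr_ae ?_
  have h1 : ∀ j, ∀ᵐ w ∂W.μ, (Z.μ[G j | pull Z.μ q X.ms]) (P j w) = u j ((q ∘ P j0) w) := by
    intro j
    have h2 := (hW.emb j).mp.quasiMeasurePreserving.ae_eq_comp (h j)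
    have h3 := F.a.keq_fun X.ms W.μ X.μ _ _ (u j) (hm j) (hm j0) (hW.com j) (hu j).1
    exact h2.symm.trans h3
  filter_upwards [ae_all_iff.2 h1, hW.ind univ G fun j _ => hG j] with w hw h2
  rw [h2]
  exact congrArg _ (Finset.prod_congr rfl fun j _ => hw j)

end UKey

open CptA in
theorem key : KeyR := by
  intro F X Z C p hC hP H0 g0 k0 a1 a2 a3 a4
  let H : Bool → Z.X → ℂ := fun j => cond j H0 fun z => conj (H0 z)
  let g : Bool → X.X → ℂ := fun j => cond j g0 fun z => conj (g0 z)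
  let k : Bool → X.X → ℂ := fun j => cond j k0 fun z => conj (k0 z)
  have h : ∀ j, BM Z.μ (T3x.Inv Z) (H j) ∧ BM X.μ X.ms (g j) ∧ BM X.μ X.ms (k j) ∧
      Star p (H j) (g j) (k j) := by
    rintro (_ | _)
    · exact ⟨a1.conj, a2.conj, a3.conj, starC F hP (a1.mono (F.t.finv Z).le) a2 a4⟩
    · exact ⟨a1, a2, a3, a4⟩
  obtain ⟨W, P, hW⟩ := F.rp Bool (fun _ => Z) X X.ms (fun _ => p false) true (fun _ => hP.nice)
    (F.t.top X) (fun _ => (hP.emb false).mp) fun _ => F.t.emb_z Z X _ 1 (hP.emb false)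
  have hH : ∀ j, BM Z.μ Z.ms (H j) := fun j => (h j).1.mono (F.t.finv Z).le
  have hΦ : BM W.μ W.ms fun w => ∏ j, H j (P j w) :=
    bm_prod univ fun j _ => bmc F (hW.emb j).mp (hH j)
  obtain ⟨-, K, hK⟩ := id hΦ
  refine ⟨max K 0 ^ 2, sq_nonneg _, fun N hN d d' τ hτ => ?_⟩
  let ρ : Bool → ℤ := fun j => cond j d d'
  have hgz : ∀ j (n : ℤ), BM Z.μ Z.ms fun z => g j (X.Tz n (X.Tz (ρ j) (p true z))) := fun j n =>
    bmc F (hP.emb true).mp (bmT F (bmT F (h j).2.1 n) (ρ j))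
  let Ψ : ℕ → W.X → ℂ := fun n w => τ (X.Tz n (p false (P true w))) *
    ∏ j, g j (X.Tz n (X.Tz (ρ j) (p true (P j w))))
  have hΨ : ∀ n, BM W.μ W.ms (Ψ n) := fun n =>
    (bmc F (hW.emb true).mp (bmc F (hP.emb false).mp (bmT F hτ n))).mul
      (bm_prod univ fun j _ => bmc F (hW.emb j).mp (hgz j n))
  have e1 : ∀ n : ℕ, ∫ w, Ψ n w * ∏ j, H j (P j w) ∂W.μ =
      ∫ x, τ x * (k0 (X.Tz d x) * conj (k0 (X.Tz d' x))) ∂X.μ := by
    intro n
    have h1 := UKey.rpIntT F (hP.emb false) hW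
      (fun j z => H j z * g j (X.Tz n (X.Tz (ρ j) (p true z))))
      (fun j x => k j (X.Tz n (X.Tz (ρ j) x))) (fun j => (hH j).mul (hgz j n))
      (fun j => bmT F (bmT F (h j).2.2.1 n) (ρ j)) (fun j =>
        starT F hP (h j).1 (bmT F (h j).2.1 n) (bmT F (h j).2.2.1 n)
          (starT F hP (h j).1 (h j).2.1 (h j).2.2.1 (h j).2.2.2 n) (ρ j)) (bmT F hτ n)
    simp only [Finset.prod_mul_distrib] at h1
    rw [← intc (F.t.mp X n) (hτ.mul ((bmT F a3 d).mul (bmT F a3 d').conj))]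
    refine Eq.trans (integral_congr_ae (Eventually.of_forall fun w => ?_)) (h1.trans ?_)
    · simp only [Ψ]
      ring
    · simp only [Fintype.prod_bool, k, ρ, cond_true, cond_false, ← F.t.add, add_comm]
  have e2 : ∀ n n' : ℕ, ∫ w, Ψ n w * conj (Ψ n' w) ∂W.μ =
      ∫ x, τ (X.Tz n x) * conj (τ (X.Tz n' x)) *
        ((X.μ[fun y => g0 (X.Tz n y) * conj (g0 (X.Tz n' y)) | C]) (X.Tz d x) *
          conj ((X.μ[fun y => g0 (X.Tz n y) * conj (g0 (X.Tz n' y)) | C]) (X.Tz d' x))) ∂X.μ := by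
    intro n n'
    have hb : ∀ j, BM X.μ X.ms fun y => g j (X.Tz n y) * conj (g j (X.Tz n' y)) := fun j =>
      (bmT F (h j).2.1 n).mul (bmT F (h j).2.1 n').conj
    have h1 := UKey.rpIntT F (hP.emb false) hW
      (fun j z => g j (X.Tz n (X.Tz (ρ j) (p true z))) *
        conj (g j (X.Tz n' (X.Tz (ρ j) (p true z)))))
      (fun j x => (X.μ[fun y => g j (X.Tz n y) * conj (g j (X.Tz n' y)) | C]) (X.Tz (ρ j) x))
      (fun j => (hgz j n).mul (hgz j n').conj)
      (fun j => bmT F (((hb j).ce C).mono hC.le) (ρ j)) (fun j => by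
        refine EventuallyEq.trans ?_ (pairCE F hC hP (bmT F (hb j) (ρ j)))
        exact aec (hP.emb false).mp (F.t.ce X C (ρ j) _ hC (hb j).integrable).symm)
      ((bmT F hτ n).mul (bmT F hτ n').conj)
    refine Eq.trans (integral_congr_ae (Eventually.of_forall fun w => ?_)) (h1.trans ?_)
    · simp only [Ψ, map_mul, map_prod, Finset.prod_mul_distrib]
      ring
    · have h2 := aeT F (Fib27.ce_conj hC.le (hb true)) d'
      refine integral_congr_ae ?_
      filter_upwards [h2] with x hx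
      simp only [g, cond_true, map_mul] at hx
      simp only [Fintype.prod_bool, g, ρ, cond_true, cond_false, hx]
  have hN' : (N : ℂ) ≠ 0 := by exact_mod_cast (by omega : N ≠ 0)
  have e3 : ∫ x, τ x * (k0 (X.Tz d x) * conj (k0 (X.Tz d' x))) ∂X.μ =
      ∫ w, (∑ n ∈ range N, (N : ℝ)⁻¹ • Ψ n w) * ∏ j, H j (P j w) ∂W.μ := by
    rw [int_wsum (range N) (fun _ => (N : ℝ)⁻¹) (fun n _ => hΨ n) hΦ]
    simp only [e1, Finset.sum_const, Finset.card_range, nsmul_eq_mul]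
    push_cast
    rw [← mul_assoc, mul_inv_cancel₀ hN', one_mul]
  rw [e3]
  refine (cs (le_max_right K 0) (hK.mono fun w hw => hw.trans (le_max_left _ _))
    (bm_wsum (range N) (fun _ => (N : ℝ)⁻¹) fun n _ => hΨ n)).trans (le_of_eq ?_)
  rw [sq_wsum (range N) (fun _ => (N : ℝ)⁻¹) fun n _ => hΨ n]
  simp only [e2]

end T5u

end
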