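import Pool.Agent.MP_154433_an.t5.SpecU
import Pool.Agent.MP_154433_an.t3s.Basic

/-! Row ULay: from the importance weights to the normalised signed weights (Abel summation). -/

set_option autoImplicit false
set_option linter.unusedVariables false
set_option warn.classDefReducibility false

open MeasureTheory ProbabilityTheory Filter Topology Function Finset ComplexConjugate
open scoped BigOperators
open Fib27 (BM)
open Pool.Agent.MP_154433_an

noncomputable section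

namespace T5u

open T3x T5x

namespace ULay

theorem abel {R : Type} [CommRing R] (s v : ℕ → R) (M : ℕ) :
    ∑ d ∈ range M, s d * v d = s M * ∑ d ∈ range M, v d +
      ∑ k ∈ range M, (s k - s (k + 1)) * ∑ d ∈ range (k + 1), v d := by
  induction M with
  | zero => simp
  | succ M ih =>
    rw [sum_range_succ, ih, sum_range_succ (fun k => (s k - s (k + 1)) * _), sum_range_succ v]
    ring

theorem nee (t : ℝ) : ‖ee t‖ = 1 := Complex.norm_exp_ofReal_mul_I _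

theorem mee : Continuous ee := by
  unfold ee
  fun_prop

theorem bnd (a : ℕ → ℝ) (Y : Sys) {g : Y.X → ℂ} (hg : BM Y.μ Y.ms g) :
    ∃ K : ℝ, 0 ≤ K ∧ ∀ (k : ℕ) (b : Y.X → ℝ), Measurable b →
      Integrable (fun x => ‖sav a Y g k (b x) x‖) Y.μ ∧
      ∫ x, ‖sav a Y g k (b x) x‖ ∂Y.μ ≤ (∑ d ∈ range k, |a d - 1|) * K := by
  obtain ⟨h1, C, hC⟩ := hg
  refine ⟨max C 0, le_max_right _ _, fun k b hb => ?_⟩
  have hmp : ∀ d : ℤ, MeasurePreserving (Y.Tz d) Y.μ Y.μ := fun d => T3S.Tz_mp Y.mp d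
  have hm : AEStronglyMeasurable (fun x => sav a Y g k (b x) x) Y.μ := by
    unfold sav
    refine Finset.aestronglyMeasurable_fun_sum _ fun d _ => ?_
    exact aestronglyMeasurable_const.mul ((h1.comp_measurePreserving (hmp d)).mul
      (mee.measurable.comp (hb.const_mul _)).aestronglyMeasurable)
  have hae : ∀ᵐ x ∂Y.μ, ∀ d : ℕ, ‖g (Y.Tz d x)‖ ≤ C :=
    ae_all_iff.2 fun d => (hmp d).quasiMeasurePreserving.ae hC
  have hle : ∀ᵐ x ∂Y.μ, ‖sav a Y g k (b x) x‖ ≤ (∑ d ∈ range k, |a d - 1|) * max C 0 := by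
    filter_upwards [hae] with x hx
    rw [sum_mul]
    refine (norm_sum_le _ _).trans (sum_le_sum fun d _ => ?_)
    rw [norm_mul, norm_mul, nee, mul_one, Complex.norm_real, Real.norm_eq_abs]
    exact mul_le_mul_of_nonneg_left ((hx d).trans (le_max_left _ _)) (abs_nonneg _)
  have hi : Integrable (fun x => ‖sav a Y g k (b x) x‖) Y.μ := (Integrable.of_bound hm _ hle).norm
  refine ⟨hi, (integral_mono_ae hi (integrable_const _) hle).trans ?_⟩
  simp

theorem unif (a : ℕ → ℝ) (Y : Sys) {g : Y.X → ℂ} (hg : BM Y.μ Y.ms g) (h : SV a Y g) {ε : ℝ}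
    (hε : 0 < ε) : ∃ C : ℝ, 0 ≤ C ∧ ∀ (k : ℕ) (b : Y.X → ℝ), Measurable b →
      ∫ x, ‖sav a Y g k (b x) x‖ ∂Y.μ ≤ ε * k + C := by
  classical
  obtain ⟨K, hK, hb⟩ := bnd a Y hg
  have hch : ∀ k : ℕ, ∃ b0 : Y.X → ℝ, Measurable b0 ∧
      (∫ x, ‖sav a Y g k (b0 x) x‖ ∂Y.μ ≤ ε * k → ∀ b : Y.X → ℝ, Measurable b →
        ∫ x, ‖sav a Y g k (b x) x‖ ∂Y.μ ≤ ε * k) := by
    intro k
    by_cases hk : ∀ b : Y.X → ℝ, Measurable b → ∫ x, ‖sav a Y g k (b x) x‖ ∂Y.μ ≤ ε * k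
    · exact ⟨fun _ => 0, measurable_const, fun _ => hk⟩
    · push Not at hk
      obtain ⟨b0, h0, h1⟩ := hk
      exact ⟨b0, h0, fun h2 => absurd h2 (not_le.2 h1)⟩
  choose b0 hb0 hb1 using hch
  obtain ⟨k0, hk0⟩ := eventually_atTop.1 ((h b0 hb0).eventually (gt_mem_nhds hε))
  have hs0 : ∀ k : ℕ, 0 ≤ ∑ d ∈ range k, |a d - 1| := fun k => sum_nonneg fun _ _ => abs_nonneg _
  refine ⟨(∑ d ∈ range (k0 + 1), |a d - 1|) * K, mul_nonneg (hs0 _) hK, fun k b hbm => ?_⟩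
  rcases le_or_gt (k0 + 1) k with hk | hk
  · have hkp : (0 : ℝ) < k := Nat.cast_pos.2 (by omega)
    have h2 := hk0 k (by omega)
    rw [inv_mul_lt_iff₀ hkp] at h2
    have h3 := hb1 k (by linarith) b hbm
    have := mul_nonneg (hs0 (k0 + 1)) hK
    linarith
  · have h2 := (hb k b hbm).2
    have h3 : ∑ d ∈ range k, |a d - 1| ≤ ∑ d ∈ range (k0 + 1), |a d - 1| :=
      sum_le_sum_of_subset_of_nonneg (range_mono hk.le) fun _ _ _ => abs_nonneg _
    have h4 := mul_le_mul_of_nonneg_right h3 hK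
    have : 0 ≤ ε * k := by positivity
    linarith

end ULay

theorem lay : LayT := by
  intro σ p h0 hanti hW hS Y g b hg hb
  obtain ⟨K, hK, hi⟩ := ULay.bnd (iw σ p) Y hg
  have hd : ∀ k, 0 ≤ σ k - σ (k + 1) := fun k => sub_nonneg.2 (hanti (Nat.le_succ k))
  rw [Metric.tendsto_atTop]
  intro ε hε
  obtain ⟨C, hC, hu⟩ := ULay.unif (iw σ p) Y hg (hS Y g hg) (show 0 < ε / 4 by positivity)
  obtain ⟨M0, hM0⟩ := eventually_atTop.1 (hW.eventually_ge_atTop (4 * (C * σ 0) / ε + 1))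
  refine ⟨M0, fun M hM => ?_⟩
  have hW1 := hM0 M hM
  have hc0 : 0 ≤ C * σ 0 := mul_nonneg hC (h0 0).le
  have hWp : 0 < T3S.Wt σ M := lt_of_lt_of_le (by positivity) hW1
  rw [Real.dist_eq, sub_zero, abs_of_nonneg (integral_nonneg fun _ => norm_nonneg _)]
  have hpt : ∀ x, ‖∑ d ∈ range M, (T3S.yw σ p M d : ℂ) * (g (Y.Tz d x) * ee ((d : ℝ) * b M x))‖ ≤
      (T3S.Wt σ M)⁻¹ * (σ M * ‖sav (iw σ p) Y g M (b M x) x‖ +
        ∑ k ∈ range M, (σ k - σ (k + 1)) * ‖sav (iw σ p) Y g (k + 1) (b M x) x‖) := by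
    intro x
    have e1 : ∑ d ∈ range M, (T3S.yw σ p M d : ℂ) * (g (Y.Tz d x) * ee ((d : ℝ) * b M x)) =
        (((T3S.Wt σ M)⁻¹ : ℝ) : ℂ) * ∑ d ∈ range M, (σ d : ℂ) *
          (((iw σ p d - 1 : ℝ) : ℂ) * (g (Y.Tz d x) * ee ((d : ℝ) * b M x))) := by
      rw [mul_sum]
      refine sum_congr rfl fun d _ => ?_
      have : T3S.yw σ p M d = (T3S.Wt σ M)⁻¹ * (σ d * (iw σ p d - 1)) := by
        have := (h0 d).ne'
        unfold T3S.yw iw
        field_simp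
      rw [this]
      push_cast
      ring
    rw [e1, ULay.abel, norm_mul, Complex.norm_real, Real.norm_of_nonneg (inv_nonneg.2 hWp.le)]
    refine mul_le_mul_of_nonneg_left ((norm_add_le _ _).trans (add_le_add ?_ ?_))
      (inv_nonneg.2 hWp.le)
    · rw [norm_mul, Complex.norm_real, Real.norm_of_nonneg (h0 M).le]
      exact le_rfl
    · refine (norm_sum_le _ _).trans (sum_le_sum fun k _ => ?_)
      rw [norm_mul, ← Complex.ofReal_sub, Complex.norm_real, Real.norm_of_nonneg (hd k)]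
      exact le_rfl
  have i1 : Integrable (fun x => σ M * ‖sav (iw σ p) Y g M (b M x) x‖) Y.μ :=
    (hi M _ (hb M)).1.const_mul _
  have i2 : ∀ k ∈ range M, Integrable
      (fun x => (σ k - σ (k + 1)) * ‖sav (iw σ p) Y g (k + 1) (b M x) x‖) Y.μ :=
    fun k _ => (hi (k + 1) _ (hb M)).1.const_mul _
  have i3 := integrable_finsetSum _ i2
  have h1 := integral_mono_of_nonneg (μ := Y.μ) (Eventually.of_forall fun _ => norm_nonneg _)
    ((i1.add i3).const_mul (T3S.Wt σ M)⁻¹) (Eventually.of_forall hpt)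
  refine lt_of_le_of_lt h1 ?_
  simp only [Pi.add_apply]
  rw [integral_const_mul, integral_add i1 i3, integral_finsetSum _ i2, integral_const_mul]
  simp only [integral_const_mul]
  have h2 : σ M * ∫ x, ‖sav (iw σ p) Y g M (b M x) x‖ ∂Y.μ ≤ σ M * (ε / 4 * M + C) :=
    mul_le_mul_of_nonneg_left (hu M _ (hb M)) (h0 M).le
  have h3 : ∑ k ∈ range M, (σ k - σ (k + 1)) * ∫ x, ‖sav (iw σ p) Y g (k + 1) (b M x) x‖ ∂Y.μ ≤
      ∑ k ∈ range M, (σ k - σ (k + 1)) * (ε / 4 * ((k + 1 : ℕ) : ℝ) + C) :=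
    sum_le_sum fun k _ => mul_le_mul_of_nonneg_left (hu (k + 1) _ (hb M)) (hd k)
  have h4 := ULay.abel σ (fun _ => (1 : ℝ)) M
  simp only [mul_one, sum_const, card_range, nsmul_eq_mul] at h4
  have h5 : ∑ k ∈ range M, (σ k - σ (k + 1)) = σ 0 - σ M := sum_range_sub' σ M
  have h6 : ∑ k ∈ range M, (σ k - σ (k + 1)) * (ε / 4 * ((k + 1 : ℕ) : ℝ) + C) =
      ε / 4 * ∑ k ∈ range M, (σ k - σ (k + 1)) * ((k + 1 : ℕ) : ℝ) + C * (σ 0 - σ M) := by
    rw [← h5, mul_sum, mul_sum, ← sum_add_distrib]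
    exact sum_congr rfl fun k _ => by ring
  have h7 : T3S.Wt σ M = σ M * M + ∑ k ∈ range M, (σ k - σ (k + 1)) * ((k + 1 : ℕ) : ℝ) := h4
  have h8 : 4 * (C * σ 0) / ε * ε = 4 * (C * σ 0) := div_mul_cancel₀ _ hε.ne'
  have h9 := mul_le_mul_of_nonneg_right hW1 hε.le
  rw [inv_mul_lt_iff₀ hWp]
  have h10 : ε / 4 * T3S.Wt σ M = σ M * (ε / 4 * M) +
      ε / 4 * ∑ k ∈ range M, (σ k - σ (k + 1)) * ((k + 1 : ℕ) : ℝ) := by
    rw [h7]
    ring
  have h11 := mul_pos hWp hε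
  nlinarith

end T5u

end
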