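import Pool.Agent.MP_154433_an.t5.SpecU
import Pool.Agent.MP_154433_an.t3s.Net

/-! Row UNetP: a small family of sequences approximates all products of blocks. -/

set_option autoImplicit false
set_option linter.unusedVariables false

open Filter Topology Function
open scoped BigOperators
open Pool.Agent.MP_154433_an Pool.Agent.MP_154433_an.T3S

noncomputable section

namespace T5u

theorem netP : NetPR := by
  classical
  intro h1 h2 J b hb ε hε
  obtain ⟨C0, hC, hC0⟩ : ∃ C0 : ℕ, 1 ≤ C0 ∧ ∀ t i, 2 * (((2 : ℕ) : ℤ) + |b t i|) ≤ C0 := by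
    refine ⟨2 * (2 + ∑ p : Fin J × Fin 3, (b p.1 p.2).natAbs) + 1, by omega, fun t i => ?_⟩
    have := Finset.single_le_sum (f := fun p : Fin J × Fin 3 => (b p.1 p.2).natAbs)
      (fun _ _ => Nat.zero_le _) (Finset.mem_univ (t, i))
    rw [Int.abs_eq_natAbs]
    simp only at this
    omega
  have hCr : (0 : ℝ) < C0 := by exact_mod_cast hC
  obtain ⟨C1, hC1, hV⟩ := h2 2 (((C0 : ℝ) ^ (2 + 1)) ^ 2 ^ (2 + 1)) (ε / (2 * (J + 1) * C0))
    (by positivity) (by positivity)
  have key : ∀ M : ℕ, ∃ S : Finset (ℕ → ℂ), (∀ c ∈ S, B1 c) ∧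
      (1 ≤ M → (S.card : ℝ) ≤
        Real.exp ((1 + J * C1 * (Real.log C0 + 1) ^ 1) * (Real.log M + 1))) ∧
      (1 ≤ M → 24 * (J + 1) / ε ≤ (M : ℝ) →
        ∀ u : Fin J → ℤ → ℂ, (∀ t, u t ∈ CZ (b t) (M ^ 2)) →
          ∃ c : ℕ → ℕ → ℂ, (∀ n < M, c n ∈ S) ∧ ∀ d < M,
            ∑ n ∈ Finset.range M, ‖∏ t, u t ((n : ℤ) + (d : ℤ)) - c n d‖ ≤ ε * M) := by
    intro M
    rcases Nat.eq_zero_or_pos M with rfl | hM
    · exact ⟨∅, by simp, fun h => absurd h (by omega), fun h => absurd h (by omega)⟩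
    have : NeZero (C0 * M) := ⟨(Nat.mul_pos hC hM).ne'⟩
    obtain ⟨V, hV1, hV2, hV3⟩ := hV (C0 * M)
    have hMr : (0 : ℝ) < M := by exact_mod_cast hM
    refine ⟨((Finset.range M) ×ˢ Fintype.piFinset fun _ : Fin J => V).image
      fun p d => ∏ t, p.2 t (((p.1 : ℤ) + (d : ℤ) : ℤ) : ZMod (C0 * M)), fun c hc => ?_,
      fun _ => ?_, fun _ hM1 u hu => ?_⟩
    · obtain ⟨p, hp, rfl⟩ := Finset.mem_image.1 hc
      exact fun d => norm_prod_le_one _ fun t _ =>
        hV1 _ (Fintype.mem_piFinset.1 (Finset.mem_product.1 hp).2 t) _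
    · rw [LG, ZMod.card, ← pow_one (Real.log _ + 1)] at hV2
      have h3 := Net.card_le (J := J) hM hC le_rfl hC1 hV2
      rw [pow_one (Real.log M + 1)] at h3
      refine le_trans ?_ h3
      have := Finset.card_image_le (s := (Finset.range M) ×ˢ Fintype.piFinset fun _ : Fin J => V)
        (f := fun p (d : ℕ) => ∏ t, p.2 t (((p.1 : ℤ) + (d : ℤ) : ℤ) : ZMod (C0 * M)))
      rw [Finset.card_product, Finset.card_range, Fintype.card_piFinset_const] at this
      exact_mod_cast this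
    · choose w hw1 hw2 using fun t => h1 2 (by norm_num) (b t) 2 C0 M (M ^ 2) (hb t) (hC0 t)
        (Nat.one_le_pow _ _ hM) (u t) (hu t)
      choose v hv1 hv2 using fun t => hV3 (w t) (hw1 t)
      have hδ : (4 * (((2 : ℕ) : ℝ) + 1) * M / (M ^ 2 : ℕ) : ℝ) ≤ ε / (2 * (J + 1)) := by
        rw [div_le_iff₀ hε] at hM1
        push_cast
        rw [div_le_div_iff₀ (by positivity) (by positivity)]
        nlinarith
      refine ⟨fun n d => ∏ t, v t (((n : ℤ) + (d : ℤ) : ℤ) : ZMod (C0 * M)), fun n hn => ?_,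
        fun d hd => ?_⟩
      · exact Finset.mem_image_of_mem _ (Finset.mem_product.2
          (⟨Finset.mem_range.2 hn, Fintype.mem_piFinset.2 hv1⟩ : (n, v).1 ∈ _ ∧ (n, v).2 ∈ _))
      have step : ∀ n ∈ Finset.range M,
          ‖∏ t, u t ((n : ℤ) + (d : ℤ)) - ∏ t, v t (((n : ℤ) + (d : ℤ) : ℤ) : ZMod (C0 * M))‖ ≤
          ∑ t, (ε / (2 * (J + 1)) + ‖w t (((n : ℤ) + (d : ℤ) : ℤ) : ZMod (C0 * M)) -
              v t (((n : ℤ) + (d : ℤ) : ℤ) : ZMod (C0 * M))‖) := by
        intro n hn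
        refine (norm_prod_sub_le _ (fun t => CZ_B1 (hu t) _)
          fun t => hV1 _ (hv1 t) _).trans (Finset.sum_le_sum fun t _ => ?_)
        have e2 : |(n : ℤ) + (d : ℤ)| ≤ ((2 : ℕ) : ℤ) * M := by
          have a1 : (n : ℤ) ≤ M := by exact_mod_cast (Finset.mem_range.1 hn).le
          have a2 : (d : ℤ) ≤ M := by exact_mod_cast hd.le
          rw [abs_of_nonneg (by positivity)]
          push_cast
          linarith
        exact (norm_sub_le_norm_sub_add_norm_sub _ _ _).trans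
          (add_le_add ((hw2 t _ e2).trans hδ) le_rfl)
      refine (Finset.sum_le_sum step).trans ?_
      rw [Finset.sum_comm]
      have e3 : ∀ t ∈ (Finset.univ : Finset (Fin J)), ∑ n ∈ Finset.range M, (ε / (2 * (J + 1)) +
          ‖w t (((n : ℤ) + (d : ℤ) : ℤ) : ZMod (C0 * M)) -
            v t (((n : ℤ) + (d : ℤ) : ℤ) : ZMod (C0 * M))‖) ≤ ε / (J + 1) * M := fun t _ => by
        rw [Finset.sum_add_distrib, Finset.sum_const, Finset.card_range, nsmul_eq_mul]
        have a1 := Net.sum_le (N := C0 * M) (M := M) (Nat.le_mul_of_pos_left M hC) (d : ℤ)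
          (F := fun x => ‖w t x - v t x‖) fun x => norm_nonneg _
        have a2 := mul_le_mul_of_nonneg_left (hv2 t) (Nat.cast_nonneg (α := ℝ) (C0 * M))
        have a3 : ((C0 * M : ℕ) : ℝ) * (ε / (2 * (J + 1) * C0)) = M * (ε / (2 * (J + 1))) := by
          push_cast
          field_simp
        have a4 : ε / (J + 1) * M = M * (ε / (2 * (J + 1))) + M * (ε / (2 * (J + 1))) := by
          field_simp
          ring
        rw [a4]
        exact add_le_add le_rfl (a1.trans (a2.trans a3.le))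
      refine (Finset.sum_le_sum e3).trans ?_
      rw [Finset.sum_const, Finset.card_univ, Fintype.card_fin, nsmul_eq_mul, ← mul_assoc]
      refine mul_le_mul_of_nonneg_right ?_ hMr.le
      rw [← mul_div_assoc, div_le_iff₀ (by positivity)]
      nlinarith
  choose S hS1 hS2 hS3 using key
  refine ⟨_, S, hS1, hS2, ?_⟩
  filter_upwards [eventually_ge_atTop 1,
    tendsto_natCast_atTop_atTop.eventually_ge_atTop (24 * ((J : ℝ) + 1) / ε)] with M a1 a2
  exact hS3 M a1 a2

end T5u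

end
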