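import Pool.Agent.MP_154433_an.t5.SpecU
import Pool.Agent.MP_154433_an.t5.Az

/-! Nets with a frequency for each base point. -/

set_option autoImplicit false
set_option linter.unusedVariables false
set_option warn.classDefReducibility false

open MeasureTheory ProbabilityTheory Filter Topology Function Finset ComplexConjugate
open scoped BigOperators
open Pool.Agent.MP_154433_an

noncomputable section

namespace T5u

open T3x T5x

namespace UNetT

theorem ee_int (k : ℤ) : ee (k : ℝ) = 1 := by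
  rw [ee, ← Complex.exp_int_mul_two_pi_mul_I k]
  congr 1
  push_cast
  ring

theorem ee_lip (s t : ℝ) : ‖ee s - ee t‖ ≤ 7 * |s - t| := by
  have h : ee s - ee t = (ee (s - t) - 1) * ee t := by
    rw [sub_mul, ← Az.ee_add, sub_add_cancel, one_mul]
  rw [h, norm_mul, Az.norm_ee, mul_one, ee, mul_comm _ Complex.I]
  refine Real.norm_exp_I_mul_ofReal_sub_one_le.trans ?_
  rw [Real.norm_eq_abs, abs_mul, abs_of_pos Real.two_pi_pos]
  exact mul_le_mul_of_nonneg_right (by linarith [Real.pi_le_four, Real.pi_lt_d2]) (abs_nonneg _)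

theorem grid (M : ℕ) (hM : 1 ≤ M) (θ : ℝ) : ∃ j ∈ range (M ^ 2), ∀ d < M,
    ‖ee ((d : ℝ) * θ) - ee ((d : ℝ) * ((j : ℝ) / (M : ℝ) ^ 2))‖ ≤ 7 / M := by
  have hM0 : (0 : ℝ) < M := by exact_mod_cast hM
  have hM2 : (0 : ℝ) < (M : ℝ) ^ 2 := by positivity
  have h0 : 0 ≤ Int.fract θ * (M : ℝ) ^ 2 := mul_nonneg (Int.fract_nonneg θ) hM2.le
  refine ⟨⌊Int.fract θ * (M : ℝ) ^ 2⌋₊, mem_range.2 ((Nat.floor_lt h0).2 ?_), fun d hd => ?_⟩
  · push_cast
    exact mul_lt_of_lt_one_left hM2 (Int.fract_lt_one θ)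
  · have e : (d : ℝ) * θ = (d : ℝ) * Int.fract θ + (((d : ℤ) * ⌊θ⌋ : ℤ) : ℝ) := by
      rw [Int.fract]; push_cast; ring
    rw [e, Az.ee_add, ee_int, mul_one]
    refine (ee_lip _ _).trans ?_
    have a1 := Nat.floor_le h0
    have a2 := Nat.lt_floor_add_one (Int.fract θ * (M : ℝ) ^ 2)
    have a3 : |Int.fract θ - (⌊Int.fract θ * (M : ℝ) ^ 2⌋₊ : ℝ) / (M : ℝ) ^ 2| ≤ 1 / (M : ℝ) ^ 2 := by
      rw [show Int.fract θ - (⌊Int.fract θ * (M : ℝ) ^ 2⌋₊ : ℝ) / (M : ℝ) ^ 2 =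
        (Int.fract θ * (M : ℝ) ^ 2 - (⌊Int.fract θ * (M : ℝ) ^ 2⌋₊ : ℝ)) / (M : ℝ) ^ 2 by
          field_simp, abs_div, abs_of_pos hM2]
      exact div_le_div_of_nonneg_right (abs_le.2 ⟨by linarith, by linarith⟩) hM2.le
    have a4 : (d : ℝ) ≤ M := by exact_mod_cast hd.le
    rw [← mul_sub, abs_mul, abs_of_nonneg (Nat.cast_nonneg d)]
    calc 7 * ((d : ℝ) * _) ≤ 7 * ((M : ℝ) * (1 / (M : ℝ) ^ 2)) := by gcongr
      _ = 7 / M := by field_simp

end UNetT

open UNetT in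
theorem netT : NetTR := by
  classical
  intro hP J b hb ε hε
  obtain ⟨C, S, h1, h2, h3⟩ := hP J b hb (ε / 2) (half_pos hε)
  refine ⟨C + 2, fun M => (S M ×ˢ range (M ^ 2)).image fun q d =>
    q.1 d * ee ((d : ℝ) * ((q.2 : ℝ) / (M : ℝ) ^ 2)), ?_, ?_, ?_⟩
  · intro M c hc
    obtain ⟨q, hq, rfl⟩ := mem_image.1 hc
    intro d
    rw [norm_mul, Az.norm_ee, mul_one]
    exact h1 M _ (mem_product.1 hq).1 d
  · intro M hM
    have hM0 : (0 : ℝ) < M := by exact_mod_cast hM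
    have a1 : (((S M ×ˢ range (M ^ 2)).image fun (q : (ℕ → ℂ) × ℕ) (d : ℕ) =>
        q.1 d * ee ((d : ℝ) * ((q.2 : ℝ) / (M : ℝ) ^ 2))).card : ℝ) ≤ (S M).card * (M : ℝ) ^ 2 := by
      have := card_image_le (s := S M ×ˢ range (M ^ 2)) (f := fun (q : (ℕ → ℂ) × ℕ) (d : ℕ) =>
        q.1 d * ee ((d : ℝ) * ((q.2 : ℝ) / (M : ℝ) ^ 2)))
      rw [card_product, card_range] at this
      exact_mod_cast this
    have a2 : (M : ℝ) ^ 2 ≤ Real.exp (2 * (Real.log M + 1)) := by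
      calc (M : ℝ) ^ 2 = Real.exp (2 * Real.log M) := by
            rw [show 2 * Real.log M = ((2 : ℕ) : ℝ) * Real.log M by norm_num, Real.exp_nat_mul,
              Real.exp_log hM0]
        _ ≤ _ := Real.exp_le_exp.2 (by linarith)
    refine a1.trans ?_
    rw [add_mul, Real.exp_add]
    exact mul_le_mul (h2 M hM) a2 (by positivity) (Real.exp_pos _).le
  · filter_upwards [h3, eventually_ge_atTop 1,
      (tendsto_natCast_atTop_atTop (R := ℝ)).eventually_ge_atTop (14 / ε)] with M hM hM1 hM2 u θ hu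
    obtain ⟨c, hc, hs⟩ := hM u hu
    choose j hj hg using fun n : ℕ => grid M hM1 (θ n)
    have hM0 : (0 : ℝ) < M := by exact_mod_cast hM1
    refine ⟨fun n d => c n d * ee ((d : ℝ) * ((j n : ℝ) / (M : ℝ) ^ 2)), fun n hn =>
      mem_image.2 ⟨(c n, j n), mem_product.2 ⟨hc n hn, hj n⟩, rfl⟩, fun d hd => ?_⟩
    calc _ ≤ ∑ n ∈ range M, (‖∏ t, u t ((n : ℤ) + (d : ℤ)) - c n d‖ + 7 / M) := by
          refine sum_le_sum fun n hn => ?_
          rw [show (∏ t, u t ((n : ℤ) + (d : ℤ))) * ee ((d : ℝ) * θ n) -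
              c n d * ee ((d : ℝ) * ((j n : ℝ) / (M : ℝ) ^ 2)) =
              (∏ t, u t ((n : ℤ) + (d : ℤ)) - c n d) * ee ((d : ℝ) * θ n) +
              c n d * (ee ((d : ℝ) * θ n) - ee ((d : ℝ) * ((j n : ℝ) / (M : ℝ) ^ 2))) by ring]
          refine (norm_add_le _ _).trans (add_le_add ?_ ?_)
          · rw [norm_mul, Az.norm_ee, mul_one]
          · rw [norm_mul]
            exact (mul_le_of_le_one_left (norm_nonneg _)
              (h1 M _ (hc n (mem_range.1 hn)) d)).trans (hg n d hd)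
      _ ≤ ε / 2 * M + 7 := by
          rw [sum_add_distrib, sum_const, card_range, nsmul_eq_mul, mul_div_cancel₀ _ hM0.ne']
          exact add_le_add (hs d hd) le_rfl
      _ ≤ ε * M := by
          rw [div_le_iff₀ hε] at hM2
          linarith

end T5u

end
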