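import Pool.Agent.MP_154433_an.t5.SpecU

/-! Row Pick: measurable choice of a nearly best frequency. -/

set_option autoImplicit false
set_option linter.unusedVariables false

open MeasureTheory ProbabilityTheory Filter Topology Function

noncomputable section

namespace T5u

theorem pick : Pick := by
  classical
  intro Ω m φ η hη hm hc hb
  obtain ⟨q, hq⟩ := TopologicalSpace.exists_dense_seq ℝ
  let p : Ω → ℕ → Prop := fun x n => ∀ k, ‖φ (q k) x‖ ^ 2 ≤ ‖φ (q n) x‖ ^ 2 + η
  have hex : ∀ x, ∃ n, p x n := by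
    intro x
    obtain ⟨K, hK⟩ := hb x
    have hbd : BddAbove (Set.range fun k => ‖φ (q k) x‖ ^ 2) :=
      ⟨K ^ 2, by
        rintro _ ⟨k, rfl⟩
        exact pow_le_pow_left₀ (norm_nonneg _) (hK _) 2⟩
    obtain ⟨n, hn⟩ := exists_lt_of_lt_ciSup
      (show (⨆ k, ‖φ (q k) x‖ ^ 2) - η < ⨆ k, ‖φ (q k) x‖ ^ 2 by linarith)
    refine ⟨n, fun k => ?_⟩
    have := le_ciSup hbd k
    linarith
  have hp : ∀ n, MeasurableSet {x | p x n} := by
    intro n
    have : {x | p x n} = ⋂ k, {x | ‖φ (q k) x‖ ^ 2 ≤ ‖φ (q n) x‖ ^ 2 + η} := by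
      ext x; simp only [p, Set.mem_setOf_eq, Set.mem_iInter]
    rw [this]
    exact MeasurableSet.iInter fun k => measurableSet_le ((hm _).norm.pow_const 2)
      (((hm _).norm.pow_const 2).add_const η)
  refine ⟨fun x => q (Nat.find (hex x)), measurable_from_nat.comp (measurable_find hex hp), ?_⟩
  intro x t
  have hcl : IsClosed {t : ℝ | ‖φ t x‖ ^ 2 ≤ ‖φ (q (Nat.find (hex x))) x‖ ^ 2 + η} :=
    isClosed_le ((hc x).norm.pow 2) continuous_const
  exact hq.induction_on t hcl (Nat.find_spec (hex x))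

end T5u

end
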