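import Pool.Agent.MP_154433_an.t5.SpecU
import Pool.Agent.MP_154433_an.t3s.Prod

/-! Row UProd: twisted averages vanish on products of asymptotic dual functions. -/

set_option autoImplicit false
set_option linter.unusedVariables false
set_option warn.classDefReducibility false

open MeasureTheory ProbabilityTheory Filter Topology Function Finset ComplexConjugate
open scoped BigOperators
open Fib27 (BM)
open Pool.Agent.MP_154433_an

noncomputable section

namespace T5u

open T3x T5x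

namespace UProd

open T3S (MB1)

theorem norm_ee (t : ℝ) : ‖ee t‖ = 1 := Complex.norm_exp_ofReal_mul_I _

theorem cont_ee : Continuous ee := by
  unfold ee
  fun_prop

variable {a : ℕ → ℝ} {Y : Sys} {g g' : Y.X → ℂ} {N : ℕ} {b : Y.X → ℝ}

theorem meas (hg : MB1 g) (hb : Measurable b) : Measurable fun y => ‖sav a Y g N (b y) y‖ := by
  refine Measurable.norm (Finset.measurable_sum (range N) (f := fun (d : ℕ) y =>
    ((a d - 1 : ℝ) : ℂ) * (g (Y.Tz d y) * ee ((d : ℝ) * b y))) fun d _ => ?_)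
  exact ((hg.tz Y.T d).1.mul (cont_ee.measurable.comp (hb.const_mul (d : ℝ)))).const_mul _

theorem sub_le (t : ℝ) (y : Y.X) : ‖sav a Y g N t y‖ ≤ ‖sav a Y g' N t y‖ +
    ∑ d ∈ range N, |a d - 1| * ‖g (Y.Tz d y) - g' (Y.Tz d y)‖ := by
  have e : sav a Y g N t y = sav a Y g' N t y + ∑ d ∈ range N, ((a d - 1 : ℝ) : ℂ) *
      ((g (Y.Tz d y) - g' (Y.Tz d y)) * ee ((d : ℝ) * t)) := by
    simp only [sav, ← sum_add_distrib]
    exact sum_congr rfl fun d _ => by ring
  rw [e]
  refine (norm_add_le _ _).trans (add_le_add le_rfl ((norm_sum_le _ _).trans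
    (sum_le_sum fun d _ => ?_)))
  rw [norm_mul, norm_mul, norm_ee, mul_one, Complex.norm_real, Real.norm_eq_abs]

theorem intg (hg : MB1 g) (hb : Measurable b) (v : ℤ) :
    Integrable (fun y => ‖sav a Y g N (b (T3S.Tz Y.T v y)) (T3S.Tz Y.T v y)‖) Y.μ := by
  refine Integrable.of_bound ((meas hg hb).comp (T3S.Tz_meas Y.T v)).aestronglyMeasurable
    (∑ d ∈ range N, |a d - 1|) (Eventually.of_forall fun y => ?_)
  rw [norm_norm]
  refine (norm_sum_le _ _).trans (sum_le_sum fun d _ => ?_)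
  rw [norm_mul, norm_mul, norm_ee, mul_one, Complex.norm_real, Real.norm_eq_abs]
  exact mul_le_of_le_one_right (abs_nonneg _) (hg.2 _)

theorem small (hg : MB1 g) (hb : Measurable b) (hN : 1 ≤ N) {c : ℝ}
    (h : ∀ y, ∑ n ∈ range N, ‖sav a Y g N (b (T3S.Tz Y.T n y)) (T3S.Tz Y.T n y)‖ ≤ c * N) :
    ∫ y, ‖sav a Y g N (b y) y‖ ∂Y.μ ≤ c := by
  have h1 := integral_mono (μ := Y.μ)
    (integrable_finsetSum (range N) fun (n : ℕ) _ => intg (a := a) (N := N) hg hb n)
    (integrable_const (c * N)) h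
  rw [integral_finsetSum _ fun (n : ℕ) _ => intg (a := a) (N := N) hg hb n, integral_const,
    probReal_univ, one_smul, sum_congr rfl fun (n : ℕ) _ => T3S.integral_Tz Y.mp n
      (f := fun y => ‖sav a Y g N (b y) y‖) (meas hg hb).aestronglyMeasurable,
    sum_const, card_range, nsmul_eq_mul, mul_comm] at h1
  exact le_of_mul_le_mul_right h1 (by exact_mod_cast hN)

theorem close (hg : MB1 g) (hg' : MB1 g') (hb : Measurable b) :
    ∫ y, ‖sav a Y g N (b y) y‖ ∂Y.μ ≤ ∫ y, ‖sav a Y g' N (b y) y‖ ∂Y.μ +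
      (∑ d ∈ range N, |a d - 1|) * ∫ y, ‖g y - g' y‖ ∂Y.μ := by
  have i0 : ∀ f : Y.X → ℂ, MB1 f → Integrable (fun y => ‖sav a Y f N (b y) y‖) Y.μ :=
    fun f hf => by simpa only [T3S.Tz_zero] using intg (a := a) (N := N) hf hb 0
  have i2 : ∀ d : ℕ, Integrable (fun y => |a d - 1| * ‖g (Y.Tz d y) - g' (Y.Tz d y)‖) Y.μ :=
    fun d => (((hg.tz Y.T d).integrable Y.μ).sub ((hg'.tz Y.T d).integrable Y.μ)).norm.const_mul _
  refine (integral_mono (i0 g hg) ((i0 g' hg').add (integrable_finsetSum (range N) fun d _ => i2 d))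
    fun y => sub_le (b y) y).trans ?_
  rw [integral_add' (i0 g' hg') (integrable_finsetSum (range N) fun d _ => i2 d),
    integral_finsetSum _ fun d _ => i2 d, sum_mul]
  refine add_le_add le_rfl (sum_le_sum fun d _ => ?_)
  rw [integral_const_mul]
  exact mul_le_mul_of_nonneg_left (T3S.integral_Tz Y.mp d (f := fun y => ‖g y - g' y‖)
    (hg.1.sub hg'.1).norm.aestronglyMeasurable).le (abs_nonneg _)

theorem mass (ha : ∀ n, 0 ≤ a n) (hF : Fl a) :
    ∀ᶠ N : ℕ in atTop, ∑ d ∈ range N, |a d - 1| ≤ 3 * N := by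
  filter_upwards [hF 1 one_pos] with N h
  have h0 := h 0
  simp only [mul_zero, ee, Complex.ofReal_zero, zero_mul, Complex.exp_zero, mul_one, one_mul] at h0
  rw [← Complex.ofReal_sum, Complex.norm_real, Real.norm_eq_abs] at h0
  have h1 : ∑ d ∈ range N, |a d - 1| ≤ ∑ d ∈ range N, ((a d - 1) + 2) :=
    sum_le_sum fun d _ => abs_le.2 ⟨by linarith [ha d], by linarith⟩
  rw [sum_add_distrib, sum_const, card_range, nsmul_eq_mul] at h1
  linarith [le_abs_self (∑ d ∈ range N, (a d - 1))]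

end UProd

theorem prodT : ProdT := by
  intro a ha hF hS Y ι _ D hD β hβ
  choose b hb hD using hD
  let e := Fintype.equivFin ι
  refine tendsto_order.2 ⟨fun c hc => Eventually.of_forall fun M =>
    hc.trans_le (mul_nonneg (by positivity) (integral_nonneg fun x => norm_nonneg _)),
    fun c hc => ?_⟩
  have hε : 0 < c / 5 := by positivity
  filter_upwards [hS _ (b ∘ e.symm) (fun t => hb _) _ hε, UProd.mass ha hF, eventually_ge_atTop 1]
    with M h1 h2 h3
  have hJ : (0 : ℝ) < Fintype.card ι + 1 := by positivity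
  have hM : (0 : ℝ) < M := by exact_mod_cast h3
  choose u hu1 hu2 using fun t => (hD t).2 (M ^ 2) (c / 5 / (Fintype.card ι + 1)) (div_pos hε hJ)
  have hu : ∀ i, T3S.MB1 (u i) := fun i => T3S.CX_MB1 (hu1 i)
  have pu := T3S.MB1.prod univ fun i _ => hu i
  have pD := T3S.MB1.prod univ fun i _ => (hD i).1
  have h4 := UProd.small (a := a) pu (hβ M) h3 (c := c / 5 * M) fun x => by
    refine le_trans (le_of_eq (sum_congr rfl fun n _ => ?_))
      (h1 (fun t n => u (e.symm t) (T3S.Tz Y.T n x)) (fun n => β M (T3S.Tz Y.T n x))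
        fun t => T3S.Prodr.orbit (hu1 _) x)
    refine congrArg _ (sum_congr rfl fun d _ => congrArg _ (congrArg (· * _) ?_))
    simp only [add_comm (n : ℤ), T3S.Tz_add]
    exact (e.symm.prod_comp fun i => u i (T3S.Tz Y.T d (T3S.Tz Y.T n x))).symm
  have h5 := UProd.close (a := a) (N := M) pD pu (hβ M)
  have i1 : ∀ i, Integrable (fun x => ‖D i x - u i x‖) Y.μ :=
    fun i => (((hD i).1.integrable Y.μ).sub ((hu i).integrable Y.μ)).norm
  have h6 : ∫ y, ‖∏ i, D i y - ∏ i, u i y‖ ∂Y.μ ≤ c / 5 := by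
    refine (integral_mono ((pD.integrable Y.μ).sub (pu.integrable Y.μ)).norm
      (integrable_finsetSum univ fun i _ => i1 i) fun y =>
        T3S.norm_prod_sub_le _ (fun i => (hD i).1.2 y) fun i => (hu i).2 y).trans ?_
    rw [integral_finsetSum _ fun i _ => i1 i]
    refine (sum_le_sum fun i _ => hu2 i).trans ?_
    rw [sum_const, card_univ, nsmul_eq_mul, ← mul_div_assoc, div_le_iff₀ hJ]
    nlinarith
  have h7 := mul_le_mul h2 h6 (integral_nonneg fun y => norm_nonneg _) (by positivity)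
  rw [inv_mul_lt_iff₀ hM]
  nlinarith [mul_pos hM hc]

end T5u

end
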