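import Pool.Agent.MP_154433_an.t5.SpecU

/-! Bernstein tail with a variance proxy. -/

set_option autoImplicit false
set_option linter.unusedVariables false

open MeasureTheory ProbabilityTheory Filter Topology Function Finset
open scoped BigOperators

noncomputable section

namespace T5u

theorem tailT : TailT := by
  intro σ hσ Ω _ P _ E hE hind hP c M V ε hc hV h0 h1
  let Y : ℕ → Ω → ℝ := fun k ω => ((E k).indicator (fun _ => (1 : ℝ)) ω - σ k) * c k
  have hY : iIndepFun Y P :=
    (hind.iIndepFun_indicator (β := ℝ)).comp (fun k x => (x - σ k) * c k)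
      fun k => by fun_prop
  have hYm : ∀ k, Measurable (Y k) := fun k =>
    ((measurable_const.indicator (hE k)).sub_const _).mul_const _
  set t := ε / 2 with ht
  have ht0 : 0 ≤ t := by positivity
  have hexp : ∀ k ω, Real.exp (t * Y k ω) = Real.exp (-(t * σ k * c k)) +
      (E k).indicator (fun _ => Real.exp (-(t * σ k * c k)) * (Real.exp (t * c k) - 1)) ω := by
    intro k ω
    by_cases h : ω ∈ E k
    · simp only [Y, Set.indicator_of_mem h]
      rw [mul_sub _ (Real.exp (t * c k)), ← Real.exp_add]
      ring_nf
    · simp only [Y, Set.indicator_of_notMem h]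
      ring_nf
  have hint : ∀ k, Integrable (fun ω => Real.exp (t * Y k ω)) P := fun k => by
    simp only [hexp]
    exact (integrable_const _).add ((integrable_const _).indicator (hE k))
  have hmgf : ∀ k, mgf (Y k) P t ≤ Real.exp (t ^ 2 * (σ k * c k ^ 2)) := by
    intro k
    have hr : P.real (E k) = σ k := by
      rw [Measure.real, hP, ENNReal.toReal_ofReal (hσ k).1]
    have e : mgf (Y k) P t = Real.exp (-(t * σ k * c k)) *
        (1 + σ k * (Real.exp (t * c k) - 1)) := by
      simp only [mgf, hexp]
      rw [integral_add (integrable_const _) ((integrable_const _).indicator (hE k)),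
        integral_indicator_const _ (hE k), hr]
      simp
      ring
    have habs : |t * c k| ≤ 1 := by
      rw [abs_mul, abs_of_nonneg ht0]
      have := hc k
      have := abs_nonneg (c k)
      nlinarith
    have h2 := (abs_le.1 (Real.abs_exp_sub_one_sub_id_le habs)).2
    rw [e]
    calc Real.exp (-(t * σ k * c k)) * (1 + σ k * (Real.exp (t * c k) - 1))
        ≤ Real.exp (-(t * σ k * c k)) * Real.exp (σ k * (Real.exp (t * c k) - 1)) := by
          refine mul_le_mul_of_nonneg_left ?_ (Real.exp_pos _).le
          rw [add_comm]; exact Real.add_one_le_exp _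
      _ ≤ _ := by
          rw [← Real.exp_add]
          refine Real.exp_le_exp.2 ?_
          have := mul_le_mul_of_nonneg_left h2 (hσ k).1
          nlinarith
  have hs := measure_ge_le_exp_mul_mgf (μ := P) (X := ∑ k ∈ range M, Y k) (ε * V) ht0
    (hY.integrable_exp_mul_sum hYm fun k _ => hint k)
  simp only [Finset.sum_apply] at hs
  refine hs.trans ?_
  rw [hY.mgf_sum hYm]
  have h4 : ∏ k ∈ range M, mgf (Y k) P t ≤ Real.exp (t ^ 2 * V) := by
    refine le_trans ?_ (Real.exp_le_exp.2 (mul_le_mul_of_nonneg_left hV (sq_nonneg t)))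
    rw [mul_sum, Real.exp_sum]
    exact prod_le_prod (fun k _ => mgf_nonneg) fun k _ => hmgf k
  refine (mul_le_mul_of_nonneg_left h4 (Real.exp_pos _).le).trans (le_of_eq ?_)
  rw [← Real.exp_add, ht]
  congr 1
  ring

end T5u

end
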