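import Pool.Agent.MP_154433_an.t5.SpecU
import Pool.Agent.MP_154433_an.t5.Az

/-! Flat ergodic weights: the product of the twisted average and the average of the twist. -/

set_option autoImplicit false
set_option linter.unusedVariables false
set_option warn.classDefReducibility false

open MeasureTheory ProbabilityTheory Filter Topology Function Finset ComplexConjugate
open scoped BigOperators
open Fib27 (BM)
open Pool.Agent.MP_154433_an

noncomputable section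

namespace T5u

open T3x T5x

namespace UTw0

theorem av_eq (a : ℕ → ℝ) (ha : ∀ n, 0 ≤ a n) {N : ℕ} (h : ∑ n ∈ range N, a n ≠ 0) (φ : ℤ → ℂ) :
    (wtOf a ha).av N φ =
      (((∑ n ∈ range N, a n)⁻¹ : ℝ) : ℂ) * ∑ d ∈ range N, (a d : ℂ) * φ d := by
  simp only [Wt.av, wtOf, if_neg h]
  rw [sum_image fun x _ y _ e => Nat.cast_injective e, mul_sum]
  refine sum_congr rfl fun d _ => ?_
  rw [Int.toNat_natCast, Complex.real_smul, div_eq_inv_mul, Complex.ofReal_mul, mul_assoc]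

theorem ee_pow (t : ℝ) (n : ℕ) : ee ((n : ℝ) * t) = ee t ^ n := by
  induction n with
  | zero => simp [Az.ee_zero]
  | succ n ih => rw [Nat.cast_succ, add_mul, one_mul, Az.ee_add, ih, pow_succ]

theorem abel (x : ℕ → ℂ) (q : ℂ) (N : ℕ) :
    ∑ d ∈ range N, x d * q ^ d = (∑ d ∈ range N, x d) * q ^ N +
      (1 - q) * ∑ k ∈ range N, (∑ d ∈ range (k + 1), x d) * q ^ k := by
  induction N with
  | zero => simp
  | succ N ih =>
    rw [sum_range_succ, ih, sum_range_succ (fun k => (∑ d ∈ range (k + 1), x d) * q ^ k),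
      sum_range_succ x N]
    ring

theorem prod_le (x : ℕ → ℂ) {q : ℂ} (hq : ‖q‖ = 1) (N : ℕ) :
    ‖∑ d ∈ range N, x d * q ^ d‖ * ‖∑ d ∈ range N, q ^ d‖ ≤
      N * ‖∑ d ∈ range N, x d‖ + 2 * ∑ k ∈ range N, ‖∑ d ∈ range (k + 1), x d‖ := by
  have h1 : ‖∑ d ∈ range N, q ^ d‖ ≤ N := by
    refine (norm_sum_le _ _).trans (le_of_eq ?_)
    simp [hq]
  have h2 : ‖(1 - q) * ∑ d ∈ range N, q ^ d‖ ≤ 2 := by
    rw [mul_neg_geom_sum]
    refine (norm_sub_le _ _).trans (le_of_eq ?_)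
    rw [norm_pow, hq, one_pow, norm_one]
    norm_num
  have h3 : ‖∑ k ∈ range N, (∑ d ∈ range (k + 1), x d) * q ^ k‖ ≤
      ∑ k ∈ range N, ‖∑ d ∈ range (k + 1), x d‖ := by
    refine (norm_sum_le _ _).trans (le_of_eq (sum_congr rfl fun k _ => ?_))
    rw [norm_mul, norm_pow, hq, one_pow, mul_one]
  have e : (∑ d ∈ range N, x d * q ^ d) * ∑ d ∈ range N, q ^ d =
      (∑ d ∈ range N, q ^ d) * ((∑ d ∈ range N, x d) * q ^ N) +
        ((1 - q) * ∑ d ∈ range N, q ^ d) *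
          ∑ k ∈ range N, (∑ d ∈ range (k + 1), x d) * q ^ k := by
    rw [abel]
    ring
  rw [← norm_mul, e]
  refine (norm_add_le _ _).trans (add_le_add ?_ ?_)
  · rw [norm_mul, norm_mul, norm_pow, hq, one_pow, mul_one]
    exact mul_le_mul_of_nonneg_right h1 (norm_nonneg _)
  · rw [norm_mul]
    exact mul_le_mul h2 h3 (norm_nonneg _) (by norm_num)

theorem real_le {A N P G Q B K ε : ℝ} (hN : 0 < N) (h2 : N / 2 ≤ A) (hK : 0 ≤ K) (hε : 0 ≤ ε)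
    (hP : 0 ≤ P) (hG : 0 ≤ G) (h1 : P * G ≤ B) (h3 : P ≤ K * A) (h4 : Q ≤ G + ε * N) :
    A⁻¹ * P * (A⁻¹ * Q) ≤ 4 / N ^ 2 * B + 2 * K * ε := by
  have hA0 : 0 < A := by linarith
  have hi : 0 < A⁻¹ := inv_pos.2 hA0
  have hi2 : A⁻¹ ≤ 2 / N := by
    rw [inv_le_comm₀ hA0 (by positivity), inv_div]
    exact h2
  have a1 : A⁻¹ * P ≤ K := by
    rw [inv_mul_le_iff₀ hA0, mul_comm]
    exact h3
  have a2 : A⁻¹ * (ε * N) ≤ 2 * ε := by
    rw [inv_mul_le_iff₀ hA0]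
    nlinarith
  have a3 : A⁻¹ * A⁻¹ * (P * G) ≤ 2 / N * (2 / N) * B :=
    mul_le_mul (mul_le_mul hi2 hi2 hi.le (by positivity)) h1 (mul_nonneg hP hG) (by positivity)
  have a4 : A⁻¹ * P * (A⁻¹ * (ε * N)) ≤ K * (2 * ε) := mul_le_mul a1 a2 (by positivity) hK
  calc A⁻¹ * P * (A⁻¹ * Q) ≤ A⁻¹ * P * (A⁻¹ * (G + ε * N)) :=
        mul_le_mul_of_nonneg_left (mul_le_mul_of_nonneg_left h4 hi.le) (by positivity)
    _ = A⁻¹ * A⁻¹ * (P * G) + A⁻¹ * P * (A⁻¹ * (ε * N)) := by ring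
    _ ≤ 2 / N * (2 / N) * B + K * (2 * ε) := add_le_add a3 a4
    _ = 4 / N ^ 2 * B + 2 * K * ε := by ring

theorem point (a : ℕ → ℝ) (ha : ∀ n, 0 ≤ a n) (f : ℕ → ℂ) {q : ℂ} (hq : ‖q‖ = 1) {N : ℕ}
    {K ε A : ℝ} (hA : A = ∑ n ∈ range N, a n) (hN : 0 < (N : ℝ)) (h2 : (N : ℝ) / 2 ≤ A)
    (hK : 0 ≤ K) (hε : 0 ≤ ε) (hf : ∀ d, ‖f d‖ ≤ K)
    (hR : ‖∑ d ∈ range N, ((a d - 1 : ℝ) : ℂ) * q ^ d‖ ≤ ε * N) :
    ‖((A⁻¹ : ℝ) : ℂ) * ∑ d ∈ range N, (a d : ℂ) * (f d * q ^ d)‖ *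
        ‖((A⁻¹ : ℝ) : ℂ) * ∑ d ∈ range N, (a d : ℂ) * q ^ d‖ ≤
      4 / (N : ℝ) ^ 2 * (N * ‖∑ d ∈ range N, (a d : ℂ) * f d‖ +
        2 * ∑ k ∈ range N, ‖∑ d ∈ range (k + 1), (a d : ℂ) * f d‖) + 2 * K * ε := by
  have hi : 0 < A⁻¹ := inv_pos.2 (by linarith)
  have h1 := prod_le (fun d => (a d : ℂ) * f d) hq N
  have e1 : ∑ d ∈ range N, (a d : ℂ) * (f d * q ^ d) = ∑ d ∈ range N, (a d : ℂ) * f d * q ^ d :=
    sum_congr rfl fun d _ => (mul_assoc _ _ _).symm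
  have h3 : ‖∑ d ∈ range N, (a d : ℂ) * f d * q ^ d‖ ≤ K * A := by
    rw [hA, mul_sum]
    refine (norm_sum_le _ _).trans (sum_le_sum fun d _ => ?_)
    rw [norm_mul, norm_mul, norm_pow, hq, one_pow, mul_one, Complex.norm_real,
      Real.norm_of_nonneg (ha d), mul_comm]
    exact mul_le_mul_of_nonneg_right (hf d) (ha d)
  have h4 : ‖∑ d ∈ range N, (a d : ℂ) * q ^ d‖ ≤ ‖∑ d ∈ range N, q ^ d‖ + ε * N := by
    have e : ∑ d ∈ range N, (a d : ℂ) * q ^ d =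
        ∑ d ∈ range N, q ^ d + ∑ d ∈ range N, ((a d - 1 : ℝ) : ℂ) * q ^ d := by
      rw [← sum_add_distrib]
      refine sum_congr rfl fun d _ => ?_
      push_cast
      ring
    rw [e]
    exact (norm_add_le _ _).trans (add_le_add le_rfl hR)
  rw [e1, norm_mul, norm_mul, Complex.norm_real, Real.norm_of_nonneg hi.le]
  exact real_le hN h2 hK hε (norm_nonneg _) (norm_nonneg _) h1 h3 h4

theorem mass {a : ℕ → ℝ} (h : Fl a) :
    ∀ᶠ N : ℕ in atTop, (N : ℝ) / 2 ≤ ∑ n ∈ range N, a n ∧ ∑ n ∈ range N, a n ≤ 2 * N := by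
  filter_upwards [h (1 / 2) (by norm_num)] with N hN
  have h1 := hN 0
  simp only [mul_zero, Az.ee_zero, mul_one] at h1
  rw [← Complex.ofReal_sum, Complex.norm_real, Real.norm_eq_abs, sum_sub_distrib, sum_const,
    card_range, nsmul_eq_mul, mul_one, abs_le] at h1
  have h0 : (0 : ℝ) ≤ N := Nat.cast_nonneg N
  constructor <;> linarith [h1.1, h1.2]

theorem lin_le {I : ℕ → ℝ} (h0 : ∀ k, 0 ≤ I k) {ε : ℝ} (hε : 0 ≤ ε)
    (h : ∀ᶠ k : ℕ in atTop, I k ≤ ε * k) : ∃ C : ℝ, 0 ≤ C ∧ ∀ k : ℕ, I k ≤ ε * k + C := by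
  obtain ⟨k0, hk⟩ := eventually_atTop.1 h
  have hC : 0 ≤ ∑ k ∈ range k0, I k := sum_nonneg fun k _ => h0 k
  refine ⟨_, hC, fun k => ?_⟩
  rcases le_or_gt k0 k with h1 | h1
  · linarith [hk k h1]
  · have h2 : I k ≤ ∑ k ∈ range k0, I k := single_le_sum (fun k _ => h0 k) (mem_range.2 h1)
    have h3 : 0 ≤ ε * k := by positivity
    linarith

end UTw0

open UTw0 in
theorem tw0 : Tw0R := by
  intro bas el a ha fl erg Z F Δ hF h0 hΔ
  obtain ⟨K0, hK0⟩ := hF.2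
  have hK : ∀ᵐ z ∂Z.μ, ∀ d : ℕ, ‖F (Z.Tz d z)‖ ≤ |K0| := ae_all_iff.2 fun d =>
    (bas.t.mp Z d).quasiMeasurePreserving.ae (hK0.mono fun z hz => hz.trans (le_abs_self _))
  have hd : ∀ d : ℤ, Integrable (fun z => F (Z.Tz d z)) Z.μ := fun d =>
    (bas.t.mp Z d).integrable_comp_of_integrable hF.integrable
  have hi : ∀ k : ℕ, Integrable (fun z => ‖∑ d ∈ range k, (a d : ℂ) * F (Z.Tz d z)‖) Z.μ := by
    intro k
    have h : Integrable (fun z => ∑ d ∈ range k, (a d : ℂ) * F (Z.Tz d z)) Z.μ :=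
      integrable_finsetSum _ fun d _ => (hd d).const_mul _
    exact h.norm
  have hpos : ∀ᶠ N : ℕ in atTop, 0 < (N : ℝ) :=
    (eventually_gt_atTop 0).mono fun N hN => Nat.cast_pos.2 hN
  rw [Metric.tendsto_nhds]
  intro η hη
  obtain ⟨ε, hε, hεη⟩ : ∃ ε : ℝ, 0 < ε ∧ (24 + 2 * |K0|) * ε < η := by
    refine ⟨η / 2 / (24 + 2 * |K0|), by positivity, ?_⟩
    rw [mul_div_cancel₀ _ (by positivity)]
    linarith
  have h1 : ∀ᶠ k : ℕ in atTop, ∫ z, ‖∑ d ∈ range k, (a d : ℂ) * F (Z.Tz d z)‖ ∂Z.μ ≤ ε * k := by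
    filter_upwards [(el _ erg Z F hF h0).eventually (gt_mem_nhds (half_pos hε)), mass fl, hpos]
      with k a1 a2 a3
    have hA : 0 < ∑ n ∈ range k, a n := by linarith [a2.1]
    simp only [av_eq a ha hA.ne', norm_mul, Complex.norm_real,
      Real.norm_of_nonneg (inv_pos.2 hA).le] at a1
    rw [integral_const_mul, inv_mul_lt_iff₀ hA] at a1
    nlinarith [a2.2]
  obtain ⟨C, hC, hI⟩ := lin_le (fun k => integral_nonneg fun z => norm_nonneg _) hε.le h1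
  have h2 : ∀ᶠ N : ℕ in atTop, C ≤ ε * N :=
    (tendsto_natCast_atTop_atTop.const_mul_atTop hε).eventually_ge_atTop C
  filter_upwards [mass fl, hpos, fl ε hε, h2] with N a1 a2 a3 a4
  have hA : 0 < ∑ n ∈ range N, a n := by linarith [a1.1]
  rw [Real.dist_eq, sub_zero,
    abs_of_nonneg (integral_nonneg fun z => mul_nonneg (norm_nonneg _) (norm_nonneg _))]
  refine lt_of_le_of_lt ?_ hεη
  have hs : Integrable (fun z => ∑ k ∈ range N,
      ‖∑ d ∈ range (k + 1), (a d : ℂ) * F (Z.Tz d z)‖) Z.μ :=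
    integrable_finsetSum _ fun k _ => hi (k + 1)
  have hb : Integrable (fun z => (N : ℝ) * ‖∑ d ∈ range N, (a d : ℂ) * F (Z.Tz d z)‖ +
      2 * ∑ k ∈ range N, ‖∑ d ∈ range (k + 1), (a d : ℂ) * F (Z.Tz d z)‖) Z.μ :=
    ((hi N).const_mul _).add (hs.const_mul _)
  refine (integral_mono_of_nonneg (g := fun z => 4 / (N : ℝ) ^ 2 *
      (N * ‖∑ d ∈ range N, (a d : ℂ) * F (Z.Tz d z)‖ +
        2 * ∑ k ∈ range N, ‖∑ d ∈ range (k + 1), (a d : ℂ) * F (Z.Tz d z)‖) + 2 * |K0| * ε)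
    (ae_of_all _ fun z => mul_nonneg (norm_nonneg _) (norm_nonneg _))
    ((hb.const_mul _).add (integrable_const _)) ?_).trans ?_
  · filter_upwards [hK] with z hz
    have h3 := a3 (Δ N z)
    simp only [av_eq a ha hA.ne', Int.cast_natCast, ee_pow] at h3 ⊢
    exact point a ha (fun d => F (Z.Tz d z)) (Az.norm_ee _) rfl a2 a1.1 (abs_nonneg _) hε.le hz h3
  · rw [integral_add (hb.const_mul _) (integrable_const _), integral_const_mul,
      integral_add ((hi N).const_mul _) (hs.const_mul _), integral_const_mul, integral_const_mul,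
      integral_finsetSum _ fun k _ => hi (k + 1), integral_const, probReal_univ, one_smul]
    have h3 : ∑ k ∈ range N, ∫ z, ‖∑ d ∈ range (k + 1), (a d : ℂ) * F (Z.Tz d z)‖ ∂Z.μ ≤
        N * (2 * ε * N) := by
      refine (sum_le_sum (g := fun _ => 2 * ε * N) fun k hk => (hI (k + 1)).trans ?_).trans
        (le_of_eq (by rw [sum_const, card_range, nsmul_eq_mul]))
      have h4 : ((k + 1 : ℕ) : ℝ) ≤ N := Nat.cast_le.2 (mem_range.1 hk)
      nlinarith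
    have h5 : N * ∫ z, ‖∑ d ∈ range N, (a d : ℂ) * F (Z.Tz d z)‖ ∂Z.μ ≤ N * (2 * ε * N) :=
      mul_le_mul_of_nonneg_left ((hI N).trans (by linarith)) a2.le
    have h6 : 4 / (N : ℝ) ^ 2 * (N * (2 * ε * N) + 2 * (N * (2 * ε * N))) = 24 * ε := by
      field_simp
      ring
    have h7 := mul_le_mul_of_nonneg_left (add_le_add h5
      (mul_le_mul_of_nonneg_left h3 (zero_le_two (α := ℝ)))) (show 0 ≤ 4 / (N : ℝ) ^ 2 by positivity)
    linarith

end T5u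

end
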