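import Pool.Agent.MP_154433_an.t5.SpecU

/-! The union bound for the importance weights over families of polynomial size. -/

set_option autoImplicit false
set_option linter.unusedVariables false

open MeasureTheory ProbabilityTheory Filter Topology Function Finset ComplexConjugate
open scoped BigOperators
open Pool.Agent.MP_154433_an

noncomputable section

namespace T5u

namespace UUb

lemma log1 : ∀ᶠ M : ℕ in atTop, 1 ≤ Real.log M :=
  (Real.tendsto_log_atTop.comp tendsto_natCast_atTop_atTop).eventually_ge_atTop 1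

/-- the rescaled coefficients -/
def cc (σ : ℕ → ℝ) (r : ℕ → ℝ) (N k : ℕ) : ℝ := if k < N then r k * (σ N / σ k) else 0

lemma cc_abs {σ r : ℕ → ℝ} (hσ : ∀ n, 0 < σ n ∧ σ n ≤ 1) (ha : Antitone σ) (hr : ∀ k, |r k| ≤ 1)
    (N k : ℕ) : |cc σ r N k| ≤ 1 := by
  unfold cc
  split_ifs with h
  · rw [abs_mul, abs_of_pos (div_pos (hσ N).1 (hσ k).1)]
    exact mul_le_one₀ (hr k) (div_pos (hσ N).1 (hσ k).1).le ((div_le_one (hσ k).1).2 (ha h.le))
  · simp

lemma cc_var {σ r : ℕ → ℝ} (hσ : ∀ n, 0 < σ n ∧ σ n ≤ 1) (ha : Antitone σ) (hr : ∀ k, |r k| ≤ 1)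
    (N : ℕ) : ∑ k ∈ range N, σ k * cc σ r N k ^ 2 ≤ N * σ N := by
  refine (sum_le_card_nsmul _ _ (σ N) fun k hk => ?_).trans (by simp)
  have hk := mem_range.1 hk
  have h1 := cc_abs hσ ha hr N k
  have h2 : σ k * |cc σ r N k| ≤ σ N := by
    rw [cc, if_pos hk, abs_mul, abs_of_pos (div_pos (hσ N).1 (hσ k).1), mul_left_comm,
      mul_div_cancel₀ _ (hσ k).1.ne']
    exact mul_le_of_le_one_left (hσ N).1.le (hr k)
  rw [← sq_abs, sq, ← mul_assoc]
  exact (mul_le_of_le_one_right (mul_nonneg (hσ k).1.le (abs_nonneg _)) h1).trans h2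

lemma one (hT : TailT) {Ω : Type} [MeasurableSpace Ω] {P : Measure Ω} [IsProbabilityMeasure P]
    {σ : ℕ → ℝ} (hσ : ∀ n, 0 < σ n ∧ σ n ≤ 1) (ha : Antitone σ) (hg : G1 σ) {E : ℕ → Set Ω}
    (hE : ∀ n, MeasurableSet (E n)) (hind : iIndepSet E P)
    (hP : ∀ n, P (E n) = ENNReal.ofReal (σ n)) {C : ℝ} {S : ℕ → Finset (ℕ → ℂ)}
    (hb : ∀ M, ∀ c ∈ S M, T3S.B1 c)
    (hS : ∀ M, 1 ≤ M → ((S M).card : ℝ) ≤ Real.exp (C * (Real.log M + 1))) {ε : ℝ}
    (h0 : 0 < ε) (h1 : ε ≤ 1) (θ : ℂ) (hθ : ‖θ‖ = 1) :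
    ∀ᵐ ω ∂P, ∀ᶠ M in atTop, ∀ c ∈ S M, ∑ k ∈ range M,
      (iw σ (fun m => ω ∈ E m) k - 1) * (θ * c k).re ≤ ε * M := by
  let B : ℕ → Set Ω := fun M => ⋃ c ∈ S M, {ω | ε * (M * σ M) ≤ ∑ k ∈ range M,
      ((E k).indicator (fun _ => (1 : ℝ)) ω - σ k) * cc σ (fun k => (θ * c k).re) M k}
  have hB : ∀ᶠ M in atTop, P.real (B M) ≤ 1 / (M : ℝ) ^ 2 := by
    filter_upwards [hg.eventually_ge_atTop (4 * (|C| * 2 + 2) / ε ^ 2), eventually_ge_atTop 1,
      log1] with M hM hM1 hL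
    have hM0 : (0 : ℝ) < M := by exact_mod_cast hM1
    have x2 : C * (Real.log M + 1) ≤ |C| * (2 * Real.log M) :=
      mul_le_mul (le_abs_self C) (by linarith) (by positivity) (abs_nonneg C)
    rw [div_le_div_iff₀ (by positivity) (by positivity)] at hM
    refine (measureReal_biUnion_finset_le _ _).trans ?_
    have hr : ∀ c ∈ S M, ∀ k, |(θ * c k).re| ≤ 1 := fun c hc k =>
      (Complex.abs_re_le_norm _).trans (by rw [norm_mul, hθ, one_mul]; exact hb M c hc k)
    refine (sum_le_card_nsmul _ _ _ fun c hc => hT σ (fun n => ⟨(hσ n).1.le, (hσ n).2⟩) Ω P E hE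
      hind hP _ M _ ε (cc_abs hσ ha (hr c hc) M) (cc_var hσ ha (hr c hc) M) h0.le h1).trans ?_
    rw [nsmul_eq_mul]
    refine (mul_le_mul_of_nonneg_right (hS M hM1) (Real.exp_pos _).le).trans ?_
    rw [← Real.exp_add]
    refine (Real.exp_le_exp.2 (show _ ≤ -(2 * Real.log M) by linarith)).trans (le_of_eq ?_)
    rw [Real.exp_neg, two_mul, Real.exp_add, Real.exp_log hM0, one_div, sq]
  have hsum : Summable fun M => P.real (B M) := by
    refine Summable.of_norm_bounded_eventually_nat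
      (Real.summable_one_div_nat_pow.2 one_lt_two) ?_
    filter_upwards [hB] with M hM
    rwa [Real.norm_eq_abs, abs_of_nonneg measureReal_nonneg]
  have hne : ∑' M, P (B M) ≠ ⊤ := by
    have : ∀ M, P (B M) = ENNReal.ofReal (P.real (B M)) := fun M =>
      (ofReal_measureReal (measure_ne_top _ _)).symm
    simp only [this]
    rw [← ENNReal.ofReal_tsum_of_nonneg (fun _ => measureReal_nonneg) hsum]
    exact ENNReal.ofReal_ne_top
  filter_upwards [ae_eventually_notMem hne] with ω hω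
  filter_upwards [hω] with M hM c hc
  simp only [B, Set.mem_iUnion, not_exists, Set.mem_ofPred_eq, not_le] at hM
  have h := (hM c hc).le
  have e : ∑ k ∈ range M, ((E k).indicator (fun _ => (1 : ℝ)) ω - σ k) *
      cc σ (fun k => (θ * c k).re) M k =
      σ M * ∑ k ∈ range M, (iw σ (fun m => ω ∈ E m) k - 1) * (θ * c k).re := by
    rw [mul_sum]
    refine sum_congr rfl fun k hk => ?_
    have := (hσ k).1.ne'
    rw [cc, if_pos (mem_range.1 hk), iw]
    by_cases hk : ω ∈ E k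
    · simp only [T3S.ind, hk, Set.indicator_of_mem, if_true]; field_simp
    · simp only [T3S.ind, hk, Set.indicator_of_notMem, if_false, not_false_eq_true]; field_simp
  rw [e] at h
  exact le_of_mul_le_mul_left (h.trans (le_of_eq (by ring))) (hσ M).1

end UUb

theorem ubT : UbR := by
  intro hT σ hσ ha hg Ω _ P _ E hE hind hP C S hb hS ε hε
  have h0 : 0 < min (ε / 2) 1 := lt_min (half_pos hε) one_pos
  have h := UUb.one hT hσ ha hg hE hind hP hb hS h0 (min_le_right _ _)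
  filter_upwards [h 1 (by simp), h (-1) (by simp), h Complex.I (by simp), h (-Complex.I) (by simp)]
    with ω a1 a2 a3 a4
  filter_upwards [a1, a2, a3, a4] with M b1 b2 b3 b4 c hc
  have key : ∀ θ : ℂ, ∑ k ∈ range M, (iw σ (fun m => ω ∈ E m) k - 1) * (θ * c k).re ≤
      min (ε / 2) 1 * M →
      (θ * ∑ d ∈ range M, ((iw σ (fun m => ω ∈ E m) d - 1 : ℝ) : ℂ) * c d).re ≤ ε / 2 * M := by
    intro θ hθ
    refine le_trans (le_of_eq_of_le ?_ hθ)
      (mul_le_mul_of_nonneg_right (min_le_left _ _) (Nat.cast_nonneg M))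
    rw [mul_sum, Complex.re_sum]
    refine sum_congr rfl fun k _ => ?_
    rw [mul_left_comm, Complex.re_ofReal_mul]
  have c1 := key _ (b1 c hc)
  have c2 := key _ (b2 c hc)
  have c3 := key _ (b3 c hc)
  have c4 := key _ (b4 c hc)
  simp only [one_mul, neg_mul, Complex.neg_re, Complex.mul_re, Complex.I_re, Complex.I_im, zero_mul,
    zero_sub, neg_neg] at c1 c2 c3 c4
  refine (Complex.norm_le_abs_re_add_abs_im _).trans ?_
  have := abs_le.2 ⟨neg_le.1 c2, c1⟩
  have := abs_le.2 ⟨neg_le.1 c3, c4⟩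
  linarith

end T5u

end
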