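import Pool.Agent.MP_154433_an.t5.UAsm
import Pool.Agent.MP_154433_an.t5.UPick
import Pool.Agent.MP_154433_an.t5.UDrop
import Pool.Agent.MP_154433_an.t5.UGf
import Pool.Agent.MP_154433_an.t5.UKey
import Pool.Agent.MP_154433_an.t5.UCptA
import Pool.Agent.MP_154433_an.t5.UCpt
import Pool.Agent.MP_154433_an.t5.UDet
import Pool.Agent.MP_154433_an.t5.UConv
import Pool.Agent.MP_154433_an.t5.UErg
import Pool.Agent.MP_154433_an.t5.UErgL
import Pool.Agent.MP_154433_an.t5.UTw0
import Pool.Agent.MP_154433_an.t5.USig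
import Pool.Agent.MP_154433_an.t5.UProd
import Pool.Agent.MP_154433_an.t5.UGood
import Pool.Agent.MP_154433_an.t5.UDw
import Pool.Agent.MP_154433_an.t5.UUnif
import Pool.Agent.MP_154433_an.t5.ULay
import Pool.Agent.MP_154433_an.t5.UTail
import Pool.Agent.MP_154433_an.t5.UUb
import Pool.Agent.MP_154433_an.t5.UNetP
import Pool.Agent.MP_154433_an.t5.UNetT
import Pool.Agent.MP_154433_an.t5.UAe
import Pool.Agent.MP_154433_an.t3s.Apx
import Pool.Agent.MP_154433_an.t3s.Shift
import Pool.Agent.MP_154433_an.t3s.Dual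
import Pool.Agent.MP_154433_an.t3s.Gcs
import Pool.Agent.MP_154433_an.t3s.Win
import Pool.Agent.MP_154433_an.t3s.Fac
import Pool.Agent.MP_154433_an.t3s.Zero
import Pool.Agent.MP_154433_an.t3s.Nest
import Pool.Agent.MP_154433_an.t3s.Link
import Pool.Agent.MP_154433_an.t3s.Gvn
import Pool.Agent.MP_154433_an.t3s.Vdc
import Pool.Agent.MP_154433_an.t3s.Erg
import Pool.Agent.MP_154433_an.t3s.Vn
import Pool.Agent.MP_154433_an.t3s.Nrm

/-! Uniform twisted averages along the random set, from the core theorem. -/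

set_option autoImplicit false

open Pool.Agent.MP_154433_an

namespace T5u

open T3x T5x

theorem udetX (F : Fd) : UDet :=
  udet F (ugf F pick) (ucpt F (ugf F pick) (ucptA F (key F) (drop F pick)))

theorem mainU (F : Fd) (hZ : CovZ) (hC : ∀ ν, UW ν → CoreF ν) : MainU :=
  have b : Bas := ⟨F.a, F.t, F.d, F.c⟩
  mainU_of (fun ν h => coreX ν (hC ν h)) (udetX F) T3S.fac conv (ergT (T3S.erg T3S.vn) T3S.nrm)
    (tw0 b (ergL b)) atomT (goodT prodT)
    (unifT T3S.fac (T3S.zero T3S.nest T3S.link) (dw T3S.nrm T3S.vdc (T3S.gvn T3S.vdc))) sigT lay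
    (aeT (netT (netP (T3S.apx T3S.shift (T3S.dual T3S.gcs T3S.win)) hZ)) (ubT tailT))

end T5u
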