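import Pool.Agent.MP_154433_an.t5.SpecU
import Pool.Agent.MP_154433_an.t3s.Bridge

/-! Assembly of the rows on uniform twisted averages. -/

set_option autoImplicit false
set_option linter.unusedVariables false

open MeasureTheory ProbabilityTheory Filter Topology Function Finset
open Fib27 (BM)
open Pool.Agent.MP_154433_an

noncomputable section

namespace T5u

open T3x T5x

theorem sv_of (hC : ∀ ν, UW ν → CoreX ν) (det : UDet) (fac : T3S.FacS) (conv : ConvT)
    (erg : ErgT) (tw : Tw0T) (atom : AtomT) (good : GoodT) (unif : UnifT) (h1 : At fun _ => 1)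
    (h2 : Fl fun _ => 1) (a : ℕ → ℝ) (ha : ∀ n, 0 ≤ a n) (hF : Fl a) (hA : At a) (hS : TStr a)
    (Y : Sys) (g : Y.X → ℂ) (hg : BM Y.μ Y.ms g) : SV a Y g := by
  have u1 : UW (wtOf a ha) := atom a ha hF hA (erg a ha hF) (tw a ha hF (erg a ha hF))
  have u2 : UW un := atom _ _ h2 h1 (erg _ _ h2) (tw _ _ h2 (erg _ _ h2))
  refine (conv a ha hF Y g hg).2 (det _ _ (hC _ u1) (hC _ u2) (fun X => ?_) Y g hg)
  have hB := T3S.Bridge.fac_to X _ (fac 2 X.X X.μ X.T X.mp).1
  exact ⟨_, hB.1, hB.2, fun f hf => (conv a ha hF X f (hf.mono hB.1.le)).1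
    (good a ha hF hS X f hf), unif X⟩

theorem mainU_of (hC : ∀ ν, UW ν → CoreX ν) (det : UDet) (fac : T3S.FacS) (conv : ConvT)
    (erg : ErgT) (tw : Tw0T) (atom : AtomT) (good : GoodT) (unif : UnifT) (sig : SigT)
    (lay : LayT) (ae : AeT) : MainU := by
  intro σ hσ ha hg Ω _ P _ E hE hind hP
  obtain ⟨s1, -, s3, s4, s5, s6⟩ := sig σ hσ ha hg
  filter_upwards [ae σ (fun n => ⟨s1 n, (hσ n).2⟩) ha hg Ω P E hE hind hP] with ω hω
  refine lay σ _ s1 ha s3 (sv_of hC det fac conv erg tw atom good unif s5 s6 _ (fun n => ?_) hω.2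
    (s4 _) hω.1)
  refine div_nonneg ?_ (hσ n).1
  unfold T3S.ind
  split_ifs <;> norm_num

end T5u

end
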