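import Pool.Agent.MP_154433_an.t5.SpecU

/-! Small atoms of the normalised weights, and the consequences of the growth condition. -/

set_option autoImplicit false
set_option linter.unusedVariables false

open MeasureTheory ProbabilityTheory Filter Topology Function Finset ComplexConjugate
open scoped BigOperators
open Fib27 (BM)
open Pool.Agent.MP_154433_an

noncomputable section

namespace T5u

open T3x T5x

namespace USig

theorem half (a : ℕ → ℝ) (h : Fl a) :
    ∀ᶠ M : ℕ in atTop, (M : ℝ) / 2 ≤ ∑ n ∈ range M, a n := by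
  filter_upwards [h (1 / 2) (by norm_num)] with M hM
  have h0 := hM 0
  have e : (∑ d ∈ range M, ((a d - 1 : ℝ) : ℂ) * ee ((d : ℝ) * 0)) =
      (((∑ n ∈ range M, a n) - M : ℝ) : ℂ) := by
    have e1 : ∀ d : ℕ, ee ((d : ℝ) * 0) = 1 := fun d => by simp [ee]
    simp only [e1, mul_one]
    rw [← Complex.ofReal_sum, sum_sub_distrib]
    simp
  rw [e, Complex.norm_real, Real.norm_eq_abs] at h0
  have h1 := (abs_le.1 h0).1
  linarith

theorem lg (N : ℕ) (hN : 2 ≤ N) : Real.log ((N : ℝ) + 2) ≤ 2 * Real.log N := by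
  have h2 : (2 : ℝ) ≤ N := by exact_mod_cast hN
  have h3 : (N : ℝ) + 2 ≤ (N : ℝ) ^ 2 := by nlinarith
  have h4 := Real.log_le_log (by linarith) h3
  rw [Real.log_pow] at h4
  exact_mod_cast h4

theorem key (σ : ℕ → ℝ) (hG : G1 σ) (ε : ℝ) (hε : 0 < ε) :
    ∀ᶠ N : ℕ in atTop, Real.log ((N : ℝ) + 2) ≤ ε * N * σ N := by
  filter_upwards [hG.eventually_ge_atTop (2 / ε), eventually_ge_atTop 2] with N h1 h2
  have h3 : (2 : ℝ) ≤ N := by exact_mod_cast h2
  have h4 : 0 < Real.log N := Real.log_pos (by linarith)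
  rw [div_le_div_iff₀ hε h4] at h1
  have h5 := lg N h2
  nlinarith

theorem pos (σ : ℕ → ℝ) (ha : Antitone σ) (hG : G1 σ) (n : ℕ) : 0 < σ n := by
  obtain ⟨N, h1, h2⟩ := ((key σ hG 1 one_pos).and (eventually_ge_atTop n)).exists
  have h0 : (0 : ℝ) ≤ N := Nat.cast_nonneg N
  have h3 : 0 < Real.log ((N : ℝ) + 2) := Real.log_pos (by linarith)
  have h4 : 0 < σ N := by
    by_contra h
    have h5 : σ N ≤ 0 := not_lt.1 h
    nlinarith
  exact h4.trans_le (ha h2)

theorem wt_ge (σ : ℕ → ℝ) (ha : Antitone σ) (M : ℕ) : (M : ℝ) * σ M ≤ T3S.Wt σ M := by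
  have h : ∑ k ∈ range M, σ M ≤ ∑ k ∈ range M, σ k :=
    sum_le_sum fun k hk => ha (mem_range.1 hk).le
  simpa [T3S.Wt] using h

theorem gr (σ : ℕ → ℝ) (ha : Antitone σ) (hG : G1 σ) : T3S.Gr σ 1 := by
  refine tendsto_atTop_mono (fun M => ?_) hG
  rw [pow_one]
  exact div_le_div_of_nonneg_right (wt_ge σ ha M) (Real.log_natCast_nonneg M)

theorem wt_top (σ : ℕ → ℝ) (ha : Antitone σ) (hG : G1 σ) : Tendsto (T3S.Wt σ) atTop atTop := by
  have h1 : Tendsto (fun M : ℕ => Real.log M) atTop atTop :=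
    Real.tendsto_log_atTop.comp tendsto_natCast_atTop_atTop
  have h2 := Tendsto.atTop_mul_atTop₀ (gr σ ha hG) h1
  refine h2.congr' ?_
  filter_upwards [h1.eventually_gt_atTop 0] with M hM
  rw [pow_one, div_mul_cancel₀ _ hM.ne']

end USig

theorem atomT : AtomT := by
  intro a ha hF hA hE hT
  refine ⟨hE, hT, fun _ => 0, fun M => M + 1, fun M d hd => ?_, fun ε hε => ?_⟩
  · simp only [wtOf] at hd
    split_ifs at hd with h
    · rw [mem_singleton] at hd
      subst hd
      show (0 : ℤ) ≤ 0 ∧ (0 : ℤ) < 0 + ((M + 1 : ℕ) : ℤ)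
      omega
    · obtain ⟨k, hk, rfl⟩ := mem_image.1 hd
      have := mem_range.1 hk
      show (0 : ℤ) ≤ (k : ℤ) ∧ (k : ℤ) < 0 + ((M + 1 : ℕ) : ℤ)
      omega
  · filter_upwards [USig.half a hF, hA (ε / 2) (by linarith), eventually_ge_atTop 1]
      with M h1 h2 h3 d hd
    have h4 : (1 : ℝ) ≤ M := by exact_mod_cast h3
    have h5 : 0 < ∑ n ∈ range M, a n := by linarith
    simp only [wtOf, if_neg h5.ne'] at hd ⊢
    obtain ⟨k, hk, rfl⟩ := mem_image.1 hd
    have h6 := h2 k (mem_range.1 hk)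
    have e : (((M + 1 : ℕ) : ℝ) + 1) = (M : ℝ) + 2 := by push_cast; ring
    rw [Int.toNat_natCast, e, div_mul_eq_mul_div, div_le_iff₀ h5]
    nlinarith

theorem sigT : SigT := by
  intro σ h01 ha hG
  have hp := USig.pos σ ha hG
  refine ⟨hp, USig.gr σ ha hG, USig.wt_top σ ha hG, fun p ε hε => ?_, fun ε hε => ?_,
    fun ε hε => ?_⟩
  · filter_upwards [USig.key σ hG ε hε] with N h1 d hd
    have h0 : (0 : ℝ) ≤ N := Nat.cast_nonneg N
    have h2 : 0 ≤ Real.log ((N : ℝ) + 2) := Real.log_nonneg (by linarith)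
    have h3 : T3S.ind p d ≤ 1 := by
      unfold T3S.ind
      split_ifs
      · exact le_rfl
      · exact zero_le_one
    have h4 : σ N ≤ σ d := ha hd.le
    have h5 : ε * N * σ N ≤ ε * N * σ d := mul_le_mul_of_nonneg_left h4 (by positivity)
    have h6 : T3S.ind p d * Real.log ((N : ℝ) + 2) ≤ Real.log ((N : ℝ) + 2) := by nlinarith
    rw [iw, div_mul_eq_mul_div, div_le_iff₀ (hp d)]
    linarith
  · filter_upwards [USig.key σ hG ε hε] with N h1 d hd
    have h0 : (0 : ℝ) ≤ ε * N := by positivity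
    have h2 := mul_le_mul_of_nonneg_left (h01 N).2 h0
    linarith
  · refine Eventually.of_forall fun N t => ?_
    simp only [sub_self, Complex.ofReal_zero, zero_mul, sum_const_zero, norm_zero]
    positivity

end T5u

end
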