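import Pool.Agent.MP_154433_an.t5.SpecU
import Pool.Agent.MP_154433_an.t3.CptA
import Pool.Agent.MP_154433_an.t3.Gf

/-! Structure part: from the core theorem to uniform twisted averages. -/

set_option autoImplicit false
set_option linter.unusedVariables false
set_option linter.unusedSectionVars false

open MeasureTheory ProbabilityTheory Filter Topology Function Finset ComplexConjugate
open scoped BigOperators
open Fib27 (BM)

noncomputable section

namespace T5u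

open T3x T5x

namespace US

theorem ee_add (s t : ℝ) : ee (s + t) = ee s * ee t := by
  rw [ee, ee, ee, ← Complex.exp_add]
  congr 1
  push_cast
  ring

theorem norm_ee (t : ℝ) : ‖ee t‖ = 1 := Complex.norm_exp_ofReal_mul_I _

theorem conj_ee (t : ℝ) : conj (ee t) = ee (-t) := by
  rw [ee, ee, ← Complex.exp_conj, map_mul, Complex.conj_ofReal, Complex.conj_I]
  congr 1
  push_cast
  ring

theorem cont_ee : Continuous ee := by
  unfold ee
  fun_prop

theorem ee_int (n : ℤ) : ee n = 1 := by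
  rw [ee, ← Complex.exp_int_mul_two_pi_mul_I n]
  congr 1
  push_cast
  ring

theorem ee_fract (d : ℤ) (t : ℝ) : ee (d * Int.fract t) = ee (d * t) := by
  have : (d : ℝ) * t = d * Int.fract t + ((d * ⌊t⌋ : ℤ) : ℝ) := by
    rw [Int.fract]
    push_cast
    ring
  rw [this, ee_add, ee_int, mul_one]

theorem ee_sub (d s t : ℝ) : ee (d * (s - t)) = ee (d * s) * conj (ee (d * t)) := by
  rw [conj_ee, ← ee_add]
  congr 1
  ring

theorem bm_ee {Ω : Type} {m m0 : MeasurableSpace Ω} {μ : Measure[m0] Ω} {b : Ω → ℝ}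
    (hb : Measurable[m] b) (d : ℝ) : BM μ m fun x => ee (d * b x) :=
  ⟨(cont_ee.measurable.comp (hb.const_mul d)).aestronglyMeasurable, 1,
    Eventually.of_forall fun _ => (norm_ee _).le⟩

variable {X : Sys} {ν ν' : Wt}

theorem tav_eq (g : X.X → ℂ) (M : ℕ) (t : ℝ) (x : X.X) :
    tav ν X g M t x = ∑ d ∈ ν.sp M, ν.w M d • (g (X.Tz d x) * ee ((d : ℝ) * t)) := rfl

theorem bm_tav (t : BasT) {B : MeasurableSpace X.X} (hB : Fac X B) {g : X.X → ℂ}
    (hg : BM X.μ B g) {b : X.X → ℝ} (hb : Measurable[B] b) (ν : Wt) (M : ℕ) :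
    BM X.μ B fun x => tav ν X g M (b x) x :=
  CptA.bm_wsum (ν.sp M) (ν.w M) fun d _ => (t.bm X B d g hB hg).mul (bm_ee hb d)

theorem bmt (t : BasT) {g : X.X → ℂ} (hg : BM X.μ X.ms g) {b : X.X → ℝ}
    (hb : Measurable[X.ms] b) (ν : Wt) (M : ℕ) : BM X.μ X.ms fun x => tav ν X g M (b x) x :=
  bm_tav t (t.top X) hg hb ν M

theorem contr (t : BasT) {h : X.X → ℂ} (hh : BM X.μ X.ms h) {b : X.X → ℝ}
    (hb : Measurable[X.ms] b) (ν : Wt) (M : ℕ) :
    ∫ x, ‖tav ν X h M (b x) x‖ ^ 2 ∂X.μ ≤ ∫ x, ‖h x‖ ^ 2 ∂X.μ := by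
  have hi : ∀ d ∈ ν.sp M, Integrable (fun x => ν.w M d * ‖h (X.Tz d x)‖ ^ 2) X.μ :=
    fun d _ => (GfL.isq (GfL.bm_comp (t.mp X _) hh)).const_mul _
  refine (integral_mono (GfL.isq (bmt t hh hb ν M)) (integrable_finsetSum _ hi)
    fun x => ?_).trans (le_of_eq ?_)
  · have cv : ConvexOn ℝ Set.univ fun z : ℂ => ‖z‖ ^ 2 :=
      convexOn_univ_norm.pow (fun _ _ => norm_nonneg _) 2
    have h1 := cv.map_sum_le (t := ν.sp M) (w := ν.w M) (p := fun d =>
      h (X.Tz d x) * ee ((d : ℝ) * b x)) (fun d _ => ν.nn M d) (ν.one M) fun _ _ => Set.mem_univ _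
    simpa only [tav_eq, norm_mul, norm_ee, mul_one, smul_eq_mul] using h1
  · rw [integral_finsetSum _ hi, ← one_mul (∫ x, ‖h x‖ ^ 2 ∂X.μ), ← ν.one M, sum_mul]
    refine sum_congr rfl fun d _ => ?_
    rw [integral_const_mul, GfL.int_comp (f := fun y => ‖h y‖ ^ 2) (t.mp X _) (GfL.isq hh).1]

theorem tav_congr (t : BasT) {f g : X.X → ℂ} (h : f =ᵐ[X.μ] g) (b : X.X → ℝ) (ν : Wt) (M : ℕ) :
    (fun x => tav ν X f M (b x) x) =ᵐ[X.μ] fun x => tav ν X g M (b x) x := by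
  filter_upwards [ae_all_iff.2 fun n : ℤ => (t.mp X n).quasiMeasurePreserving.ae h] with x hx
  simp only [tav_eq, hx]

theorem tav_add (f g : X.X → ℂ) (M : ℕ) (s : ℝ) (x : X.X) :
    tav ν X (fun y => f y + g y) M s x = tav ν X f M s x + tav ν X g M s x := by
  simp only [tav_eq, add_mul, smul_add, sum_add_distrib]

theorem tav_split {n : ℕ} (g : X.X → ℂ) (a : Fin n → X.X → ℂ) (M : ℕ) (s : ℝ) (x : X.X) :
    tav ν X g M s x = ∑ j, tav ν X (a j) M s x + tav ν X (fun y => g y - ∑ j, a j y) M s x := by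
  simp only [tav_eq]
  rw [sum_comm, ← sum_add_distrib]
  refine sum_congr rfl fun d _ => ?_
  rw [← smul_sum, ← smul_add, ← sum_mul, ← add_mul, add_sub_cancel]

theorem msh (t : BasT) {b : X.X → ℝ} (hb : Measurable b) (n n' : ℤ) :
    Measurable fun x => b (X.Tz n x) - b (X.Tz n' x) :=
  (hb.comp (t.mp X n).measurable).sub (hb.comp (t.mp X n').measurable)

theorem dense (t : BasT) {C : MeasurableSpace X.X} {T : Set (X.X → ℂ)} (hC : C ≤ X.ms)
    (hT : ∀ φ ∈ T, BM X.μ X.ms φ)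
    (h1 : ∀ g, BM X.μ C g → ∀ ε : ℝ, 0 < ε → ∃ (n : ℕ) (a : Fin n → X.X → ℂ), (∀ i, a i ∈ T) ∧
      ∫ x, ‖g x - ∑ i, a i x‖ ^ 2 ∂X.μ ≤ ε) (h2 : ∀ f ∈ T, UV ν ν' X f) : UG ν ν' X C := by
  intro g hg b hb
  have hg' := hg.mono hC
  refine GfL.sm_apx (μ := X.μ) fun ε hε => ?_
  obtain ⟨n, a, ha, hc⟩ := h1 g hg (ε / 4) (by positivity)
  have hd := hg'.sub (GfL.bm_sum univ fun j _ => hT _ (ha j))
  have bm : ∀ j M, BM X.μ X.ms fun x => tav ν X (a j) M (b M x) x - tav ν' X (a j) M (b M x) x :=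
    fun j M => (bmt t (hT _ (ha j)) (hb M) ν M).sub (bmt t (hT _ (ha j)) (hb M) ν' M)
  refine ⟨_, fun M x => tav ν X (fun y => g y - ∑ j, a j y) M (b M x) x -
    tav ν' X (fun y => g y - ∑ j, a j y) M (b M x) x,
    GfL.sm_sum univ bm fun j => h2 _ (ha j) b hb, fun M => ⟨GfL.bm_sum _ fun j _ => bm j M,
      (bmt t hd (hb M) ν M).sub (bmt t hd (hb M) ν' M), ?_⟩, fun M x => ?_⟩
  · linarith [GfL.n2_sub (bmt t hd (hb M) ν M) (bmt t hd (hb M) ν' M), contr t hd (hb M) ν M,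
      contr t hd (hb M) ν' M]
  · rw [tav_split (ν := ν) g a, tav_split (ν := ν') g a, sum_sub_distrib]
    ring

end US

open US

theorem pick : Pick := by
  classical
  intro Ω m φ η hη hm hc hb
  obtain ⟨q, hq⟩ : ∃ q : ℕ → ℝ, DenseRange q := ⟨_, TopologicalSpace.denseRange_denseSeq ℝ⟩
  have hex : ∀ x, ∃ n, ∀ k, ‖φ (q k) x‖ ^ 2 ≤ ‖φ (q n) x‖ ^ 2 + η := by
    intro x
    obtain ⟨K, hK⟩ := hb x
    have hbd : BddAbove (Set.range fun k => ‖φ (q k) x‖ ^ 2) :=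
      ⟨K ^ 2, by
        rintro _ ⟨k, rfl⟩
        exact pow_le_pow_left₀ (norm_nonneg _) (hK _) 2⟩
    obtain ⟨n, hn⟩ := exists_lt_of_lt_ciSup (f := fun k => ‖φ (q k) x‖ ^ 2)
      (sub_lt_self (⨆ k, ‖φ (q k) x‖ ^ 2) hη)
    exact ⟨n, fun k => by linarith [le_ciSup hbd k]⟩
  refine ⟨fun x => q (Nat.find (hex x)), ?_, fun x t => ?_⟩
  · refine Measurable.find (f := fun n _ => q n) (fun _ => measurable_const) (fun n => ?_) hex
    rw [Set.ofPred_forall]
    exact MeasurableSet.iInter fun k => measurableSet_le ((hm _).norm.pow_const 2)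
      (((hm _).norm.pow_const 2).add_const η)
  · exact hq.induction_on (p := fun t => ‖φ t x‖ ^ 2 ≤ ‖φ (q (Nat.find (hex x))) x‖ ^ 2 + η) t
      (isClosed_le ((hc x).norm.pow 2) continuous_const) (Nat.find_spec (hex x))

theorem drop : DropR := by
  intro F hp ν X C G M b η hC hG hb hη
  have hc : BM X.μ C (X.μ[G | C]) := hG.ce C
  have hc' := hc.mono hC.le
  have hm : Measurable[C] (X.μ[G | C]) := stronglyMeasurable_condExp.measurable
  have hT : ∀ d : ℤ, @Measurable _ _ C C (X.Tz d) := fun d =>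
    measurable_iff_comap_le.2 (F.t.inv X C d hC).le
  obtain ⟨b', h1, h2⟩ := hp X.X C (fun t x => tav ν X (X.μ[G | C]) M t x) η hη
    (fun t => Finset.measurable_fun_sum _ fun d _ =>
      ((hm.comp (hT d)).mul_const _).const_smul (ν.w M d))
    (fun x => continuous_finsetSum _ fun d _ => (continuous_const.mul
      (cont_ee.comp (continuous_const.mul continuous_id))).const_smul (ν.w M d))
    fun x => ⟨∑ d ∈ ν.sp M, ‖ν.w M d‖ * ‖(X.μ[G | C]) (X.Tz d x)‖, fun t =>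
      (norm_sum_le _ _).trans (le_of_eq (sum_congr rfl fun d _ => by
        rw [norm_smul, norm_mul, norm_ee, mul_one]))⟩
  have h1' : Measurable[X.ms] b' := h1.mono hC.le le_rfl
  refine ⟨b', h1', ?_⟩
  have hv := bmt F.t hG h1' ν M
  have e1 : X.μ[fun x => tav ν X G M (b' x) x | C] =ᵐ[X.μ]
      fun x => tav ν X (X.μ[G | C]) M (b' x) x := by
    refine Fib27.ce_eq_of_tests hC.le hv (bm_tav F.t hC hc h1 ν M) fun t ht => ?_
    refine (CptA.int_wsum (ν.sp M) (ν.w M) (fun d _ => (CptA.bmT F hG d).mul (bm_ee h1' d))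
      (ht.mono hC.le)).trans (Eq.trans ?_ (CptA.int_wsum (ν.sp M) (ν.w M)
        (fun d _ => (CptA.bmT F hc' d).mul (bm_ee h1' d)) (ht.mono hC.le)).symm)
    refine Finset.sum_congr rfl fun d _ => congrArg _ ?_
    simp only [mul_assoc]
    rw [← Fib27.int_ce_mul hC.le (CptA.bmT F hG d) ((bm_ee h1 d).mul ht)]
    refine integral_congr_ae ?_
    filter_upwards [F.t.ce X C d G hC hG.integrable] with x hx
    rw [hx]
  have e2 := (F.d.eqn C X.ms X.μ hC.le le_rfl _ (hv.memLp 2)).1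
  have e3 : ∫ x, ‖tav ν X (X.μ[G | C]) M (b' x) x‖ ^ 2 ∂X.μ ≤
      ∫ x, ‖tav ν X G M (b' x) x‖ ^ 2 ∂X.μ := by
    refine le_trans (le_of_eq (integral_congr_ae ?_)) (e2.trans (le_of_eq (integral_congr_ae ?_)))
    · filter_upwards [e1] with x hx
      rw [hx]
    · filter_upwards [hv.ce_self le_rfl] with x hx
      rw [hx]
  have e4 := integral_mono (GfL.isq (bmt F.t hc' hb ν M))
    ((GfL.isq (bmt F.t hc' h1' ν M)).add (integrable_const η)) fun x => h2 x (b x)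
  simp only [Pi.add_apply] at e4
  rw [integral_add (GfL.isq (bmt F.t hc' h1' ν M)) (integrable_const η), integral_const,
    probReal_univ, one_smul] at e4
  linarith

theorem ugf : UGfR := by
  intro F _
  have t := F.t
  refine ⟨fun ν ν' X C T hC hT h1 h2 => dense t hC hT h1 h2, fun ν ν' X 𝒞 hne hch h => ?_,
    fun ν ν' X X' e he h hg f hf b hb => ?_, fun ν ν' X f hf h1 h2 b hb => ?_,
    fun ν ν' X f f1 f2 k1 k2 k h1 h2 b hb => ?_⟩
  · have hle := (t.fsSup X 𝒞 hne fun C hC => (h C hC).1).le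
    refine dense t (T := {φ | ∃ C ∈ 𝒞, BM X.μ C φ}) hle
      (fun φ ⟨C, hC, hφ⟩ => hφ.mono (h C hC).1.le) (fun g hg ε hε => ?_)
      fun f ⟨C, hC, hf⟩ => (h C hC).2 f hf
    obtain ⟨C, hC, k⟩ := F.d.chain 𝒞 X.μ hne hch.directedOn (fun C hC => (h C hC).1.le) g
      ((hg.mono hle).memLp 2) ε hε
    refine ⟨1, fun _ => X.μ[g | C], fun _ => ⟨C, hC, hg.ce C⟩, le_trans (le_of_eq ?_)
      (k C hC le_rfl)⟩
    refine integral_congr_ae ?_
    filter_upwards [BM.ce_self hle hg] with x hx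
    rw [hx, Fin.sum_univ_one]
  · obtain ⟨f', k1, k2⟩ : ∃ f' : X'.X → ℂ, BM X'.μ X'.ms f' ∧ f =ᵐ[X.μ] fun x => f' (e x) := by
      obtain ⟨k1, C, hC⟩ := hf
      obtain ⟨f0, a1, a2, a3⟩ := F.a.rep X.ms X.μ f (max C 0) (le_max_right _ _) k1
        (hC.mono fun _ h => h.trans (le_max_left _ _))
      obtain ⟨f', ⟨b1, C', b2⟩, b3⟩ := h f0 ⟨a1, _, a2⟩
      exact ⟨f', ⟨b1.aestronglyMeasurable, C', Eventually.of_forall b2⟩, by simpa only [b3]⟩
    have k3 : ∀ M, ∃ b' : X'.X → ℝ, Measurable b' ∧ ∀ x, b' (e x) = Int.fract (b M x) := fun M => by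
      obtain ⟨u, ⟨u1, -⟩, u2⟩ := h (fun x => ((Int.fract (b M x) : ℝ) : ℂ))
        ⟨Complex.measurable_ofReal.comp (hb M).fract, 1, fun x => by
          rw [Complex.norm_real, Real.norm_of_nonneg (Int.fract_nonneg _)]
          exact (Int.fract_lt_one _).le⟩
      exact ⟨fun y => (u y).re, Complex.measurable_re.comp u1, fun x => by
        simp only [u2, Complex.ofReal_re]⟩
    choose b' k4 k5 using k3
    have e1 : ∀ (ν : Wt) M, (fun x => tav ν X f M (b M x) x) =ᵐ[X.μ]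
        fun x => tav ν X' f' M (b' M (e x)) (e x) := fun ν M => by
      filter_upwards [tav_congr t k2 (b M) ν M,
        ae_all_iff.2 fun n : ℤ => F.a.keq_fun X'.ms X.μ X'.μ _ _ f' (he.mp.comp (t.mp X n))
          ((t.mp X' n).comp he.mp) (t.emb_z X X' e n he) k1.1] with x h1 h2
      rw [h1]
      simp only [tav_eq, k5, ee_fract]
      exact sum_congr rfl fun d _ => congrArg (fun z => ν.w M d • (z * _)) (h2 d)
    refine (hg f' k1 b' k4).congr fun M => ?_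
    rw [← GfL.int_comp he.mp (GfL.isq ((bmt t k1 (k4 M) ν M).sub (bmt t k1 (k4 M) ν' M))).1]
    refine integral_congr_ae ?_
    filter_upwards [e1 ν M, e1 ν' M] with x h1 h2
    rw [h1, h2]
  · exact GfL.sm_of (μ := X.μ) (h1 b hb) (h2 b hb) fun M =>
      GfL.n2_sub (bmt t hf (hb M) ν M) (bmt t hf (hb M) ν' M)
  · refine GfL.sm_of (μ := X.μ) (h1 b hb) (h2 b hb) fun M => le_trans (le_of_eq ?_)
      (GfL.n2_add ((bmt t k1 (hb M) ν M).sub (bmt t k1 (hb M) ν' M))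
        ((bmt t k2 (hb M) ν M).sub (bmt t k2 (hb M) ν' M)))
    refine integral_congr_ae ?_
    filter_upwards [tav_congr t k (b M) ν M, tav_congr t k (b M) ν' M] with x e1 e2
    rw [e1, e2, tav_add, tav_add]
    congr 2
    ring

namespace US

open CptA

theorem rpIntT (F : Fd) {X Z : Sys} {J : Type} [Fintype J] {j0 : J} {q : Z.X → X.X}
    (hq : Emb Z X q) {W : Sys} {P : J → W.X → Z.X}
    (hW : IsRP (fun _ : J => Z) X X.ms (fun _ => q) j0 W P)
    (G : J → Z.X → ℂ) (u : J → X.X → ℂ) (hG : ∀ j, BM Z.μ Z.ms (G j))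
    (hu : ∀ j, BM X.μ X.ms (u j))
    (h : ∀ j, (fun z => u j (q z)) =ᵐ[Z.μ] Z.μ[G j | pull Z.μ q X.ms]) {τ : X.X → ℂ}
    (hτ : BM X.μ X.ms τ) :
    ∫ w, τ (q (P j0 w)) * ∏ j, G j (P j w) ∂W.μ = ∫ x, τ x * ∏ j, u j x ∂X.μ := by
  have hm : ∀ j, MeasurePreserving (q ∘ P j) W.μ X.μ := fun j => hq.mp.comp (hW.emb j).mp
  have h0 := Fib27.int_mul_ce (F.a.pull_le X.ms W.μ X.μ _ (hm j0) le_rfl)
    (F.a.bm_comp X.ms W.μ X.μ _ τ (hm j0) hτ)
    (bm_prod (μ := W.μ) univ fun j _ => bmc F (hW.emb j).mp (hG j))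
  refine h0.symm.trans ?_
  rw [← intc (hm j0) (hτ.mul (bm_prod univ fun j _ => hu j))]
  refine integral_congr_ae ?_
  have h1 : ∀ j, ∀ᵐ w ∂W.μ, (Z.μ[G j | pull Z.μ q X.ms]) (P j w) = u j ((q ∘ P j0) w) := by
    intro j
    have h2 := (hW.emb j).mp.quasiMeasurePreserving.ae_eq_comp (h j)
    have h3 := F.a.keq_fun X.ms W.μ X.μ _ _ (u j) (hm j) (hm j0) (hW.com j) (hu j).1
    exact h2.symm.trans h3
  filter_upwards [ae_all_iff.2 h1, hW.ind univ G fun j _ => hG j] with w hw h2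
  rw [h2]
  exact congrArg _ (Finset.prod_congr rfl fun j _ => hw j)

end US

open CptA in
theorem keyT : KeyR := by
  intro F X Z C p hC hP H0 g0 k0 a1 a2 a3 a4
  let H : Bool → Z.X → ℂ := fun j => cond j H0 fun z => conj (H0 z)
  let g : Bool → X.X → ℂ := fun j => cond j g0 fun z => conj (g0 z)
  let k : Bool → X.X → ℂ := fun j => cond j k0 fun z => conj (k0 z)
  have h : ∀ j, BM Z.μ (T3x.Inv Z) (H j) ∧ BM X.μ X.ms (g j) ∧ BM X.μ X.ms (k j) ∧
      Star p (H j) (g j) (k j) := by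
    rintro (_ | _)
    · exact ⟨a1.conj, a2.conj, a3.conj, starC F hP (a1.mono (F.t.finv Z).le) a2 a4⟩
    · exact ⟨a1, a2, a3, a4⟩
  obtain ⟨W, P, hW⟩ := F.rp Bool (fun _ => Z) X X.ms (fun _ => p false) true (fun _ => hP.nice)
    (F.t.top X) (fun _ => (hP.emb false).mp) fun _ => F.t.emb_z Z X _ 1 (hP.emb false)
  have hH : ∀ j, BM Z.μ Z.ms (H j) := fun j => (h j).1.mono (F.t.finv Z).le
  have hΦ : BM W.μ W.ms fun w => ∏ j, H j (P j w) :=
    bm_prod univ fun j _ => bmc F (hW.emb j).mp (hH j)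
  obtain ⟨-, K, hK⟩ := id hΦ
  refine ⟨max K 0 ^ 2, sq_nonneg _, fun N hN d d' τ hτ => ?_⟩
  let ρ : Bool → ℤ := fun j => cond j d d'
  have hgz : ∀ j (n : ℤ), BM Z.μ Z.ms fun z => g j (X.Tz n (X.Tz (ρ j) (p true z))) := fun j n =>
    bmc F (hP.emb true).mp (bmT F (bmT F (h j).2.1 n) (ρ j))
  let Ψ : ℕ → W.X → ℂ := fun n w => τ (X.Tz n (p false (P true w))) *
    ∏ j, g j (X.Tz n (X.Tz (ρ j) (p true (P j w))))
  have hΨ : ∀ n, BM W.μ W.ms (Ψ n) := fun n =>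
    (bmc F (hW.emb true).mp (bmc F (hP.emb false).mp (bmT F hτ n))).mul
      (bm_prod univ fun j _ => bmc F (hW.emb j).mp (hgz j n))
  have e1 : ∀ n : ℕ, ∫ w, Ψ n w * ∏ j, H j (P j w) ∂W.μ =
      ∫ x, τ x * (k0 (X.Tz d x) * conj (k0 (X.Tz d' x))) ∂X.μ := by
    intro n
    have h1 := rpIntT F (hP.emb false) hW
      (fun j z => H j z * g j (X.Tz n (X.Tz (ρ j) (p true z))))
      (fun j x => k j (X.Tz n (X.Tz (ρ j) x))) (fun j => (hH j).mul (hgz j n))
      (fun j => bmT F (bmT F (h j).2.2.1 n) (ρ j)) (fun j =>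
        starT F hP (h j).1 (bmT F (h j).2.1 n) (bmT F (h j).2.2.1 n)
          (starT F hP (h j).1 (h j).2.1 (h j).2.2.1 (h j).2.2.2 n) (ρ j)) (bmT F hτ n)
    simp only [Finset.prod_mul_distrib] at h1
    rw [← intc (F.t.mp X n) (hτ.mul ((bmT F a3 d).mul (bmT F a3 d').conj))]
    refine Eq.trans (integral_congr_ae (Eventually.of_forall fun w => ?_)) (h1.trans ?_)
    · simp only [Ψ]
      ring
    · simp only [Fintype.prod_bool, k, ρ, cond_true, cond_false, ← F.t.add, add_comm]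
  have e2 : ∀ n n' : ℕ, ∫ w, Ψ n w * conj (Ψ n' w) ∂W.μ =
      ∫ x, τ (X.Tz n x) * conj (τ (X.Tz n' x)) *
        ((X.μ[fun y => g0 (X.Tz n y) * conj (g0 (X.Tz n' y)) | C]) (X.Tz d x) *
          conj ((X.μ[fun y => g0 (X.Tz n y) * conj (g0 (X.Tz n' y)) | C]) (X.Tz d' x))) ∂X.μ := by
    intro n n'
    have hb : ∀ j, BM X.μ X.ms fun y => g j (X.Tz n y) * conj (g j (X.Tz n' y)) := fun j =>
      (bmT F (h j).2.1 n).mul (bmT F (h j).2.1 n').conj
    have h1 := rpIntT F (hP.emb false) hW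
      (fun j z => g j (X.Tz n (X.Tz (ρ j) (p true z))) *
        conj (g j (X.Tz n' (X.Tz (ρ j) (p true z)))))
      (fun j x => (X.μ[fun y => g j (X.Tz n y) * conj (g j (X.Tz n' y)) | C]) (X.Tz (ρ j) x))
      (fun j => (hgz j n).mul (hgz j n').conj)
      (fun j => bmT F (((hb j).ce C).mono hC.le) (ρ j)) (fun j => by
        refine EventuallyEq.trans ?_ (pairCE F hC hP (bmT F (hb j) (ρ j)))
        exact aec (hP.emb false).mp (F.t.ce X C (ρ j) _ hC (hb j).integrable).symm)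
      ((bmT F hτ n).mul (bmT F hτ n').conj)
    refine Eq.trans (integral_congr_ae (Eventually.of_forall fun w => ?_)) (h1.trans ?_)
    · simp only [Ψ, map_mul, map_prod, Finset.prod_mul_distrib]
      ring
    · have h2 := aeT F (Fib27.ce_conj hC.le (hb true)) d'
      refine integral_congr_ae ?_
      filter_upwards [h2] with x hx
      simp only [g, cond_true, map_mul] at hx
      simp only [Fintype.prod_bool, g, ρ, cond_true, cond_false, hx]
  have hN' : (N : ℂ) ≠ 0 := by exact_mod_cast (by omega : N ≠ 0)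
  have e3 : ∫ x, τ x * (k0 (X.Tz d x) * conj (k0 (X.Tz d' x))) ∂X.μ =
      ∫ w, (∑ n ∈ range N, (N : ℝ)⁻¹ • Ψ n w) * ∏ j, H j (P j w) ∂W.μ := by
    rw [int_wsum (range N) (fun _ => (N : ℝ)⁻¹) (fun n _ => hΨ n) hΦ]
    simp only [e1, Finset.sum_const, Finset.card_range, nsmul_eq_mul]
    push_cast
    rw [← mul_assoc, mul_inv_cancel₀ hN', one_mul]
  rw [e3]
  refine (cs (le_max_right K 0) (hK.mono fun w hw => hw.trans (le_max_left _ _))
    (bm_wsum (range N) (fun _ => (N : ℝ)⁻¹) fun n _ => hΨ n)).trans (le_of_eq ?_)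
  rw [sq_wsum (range N) (fun _ => (N : ℝ)⁻¹) fun n _ => hΨ n]
  simp only [e2]

namespace US

open CptA

theorem sq_tav (F : Fd) {X : Sys} (ν : Wt) (M : ℕ) {f : X.X → ℂ} (hf : BM X.μ X.ms f)
    {b : X.X → ℝ} (hb : Measurable[X.ms] b) :
    ∫ x, ‖tav ν X f M (b x) x‖ ^ 2 ∂X.μ = ∑ d ∈ ν.sp M, ∑ d' ∈ ν.sp M, ν.w M d * ν.w M d' *
      (∫ x, ee (d * b x) * conj (ee (d' * b x)) * (f (X.Tz d x) * conj (f (X.Tz d' x)))
        ∂X.μ).re := by
  have := sq_wsum (μ := X.μ) (ν.sp M) (ν.w M) (f := fun d x => f (X.Tz d x) * ee (d * b x))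
    fun d _ => (bmT F hf d).mul (bm_ee hb d)
  refine this.trans (sum_congr rfl fun d _ => sum_congr rfl fun d' _ => ?_)
  congr 3
  funext x
  rw [map_mul]
  ring

theorem core (F : Fd) (hk : KeyT) (hd : Drop) {ν' ν'' : Wt} {X Z : Sys}
    {B0 C : MeasurableSpace X.X} {p : Bool → Z.X → X.X} (hB : B0 ≤ C) (hC : Fac X C)
    (hP : Pair X C Z p) (hGood : UG ν'' ν' X C) (hG0 : TG0 ν' X B0) (H : Z.X → ℂ)
    (g k : X.X → ℂ) (a1 : BM Z.μ (T3x.Inv Z) H) (a2 : BM X.μ X.ms g) (a3 : BM X.μ X.ms k)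
    (a4 : Star p H g k) (hg1 : ∀ᵐ x ∂X.μ, ‖g x‖ ≤ 1) (h0 : X.μ[g | C] =ᵐ[X.μ] 0) :
    U0 ν'' X k := by
  intro b hb
  obtain ⟨K, hK, hkey⟩ := hk X Z C p hC hP H g k a1 a2 a3 a4
  let G : ℕ → ℕ → X.X → ℂ := fun n n' y => g (X.Tz n y) * conj (g (X.Tz n' y))
  have hG : ∀ n n', BM X.μ X.ms (G n n') := fun n n' => (bmT F a2 n).mul (bmT F a2 n').conj
  have hc : ∀ n n', BM X.μ C (X.μ[G n n' | C]) := fun n n' => (hG n n').ce C
  have hc' : ∀ n n', BM X.μ X.ms (X.μ[G n n' | C]) := fun n n' => (hc n n').mono hC.le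
  let β : ℕ → ℕ → ℕ → X.X → ℝ := fun n n' M x => b M (X.Tz n x) - b M (X.Tz n' x)
  have hβ : ∀ n n' M, Measurable[X.ms] (β n n' M) := fun n n' M =>
    (msh F.t (hb M) n n')
  have main : ∀ N M, 1 ≤ N → (∫ x, ‖tav ν'' X k M (b M x) x‖ ^ 2 ∂X.μ) ^ 2 ≤
      K * ∑ n ∈ range N, ∑ n' ∈ range N, (N : ℝ)⁻¹ * (N : ℝ)⁻¹ *
        ∫ x, ‖tav ν'' X (X.μ[G n n' | C]) M (β n n' M x) x‖ ^ 2 ∂X.μ := by
    intro N M hN
    rw [sq_tav F ν'' M a3 (hb M)]
    refine (jensen _ _ (ν''.nn M) (ν''.one M) _ _ fun d d' => le_trans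
      ((sq_abs _).symm.trans_le (pow_le_pow_left₀ (abs_nonneg _) (Complex.abs_re_le_norm _) 2))
      (hkey N hN d d' (fun x => ee (d * b M x) * conj (ee (d' * b M x)))
        ((bm_ee (hb M) d).mul (bm_ee (hb M) d').conj))).trans (le_of_eq ?_)
    simp only [sq_tav F ν'' M (hc' _ _) (hβ _ _ M), Finset.mul_sum]
    simp only [Finset.sum_comm (s := ν''.sp M) (t := range N)]
    refine Finset.sum_congr rfl fun n _ => Finset.sum_congr rfl fun n' _ =>
      Finset.sum_congr rfl fun d _ => Finset.sum_congr rfl fun d' _ => ?_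
    have e : (fun x => ee (d * b M (X.Tz n x)) * conj (ee (d' * b M (X.Tz n x))) *
        conj (ee (d * b M (X.Tz n' x)) * conj (ee (d' * b M (X.Tz n' x)))) *
        ((X.μ[G n n' | C]) (X.Tz d x) * conj ((X.μ[G n n' | C]) (X.Tz d' x)))) =
        fun x => ee (d * β n n' M x) * conj (ee (d' * β n n' M x)) *
          ((X.μ[G n n' | C]) (X.Tz d x) * conj ((X.μ[G n n' | C]) (X.Tz d' x))) := by
      funext x
      simp only [β, ee_sub, map_mul]
      ring
    rw [e]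
    ring
  have hB0 : X.μ[g | B0] =ᵐ[X.μ] 0 := by
    refine (condExp_condExp_of_le hB hC.le).symm.trans ((condExp_congr_ae h0).trans ?_)
    rw [condExp_zero]
  refine tendsto_order.2 ⟨fun a ha => Eventually.of_forall fun M =>
    ha.trans_le (integral_nonneg fun x => by positivity), fun ε hε => ?_⟩
  have hδ : 0 < ε ^ 2 / (8 * K + 1) := by positivity
  obtain ⟨N, a, hN, ha, hs⟩ := hG0 g a2 hg1 hB0 _ hδ
  have hev : ∀ n ∈ range N, ∀ n' ∈ range N, ∀ᶠ M in atTop,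
      ∫ x, ‖tav ν'' X (X.μ[G n n' | C]) M (β n n' M x) x‖ ^ 2 ∂X.μ ≤
        6 * (ε ^ 2 / (8 * K + 1)) + 2 * a n n' := by
    intro n _ n' _
    filter_upwards [(tendsto_order.1 (hGood _ (hc n n') (β n n') (hβ n n'))).2 _ hδ,
      hs n n' _ hδ] with M h1 h2
    have h3 := sq_le_two (bmt F.t (hc' n n') (hβ n n' M) ν'' M) (bmt F.t (hc' n n') (hβ n n' M) ν' M)
    obtain ⟨b', h4, h5⟩ := hd ν' X C (G n n') M (β n n' M) _ hC (hG n n') (hβ n n' M) hδ
    have h6 := h2 b' h4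
    linarith
  filter_upwards [(Finset.eventually_all _).2 fun n hn => (Finset.eventually_all _).2 (hev n hn)]
    with M hM
  have hN' : (0 : ℝ) < N := by exact_mod_cast hN
  have h5 : ∑ n ∈ range N, ∑ n' ∈ range N, (N : ℝ)⁻¹ * (N : ℝ)⁻¹ *
      ∫ x, ‖tav ν'' X (X.μ[G n n' | C]) M (β n n' M x) x‖ ^ 2 ∂X.μ ≤
      8 * (ε ^ 2 / (8 * K + 1)) := by
    refine (Finset.sum_le_sum fun n hn => Finset.sum_le_sum fun n' hn' =>
      mul_le_mul_of_nonneg_left (hM n hn n' hn') (by positivity)).trans ?_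
    simp only [← Finset.mul_sum, Finset.sum_add_distrib, Finset.sum_const, Finset.card_range,
      nsmul_eq_mul]
    calc _ = (N : ℝ)⁻¹ * (N : ℝ)⁻¹ * (N * (N * (6 * (ε ^ 2 / (8 * K + 1)))) +
          2 * ∑ n ∈ range N, ∑ n' ∈ range N, a n n') := by ring
      _ ≤ (N : ℝ)⁻¹ * (N : ℝ)⁻¹ * (N * (N * (6 * (ε ^ 2 / (8 * K + 1)))) +
          2 * (ε ^ 2 / (8 * K + 1) * N ^ 2)) := by gcongr
      _ = _ := by
        field_simp
        ring
  have h6 := (main N M hN).trans (mul_le_mul_of_nonneg_left h5 hK)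
  have h7 : K * (8 * (ε ^ 2 / (8 * K + 1))) < ε ^ 2 := by
    have : ε ^ 2 = (8 * K + 1) * (ε ^ 2 / (8 * K + 1)) := by field_simp
    linarith
  exact lt_of_pow_lt_pow_left₀ 2 hε.le (h6.trans_lt h7)

end US

theorem ucptA : UCptAR := by
  intro F hk hd ν' ν'' X B0 C Z p hX hB0 hC hB hP hGood hG0 H g k a1 a2 a3 a4 h0
  obtain ⟨L, hL, hLg⟩ : ∃ L : ℝ, 0 < L ∧ ∀ᵐ x ∂X.μ, ‖g x‖ ≤ L := by
    obtain ⟨L, hL⟩ := a2.2
    exact ⟨max L 1, lt_max_of_lt_right one_pos, hL.mono fun x hx => hx.trans (le_max_left _ _)⟩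
  have hL' : (L : ℂ) ≠ 0 := by exact_mod_cast hL.ne'
  refine core F hk hd hB hC hP hGood hG0 (fun z => (L : ℂ) * H z)
    (fun x => (L : ℂ)⁻¹ * g x) k (a1.cmul _) (a2.cmul _) a3 ?_ ?_ ?_
  · have e : (fun z => (L : ℂ) * H z * ((L : ℂ)⁻¹ * g (p true z))) =
        fun z => H z * g (p true z) := by
      funext z
      field_simp
    unfold T3x.Star
    rw [e]
    exact a4
  · filter_upwards [hLg] with x hx
    rw [norm_mul, norm_inv, Complex.norm_real, Real.norm_of_nonneg hL.le,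
      inv_mul_le_iff₀ hL, mul_one]
    exact hx
  · refine (Fib27.ce_cmul hC.le _ a2).trans ?_
    filter_upwards [h0] with x hx
    simp [hx]

open GfL in
theorem ucpt : UCptR := by
  intro F G hA ν ν' X B0 C hX hB hC hBC hI hg h0
  obtain ⟨Z, p, hp⟩ : ∃ Z p, Pair X C Z p := F.rp Bool (fun _ => X) X C (fun _ => id) false
    (fun _ => hX) hC (fun _ => (F.t.emb_id X).mp) fun _ _ _ => EventuallyEq.rfl
  have mp : ∀ b, @MeasurePreserving _ _ Z.ms X.ms (p b) Z.μ X.μ := fun b => (hp.emb b).mp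
  have hP := F.t.fpull Z X (p false) X.ms (hp.emb false) (F.t.top X)
  have b0 : ∀ c, BM X.μ X.ms c → BM Z.μ (pull Z.μ (p false) X.ms) fun z => c (p false z) :=
    fun c hc => F.a.bm_comp X.ms Z.μ X.μ _ c (mp false) hc
  have sw : ∀ c, BM X.μ C c → (fun z => c (p true z)) =ᵐ[Z.μ] fun z => c (p false z) :=
    fun c hc => F.a.keq_fun C Z.μ X.μ _ _ c (mp true) (mp false) (hp.com true) hc.1
  refine G.dense ν ν' X _ {k | BM X.μ X.ms k ∧ (BM X.μ C k ∨ ∃ H g, BM Z.μ (T3x.Inv Z) H ∧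
    BM X.μ X.ms g ∧ Star p H g k ∧ X.μ[g | C] =ᵐ[X.μ] 0)} (F.kb.fac X C hX hC).le
    (fun _ h => h.1) (fun k hk ε hε => ?_) fun f hf => ?_
  · obtain ⟨n, H, g, k', h1, h2⟩ := F.kb.span X C Z p hX hC hp k hk ε hε
    have key : ∀ i, ∃ k1 k2 : X.X → ℂ, BM X.μ C k1 ∧ (BM X.μ X.ms k2 ∧ ∃ g', BM X.μ X.ms g' ∧
        Star p (H i) g' k2 ∧ X.μ[g' | C] =ᵐ[X.μ] 0) ∧ k' i =ᵐ[X.μ] fun x => k1 x + k2 x := by
      intro i
      obtain ⟨a1, a2, a3, a4⟩ := h1 i
      have aH := a1.mono (F.t.finv Z).le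
      have hc := a2.ce C
      have hc' := hc.mono hC.le
      obtain ⟨k0, c1, c2⟩ := F.ka.star X C Z p hC hp _ _ aH (BM.const 1)
      obtain ⟨k2, d1, d2⟩ := F.ka.star X C Z p hC hp _ _ aH (a2.sub hc')
      simp only [T3x.Star, mul_one] at c2
      have hk0 : BM X.μ C k0 := by
        refine (c1.of_aesm ((F.t.inv_iff X k0 c1.1).2 (desc (mp false) (bm_comp X.mp c1) c1
          ?_))).mono hI
        have e1 := F.a.keq_fun X.ms Z.μ X.μ _ _ k0 (mpc (mp false) Z.mp) (mpc X.mp (mp false))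
          (hp.emb false).eqv c1.1
        have e2 := F.t.ce Z _ 1 (H i) hP aH.integrable
        simp only [F.t.one] at e2
        filter_upwards [e1, Z.mp.quasiMeasurePreserving.ae c2, e2, c2, condExp_congr_ae
          (m := pull Z.μ (p false) X.ms) ((F.t.inv_iff Z _ aH.1).1 a1.1)] with z z1 z2 z3 z4 z5
        exact z1.symm.trans (z2.trans (z3.symm.trans (z5.trans z4.symm)))
      refine ⟨fun x => (X.μ[g i | C]) x * k0 x, k2, hc.mul hk0, ⟨d1, _, a2.sub hc', d2, ?_⟩,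
        desc (mp false) a3 ((hc'.mul c1).add d1) ?_⟩
      · filter_upwards [condExp_sub a2.integrable hc'.integrable C, BM.ce_self hC.le hc]
          with x x1 x2
        exact x1.trans (by rw [Pi.sub_apply, x2, sub_self]; rfl)
      · have e1 : (fun z => H i z * g i (p true z)) =ᵐ[Z.μ]
            (fun z => (X.μ[g i | C]) (p false z) * H i z) +
              fun z => H i z * (g i (p true z) - (X.μ[g i | C]) (p true z)) := by
          filter_upwards [sw _ hc] with z hz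
          rw [Pi.add_apply, hz]
          ring
        filter_upwards [a4, condExp_congr_ae (m := pull Z.μ (p false) X.ms) e1, condExp_add
          ((bm_comp (mp false) hc').mul aH).integrable
          (aH.mul (bm_comp (mp true) (a2.sub hc'))).integrable (pull Z.μ (p false) X.ms),
          Fib27.ce_mul hP.le (b0 _ hc') aH, c2, d2] with z z1 z2 z3 z4 z5 z6
        rw [z1, z2, z3, Pi.add_apply, z4, z5, z6]
    choose k1 k2 a1 a2 a3 using key
    refine ⟨n + n, Fin.append k1 k2, fun i => ?_, le_trans (le_of_eq (integral_congr_ae ?_)) h2⟩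
    · refine Fin.addCases (fun j => ?_) (fun j => ?_) i
      · rw [Fin.append_left]; exact ⟨(a1 j).mono hC.le, Or.inl (a1 j)⟩
      · rw [Fin.append_right]; exact ⟨(a2 j).1, Or.inr ⟨H j, (a2 j).2.imp fun _ h =>
          ⟨(h1 j).1, h⟩⟩⟩
    · filter_upwards [ae_all_iff.2 a3] with x hx
      simp only [Fin.sum_univ_add, Fin.append_left, Fin.append_right, hx, sum_add_distrib]
  · rcases hf.2 with h | ⟨H, g, a1, a2, a3, a4⟩
    · exact hg f h
    · exact G.zero ν ν' X f hf.1 (hA ν' ν X B0 C Z p hX hB hC hBC hp hg h0 H g f a1 a2 hf.1 a3 a4)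
        (hA ν' ν' X B0 C Z p hX hB hC hBC hp (fun _ _ _ _ => by simp) h0 H g f a1 a2 hf.1 a3 a4)

theorem udetR : UDetR := by
  intro F G hC ν ν' c1 c2 hB X
  obtain ⟨X', e, hX, he, hf⟩ := F.nice0 X
  refine G.down ν ν' X X' e he hf ?_
  obtain ⟨B0, b1, b2, b3, b4⟩ := hB X'
  have hk := F.h.kc X' B0 hX b1
  have hg : UG ν ν' X' (hull X' B0) := F.h.ind X' B0 _ hX b1 b3
    (fun C k1 k2 k3 => hC ν ν' X' B0 C hX b1 k1 k2 (b2.trans k2) k3 b4)
    fun 𝒞 k1 k2 k3 => G.chain ν ν' X' 𝒞 k1 k2 fun C h => ⟨(k3 C h).1, (k3 C h).2.2⟩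
  intro f hf'
  have h1 := hf'.ce (hull X' B0)
  have h1' := h1.mono hk.1.le
  have h2 := hf'.sub h1'
  have h3 : X'.μ[fun x => f x - (X'.μ[f | hull X' B0]) x | hull X' B0] =ᵐ[X'.μ] 0 := by
    filter_upwards [condExp_sub hf'.integrable h1'.integrable (hull X' B0),
      BM.ce_self hk.1.le h1] with x x1 x2
    exact x1.trans (by rw [Pi.sub_apply, x2, sub_self]; rfl)
  exact G.add ν ν' X' f _ _ h1' h2 (Eventually.of_forall fun x => by ring) (hg _ h1)
    (G.zero ν ν' X' _ h2 (c1 X' _ _ hX hk h2 h3) (c2 X' _ _ hX hk h2 h3))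

/-- the structure part -/
theorem udet (F : Fd) : UDet :=
  udetR F (ugf F pick) (ucpt F (ugf F pick) (ucptA F (keyT F) (drop F pick)))

/-- the core theorem at finite level in the form that is used -/
theorem coreX {ν : Wt} (h : CoreF ν) : CoreX ν := fun X B f hX hB hf h0 b hb => by
  simpa only [one_mul, tav] using h X B f (fun _ _ _ => 1) b hX hB hf h0 (fun _ _ => measurable_const)
    (fun _ _ _ => by simp) hb

end T5u

end
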