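import Pool.Agent.MP_154433_an.t5.SpecV
import Pool.Agent.MP_154433_an.t6.Spec

/-! From one map to a direction of the plane lattice. -/

set_option autoImplicit false

open MeasureTheory Filter Topology
open Pool.Agent.MP_154433_an

noncomputable section

namespace T5u

lemma res_tz (X : T6.Sy) (u : T4S.Gm 2) (d : ℕ) (x : X.X) :
    (X.res u).Tz d x = X.A ((d : ℤ) • u) x := by
  induction d with
  | zero =>
    rw [Nat.cast_zero, zero_smul]
    exact (T3S.Tz_zero (X.res u).T x).trans (X.zero x).symm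
  | succ d ih =>
    rw [Nat.cast_succ, add_comm, add_smul, one_smul]
    refine (T3S.Tz_add (X.res u).T 1 d x).trans ((T3S.Tz_one (X.res u).T _).trans ?_)
    exact (congrArg (X.Tz u) ih).trans (X.add u _ x).symm

theorem to6 (w : ℕ → ℕ → ℝ) (h : UWy w) : T6.UWW w := by
  intro X u g b hg hb
  have := h (X.res u) g b ⟨hg.1.aestronglyMeasurable, 1, Eventually.of_forall hg.2⟩ hb
  simp only [res_tz] at this
  exact this

theorem as6 (h : MainV) (σ : ℕ → ℝ) (hσ : ∀ n, 0 ≤ σ n ∧ σ n ≤ 1) (ha : Antitone σ)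
    (hg : T3S.Gr σ 2) : T6.AS σ T6.UWW := fun Ω _ P _ E hE hind hP =>
  (h σ hσ ha hg Ω P E hE hind hP).mono fun _ hω => to6 _ hω

end T5u

end
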