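import Pool.Agent.MP_154433_an.t5.SpecV
import Pool.Agent.MP_154433_an.t5.UAe

/-! Almost surely the weights do not see twisted structured sequences. -/

set_option autoImplicit false

open MeasureTheory ProbabilityTheory Filter Topology Function Finset
open scoped BigOperators
open Pool.Agent.MP_154433_an

noncomputable section

namespace T5u

open T3x T5x

theorem aeV : AeVR := by
  intro h1 Ω _ P a ha h2
  have hm := h2 0 (fun _ => {fun _ => 1})
    (fun M c hc x => by rw [mem_singleton.1 hc]; simp) (fun M _ => by simp) 1 one_pos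
  have hs : ∀ᵐ ω ∂P, ∀ (J : ℕ) (b : Fin J → Fin 3 → ℤ) (j : ℕ), (∀ t i, b t i ≠ 0) →
      ∀ᶠ N : ℕ in atTop, ∀ (u : Fin J → ℤ → ℂ) (θ : ℕ → ℝ), (∀ t, u t ∈ T3S.CZ (b t) (N ^ 2)) →
        ∑ n ∈ range N, ‖∑ d ∈ range N, ((a ω d - 1 : ℝ) : ℂ) *
          ((∏ t, u t ((n : ℤ) + (d : ℤ))) * ee ((d : ℝ) * θ n))‖ ≤
          4 * (1 / ((j : ℝ) + 1)) * N * N := by
    simp only [ae_all_iff]
    intro J b j hb
    obtain ⟨C, S, s1, s2, s3⟩ := h1 J b hb (1 / ((j : ℝ) + 1)) (by positivity)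
    filter_upwards [h2 C S s1 s2 (1 / ((j : ℝ) + 1)) (by positivity), hm] with ω k1 k2
    filter_upwards [k1, k2, s3] with N m1 m2 m3 u θ hu
    obtain ⟨c, c1, c2⟩ := m3 u θ hu
    exact UAe.step (fun d => a ω d - 1) N _ c _ (by positivity)
      (fun n hn => m1 _ (c1 n hn)) c2 (UAe.mass _ (ha ω) N (m2 _ (mem_singleton_self _)))
  filter_upwards [hs] with ω hω
  have h3 : TStr (a ω) := fun J b hb ε hε => by
    obtain ⟨j, hj⟩ := exists_nat_one_div_lt (by positivity : 0 < ε / 4)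
    filter_upwards [hω J b j hb] with N hN u θ hu
    refine (hN u θ hu).trans ?_
    gcongr
    linarith
  exact ⟨h3, UAe.flat h3⟩

end T5u

end
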