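import Pool.Agent.MP_154433_an.t5.SpecV
import Pool.Agent.MP_154433_an.t5.USig

/-! Small atoms of the importance weights, and consequences of the stronger growth condition. -/

set_option autoImplicit false
set_option linter.unusedVariables false

open Filter Topology Finset
open Pool.Agent.MP_154433_an

noncomputable section

namespace T5u

namespace VAt

theorem lg1 (ε : ℝ) (hε : 0 < ε) : ∀ᶠ N : ℕ in atTop, Real.log ((N : ℝ) + 2) ≤ ε * N := by
  have h : Tendsto (fun N : ℕ => (N : ℝ) + 2) atTop atTop :=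
    tendsto_atTop_add_const_right _ _ tendsto_natCast_atTop_atTop
  filter_upwards [h.eventually (Real.isLittleO_log_id_atTop.bound (half_pos hε)),
    eventually_ge_atTop 2] with N h1 h2
  have h3 : (2 : ℝ) ≤ N := by exact_mod_cast h2
  rw [id, Real.norm_of_nonneg (show (0 : ℝ) ≤ N + 2 by linarith)] at h1
  have h4 := (le_abs_self _).trans h1
  nlinarith

theorem ind01 (p : ℕ → Prop) (d : ℕ) : 0 ≤ T3S.ind p d ∧ T3S.ind p d ≤ 1 := by
  unfold T3S.ind
  split_ifs <;> norm_num

end VAt

theorem atV : AtV := by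
  refine ⟨⟨fun ε hε => ?_, fun ε hε => Eventually.of_forall fun N t => ?_⟩,
    fun σ ρ p hρ ha hG => ⟨fun d => ?_, fun ε hε => ?_⟩⟩
  · filter_upwards [VAt.lg1 ε hε] with N h d hd
    rwa [one_mul]
  · simp only [sub_self, Complex.ofReal_zero, zero_mul, sum_const_zero, norm_zero]
    positivity
  · unfold iv
    split_ifs with h
    · exact div_nonneg (VAt.ind01 p d).1 ((hρ d).le.trans h)
    · exact zero_le_one
  · filter_upwards [VAt.lg1 ε hε, USig.key ρ hG ε hε] with N h0 h1 d hd
    unfold iv
    split_ifs with h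
    · have hN : (0 : ℝ) ≤ N := Nat.cast_nonneg N
      have h2 : 0 ≤ Real.log ((N : ℝ) + 2) := Real.log_nonneg (by linarith)
      have h5 : ε * N * ρ N ≤ ε * N * σ d :=
        mul_le_mul_of_nonneg_left ((ha hd.le).trans h) (by positivity)
      rw [div_mul_eq_mul_div, div_le_iff₀ ((hρ d).trans_le h)]
      nlinarith [(VAt.ind01 p d).2]
    · rwa [one_mul]

theorem grV : GrV := by
  intro σ hG
  have h1 : Tendsto (fun M : ℕ => Real.log M) atTop atTop :=
    Real.tendsto_log_atTop.comp tendsto_natCast_atTop_atTop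
  have h2 : T3S.Gr σ 1 := by
    refine (Tendsto.atTop_mul_atTop₀ hG h1).congr' ?_
    filter_upwards [h1.eventually_gt_atTop 0] with M hM
    field_simp
  refine ⟨h2, (Tendsto.atTop_mul_atTop₀ h2 h1).congr' ?_⟩
  filter_upwards [h1.eventually_gt_atTop 0] with M hM
  field_simp

end T5u

end
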