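import Pool.Agent.MP_154433_an.t5.SpecV

/-! The indices with a small probability do not matter. -/

set_option autoImplicit false

open MeasureTheory ProbabilityTheory Filter Topology Function Finset
open scoped BigOperators
open Pool.Agent.MP_154433_an

noncomputable section

namespace T5u

namespace VBad

open Classical in
/-- indicator of the bad indices -/
def bd (σ ρ : ℕ → ℝ) (d : ℕ) : ℝ := if ρ d ≤ σ d then 0 else 1

lemma one {σ ρ : ℕ → ℝ} (hσ : ∀ n, 0 ≤ σ n) (hρ : ∀ n, 0 < ρ n) (p : ℕ → Prop) (M d : ℕ) :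
    |T3S.yw σ p M d - σ d * (iv σ ρ p d - 1) / T3S.Wt σ M| ≤
      T3S.yw σ p M d * bd σ ρ d + 2 * (ρ d / T3S.Wt σ M) := by
  have hW : 0 ≤ T3S.Wt σ M := sum_nonneg fun n _ => hσ n
  have h1 := hρ d
  unfold iv bd T3S.yw
  split_ifs with h
  · have h2 : σ d ≠ 0 := (h1.trans_le h).ne'
    rw [mul_sub, mul_div_cancel₀ _ h2, mul_one, sub_self, abs_zero, mul_zero, zero_add]
    positivity
  · rw [sub_self, mul_zero, zero_div, sub_zero, mul_one, abs_div, abs_of_nonneg hW, ← mul_div_assoc,
      ← add_div]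
    refine div_le_div_of_nonneg_right (abs_le.2 ⟨?_, ?_⟩) hW
    · have : 0 ≤ T3S.ind p d := by unfold T3S.ind; split_ifs <;> norm_num
      linarith [not_le.1 h]
    · linarith

end VBad

open VBad

theorem badV : BadR := by
  intro ub σ ρ hσ hρ hg _ hr Ω _ P _ E hE hi hP
  have h := fun j : ℕ => ub σ hσ Ω P E hE hi hP 1 le_rfl hg 0
    (fun _ => {fun d => (bd σ ρ d : ℂ)})
    (fun _ c hc d => by
      rw [mem_singleton.1 hc]
      by_cases h : ρ d ≤ σ d <;> simp [bd, h])
    (fun _ _ => by simp) (1 / ((j : ℝ) + 1)) Nat.one_div_pos_of_nat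
  filter_upwards [ae_all_iff.2 h] with ω hω
  have h1 : Tendsto (fun M => ∑ d ∈ range M, T3S.yw σ (fun m => ω ∈ E m) M d * bd σ ρ d) atTop
      (𝓝 0) := by
    refine Metric.tendsto_nhds.2 fun ε hε => ?_
    obtain ⟨j, hj⟩ := exists_nat_one_div_lt hε
    filter_upwards [hω j] with M hM
    have h2 := hM _ (mem_singleton_self _)
    rw [dist_zero_right, ← Complex.norm_real]
    push_cast
    exact h2.trans_lt hj
  have h2 := h1.add (hr.const_mul 2)
  rw [mul_zero, add_zero] at h2
  refine squeeze_zero (fun M => sum_nonneg fun _ _ => abs_nonneg _) (fun M => ?_) h2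
  refine (sum_le_sum fun d _ => one (fun n => (hσ n).1) hρ _ M d).trans_eq ?_
  rw [sum_add_distrib, ← mul_sum, ← sum_div]
  rfl

end T5u

end
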