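import Pool.Agent.MP_154433_an.t5.SpecV
import Pool.Agent.MP_154433_an.t5.ULay

/-! Row VLay: Abel summation for a general sequence of weights; nearby signed weights. -/

set_option autoImplicit false
set_option linter.unusedVariables false
set_option warn.classDefReducibility false

open MeasureTheory ProbabilityTheory Filter Topology Function Finset ComplexConjugate
open scoped BigOperators
open Fib27 (BM)
open Pool.Agent.MP_154433_an

noncomputable section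

namespace T5u

open T3x T5x

namespace VLay

theorem bnd (Y : Sys) {g : Y.X → ℂ} (hg : BM Y.μ Y.ms g) :
    ∃ K : ℝ, ∀ (w : ℕ → ℝ) (k : ℕ) (b : Y.X → ℝ), Measurable b →
      Integrable (fun x => ‖∑ d ∈ range k, (w d : ℂ) * (g (Y.Tz d x) * ee ((d : ℝ) * b x))‖) Y.μ ∧
      ∫ x, ‖∑ d ∈ range k, (w d : ℂ) * (g (Y.Tz d x) * ee ((d : ℝ) * b x))‖ ∂Y.μ ≤
        (∑ d ∈ range k, |w d|) * K := by
  obtain ⟨h1, C, hC⟩ := hg
  refine ⟨C, fun w k b hb => ?_⟩
  have hmp : ∀ d : ℤ, MeasurePreserving (Y.Tz d) Y.μ Y.μ := fun d => T3S.Tz_mp Y.mp d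
  have hm : AEStronglyMeasurable
      (fun x => ∑ d ∈ range k, (w d : ℂ) * (g (Y.Tz d x) * ee ((d : ℝ) * b x))) Y.μ := by
    refine Finset.aestronglyMeasurable_fun_sum _ fun d _ => ?_
    exact aestronglyMeasurable_const.mul ((h1.comp_measurePreserving (hmp d)).mul
      (ULay.mee.measurable.comp (hb.const_mul _)).aestronglyMeasurable)
  have hae : ∀ᵐ x ∂Y.μ, ∀ d : ℕ, ‖g (Y.Tz d x)‖ ≤ C :=
    ae_all_iff.2 fun d => (hmp d).quasiMeasurePreserving.ae hC
  have hle : ∀ᵐ x ∂Y.μ, ‖∑ d ∈ range k, (w d : ℂ) * (g (Y.Tz d x) * ee ((d : ℝ) * b x))‖ ≤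
      (∑ d ∈ range k, |w d|) * C := by
    filter_upwards [hae] with x hx
    rw [sum_mul]
    refine (norm_sum_le _ _).trans (sum_le_sum fun d _ => ?_)
    rw [norm_mul, norm_mul, ULay.nee, mul_one, Complex.norm_real, Real.norm_eq_abs]
    exact mul_le_mul_of_nonneg_left (hx d) (abs_nonneg _)
  have hi := (Integrable.of_bound hm _ hle).norm
  refine ⟨hi, (integral_mono_ae hi (integrable_const _) hle).trans ?_⟩
  simp

end VLay

theorem layA : LayA := by
  intro σ a h0 hanti hW hS Y g b hg hb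
  obtain ⟨K, hK, hi⟩ := ULay.bnd a Y hg
  have hd : ∀ k, 0 ≤ σ k - σ (k + 1) := fun k => sub_nonneg.2 (hanti (Nat.le_succ k))
  rw [Metric.tendsto_atTop]
  intro ε hε
  obtain ⟨C, hC, hu⟩ := ULay.unif a Y hg (hS Y g hg) (show 0 < ε / 4 by positivity)
  obtain ⟨M0, hM0⟩ := eventually_atTop.1 (hW.eventually_ge_atTop (4 * (C * σ 0) / ε + 1))
  refine ⟨M0, fun M hM => ?_⟩
  have hW1 := hM0 M hM
  have hc0 : 0 ≤ C * σ 0 := mul_nonneg hC (h0 0)
  have hWp : 0 < T3S.Wt σ M := lt_of_lt_of_le (by positivity) hW1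
  rw [Real.dist_eq, sub_zero, abs_of_nonneg (integral_nonneg fun _ => norm_nonneg _)]
  have hpt : ∀ x, ‖∑ d ∈ range M, ((σ d * (a d - 1) / T3S.Wt σ M : ℝ) : ℂ) *
      (g (Y.Tz d x) * ee ((d : ℝ) * b M x))‖ ≤
      (T3S.Wt σ M)⁻¹ * (σ M * ‖sav a Y g M (b M x) x‖ +
        ∑ k ∈ range M, (σ k - σ (k + 1)) * ‖sav a Y g (k + 1) (b M x) x‖) := by
    intro x
    have e1 : ∑ d ∈ range M, ((σ d * (a d - 1) / T3S.Wt σ M : ℝ) : ℂ) *
          (g (Y.Tz d x) * ee ((d : ℝ) * b M x)) =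
        (((T3S.Wt σ M)⁻¹ : ℝ) : ℂ) * ∑ d ∈ range M, (σ d : ℂ) *
          (((a d - 1 : ℝ) : ℂ) * (g (Y.Tz d x) * ee ((d : ℝ) * b M x))) := by
      rw [mul_sum]
      refine sum_congr rfl fun d _ => ?_
      rw [div_eq_inv_mul]
      push_cast
      ring
    rw [e1, ULay.abel, norm_mul, Complex.norm_real, Real.norm_of_nonneg (inv_nonneg.2 hWp.le)]
    refine mul_le_mul_of_nonneg_left ((norm_add_le _ _).trans (add_le_add ?_ ?_))
      (inv_nonneg.2 hWp.le)
    · rw [norm_mul, Complex.norm_real, Real.norm_of_nonneg (h0 M)]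
      exact le_rfl
    · refine (norm_sum_le _ _).trans (sum_le_sum fun k _ => ?_)
      rw [norm_mul, ← Complex.ofReal_sub, Complex.norm_real, Real.norm_of_nonneg (hd k)]
      exact le_rfl
  have i1 : Integrable (fun x => σ M * ‖sav a Y g M (b M x) x‖) Y.μ :=
    (hi M _ (hb M)).1.const_mul _
  have i2 : ∀ k ∈ range M, Integrable
      (fun x => (σ k - σ (k + 1)) * ‖sav a Y g (k + 1) (b M x) x‖) Y.μ :=
    fun k _ => (hi (k + 1) _ (hb M)).1.const_mul _
  have i3 := integrable_finsetSum _ i2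
  have h1 := integral_mono_of_nonneg (μ := Y.μ) (Eventually.of_forall fun _ => norm_nonneg _)
    ((i1.add i3).const_mul (T3S.Wt σ M)⁻¹) (Eventually.of_forall hpt)
  refine lt_of_le_of_lt h1 ?_
  simp only [Pi.add_apply]
  rw [integral_const_mul, integral_add i1 i3, integral_finsetSum _ i2, integral_const_mul]
  simp only [integral_const_mul]
  have h2 : σ M * ∫ x, ‖sav a Y g M (b M x) x‖ ∂Y.μ ≤ σ M * (ε / 4 * M + C) :=
    mul_le_mul_of_nonneg_left (hu M _ (hb M)) (h0 M)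
  have h3 : ∑ k ∈ range M, (σ k - σ (k + 1)) * ∫ x, ‖sav a Y g (k + 1) (b M x) x‖ ∂Y.μ ≤
      ∑ k ∈ range M, (σ k - σ (k + 1)) * (ε / 4 * ((k + 1 : ℕ) : ℝ) + C) :=
    sum_le_sum fun k _ => mul_le_mul_of_nonneg_left (hu (k + 1) _ (hb M)) (hd k)
  have h4 := ULay.abel σ (fun _ => (1 : ℝ)) M
  simp only [mul_one, sum_const, card_range, nsmul_eq_mul] at h4
  have h5 : ∑ k ∈ range M, (σ k - σ (k + 1)) = σ 0 - σ M := sum_range_sub' σ M
  have h6 : ∑ k ∈ range M, (σ k - σ (k + 1)) * (ε / 4 * ((k + 1 : ℕ) : ℝ) + C) =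
      ε / 4 * ∑ k ∈ range M, (σ k - σ (k + 1)) * ((k + 1 : ℕ) : ℝ) + C * (σ 0 - σ M) := by
    rw [← h5, mul_sum, mul_sum, ← sum_add_distrib]
    exact sum_congr rfl fun k _ => by ring
  have h7 : T3S.Wt σ M = σ M * M + ∑ k ∈ range M, (σ k - σ (k + 1)) * ((k + 1 : ℕ) : ℝ) := h4
  have h8 : 4 * (C * σ 0) / ε * ε = 4 * (C * σ 0) := div_mul_cancel₀ _ hε.ne'
  have h9 := mul_le_mul_of_nonneg_right hW1 hε.le
  rw [inv_mul_lt_iff₀ hWp]
  have h10 : ε / 4 * T3S.Wt σ M = σ M * (ε / 4 * M) +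
      ε / 4 * ∑ k ∈ range M, (σ k - σ (k + 1)) * ((k + 1 : ℕ) : ℝ) := by
    rw [h7]
    ring
  have h11 := mul_pos hWp hε
  nlinarith

theorem nearV : NearV := by
  intro y y' hn h Y g b hg hb
  obtain ⟨K, hK⟩ := VLay.bnd Y hg
  have h1 := (h Y g b hg hb).add (hn.mul_const K)
  rw [zero_mul, add_zero] at h1
  refine squeeze_zero (fun M => integral_nonneg fun _ => norm_nonneg _) (fun M => ?_) h1
  have i1 := (hK (y' M) M _ (hb M)).1
  obtain ⟨i2, b2⟩ := hK (fun d => y M d - y' M d) M _ (hb M)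
  refine le_trans ?_ (add_le_add le_rfl b2)
  rw [← integral_add i1 i2]
  refine integral_mono (hK (y M) M _ (hb M)).1 (i1.add i2) fun x => ?_
  refine le_trans (le_of_eq ?_) (norm_add_le _ _)
  rw [← sum_add_distrib]
  refine congrArg _ (sum_congr rfl fun d _ => ?_)
  push_cast
  ring

end T5u

end
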