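import Pool.Agent.MP_154433_an.t5.SpecV

/-! A decreasing positive sequence above `log n / n` whose sums are negligible against a given
sequence of sums that beats the square of the logarithm. -/

set_option autoImplicit false

open Filter Topology Finset
open Pool.Agent.MP_154433_an

noncomputable section

namespace T5u

namespace VRho

/-- the basic sequence -/
def ll (n : ℕ) : ℝ := Real.log (n + 3) / (n + 3)

theorem three_le (n : ℕ) : Real.exp 1 ≤ (n : ℝ) + 3 := by
  have := Real.exp_one_lt_d9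
  have : (0 : ℝ) ≤ n := n.cast_nonneg
  linarith

theorem ll_pos (n : ℕ) : 0 < ll n := by
  have : (0 : ℝ) ≤ n := n.cast_nonneg
  exact div_pos (Real.log_pos (by linarith)) (by linarith)

theorem ll_anti : Antitone ll := fun m n h =>
  Real.log_div_self_antitoneOn (three_le m) (three_le n) (by simpa using h)

theorem ll_zero : Tendsto ll atTop (𝓝 0) :=
  Real.isLittleO_log_id_atTop.tendsto_div_nhds_zero.comp
    (tendsto_atTop_add_const_right _ 3 tendsto_natCast_atTop_atTop)

theorem ll_low {n : ℕ} (hn : 2 ≤ n) : 1 / 4 ≤ (n : ℝ) * ll n / Real.log n := by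
  have h2 : (2 : ℝ) ≤ n := by exact_mod_cast hn
  have h0 : 0 < Real.log n := Real.log_pos (by linarith)
  have h1 : Real.log n ≤ Real.log (n + 3) := Real.log_le_log (by linarith) (by linarith)
  rw [le_div_iff₀ h0, ll, ← mul_div_assoc, le_div_iff₀ (by linarith)]
  nlinarith

theorem ll_sum (M : ℕ) : ∑ d ∈ range M, ll d ≤ Real.log (M + 2) ^ 2 := by
  induction M with
  | zero => rw [sum_range_zero]; positivity
  | succ M ih =>
    have h0 : (0 : ℝ) ≤ M := M.cast_nonneg
    have h1 := Real.one_sub_inv_le_log_of_pos (x := ((M : ℝ) + 3) / (M + 2)) (by positivity)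
    rw [Real.log_div (by positivity) (by positivity), inv_div] at h1
    have h2 : 1 - ((M : ℝ) + 2) / (M + 3) = 1 / (M + 3) := by field_simp; ring
    have h3 : 0 ≤ Real.log (M + 2) := Real.log_nonneg (by linarith)
    have h4 : 0 ≤ Real.log (M + 3) := Real.log_nonneg (by linarith)
    have h5 : Real.log (M + 2) ≤ Real.log (M + 3) := Real.log_le_log (by linarith) (by linarith)
    have h6 : ll M ≤ Real.log (M + 3) * (Real.log (M + 3) - Real.log (M + 2)) := by
      rw [ll, div_eq_mul_one_div, ← h2]; exact mul_le_mul_of_nonneg_left h1 h4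
    rw [sum_range_succ, show ((M + 1 : ℕ) : ℝ) + 2 = M + 3 by push_cast; ring]
    nlinarith

theorem ll_sum' {M : ℕ} (hM : 2 ≤ M) : ∑ d ∈ range M, ll d ≤ 4 * Real.log M ^ 2 := by
  have h2 : (2 : ℝ) ≤ M := by exact_mod_cast hM
  have h1 : Real.log (M + 2) ≤ 2 * Real.log M := by
    rw [show 2 * Real.log M = Real.log ((M : ℝ) ^ 2) by simp]
    exact Real.log_le_log (by linarith) (by nlinarith)
  have h3 : 0 ≤ Real.log (M + 2) := Real.log_nonneg (by linarith)
  nlinarith [ll_sum M]

/-- a monotone sequence that tends to infinity below the square root of a given one -/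
theorem exists_J {u : ℕ → ℝ} (hu : Tendsto u atTop atTop) : ∃ J : ℕ → ℝ, Monotone J ∧
    (∀ n, 1 ≤ J n) ∧ Tendsto J atTop atTop ∧ ∀ n, J n ^ 2 ≤ max (u n) 1 := by
  let S : ℕ → Set ℝ := fun M => (fun m => max (u m) 1) '' Set.Ici M
  have ne : ∀ M, (S M).Nonempty := fun M => ⟨_, M, Set.mem_Ici.2 le_rfl, rfl⟩
  have lb : ∀ M, (1 : ℝ) ∈ lowerBounds (S M) := by
    rintro M _ ⟨m, -, rfl⟩; exact le_max_right _ _
  have one : ∀ M, 1 ≤ sInf (S M) := fun M => le_csInf (ne M) (lb M)
  refine ⟨fun M => √(sInf (S M)), fun M N h => Real.sqrt_le_sqrt (csInf_le_csInf ⟨_, lb M⟩ (ne N)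
    (Set.image_mono (Set.Ici_subset_Ici.2 h))), fun M => Real.one_le_sqrt.2 (one M),
    Real.tendsto_sqrt_atTop.comp (tendsto_atTop.2 fun b => ?_), fun M => ?_⟩
  · obtain ⟨N, hN⟩ := eventually_atTop.1 (hu.eventually_ge_atTop b)
    filter_upwards [eventually_ge_atTop N] with M hM
    refine le_csInf (ne M) ?_
    rintro _ ⟨m, hm, rfl⟩
    exact (hN m (hM.trans hm)).trans (le_max_left _ _)
  · rw [Real.sq_sqrt (by linarith [one M])]
    exact csInf_le ⟨_, lb M⟩ ⟨M, Set.mem_Ici.2 le_rfl, rfl⟩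

/-- running minimum -/
def rm (f : ℕ → ℝ) (n : ℕ) : ℝ := (range (n + 1)).inf' nonempty_range_add_one f

theorem rm_le (f : ℕ → ℝ) {m n : ℕ} (h : m ≤ n) : rm f n ≤ f m :=
  inf'_le f (mem_range.2 (by omega))

theorem rm_eq (f : ℕ → ℝ) (n : ℕ) : ∃ m ≤ n, rm f n = f m := by
  obtain ⟨m, hm, e⟩ := exists_mem_eq_inf' (nonempty_range_add_one (n := n)) f
  exact ⟨m, by have := mem_range.1 hm; omega, e⟩

theorem rm_anti (f : ℕ → ℝ) : Antitone (rm f) := fun m n h => by
  obtain ⟨k, hk, e⟩ := rm_eq f m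
  rw [e]; exact rm_le f (hk.trans h)

end VRho

open VRho in
theorem rhoT : RhoT := by
  intro σ _ hg
  obtain ⟨J, j1, j2, j3, j4⟩ := exists_J hg
  have pos : ∀ n, 0 < rm (fun m => J m * ll m) n := fun n => by
    obtain ⟨m, -, e⟩ := rm_eq (fun m => J m * ll m) n
    rw [e]; exact mul_pos (by linarith [j2 m]) (ll_pos m)
  refine ⟨rm fun m => J m * ll m, pos, rm_anti _, tendsto_atTop.2 fun b => ?_, ?_⟩
  · obtain ⟨N, hN⟩ := eventually_atTop.1 (j3.eventually_ge_atTop (4 * |b|))
    have z : Tendsto (fun n => 4 * |b| * ll n) atTop (𝓝 0) := by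
      simpa using ll_zero.const_mul (4 * |b|)
    filter_upwards [z.eventually_le_const (ll_pos N), eventually_ge_atTop 2] with n h1 h2
    have h3 : 4 * |b| * ll n ≤ rm (fun m => J m * ll m) n := by
      obtain ⟨m, hm, e⟩ := rm_eq (fun m => J m * ll m) n
      rw [e]
      rcases le_total N m with c | c
      · exact mul_le_mul (hN m c) (ll_anti hm) (ll_pos n).le (by linarith [j2 m])
      · exact (h1.trans (ll_anti c)).trans (le_mul_of_one_le_left (ll_pos m).le (j2 m))
    have h4 : (2 : ℝ) ≤ n := by exact_mod_cast h2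
    have h5 : 0 < Real.log n := Real.log_pos (by linarith)
    calc b ≤ 4 * |b| * (1 / 4) := by linarith [le_abs_self b]
      _ ≤ 4 * |b| * ((n : ℝ) * ll n / Real.log n) :=
        mul_le_mul_of_nonneg_left (ll_low h2) (by positivity)
      _ = (n : ℝ) * (4 * |b| * ll n) / Real.log n := by ring
      _ ≤ _ := div_le_div_of_nonneg_right (mul_le_mul_of_nonneg_left h3 (by linarith)) h5.le
  · have z : Tendsto (fun M => 4 / J M) atTop (𝓝 0) := j3.const_div_atTop 4
    refine squeeze_zero' ?_ ?_ z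
    · filter_upwards with M
      exact div_nonneg (sum_nonneg fun d _ => (pos d).le) (sum_nonneg fun d _ => ‹∀ n, 0 ≤ σ n› d)
    · filter_upwards [Tendsto.eventually_ge_atTop hg 1, eventually_ge_atTop 2] with M h1 h2
      have h4 : (2 : ℝ) ≤ M := by exact_mod_cast h2
      have h5 : 0 < Real.log M ^ 2 := pow_pos (Real.log_pos (by linarith)) 2
      have h6 := j4 M
      rw [max_eq_left h1, le_div_iff₀ h5] at h6
      rw [le_div_iff₀ h5] at h1
      have h7 : 0 < J M := by linarith [j2 M]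
      have h8 : T3S.Wt (rm fun m => J m * ll m) M ≤ J M * (4 * Real.log M ^ 2) := by
        refine le_trans ?_ (mul_le_mul_of_nonneg_left (ll_sum' h2) h7.le)
        rw [mul_sum]
        exact sum_le_sum fun d hd => (rm_le (fun m => J m * ll m) le_rfl).trans
          (mul_le_mul_of_nonneg_right (j1 (mem_range.1 hd).le) (ll_pos d).le)
      rw [div_le_div_iff₀ (by linarith) h7]
      nlinarith [mul_le_mul_of_nonneg_right h8 h7.le]

end T5u

end
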