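import Pool.Agent.MP_154433_an.t5.UAll
import Pool.Agent.MP_154433_an.t5.UTo6
import Pool.Agent.MP_154433_an.t5.VRho
import Pool.Agent.MP_154433_an.t5.VUb
import Pool.Agent.MP_154433_an.t5.VAe
import Pool.Agent.MP_154433_an.t5.VAt
import Pool.Agent.MP_154433_an.t5.VLay
import Pool.Agent.MP_154433_an.t5.VBad
import Pool.Agent.MP_154433_an.t3s.Ub

/-! Uniform twisted averages along the random set when the total weight beats the square of the
logarithm, from the core theorem. -/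

set_option autoImplicit false

open Pool.Agent.MP_154433_an

namespace T5u

open T3x T5x

theorem mainV (F : Fd) (hZ : CovZ) (hC : ∀ ν, UW ν → CoreF ν) : MainV :=
  have b : Bas := ⟨F.a, F.t, F.d, F.c⟩
  mainV_of (sv_of (fun ν h => coreX ν (hC ν h)) (udetX F) T3S.fac conv
      (ergT (T3S.erg T3S.vn) T3S.nrm) (tw0 b (ergL b)) atomT (goodT prodT)
      (unifT T3S.fac (T3S.zero T3S.nest T3S.link) (dw T3S.nrm T3S.vdc (T3S.gvn T3S.vdc)))
      atV.1.1 atV.1.2)
    rhoT (ubV tailT) (aeV (netT (netP (T3S.apx T3S.shift (T3S.dual T3S.gcs T3S.win)) hZ))) atV layA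
    nearV (badV T3S.ub) grV

theorem uww6 (F : Fd) (hZ : CovZ) (hC : ∀ ν, UW ν → CoreF ν) (σ : ℕ → ℝ)
    (hσ : ∀ n, 0 ≤ σ n ∧ σ n ≤ 1) (ha : Antitone σ) (hg : T3S.Gr σ 2) : T6.AS σ T6.UWW :=
  as6 (mainV F hZ hC) σ hσ ha hg

end T5u
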