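import Pool.Agent.MP_154433_an.t5.Asm
import Pool.Agent.MP_154433_an.t5.VAll
import Pool.Agent.MP_154433_an.t3f.Plumb
import Pool.Agent.MP_154433_an.t3u.All

/-! Uniform twisted averages along the random set, without hypotheses. -/

set_option autoImplicit false

open Pool.Agent.MP_154433_an

namespace T5x

theorem uwwAll (σ : ℕ → ℝ) (hσ : ∀ n, 0 ≤ σ n ∧ σ n ≤ 1) (ha : Antitone σ) (hg : T3S.Gr σ 2) :
    T6.AS σ T6.UWW :=
  T5u.uww6 T3x.fdX (T3F.covZ T3u.invZ) coreAll σ hσ ha hg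

end T5x
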